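import Mathlib

set_option autoImplicit false

/-! The fixed point of the morphism 0 -> 02, 1 -> 32, 2 -> 1, 3 -> 01 (letters 0,1,2,3 stand for
0,1,3,4), with its parent structure, and a quadratic invariant for second differences of
letter counts. -/

namespace Pool.Agent.H17.AC

def len (a : ℕ) : ℕ := 2 - (4 >>> a) % 2
def img (a o : ℕ) : ℕ := (16824 >>> (4 * a + 2 * o)) % 4
def q0 (a o : ℕ) : ℕ := (130 >>> (2 * a + o)) % 2
def q3 (a o : ℕ) : ℕ := (8 >>> (2 * a + o)) % 2

def st : ℕ → ℕ × ℕ × ℕ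
  | 0 => (0, 0, 0)
  | n + 1 =>
    let m := (st n).2.1
    let a := if _h : m ≤ n then (st m).1 else 0
    let b := if _h : m + 1 ≤ n then (st (m + 1)).1 else 0
    if (st n).2.2 + 1 < len a then (img a 1, m, 1) else (img b 0, m + 1, 0)
termination_by n => n
decreasing_by all_goals omega

def w (n : ℕ) : ℕ := (st n).1
def par (n : ℕ) : ℕ := (st n).2.1
def off (n : ℕ) : ℕ := (st n).2.2

theorem w0 : w 0 = 0 := by simp [w, st]
theorem par0 : par 0 = 0 := by simp [par, st]
theorem off0 : off 0 = 0 := by simp [off, st]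

theorem img_lt (a o : ℕ) : img a o < 4 := Nat.mod_lt _ (by norm_num)

theorem w_lt (n : ℕ) : w n < 4 := by
  cases n with
  | zero => rw [w0]; norm_num
  | succ n =>
    unfold w
    rw [st]
    split_ifs <;> exact img_lt _ _

theorem len_pos (a : ℕ) : 1 ≤ len a ∧ len a ≤ 2 := by
  unfold len
  have := Nat.mod_lt (4 >>> a) (show 0 < 2 by norm_num)
  omega

theorem st_succ (n : ℕ) (h1 : par n ≤ n) :
    (off n + 1 < len (w (par n)) ∧ w (n+1) = img (w (par n)) 1 ∧ par (n+1) = par n ∧ off (n+1) = 1) ∨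
    (¬ off n + 1 < len (w (par n)) ∧ (par n + 1 ≤ n → w (n+1) = img (w (par n + 1)) 0) ∧
      par (n+1) = par n + 1 ∧ off (n+1) = 0) := by
  by_cases hc : off n + 1 < len (w (par n))
  · left
    refine ⟨hc, ?_, ?_, ?_⟩ <;>
    · unfold w par off at *
      rw [st]
      simp only [dif_pos h1, if_pos hc]
  · right
    refine ⟨hc, ?_, ?_, ?_⟩
    · intro h3
      unfold w par off at *
      rw [st]
      simp only [dif_pos h1, if_neg hc, dif_pos h3]
    · unfold w par off at *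
      rw [st]
      simp only [dif_pos h1, if_neg hc]
    · unfold w par off at *
      rw [st]
      simp only [dif_pos h1, if_neg hc]

theorem inv1 (n : ℕ) : par n ≤ n ∧ (1 ≤ n → par n + 1 ≤ n) ∧ off n < len (w (par n)) ∧
    w n = img (w (par n)) (off n) := by
  induction n with
  | zero => rw [par0, off0, w0]; decide
  | succ n ih =>
    obtain ⟨h1, h2, h3, h4⟩ := ih
    rcases st_succ n h1 with ⟨a, b, c, d⟩ | ⟨a, b, c, d⟩
    · rw [c, d]
      exact ⟨by omega, fun _ => by omega, by omega, b⟩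
    · have hn : 1 ≤ n := by
        rcases Nat.eq_zero_or_pos n with h | h
        · subst h
          rw [par0, off0, w0] at a
          exact absurd (by decide) a
        · exact h
      have := h2 hn
      rw [c, d]
      exact ⟨by omega, fun _ => by omega, (len_pos _).1, b this⟩

theorem step (n : ℕ) :
    (off n = 0 ∧ len (w (par n)) = 2 ∧ par (n+1) = par n ∧ off (n+1) = 1) ∨
    (off n + 1 = len (w (par n)) ∧ par (n+1) = par n + 1 ∧ off (n+1) = 0) := by
  obtain ⟨h1, h2, h3, -⟩ := inv1 n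
  have := len_pos (w (par n))
  rcases st_succ n h1 with ⟨a, -, c, d⟩ | ⟨a, -, c, d⟩
  · left; exact ⟨by omega, by omega, c, d⟩
  · right; exact ⟨by omega, c, d⟩

theorem mono {n n' : ℕ} (h : n < n') :
    par n < par n' ∨ (par n = par n' ∧ off n < off n') := by
  induction n', h using Nat.le_induction with
  | base => rcases step n with ⟨a, b, c, d⟩ | ⟨a, c, d⟩ <;> simp only [Nat.succ_eq_add_one] <;> omega
  | succ k hk ih =>
    have := (inv1 n).2.2.1
    have := len_pos (w (par n))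
    rcases step k with ⟨a, b, c, d⟩ | ⟨a, c, d⟩ <;> omega

theorem par_le {n n' : ℕ} (h : n ≤ n') : par n ≤ par n' := by
  rcases h.eq_or_lt with h | h
  · rw [h]
  · rcases mono h with h | h <;> omega

/-- number of occurrences of the letter `k` among the first `n` letters -/
def P (k : ℕ) : ℕ → ℕ
  | 0 => 0
  | n + 1 => P k n + if w n = k then 1 else 0

theorem P_sum (n : ℕ) : P 0 n + P 1 n + P 2 n + P 3 n = n := by
  induction n with
  | zero => simp [P]
  | succ n ih =>
    have := w_lt n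
    simp only [P]
    split_ifs <;> omega

theorem P_par (n : ℕ) :
    P 0 n = P 0 (par n) + P 3 (par n) + q0 (w (par n)) (off n) ∧
    P 1 n = P 2 (par n) + P 3 (par n) ∧
    P 2 n = P 0 (par n) + P 1 (par n) ∧
    P 3 n = P 1 (par n) + q3 (w (par n)) (off n) := by
  induction n with
  | zero => rw [par0, off0, w0]; simp [P]; decide
  | succ n ih =>
    obtain ⟨i0, i1, i2, i3⟩ := ih
    have hw := (inv1 n).2.2.2
    have hl := w_lt (par n)
    rcases step n with ⟨a, b, c, d⟩ | ⟨a, c, d⟩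
    · rw [c, d]
      simp only [P]
      rw [i0, i1, i2, i3, hw, a]
      generalize w (par n) = x at *
      interval_cases x <;> simp [img, q0, q3, len] at b ⊢
    · rw [c, d]
      simp only [P]
      rw [i0, i1, i2, i3, hw]
      have e0 : ∀ y, q0 y 0 = 0 ∨ 4 ≤ y := by
        intro y
        by_cases hy : 4 ≤ y
        · exact Or.inr hy
        · left; interval_cases y <;> decide
      have e3 : ∀ y, q3 y 0 = 0 ∨ 4 ≤ y := by
        intro y
        by_cases hy : 4 ≤ y
        · exact Or.inr hy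
        · left; interval_cases y <;> decide
      have f0 := e0 (w (par n + 1))
      have f3 := e3 (w (par n + 1))
      have hl2 := w_lt (par n + 1)
      have g0 : q0 (w (par n + 1)) 0 = 0 := by omega
      have g3 : q3 (w (par n + 1)) 0 = 0 := by omega
      rw [g0, g3]
      have ho : off n = len (w (par n)) - 1 := by omega
      rw [ho]
      generalize w (par n) = x at *
      interval_cases x <;> simp [img, q0, q3, len] <;> omega

/-- second difference of the counts of `k` -/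
def dd (k m1 m2 m3 : ℕ) : ℤ := (P k m3 : ℤ) - 2 * P k m2 + P k m1

def F (a b c d : ℤ) : ℤ :=
  198*a*a + 41*b*b + 114*c*c + 143*d*d - 192*a*b - 240*a*c + 174*a*d + 92*b*c - 60*b*d - 250*c*d

def H (a b : ℤ) : ℤ := 4384*a*a + 3892*a*b + 3237*b*b

theorem lyap (a b c d x y : ℤ) :
    8 * F (a+d+x) (c+d) (a+b) (b+y) ≤ 5 * F a b c d + H x y := by
  have h : ((5 * F a b c d + H x y - 8 * F (a+d+x) (c+d) (a+b) (b+y) : ℤ) : ℚ) =
      (1/414)*((414)*a + (-128)*b + (-200)*c + (211)*d + (-624)*x + (304)*y)^2 + (1/4688757)*((22651)*b + (8314)*c + (10606)*d + (14712)*x + (-10352)*y)^2 + (1/67026891214)*((2959114)*c + (-2307547)*d + (9976944)*x + (9178544)*y)^2 + (4/70066260824351)*((47356243)*d + (-69454692)*x + (-100435842)*y)^2 + (1/29633611743409564)*((1251518696)*x + (-563001581)*y)^2 + (2160222929/625759348)*((1)*y)^2 := by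
    unfold F H
    push_cast
    ring
  have h2 : (0:ℚ) ≤ ((5 * F a b c d + H x y - 8 * F (a+d+x) (c+d) (a+b) (b+y) : ℤ) : ℚ) := by
    rw [h]; positivity
  have h3 := Int.cast_nonneg_iff.mp h2
  omega

/-- correction terms -/
def c0 (n1 n2 n3 : ℕ) : ℤ :=
  (q0 (w (par n3)) (off n3) : ℤ) - 2 * q0 (w (par n2)) (off n2) + q0 (w (par n1)) (off n1)
def c3 (n1 n2 n3 : ℕ) : ℤ :=
  (q3 (w (par n3)) (off n3) : ℤ) - 2 * q3 (w (par n2)) (off n2) + q3 (w (par n1)) (off n1)

theorem dd_par (n1 n2 n3 : ℕ) :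
    dd 0 n1 n2 n3 = dd 0 (par n1) (par n2) (par n3) + dd 3 (par n1) (par n2) (par n3) + c0 n1 n2 n3 ∧
    dd 1 n1 n2 n3 = dd 2 (par n1) (par n2) (par n3) + dd 3 (par n1) (par n2) (par n3) ∧
    dd 2 n1 n2 n3 = dd 0 (par n1) (par n2) (par n3) + dd 1 (par n1) (par n2) (par n3) ∧
    dd 3 n1 n2 n3 = dd 1 (par n1) (par n2) (par n3) + c3 n1 n2 n3 := by
  obtain ⟨a0, a1, a2, a3⟩ := P_par n1
  obtain ⟨b0, b1, b2, b3⟩ := P_par n2
  obtain ⟨e0, e1, e2, e3⟩ := P_par n3
  unfold dd c0 c3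
  omega

theorem off_lt (n : ℕ) : off n < 2 := by
  have := (inv1 n).2.2.1
  have := len_pos (w (par n))
  omega

theorem q_cases (n : ℕ) :
    (q0 (w (par n)) (off n) = 0 ∧ q3 (w (par n)) (off n) = 0) ∨
    (q0 (w (par n)) (off n) = 1 ∧ q3 (w (par n)) (off n) = 0) ∨
    (q0 (w (par n)) (off n) = 0 ∧ q3 (w (par n)) (off n) = 1) := by
  have h1 := w_lt (par n)
  have h2 := off_lt n
  generalize w (par n) = a at *
  generalize off n = o at *
  interval_cases a <;> interval_cases o <;> decide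

theorem H_le (n1 n2 n3 : ℕ) : H (c0 n1 n2 n3) (c3 n1 n2 n3) ≤ 17538 ∧
    -2 ≤ c0 n1 n2 n3 ∧ c0 n1 n2 n3 ≤ 2 ∧ -2 ≤ c3 n1 n2 n3 ∧ c3 n1 n2 n3 ≤ 2 := by
  unfold c0 c3
  rcases q_cases n1 with ⟨a, b⟩ | ⟨a, b⟩ | ⟨a, b⟩ <;>
  rcases q_cases n2 with ⟨c, d⟩ | ⟨c, d⟩ | ⟨c, d⟩ <;>
  rcases q_cases n3 with ⟨e, f⟩ | ⟨e, f⟩ | ⟨e, f⟩ <;>
  rw [a, b, c, d, e, f] <;> decide

theorem par_sum {n1 n2 n3 : ℕ} (h : 0 < n1 + n2 + n3) :
    par n1 + par n2 + par n3 < n1 + n2 + n3 := by
  have a := inv1 n1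
  have b := inv1 n2
  have c := inv1 n3
  omega

theorem F_le (k : ℕ) : ∀ n1 n2 n3 : ℕ, n1 + n2 + n3 = k →
    F (dd 0 n1 n2 n3) (dd 1 n1 n2 n3) (dd 2 n1 n2 n3) (dd 3 n1 n2 n3) ≤ 5846 := by
  induction k using Nat.strong_induction_on with
  | _ k ih =>
    intro n1 n2 n3 hk
    rcases Nat.eq_zero_or_pos k with h0 | h0
    · have e1 : n1 = 0 := by omega
      have e2 : n2 = 0 := by omega
      have e3 : n3 = 0 := by omega
      subst e1 e2 e3
      simp [dd, P, F]
    · have h1 := ih _ (by rw [← hk]; exact par_sum (by omega)) (par n1) (par n2) (par n3) rfl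
      obtain ⟨a, b, c, d⟩ := dd_par n1 n2 n3
      have h2 := (H_le n1 n2 n3).1
      have h3 := lyap (dd 0 (par n1) (par n2) (par n3)) (dd 1 (par n1) (par n2) (par n3))
        (dd 2 (par n1) (par n2) (par n3)) (dd 3 (par n1) (par n2) (par n3)) (c0 n1 n2 n3) (c3 n1 n2 n3)
      rw [a, b, c, d]
      omega

end Pool.Agent.H17.AC
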