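import Pool.Agent.H17.AC1

set_option autoImplicit false

/-! Finite certificates for the set of approximate additive cubes of the fixed point `w`. -/

namespace Pool.Agent.H17.AC

def force {β : Type} (n : ℕ) (k : ℕ → β) : β :=
  match n with
  | 0 => k 0
  | m + 1 => k (m + 1)

theorem force_eq {β : Type} (n : ℕ) (k : ℕ → β) : force n k = k n := by
  cases n <;> rfl

def forceI {β : Type} (n : ℤ) (k : ℤ → β) : β :=
  match n with
  | Int.ofNat m => force m fun j => k (Int.ofNat j)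
  | Int.negSucc m => force m fun j => k (Int.negSucc j)

theorem forceI_eq {β : Type} (n : ℤ) (k : ℤ → β) : forceI n k = k n := by
  cases n <;> simp [forceI, force_eq]

def allLt (n : ℕ) (p : ℕ → Bool) : Bool := Nat.rec true (fun i ih => p i && ih) n

theorem allLt_spec {n : ℕ} {p : ℕ → Bool} (h : allLt n p = true) : ∀ i < n, p i = true := by
  induction n with
  | zero => intro i hi; omega
  | succ n ih =>
    have h' : (p n && allLt n p) = true := h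
    rw [Bool.and_eq_true] at h'
    intro i hi
    rcases Nat.lt_succ_iff_lt_or_eq.mp hi with h1 | h1
    · exact ih h'.2 i h1
    · rw [h1]; exact h'.1

/-- a packed sorted array -/
structure PS where
  dat : ℕ
  wd : ℕ
  md : ℕ
  n : ℕ

def PS.key (A : PS) (i : ℕ) : ℕ := (A.dat >>> (A.wd * i)) % A.md

def bs (A : PS) (x : ℕ) : ℕ → ℕ → ℕ → Bool :=
  fun f => Nat.rec (fun lo _ => Nat.beq (A.key lo) x)
    (fun _ ih lo hi => force ((lo + hi) / 2) fun mid =>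
      bif Nat.ble (A.key mid) x then ih mid hi else ih lo mid) f

def PS.mem (A : PS) (x : ℕ) : Bool := bs A x 12 0 A.n

theorem bs_spec (A : PS) (x f : ℕ) : ∀ lo hi, lo < A.n → hi ≤ A.n → bs A x f lo hi = true →
    ∃ i < A.n, A.key i = x := by
  induction f with
  | zero =>
    intro lo hi h1 _ h
    exact ⟨lo, h1, Nat.eq_of_beq_eq_true h⟩
  | succ f ih =>
    intro lo hi h1 h2 h
    have h' : (force ((lo + hi) / 2) fun mid =>
      bif Nat.ble (A.key mid) x then bs A x f mid hi else bs A x f lo mid) = true := h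
    rw [force_eq] at h'
    cases hb : Nat.ble (A.key ((lo + hi) / 2)) x
    · rw [hb] at h'
      exact ih _ _ h1 (by omega) h'
    · rw [hb] at h'
      exact ih _ _ (by omega) h2 h'

def PS.all (A : PS) (p : ℕ → Bool) : Bool :=
  Nat.blt 0 A.n && allLt A.n fun i => force (A.key i) p

theorem PS.all_spec {A : PS} {p : ℕ → Bool} (h : A.all p = true) {x : ℕ} (hx : A.mem x = true) :
    p x = true := by
  unfold PS.all at h
  rw [Bool.and_eq_true, Nat.blt_eq] at h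
  obtain ⟨i, hi, rfl⟩ := bs_spec A x 12 0 A.n h.1 le_rfl hx
  have := allLt_spec h.2 i hi
  rwa [force_eq] at this

def enc (a b c d : ℤ) : ℕ :=
  (a + 8).toNat + 16 * (b + 8).toNat + 256 * (c + 8).toNat + 4096 * (d + 8).toNat

def okD (D : PS) (a b c d : ℤ) : Bool :=
  decide (-8 ≤ a ∧ a < 8 ∧ -8 ≤ b ∧ b < 8 ∧ -8 ≤ c ∧ c < 8 ∧ -8 ≤ d ∧ d < 8) &&
    force (enc a b c d) D.mem

def chkD (D : PS) : Bool :=
  D.all fun t =>
    forceI (((t % 16 : ℕ) : ℤ) - 8) fun a => forceI (((t / 16 % 16 : ℕ) : ℤ) - 8) fun b =>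
    forceI (((t / 256 % 16 : ℕ) : ℤ) - 8) fun c => forceI (((t / 4096 % 16 : ℕ) : ℤ) - 8) fun d =>
    allLt 5 fun i => allLt 5 fun j =>
      decide (17538 < H ((i : ℤ) - 2) ((j : ℤ) - 2)) ||
      forceI (d - ((j : ℤ) - 2)) fun p1 => forceI (c - p1) fun p0 =>
      forceI (a - ((i : ℤ) - 2) - p0) fun p3 => forceI (b - p3) fun p2 =>
        decide (5846 < F p0 p1 p2 p3) || okD D p0 p1 p2 p3

def inD (D : PS) (n1 n2 n3 : ℕ) : Prop :=
  okD D (dd 0 n1 n2 n3) (dd 1 n1 n2 n3) (dd 2 n1 n2 n3) (dd 3 n1 n2 n3) = true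

def rng (n1 n2 n3 : ℕ) : Prop :=
  -8 ≤ dd 0 n1 n2 n3 ∧ dd 0 n1 n2 n3 < 8 ∧ -8 ≤ dd 1 n1 n2 n3 ∧ dd 1 n1 n2 n3 < 8 ∧
  -8 ≤ dd 2 n1 n2 n3 ∧ dd 2 n1 n2 n3 < 8 ∧ -8 ≤ dd 3 n1 n2 n3 ∧ dd 3 n1 n2 n3 < 8

theorem inD_iff (D : PS) (n1 n2 n3 : ℕ) : inD D n1 n2 n3 ↔ rng n1 n2 n3 ∧
    D.mem (enc (dd 0 n1 n2 n3) (dd 1 n1 n2 n3) (dd 2 n1 n2 n3) (dd 3 n1 n2 n3)) = true := by
  unfold inD okD rng
  rw [Bool.and_eq_true, force_eq, decide_eq_true_iff]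

theorem inD_par {D : PS} (hD : chkD D = true) {n1 n2 n3 : ℕ} (h : inD D n1 n2 n3) :
    inD D (par n1) (par n2) (par n3) := by
  obtain ⟨hr, hm⟩ := (inD_iff D n1 n2 n3).mp h
  have h1 := PS.all_spec hD hm
  obtain ⟨e0, e1, e2, e3⟩ := dd_par n1 n2 n3
  obtain ⟨g0, g1, g2, g3, g4⟩ := H_le n1 n2 n3
  have hF := F_le _ (par n1) (par n2) (par n3) rfl
  unfold rng at hr
  unfold inD
  simp only [forceI_eq] at h1
  have h2 := allLt_spec (allLt_spec h1 (c0 n1 n2 n3 + 2).toNat (by omega)) (c3 n1 n2 n3 + 2).toNat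
    (by omega)
  have k0 : (((c0 n1 n2 n3 + 2).toNat : ℕ) : ℤ) - 2 = c0 n1 n2 n3 := by omega
  have k3 : (((c3 n1 n2 n3 + 2).toNat : ℕ) : ℤ) - 2 = c3 n1 n2 n3 := by omega
  rw [k0, k3] at h2
  generalize dd 0 n1 n2 n3 = a at *
  generalize dd 1 n1 n2 n3 = b at *
  generalize dd 2 n1 n2 n3 = c at *
  generalize dd 3 n1 n2 n3 = d at *
  have j0 : ((enc a b c d % 16 : ℕ) : ℤ) - 8 = a := by unfold enc; omega
  have j1 : ((enc a b c d / 16 % 16 : ℕ) : ℤ) - 8 = b := by unfold enc; omega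
  have j2 : ((enc a b c d / 256 % 16 : ℕ) : ℤ) - 8 = c := by unfold enc; omega
  have j3 : ((enc a b c d / 4096 % 16 : ℕ) : ℤ) - 8 = d := by unfold enc; omega
  rw [j0, j1, j2, j3] at h2
  have l1 : d - c3 n1 n2 n3 = dd 1 (par n1) (par n2) (par n3) := by omega
  rw [l1] at h2
  have l0 : c - dd 1 (par n1) (par n2) (par n3) = dd 0 (par n1) (par n2) (par n3) := by omega
  rw [l0] at h2
  have l3 : a - c0 n1 n2 n3 - dd 0 (par n1) (par n2) (par n3) = dd 3 (par n1) (par n2) (par n3) := by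
    omega
  rw [l3] at h2
  have l2 : b - dd 3 (par n1) (par n2) (par n3) = dd 2 (par n1) (par n2) (par n3) := by omega
  rw [l2] at h2
  simp only [Bool.or_eq_true, decide_eq_true_iff] at h2
  rcases h2 with h2 | h2 | h2
  · omega
  · omega
  · exact h2

/-- code of a triple of positions -/
def tc (n1 n2 n3 : ℕ) : ℕ :=
  enc (dd 0 n1 n2 n3) (dd 1 n1 n2 n3) (dd 2 n1 n2 n3) (dd 3 n1 n2 n3) +
    65536 * (w n1 + 4 * w n2 + 16 * w n3 + 64 * (if n1 = n2 then 1 else 0) +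
      128 * (if n2 = n3 then 1 else 0))

def chd (a1 a2 a3 f1 f2 x0 x1 x2 x3 o1 o2 o3 : ℕ) : ℕ :=
  if o1 < len a1 ∧ o2 < len a2 ∧ o3 < len a3 ∧ (f1 = 0 ∨ o1 ≤ o2) ∧ (f2 = 0 ∨ o2 ≤ o3) then
    force (x0 + x3 + q0 a3 o3 + q0 a1 o1) fun y0 => force (8 + 2 * q0 a2 o2) fun z0 =>
    force (x1 + q3 a3 o3 + q3 a1 o1) fun y3 => force (2 * q3 a2 o2) fun z3 =>
    if z0 ≤ y0 ∧ y0 < z0 + 16 ∧ 8 ≤ x2 + x3 ∧ x2 + x3 < 24 ∧ 8 ≤ x0 + x1 ∧ x0 + x1 < 24 ∧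
        z3 ≤ y3 ∧ y3 < z3 + 16 then
      (y0 - z0) + 16 * (x2 + x3 - 8) + 256 * (x0 + x1 - 8) + 4096 * (y3 - z3) +
        65536 * (img a1 o1 + 4 * img a2 o2 + 16 * img a3 o3 +
          64 * (if f1 = 1 ∧ o1 = o2 then 1 else 0) + 128 * (if f2 = 1 ∧ o2 = o3 then 1 else 0))
    else 0
  else 0

def dec9 {β : Type} (t : ℕ) (k : ℕ → ℕ → ℕ → ℕ → ℕ → ℕ → ℕ → ℕ → ℕ → β) : β :=
  force (t / 65536 % 4) fun a1 => force (t / 262144 % 4) fun a2 => force (t / 1048576 % 4) fun a3 =>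
  force (t / 4194304 % 2) fun f1 => force (t / 8388608 % 2) fun f2 =>
  force (t % 16) fun x0 => force (t / 16 % 16) fun x1 => force (t / 256 % 16) fun x2 =>
  force (t / 4096 % 16) fun x3 => k a1 a2 a3 f1 f2 x0 x1 x2 x3

theorem digits (y0 y1 y2 y3 a1 a2 a3 g1 g2 t : ℕ) (x0 : y0 < 16) (x1 : y1 < 16) (x2 : y2 < 16)
    (x3 : y3 < 16) (a : a1 < 4) (b : a2 < 4) (c : a3 < 4) (f1 : g1 ≤ 1) (f2 : g2 ≤ 1)
    (ht : t = y0 + 16 * y1 + 256 * y2 + 4096 * y3 +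
      65536 * (a1 + 4 * a2 + 16 * a3 + 64 * g1 + 128 * g2)) :
    t / 65536 % 4 = a1 ∧ t / 262144 % 4 = a2 ∧ t / 1048576 % 4 = a3 ∧ t / 4194304 % 2 = g1 ∧
    t / 8388608 % 2 = g2 ∧ t % 16 = y0 ∧ t / 16 % 16 = y1 ∧ t / 256 % 16 = y2 ∧
    t / 4096 % 16 = y3 := by
  have h1 : t / 16 = y1 + 16 * y2 + 256 * y3 + 4096 * (a1 + 4 * a2 + 16 * a3 + 64 * g1 + 128 * g2) := by
    omega
  have h2 : t / 256 = y2 + 16 * y3 + 256 * (a1 + 4 * a2 + 16 * a3 + 64 * g1 + 128 * g2) := by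
    omega
  have h3 : t / 4096 = y3 + 16 * (a1 + 4 * a2 + 16 * a3 + 64 * g1 + 128 * g2) := by omega
  have h4 : t / 65536 = a1 + 4 * a2 + 16 * a3 + 64 * g1 + 128 * g2 := by omega
  have h5 : t / 262144 = a2 + 4 * a3 + 16 * g1 + 32 * g2 := by omega
  have h6 : t / 1048576 = a3 + 4 * g1 + 8 * g2 := by omega
  have h7 : t / 4194304 = g1 + 2 * g2 := by omega
  have h8 : t / 8388608 = g2 := by omega
  have h0 : t % 16 = y0 := by omega
  rw [h1, h2, h3, h4, h5, h6, h7, h8]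
  clear h1 h2 h3 h4 h5 h6 h7 h8 ht
  refine ⟨?_, ?_, ?_, ?_, ?_, h0, ?_, ?_, ?_⟩ <;> omega

theorem dec9_tc {β : Type} {n1 n2 n3 : ℕ} (h : rng n1 n2 n3)
    (k : ℕ → ℕ → ℕ → ℕ → ℕ → ℕ → ℕ → ℕ → ℕ → β) :
    dec9 (tc n1 n2 n3) k = k (w n1) (w n2) (w n3) (if n1 = n2 then 1 else 0)
      (if n2 = n3 then 1 else 0) (dd 0 n1 n2 n3 + 8).toNat (dd 1 n1 n2 n3 + 8).toNat
      (dd 2 n1 n2 n3 + 8).toNat (dd 3 n1 n2 n3 + 8).toNat := by
  unfold dec9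
  simp only [force_eq]
  have a := w_lt n1
  have b := w_lt n2
  have c := w_lt n3
  have f1 : (if n1 = n2 then 1 else 0 : ℕ) ≤ 1 := by split_ifs <;> omega
  have f2 : (if n2 = n3 then 1 else 0 : ℕ) ≤ 1 := by split_ifs <;> omega
  unfold rng at h
  have x0 : (dd 0 n1 n2 n3 + 8).toNat < 16 := by omega
  have x1 : (dd 1 n1 n2 n3 + 8).toNat < 16 := by omega
  have x2 : (dd 2 n1 n2 n3 + 8).toNat < 16 := by omega
  have x3 : (dd 3 n1 n2 n3 + 8).toNat < 16 := by omega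
  unfold tc enc
  generalize (if n1 = n2 then 1 else 0 : ℕ) = g1 at *
  generalize (if n2 = n3 then 1 else 0 : ℕ) = g2 at *
  generalize (dd 0 n1 n2 n3 + 8).toNat = y0 at *
  generalize (dd 1 n1 n2 n3 + 8).toNat = y1 at *
  generalize (dd 2 n1 n2 n3 + 8).toNat = y2 at *
  generalize (dd 3 n1 n2 n3 + 8).toNat = y3 at *
  generalize w n1 = a1 at *
  generalize w n2 = a2 at *
  generalize w n3 = a3 at *
  obtain ⟨r1, r2, r3, r4, r5, r6, r7, r8, r9⟩ := digits y0 y1 y2 y3 a1 a2 a3 g1 g2 _ x0 x1 x2 x3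
    a b c f1 f2 rfl
  rw [r1, r2, r3, r4, r5, r6, r7, r8, r9]

theorem tc_lt {n1 n2 n3 : ℕ} (h : rng n1 n2 n3) : tc n1 n2 n3 < 16777216 ∧
    tc n1 n2 n3 % 65536 =
      enc (dd 0 n1 n2 n3) (dd 1 n1 n2 n3) (dd 2 n1 n2 n3) (dd 3 n1 n2 n3) := by
  have a := w_lt n1
  have b := w_lt n2
  have c := w_lt n3
  have f1 : (if n1 = n2 then 1 else 0 : ℕ) ≤ 1 := by split_ifs <;> omega
  have f2 : (if n2 = n3 then 1 else 0 : ℕ) ≤ 1 := by split_ifs <;> omega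
  unfold rng at h
  have x0 : (dd 0 n1 n2 n3 + 8).toNat < 16 := by omega
  have x1 : (dd 1 n1 n2 n3 + 8).toNat < 16 := by omega
  have x2 : (dd 2 n1 n2 n3 + 8).toNat < 16 := by omega
  have x3 : (dd 3 n1 n2 n3 + 8).toNat < 16 := by omega
  unfold tc enc
  generalize (if n1 = n2 then 1 else 0 : ℕ) = g1 at *
  generalize (if n2 = n3 then 1 else 0 : ℕ) = g2 at *
  generalize (dd 0 n1 n2 n3 + 8).toNat = y0 at *
  generalize (dd 1 n1 n2 n3 + 8).toNat = y1 at *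
  generalize (dd 2 n1 n2 n3 + 8).toNat = y2 at *
  generalize (dd 3 n1 n2 n3 + 8).toNat = y3 at *
  clear h
  omega

theorem toN {a : ℤ} (h : -8 ≤ a) : ∃ y : ℕ, (a + 8).toNat = y ∧ a = (y : ℤ) - 8 :=
  ⟨_, rfl, by omega⟩

theorem flag {n1 n2 : ℕ} (h : n1 ≤ n2) :
    ((if par n1 = par n2 then 1 else 0 : ℕ) = 0 ∨ off n1 ≤ off n2) ∧
    (if (if par n1 = par n2 then 1 else 0 : ℕ) = 1 ∧ off n1 = off n2 then 1 else 0 : ℕ) =
      if n1 = n2 then 1 else 0 := by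
  rcases h.eq_or_lt with h | h
  · subst h; simp
  · rcases mono h with g | ⟨g1, g2⟩
    · simp [g.ne, h.ne]
    · simp [g1, g2.ne, h.ne, g2.le]

theorem chd_tc {n1 n2 n3 : ℕ} (h12 : n1 ≤ n2) (h23 : n2 ≤ n3)
    (hp : rng (par n1) (par n2) (par n3)) (hn : rng n1 n2 n3) :
    chd (w (par n1)) (w (par n2)) (w (par n3)) (if par n1 = par n2 then 1 else 0)
      (if par n2 = par n3 then 1 else 0) (dd 0 (par n1) (par n2) (par n3) + 8).toNat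
      (dd 1 (par n1) (par n2) (par n3) + 8).toNat (dd 2 (par n1) (par n2) (par n3) + 8).toNat
      (dd 3 (par n1) (par n2) (par n3) + 8).toNat (off n1) (off n2) (off n3) = tc n1 n2 n3 := by
  obtain ⟨a1, a2⟩ := flag h12
  obtain ⟨b1, b2⟩ := flag h23
  obtain ⟨e0, e1, e2, e3⟩ := dd_par n1 n2 n3
  unfold chd
  rw [if_pos ⟨(inv1 n1).2.2.1, (inv1 n2).2.2.1, (inv1 n3).2.2.1, a1, b1⟩]
  simp only [force_eq]
  unfold rng at hp hn
  unfold c0 at e0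
  unfold c3 at e3
  rw [a2, b2, ← (inv1 n1).2.2.2, ← (inv1 n2).2.2.2, ← (inv1 n3).2.2.2]
  unfold tc enc
  obtain ⟨p0, p0', p1, p1', p2, p2', p3, p3'⟩ := hp
  obtain ⟨r0, r0', r1, r1', r2, r2', r3, r3'⟩ := hn
  obtain ⟨x0, s0, t0⟩ := toN p0
  obtain ⟨x1, s1, t1⟩ := toN p1
  obtain ⟨x2, s2, t2⟩ := toN p2
  obtain ⟨x3, s3, t3⟩ := toN p3
  obtain ⟨y0, u0, v0⟩ := toN r0
  obtain ⟨y1, u1, v1⟩ := toN r1
  obtain ⟨y2, u2, v2⟩ := toN r2
  obtain ⟨y3, u3, v3⟩ := toN r3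
  rw [s0, s1, s2, s3, u0, u1, u2, u3]
  rw [t0, t3, v0] at e0
  rw [t2, t3, v1] at e1
  rw [t0, t1, v2] at e2
  rw [t1, v3] at e3
  rw [v0] at r0'
  rw [v1] at r1'
  rw [v2] at r2'
  rw [v3] at r3'
  clear s0 s1 s2 s3 u0 u1 u2 u3 t0 t1 t2 t3 v0 v1 v2 v3 p0 p1 p2 p3 p0' p1' p2' p3' r0 r1 r2 r3
    a1 a2 b1 b2
  rw [if_pos (by omega)]
  have k0 : x0 + x3 + q0 (w (par n3)) (off n3) + q0 (w (par n1)) (off n1) -
      (8 + 2 * q0 (w (par n2)) (off n2)) = y0 := by omega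
  have k1 : x2 + x3 - 8 = y1 := by omega
  have k2 : x0 + x1 - 8 = y2 := by omega
  have k3 : x1 + q3 (w (par n3)) (off n3) + q3 (w (par n1)) (off n1) -
      2 * q3 (w (par n2)) (off n2) = y3 := by omega
  rw [k0, k1, k2, k3]

end Pool.Agent.H17.AC
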