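import Pool.Agent.H17.AC2

set_option autoImplicit false

/-! Closure certificates and the last morphism. -/

namespace Pool.Agent.H17.AC

def kids (t : ℕ) (p : ℕ → Bool) : Bool :=
  dec9 t fun a1 a2 a3 f1 f2 x0 x1 x2 x3 =>
    allLt 2 fun o1 => allLt 2 fun o2 => allLt 2 fun o3 =>
      force (chd a1 a2 a3 f1 f2 x0 x1 x2 x3 o1 o2 o3) p

theorem kids_spec {n1 n2 n3 : ℕ} (h12 : n1 ≤ n2) (h23 : n2 ≤ n3)
    (hp : rng (par n1) (par n2) (par n3)) (hn : rng n1 n2 n3) {p : ℕ → Bool}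
    (h : kids (tc (par n1) (par n2) (par n3)) p = true) : p (tc n1 n2 n3) = true := by
  unfold kids at h
  rw [dec9_tc hp] at h
  have := allLt_spec (allLt_spec (allLt_spec h _ (off_lt n1)) _ (off_lt n2)) _ (off_lt n3)
  rwa [force_eq, chd_tc h12 h23 hp hn] at this

def chkR (D R : PS) : Bool :=
  R.mem 12617864 && R.all fun t => kids t fun c => !(force (c % 65536) D.mem) || R.mem c

theorem tc0 : tc 0 0 0 = 12617864 := by
  simp [tc, dd, P, w0, enc]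

theorem inR {D R : PS} (hD : chkD D = true) (hR : chkR D R = true) (k : ℕ) :
    ∀ n1 n2 n3 : ℕ, n1 + n2 + n3 = k → n1 ≤ n2 → n2 ≤ n3 → inD D n1 n2 n3 →
      R.mem (tc n1 n2 n3) = true := by
  unfold chkR at hR
  rw [Bool.and_eq_true] at hR
  induction k using Nat.strong_induction_on with
  | _ k ih =>
    intro n1 n2 n3 hk h12 h23 h
    rcases Nat.eq_zero_or_pos k with h0 | h0
    · have e1 : n1 = 0 := by omega
      have e2 : n2 = 0 := by omega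
      have e3 : n3 = 0 := by omega
      subst e1 e2 e3
      rw [tc0]; exact hR.1
    · have hp := inD_par hD h
      have h1 := ih _ (by rw [← hk]; exact par_sum (by omega)) (par n1) (par n2) (par n3) rfl
        (par_le h12) (par_le h23) hp
      obtain ⟨hr, hm⟩ := (inD_iff D n1 n2 n3).mp h
      have h2 := kids_spec h12 h23 ((inD_iff D _ _ _).mp hp).1 hr (PS.all_spec hR.2 h1)
      rw [force_eq, (tc_lt hr).2, hm] at h2
      simpa using h2

def chkS (D R S : PS) : Bool :=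
  (S.all fun t => force (t % 65536) D.mem) &&
    R.all fun t => S.mem t || kids t fun c => !(S.mem c)

def inS (S : PS) (n1 n2 n3 : ℕ) : Prop := rng n1 n2 n3 ∧ S.mem (tc n1 n2 n3) = true

theorem inS_par {D R S : PS} (hD : chkD D = true) (hR : chkR D R = true) (hS : chkS D R S = true)
    {n1 n2 n3 : ℕ} (h12 : n1 ≤ n2) (h23 : n2 ≤ n3) (h : inS S n1 n2 n3) :
    inS S (par n1) (par n2) (par n3) := by
  unfold chkS at hS
  rw [Bool.and_eq_true] at hS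
  have h1 := PS.all_spec hS.1 h.2
  rw [force_eq, (tc_lt h.1).2] at h1
  have h2 := inD_par hD ((inD_iff D n1 n2 n3).mpr ⟨h.1, h1⟩)
  have h3 := inR hD hR _ _ _ _ rfl (par_le h12) (par_le h23) h2
  have h4 := PS.all_spec hS.2 h3
  have hr := ((inD_iff D _ _ _).mp h2).1
  rw [Bool.or_eq_true] at h4
  rcases h4 with h4 | h4
  · exact ⟨hr, h4⟩
  · have := kids_spec h12 h23 hr h.1 h4
    rw [h.2] at this
    simp at this

def chkX (S X : PS) : Bool :=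
  X.mem (12617864 * 16777216 + 12617864) && X.all fun t =>
    dec9 (t / 16777216) fun a1 a2 a3 f1 f2 x0 x1 x2 x3 =>
    dec9 (t % 16777216) fun b1 b2 b3 g1 g2 y0 y1 y2 y3 =>
      allLt 2 fun o1 => allLt 2 fun o2 => allLt 2 fun o3 =>
        force (chd a1 a2 a3 f1 f2 x0 x1 x2 x3 o1 o2 o3) fun c => !(S.mem c) ||
          allLt 2 fun o4 => force (chd b1 b2 b3 g1 g2 y0 y1 y2 y3 o2 o3 o4) fun e =>
            !(S.mem e) || force (c * 16777216 + e) X.mem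

theorem inX {D R S X : PS} (hD : chkD D = true) (hR : chkR D R = true) (hS : chkS D R S = true)
    (hX : chkX S X = true) (k : ℕ) :
    ∀ n1 n2 n3 n4 : ℕ, n1 + n2 + n3 + n4 = k → n1 ≤ n2 → n2 ≤ n3 → n3 ≤ n4 → inS S n1 n2 n3 →
      inS S n2 n3 n4 → X.mem (tc n1 n2 n3 * 16777216 + tc n2 n3 n4) = true := by
  unfold chkX at hX
  rw [Bool.and_eq_true] at hX
  induction k using Nat.strong_induction_on with
  | _ k ih =>
    intro n1 n2 n3 n4 hk h12 h23 h34 h h'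
    rcases Nat.eq_zero_or_pos k with h0 | h0
    · have e1 : n1 = 0 := by omega
      have e2 : n2 = 0 := by omega
      have e3 : n3 = 0 := by omega
      have e4 : n4 = 0 := by omega
      subst e1 e2 e3 e4
      rw [tc0]; exact hX.1
    · have hp := inS_par hD hR hS h12 h23 h
      have hp' := inS_par hD hR hS h23 h34 h'
      have hlt : par n1 + par n2 + par n3 + par n4 < k := by
        have a := inv1 n1
        have b := inv1 n2
        have c := inv1 n3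
        have d := inv1 n4
        omega
      have h1 := ih _ hlt (par n1) (par n2) (par n3) (par n4) rfl
        (par_le h12) (par_le h23) (par_le h34) hp hp'
      have h2 := PS.all_spec hX.2 h1
      have l1 := (tc_lt hp'.1).1
      have k1 : (tc (par n1) (par n2) (par n3) * 16777216 + tc (par n2) (par n3) (par n4)) /
        16777216 = tc (par n1) (par n2) (par n3) := by omega
      have k2 : (tc (par n1) (par n2) (par n3) * 16777216 + tc (par n2) (par n3) (par n4)) %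
        16777216 = tc (par n2) (par n3) (par n4) := by omega
      simp only [k1, k2] at h2
      rw [dec9_tc hp.1, dec9_tc hp'.1] at h2
      have h3 := allLt_spec (allLt_spec (allLt_spec h2 _ (off_lt n1)) _ (off_lt n2)) _ (off_lt n3)
      rw [force_eq, chd_tc h12 h23 hp.1 h.1, h.2] at h3
      simp only [Bool.not_true, Bool.false_or] at h3
      have h4 := allLt_spec h3 _ (off_lt n4)
      rw [force_eq, chd_tc h23 h34 hp'.1 h'.1, h'.2, force_eq] at h4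
      simpa using h4

/-- a uniform morphism of length `L`, seen through the sums `sg a o` of the first `o` letters of
the image of `a`; `s0, …, s3` are the sums of the four images -/
structure Mor where
  L : ℕ
  s0 : ℕ
  s1 : ℕ
  s2 : ℕ
  s3 : ℕ
  sg : ℕ → ℕ → ℕ

def Mor.T (g : Mor) (N : ℕ) : ℕ :=
  g.s0 * P 0 (N / g.L) + g.s1 * P 1 (N / g.L) + g.s2 * P 2 (N / g.L) + g.s3 * P 3 (N / g.L) +
    g.sg (w (N / g.L)) (N % g.L)

def tg (g : Mor) (a1 a2 a3 f1 f2 u v o1 o2 o3 : ℕ) : Bool :=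
  Nat.blt o3 g.L && Nat.beq (u + o3 + o1) (2 * o2 + 32 * g.L) &&
    Nat.beq (v + g.sg a3 o3 + g.sg a1 o1) (2 * g.sg a2 o2 + 8 * (g.s0 + g.s1 + g.s2 + g.s3)) &&
    (Nat.beq f1 0 || Nat.blt o1 o2) && (Nat.beq f2 0 || Nat.blt o2 o3)

def chkT (g : Mor) (R S : PS) : Bool :=
  R.all fun t => S.mem t || dec9 t fun a1 a2 a3 f1 f2 x0 x1 x2 x3 =>
    force (x0 + x1 + x2 + x3) fun e => Nat.blt e 31 || Nat.blt 33 e ||
    force (g.L * e) fun u => force (g.s0 * x0 + g.s1 * x1 + g.s2 * x2 + g.s3 * x3) fun v =>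
      allLt g.L fun o1 => allLt g.L fun o2 => force (2 * o2 + 32 * g.L - (u + o1)) fun o3 =>
        !(tg g a1 a2 a3 f1 f2 u v o1 o2 o3)

def chkY (g : Mor) (X : PS) : Bool :=
  X.all fun t =>
    dec9 (t / 16777216) fun a1 a2 a3 f1 f2 x0 x1 x2 x3 =>
    dec9 (t % 16777216) fun b1 b2 b3 g1 g2 y0 y1 y2 y3 =>
    force (x0 + x1 + x2 + x3) fun e => Nat.blt e 31 || Nat.blt 33 e ||
    force (y0 + y1 + y2 + y3) fun e' => Nat.blt e' 31 || Nat.blt 33 e' ||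
    force (g.L * e) fun u => force (g.s0 * x0 + g.s1 * x1 + g.s2 * x2 + g.s3 * x3) fun v =>
    force (g.L * e') fun u' => force (g.s0 * y0 + g.s1 * y1 + g.s2 * y2 + g.s3 * y3) fun v' =>
      allLt g.L fun o1 => allLt g.L fun o2 => force (2 * o2 + 32 * g.L - (u + o1)) fun o3 =>
        !(tg g a1 a2 a3 f1 f2 u v o1 o2 o3) ||
          force (2 * o3 + 32 * g.L - (u' + o2)) fun o4 => !(tg g b1 b2 b3 g1 g2 u' v' o2 o3 o4)

theorem e_eq (L N1 N2 N3 : ℕ) (h : N1 + N3 = 2 * N2) :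
    (L : ℤ) * (dd 0 (N1 / L) (N2 / L) (N3 / L) + dd 1 (N1 / L) (N2 / L) (N3 / L) +
      dd 2 (N1 / L) (N2 / L) (N3 / L) + dd 3 (N1 / L) (N2 / L) (N3 / L)) +
      (N3 % L : ℕ) + (N1 % L : ℕ) = 2 * (N2 % L : ℕ) := by
  have a : ((P 0 (N1 / L) + P 1 (N1 / L) + P 2 (N1 / L) + P 3 (N1 / L) : ℕ) : ℤ) = (N1 / L : ℕ) := by
    rw [P_sum]
  have b : ((P 0 (N2 / L) + P 1 (N2 / L) + P 2 (N2 / L) + P 3 (N2 / L) : ℕ) : ℤ) = (N2 / L : ℕ) := by
    rw [P_sum]
  have c : ((P 0 (N3 / L) + P 1 (N3 / L) + P 2 (N3 / L) + P 3 (N3 / L) : ℕ) : ℤ) = (N3 / L : ℕ) := by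
    rw [P_sum]
  have d1 : ((L * (N1 / L) + N1 % L : ℕ) : ℤ) = N1 := by rw [Nat.div_add_mod]
  have d2 : ((L * (N2 / L) + N2 % L : ℕ) : ℤ) = N2 := by rw [Nat.div_add_mod]
  have d3 : ((L * (N3 / L) + N3 % L : ℕ) : ℤ) = N3 := by rw [Nat.div_add_mod]
  have h' : (N1 : ℤ) + N3 = 2 * N2 := by exact_mod_cast h
  unfold dd
  generalize N1 / L = m1 at *
  generalize N2 / L = m2 at *
  generalize N3 / L = m3 at *
  generalize N1 % L = o1 at *
  generalize N2 % L = o2 at *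
  generalize N3 % L = o3 at *
  push_cast at a b c d1 d2 d3
  linear_combination (L : ℤ) * a - 2 * L * b + L * c + d1 - 2 * d2 + d3 + h'

theorem v_eq (g : Mor) (N1 N2 N3 : ℕ) (h : g.T N1 + g.T N3 = 2 * g.T N2) :
    (g.s0 : ℤ) * dd 0 (N1 / g.L) (N2 / g.L) (N3 / g.L) + g.s1 * dd 1 (N1 / g.L) (N2 / g.L) (N3 / g.L) +
      g.s2 * dd 2 (N1 / g.L) (N2 / g.L) (N3 / g.L) + g.s3 * dd 3 (N1 / g.L) (N2 / g.L) (N3 / g.L) +
      g.sg (w (N3 / g.L)) (N3 % g.L) + g.sg (w (N1 / g.L)) (N1 % g.L) =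
      2 * g.sg (w (N2 / g.L)) (N2 % g.L) := by
  have h' : (g.T N1 : ℤ) + g.T N3 = 2 * g.T N2 := by exact_mod_cast h
  unfold Mor.T at h'
  unfold dd
  push_cast at h'
  linear_combination h'

theorem e_bd {L : ℕ} (hL : 0 < L) {N1 N2 N3 : ℕ} (h : N1 + N3 = 2 * N2) :
    -1 ≤ dd 0 (N1 / L) (N2 / L) (N3 / L) + dd 1 (N1 / L) (N2 / L) (N3 / L) +
      dd 2 (N1 / L) (N2 / L) (N3 / L) + dd 3 (N1 / L) (N2 / L) (N3 / L) ∧
    dd 0 (N1 / L) (N2 / L) (N3 / L) + dd 1 (N1 / L) (N2 / L) (N3 / L) +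
      dd 2 (N1 / L) (N2 / L) (N3 / L) + dd 3 (N1 / L) (N2 / L) (N3 / L) ≤ 1 := by
  have h1 := e_eq L N1 N2 N3 h
  have o1 : ((N1 % L : ℕ) : ℤ) < L := by exact_mod_cast Nat.mod_lt _ hL
  have o2 : ((N2 % L : ℕ) : ℤ) < L := by exact_mod_cast Nat.mod_lt _ hL
  have o3 : ((N3 % L : ℕ) : ℤ) < L := by exact_mod_cast Nat.mod_lt _ hL
  have p1 : (0:ℤ) ≤ (N1 % L : ℕ) := by positivity
  have p2 : (0:ℤ) ≤ (N2 % L : ℕ) := by positivity
  have p3 : (0:ℤ) ≤ (N3 % L : ℕ) := by positivity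
  have hL' : (0:ℤ) < L := by exact_mod_cast hL
  generalize dd 0 (N1 / L) (N2 / L) (N3 / L) + dd 1 (N1 / L) (N2 / L) (N3 / L) +
      dd 2 (N1 / L) (N2 / L) (N3 / L) + dd 3 (N1 / L) (N2 / L) (N3 / L) = e at *
  constructor
  · by_contra hc
    have : e ≤ -2 := by omega
    nlinarith
  · by_contra hc
    have : 2 ≤ e := by omega
    nlinarith

theorem flag' {L N1 N2 : ℕ} (h : N1 < N2) :
    (if N1 / L = N2 / L then 1 else 0 : ℕ) = 0 ∨ N1 % L < N2 % L := by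
  by_cases hc : N1 / L = N2 / L
  · right
    have a := Nat.div_add_mod N1 L
    have b := Nat.div_add_mod N2 L
    rw [hc] at a
    omega
  · left; simp [hc]

theorem tg_real (g : Mor) (hL : 0 < g.L) {N1 N2 N3 : ℕ} (h12 : N1 < N2) (h : N1 + N3 = 2 * N2)
    (hT : g.T N1 + g.T N3 = 2 * g.T N2) (hr : rng (N1 / g.L) (N2 / g.L) (N3 / g.L))
    {x0 x1 x2 x3 : ℕ} (e0 : (dd 0 (N1 / g.L) (N2 / g.L) (N3 / g.L) + 8).toNat = x0)
    (e1 : (dd 1 (N1 / g.L) (N2 / g.L) (N3 / g.L) + 8).toNat = x1)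
    (e2 : (dd 2 (N1 / g.L) (N2 / g.L) (N3 / g.L) + 8).toNat = x2)
    (e3 : (dd 3 (N1 / g.L) (N2 / g.L) (N3 / g.L) + 8).toNat = x3) :
    (Nat.blt (x0 + x1 + x2 + x3) 31 = false ∧ Nat.blt 33 (x0 + x1 + x2 + x3) = false) ∧
    2 * (N2 % g.L) + 32 * g.L - (g.L * (x0 + x1 + x2 + x3) + N1 % g.L) = N3 % g.L ∧
    tg g (w (N1 / g.L)) (w (N2 / g.L)) (w (N3 / g.L)) (if N1 / g.L = N2 / g.L then 1 else 0)
      (if N2 / g.L = N3 / g.L then 1 else 0) (g.L * (x0 + x1 + x2 + x3))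
      (g.s0 * x0 + g.s1 * x1 + g.s2 * x2 + g.s3 * x3) (N1 % g.L) (N2 % g.L) (N3 % g.L) = true := by
  have a := e_eq g.L N1 N2 N3 h
  have b := v_eq g N1 N2 N3 hT
  have c := e_bd hL h
  have f1 := flag' (L := g.L) h12
  have f2 := flag' (L := g.L) (show N2 < N3 by omega)
  unfold rng at hr
  have t0 : dd 0 (N1 / g.L) (N2 / g.L) (N3 / g.L) = (x0 : ℤ) - 8 := by omega
  have t1 : dd 1 (N1 / g.L) (N2 / g.L) (N3 / g.L) = (x1 : ℤ) - 8 := by omega
  have t2 : dd 2 (N1 / g.L) (N2 / g.L) (N3 / g.L) = (x2 : ℤ) - 8 := by omega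
  have t3 : dd 3 (N1 / g.L) (N2 / g.L) (N3 / g.L) = (x3 : ℤ) - 8 := by omega
  rw [t0, t1, t2, t3] at a b c
  have a' : g.L * (x0 + x1 + x2 + x3) + N3 % g.L + N1 % g.L = 2 * (N2 % g.L) + 32 * g.L := by
    have : ((g.L * (x0 + x1 + x2 + x3) + N3 % g.L + N1 % g.L : ℕ) : ℤ) =
        ((2 * (N2 % g.L) + 32 * g.L : ℕ) : ℤ) := by
      generalize N1 % g.L = o1 at *
      generalize N2 % g.L = o2 at *
      generalize N3 % g.L = o3 at *
      push_cast
      linear_combination a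
    exact_mod_cast this
  have b' : g.s0 * x0 + g.s1 * x1 + g.s2 * x2 + g.s3 * x3 + g.sg (w (N3 / g.L)) (N3 % g.L) +
      g.sg (w (N1 / g.L)) (N1 % g.L) =
      2 * g.sg (w (N2 / g.L)) (N2 % g.L) + 8 * (g.s0 + g.s1 + g.s2 + g.s3) := by
    have : ((g.s0 * x0 + g.s1 * x1 + g.s2 * x2 + g.s3 * x3 + g.sg (w (N3 / g.L)) (N3 % g.L) +
      g.sg (w (N1 / g.L)) (N1 % g.L) : ℕ) : ℤ) =
      ((2 * g.sg (w (N2 / g.L)) (N2 % g.L) + 8 * (g.s0 + g.s1 + g.s2 + g.s3) : ℕ) : ℤ) := by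
      push_cast
      linear_combination b
    exact_mod_cast this
  refine ⟨⟨?_, ?_⟩, by omega, ?_⟩
  · rw [← Bool.not_eq_true, Nat.blt_eq]; omega
  · rw [← Bool.not_eq_true, Nat.blt_eq]; omega
  · unfold tg
    simp only [Bool.and_eq_true, Bool.or_eq_true, Nat.blt_eq, Nat.beq_eq]
    exact ⟨⟨⟨⟨Nat.mod_lt _ hL, a'⟩, b'⟩, f1⟩, f2⟩

theorem tgt_inS {D R S : PS} (hD : chkD D = true) (hR : chkR D R = true) (g : Mor)
    (hT : chkT g R S = true) (hL : 0 < g.L) {N1 N2 N3 : ℕ} (h12 : N1 < N2) (h : N1 + N3 = 2 * N2)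
    (hs : g.T N1 + g.T N3 = 2 * g.T N2) (hd : inD D (N1 / g.L) (N2 / g.L) (N3 / g.L)) :
    inS S (N1 / g.L) (N2 / g.L) (N3 / g.L) := by
  have hr := ((inD_iff D _ _ _).mp hd).1
  have h1 := inR hD hR _ _ _ _ rfl (Nat.div_le_div_right h12.le)
    (Nat.div_le_div_right (show N2 ≤ N3 by omega)) hd
  have h2 := PS.all_spec hT h1
  rw [Bool.or_eq_true] at h2
  rcases h2 with h2 | h2
  · exact ⟨hr, h2⟩
  · exfalso
    rw [dec9_tc hr] at h2
    obtain ⟨⟨k1, k2⟩, k3, k4⟩ := tg_real g hL h12 h hs hr rfl rfl rfl rfl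
    simp only [force_eq, k1, k2, Bool.false_or] at h2
    have h3 := allLt_spec (allLt_spec h2 _ (Nat.mod_lt N1 hL)) _ (Nat.mod_lt N2 hL)
    simp only [k3, k4] at h3
    simp at h3

theorem core {D R S X : PS} (hD : chkD D = true) (hR : chkR D R = true) (hS : chkS D R S = true)
    (hX : chkX S X = true) (g : Mor) (hT : chkT g R S = true) (hY : chkY g X = true)
    (hL : 0 < g.L) {N1 N2 N3 N4 : ℕ} (h12 : N1 < N2) (h : N1 + N3 = 2 * N2)
    (h' : N2 + N4 = 2 * N3) (hs : g.T N1 + g.T N3 = 2 * g.T N2)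
    (hs' : g.T N2 + g.T N4 = 2 * g.T N3) (hd : inD D (N1 / g.L) (N2 / g.L) (N3 / g.L))
    (hd' : inD D (N2 / g.L) (N3 / g.L) (N4 / g.L)) : False := by
  have h23 : N2 < N3 := by omega
  have a := tgt_inS hD hR g hT hL h12 h hs hd
  have b := tgt_inS hD hR g hT hL h23 h' hs' hd'
  have h1 := inX hD hR hS hX _ _ _ _ _ rfl (Nat.div_le_div_right h12.le)
    (Nat.div_le_div_right h23.le) (Nat.div_le_div_right (show N3 ≤ N4 by omega)) a b
  have h2 := PS.all_spec hY h1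
  have l1 := (tc_lt b.1).1
  have k1 : (tc (N1 / g.L) (N2 / g.L) (N3 / g.L) * 16777216 + tc (N2 / g.L) (N3 / g.L) (N4 / g.L)) /
    16777216 = tc (N1 / g.L) (N2 / g.L) (N3 / g.L) := by omega
  have k2 : (tc (N1 / g.L) (N2 / g.L) (N3 / g.L) * 16777216 + tc (N2 / g.L) (N3 / g.L) (N4 / g.L)) %
    16777216 = tc (N2 / g.L) (N3 / g.L) (N4 / g.L) := by omega
  simp only [k1, k2] at h2
  rw [dec9_tc a.1, dec9_tc b.1] at h2
  obtain ⟨⟨i1, i2⟩, i3, i4⟩ := tg_real g hL h12 h hs a.1 rfl rfl rfl rfl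
  obtain ⟨⟨j1, j2⟩, j3, j4⟩ := tg_real g hL h23 h' hs' b.1 rfl rfl rfl rfl
  simp only [force_eq, i1, i2, j1, j2, Bool.false_or] at h2
  have h3 := allLt_spec (allLt_spec h2 _ (Nat.mod_lt N1 hL)) _ (Nat.mod_lt N2 hL)
  simp only [i3, i4, j3, j4] at h3
  simp at h3

end Pool.Agent.H17.AC
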