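import Pool.Agent.H17.AC3

set_option autoImplicit false

/-! Prefix sums of a uniform morphic image, the window and box lemmas. -/

namespace Pool.Agent.H17.AC

/-- `u a o` is the value of the letter `o` of the image of `a` -/
def chkU (g : Mor) (u : ℕ → ℕ → ℕ) : Bool :=
  (allLt 4 fun a => Nat.beq (g.sg a 0) 0 &&
    allLt g.L fun o => Nat.beq (g.sg a (o + 1)) (g.sg a o + u a o)) &&
  Nat.beq (g.sg 0 g.L) g.s0 && Nat.beq (g.sg 1 g.L) g.s1 && Nat.beq (g.sg 2 g.L) g.s2 &&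
  Nat.beq (g.sg 3 g.L) g.s3

theorem T_eq (g : Mor) (u : ℕ → ℕ → ℕ) (h : chkU g u = true) (hL : 0 < g.L) (N : ℕ) :
    g.T N = ∑ k ∈ Finset.range N, u (w (k / g.L)) (k % g.L) := by
  unfold chkU at h
  simp only [Bool.and_eq_true, Nat.beq_eq] at h
  obtain ⟨⟨⟨⟨h1, a0⟩, a1⟩, a2⟩, a3⟩ := h
  have h2 : ∀ a < 4, g.sg a 0 = 0 ∧ ∀ o < g.L, g.sg a (o + 1) = g.sg a o + u a o := by
    intro a ha
    have := allLt_spec h1 a ha
    simp only [Bool.and_eq_true, Nat.beq_eq] at this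
    exact ⟨this.1, fun o ho => Nat.eq_of_beq_eq_true (allLt_spec this.2 o ho)⟩
  induction N with
  | zero => simp [Mor.T, P, (h2 _ (w_lt 0)).1]
  | succ N ih =>
    rw [Finset.sum_range_succ, ← ih]
    have d := Nat.div_add_mod N g.L
    have o := Nat.mod_lt N hL
    have k := (h2 _ (w_lt (N / g.L))).2 _ o
    by_cases hc : N % g.L + 1 < g.L
    · obtain ⟨e1, e2⟩ := (Nat.div_mod_unique (a := N + 1) (d := N / g.L) (c := N % g.L + 1) hL).2
        ⟨by omega, hc⟩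
      unfold Mor.T
      rw [e1, e2, k]
      omega
    · obtain ⟨e1, e2⟩ := (Nat.div_mod_unique (a := N + 1) (d := N / g.L + 1) (c := 0) hL).2
        ⟨by rw [Nat.mul_add]; omega, hL⟩
      have hk : N % g.L + 1 = g.L := by omega
      rw [hk] at k
      unfold Mor.T
      rw [e1, e2, (h2 _ (w_lt _)).1]
      simp only [P]
      have hw := w_lt (N / g.L)
      generalize w (N / g.L) = x at *
      interval_cases x <;> simp [Nat.mul_add] <;> omega

def chkW (g : Mor) (c lo hi : ℕ) : Bool :=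
  allLt 4 fun a => allLt g.L fun o =>
    Nat.ble (c * o) (g.L * g.sg a o + lo) && Nat.ble (g.L * g.sg a o) (c * o + hi)

theorem win (g : Mor) (c lo hi : ℕ) (hW : chkW g c lo hi = true) (hL : 0 < g.L) {N1 N2 N3 : ℕ}
    (h : N1 + N3 = 2 * N2) (v z : ℤ)
    (hv : v = ((g.s0 : ℤ) - c) * dd 0 (N1 / g.L) (N2 / g.L) (N3 / g.L) +
      ((g.s1 : ℤ) - c) * dd 1 (N1 / g.L) (N2 / g.L) (N3 / g.L) +
      ((g.s2 : ℤ) - c) * dd 2 (N1 / g.L) (N2 / g.L) (N3 / g.L) +
      ((g.s3 : ℤ) - c) * dd 3 (N1 / g.L) (N2 / g.L) (N3 / g.L))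
    (hz : z = (g.T N1 : ℤ) + g.T N3 - 2 * g.T N2) :
    -(2 * ((lo : ℤ) + hi)) ≤ g.L * (v - z) ∧ g.L * (v - z) ≤ 2 * ((lo : ℤ) + hi) := by
  have k : ∀ N : ℕ, (c : ℤ) * (N % g.L : ℕ) ≤ g.L * g.sg (w (N / g.L)) (N % g.L) + lo ∧
      (g.L : ℤ) * g.sg (w (N / g.L)) (N % g.L) ≤ c * (N % g.L : ℕ) + hi := by
    intro N
    have := allLt_spec (allLt_spec hW _ (w_lt (N / g.L))) _ (Nat.mod_lt N hL)
    simp only [Bool.and_eq_true, Nat.ble_eq] at this
    exact ⟨by exact_mod_cast this.1, by exact_mod_cast this.2⟩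
  have a := e_eq g.L N1 N2 N3 h
  obtain ⟨p1, q1⟩ := k N1
  obtain ⟨p2, q2⟩ := k N2
  obtain ⟨p3, q3⟩ := k N3
  have key : g.L * (v - z) =
      -((g.L : ℤ) * g.sg (w (N3 / g.L)) (N3 % g.L) - c * (N3 % g.L : ℕ)) +
      2 * ((g.L : ℤ) * g.sg (w (N2 / g.L)) (N2 % g.L) - c * (N2 % g.L : ℕ)) -
      ((g.L : ℤ) * g.sg (w (N1 / g.L)) (N1 % g.L) - c * (N1 % g.L : ℕ)) := by
    rw [hv, hz]
    simp only [Mor.T]
    unfold dd at a ⊢
    generalize N1 % g.L = o1 at *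
    generalize N2 % g.L = o2 at *
    generalize N3 % g.L = o3 at *
    push_cast
    linear_combination (-(c : ℤ)) * a
  rw [key]
  constructor <;> linarith

def chkB (D : PS) (t0 t1 t2 t3 V : ℤ) (r : ℕ) : Bool :=
  allLt (2 * r + 1) fun i => forceI ((i : ℤ) - r) fun a =>
  allLt (2 * r + 1) fun j => forceI ((j : ℤ) - r) fun b =>
  allLt (2 * r + 1) fun k => forceI ((k : ℤ) - r) fun c =>
  allLt 3 fun e => forceI ((e : ℤ) - 1 - a - b - c) fun d =>
    forceI (t0 * a + t1 * b + t2 * c + t3 * d) fun v =>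
      decide (V < v) || decide (v < -V) || decide (5846 < F a b c d) || okD D a b c d

theorem box {D : PS} {t0 t1 t2 t3 V : ℤ} {r : ℕ} (h : chkB D t0 t1 t2 t3 V r = true)
    {a b c d : ℤ} (ha : a ^ 2 < (r + 1) ^ 2) (hb : b ^ 2 < (r + 1) ^ 2) (hc : c ^ 2 < (r + 1) ^ 2)
    (e1 : -1 ≤ a + b + c + d) (e2 : a + b + c + d ≤ 1)
    (v1 : -V ≤ t0 * a + t1 * b + t2 * c + t3 * d) (v2 : t0 * a + t1 * b + t2 * c + t3 * d ≤ V)
    (hF : F a b c d ≤ 5846) : okD D a b c d = true := by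
  have hr : (0:ℤ) ≤ r + 1 := by positivity
  have ha' := abs_lt_of_sq_lt_sq' ha hr
  have hb' := abs_lt_of_sq_lt_sq' hb hr
  have hc' := abs_lt_of_sq_lt_sq' hc hr
  unfold chkB at h
  simp only [forceI_eq] at h
  have h1 := allLt_spec (allLt_spec (allLt_spec (allLt_spec h (a + r).toNat (by omega))
    (b + r).toNat (by omega)) (c + r).toNat (by omega)) (a + b + c + d + 1).toNat (by omega)
  have k1 : (((a + r).toNat : ℕ) : ℤ) - r = a := by omega
  have k2 : (((b + r).toNat : ℕ) : ℤ) - r = b := by omega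
  have k3 : (((c + r).toNat : ℕ) : ℤ) - r = c := by omega
  rw [k1, k2, k3] at h1
  have k4 : (((a + b + c + d + 1).toNat : ℕ) : ℤ) - 1 - a - b - c = d := by omega
  rw [k4] at h1
  simp only [Bool.or_eq_true, decide_eq_true_iff] at h1
  rcases h1 with ((h1 | h1) | h1) | h1
  · omega
  · omega
  · omega
  · exact h1

/-- the box property attached to a linear form and a window -/
def Box (D : PS) (t0 t1 t2 t3 V : ℤ) : Prop :=
  ∀ a b c d : ℤ, -1 ≤ a + b + c + d → a + b + c + d ≤ 1 →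
    -V ≤ t0 * a + t1 * b + t2 * c + t3 * d → t0 * a + t1 * b + t2 * c + t3 * d ≤ V →
    F a b c d ≤ 5846 → okD D a b c d = true

theorem inD_of_win {D : PS} (g : Mor) (c lo hi : ℕ) (V : ℤ) (hW : chkW g c lo hi = true)
    (hL : 0 < g.L) (hV : 2 * ((lo : ℤ) + hi) < g.L * (V + 1))
    (hB : Box D (g.s0 - c) (g.s1 - c) (g.s2 - c) (g.s3 - c) V) {N1 N2 N3 : ℕ}
    (h : N1 + N3 = 2 * N2) (hs : g.T N1 + g.T N3 = 2 * g.T N2) :
    inD D (N1 / g.L) (N2 / g.L) (N3 / g.L) := by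
  have hz : (0 : ℤ) = (g.T N1 : ℤ) + g.T N3 - 2 * g.T N2 := by
    have : (g.T N1 : ℤ) + g.T N3 = 2 * g.T N2 := by exact_mod_cast hs
    omega
  have a := win g c lo hi hW hL h _ _ rfl hz
  rw [sub_zero] at a
  have b := e_bd hL h
  have hL' : (0:ℤ) < g.L := by exact_mod_cast hL
  refine hB _ _ _ _ b.1 b.2 ?_ ?_ (F_le _ _ _ _ rfl)
  · generalize ((g.s0 : ℤ) - c) * dd 0 (N1 / g.L) (N2 / g.L) (N3 / g.L) +
      ((g.s1 : ℤ) - c) * dd 1 (N1 / g.L) (N2 / g.L) (N3 / g.L) +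
      ((g.s2 : ℤ) - c) * dd 2 (N1 / g.L) (N2 / g.L) (N3 / g.L) +
      ((g.s3 : ℤ) - c) * dd 3 (N1 / g.L) (N2 / g.L) (N3 / g.L) = v at *
    by_contra hc
    have : v ≤ -(V + 1) := by omega
    have := mul_le_mul_of_nonneg_left this hL'.le
    linarith [a.1]
  · generalize ((g.s0 : ℤ) - c) * dd 0 (N1 / g.L) (N2 / g.L) (N3 / g.L) +
      ((g.s1 : ℤ) - c) * dd 1 (N1 / g.L) (N2 / g.L) (N3 / g.L) +
      ((g.s2 : ℤ) - c) * dd 2 (N1 / g.L) (N2 / g.L) (N3 / g.L) +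
      ((g.s3 : ℤ) - c) * dd 3 (N1 / g.L) (N2 / g.L) (N3 / g.L) = v at *
    by_contra hc
    have : V + 1 ≤ v := by omega
    have := mul_le_mul_of_nonneg_left this hL'.le
    linarith [a.2]

theorem sum_split (f : ℕ → ℕ) (p n : ℕ) :
    ∑ k ∈ Finset.range (p + n), f k = ∑ k ∈ Finset.range p, f k + ∑ k ∈ Finset.range n, f (p + k) :=
  Finset.sum_range_add f p n

/-- equal sums of three consecutive blocks, in terms of prefix sums -/
theorem blocks (f : ℕ → ℕ) (p n : ℕ)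
    (h1 : ∑ k ∈ Finset.range n, f (p + k) = ∑ k ∈ Finset.range n, f (p + n + k))
    (h2 : ∑ k ∈ Finset.range n, f (p + n + k) = ∑ k ∈ Finset.range n, f (p + 2 * n + k)) :
    ∑ k ∈ Finset.range p, f k + ∑ k ∈ Finset.range (p + 2 * n), f k =
      2 * ∑ k ∈ Finset.range (p + n), f k ∧
    ∑ k ∈ Finset.range (p + n), f k + ∑ k ∈ Finset.range (p + 3 * n), f k =
      2 * ∑ k ∈ Finset.range (p + 2 * n), f k := by
  have a := sum_split f p n
  have b := sum_split f (p + n) n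
  have c := sum_split f (p + 2 * n) n
  rw [show p + n + n = p + 2 * n by ring] at b
  rw [show p + 2 * n + n = p + 3 * n by ring] at c
  omega

/-- main theorem for a morphism given by letter values -/
theorem free_of {D R S X : PS} (hD : chkD D = true) (hR : chkR D R = true)
    (hS : chkS D R S = true) (hX : chkX S X = true) (g : Mor) (hT : chkT g R S = true)
    (hY : chkY g X = true) (hL : 0 < g.L) (u : ℕ → ℕ → ℕ) (hU : chkU g u = true)
    (c lo hi : ℕ) (V : ℤ) (hW : chkW g c lo hi = true)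
    (hV : 2 * ((lo : ℤ) + hi) < g.L * (V + 1))
    (hB : Box D (g.s0 - c) (g.s1 - c) (g.s2 - c) (g.s3 - c) V) (p n : ℕ) (hn : 0 < n) :
    ¬ (∑ k ∈ Finset.range n, u (w ((p + k) / g.L)) ((p + k) % g.L) =
        ∑ k ∈ Finset.range n, u (w ((p + n + k) / g.L)) ((p + n + k) % g.L) ∧
      ∑ k ∈ Finset.range n, u (w ((p + n + k) / g.L)) ((p + n + k) % g.L) =
        ∑ k ∈ Finset.range n, u (w ((p + 2 * n + k) / g.L)) ((p + 2 * n + k) % g.L)) := by
  rintro ⟨h1, h2⟩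
  obtain ⟨a, b⟩ := blocks (fun k => u (w (k / g.L)) (k % g.L)) p n h1 h2
  simp only [← T_eq g u hU hL] at a b
  exact core hD hR hS hX g hT hY hL (N1 := p) (N2 := p + n) (N3 := p + 2 * n) (N4 := p + 3 * n)
    (by omega) (by omega) (by omega) a b
    (inD_of_win g c lo hi V hW hL hV hB (by omega) a)
    (inD_of_win g c lo hi V hW hL hV hB (by omega) b)

end Pool.Agent.H17.AC
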