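import Pool.Agent.H17.AC4

set_option autoImplicit false

/-! A ternary word without abelian cubes in which one letter is balanced avoids additive cubes
over every alphabet `{0, i, j}` with `i, j` coprime and `j` large. -/

namespace Pool.Agent.H17.AC

def ia (x : ℕ) : ℕ := if x = 1 then 1 else 0
def ib (x : ℕ) : ℕ := if x = 2 then 1 else 0

theorem vec_free {D R S X : PS} (hD : chkD D = true) (hR : chkR D R = true)
    (hS : chkS D R S = true) (hX : chkX S X = true) (g a b : Mor) (hT : chkT g R S = true)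
    (hY : chkY g X = true) (hL : 0 < g.L) (la : a.L = g.L) (lb : b.L = g.L) (l : ℕ → ℕ → ℕ)
    (hU : chkU g (fun x o => ia (l x o) + 1000 * ib (l x o)) = true)
    (hA : chkU a (fun x o => ia (l x o)) = true) (hB : chkU b (fun x o => ib (l x o)) = true)
    (c lo hi : ℕ) (V : ℤ) (hW : chkW a c lo hi = true)
    (hV : 2 * ((lo : ℤ) + hi) < a.L * (V + 1))
    (hX' : Box D (a.s0 - c) (a.s1 - c) (a.s2 - c) (a.s3 - c) V)
    (c' lo' hi' J : ℕ) (hW' : chkW b c' lo' hi' = true)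
    (hc : b.s0 = c' ∧ b.s1 = c' ∧ b.s2 = c' ∧ b.s3 = c') (hJ : 2 * ((lo' : ℤ) + hi') < b.L * J)
    (i j : ℕ) (hij : Nat.Coprime i j) (hj : J ≤ j) (p n : ℕ) (hn : 0 < n) (x : ℕ → ℕ)
    (hx : ∀ k, x k = j * ia (l (w (k / g.L)) (k % g.L)) + i * ib (l (w (k / g.L)) (k % g.L))) :
    ¬ (∑ k ∈ Finset.range n, x (p + k) = ∑ k ∈ Finset.range n, x (p + n + k) ∧
      ∑ k ∈ Finset.range n, x (p + n + k) = ∑ k ∈ Finset.range n, x (p + 2 * n + k)) := by
  rintro ⟨h1, h2⟩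
  obtain ⟨s1, s2⟩ := blocks x p n h1 h2
  have hLa : 0 < a.L := la ▸ hL
  have hLb : 0 < b.L := lb ▸ hL
  have e1 : ∀ N, ∑ k ∈ Finset.range N, x k = j * a.T N + i * b.T N := by
    intro N
    rw [T_eq a _ hA hLa, T_eq b _ hB hLb, la, lb, Finset.mul_sum, Finset.mul_sum,
      ← Finset.sum_add_distrib]
    exact Finset.sum_congr rfl fun k _ => hx k
  have e2 : ∀ N, g.T N = a.T N + 1000 * b.T N := by
    intro N
    rw [T_eq a _ hA hLa, T_eq b _ hB hLb, T_eq g _ hU hL, la, lb, Finset.mul_sum,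
      ← Finset.sum_add_distrib]
  have key : ∀ N1 N2 N3 : ℕ, N1 + N3 = 2 * N2 →
      ∑ k ∈ Finset.range N1, x k + ∑ k ∈ Finset.range N3, x k = 2 * ∑ k ∈ Finset.range N2, x k →
      g.T N1 + g.T N3 = 2 * g.T N2 ∧ inD D (N1 / g.L) (N2 / g.L) (N3 / g.L) := by
    intro N1 N2 N3 h hs
    rw [e1, e1, e1] at hs
    have b1 := win b c' lo' hi' hW' hLb h _ _ rfl rfl
    rw [hc.1, hc.2.1, hc.2.2.1, hc.2.2.2] at b1
    simp only [sub_self, zero_mul, add_zero, zero_sub] at b1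
    have hs' : (j : ℤ) * ((a.T N1 : ℤ) + a.T N3 - 2 * a.T N2) =
        -(i * ((b.T N1 : ℤ) + b.T N3 - 2 * b.T N2)) := by
      have : ((j * a.T N1 + i * b.T N1 + (j * a.T N3 + i * b.T N3) : ℕ) : ℤ) =
        ((2 * (j * a.T N2 + i * b.T N2) : ℕ) : ℤ) := by rw [hs]
      push_cast at this
      linear_combination this
    obtain ⟨zb, hzb⟩ : ∃ z : ℤ, z = (b.T N1 : ℤ) + b.T N3 - 2 * b.T N2 := ⟨_, rfl⟩
    obtain ⟨za, hza⟩ : ∃ z : ℤ, z = (a.T N1 : ℤ) + a.T N3 - 2 * a.T N2 := ⟨_, rfl⟩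
    rw [← hzb] at b1 hs'
    rw [← hza] at hs'
    have hLb' : (0:ℤ) < b.L := by exact_mod_cast hLb
    have hj' : (J : ℤ) ≤ j := by exact_mod_cast hj
    have u1 : zb < J := by
      by_contra hc
      have := mul_le_mul_of_nonneg_left (not_lt.mp hc) hLb'.le
      linarith [b1.1]
    have u2 : -(J : ℤ) < zb := by
      by_contra hc
      have := mul_le_mul_of_nonneg_left (not_lt.mp hc) hLb'.le
      linarith [b1.2]
    have hdv : (j : ℤ) ∣ zb := by
      have h1 : (j : ℤ) ∣ i * zb := ⟨-za, by linear_combination hs'⟩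
      exact (Nat.isCoprime_iff_coprime.mpr hij.symm).dvd_of_dvd_mul_left h1
    have z0 : zb = 0 := Int.eq_zero_of_abs_lt_dvd hdv (abs_lt.mpr ⟨by omega, by omega⟩)
    have jp : (0:ℤ) < j := by omega
    have z1 : za = 0 := by
      rw [z0] at hs'
      simp only [mul_zero, neg_zero, mul_eq_zero] at hs'
      omega
    have t1 : a.T N1 + a.T N3 = 2 * a.T N2 := by omega
    have t2 : b.T N1 + b.T N3 = 2 * b.T N2 := by omega
    refine ⟨by rw [e2, e2, e2]; omega, ?_⟩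
    have := inD_of_win a c lo hi V hW hLa hV hX' h t1
    rwa [la] at this
  obtain ⟨k1, k2⟩ := key p (p + n) (p + 2 * n) (by omega) s1
  obtain ⟨k3, k4⟩ := key (p + n) (p + 2 * n) (p + 3 * n) (by omega) s2
  exact core hD hR hS hX g hT hY hL (N1 := p) (N2 := p + n) (N3 := p + 2 * n) (N4 := p + 3 * n)
    (by omega) (by omega) (by omega) k1 k3 k2 k4

end Pool.Agent.H17.AC
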