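import Pool.Agent.H17.AC4

set_option autoImplicit false

/-! Faster versions of the last-level checks, through a bit mask of the possible block sums. -/

namespace Pool.Agent.H17.AC

theorem allLt_of {n : ℕ} {p : ℕ → Bool} (h : ∀ i < n, p i = true) : allLt n p = true := by
  induction n with
  | zero => rfl
  | succ n ih =>
    show (p n && allLt n p) = true
    rw [h n (by omega), ih fun i hi => h i (by omega)]
    rfl

theorem PS.all_mono {A : PS} {p q : ℕ → Bool} (h : ∀ t, p t = true → q t = true)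
    (hp : A.all p = true) : A.all q = true := by
  unfold PS.all at hp ⊢
  rw [Bool.and_eq_true] at hp ⊢
  refine ⟨hp.1, allLt_of fun i hi => ?_⟩
  have := allLt_spec hp.2 i hi
  rw [force_eq] at this ⊢
  exact h _ this

def bit (M a1 a2 a3 e v : ℕ) : Bool :=
  Nat.beq ((M >>> (((a1 + 4 * a2 + 16 * a3) * 4 + e % 4) * 256 + v % 256)) % 2) 1

def chkM (g : Mor) (M : ℕ) : Bool :=
  force (8 * (g.s0 + g.s1 + g.s2 + g.s3)) fun K =>
  allLt 3 fun e => allLt g.L fun o1 => allLt g.L fun o2 =>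
    force (2 * o2 + 32 * g.L - (g.L * (31 + e) + o1)) fun o3 =>
      !(Nat.blt o3 g.L && Nat.beq (g.L * (31 + e) + o3 + o1) (2 * o2 + 32 * g.L)) ||
      allLt 4 fun a2 => force (2 * g.sg a2 o2 + K) fun y => allLt 4 fun a3 =>
        force (g.sg a3 o3) fun z => allLt 4 fun a1 => bit M a1 a2 a3 (31 + e) (y - (z + g.sg a1 o1))

theorem bit_of {g : Mor} {M : ℕ} (hM : chkM g M = true) {a1 a2 a3 f1 f2 e v o1 o2 : ℕ}
    (h1 : a1 < 4) (h2 : a2 < 4) (h3 : a3 < 4) (k1 : o1 < g.L) (k2 : o2 < g.L)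
    (e1 : Nat.blt e 31 = false) (e2 : Nat.blt 33 e = false)
    (h : tg g a1 a2 a3 f1 f2 (g.L * e) v o1 o2 (2 * o2 + 32 * g.L - (g.L * e + o1)) = true) :
    bit M a1 a2 a3 e v = true := by
  rw [← Bool.not_eq_true, Nat.blt_eq] at e1 e2
  obtain ⟨c, rfl⟩ : ∃ c, e = 31 + c := ⟨e - 31, by omega⟩
  unfold chkM at hM
  simp only [force_eq] at hM
  have h4 := allLt_spec (allLt_spec (allLt_spec hM c (by omega)) o1 k1) o2 k2
  unfold tg at h
  simp only [Bool.and_eq_true] at h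
  obtain ⟨⟨⟨⟨r1, r2⟩, r3⟩, -⟩, -⟩ := h
  simp only [r1, r2, Bool.and_self, Bool.not_true, Bool.false_or] at h4
  have h5 := allLt_spec (allLt_spec (allLt_spec h4 a2 h2) a3 h3) a1 h1
  rw [Nat.beq_eq] at r3
  have : v = 2 * g.sg a2 o2 + 8 * (g.s0 + g.s1 + g.s2 + g.s3) -
      (g.sg a3 (2 * o2 + 32 * g.L - (g.L * (31 + c) + o1)) + g.sg a1 o1) := by omega
  rw [this]
  exact h5

def chkT' (g : Mor) (M : ℕ) (R S : PS) : Bool :=
  R.all fun t => S.mem t || dec9 t fun a1 a2 a3 f1 f2 x0 x1 x2 x3 =>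
    force (x0 + x1 + x2 + x3) fun e => Nat.blt e 31 || Nat.blt 33 e ||
    force (g.L * e) fun u => force (g.s0 * x0 + g.s1 * x1 + g.s2 * x2 + g.s3 * x3) fun v =>
      !(bit M a1 a2 a3 e v) ||
      allLt g.L fun o1 => allLt g.L fun o2 => force (2 * o2 + 32 * g.L - (u + o1)) fun o3 =>
        !(tg g a1 a2 a3 f1 f2 u v o1 o2 o3)

theorem chkT_of {g : Mor} {M : ℕ} (hM : chkM g M = true) {R S : PS}
    (h : chkT' g M R S = true) : chkT g R S = true := by
  refine PS.all_mono (fun t ht => ?_) h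
  unfold dec9 at ht ⊢
  simp only [force_eq] at ht ⊢
  generalize t % 16 + t / 16 % 16 + t / 256 % 16 + t / 4096 % 16 = e at *
  cases hs : S.mem t
  swap
  · rfl
  cases e1 : Nat.blt e 31
  swap
  · rfl
  cases e2 : Nat.blt 33 e
  swap
  · rfl
  simp only [hs, e1, e2, Bool.false_or, Bool.or_eq_true] at ht ⊢
  rcases ht with ht | ht
  · refine allLt_of fun o1 k1 => allLt_of fun o2 k2 => ?_
    rw [Bool.not_eq_true'] at ht ⊢
    rw [← Bool.not_eq_true] at ht ⊢
    exact fun hc => ht (bit_of hM (Nat.mod_lt _ (by norm_num)) (Nat.mod_lt _ (by norm_num))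
      (Nat.mod_lt _ (by norm_num)) k1 k2 e1 e2 hc)
  · exact ht

def chkY' (g : Mor) (M : ℕ) (X : PS) : Bool :=
  X.all fun t =>
    dec9 (t / 16777216) fun a1 a2 a3 f1 f2 x0 x1 x2 x3 =>
    dec9 (t % 16777216) fun b1 b2 b3 g1 g2 y0 y1 y2 y3 =>
    force (x0 + x1 + x2 + x3) fun e => Nat.blt e 31 || Nat.blt 33 e ||
    force (y0 + y1 + y2 + y3) fun e' => Nat.blt e' 31 || Nat.blt 33 e' ||
    force (g.L * e) fun u => force (g.s0 * x0 + g.s1 * x1 + g.s2 * x2 + g.s3 * x3) fun v =>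
    force (g.L * e') fun u' => force (g.s0 * y0 + g.s1 * y1 + g.s2 * y2 + g.s3 * y3) fun v' =>
      !(bit M a1 a2 a3 e v) || !(bit M b1 b2 b3 e' v') ||
      allLt g.L fun o1 => allLt g.L fun o2 => force (2 * o2 + 32 * g.L - (u + o1)) fun o3 =>
        !(tg g a1 a2 a3 f1 f2 u v o1 o2 o3) ||
          force (2 * o3 + 32 * g.L - (u' + o2)) fun o4 => !(tg g b1 b2 b3 g1 g2 u' v' o2 o3 o4)

theorem chkY_of {g : Mor} {M : ℕ} (hM : chkM g M = true) {X : PS}
    (h : chkY' g M X = true) : chkY g X = true := by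
  refine PS.all_mono (fun t ht => ?_) h
  unfold dec9 at ht ⊢
  simp only [force_eq] at ht ⊢
  generalize t / 16777216 = r at *
  generalize t % 16777216 = s at *
  generalize r % 16 + r / 16 % 16 + r / 256 % 16 + r / 4096 % 16 = e at *
  generalize s % 16 + s / 16 % 16 + s / 256 % 16 + s / 4096 % 16 = e' at *
  cases e1 : Nat.blt e 31
  swap
  · rfl
  cases e2 : Nat.blt 33 e
  swap
  · rfl
  cases e3 : Nat.blt e' 31
  swap
  · rfl
  cases e4 : Nat.blt 33 e'
  swap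
  · rfl
  simp only [e1, e2, e3, e4, Bool.false_or, Bool.or_eq_true] at ht ⊢
  rcases ht with (ht | ht) | ht
  · refine allLt_of fun o1 k1 => allLt_of fun o2 k2 => ?_
    rw [Bool.or_eq_true]
    left
    rw [Bool.not_eq_true'] at ht ⊢
    rw [← Bool.not_eq_true] at ht ⊢
    exact fun hc => ht (bit_of hM (Nat.mod_lt _ (by norm_num)) (Nat.mod_lt _ (by norm_num))
      (Nat.mod_lt _ (by norm_num)) k1 k2 e1 e2 hc)
  · refine allLt_of fun o1 k1 => allLt_of fun o2 k2 => ?_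
    rw [Bool.or_eq_true]
    by_cases hb : 2 * o2 + 32 * g.L - (g.L * e + o1) < g.L
    · right
      rw [Bool.not_eq_true'] at ht ⊢
      rw [← Bool.not_eq_true] at ht ⊢
      exact fun hc => ht (bit_of hM (Nat.mod_lt _ (by norm_num)) (Nat.mod_lt _ (by norm_num))
        (Nat.mod_lt _ (by norm_num)) k2 hb e3 e4 hc)
    · left
      rw [← Nat.blt_eq, Bool.not_eq_true] at hb
      unfold tg
      simp [hb]
  · exact ht

def PS.chunk (A : PS) (p : ℕ → Bool) (c j : ℕ) : Bool :=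
  allLt c fun i => force (c * j + i) fun m => Nat.ble A.n m || force (A.key m) p

theorem PS.all_of_chunks {A : PS} {p : ℕ → Bool} (c k : ℕ) (h0 : 0 < A.n) (h1 : A.n ≤ c * k)
    (h : ∀ j < k, A.chunk p c j = true) : A.all p = true := by
  unfold PS.all
  rw [Bool.and_eq_true, Nat.blt_eq]
  refine ⟨h0, allLt_of fun i hi => ?_⟩
  have hc : 0 < c := Nat.pos_of_ne_zero fun e => by rw [e] at h1; omega
  have h2 := allLt_spec (h (i / c) (Nat.div_lt_of_lt_mul (by omega))) (i % c) (Nat.mod_lt _ hc)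
  rw [force_eq, Nat.div_add_mod, Bool.or_eq_true, Nat.ble_eq] at h2
  exact h2.resolve_left (by omega)

def pD (D : PS) (t : ℕ) : Bool :=
    forceI (((t % 16 : ℕ) : ℤ) - 8) fun a => forceI (((t / 16 % 16 : ℕ) : ℤ) - 8) fun b =>
    forceI (((t / 256 % 16 : ℕ) : ℤ) - 8) fun c => forceI (((t / 4096 % 16 : ℕ) : ℤ) - 8) fun d =>
    allLt 5 fun i => allLt 5 fun j =>
      decide (17538 < H ((i : ℤ) - 2) ((j : ℤ) - 2)) ||
      forceI (d - ((j : ℤ) - 2)) fun p1 => forceI (c - p1) fun p0 =>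
      forceI (a - ((i : ℤ) - 2) - p0) fun p3 => forceI (b - p3) fun p2 =>
        decide (5846 < F p0 p1 p2 p3) || okD D p0 p1 p2 p3

theorem chkD_of {D : PS} (h : D.all (pD D) = true) : chkD D = true := h

def pR (D R : PS) (t : ℕ) : Bool := kids t fun c => !(force (c % 65536) D.mem) || R.mem c

theorem chkR_of {D R : PS} (h0 : R.mem 12617864 = true) (h : R.all (pR D R) = true) :
    chkR D R = true := Bool.and_eq_true_iff.mpr ⟨h0, h⟩

def pS (S : PS) (t : ℕ) : Bool := S.mem t || kids t fun c => !(S.mem c)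

theorem chkS_of {D R S : PS} (h0 : (S.all fun t => force (t % 65536) D.mem) = true)
    (h : R.all (pS S) = true) : chkS D R S = true := Bool.and_eq_true_iff.mpr ⟨h0, h⟩

def pX (S X : PS) (t : ℕ) : Bool :=
    dec9 (t / 16777216) fun a1 a2 a3 f1 f2 x0 x1 x2 x3 =>
    dec9 (t % 16777216) fun b1 b2 b3 g1 g2 y0 y1 y2 y3 =>
      allLt 2 fun o1 => allLt 2 fun o2 => allLt 2 fun o3 =>
        force (chd a1 a2 a3 f1 f2 x0 x1 x2 x3 o1 o2 o3) fun c => !(S.mem c) ||
          allLt 2 fun o4 => force (chd b1 b2 b3 g1 g2 y0 y1 y2 y3 o2 o3 o4) fun e =>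
            !(S.mem e) || force (c * 16777216 + e) X.mem

theorem chkX_of {S X : PS} (h0 : X.mem (12617864 * 16777216 + 12617864) = true)
    (h : X.all (pX S X) = true) : chkX S X = true := Bool.and_eq_true_iff.mpr ⟨h0, h⟩

def pT (g : Mor) (M : ℕ) (S : PS) (t : ℕ) : Bool :=
  S.mem t || dec9 t fun a1 a2 a3 f1 f2 x0 x1 x2 x3 =>
    force (x0 + x1 + x2 + x3) fun e => Nat.blt e 31 || Nat.blt 33 e ||
    force (g.L * e) fun u => force (g.s0 * x0 + g.s1 * x1 + g.s2 * x2 + g.s3 * x3) fun v =>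
      !(bit M a1 a2 a3 e v) ||
      allLt g.L fun o1 => allLt g.L fun o2 => force (2 * o2 + 32 * g.L - (u + o1)) fun o3 =>
        !(tg g a1 a2 a3 f1 f2 u v o1 o2 o3)

theorem chkT_of' {g : Mor} {M : ℕ} (hM : chkM g M = true) {R S : PS}
    (h : R.all (pT g M S) = true) : chkT g R S = true := chkT_of hM h

def pY (g : Mor) (M : ℕ) (t : ℕ) : Bool :=
    dec9 (t / 16777216) fun a1 a2 a3 f1 f2 x0 x1 x2 x3 =>
    dec9 (t % 16777216) fun b1 b2 b3 g1 g2 y0 y1 y2 y3 =>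
    force (x0 + x1 + x2 + x3) fun e => Nat.blt e 31 || Nat.blt 33 e ||
    force (y0 + y1 + y2 + y3) fun e' => Nat.blt e' 31 || Nat.blt 33 e' ||
    force (g.L * e) fun u => force (g.s0 * x0 + g.s1 * x1 + g.s2 * x2 + g.s3 * x3) fun v =>
    force (g.L * e') fun u' => force (g.s0 * y0 + g.s1 * y1 + g.s2 * y2 + g.s3 * y3) fun v' =>
      !(bit M a1 a2 a3 e v) || !(bit M b1 b2 b3 e' v') ||
      allLt g.L fun o1 => allLt g.L fun o2 => force (2 * o2 + 32 * g.L - (u + o1)) fun o3 =>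
        !(tg g a1 a2 a3 f1 f2 u v o1 o2 o3) ||
          force (2 * o3 + 32 * g.L - (u' + o2)) fun o4 => !(tg g b1 b2 b3 g1 g2 u' v' o2 o3 o4)

theorem chkY_of' {g : Mor} {M : ℕ} (hM : chkM g M = true) {X : PS}
    (h : X.all (pY g M) = true) : chkY g X = true := chkY_of hM h

end Pool.Agent.H17.AC
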