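import Pool.Agent.H17.ACcv
import Pool.Agent.H17.ACc13
import Pool.Agent.H17.ACc14
import Pool.Agent.H17.ACc15
import Pool.Agent.H17.ACc25

set_option autoImplicit false

/-! Affine invariance of additive cube avoidance, reduction to `{0, i, j}`, binary alphabets. -/

namespace Pool.Agent.H17.AC

def FreeZ (x : ℕ → ℤ) : Prop :=
  ∀ p n : ℕ, 0 < n →
    ¬ (∑ k ∈ Finset.range n, x (p + k) = ∑ k ∈ Finset.range n, x (p + n + k) ∧
      ∑ k ∈ Finset.range n, x (p + n + k) = ∑ k ∈ Finset.range n, x (p + 2 * n + k))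

def AvN (i j : ℕ) : Prop :=
  ∃ x : ℕ → ℕ, (∀ n, x n = 0 ∨ x n = i ∨ x n = j) ∧ ∀ p n : ℕ, 0 < n →
    ¬ (∑ k ∈ Finset.range n, x (p + k) = ∑ k ∈ Finset.range n, x (p + n + k) ∧
      ∑ k ∈ Finset.range n, x (p + n + k) = ∑ k ∈ Finset.range n, x (p + 2 * n + k))

theorem FreeZ.aff {x : ℕ → ℤ} (h : FreeZ x) (a b : ℤ) (ha : a ≠ 0) :
    FreeZ fun n => a * x n + b := by
  intro p n hn ⟨h1, h2⟩
  simp only [Finset.sum_add_distrib, ← Finset.mul_sum, add_left_inj] at h1 h2
  exact h p n hn ⟨mul_left_cancel₀ ha h1, mul_left_cancel₀ ha h2⟩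

theorem freeZ_cast {x : ℕ → ℕ} : FreeZ (fun n => (x n : ℤ)) ↔ ∀ p n : ℕ, 0 < n →
    ¬ (∑ k ∈ Finset.range n, x (p + k) = ∑ k ∈ Finset.range n, x (p + n + k) ∧
      ∑ k ∈ Finset.range n, x (p + n + k) = ∑ k ∈ Finset.range n, x (p + 2 * n + k)) := by
  unfold FreeZ
  simp only [← Nat.cast_sum, Nat.cast_inj]

theorem AvN.refl {i j : ℕ} (h : AvN i j) (hij : i ≤ j) : AvN (j - i) j := by
  obtain ⟨x, h1, h2⟩ := h
  refine ⟨fun n => j - x n, fun n => ?_, ?_⟩
  · have := h1 n
    beta_reduce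
    omega
  · have h3 := (freeZ_cast.mpr h2).aff (-1) j (by norm_num)
    refine (freeZ_cast (x := fun n => j - x n)).mp ?_
    convert h3 using 2 with n
    have := h1 n
    omega

theorem avN (i j : ℕ) (h : Nat.Coprime i j) (hi : 0 < i) (hij : i < j) (h2 : j ≠ 2) : AvN i j := by
  by_cases h6 : 6 ≤ j
  · exact cv_free i j h h6
  · have a : AvN 1 3 := c13_free
    have b : AvN 1 4 := c14_free
    have c : AvN 1 5 := c15_free
    have d : AvN 2 5 := c25_free
    have hj : j < 6 := by omega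
    interval_cases j <;> interval_cases i
    · exact absurd rfl h2
    · exact a
    · exact a.refl (by norm_num)
    · exact b
    · exact absurd h (by decide)
    · exact b.refl (by norm_num)
    · exact c
    · exact d
    · exact d.refl (by norm_num)
    · exact c.refl (by norm_num)

/-- every increasing triple of integers that is not an arithmetic progression -/
theorem triple (a b c : ℤ) (hab : a < b) (hbc : b < c) (h : a + c ≠ 2 * b) :
    ∃ x : ℕ → ℤ, (∀ n, x n = a ∨ x n = b ∨ x n = c) ∧ FreeZ x := by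
  obtain ⟨u, hu⟩ : ∃ u : ℕ, b - a = u := ⟨(b - a).toNat, by omega⟩
  obtain ⟨v, hv⟩ : ∃ v : ℕ, c - a = v := ⟨(c - a).toNat, by omega⟩
  have hg : 0 < Nat.gcd u v := Nat.gcd_pos_of_pos_left _ (by omega)
  obtain ⟨d, i, j, hd, hij, e1, e2⟩ := Nat.exists_coprime' hg
  have hi : 0 < i := by
    rcases Nat.eq_zero_or_pos i with h0 | h0
    · rw [h0] at e1; omega
    · exact h0
  have hlt : i < j := by
    have : i * d < j * d := by omega
    exact Nat.lt_of_mul_lt_mul_right this
  have h2 : j ≠ 2 := by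
    intro h2
    have : i = 1 := by omega
    rw [this] at e1
    rw [h2] at e2
    omega
  obtain ⟨x, h3, h4⟩ := avN i j hij hi hlt h2
  refine ⟨fun n => (d : ℤ) * (x n : ℤ) + a, fun n => ?_,
    (freeZ_cast.mpr h4).aff d a (by omega)⟩
  have f1 : (u : ℤ) = i * d := by exact_mod_cast e1
  have f2 : (v : ℤ) = j * d := by exact_mod_cast e2
  beta_reduce
  rcases h3 n with k | k | k <;> rw [k]
  · left; simp
  · right; left; linarith
  · right; right; linarith

theorem gen (A : Finset ℤ) (h3 : 3 ≤ A.card)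
    (h : ¬ ∃ a d : ℤ, 0 < d ∧ A = {a, a + d, a + 2 * d}) :
    ∃ x : ℕ → ℤ, (∀ n, x n ∈ A) ∧ FreeZ x := by
  have hne : A.Nonempty := Finset.card_pos.mp (by omega)
  have hm := A.min'_mem hne
  have hM := A.max'_mem hne
  have h1 : ∀ t ∈ A, A.min' hne ≤ t := fun t ht => A.min'_le t ht
  have h2 : ∀ t ∈ A, t ≤ A.max' hne := fun t ht => A.le_max' t ht
  generalize A.min' hne = m at *
  generalize A.max' hne = M at *
  by_cases hc : ∃ t ∈ A, m < t ∧ t < M ∧ m + M ≠ 2 * t
  · obtain ⟨t, ht, a, b, c⟩ := hc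
    obtain ⟨x, k, l⟩ := triple m t M a b c
    refine ⟨x, fun n => ?_, l⟩
    rcases k n with e | e | e <;> rw [e] <;> assumption
  · exfalso
    push Not at hc
    have h4 : ∃ t ∈ A, m < t ∧ t < M := by
      by_contra hn
      push Not at hn
      have : A ⊆ {m, M} := by
        intro t ht
        have a := h1 t ht
        have b := h2 t ht
        have c := hn t ht
        simp only [Finset.mem_insert, Finset.mem_singleton]
        omega
      have := (Finset.card_le_card this).trans (Finset.card_le_two (a := m) (b := M))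
      omega
    obtain ⟨t, ht, a, b⟩ := h4
    have c := hc t ht a b
    refine h ⟨m, t - m, by omega, ?_⟩
    ext s
    simp only [Finset.mem_insert, Finset.mem_singleton]
    constructor
    · intro hs
      have := h1 s hs
      have := h2 s hs
      have := hc s hs
      omega
    · rintro (e | e | e)
      · rw [e]; exact hm
      · rw [show s = t by omega]; exact ht
      · rw [show s = M by omega]; exact hM

theorem bin : ∀ b0 b1 b2 b3 b4 b5 b6 b7 b8 b9 : Bool, ∃ p < 8, ∃ n < 4, 0 < n ∧ p + 3 * n ≤ 10 ∧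
    ∑ k ∈ Finset.range n, ([b0, b1, b2, b3, b4, b5, b6, b7, b8, b9].getD (p + k) false).toNat =
      ∑ k ∈ Finset.range n, ([b0, b1, b2, b3, b4, b5, b6, b7, b8, b9].getD (p + n + k) false).toNat ∧
    ∑ k ∈ Finset.range n, ([b0, b1, b2, b3, b4, b5, b6, b7, b8, b9].getD (p + n + k) false).toNat =
      ∑ k ∈ Finset.range n,
        ([b0, b1, b2, b3, b4, b5, b6, b7, b8, b9].getD (p + 2 * n + k) false).toNat := by
  decide +kernel

theorem not_free_two (x : ℕ → ℤ) (a b : ℤ) (h : ∀ n, x n = a ∨ x n = b) : ¬ FreeZ x := by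
  intro hf
  obtain ⟨y, hy⟩ : ∃ y : ℕ → Bool, ∀ n, x n = (a - b) * ((y n).toNat : ℤ) + b := by
    refine ⟨fun n => decide (x n = a), fun n => ?_⟩
    by_cases hc : x n = a
    · simp [hc]
    · have := (h n).resolve_left hc
      beta_reduce
      rw [decide_eq_false hc]
      simp [this]
  obtain ⟨p, -, n, -, hn, hp, h1, h2⟩ :=
    bin (y 0) (y 1) (y 2) (y 3) (y 4) (y 5) (y 6) (y 7) (y 8) (y 9)
  have e : ∀ k < 10, [y 0, y 1, y 2, y 3, y 4, y 5, y 6, y 7, y 8, y 9].getD k false = y k := by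
    intro k hk
    interval_cases k <;> rfl
  have e' : ∀ q, q + n ≤ 10 → ∑ k ∈ Finset.range n, x (q + k) = (a - b) *
      ((∑ k ∈ Finset.range n, ([y 0, y 1, y 2, y 3, y 4, y 5, y 6, y 7, y 8, y 9].getD (q + k)
        false).toNat : ℕ) : ℤ) + n * b := by
    intro q hq
    rw [Nat.cast_sum, Finset.mul_sum, Finset.sum_congr rfl fun k _ => hy (q + k),
      Finset.sum_add_distrib]
    congr 1
    · refine Finset.sum_congr rfl fun k hk => ?_
      rw [e _ (by have := Finset.mem_range.mp hk; omega)]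
    · simp
  apply hf p n hn
  rw [e' p (by omega), e' (p + n) (by omega), e' (p + 2 * n) (by omega), h1, h2]
  exact ⟨rfl, rfl⟩

end Pool.Agent.H17.AC
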