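import Mathlib

set_option autoImplicit false

namespace Pool.Agent.H17.CK

open SimpleGraph

variable {V : Type}

/-- vertices adjacent to some vertex of `X` -/
def nbr (G : SimpleGraph V) (X : Set V) : Set V := {v | ∃ x ∈ X, G.Adj v x}

def corona (G : SimpleGraph V) [Finite V] : Set V :=
  {v | ∃ S : Finset V, G.IsMaximumIndepSet S ∧ v ∈ S}

noncomputable def diff (G : SimpleGraph V) (X : Set V) : ℤ := X.ncard - (nbr G X).ncard

def Critical (G : SimpleGraph V) (X : Set V) : Prop :=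
  G.IsIndepSet X ∧ ∀ Y, G.IsIndepSet Y → diff G Y ≤ diff G X

def ker (G : SimpleGraph V) : Set V := {v | ∀ X, Critical G X → v ∈ X}

/-- edge sets of the odd cycles -/
def oddCycles (G : SimpleGraph V) : Set (Set (Sym2 V)) :=
  {E | ∃ (v : V) (w : G.Walk v v), w.IsCycle ∧ Odd w.length ∧ E = w.edgeSet}

/-- vertices missed by some maximum matching -/
def Dset (G : SimpleGraph V) : Set V :=
  {v | ∃ M : G.Subgraph, M.IsMatching ∧
    (∀ M' : G.Subgraph, M'.IsMatching → M'.edgeSet.ncard ≤ M.edgeSet.ncard) ∧ v ∉ M.verts}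

/-- largest number of pairwise vertex-disjoint odd cycles -/
noncomputable def packing (G : SimpleGraph V) : ℕ :=
  sSup {n | ∃ C ⊆ oddCycles G, C.ncard = n ∧
    C.Pairwise fun E F => ∀ v, ∀ e ∈ E, ∀ f ∈ F, v ∈ e → v ∉ f}

lemma odd_cycle (G : SimpleGraph V) (n : ℕ) : ∀ (v : V) (w : G.Walk v v), w.length = n → Odd n →
    ∃ (u : V) (c : G.Walk u u), c.IsCycle ∧ Odd c.length := by
  induction n using Nat.strong_induction_on with
  | _ n ih =>
  intro v w hn ho
  by_cases hp : w.tail.IsPath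
  · refine ⟨v, w, Walk.isCycle_iff_isPath_tail_and_le_length.mpr ⟨hp, ?_⟩, hn ▸ ho⟩
    have : w.length ≠ 1 := fun h => (Walk.adj_of_length_eq_one h).ne rfl
    obtain ⟨k, hk⟩ := ho
    omega
  rw [← Walk.IsPath.getVert_injOn_iff] at hp
  obtain ⟨i, j, hj, hij, e⟩ : ∃ i j, j + 1 ≤ n ∧ i < j ∧ w.getVert (i + 1) = w.getVert (j + 1) := by
    simp only [Set.InjOn, Set.mem_ofPred_eq, Walk.getVert_tail, Walk.length_tail, not_forall] at hp
    obtain ⟨i, hi, j, hj, e, ne⟩ := hp
    obtain ⟨k, hk⟩ := ho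
    rcases lt_or_gt_of_ne ne with h | h
    · exact ⟨i, j, by omega, h, e⟩
    · exact ⟨j, i, by omega, h, e.symm⟩
  by_cases h : Odd (j - i)
  · refine ih (j - i) (by omega) _ (((w.drop (i + 1)).take (j - i)).copy rfl ?_) ?_ h
    · rw [Walk.drop_getVert, e]; congr 1; omega
    · simp only [Walk.length_copy, Walk.take_length, Walk.drop_length]; omega
  · refine ih (n - (j - i)) (by omega) _ ((w.take (i + 1)).append ((w.drop (j + 1)).copy e.symm rfl))
      ?_ ?_
    · simp only [Walk.length_append, Walk.length_copy, Walk.take_length, Walk.drop_length]; omega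
    · rw [Nat.odd_iff] at *; omega

lemma half [Finite V] (G : SimpleGraph V) (W : Set V) :
    ∃ I ⊆ W, G.IsIndepSet I ∧ W.ncard ≤ 2 * I.ncard + (oddCycles G).ncard := by
  have ex : ∀ E : oddCycles G, ∃ v, ∃ e ∈ E.1, v ∈ e := by
    rintro ⟨_, v, w, hc, -, rfl⟩
    exact ⟨v, (Walk.mem_support_iff_exists_mem_edges_of_not_nil hc.not_nil).mp w.start_mem_support⟩
  choose r hr using ex
  let W' := W \ Set.range r
  let H : SimpleGraph V := ⟨fun x y => G.Adj x y ∧ x ∈ W' ∧ y ∈ W',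
    ⟨fun x y h => ⟨h.1.symm, h.2.2, h.2.1⟩⟩, ⟨fun x h => h.1.ne rfl⟩⟩
  have le : H ≤ G := fun x y h => h.1
  have col : H.Colorable 2 := by
    rw [two_colorable_iff_forall_loop_even]
    intro u w
    by_contra hw
    obtain ⟨v, c, h1, h2⟩ := odd_cycle H _ u w rfl (Nat.not_even_iff_odd.mp hw)
    obtain ⟨e, he, hv⟩ := hr ⟨_, v, c.mapLe le, h1.mapLe le, by simpa using h2, rfl⟩
    have he' : e ∈ H.edgeSet := c.edges_subset_edgeSet (by simpa using he)
    induction e using Sym2.ind with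
    | h x y =>
      rcases Sym2.mem_iff.mp hv with e | e
      · exact he'.2.1.2 ⟨_, e⟩
      · exact he'.2.2.2 ⟨_, e⟩
  obtain ⟨c⟩ := col
  have ind : ∀ k, G.IsIndepSet (W' ∩ {v | c v = k}) := fun k x hx y hy _ h =>
    c.valid (show H.Adj x y from ⟨h, hx.1, hy.1⟩) (hx.2.trans hy.2.symm)
  have c1 : W.ncard ≤ W'.ncard + (oddCycles G).ncard := by
    have a := Set.le_ncard_sdiff (Set.range r) W
    have b : (Set.range r).ncard ≤ (oddCycles G).ncard := by
      rw [← Set.image_univ]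
      exact (Set.ncard_image_le).trans (by simp)
    simp only [W']; omega
  have c2 : W'.ncard ≤ (W' ∩ {v | c v = 0}).ncard + (W' ∩ {v | c v = 1}).ncard := by
    refine le_trans (Set.ncard_le_ncard fun v hv => ?_) (Set.ncard_union_le _ _)
    have : ∀ k : Fin 2, k = 0 ∨ k = 1 := by decide
    exact (this (c v)).imp (fun h => ⟨hv, h⟩) fun h => ⟨hv, h⟩
  rcases le_total (W' ∩ {v | c v = 0}).ncard (W' ∩ {v | c v = 1}).ncard with h | h
  · exact ⟨_, fun v hv => hv.1.1, ind 1, by omega⟩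
  · exact ⟨_, fun v hv => hv.1.1, ind 0, by omega⟩

lemma le_alpha [Finite V] (G : SimpleGraph V) (I : Set V) (h : G.IsIndepSet I) :
    I.ncard ≤ G.indepNum := by
  lift I to Finset V using I.toFinite
  simpa using h.card_le_indepNum

lemma ker_sub [Finite V] (G : SimpleGraph V) (S : Finset V) (hS : G.IsMaximumIndepSet S) :
    ker G ⊆ S := by
  obtain ⟨X, hX, mx⟩ := Set.exists_max_image {X | G.IsIndepSet X} (diff G) (Set.toFinite _)
    ⟨∅, Set.pairwise_empty _⟩
  have a := maximumIndepSet_card_eq_indepNum S hS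
  have i1 : G.IsIndepSet ((S \ nbr G X) ∪ (X \ S)) := by
    rintro x (hx | hx) y (hy | hy) ne h
    · exact hS.isIndepSet hx.1 hy.1 ne h
    · exact hx.2 ⟨y, hy.1, h⟩
    · exact hy.2 ⟨x, hx.1, h.symm⟩
    · exact hX hx.1 hy.1 ne h
  have b := le_alpha G _ i1
  rw [Set.ncard_union_eq (Set.disjoint_left.mpr fun x h1 h2 => h2.2 h1.1)] at b
  have c1 := Set.ncard_inter_add_ncard_sdiff_eq_ncard (S : Set V) (nbr G X)
  have c2 := Set.ncard_inter_add_ncard_sdiff_eq_ncard X S
  have c3 := Set.ncard_inter_add_ncard_sdiff_eq_ncard (nbr G X) S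
  have c4 : (nbr G (X ∩ S)).ncard ≤ (nbr G X \ S).ncard := Set.ncard_le_ncard (by
    rintro v ⟨x, hx, h⟩
    exact ⟨⟨x, hx.1, h⟩, fun hv => hS.isIndepSet hv hx.2 h.ne h⟩)
  rw [Set.inter_comm] at c3
  rw [Set.ncard_coe_finset] at c1
  intro v hv
  refine (hv (X ∩ S) ⟨hX.mono Set.inter_subset_left, fun Y hY => (mx Y hY).trans ?_⟩).2
  unfold diff
  omega

theorem q1 [Finite V] (G : SimpleGraph V) :
    (corona G).ncard + (ker G).ncard ≤ 2 * G.indepNum + (oddCycles G).ncard := by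
  obtain ⟨S, hS⟩ := G.maximumIndepSet_exists
  have ki : G.IsIndepSet (ker G) := hS.isIndepSet.mono (ker_sub G S hS)
  obtain ⟨I, h1, h2, h3⟩ := half G (ker G ∪ nbr G (ker G))ᶜ
  have i1 : G.IsIndepSet (I ∪ ker G) := by
    rintro x (hx | hx) y (hy | hy) ne h
    · exact h2 hx hy ne h
    · exact h1 hx (Or.inr ⟨y, hy, h⟩)
    · exact h1 hy (Or.inr ⟨x, hx, h.symm⟩)
    · exact ki hx hy ne h
  have b := le_alpha G _ i1
  rw [Set.ncard_union_eq (Set.disjoint_left.mpr fun x a b => h1 a (Or.inl b))] at b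
  have c : (corona G).ncard ≤ (ker G ∪ nbr G (ker G))ᶜ.ncard + (ker G).ncard := by
    refine le_trans (Set.ncard_le_ncard ?_) (Set.ncard_union_le _ _)
    rintro v ⟨T, hT, hv⟩
    by_cases hk : v ∈ ker G
    · exact Or.inr hk
    · refine Or.inl ?_
      rintro (h | ⟨x, hx, h⟩)
      · exact hk h
      · exact hT.isIndepSet hv (ker_sub G T hT hx) h.ne h
  omega

abbrev K4 : SimpleGraph (Fin 4) := ⊤

lemma k4_ind (S : Finset (Fin 4)) (h : K4.IsIndepSet S) : S.card ≤ 1 :=
  Finset.card_le_one.mpr fun a ha b hb => by by_contra hc; exact h ha hb hc hc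

lemma k4_main : 2 * K4.indepNum + 1 < (corona K4).ncard := by
  obtain ⟨S, hS⟩ := K4.exists_isNIndepSet_indepNum
  have := k4_ind S hS.isIndepSet
  rw [hS.card_eq] at this
  have e : corona K4 = Set.univ := Set.eq_univ_of_forall fun v =>
    ⟨{v}, ⟨by simp, fun T hT => by simpa using k4_ind T hT⟩, by simp⟩
  rw [e, Set.ncard_univ]
  simp only [Nat.card_eq_fintype_card, Fintype.card_fin]
  omega

lemma k4_D : Dset K4 = ∅ := by
  rw [Set.eq_empty_iff_forall_notMem]
  rintro v ⟨M, h1, h2, h3⟩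
  have a01 : K4.Adj 0 1 := by decide
  have a23 : K4.Adj 2 3 := by decide
  have m := h2 (K4.subgraphOfAdj a01 ⊔ K4.subgraphOfAdj a23)
    ((Subgraph.IsMatching.subgraphOfAdj a01).sup (Subgraph.IsMatching.subgraphOfAdj a23) (by
      simp only [support_subgraphOfAdj]; rw [Set.disjoint_left]; decide))
  rw [Subgraph.edgeSet_sup, edgeSet_subgraphOfAdj, edgeSet_subgraphOfAdj, Set.singleton_union,
    Set.ncard_pair (by decide)] at m
  have : M.edgeSet.ncard ≤ 1 := by
    rw [Set.ncard_le_one_iff]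
    intro e f he hf
    induction e using Sym2.ind with
    | h a b =>
    induction f using Sym2.ind with
    | h c d =>
    rw [Subgraph.mem_edgeSet] at he hf
    have n1 : a ≠ v := fun e => h3 (e ▸ M.edge_vert he)
    have n2 : b ≠ v := fun e => h3 (e ▸ M.edge_vert he.symm)
    have n3 : c ≠ v := fun e => h3 (e ▸ M.edge_vert hf)
    have n4 : d ≠ v := fun e => h3 (e ▸ M.edge_vert hf.symm)
    have n5 : a ≠ b := he.ne
    have n6 : c ≠ d := hf.ne
    have : a = c ∨ a = d ∨ b = c ∨ b = d := by omega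
    rcases this with rfl | rfl | rfl | rfl
    · rw [(h1 (M.edge_vert he)).unique he hf]
    · rw [(h1 (M.edge_vert he)).unique he hf.symm, Sym2.eq_swap]
    · rw [(h1 (M.edge_vert hf)).unique he.symm hf, Sym2.eq_swap]
    · rw [(h1 (M.edge_vert he.symm)).unique he.symm hf.symm]
  omega

lemma k4_pack : packing K4 ≤ 1 := by
  refine csSup_le' ?_
  rintro n ⟨C, h1, rfl, h2⟩
  rw [Set.ncard_le_one_iff]
  intro E F hE hF
  by_contra hne
  obtain ⟨u, w, c1, -, rfl⟩ := h1 hE
  obtain ⟨u', w', c2, -, rfl⟩ := h1 hF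
  have big : ∀ (u : Fin 4) (w : K4.Walk u u), w.IsCycle → 3 ≤ w.support.toFinset.card := by
    intro u w c
    have a := List.toFinset_card_of_nodup c.support_nodup
    have b : w.support.tail.toFinset ⊆ w.support.toFinset := fun x hx =>
      List.mem_toFinset.mpr (List.mem_of_mem_tail (List.mem_toFinset.mp hx))
    have := Finset.card_le_card b
    have := c.three_le_length
    rw [List.length_tail, Walk.length_support] at a
    omega
  have key : ∀ A B : Finset (Fin 4), 3 ≤ A.card → 3 ≤ B.card → ∃ x ∈ A, x ∈ B := by decide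
  obtain ⟨x, x1, x2⟩ := key _ _ (big u w c1) (big u' w' c2)
  obtain ⟨e, he, hx⟩ := (Walk.mem_support_iff_exists_mem_edges_of_not_nil c1.not_nil).mp
    (List.mem_toFinset.mp x1)
  obtain ⟨f, hf, hy⟩ := (Walk.mem_support_iff_exists_mem_edges_of_not_nil c2.not_nil).mp
    (List.mem_toFinset.mp x2)
  exact h2 hE hF hne x e he f hf hx hy

end Pool.Agent.H17.CK
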