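import Mathlib

namespace Pool.Agent.H17.Cubic

open scoped InnerProductSpace ComplexConjugate

lemma nsq {H : Type*} [NormedAddCommGroup H] [InnerProductSpace ℂ H] (a c : H) (t : ℝ) :
    ‖a + (t : ℂ) • c‖ ^ 2 = ‖a‖ ^ 2 + 2 * t * (⟪a, c⟫_ℂ).re + t ^ 2 * ‖c‖ ^ 2 := by
  rw [@norm_add_sq ℂ, inner_smul_right, norm_smul]
  simp only [RCLike.re_to_complex, Complex.mul_re, Complex.ofReal_re, Complex.ofReal_im,
    Complex.norm_real, Real.norm_eq_abs, mul_pow, sq_abs]
  ring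

lemma quart {H : Type*} [NormedAddCommGroup H] [InnerProductSpace ℂ H] (a b c a' b' c' : H)
    (h0 : ‖a'‖ = ‖a‖)
    (h : ∀ δ : ℝ, ‖a' + (δ : ℂ) • b' + ((δ : ℂ) ^ 2) • c'‖ ≤ ‖a + (δ : ℂ) • b + ((δ : ℂ) ^ 2) • c‖) :
    ‖b'‖ ^ 2 + 2 * (⟪a', c'⟫_ℂ).re ≤ ‖b‖ ^ 2 + 2 * (⟪a, c⟫_ℂ).re := by
  have par : ∀ (a b c : H) (δ : ℝ), ‖a + (δ : ℂ) • b + ((δ : ℂ) ^ 2) • c‖ ^ 2
      + ‖a + ((-δ : ℝ) : ℂ) • b + (((-δ : ℝ) : ℂ) ^ 2) • c‖ ^ 2
      = 2 * (‖a‖ ^ 2 + 2 * δ ^ 2 * (⟪a, c⟫_ℂ).re + δ ^ 4 * ‖c‖ ^ 2 + δ ^ 2 * ‖b‖ ^ 2) := by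
    intro a b c δ
    have e1 : a + (δ : ℂ) • b + ((δ : ℂ) ^ 2) • c = (a + ((δ ^ 2 : ℝ) : ℂ) • c) + (δ : ℂ) • b := by
      push_cast; abel
    have e2 : a + ((-δ : ℝ) : ℂ) • b + (((-δ : ℝ) : ℂ) ^ 2) • c
        = (a + ((δ ^ 2 : ℝ) : ℂ) • c) + ((-δ : ℝ) : ℂ) • b := by
      push_cast; rw [neg_sq]; abel
    rw [e1, e2, nsq _ b δ, nsq _ b (-δ), nsq a c]
    ring
  have key : ∀ δ : ℝ, δ ≠ 0 → ‖b'‖ ^ 2 + 2 * (⟪a', c'⟫_ℂ).re ≤ ‖b‖ ^ 2 + 2 * (⟪a, c⟫_ℂ).re
      + δ ^ 2 * ‖c‖ ^ 2 := by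
    intro δ hδ
    have h1 := pow_le_pow_left₀ (norm_nonneg _) (h δ) 2
    have h2 := pow_le_pow_left₀ (norm_nonneg _) (h (-δ)) 2
    have h3 := par a b c δ
    have h4 := par a' b' c' δ
    have hp : 0 < δ ^ 2 := by positivity
    have h5 : δ ^ 2 * (‖b'‖ ^ 2 + 2 * (⟪a', c'⟫_ℂ).re + δ ^ 2 * ‖c'‖ ^ 2)
        ≤ δ ^ 2 * (‖b‖ ^ 2 + 2 * (⟪a, c⟫_ℂ).re + δ ^ 2 * ‖c‖ ^ 2) := by
      rw [h0] at h4; nlinarith
    have h6 := le_of_mul_le_mul_left h5 hp
    nlinarith [mul_nonneg hp.le (sq_nonneg ‖c'‖)]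
  apply le_of_forall_pos_le_add
  intro ε hε
  have hc : 0 < ‖c‖ ^ 2 + 1 := by positivity
  have hs : 0 < Real.sqrt (ε / (‖c‖ ^ 2 + 1)) := Real.sqrt_pos.mpr (by positivity)
  have := key _ hs.ne'
  rw [Real.sq_sqrt (by positivity)] at this
  have h7 : ε / (‖c‖ ^ 2 + 1) * ‖c‖ ^ 2 ≤ ε := by
    rw [div_mul_eq_mul_div, div_le_iff₀ hc]; nlinarith
  linarith

variable {E : Type*} [NormedAddCommGroup E] [InnerProductSpace ℂ E]

/-- monotone squares with equality at a vector -/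
lemma inv_step (B C : E →ₗ[ℂ] E) (hB : B.IsSymmetric) (hC : C.IsSymmetric)
    (hle : ∀ u, ‖B u‖ ≤ ‖C u‖) (v : E) (hv : B v = C v) : B (B v) = C (B v) := by
  set g := B v with hg
  set d := C g - B g with hd
  have h := quart g 0 (C (-d)) g 0 (B (-d)) rfl (by
    intro δ
    have := hle (v + ((δ : ℂ) ^ 2) • (-d))
    simp only [map_add, map_smul] at this
    rw [← hv, ← hg] at this
    simpa using this)
  rw [← hB g (-d), ← hC g (-d)] at h
  have h2 : (⟪C g, -d⟫_ℂ).re - (⟪B g, -d⟫_ℂ).re = -‖d‖ ^ 2 := by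
    rw [← Complex.sub_re, ← inner_sub_left, ← hd, inner_neg_right, Complex.neg_re,
      inner_self_eq_norm_sq_to_K]
    simp [← Complex.ofReal_pow]
  have h3 : ‖d‖ ^ 2 ≤ 0 := by simp only [norm_zero] at h; linarith
  have h4 : d = 0 := by
    have : ‖d‖ ^ 2 = 0 := le_antisymm h3 (by positivity)
    simpa using this
  rw [hd] at h4
  exact (sub_eq_zero.mp h4).symm

/-- equal squares on an invariant subspace give equal operators there -/
lemma sq_eq [FiniteDimensional ℂ E] (B C : E →ₗ[ℂ] E) (hB : B.IsPositive)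
    (hBi : Function.Injective B) (hC : C.IsPositive) (F : Submodule ℂ E)
    (hF : ∀ v ∈ F, B v ∈ F) (h : ∀ v ∈ F, C (C (B v)) = B (B (B v))) :
    ∀ v ∈ F, C v = B v := by
  have hs := hB.isSymmetric.restrict_invariant hF
  set b := hs.eigenvectorBasis rfl with hb
  have key : C ∘ₗ F.subtype = B ∘ₗ F.subtype := by
    apply b.toBasis.ext
    intro i
    have h1 := hs.apply_eigenvectorBasis rfl i
    rw [← hb] at h1
    set β : ℝ := hs.eigenvalues rfl i with hβ
    set u : E := (b i : E) with hu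
    have hu1 : ‖u‖ = 1 := b.orthonormal.1 i
    have hBu : B u = (β : ℂ) • u := by
      have := congrArg (Subtype.val) h1
      simpa [LinearMap.restrict_apply] using this
    have hβ0 : β ≠ 0 := by
      intro h0
      have : B u = B 0 := by rw [hBu, h0]; simp
      have := hBi this
      rw [this] at hu1; simp at hu1
    have hβn : 0 ≤ β := by
      have := hB.re_inner_nonneg_right u
      rw [hBu, inner_smul_right, inner_self_eq_norm_sq_to_K, hu1] at this
      simpa using this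
    have hβp : 0 < β := lt_of_le_of_ne hβn (Ne.symm hβ0)
    have h2 := h u (b i).2
    simp only [hBu, map_smul] at h2
    have h3 : C (C u) = ((β : ℂ) * β) • u := by
      have hne : (β : ℂ) ≠ 0 := by exact_mod_cast hβ0
      apply smul_right_injective E hne
      simp only [h2, smul_smul]
    set d := C u - (β : ℂ) • u with hd
    have h4 : C d = -((β : ℂ) • d) := by
      simp only [hd, map_sub, map_smul, h3, smul_sub, smul_smul]; abel
    have h5 := hC.re_inner_nonneg_right d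
    rw [h4, inner_neg_right, inner_smul_right, inner_self_eq_norm_sq_to_K] at h5
    have h6 : β * ‖d‖ ^ 2 ≤ 0 := by
      simp [← Complex.ofReal_pow] at h5
      exact h5
    have h7 : d = 0 := by
      have : ‖d‖ ^ 2 = 0 := le_antisymm (by nlinarith) (by positivity)
      simpa using this
    have h8 : C u = B u := by rw [hBu]; exact sub_eq_zero.mp h7
    simpa using h8
  intro v hv
  exact LinearMap.congr_fun key ⟨v, hv⟩

section shift

variable [CompleteSpace E]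

abbrev H (E : Type*) [NormedAddCommGroup E] := lp (fun _ : ℕ => E) 2

noncomputable def e (n : ℕ) (z : E) : H E := lp.single 2 n z

omit [CompleteSpace E] in
lemma inner_e_same (n : ℕ) (z w : E) : ⟪e n z, e n w⟫_ℂ = ⟪z, w⟫_ℂ := by
  unfold e; rw [lp.inner_single_left, lp.single_apply_self]

omit [CompleteSpace E] in
lemma inner_e_ne {n m : ℕ} (h : n ≠ m) (z w : E) : ⟪e n z, e m w⟫_ℂ = 0 := by
  unfold e; rw [lp.inner_single_left, lp.single_apply_ne _ _ _ h, inner_zero_right]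

omit [CompleteSpace E] [InnerProductSpace ℂ E] in
lemma norm_e (n : ℕ) (z : E) : ‖e n z‖ = ‖z‖ := lp.norm_single (E := fun _ : ℕ => E) (p := 2) (by norm_num) n z

omit [CompleteSpace E] [InnerProductSpace ℂ E] in
lemma e_add (n : ℕ) (z w : E) : e n (z + w) = e n z + e n w := lp.single_add (E := fun _ : ℕ => E) 2 n z w

omit [CompleteSpace E] [InnerProductSpace ℂ E] in
lemma e_zero (n : ℕ) : e n (0 : E) = 0 := lp.single_zero 2 n

variable (A : ℕ → E →ₗ[ℂ] E) (T : H E →L[ℂ] H E)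

omit [CompleteSpace E] in
lemma T_e (h0 : ∀ x, T x 0 = 0) (hT : ∀ x n, T x (n + 1) = A n (x n)) (n : ℕ) (z : E) :
    T (e n z) = e (n + 1) (A n z) := by
  apply lp.ext
  funext i
  cases i with
  | zero => rw [h0]; unfold e; rw [lp.single_apply_ne _ _ _ (by omega)]
  | succ i =>
    rw [hT]; unfold e
    by_cases h : i = n
    · subst h; rw [lp.single_apply_self, lp.single_apply_self]
    · rw [lp.single_apply_ne _ _ _ h, lp.single_apply_ne _ _ _ (by omega), map_zero]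

lemma Ts_apply (hA : ∀ n, (A n).IsSymmetric) (h0 : ∀ x, T x 0 = 0)
    (hT : ∀ x n, T x (n + 1) = A n (x n)) (x : H E) (n : ℕ) :
    (star T) x n = A n (x (n + 1)) := by
  apply ext_inner_left ℂ
  intro z
  have h1 : ⟪e n z, (star T) x⟫_ℂ = ⟪z, (star T) x n⟫_ℂ := lp.inner_single_left _ _ _
  have h2 : ⟪e (n + 1) (A n z), x⟫_ℂ = ⟪A n z, x (n + 1)⟫_ℂ := lp.inner_single_left _ _ _
  rw [← h1, ContinuousLinearMap.star_eq_adjoint, ContinuousLinearMap.adjoint_inner_right,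
    T_e A T h0 hT, h2, hA]

lemma Ts_e (hA : ∀ n, (A n).IsSymmetric) (h0 : ∀ x, T x 0 = 0)
    (hT : ∀ x n, T x (n + 1) = A n (x n)) (n : ℕ) (z : E) :
    (star T) (e (n + 1) z) = e n (A n z) := by
  apply lp.ext
  funext i
  rw [Ts_apply A T hA h0 hT]; unfold e
  by_cases h : i = n
  · subst h; rw [lp.single_apply_self, lp.single_apply_self]
  · rw [lp.single_apply_ne _ _ _ h, lp.single_apply_ne _ _ _ (by omega), map_zero]

lemma hypo_norm {K : Type*} [NormedAddCommGroup K] [InnerProductSpace ℂ K] [CompleteSpace K]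
    (S : K →L[ℂ] K) (h : (star S * S - S * star S).IsPositive) (x : K) :
    ‖(star S) x‖ ≤ ‖S x‖ := by
  have h1 := h.re_inner_nonneg_right x
  simp only [ContinuousLinearMap.sub_apply, ContinuousLinearMap.mul_apply, inner_sub_right,
    ContinuousLinearMap.star_eq_adjoint] at h1
  have h2 := ContinuousLinearMap.adjoint_inner_left S ((ContinuousLinearMap.adjoint S) x) x
  rw [ContinuousLinearMap.adjoint_inner_right, ← h2,
    inner_self_eq_norm_sq_to_K, inner_self_eq_norm_sq_to_K] at h1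
  simp [← Complex.ofReal_pow] at h1
  rw [ContinuousLinearMap.star_eq_adjoint]
  exact le_of_sq_le_sq h1 (norm_nonneg _)

/-- the main second-order inequality -/
lemma main_ineq (hA : ∀ n, (A n).IsSymmetric) (hAs : ∀ n, Function.Surjective (A n))
    (h0 : ∀ x, T x 0 = 0) (hT : ∀ x n, T x (n + 1) = A n (x n))
    (hS : ∀ (δ : ℝ) (x : H E), ‖(star (T + (δ : ℂ) • T ^ 3)) x‖ ≤ ‖(T + (δ : ℂ) • T ^ 3) x‖)
    (j : ℕ) (v : E) (h1 : A (j + 1) v = A (j + 2) v)
    (h2 : A (j + 1) (A (j + 2) v) = A (j + 2) (A (j + 2) v))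
    (h3 : A (j + 1) (A (j + 2) (A (j + 2) v)) = A (j + 2) (A (j + 2) (A (j + 2) v))) :
    A (j + 3) (A (j + 3) (A (j + 2) v)) = A (j + 2) (A (j + 2) (A (j + 2) v)) ∧
    ∃ y, A j y = -A (j + 2) (A (j + 2) (A (j + 2) v)) ∧
      (star T) (e j (y + A j (A (j + 2) v))) = 0 := by
  obtain ⟨y, hy⟩ := hAs j (-A (j + 2) (A (j + 2) (A (j + 2) v)))
  set g := A (j + 2) (A (j + 2) (A (j + 2) v)) with hg
  set z := A (j + 3) (A (j + 3) (A (j + 2) v)) with hz
  set yp := -A (j + 3) (A (j + 2) v) with hyp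
  set w := e j y + e (j + 4) yp with hw
  have Te := T_e A T h0 hT
  have Se := Ts_e A T hA h0 hT
  have hq := quart (T (e (j + 2) v)) (T w + T (T (T (e (j + 2) v)))) (T (T (T w)))
    ((star T) (e (j + 2) v)) ((star T) w + (star T) ((star T) ((star T) (e (j + 2) v))))
    ((star T) ((star T) ((star T) w))) (by rw [Te, Se, norm_e, norm_e, h1]) (by
      intro δ
      have := hS δ (e (j + 2) v + (δ : ℂ) • w)
      simp only [star_add, star_smul, ContinuousLinearMap.add_apply,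
        ContinuousLinearMap.smul_apply, pow_succ, pow_zero, one_mul,
        ContinuousLinearMap.mul_apply, map_add, map_smul, RCLike.star_def,
        Complex.conj_ofReal, star_mul] at this
      refine le_of_eq_of_le (congrArg norm ?_) (le_of_le_of_eq this (congrArg norm ?_)) <;>
        module)
  have eb : T w + T (T (T (e (j + 2) v))) = e (j + 1) (-g) := by
    rw [hw, map_add, Te, Te, Te, Te, Te, hy, add_assoc, ← e_add, hyp, map_neg, neg_add_cancel,
      e_zero, add_zero]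
  have eac : ⟪T (e (j + 2) v), T (T (T w))⟫_ℂ = -⟪g, g⟫_ℂ := by
    rw [hw, map_add, map_add, map_add]
    simp only [Te]
    rw [inner_add_right, inner_e_same, inner_e_ne (by omega), add_zero, hy, ← hA, ← hA, h3,
      inner_neg_right]
  have eb' : (star T) w + (star T) ((star T) ((star T) (e (j + 2) v)))
      = (star T) (e j (y + A j (A (j + 2) v))) + e (j + 3) (-z) := by
    rw [hw, map_add, Se, Se, Se, e_add, map_add, h1, hyp, map_neg]
    abel
  have eb'' : ‖(star T) (e j (y + A j (A (j + 2) v))) + e (j + 3) (-z)‖ ^ 2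
      = ‖(star T) (e j (y + A j (A (j + 2) v)))‖ ^ 2 + ‖z‖ ^ 2 := by
    rw [@norm_add_sq ℂ, ContinuousLinearMap.star_eq_adjoint,
      ContinuousLinearMap.adjoint_inner_left, Te, inner_e_ne (by omega), norm_e, norm_neg]
    simp
  have eac' : ⟪(star T) (e (j + 2) v), (star T) ((star T) ((star T) w))⟫_ℂ = -⟪g, z⟫_ℂ := by
    rw [hw, map_add, map_add, map_add, inner_add_right, Se, Se, Se, Se, inner_e_same]
    have : ⟪e (j + 1) (A (j + 1) v), (star T) ((star T) ((star T) (e j y)))⟫_ℂ = 0 := by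
      simp only [ContinuousLinearMap.star_eq_adjoint, ContinuousLinearMap.adjoint_inner_right, Te]
      exact inner_e_ne (by omega) _ _
    rw [this, zero_add, ← hA, ← hA, h1, h2, hyp, map_neg, inner_neg_right]
  rw [eb, eac, eb', eb'', eac', norm_e, norm_neg, inner_self_eq_norm_sq_to_K] at hq
  have e1 : ‖g - z‖ ^ 2 = ‖g‖ ^ 2 - 2 * (⟪g, z⟫_ℂ).re + ‖z‖ ^ 2 := by
    rw [@norm_sub_sq ℂ]; simp
  have e2 : (-((‖g‖ : ℂ) ^ 2)).re = -‖g‖ ^ 2 := by simp [← Complex.ofReal_pow]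
  have hq' : ‖(star T) (e j (y + A j (A (j + 2) v)))‖ ^ 2 + ‖g - z‖ ^ 2 ≤ 0 := by
    have hq2 : ‖(star T) (e j (y + A j (A (j + 2) v)))‖ ^ 2 + ‖z‖ ^ 2 + 2 * (-⟪g, z⟫_ℂ).re
      ≤ ‖g‖ ^ 2 + 2 * (-((‖g‖ : ℂ) ^ 2)).re := hq
    rw [e2, Complex.neg_re] at hq2
    linarith
  have p1 := sq_nonneg ‖(star T) (e j (y + A j (A (j + 2) v)))‖
  have p2 := sq_nonneg ‖g - z‖
  have q1 : ‖(star T) (e j (y + A j (A (j + 2) v)))‖ ^ 2 = 0 := by linarith
  have q2 : ‖g - z‖ ^ 2 = 0 := by linarith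
  refine ⟨?_, y, hy, ?_⟩
  · have : g - z = 0 := by simpa using q2
    exact (sub_eq_zero.mp this).symm
  · simpa using q1

theorem general [FiniteDimensional ℂ E] (hA : ∀ n, (A n).IsPositive)
    (hAb : ∀ n, Function.Bijective (A n))
    (h0 : ∀ x, T x 0 = 0) (hT : ∀ x n, T x (n + 1) = A n (x n))
    (hS : ∀ (δ : ℝ) (x : H E), ‖(star (T + (δ : ℂ) • T ^ 3)) x‖ ≤ ‖(T + (δ : ℂ) • T ^ 3) x‖)
    (x : E) (k : ℕ) (hk : 1 ≤ k) (hx : A k x = A (k + 1) x) (n : ℕ) (hn : 1 ≤ n) :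
    A n x = A 1 x := by
  have hAs := fun n => (hA n).isSymmetric
  have Te := T_e A T h0 hT
  have Se := Ts_e A T hAs h0 hT
  have hle : ∀ n u, ‖A n u‖ ≤ ‖A (n + 1) u‖ := by
    intro n u
    have := hS 0 (e (n + 1) u)
    simp only [Complex.ofReal_zero, zero_smul, add_zero] at this
    rwa [Te, Se, norm_e, norm_e] at this
  have hinv : ∀ k v, A k v = A (k + 1) v → A k (A (k + 1) v) = A (k + 1) (A (k + 1) v) := by
    intro k v hv
    have := inv_step (A k) (A (k + 1)) (hAs _) (hAs _) (hle k) v hv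
    rwa [hv] at this
  have hmem : ∀ k v, v ∈ LinearMap.ker (A k - A (k + 1)) ↔ A k v = A (k + 1) v := by
    intro k v; rw [LinearMap.mem_ker, LinearMap.sub_apply, sub_eq_zero]
  have main := fun j v (h1 : A (j + 1) v = A (j + 2) v) =>
    main_ineq A T hAs (fun n => (hAb n).2) h0 hT hS j v h1 (hinv _ _ h1) (hinv _ _ (hinv _ _ h1))
  have fwd : ∀ j v, A (j + 1) v = A (j + 2) v → A (j + 2) v = A (j + 3) v := by
    intro j v hv
    refine (sq_eq (A (j + 2)) (A (j + 3)) (hA _) (hAb _).1 (hA _)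
      (LinearMap.ker (A (j + 1) - A (j + 1 + 1))) ?_ ?_ v ((hmem _ _).mpr hv)).symm
    · intro u hu; rw [hmem] at hu ⊢; exact hinv _ _ hu
    · intro u hu; rw [hmem] at hu; exact (main j u hu).1
  have bwd : ∀ j v, A (j + 2) v = A (j + 3) v → A (j + 1) v = A (j + 2) v := by
    intro j v hv
    rw [hv]
    refine sq_eq (A (j + 3)) (A (j + 1)) (hA _) (hAb _).1 (hA _)
      (LinearMap.ker (A (j + 2) - A (j + 2 + 1))) ?_ ?_ v ((hmem _ _).mpr hv)
    · intro u hu; rw [hmem] at hu ⊢; exact hinv _ _ hu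
    · intro u hu
      rw [hmem] at hu
      obtain ⟨-, y, hy1, hy2⟩ := main (j + 1) u hu
      rw [Se] at hy2
      have h3 := congrArg norm hy2
      rw [norm_e, norm_zero, norm_eq_zero, ← map_zero (A j)] at h3
      have h4 := (hAb j).1 h3
      have h5 : y = -A (j + 1) (A (j + 3) u) := eq_neg_of_add_eq_zero_left h4
      rw [h5, map_neg, neg_inj] at hy1
      exact hy1
  have all : ∀ j, A (j + 1) x = A (j + 2) x := by
    obtain ⟨k, rfl⟩ := Nat.exists_eq_add_of_le' hk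
    have base : A 1 x = A 2 x := by
      clear hk
      induction k with
      | zero => exact hx
      | succ k ih => exact ih (bwd k x hx)
    intro j
    induction j with
    | zero => exact base
    | succ j ih => exact fwd j x ih
  obtain ⟨n, rfl⟩ := Nat.exists_eq_add_of_le' hn
  clear hn
  induction n with
  | zero => rfl
  | succ n ih => rw [← ih]; exact (all n).symm

end shift

end Pool.Agent.H17.Cubic
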