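import Mathlib

set_option autoImplicit false

namespace Pool.Agent.H17.Dom

abbrev Dir := Fin 3 × Bool
abbrev Cell := Fin 2 × Fin 2 × Fin 3
abbrev P3 := ℤ × ℤ × ℤ

def tab : List ℕ := [739101349, 0, 0, 1469711958, 0, 735975294, 0, 0, 0, 0, 63873469, 0, 60777613, 0, 0, 60747414, 0, 0, 1469711989, 0, 735975325, 0, 0, 1470225222, 0, 0, 0, 0, 0, 0, 60747445, 0, 0, 1469718654, 0, 0, 0, 0, 0, 0, 63880165, 0, 0, 1580576982, 0, 60754110, 0, 0, 1469718685, 0, 0, 1469723682, 0, 1470231918, 0, 0, 0, 0, 1580577013, 0, 60754141, 0, 0, 60759138, 0, 737421630, 0, 0, 0, 0, 0, 0, 62223949, 0, 0, 62193750, 0, 62737182, 0, 0, 737421661, 0, 0, 737426658, 0, 737934894, 0, 0, 0, 0, 62193781, 0, 970561693, 0, 0, 62707014, 0, 0, 0, 0, 0, 0, 0, 0, 0, 62200446, 0, 0, 0, 0, 0, 0, 0, 82361514, 0, 0, 0, 0, 0, 0, 62200477, 0, 0, 62205474, 0, 62713710, 0, 0, 0, 0, 376282045, 0, 373186189, 0, 0, 373155990, 0, 0, 0, 0, 0, 0, 484044517, 0, 0, 0, 0, 0, 0, 0, 373156021,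 0, 0, 0, 0, 0, 0, 0, 0, 0, 376288741, 0, 0, 376293738, 0, 373162686, 0, 0, 0, 0, 487147069, 0, 609428773, 0, 0, 484021014, 0, 0, 373261029, 0, 373162717, 0, 0, 373167714, 0, 0, 0, 0, 0, 0, 484021045, 0, 374632525, 0, 0, 374602326, 0, 375145758, 0, 0, 0, 0, 485490853, 0, 607772557, 0, 0, 607742358, 0, 0, 374602357, 0, 627898429, 0, 0, 375115590, 0, 0, 0, 0, 0, 0, 607742389, 0, 0, 374609022, 0, 0, 0, 0, 0, 0, 607842369, 0, 0, 485467350, 0, 607749054, 0, 0, 374609053, 0, 0, 374614050, 0, 375122286, 0, 0, 0, 0, 485467381, 0, 607749085, 0, 0, 485980614]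

def Tn (n : ℕ) (w : Cell) : Dir :=
  (Fin.ofNat 3 (n / 6 ^ (w.1.val * 6 + w.2.1.val * 3 + w.2.2.val) % 6 / 2),
    n / 6 ^ (w.1.val * 6 + w.2.1.val * 3 + w.2.2.val) % 2 == 1)

def Tb (a b c d e f g h : Bool) : Cell → Dir :=
  Tn (tab.getD (a.toNat + 2 * b.toNat + 4 * c.toNat + 8 * d.toNat + 16 * e.toNat + 32 * f.toNat
    + 64 * g.toNat + 128 * h.toNat) 0)

def pick (a b c d : Bool) (x y : Fin 2) : Bool :=
  if x = 0 then (if y = 0 then a else b) else (if y = 0 then c else d)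

def Bal (a b c d e f g h : Bool) : Prop :=
  (!a).toNat + (!d).toNat + f.toNat + g.toNat = e.toNat + h.toNat + (!b).toNat + (!c).toNat

instance (a b c d e f g h : Bool) : Decidable (Bal a b c d e f g h) := by unfold Bal; infer_instance

def Good (qi qo : Fin 2 → Fin 2 → Bool) (T : Cell → Dir) : Prop :=
  (∀ x y, T (x, y, 0) = (0, false) ↔ qi x y = true) ∧
  (∀ x y, T (x, y, 2) = (0, true) ↔ qo x y = true) ∧
  (∀ x y, T (x, y, 0) = (0, true) ↔ T (x, y, 1) = (0, false)) ∧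
  (∀ x y, T (x, y, 1) = (0, true) ↔ T (x, y, 2) = (0, false)) ∧
  (∀ y k, T (0, y, k) = (1, true) ↔ T (1, y, k) = (1, false)) ∧
  (∀ x k, T (x, 0, k) = (2, true) ↔ T (x, 1, k) = (2, false)) ∧
  (∀ y k, T (0, y, k) ≠ (1, false) ∧ T (1, y, k) ≠ (1, true)) ∧
  (∀ x k, T (x, 0, k) ≠ (2, false) ∧ T (x, 1, k) ≠ (2, true))

instance (qi qo : Fin 2 → Fin 2 → Bool) (T : Cell → Dir) : Decidable (Good qi qo T) := by
  unfold Good; infer_instance

lemma good_tab : ∀ a b c d e f g h : Bool, Bal a b c d e f g h →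
    Good (pick a b c d) (pick e f g h) (Tb a b c d e f g h) := by decide +kernel

def T (qi qo : Fin 2 → Fin 2 → Bool) : Cell → Dir :=
  Tb (qi 0 0) (qi 0 1) (qi 1 0) (qi 1 1) (qo 0 0) (qo 0 1) (qo 1 0) (qo 1 1)

lemma pick_eq (q : Fin 2 → Fin 2 → Bool) : pick (q 0 0) (q 0 1) (q 1 0) (q 1 1) = q := by
  funext x y
  fin_cases x <;> fin_cases y <;> rfl

lemma good_T (qi qo : Fin 2 → Fin 2 → Bool)
    (h : Bal (qi 0 0) (qi 0 1) (qi 1 0) (qi 1 1) (qo 0 0) (qo 0 1) (qo 1 0) (qo 1 1)) :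
    Good qi qo (T qi qo) := by
  have := good_tab _ _ _ _ _ _ _ _ h
  rwa [pick_eq, pick_eq] at this

def qq (pi ps a b c d : Bool) : Bool :=
  xor ps ((xor (!pi) (xor a d)).toNat + (xor pi (xor b c)).toNat + (xor a b).toNat + (xor c d).toNat == 3)

lemma qq_not : ∀ pi ps a b c d : Bool, qq pi (!ps) a b c d = !qq pi ps a b c d := by decide

lemma qq_gauge : ∀ pi ps α β γ a b c d : Bool, qq (xor pi α) (xor ps β) a b c d =
    qq pi ps (xor a γ) (xor b (xor γ β)) (xor c (xor γ α)) (xor d (xor γ (xor α β))) := by decide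

lemma qq_bal : ∀ pi ps m m' n e s w ne nw se sw : Bool,
    Bal (qq pi ps m w sw s) (qq pi ps n nw w m) (qq (!pi) ps e m s se) (qq (!pi) ps ne n m e)
      (qq pi (!ps) m' w sw s) (qq pi (!ps) n nw w m') (qq (!pi) (!ps) e m' s se)
      (qq (!pi) (!ps) ne n m' e) := by decide +kernel

def par (n : ℤ) : Bool := decide (n % 2 = 1)

lemma par_succ (n : ℤ) : par (n + 1) = !par n := by
  unfold par
  by_cases h : n % 2 = 1
  · have : ¬ (n + 1) % 2 = 1 := by omega
    simp [h, this]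
  · have : (n + 1) % 2 = 1 := by omega
    simp [h, this]

lemma par_add (n m : ℤ) : par (n + m) = xor (par n) (par m) := by
  unfold par
  by_cases h : n % 2 = 1 <;> by_cases g : m % 2 = 1
  · have : ¬ (n + m) % 2 = 1 := by omega
    simp [h, g, this]
  · have : (n + m) % 2 = 1 := by omega
    simp [h, g, this]
  · have : (n + m) % 2 = 1 := by omega
    simp [h, g, this]
  · have : ¬ (n + m) % 2 = 1 := by omega
    simp [h, g, this]

lemma par_pred (n : ℤ) : par (n - 1) = !par n := by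
  have := par_succ (n - 1)
  rw [sub_add_cancel] at this
  rw [this]; simp

def q (φ : P3 → Bool) (s i j : ℤ) : Bool :=
  qq (par i) (par s) (φ (s, i, j)) (φ (s, i - 1, j)) (φ (s, i - 1, j - 1)) (φ (s, i, j - 1))

def qb (φ : P3 → Bool) (t a b : ℤ) (x y : Fin 2) : Bool := q φ t (a + (x : ℕ)) (b + (y : ℕ))

open Classical in
noncomputable def core (e : Cell → Prop) (qi qo : Cell → Fin 2 → Fin 2 → Bool) (q0 : Bool) : Dir :=
  if h : ∃ w, e w then T (qi h.choose) (qo h.choose) h.choose else (0, !q0)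

noncomputable def Psi (E : Set P3) (φ : P3 → Bool) (u : P3) : Dir :=
  core (fun w => (u.1 - (w.2.2 : ℕ), u.2.1 - (w.1 : ℕ), u.2.2 - (w.2.1 : ℕ)) ∈ E)
    (fun w => qb φ (u.1 - (w.2.2 : ℕ)) (u.2.1 - (w.1 : ℕ)) (u.2.2 - (w.2.1 : ℕ)))
    (fun w => qb φ (u.1 - (w.2.2 : ℕ) + 3) (u.2.1 - (w.1 : ℕ)) (u.2.2 - (w.2.1 : ℕ)))
    (q φ u.1 u.2.1 u.2.2)

def Sep (E : Set P3) : Prop := ∀ t a b t' a' b', (t, a, b) ∈ E → (t', a', b') ∈ E →
  a - a' ≤ 1 → a' - a ≤ 1 → b - b' ≤ 1 → b' - b ≤ 1 → t - t' ≤ 2 → t' - t ≤ 2 →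
  t = t' ∧ a = a' ∧ b = b'

def Slow (E : Set P3) (φ : P3 → Bool) : Prop :=
  ∀ s i j, (s - 2, i, j) ∉ E → φ (s + 1, i, j) = φ (s, i, j)

def vec3 (d : Dir) : P3 :=
  if d.1 = 0 then (if d.2 then 1 else -1, 0, 0)
  else if d.1 = 1 then (0, if d.2 then 1 else -1, 0) else (0, 0, if d.2 then 1 else -1)

def Valid3 (x : P3 → Dir) : Prop := ∀ u, x (u + vec3 (x u)) = ((x u).1, !(x u).2)

variable {E : Set P3} {φ : P3 → Bool}

lemma win (hE : Sep E) {t a b : ℤ} (h : (t, a, b) ∈ E) (x y : Fin 2) (k : Fin 3) {s i j : ℤ}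
    (hs : s = t + (k : ℕ)) (hi : i = a + (x : ℕ)) (hj : j = b + (y : ℕ)) :
    Psi E φ (s, i, j) = T (qb φ t a b) (qb φ (t + 3) a b) (x, y, k) := by
  have ex : ∃ w : Cell, (s - (w.2.2 : ℕ), i - (w.1 : ℕ), j - (w.2.1 : ℕ)) ∈ E :=
    ⟨(x, y, k), by simpa [hs, hi, hj] using h⟩
  have sp := ex.choose_spec
  have l1 := ex.choose.1.isLt
  have l2 := ex.choose.2.1.isLt
  have l3 := ex.choose.2.2.isLt
  have m1 := x.isLt
  have m2 := y.isLt
  have m3 := k.isLt
  obtain ⟨e1, e2, e3⟩ := hE _ _ _ _ _ _ sp h (by omega) (by omega) (by omega) (by omega) (by omega)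
    (by omega)
  have ew : ex.choose = (x, y, k) :=
    Prod.ext (Fin.ext (by simp only; omega)) (Prod.ext (Fin.ext (by simp only; omega))
      (Fin.ext (by simp only; omega)))
  unfold Psi core
  rw [dif_pos ex]
  simp only [e1, e2, e3]
  rw [ew]

lemma free {s i j : ℤ} (h : ¬ ∃ w : Cell, (s - (w.2.2 : ℕ), i - (w.1 : ℕ), j - (w.2.1 : ℕ)) ∈ E) :
    Psi E φ (s, i, j) = (0, !q φ s i j) := by
  unfold Psi core
  rw [dif_neg h]

lemma still (hE : Sep E) (hφ : Slow E φ) {t a b : ℤ} (h : (t, a, b) ∈ E) (i j : ℤ)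
    (h1 : a - i ≤ 1) (h2 : i - a ≤ 1) (h3 : b - j ≤ 1) (h4 : j - b ≤ 1) (hne : i ≠ a ∨ j ≠ b) :
    φ (t + 3, i, j) = φ (t, i, j) := by
  have no : ∀ t', t - t' ≤ 2 → t' - t ≤ 2 → (t', i, j) ∉ E := by
    intro t' g1 g2 g
    have := hE _ _ _ _ _ _ h g h1 h2 h3 h4 g1 g2
    omega
  have a1 := hφ t i j (no _ (by omega) (by omega))
  have a2 := hφ (t + 1) i j (no _ (by omega) (by omega))
  have a3 := hφ (t + 1 + 1) i j (no _ (by omega) (by omega))
  rw [show t + 3 = t + 1 + 1 + 1 by ring, a3, a2, a1]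

lemma good_ev (hE : Sep E) (hφ : Slow E φ) {t a b : ℤ} (h : (t, a, b) ∈ E) :
    Good (qb φ t a b) (qb φ (t + 3) a b) (T (qb φ t a b) (qb φ (t + 3) a b)) := by
  apply good_T
  have p3 : par (t + 3) = !par t := by
    rw [show t + 3 = t + 1 + 1 + 1 by ring, par_succ, par_succ, par_succ]; simp
  simp only [qb, q, Fin.val_zero, Fin.val_one, Nat.cast_zero, Nat.cast_one, add_zero,
    add_sub_cancel_right, par_succ, p3]
  rw [still hE hφ h (a - 1) b (by omega) (by omega) (by omega) (by omega) (by omega),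
    still hE hφ h (a - 1) (b - 1) (by omega) (by omega) (by omega) (by omega) (by omega),
    still hE hφ h a (b - 1) (by omega) (by omega) (by omega) (by omega) (by omega),
    still hE hφ h a (b + 1) (by omega) (by omega) (by omega) (by omega) (by omega),
    still hE hφ h (a - 1) (b + 1) (by omega) (by omega) (by omega) (by omega) (by omega),
    still hE hφ h (a + 1) b (by omega) (by omega) (by omega) (by omega) (by omega),
    still hE hφ h (a + 1) (b - 1) (by omega) (by omega) (by omega) (by omega) (by omega),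
    still hE hφ h (a + 1) (b + 1) (by omega) (by omega) (by omega) (by omega) (by omega)]
  exact qq_bal _ _ _ _ _ _ _ _ _ _ _ _

lemma q_step (hφ : Slow E φ) {s i j : ℤ}
    (h : ∀ x y : Fin 2, (s - 2, i - (x : ℕ), j - (y : ℕ)) ∉ E) : q φ (s + 1) i j = !q φ s i j := by
  have a := hφ s i j (by simpa using h 0 0)
  have b := hφ s (i - 1) j (by simpa using h 1 0)
  have c := hφ s (i - 1) (j - 1) (by simpa using h 1 1)
  have d := hφ s i (j - 1) (by simpa using h 0 1)
  unfold q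
  rw [a, b, c, d, par_succ, qq_not]

lemma cut (hE : Sep E) (hφ : Slow E φ) {s i j : ℤ}
    (h1 : ∀ x y : Fin 2, (s, i - (x : ℕ), j - (y : ℕ)) ∉ E)
    (h2 : ∀ x y : Fin 2, (s - 1, i - (x : ℕ), j - (y : ℕ)) ∉ E) :
    (Psi E φ (s + 1, i, j) = (0, false) ↔ q φ (s + 1) i j = true) ∧
    (Psi E φ (s, i, j) = (0, true) ↔ q φ (s + 1) i j = true) := by
  constructor
  · by_cases h : ∃ w : Cell, (s + 1 - (w.2.2 : ℕ), i - (w.1 : ℕ), j - (w.2.1 : ℕ)) ∈ E
    · obtain ⟨⟨x, y, k⟩, hw⟩ := h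
      simp only at hw
      have hk : k = 0 := by
        fin_cases k
        · rfl
        · exact absurd (by simpa using hw) (h1 x y)
        · exact absurd (by rw [show s - 1 = s + 1 - ((2 : ℕ) : ℤ) by omega]; exact hw) (h2 x y)
      subst hk
      rw [win hE hw x y 0 (by simp) (by simp) (by simp), (good_ev hE hφ hw).1]
      simp [qb]
    · rw [free h]; simp
  · by_cases h : ∃ w : Cell, (s - (w.2.2 : ℕ), i - (w.1 : ℕ), j - (w.2.1 : ℕ)) ∈ E
    · obtain ⟨⟨x, y, k⟩, hw⟩ := h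
      simp only at hw
      have hk : k = 2 := by
        fin_cases k
        · exact absurd (by simpa using hw) (h1 x y)
        · exact absurd (by simpa using hw) (h2 x y)
        · rfl
      subst hk
      rw [win hE hw x y 2 (by simp) (by simp) (by simp), (good_ev hE hφ hw).2.1]
      have : s - ((2 : Fin 3) : ℕ) + 3 = s + 1 := by simp; ring
      simp only [qb, this, sub_add_cancel]
    · rw [free h, q_step hφ (fun x y g => h ⟨(x, y, 2), by simpa using g⟩)]
      simp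

lemma valid_psi (hE : Sep E) (hφ : Slow E φ) : Valid3 (Psi E φ) := by
  rintro ⟨s, i, j⟩
  by_cases h : ∃ w : Cell, (s - (w.2.2 : ℕ), i - (w.1 : ℕ), j - (w.2.1 : ℕ)) ∈ E
  · obtain ⟨⟨x, y, k⟩, hw⟩ := h
    simp only at hw
    have G := good_ev hE hφ hw
    have W := fun x' y' k' s' i' j' => @win E φ hE _ _ _ hw x' y' k' s' i' j'
    have no : ∀ t', s - (k : ℕ) - t' ≤ 2 → t' - (s - (k : ℕ)) ≤ 2 → t' ≠ s - (k : ℕ) →
        ∀ x' y' : Fin 2, (t', i - (x' : ℕ), j - (y' : ℕ)) ∉ E := by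
      intro t' g1 g2 g3 x' y' g
      have l1 := x.isLt
      have l2 := y.isLt
      have l3 := x'.isLt
      have l4 := y'.isLt
      have := hE _ _ _ _ _ _ hw g (by omega) (by omega) (by omega) (by omega) g1 g2
      omega
    have e0 := W x y k s i j (by simp) (by simp) (by simp)
    generalize T _ _ = TT at G W e0
    obtain ⟨-, -, G3, G4, G5, G6, G7, G8⟩ := G
    rcases hd : TT (x, y, k) with ⟨ax, sg⟩
    rw [hd] at e0
    rw [e0]
    fin_cases ax <;> cases sg <;> simp only [vec3, Prod.mk_add_mk] <;> simp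
    · fin_cases k
      · have c := cut (s := s - 1) (i := i) (j := j) hE hφ
          (no (s - 1) (by simp) (by simp <;> omega) (by simp <;> omega))
          (no (s - 1 - 1) (by simp <;> omega) (by simp <;> omega) (by simp <;> omega))
        rw [sub_add_cancel] at c
        exact c.2.2 (c.1.1 e0)
      · rw [W x y 0 _ _ _ (by simp; ring) (by simp) (by simp)]
        exact (G3 x y).2 hd
      · rw [W x y 1 _ _ _ (by simp; ring) (by simp) (by simp)]
        exact (G4 x y).2 hd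
    · fin_cases k
      · rw [W x y 1 _ _ _ (by simp) (by simp) (by simp)]
        exact (G3 x y).1 hd
      · rw [W x y 2 _ _ _ (by simp; ring) (by simp) (by simp)]
        exact (G4 x y).1 hd
      · have c := cut (s := s) (i := i) (j := j) hE hφ
          (no s (by simp <;> omega) (by simp) (by simp <;> omega))
          (no (s - 1) (by simp <;> omega) (by simp <;> omega) (by simp <;> omega))
        exact c.1.2 (c.2.1 e0)
    · fin_cases x
      · exact absurd hd (G7 y k).1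
      · rw [W 0 y k _ _ _ (by simp) (by simp; ring) (by simp)]
        exact (G5 y k).2 hd
    · fin_cases x
      · rw [W 1 y k _ _ _ (by simp) (by simp) (by simp)]
        exact (G5 y k).1 hd
      · exact absurd hd (G7 y k).2
    · fin_cases y
      · exact absurd hd (G8 x k).1
      · rw [W x 0 k _ _ _ (by simp) (by simp) (by simp; ring)]
        exact (G6 x k).2 hd
    · fin_cases y
      · rw [W x 1 k _ _ _ (by simp) (by simp) (by simp)]
        exact (G6 x k).1 hd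
      · exact absurd hd (G8 x k).2
  · have e0 : Psi E φ (s, i, j) = _ := free h
    have n0 : ∀ x y : Fin 2, (s, i - (x : ℕ), j - (y : ℕ)) ∉ E :=
      fun x y g => h ⟨(x, y, 0), by simpa using g⟩
    have n1 : ∀ x y : Fin 2, (s - 1, i - (x : ℕ), j - (y : ℕ)) ∉ E :=
      fun x y g => h ⟨(x, y, 1), by simpa using g⟩
    have n2 : ∀ x y : Fin 2, (s - 1 - 1, i - (x : ℕ), j - (y : ℕ)) ∉ E :=
      fun x y g => h ⟨(x, y, 2), by rw [show s - 1 - 1 = s - 2 by ring] at g; simpa using g⟩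
    cases hq : q φ s i j
    · rw [hq] at e0
      have c := cut hE hφ n0 n1
      rw [e0]
      simp only [vec3, Prod.mk_add_mk]
      simp
      exact c.1.2 (c.2.1 e0)
    · rw [hq] at e0
      have c := cut hE hφ n1 n2
      rw [sub_add_cancel] at c
      rw [e0]
      simp only [vec3, Prod.mk_add_mk]
      simp
      exact c.2.2 hq

end Pool.Agent.H17.Dom
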