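import Mathlib
import Pool.Agent.H17.Dom1

set_option autoImplicit false

namespace Pool.Agent.H17.Dom

def conf (u v : P3) : Prop :=
  (u.2.1 - v.2.1 ≤ 1 ∧ v.2.1 - u.2.1 ≤ 1 ∧ u.2.2 - v.2.2 ≤ 1 ∧ v.2.2 - u.2.2 ≤ 1 ∧
    u.1 - v.1 ≤ 2 ∧ v.1 - u.1 ≤ 2) ∨
  (u.2.1 = v.2.1 ∧ u.2.2 = v.2.2 ∧ u.1 - v.1 ≤ 49 ∧ v.1 - u.1 ≤ 49)

def Ind (E : Set P3) : Prop := ∀ u ∈ E, ∀ v ∈ E, conf u v → u = v

def MIS (E : Set P3) : Prop := Ind E ∧ ∀ u, ∃ v ∈ E, conf u v

lemma conf_refl (u : P3) : conf u u := Or.inr ⟨rfl, rfl, by omega, by omega⟩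

lemma conf_symm {u v : P3} (h : conf u v) : conf v u := by
  unfold conf at *; omega

lemma exists_mis (S : Set P3) (h : Ind S) : ∃ E, S ⊆ E ∧ MIS E := by
  obtain ⟨E, h1, h2⟩ := zorn_subset_nonempty {E | Ind E} (fun c hc hch _ => by
    refine ⟨⋃₀ c, ?_, fun s hs => Set.subset_sUnion_of_mem hs⟩
    rintro u ⟨s, hs, hu⟩ v ⟨t, ht, hv⟩ g
    rcases hch.total hs ht with e | e
    · exact hc ht u (e hu) v hv g
    · exact hc hs u hu v (e hv) g) S h
  refine ⟨E, h1, h2.prop, fun u => ?_⟩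
  by_contra hn
  push Not at hn
  have : Ind (insert u E) := by
    rintro a (rfl | ha) b (rfl | hb) g
    · rfl
    · exact absurd g (hn b hb)
    · exact absurd (conf_symm g) (hn a ha)
    · exact h2.prop a ha b hb g
  have := h2.le_of_ge this (Set.subset_insert u E) (Set.mem_insert u E)
  exact hn u this (conf_refl u)

lemma MIS.sep {E : Set P3} (h : MIS E) : Sep E := by
  intro t a b t' a' b' h1 h2 g1 g2 g3 g4 g5 g6
  have := h.1 _ h1 _ h2 (Or.inl ⟨g1, g2, g3, g4, g5, g6⟩)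
  simpa using this

lemma MIS.gap {E : Set P3} (h : MIS E) (s i j : ℤ) : ∃ t, s - 150 ≤ t ∧ t ≤ s - 3 ∧ (t, i, j) ∈ E := by
  by_contra hn
  push Not at hn
  choose f f1 f2 using fun m : ℤ => h.2 (m, i, j)
  have near : ∀ m ∈ Finset.Icc (s - 100) (s - 55), ((f m).1 - m, (f m).2.1 - i, (f m).2.2 - j) ∈
      Finset.Icc (-2 : ℤ) 2 ×ˢ Finset.Icc (-1 : ℤ) 1 ×ˢ Finset.Icc (-1 : ℤ) 1 := by
    intro m hm
    simp only [Finset.mem_Icc, Finset.mem_product] at hm ⊢
    rcases f2 m with g | g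
    · simp only at g; omega
    · simp only at g
      exfalso
      refine hn (f m).1 (by omega) (by omega) ?_
      rw [g.1, g.2.1]; exact f1 m
  obtain ⟨m, hm, m', hm', hne, e⟩ := Finset.exists_ne_map_eq_of_card_lt_of_maps_to
    (by simp; omega) near
  simp only [Prod.mk.injEq, Finset.mem_Icc] at e hm hm'
  have := h.1 _ (f1 m) _ (f1 m') (Or.inr ⟨by omega, by omega, by omega, by omega⟩)
  rw [this] at e
  omega

def IsLast (E : Set P3) (s i j t : ℤ) : Prop :=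
  t ≤ s - 3 ∧ (t, i, j) ∈ E ∧ ∀ t', t' ≤ s - 3 → (t', i, j) ∈ E → t' ≤ t

noncomputable def last (E : Set P3) (s i j : ℤ) : ℤ := Classical.epsilon (IsLast E s i j)

lemma MIS.last_spec {E : Set P3} (h : MIS E) (s i j : ℤ) : IsLast E s i j (last E s i j) := by
  apply Classical.epsilon_spec
  obtain ⟨t, -, h2, h3⟩ := h.gap s i j
  obtain ⟨m, m1, m2⟩ := Int.exists_greatest_of_bdd (P := fun t => t ≤ s - 3 ∧ (t, i, j) ∈ E)
    ⟨s - 3, fun z hz => hz.1⟩ ⟨t, h2, h3⟩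
  exact ⟨m, m1.1, m1.2, fun t' a b => m2 t' ⟨a, b⟩⟩

lemma MIS.last_eq {E : Set P3} (h : MIS E) {s i j t : ℤ} (g : IsLast E s i j t) : last E s i j = t := by
  have a := h.last_spec s i j
  exact le_antisymm (g.2.2 _ a.1 a.2.1) (a.2.2 _ g.1 g.2.1)

lemma MIS.last_ge {E : Set P3} (h : MIS E) (s i j : ℤ) : s - 150 ≤ last E s i j := by
  obtain ⟨t, h1, h2, h3⟩ := h.gap s i j
  exact h1.trans ((h.last_spec s i j).2.2 t h2 h3)

noncomputable def sample (E : Set P3) (φ : P3 → Bool) (u : P3) : Bool :=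
  φ (last E u.1 u.2.1 u.2.2, u.2.1, u.2.2)

lemma MIS.slow {E : Set P3} (h : MIS E) (φ : P3 → Bool) : Slow E (sample E φ) := by
  intro s i j hn
  have a := h.last_spec s i j
  have : last E (s + 1) i j = last E s i j := by
    refine h.last_eq ⟨by have := a.1; omega, a.2.1, fun t' g1 g2 => a.2.2 t' ?_ g2⟩
    have : t' ≠ s - 2 := fun e => hn (e ▸ g2)
    omega
  simp only [sample, this]

def X3 : Set (P3 → Dir) := {x | ∃ E φ, MIS E ∧ x = Psi E (sample E φ)}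

lemma X3_valid {x : P3 → Dir} (h : x ∈ X3) : Valid3 x := by
  obtain ⟨E, φ, hE, rfl⟩ := h
  exact valid_psi hE.sep (hE.slow φ)

lemma X3_ne : X3.Nonempty := by
  obtain ⟨E, -, hE⟩ := exists_mis ∅ (fun u hu => hu.elim)
  exact ⟨_, E, fun _ => true, hE, rfl⟩

lemma psi_congr {E E' : Set P3} {φ φ' : P3 → Bool} {s i j s' i' j' : ℤ}
    (h1 : ∀ a b c : ℤ, -2 ≤ a → a ≤ 0 → -1 ≤ b → b ≤ 0 → -1 ≤ c → c ≤ 0 →
      ((s + a, i + b, j + c) ∈ E ↔ (s' + a, i' + b, j' + c) ∈ E'))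
    (h2 : ∀ a b c : ℤ, -2 ≤ a → a ≤ 3 → -1 ≤ b → b ≤ 1 → -1 ≤ c → c ≤ 1 →
      q φ (s + a) (i + b) (j + c) = q φ' (s' + a) (i' + b) (j' + c)) :
    Psi E φ (s, i, j) = Psi E' φ' (s', i', j') := by
  unfold Psi
  congr 1
  · funext w
    have l1 := w.1.isLt
    have l2 := w.2.1.isLt
    have l3 := w.2.2.isLt
    exact propext (h1 (-(w.2.2 : ℕ)) (-(w.1 : ℕ)) (-(w.2.1 : ℕ)) (by omega) (by omega) (by omega)
      (by omega) (by omega) (by omega))
  · funext w x y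
    have l1 := w.1.isLt
    have l2 := w.2.1.isLt
    have l3 := w.2.2.isLt
    have l4 := x.isLt
    have l5 := y.isLt
    have := h2 (-(w.2.2 : ℕ)) (-(w.1 : ℕ) + (x : ℕ)) (-(w.2.1 : ℕ) + (y : ℕ)) (by omega) (by omega)
      (by omega) (by omega) (by omega) (by omega)
    simpa only [qb, sub_eq_add_neg, add_assoc] using this
  · funext w x y
    have l1 := w.1.isLt
    have l2 := w.2.1.isLt
    have l3 := w.2.2.isLt
    have l4 := x.isLt
    have l5 := y.isLt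
    have := h2 (-(w.2.2 : ℕ) + 3) (-(w.1 : ℕ) + (x : ℕ)) (-(w.2.1 : ℕ) + (y : ℕ)) (by omega) (by omega)
      (by omega) (by omega) (by omega) (by omega)
    simpa only [qb, sub_eq_add_neg, add_assoc] using this
  · simpa using h2 0 0 0 (by omega) (by omega) (by omega) (by omega) (by omega) (by omega)

lemma X3_shift {x : P3 → Dir} (h : x ∈ X3) (v : P3) : (fun u => x (v + u)) ∈ X3 := by
  obtain ⟨E, φ, hE, rfl⟩ := h
  obtain ⟨v0, v1, v2⟩ := v
  have hE' : MIS {u | (v0 + u.1, v1 + u.2.1, v2 + u.2.2) ∈ E} := by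
    constructor
    · intro a ha b hb g
      have := hE.1 _ ha _ hb (by unfold conf at *; simp only; omega)
      simp only [Prod.mk.injEq] at this
      exact Prod.ext (by omega) (Prod.ext (by omega) (by omega))
    · intro u
      obtain ⟨w, w1, w2⟩ := hE.2 (v0 + u.1, v1 + u.2.1, v2 + u.2.2)
      refine ⟨(w.1 - v0, w.2.1 - v1, w.2.2 - v2), by simpa using w1, ?_⟩
      unfold conf at *; simp only at *; omega
  refine ⟨_, fun u => xor (φ (v0 + u.1, v1 + u.2.1, v2 + u.2.2))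
    (xor (par v1 && par u.2.2) (par v0 && xor (par u.2.1) (par u.2.2))), hE', ?_⟩
  funext ⟨s, i, j⟩
  have L : ∀ s i j, v0 + last {u | (v0 + u.1, v1 + u.2.1, v2 + u.2.2) ∈ E} s i j
      = last E (v0 + s) (v1 + i) (v2 + j) := by
    intro s i j
    have a := hE'.last_spec s i j
    refine (hE.last_eq ⟨by have := a.1; omega, a.2.1, fun t' g1 g2 => ?_⟩).symm
    have := a.2.2 (t' - v0) (by omega) (by simpa using g2)
    omega
  apply psi_congr
  · intro a b c _ _ _ _ _ _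
    simp [add_assoc]
  · intro a b c _ _ _ _ _ _
    simp only [q, sample, L, par_pred]
    rw [add_assoc v0, add_assoc v1, add_assoc v2, par_add v1, par_add v0, Bool.xor_comm (par v1),
      Bool.xor_comm (par v0),
      qq_gauge _ _ _ _ (xor (par v1 && par (j + c)) (par v0 && xor (par (i + b)) (par (j + c))))]
    simp only [add_sub_assoc]
    congr 2 <;> cases par v0 <;> cases par v1 <;> cases par (i + b) <;> cases par (j + c) <;> rfl

def near (R : ℤ) (u v : P3) : Prop :=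
  u.1 - v.1 ≤ R ∧ v.1 - u.1 ≤ R ∧ u.2.1 - v.2.1 ≤ R ∧ v.2.1 - u.2.1 ≤ R ∧
    u.2.2 - v.2.2 ≤ R ∧ v.2.2 - u.2.2 ≤ R

lemma phi_local {E E' : Set P3} {φ φ' : P3 → Bool} (hE : MIS E) (hE' : MIS E') (u : P3)
    (h1 : ∀ v, near 200 u v → (v ∈ E ↔ v ∈ E')) (h2 : ∀ v, near 200 u v → φ v = φ' v) :
    Psi E (sample E φ) u = Psi E' (sample E' φ') u := by
  obtain ⟨s, i, j⟩ := u
  have S : ∀ a b c : ℤ, s - 10 ≤ a → a ≤ s + 10 → i - 10 ≤ b → b ≤ i + 10 → j - 10 ≤ c → c ≤ j + 10 →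
      sample E φ (a, b, c) = sample E' φ' (a, b, c) := by
    intro a b c _ _ _ _ _ _
    have p := hE.last_spec a b c
    have p' := hE.last_ge a b c
    have p1 := p.1
    have e : last E' a b c = last E a b c := by
      refine hE'.last_eq ⟨p.1, (h1 _ (by unfold near; simp only; omega)).1 p.2.1, fun t' g1 g2 => ?_⟩
      by_contra hlt
      exact hlt (p.2.2 t' g1 ((h1 _ (by unfold near; simp only; omega)).2 g2))
    simp only [sample, e]
    exact h2 _ (by unfold near; simp only; omega)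
  apply psi_congr
  · intro a b c _ _ _ _ _ _
    exact h1 _ (by unfold near; simp only; omega)
  · intro a b c _ _ _ _ _ _
    unfold q
    rw [S _ _ _ (by omega) (by omega) (by omega) (by omega) (by omega) (by omega),
      S _ (i + b - 1) (j + c) (by omega) (by omega) (by omega) (by omega) (by omega) (by omega),
      S _ (i + b - 1) (j + c - 1) (by omega) (by omega) (by omega) (by omega) (by omega) (by omega),
      S _ (i + b) (j + c - 1) (by omega) (by omega) (by omega) (by omega) (by omega) (by omega)]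

lemma mis_agree {E F : Set P3} (hE : MIS E) (hF : MIS F) (u : P3)
    (h : ∀ v, near 250 u v → v ∈ E → v ∈ F) : ∀ v, near 200 u v → (v ∈ F ↔ v ∈ E) := by
  intro v hv
  refine ⟨fun g => ?_, fun g => h v (by unfold near at *; omega) g⟩
  obtain ⟨w, w1, w2⟩ := hE.2 v
  have := hF.1 v g w (h w (by unfold near conf at *; omega) w1) w2
  rwa [this]

lemma X3_glue {x y : P3 → Dir} (hx : x ∈ X3) (hy : y ∈ X3) (A B : Set P3)
    (hAB : ∀ a ∈ A, ∀ b ∈ B, ¬ near 600 a b) :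
    ∃ z ∈ X3, (∀ a ∈ A, z a = x a) ∧ ∀ b ∈ B, z b = y b := by
  classical
  obtain ⟨E, φ, hE, rfl⟩ := hx
  obtain ⟨E', φ', hE', rfl⟩ := hy
  obtain ⟨F, hS, hF⟩ := exists_mis ({v | v ∈ E ∧ ∃ a ∈ A, near 250 a v} ∪
      {v | v ∈ E' ∧ ∃ b ∈ B, near 250 b v}) (by
    rintro u (⟨u1, a, ha, u2⟩ | ⟨u1, a, ha, u2⟩) v (⟨v1, b, hb, v2⟩ | ⟨v1, b, hb, v2⟩) g
    · exact hE.1 u u1 v v1 g
    · exact absurd (by unfold near conf at *; omega) (hAB a ha b hb)
    · exact absurd (by unfold near conf at *; omega) (hAB b hb a ha)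
    · exact hE'.1 u u1 v v1 g)
  refine ⟨_, ⟨F, fun v => if ∃ a ∈ A, near 200 a v then φ v else φ' v, hF, rfl⟩,
    fun a ha => ?_, fun b hb => ?_⟩
  · refine phi_local hF hE a (mis_agree hE hF a (fun v h1 h2 => hS (Or.inl ⟨h2, a, ha, h1⟩)))
      (fun v hv => if_pos ⟨a, ha, hv⟩)
  · refine phi_local hF hE' b (mis_agree hE' hF b (fun v h1 h2 => hS (Or.inr ⟨h2, b, hb, h1⟩)))
      (fun v hv => if_neg ?_)
    rintro ⟨a, ha, g⟩
    exact hAB a ha b hb (by unfold near at *; omega)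

end Pool.Agent.H17.Dom
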