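import Mathlib

namespace Pool.Agent.H17.Ex
open CategoryTheory Simplicial Opposite PartialOrder SSet

section Val
variable {P Q C : Type} [PartialOrder P] [PartialOrder Q] [PartialOrder C]

def val (y : nerve P ⟶ nerve C) (S : P) : C :=
  (y.app (op ⦋0⦌) (ComposableArrows.mk₀ S)).obj 0

lemma app_obj (y : nerve P ⟶ nerve C) {Δ : SimplexCategoryᵒᵖ} (σ : (nerve P).obj Δ)
    (j : Fin (Δ.unop.len + 1)) : (y.app Δ σ).obj j = val y (σ.obj j) := by
  have h := y.naturality_apply (SimplexCategory.const ⦋0⦌ Δ.unop j).op σ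
  have e : (nerve P).map (SimplexCategory.const ⦋0⦌ Δ.unop j).op σ
      = ComposableArrows.mk₀ (σ.obj j) := ComposableArrows.ext₀ rfl
  unfold val
  rw [← e]
  exact (congrArg (fun F : ComposableArrows C 0 => F.obj 0) h).symm

lemma val_mono (y : nerve P ⟶ nerve C) : Monotone (val y) := by
  intro a b hab
  have h0 := app_obj y (Δ := op ⦋1⦌) (ComposableArrows.mk₁ (homOfLE hab)) 0
  have h1 := app_obj y (Δ := op ⦋1⦌) (ComposableArrows.mk₁ (homOfLE hab)) 1
  have h2 := (y.app (op ⦋1⦌) (ComposableArrows.mk₁ (homOfLE hab))).monotone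
    (show (0 : Fin 2) ≤ 1 by decide)
  rw [h0, h1] at h2
  exact h2

lemma val_ext {y y' : nerve P ⟶ nerve C} (h : ∀ S, val y S = val y' S) : y = y' := by
  ext Δ σ j
  exact (app_obj y σ j).trans ((h _).trans (app_obj y' σ j).symm)

lemma val_comp (f : P →o Q) (y : nerve Q ⟶ nerve C) (S : P) :
    val (nerveMap f.monotone.functor ≫ y) S = val y (f S) := by
  have := app_obj y (Δ := op ⦋0⦌) ((nerveMap f.monotone.functor).app (op ⦋0⦌)
    (ComposableArrows.mk₀ S)) 0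
  exact this

lemma val_map (f : P →o C) (S : P) : val (nerveMap f.monotone.functor) S = f S := rfl

end Val

abbrev U (n : ℕ) : Type := ULift.{0} (Fin (n + 1))
abbrev Pn (n : ℕ) : Type := NonemptyFiniteChains (U n)

def um {a b : ℕ} (f : Fin (a + 1) →o Fin (b + 1)) : U a →o U b :=
  ⟨fun i => ⟨f i.down⟩, fun _ _ h => f.monotone h⟩

noncomputable def pm {a b : ℕ} (f : Fin (a + 1) →o Fin (b + 1)) : Pn a →o Pn b :=
  NonemptyFiniteChains.orderHomMap (um f)

lemma mem_pm {a b : ℕ} (f : Fin (a + 1) →o Fin (b + 1)) (S : Pn a) (y : Fin (b + 1)) :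
    ULift.up y ∈ (pm f S).finset ↔ ∃ x, ULift.up x ∈ S.finset ∧ f x = y := by
  simp only [pm, NonemptyFiniteChains.orderHomMap_coe, NonemptyFiniteChains.mem_map_iff]
  constructor
  · rintro ⟨x, hx, h⟩
    exact ⟨x.down, hx, congrArg ULift.down h⟩
  · rintro ⟨x, hx, h⟩
    exact ⟨⟨x⟩, hx, congrArg ULift.up h⟩

lemma Pn_ext {a : ℕ} {S T : Pn a} (h : ∀ y, ULift.up y ∈ S.finset ↔ ULift.up y ∈ T.finset) :
    S = T := by
  ext ⟨y⟩; exact h y

lemma sd_map {Δ Δ' : SimplexCategory} (f : Δ ⟶ Δ') :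
    SimplexCategory.sd.{0}.map f = nerveMap (pm f.toOrderHom).monotone.functor := rfl

variable {C : Type} [PartialOrder C]

noncomputable abbrev XX (C : Type) [PartialOrder C] : SSet.{0} := ex.obj (ex.obj (nerve C))

/-- evaluation of a simplex of `Ex Ex N C`. -/
noncomputable def ev {Δ : SimplexCategoryᵒᵖ} (x : (XX C).obj Δ) {m : ℕ}
    (τ : Fin (m + 1) →o Pn Δ.unop.len) (S : Pn m) : C :=
  val (P := Pn m) (NatTrans.app x.down (op ⦋m⦌) τ.monotone.functor).down S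

lemma ev_ext {Δ : SimplexCategoryᵒᵖ} {x x' : (XX C).obj Δ}
    (h : ∀ m (τ : Fin (m + 1) →o Pn Δ.unop.len) S, ev x τ S = ev x' τ S) : x = x' := by
  apply ULift.ext
  apply NatTrans.ext
  funext Δ'
  apply ConcreteCategory.hom_ext
  intro τ
  apply ULift.ext
  apply val_ext (P := Pn Δ'.unop.len)
  intro S
  let τ' : Fin (Δ'.unop.len + 1) →o Pn Δ.unop.len := ⟨τ.obj, Functor.monotone τ⟩
  have e : τ = τ'.monotone.functor := nerve.ext_of_isThin (C := Pn Δ.unop.len) rfl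
  rw [e]
  exact h _ τ' S

lemma ev_map {Δ Δ' : SimplexCategoryᵒᵖ} (f : Δ ⟶ Δ') (x : (XX C).obj Δ) {m : ℕ}
    (τ : Fin (m + 1) →o Pn Δ'.unop.len) (S : Pn m) :
    ev ((XX C).map f x) τ S = ev x ((pm f.unop.toOrderHom).comp τ) S := rfl

lemma ev_comp {Δ : SimplexCategoryᵒᵖ} (x : (XX C).obj Δ) {l m : ℕ}
    (τ : Fin (m + 1) →o Pn Δ.unop.len) (φ : Fin (l + 1) →o Fin (m + 1)) (R : Pn l) :
    ev x (τ.comp φ) R = ev x τ (pm φ R) := by
  have h := NatTrans.naturality_apply x.down (SimplexCategory.mkHom φ).op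
    τ.monotone.functor
  have h2 := congrArg (fun z => val (P := Pn l) (ULift.down z) R) h
  exact h2.trans (val_comp (pm φ) _ R)

lemma ev_mono {Δ : SimplexCategoryᵒᵖ} (x : (XX C).obj Δ) {m : ℕ}
    (τ : Fin (m + 1) →o Pn Δ.unop.len) : Monotone (ev x τ) := val_mono _

/-- the chain of faces picked by `τ` and `S`. -/
def img {A : Type} [Preorder A] {m : ℕ} (τ : Fin (m + 1) →o A) (S : Pn m) : Set A :=
  {T | ∃ s, ULift.up s ∈ S.finset ∧ τ s = T}

lemma img_comp {A : Type} [Preorder A] {l m : ℕ} (τ : Fin (m + 1) →o A)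
    (φ : Fin (l + 1) →o Fin (m + 1)) (R : Pn l) : img (τ.comp φ) R = img τ (pm φ R) := by
  ext T
  simp only [img, mem_pm, Set.mem_ofPred_eq, OrderHom.comp_coe, Function.comp]
  constructor
  · rintro ⟨s, hs, rfl⟩; exact ⟨φ s, ⟨s, hs, rfl⟩, rfl⟩
  · rintro ⟨_, ⟨s, hs, rfl⟩, rfl⟩; exact ⟨s, hs, rfl⟩

noncomputable def mkS {n : ℕ} (G : Set (Pn n) → C)
    (hG : ∀ m (τ : Fin (m + 1) →o Pn n), Monotone (fun S => G (img τ S))) :
    (XX C).obj (op ⦋n⦌) :=
  ULift.up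
    { app := fun Δ => TypeCat.ofHom (fun τ => ULift.up (nerveMap
        (hG Δ.unop.len ⟨τ.obj, Functor.monotone τ⟩).functor))
      naturality := by
        intro Δ Δ' f
        ext τ
        apply ULift.ext
        apply val_ext (P := Pn Δ'.unop.len)
        intro S
        exact congrArg G (img_comp ⟨τ.obj, Functor.monotone τ⟩ f.unop.toOrderHom S) }

lemma ev_mkS {n : ℕ} (G : Set (Pn n) → C)
    (hG : ∀ m (τ : Fin (m + 1) →o Pn n), Monotone (fun S => G (img τ S))) {m : ℕ}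
    (τ : Fin (m + 1) →o Pn n) (S : Pn m) : ev (mkS G hG) τ S = G (img τ S) := rfl

end Pool.Agent.H17.Ex
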