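import Pool.Agent.H17.Ex1

namespace Pool.Agent.H17.Ex
open CategoryTheory Simplicial Opposite PartialOrder SSet

lemma retr {m : ℕ} (S : Pn m) : ∃ ρ : Fin (m + 1) →o Fin (m + 1),
    (∀ a, ULift.up (ρ a) ∈ S.finset) ∧ ∀ a, ULift.up a ∈ S.finset → ρ a = a := by
  classical
  let W : Finset (Fin (m + 1)) := Finset.univ.filter (fun a => ULift.up a ∈ S.finset)
  have hW : W.Nonempty := by
    obtain ⟨⟨a⟩, ha⟩ := S.nonempty
    exact ⟨a, by simp [W, ha]⟩
  let F : Fin (m + 1) → Finset (Fin (m + 1)) := fun a => insert (W.min' hW) (W.filter (· ≤ a))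
  have hF : ∀ a, (F a).Nonempty := fun a => Finset.insert_nonempty _ _
  refine ⟨⟨fun a => (F a).max' (hF a), fun a b hab => ?_⟩, fun a => ?_, fun a ha => ?_⟩
  · apply Finset.max'_subset
    apply Finset.insert_subset_insert
    intro x hx
    rw [Finset.mem_filter] at hx ⊢
    exact ⟨hx.1, hx.2.trans hab⟩
  · have h := Finset.max'_mem _ (hF a)
    have : (F a).max' (hF a) ∈ W := by
      rcases Finset.mem_insert.1 h with h | h
      · rw [h]; exact Finset.min'_mem _ _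
      · exact (Finset.mem_filter.1 h).1
    exact (Finset.mem_filter.1 this).2
  · have haW : a ∈ W := by simp [W, ha]
    apply le_antisymm
    · refine Finset.max'_le _ (hF a) _ ?_
      intro y hy
      rcases Finset.mem_insert.1 hy with h | h
      · rw [h]; exact Finset.min'_le _ _ haW
      · exact (Finset.mem_filter.1 h).2
    · have : a ∈ F a := Finset.mem_insert_of_mem (Finset.mem_filter.2 ⟨haW, le_rfl⟩)
      exact Finset.le_max' _ _ this

lemma sec {A : Type} {m : ℕ} (g : Fin (m + 1) → A) (p : Fin (m + 1) → Prop) :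
    ∃ s : A → Fin (m + 1), ∀ t, p t → g (s (g t)) = g t ∧ p (s (g t)) := by
  classical
  refine ⟨fun y => if h : ∃ t, p t ∧ g t = y then h.choose else 0, fun t ht => ?_⟩
  have h : ∃ t', p t' ∧ g t' = g t := ⟨t, ht, rfl⟩
  simp only [dif_pos h]
  exact ⟨h.choose_spec.2, h.choose_spec.1⟩

lemma sec_mono {A : Type} [PartialOrder A] {l m : ℕ} (g : Fin (m + 1) →o A) (s : A → Fin (m + 1))
    (f : Fin (l + 1) →o A) (h : ∀ a, g (s (f a)) = f a) : Monotone (fun a => s (f a)) := by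
  intro a b hab
  by_contra hlt
  have h1 : s (f b) ≤ s (f a) := (not_le.1 hlt).le
  have h2 := g.monotone h1
  rw [h, h] at h2
  have : f a = f b := le_antisymm (f.monotone hab) h2
  exact hlt (by simp only [this]; exact le_rfl)

lemma pm_retr {m : ℕ} {S T : Pn m} {ρ : Fin (m + 1) →o Fin (m + 1)}
    (h : ∀ a, ULift.up a ∈ S.finset → ρ a = a) (hT : T ≤ S) : pm ρ T = T := by
  apply Pn_ext
  intro y
  rw [mem_pm]
  constructor
  · rintro ⟨x, hx, rfl⟩; rwa [h x (hT hx)]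
  · intro hy; exact ⟨y, hy, h y (hT hy)⟩

variable {C : Type} [PartialOrder C]

lemma ev_le {Δ : SimplexCategoryᵒᵖ} (x : (XX C).obj Δ) {m m' : ℕ}
    {τ : Fin (m + 1) →o Pn Δ.unop.len} {S : Pn m} {τ' : Fin (m' + 1) →o Pn Δ.unop.len}
    {S' : Pn m'} (h : img τ S ⊆ img τ' S') : ev x τ S ≤ ev x τ' S' := by
  obtain ⟨ρ, hρ, hρ'⟩ := retr S
  obtain ⟨s, hs⟩ := sec τ' (fun t => ULift.up t ∈ S'.finset)
  have key : ∀ a, τ' (s (τ (ρ a))) = τ (ρ a) ∧ ULift.up (s (τ (ρ a))) ∈ S'.finset := by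
    intro a
    obtain ⟨t, ht, e⟩ := h ⟨ρ a, hρ a, rfl⟩
    rw [← e]; exact hs t ht
  let ψ : Fin (m + 1) →o Fin (m' + 1) :=
    ⟨fun a => s ((τ.comp ρ) a), sec_mono τ' s (τ.comp ρ) (fun a => (key a).1)⟩
  have e1 : τ.comp ρ = τ'.comp ψ := by
    ext1; funext a; exact (key a).1.symm
  calc ev x τ S = ev x τ (pm ρ S) := by rw [pm_retr hρ' le_rfl]
    _ = ev x (τ'.comp ψ) S := by rw [← ev_comp, e1]
    _ = ev x τ' (pm ψ S) := ev_comp _ _ _ _
    _ ≤ ev x τ' S' := by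
      apply ev_mono
      rintro ⟨y⟩ hy
      obtain ⟨a, -, rfl⟩ := (mem_pm _ _ _).1 hy
      exact (key a).2

section Horn
variable {n : ℕ} {i : Fin (n + 2)}

def InH (i : Fin (n + 2)) {k : ℕ} (α : Fin (k + 1) →o Fin (n + 2)) : Prop :=
  ∃ j, j ≠ i ∧ ∀ t, α t ≠ j

lemma InH.comp {k l : ℕ} {α : Fin (k + 1) →o Fin (n + 2)} (h : InH i α)
    (φ : Fin (l + 1) →o Fin (k + 1)) : InH i (α.comp φ) := by
  obtain ⟨j, hj, h⟩ := h
  exact ⟨j, hj, fun t => h _⟩

def hs {k : ℕ} (α : Fin (k + 1) →o Fin (n + 2)) (h : InH i α) :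
    (Λ[n + 1, i] : SSet.{0}).obj (op ⦋k⦌) :=
  ⟨stdSimplex.objEquiv.symm (SimplexCategory.mkHom α), by
    obtain ⟨j, hj, h⟩ := h
    rw [mem_horn_iff_notMem_range]
    exact ⟨j, hj, fun ⟨t, ht⟩ => h t ht⟩⟩

noncomputable def gA (g : (Λ[n + 1, i] : SSet.{0}) ⟶ XX C) {k : ℕ}
    (α : Fin (k + 1) →o Fin (n + 2)) (h : InH i α) : (XX C).obj (op ⦋k⦌) :=
  g.app (op ⦋k⦌) (hs α h)

lemma ev_gA (g : (Λ[n + 1, i] : SSet.{0}) ⟶ XX C) {k l : ℕ}
    (α : Fin (k + 1) →o Fin (n + 2)) (h : InH i α) (φ : Fin (l + 1) →o Fin (k + 1)) {m : ℕ}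
    (τ : Fin (m + 1) →o Pn l) (S : Pn m) :
    ev (gA g (α.comp φ) (h.comp φ)) τ S = ev (gA g α h) ((pm φ).comp τ) S := by
  have h1 := NatTrans.naturality_apply g (SimplexCategory.mkHom φ).op (hs α h)
  have h2 : gA g (α.comp φ) (h.comp φ) = (XX C).map (SimplexCategory.mkHom φ).op (gA g α h) := h1
  rw [h2]; rfl

lemma gA_le (g : (Λ[n + 1, i] : SSet.{0}) ⟶ XX C) {k k' : ℕ}
    {α : Fin (k + 1) →o Fin (n + 2)} (h : InH i α) {α' : Fin (k' + 1) →o Fin (n + 2)}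
    (h' : InH i α') {m m' : ℕ} {τ : Fin (m + 1) →o Pn k} {S : Pn m}
    {τ' : Fin (m' + 1) →o Pn k'} {S' : Pn m'}
    (hsub : img ((pm α).comp τ) S ⊆ img ((pm α').comp τ') S') :
    ev (gA g α h) τ S ≤ ev (gA g α' h') τ' S' := by
  obtain ⟨s0, hs0, hmax⟩ := S.finset.exists_max_image id S.nonempty
  have hle : ∀ s, ULift.up s ∈ S.finset → τ s ≤ τ s0.down := fun s hs =>
    τ.monotone (hmax _ hs)
  obtain ⟨ρ, hρ, hρ'⟩ := retr (τ s0.down)
  obtain ⟨s', hs'⟩ := sec α' (fun _ => True)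
  have k1 : ∀ a, α' (s' ((α.comp ρ) a)) = (α.comp ρ) a := by
    intro a
    obtain ⟨t, -, e⟩ := hsub ⟨s0.down, hs0, rfl⟩
    have : ULift.up (α (ρ a)) ∈ (pm α' (τ' t)).finset := by
      have e' : pm α' (τ' t) = pm α (τ s0.down) := e
      rw [e', mem_pm]; exact ⟨_, hρ a, rfl⟩
    obtain ⟨b, -, hb⟩ := (mem_pm _ _ _).1 this
    have := (hs' b trivial).1
    rw [hb] at this; exact this
  let a' : Fin (k + 1) →o Fin (k' + 1) := ⟨_, sec_mono α' s' (α.comp ρ) k1⟩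
  let σ' : Fin (k' + 1) →o Fin (k' + 1) := ⟨_, sec_mono α' s' α' (fun b => (hs' b trivial).1)⟩
  have e1 : α.comp ρ = α'.comp a' := by ext1; funext a; exact (k1 a).symm
  have e2 : α' = α'.comp σ' := by ext1; funext b; exact (hs' b trivial).1.symm
  have i1 : img τ S = img ((pm ρ).comp τ) S := by
    ext T
    constructor
    · rintro ⟨s, hs, rfl⟩; exact ⟨s, hs, pm_retr hρ' (hle s hs)⟩
    · rintro ⟨s, hs, rfl⟩; exact ⟨s, hs, (pm_retr hρ' (hle s hs)).symm⟩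
  have c1 : ev (gA g α h) τ S = ev (gA g α' h') ((pm a').comp τ) S := by
    rw [← ev_gA g α' h' a']
    have : gA g (α'.comp a') (h'.comp a') = gA g (α.comp ρ) (h.comp ρ) := by simp only [e1]
    rw [this, ev_gA g α h ρ]
    exact le_antisymm (ev_le _ i1.le) (ev_le _ i1.ge)
  have c2 : ev (gA g α' h') τ' S' = ev (gA g α' h') ((pm σ').comp τ') S' := by
    rw [← ev_gA g α' h' σ']
    have : gA g (α'.comp σ') (h'.comp σ') = gA g α' h' := by simp only [← e2]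
    rw [this]
  rw [c1, c2]
  apply ev_le
  rintro _ ⟨s, hs, rfl⟩
  obtain ⟨t, ht, e⟩ := hsub ⟨s, hs, rfl⟩
  have e' : pm α' (τ' t) = pm α (τ s) := e
  refine ⟨t, ht, Pn_ext (fun y => ?_)⟩
  change ULift.up y ∈ (pm σ' (τ' t)).finset ↔ ULift.up y ∈ (pm a' (τ s)).finset
  rw [mem_pm, mem_pm]
  constructor
  · rintro ⟨b, hb, rfl⟩
    have : ULift.up (α' b) ∈ (pm α (τ s)).finset := by rw [← e', mem_pm]; exact ⟨b, hb, rfl⟩
    obtain ⟨a, ha, hab⟩ := (mem_pm _ _ _).1 this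
    refine ⟨a, ha, ?_⟩
    change s' (α (ρ a)) = s' (α' b)
    rw [hρ' a (hle s hs ha), hab]
  · rintro ⟨a, ha, rfl⟩
    have : ULift.up (α a) ∈ (pm α' (τ' t)).finset := by rw [e', mem_pm]; exact ⟨a, ha, rfl⟩
    obtain ⟨b, hb, hab⟩ := (mem_pm _ _ _).1 this
    refine ⟨b, hb, ?_⟩
    change s' (α' b) = s' (α (ρ a))
    rw [hρ' a (hle s hs ha), hab]

/-- faces lying in the horn. -/
def HA (i : Fin (n + 2)) : Set (Pn (n + 1)) := {T | ∃ j, j ≠ i ∧ ULift.up j ∉ T.finset}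

def Val (g : (Λ[n + 1, i] : SSet.{0}) ⟶ XX C) (d : Set (Pn (n + 1))) (v : C) : Prop :=
  ∃ (k : ℕ) (α : Fin (k + 1) →o Fin (n + 2)) (h : InH i α) (m : ℕ) (τ : Fin (m + 1) →o Pn k)
    (S : Pn m), img ((pm α).comp τ) S = d ∧ ev (gA g α h) τ S = v

lemma Val.le {g : (Λ[n + 1, i] : SSet.{0}) ⟶ XX C} {d d' : Set (Pn (n + 1))} {v v' : C}
    (h : Val g d v) (h' : Val g d' v') (hd : d ⊆ d') : v ≤ v' := by
  obtain ⟨k, α, h, m, τ, S, rfl, rfl⟩ := h
  obtain ⟨k', α', h', m', τ', S', rfl, rfl⟩ := h'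
  exact gA_le g h h' hd

lemma exists_val (g : (Λ[n + 1, i] : SSet.{0}) ⟶ XX C) {m : ℕ} (τ : Fin (m + 1) →o Pn (n + 1))
    (S : Pn m) (hne : (img τ S ∩ HA i).Nonempty) : ∃ v, Val g (img τ S ∩ HA i) v := by
  classical
  let W : Finset (U m) := S.finset.filter (fun s => τ s.down ∈ HA i)
  have hW : W.Nonempty := by
    obtain ⟨_, ⟨s, hs, rfl⟩, h⟩ := hne
    exact ⟨⟨s⟩, Finset.mem_filter.2 ⟨hs, h⟩⟩
  let S0 : Pn m := ⟨W, hW, fun a b => le_total _ _⟩
  obtain ⟨s0, hs0, hmax⟩ := W.exists_max_image id hW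
  obtain ⟨j, hj, hjT⟩ := (Finset.mem_filter.1 hs0).2
  obtain ⟨π, hπ⟩ : ∃ π : Fin (n + 2) →o Fin (n + 1), ∀ y, y ≠ j → j.succAbove (π y) = y := by
    rcases Fin.eq_castSucc_or_eq_last j with ⟨p, rfl⟩ | rfl
    · exact ⟨Fin.predAboveOrderHom p, fun y hy => Fin.succAbove_predAbove hy⟩
    · exact ⟨Fin.predAboveOrderHom (Fin.last n), fun y hy => by
        have := Fin.succ_succAbove_predAbove (p := Fin.last n) (i := y) (by simpa using hy)
        simpa using this⟩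
  let α : Fin (n + 1) →o Fin (n + 2) := (Fin.succAboveOrderEmb j).toOrderHom
  have hα : InH i α := ⟨j, hj, fun t => Fin.succAbove_ne j t⟩
  have key : ∀ s, ULift.up s ∈ W → pm α (pm π (τ s)) = τ s := by
    intro s hs
    have hjs : ∀ y, ULift.up y ∈ (τ s).finset → y ≠ j := by
      rintro y hy rfl
      exact hjT (τ.monotone (hmax _ hs) hy)
    apply Pn_ext
    intro y
    simp only [mem_pm]
    constructor
    · rintro ⟨_, ⟨x, hx, rfl⟩, rfl⟩
      have : α (π x) = x := hπ x (hjs x hx)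
      rwa [this]
    · intro hy; exact ⟨_, ⟨y, hy, rfl⟩, hπ y (hjs y hy)⟩
  refine ⟨_, n, α, hα, m, (pm π).comp τ, S0, ?_, rfl⟩
  ext T
  constructor
  · rintro ⟨s, hs, rfl⟩
    have e : ((pm α).comp ((pm π).comp τ)) s = τ s := key s hs
    rw [e]
    exact ⟨⟨s, (Finset.mem_filter.1 hs).1, rfl⟩, (Finset.mem_filter.1 hs).2⟩
  · rintro ⟨⟨s, hs, rfl⟩, h⟩
    have hs' : ULift.up s ∈ W := Finset.mem_filter.2 ⟨hs, h⟩
    exact ⟨s, hs', key s hs'⟩

end Horn

theorem kan (ρ : C →o C) (hρ : ∀ c, c ≤ ρ c) (z : C) (hz : ∀ c, z ≤ ρ c) : KanComplex (XX C) := by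
  classical
  rw [KanComplex.iff]
  intro n i f hf
  let g := hf.desc
  let F : Set (Pn (n + 1)) → C := fun d => if h : ∃ v, Val g d v then h.choose else z
  have hF : ∀ d v, Val g d v → F d = v := by
    intro d v hv
    have h : ∃ v, Val g d v := ⟨v, hv⟩
    simp only [F, dif_pos h]
    exact le_antisymm (h.choose_spec.le hv le_rfl) (hv.le h.choose_spec le_rfl)
  let G : Set (Pn (n + 1)) → C := fun d =>
    if d ⊆ HA i then F (d ∩ HA i) else if (d ∩ HA i).Nonempty then ρ (F (d ∩ HA i)) else z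
  have hG : ∀ m (τ : Fin (m + 1) →o Pn (n + 1)), Monotone (fun S => G (img τ S)) := by
    intro m τ S S' hSS
    have hsub : img τ S ⊆ img τ S' := by rintro _ ⟨s, hs, rfl⟩; exact ⟨s, hSS hs, rfl⟩
    have hne : (img τ S).Nonempty := by
      obtain ⟨s, hs⟩ := S.nonempty
      exact ⟨_, s.down, hs, rfl⟩
    have hFle : (img τ S ∩ HA i).Nonempty → F (img τ S ∩ HA i) ≤ F (img τ S' ∩ HA i) := by
      intro h
      obtain ⟨v, hv⟩ := exists_val g τ S h
      obtain ⟨v', hv'⟩ := exists_val g τ S' (h.mono (Set.inter_subset_inter_left _ hsub))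
      rw [hF _ _ hv, hF _ _ hv']
      exact hv.le hv' (Set.inter_subset_inter_left _ hsub)
    simp only [G]
    by_cases h1 : img τ S ⊆ HA i
    · have h2 : (img τ S ∩ HA i).Nonempty := by rwa [Set.inter_eq_left.2 h1]
      rw [if_pos h1]
      split_ifs with h3 h4
      · exact hFle h2
      · exact (hFle h2).trans (hρ _)
      · exact absurd (h2.mono (Set.inter_subset_inter_left _ hsub)) h4
    · have h3 : ¬ img τ S' ⊆ HA i := fun h => h1 (hsub.trans h)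
      rw [if_neg h1, if_neg h3]
      split_ifs with h2 h4 h4
      · exact ρ.monotone (hFle h2)
      · exact absurd (h2.mono (Set.inter_subset_inter_left _ hsub)) h4
      · exact hz _
      · exact le_rfl
  refine ⟨yonedaEquiv.symm (mkS G hG), fun j hj => ?_⟩
  rw [← hf.ι_desc j hj]
  apply yonedaEquiv.injective
  let α : Fin (n + 1) →o Fin (n + 2) := (Fin.succAboveOrderEmb j).toOrderHom
  have hα : InH i α := ⟨j, hj, fun t => Fin.succAbove_ne j t⟩
  have e1 : yonedaEquiv (stdSimplex.δ j ≫ yonedaEquiv.symm (mkS G hG))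
      = (XX C).map (SimplexCategory.mkHom α).op (mkS G hG) := rfl
  have e2 : yonedaEquiv (horn.ι i j hj ≫ hf.desc) = gA g α hα := rfl
  rw [e1, e2]
  apply ev_ext
  intro m τ S
  rw [ev_map, ev_mkS]
  have hsub : img ((pm α).comp τ) S ⊆ HA i := by
    rintro _ ⟨s, -, rfl⟩
    refine ⟨j, hj, fun h => ?_⟩
    obtain ⟨t, -, ht⟩ := (mem_pm α _ _).1 h
    exact Fin.succAbove_ne j t ht
  change G (img ((pm α).comp τ) S) = _
  simp only [G]
  rw [if_pos hsub, Set.inter_eq_left.2 hsub]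
  exact hF _ _ ⟨n, α, hα, m, τ, S, rfl, rfl⟩

end Pool.Agent.H17.Ex
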