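import Pool.Agent.H17.Ex2

namespace Pool.Agent.H17.Ex
open CategoryTheory Simplicial Opposite PartialOrder SSet

/-- the five-element fence `0 < 1 > 2 < 3 > 4`. -/
def Fence : Type := Fin 5

instance : DecidableEq Fence := inferInstanceAs (DecidableEq (Fin 5))
instance : Fintype Fence := inferInstanceAs (Fintype (Fin 5))

/-- the element of the fence with a given number. -/
def fe (a : Fin 5) : Fence := a

/-- `a ≤ b` iff `a = b` or `(a, b)` is one of `(0,1)`, `(2,1)`, `(2,3)`, `(4,3)`. -/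
def fle (a b : Fence) : Prop :=
  a = b ∨ (a = fe 0 ∧ b = fe 1) ∨ (a = fe 2 ∧ b = fe 1) ∨ (a = fe 2 ∧ b = fe 3) ∨
    (a = fe 4 ∧ b = fe 3)

instance : DecidableRel fle := fun a b => by unfold fle; infer_instance

instance : PartialOrder Fence where
  le := fle
  le_refl := by decide
  le_trans := by decide
  le_antisymm := by decide

instance : DecidableLE Fence := fun a b => inferInstanceAs (Decidable (fle a b))

def refl : Fence →o Fence :=
  ⟨fun a => if a = fe 0 then fe 1 else if a = fe 4 then fe 3 else a, by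
    intro a b; revert a b; decide⟩

theorem kan_fence : KanComplex (XX Fence) :=
  kan refl (by decide) (fe 2) (by decide)

def full (m : ℕ) : Pn m := ⟨Finset.univ, by simp, fun a b => le_total _ _⟩

def sing {m : ℕ} (a : Fin (m + 1)) : Pn m := ⟨{ULift.up a}, by simp, fun a b => le_total _ _⟩

section Edge
variable {D : Type} [PartialOrder D]

open Classical in
noncomputable def eG (p q r : D) (d : Set (Pn 1)) : D :=
  if ∃ T ∈ d, ULift.up 1 ∉ T.finset then p else if ∃ T ∈ d, ULift.up 0 ∉ T.finset then r else q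

lemma eG_mono {p q r : D} (hp : q ≤ p) (hr : q ≤ r) (m : ℕ) (τ : Fin (m + 1) →o Pn 1) :
    Monotone (fun S => eG p q r (img τ S)) := by
  intro S S' hSS
  have hsub : img τ S ⊆ img τ S' := by rintro _ ⟨s, hs, rfl⟩; exact ⟨s, hSS hs, rfl⟩
  simp only [eG]
  by_cases h1 : ∃ T ∈ img τ S, ULift.up 1 ∉ T.finset
  · obtain ⟨T, hT, h⟩ := h1
    rw [if_pos ⟨T, hT, h⟩, if_pos ⟨T, hsub hT, h⟩]
  · rw [if_neg h1]
    by_cases h2 : ∃ T ∈ img τ S, ULift.up 0 ∉ T.finset
    · obtain ⟨T, hT, h⟩ := h2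
      have h3 : ¬ ∃ T ∈ img τ S', ULift.up 1 ∉ T.finset := by
        rintro ⟨_, ⟨s', -, rfl⟩, h'⟩
        obtain ⟨s, -, rfl⟩ := hT
        rcases le_total s s' with hs | hs
        · obtain ⟨⟨y⟩, hy⟩ := (τ s).nonempty
          fin_cases y
          · exact h hy
          · exact h' (τ.monotone hs hy)
        · obtain ⟨⟨y⟩, hy⟩ := (τ s').nonempty
          fin_cases y
          · exact h (τ.monotone hs hy)
          · exact h' hy
      rw [if_pos ⟨T, hT, h⟩, if_neg h3, if_pos ⟨T, hsub hT, h⟩]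
    · rw [if_neg h2]
      split_ifs
      · exact hp
      · exact hr
      · exact le_rfl

noncomputable def edge {p q r : D} (hp : q ≤ p) (hr : q ≤ r) : (XX D).obj (op ⦋1⦌) :=
  mkS (eG p q r) (eG_mono hp hr)

lemma ev_edge0 {p q r : D} (hp : q ≤ p) (hr : q ≤ r) {m : ℕ} (τ : Fin (m + 1) →o Pn 1)
    (S : Pn m) (h : ∀ s, ULift.up 1 ∉ (τ s).finset) : ev (edge hp hr) τ S = p := by
  obtain ⟨s, hs⟩ := S.nonempty
  rw [edge, ev_mkS, eG, if_pos ⟨_, ⟨s.down, hs, rfl⟩, h _⟩]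

lemma ev_edge1 {p q r : D} (hp : q ≤ p) (hr : q ≤ r) {m : ℕ} (τ : Fin (m + 1) →o Pn 1)
    (S : Pn m) (h : ∀ s, ULift.up 0 ∉ (τ s).finset) : ev (edge hp hr) τ S = r := by
  obtain ⟨s, hs⟩ := S.nonempty
  rw [edge, ev_mkS, eG, if_neg, if_pos ⟨_, ⟨s.down, hs, rfl⟩, h _⟩]
  rintro ⟨_, ⟨t, -, rfl⟩, h'⟩
  obtain ⟨⟨y⟩, hy⟩ := (τ t).nonempty
  fin_cases y
  · exact h t hy
  · exact h' hy

lemma yon {X : SSet.{0}} {n : ℕ} (j : Fin (n + 2)) (φ : Δ[n + 1] ⟶ X) :
    SSet.yonedaEquiv (stdSimplex.δ j ≫ φ) = X.map (SimplexCategory.δ j).op (SSet.yonedaEquiv φ) := by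
  obtain ⟨z, rfl⟩ := SSet.yonedaEquiv.symm.surjective φ
  rw [Equiv.apply_symm_apply]; rfl

lemma not_mem_δ {n : ℕ} (j : Fin (n + 2)) (T : Pn n) :
    ULift.up j ∉ (pm (SimplexCategory.δ j).toOrderHom T).finset := by
  intro h
  obtain ⟨t, -, ht⟩ := (mem_pm _ _ _).1 h
  exact Fin.succAbove_ne j t ht

/-- if the horn with two zigzag edges has a filler, the end points are joined by a short zigzag. -/
lemma zigzag {p q r q' r' : D} (hp : q ≤ p) (hr : q ≤ r) (hp' : q' ≤ r) (hr' : q' ≤ r')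
    (hfill : ∀ (f : ∀ (j : Fin 3) (_ : j ≠ 1), Δ[1] ⟶ XX D), horn.IsCompatible (n := 1) f →
      ∃ φ : Δ[2] ⟶ XX D, ∀ j hj, stdSimplex.δ j ≫ φ = f j hj) :
    ∃ a b c, p ≤ a ∧ b ≤ a ∧ b ≤ c ∧ r' ≤ c := by
  let f : ∀ (j : Fin 3) (_ : j ≠ 1), Δ[1] ⟶ XX D := fun j _ =>
    if j = 0 then SSet.yonedaEquiv.symm (edge hp' hr') else SSet.yonedaEquiv.symm (edge hp hr)
  have hf : horn.IsCompatible (n := 1) f := by
    rw [horn.isCompatible_iff]
    intro j k hj hk hjk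
    have h02 : ∀ j k : Fin 3, j ≠ 1 → k ≠ 1 → j < k → j = 0 ∧ k = 2 := by decide
    obtain ⟨rfl, rfl⟩ := h02 j k hj hk hjk
    apply SSet.yonedaEquiv.injective
    rw [yon, yon]
    have e0 : f 0 hj = SSet.yonedaEquiv.symm (edge hp' hr') := if_pos rfl
    have e2 : f 2 hk = SSet.yonedaEquiv.symm (edge hp hr) := if_neg (by decide)
    rw [e0, e2, Equiv.apply_symm_apply, Equiv.apply_symm_apply]
    apply ev_ext
    intro m τ S
    rw [ev_map, ev_map, ev_edge0, ev_edge1]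
    · intro s; exact not_mem_δ (n := 0) 0 _
    · intro s; exact not_mem_δ (n := 0) 1 _
  obtain ⟨φ, hφ⟩ := hfill f hf
  have h0 := congrArg SSet.yonedaEquiv (hφ 0 (by decide))
  have h2 := congrArg SSet.yonedaEquiv (hφ 2 (by decide))
  have e0 : f 0 (by decide) = SSet.yonedaEquiv.symm (edge hp' hr') := if_pos rfl
  have e2 : f 2 (by decide) = SSet.yonedaEquiv.symm (edge hp hr) := if_neg (by decide)
  rw [yon, e0, Equiv.apply_symm_apply] at h0
  rw [yon, e2, Equiv.apply_symm_apply] at h2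
  set z := SSet.yonedaEquiv φ
  have v0 := ev_edge0 hp hr (OrderHom.const (Fin 1) (sing 0)) (full 0) (by simp [sing])
  have v2 := ev_edge1 hp' hr' (OrderHom.const (Fin 1) (sing 1)) (full 0) (by simp [sing])
  rw [← h2, ev_map] at v0
  rw [← h0, ev_map] at v2
  let two : Pn 2 → (Fin 2 →o Pn 2) := fun A => ⟨![A, full 2], by
    intro a b hab
    fin_cases a <;> fin_cases b
    · exact le_rfl
    · exact Finset.subset_univ _
    · exact absurd hab (by decide)
    · exact le_rfl⟩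
  have k1 : ∀ (A : Pn 2) (τ : Fin 1 →o Pn 2), (∀ s, τ s = A) →
      ev z τ (full 0) ≤ ev z (two A) (full 1) := by
    intro A τ h
    apply ev_le
    rintro _ ⟨s, -, rfl⟩
    exact ⟨0, Finset.mem_univ _, (h s).symm⟩
  have k2 : ∀ (A : Pn 2), ev z (OrderHom.const (Fin 1) (full 2)) (full 0)
      ≤ ev z (two A) (full 1) := by
    intro A
    apply ev_le
    rintro _ ⟨s, -, rfl⟩
    exact ⟨1, Finset.mem_univ _, rfl⟩
  have a0 := k1 (pm (SimplexCategory.δ (2 : Fin 3)).toOrderHom (sing 0))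
    ((pm (SimplexCategory.δ (2 : Fin 3)).toOrderHom).comp (OrderHom.const (Fin 1) (sing 0)))
    (fun _ => rfl)
  have a2 := k1 (pm (SimplexCategory.δ (0 : Fin 3)).toOrderHom (sing 1))
    ((pm (SimplexCategory.δ (0 : Fin 3)).toOrderHom).comp (OrderHom.const (Fin 1) (sing 1)))
    (fun _ => rfl)
  exact ⟨_, _, _, v0.ge.trans a0, k2 _, k2 _, v2.ge.trans a2⟩

end Edge

def toOp : Fenceᵒᵈ ⥤ Fenceᵒᵖ := (orderDualEquivalence Fence).functor
def ofOp : Fenceᵒᵖ ⥤ Fenceᵒᵈ := (orderDualEquivalence Fence).inverse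

lemma toOp_ofOp : nerveMap toOp ≫ nerveMap ofOp = 𝟙 _ := val_ext (fun _ => rfl)

theorem not_kan_op : ¬ KanComplex (ex.obj (ex.obj (nerve Fenceᵒᵖ))) := by
  intro h
  let u : XX Fenceᵒᵈ ⟶ ex.obj (ex.obj (nerve Fenceᵒᵖ)) := ex.map (ex.map (nerveMap toOp))
  let v : ex.obj (ex.obj (nerve Fenceᵒᵖ)) ⟶ XX Fenceᵒᵈ := ex.map (ex.map (nerveMap ofOp))
  have huv : u ≫ v = 𝟙 _ := by
    simp only [u, v]
    rw [← Functor.map_comp, ← Functor.map_comp, toOp_ofOp, CategoryTheory.Functor.map_id,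
      CategoryTheory.Functor.map_id]
  have := zigzag (D := Fenceᵒᵈ) (p := OrderDual.toDual (fe 0)) (q := OrderDual.toDual (fe 1))
    (r := OrderDual.toDual (fe 2)) (q' := OrderDual.toDual (fe 3)) (r' := OrderDual.toDual (fe 4))
    (by decide) (by decide) (by decide) (by decide) (by
      intro f hf
      obtain ⟨σ, hσ⟩ := KanComplex.hornFilling (hf.desc ≫ u)
      refine ⟨σ ≫ v, fun j hj => ?_⟩
      rw [← hf.ι_desc j hj, ← horn.ι_ι 1 j hj, Category.assoc, ← Category.assoc _ σ, ← hσ,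
        Category.assoc, huv, Category.comp_id])
  obtain ⟨a, b, c, h1, h2, h3, h4⟩ := this
  have key : ∀ a b c : Fence, a ≤ fe 0 → a ≤ b → c ≤ b → c ≤ fe 4 → False := by decide
  exact key _ _ _ h1 h2 h3 h4

end Pool.Agent.H17.Ex
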