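import Pool.Agent.H17.Ex1

namespace Pool.Agent.H17.Ex
open CategoryTheory PartialOrder

/-- iterated poset of nonempty finite chains. -/
def T : ℕ → PartOrd.{0} → PartOrd.{0}
  | 0, P => P
  | k + 1, P => PartOrd.of (NonemptyFiniteChains (T k P))

noncomputable def Tm {P Q : PartOrd.{0}} (f : P →o Q) : ∀ k, T k P →o T k Q
  | 0 => f
  | k + 1 => NonemptyFiniteChains.orderHomMap (Tm f k)

def fs {P : PartOrd.{0}} {k : ℕ} (c : T (k + 1) P) : Finset (T k P) :=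
  NonemptyFiniteChains.finset c

lemma fs_ext {P : PartOrd.{0}} {k : ℕ} {c d : T (k + 1) P} (h : ∀ x, x ∈ fs c ↔ x ∈ fs d) :
    c = d := NonemptyFiniteChains.ext (Finset.ext h)

lemma fs_le {P : PartOrd.{0}} {k : ℕ} {c d : T (k + 1) P} : c ≤ d ↔ ∀ x ∈ fs c, x ∈ fs d :=
  Iff.rfl

lemma fs_ne {P : PartOrd.{0}} {k : ℕ} (c : T (k + 1) P) : (fs c).Nonempty :=
  NonemptyFiniteChains.nonempty c

lemma fs_cmp {P : PartOrd.{0}} {k : ℕ} (c : T (k + 1) P) {a b : T k P} (ha : a ∈ fs c)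
    (hb : b ∈ fs c) : a ≤ b ∨ b ≤ a :=
  NonemptyFiniteChains.comparable c ⟨a, ha⟩ ⟨b, hb⟩

lemma mem_Tm {P Q : PartOrd.{0}} (f : P →o Q) {k : ℕ} (c : T (k + 1) P) (y : T k Q) :
    y ∈ fs (Tm f (k + 1) c) ↔ ∃ x, x ∈ fs c ∧ Tm f k x = y :=
  NonemptyFiniteChains.mem_map_iff c (Tm f k) y

def mkC {P : PartOrd.{0}} {k : ℕ} (s : Finset (T k P)) (h : s.Nonempty)
    (hc : ∀ a ∈ s, ∀ b ∈ s, a ≤ b ∨ b ≤ a) : T (k + 1) P :=
  (⟨s, h, fun a b => hc a.1 a.2 b.1 b.2⟩ : NonemptyFiniteChains (T k P))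

@[simp] lemma fs_mkC {P : PartOrd.{0}} {k : ℕ} (s : Finset (T k P)) (h : s.Nonempty)
    (hc : ∀ a ∈ s, ∀ b ∈ s, a ≤ b ∨ b ≤ a) : fs (mkC s h hc) = s := rfl

lemma fs_max {P : PartOrd.{0}} {k : ℕ} (s : Finset (T k P)) (h : s.Nonempty)
    (hc : ∀ a ∈ s, ∀ b ∈ s, a ≤ b ∨ b ≤ a) : ∃ a ∈ s, ∀ b ∈ s, b ≤ a := by
  obtain ⟨a, ha⟩ := s.exists_maximal h
  refine ⟨a, ha.1, fun b hb => ?_⟩
  rcases hc a ha.1 b hb with h | h
  · exact ha.2 hb h
  · exact h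

lemma Tm_comp {P Q R : PartOrd.{0}} (f : P →o Q) (g : Q →o R) :
    ∀ k (x : T k P), Tm (g.comp f) k x = Tm g k (Tm f k x)
  | 0, _ => rfl
  | k + 1, x => fs_ext (fun y => by
      simp only [mem_Tm, Tm_comp f g k]
      constructor
      · rintro ⟨a, ha, rfl⟩; exact ⟨_, ⟨a, ha, rfl⟩, rfl⟩
      · rintro ⟨_, ⟨a, ha, rfl⟩, rfl⟩; exact ⟨a, ha, rfl⟩)

def supp {P : PartOrd.{0}} : ∀ k, T k P → Set P
  | 0, x => {x}
  | k + 1, c => {p | ∃ x ∈ fs c, p ∈ supp k x}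

lemma supp_Tm {P Q : PartOrd.{0}} (f : P →o Q) :
    ∀ k (x : T k P), supp k (Tm f k x) = f '' supp k x
  | 0, x => (Set.image_singleton (f := f) (a := x)).symm
  | k + 1, c => by
    ext q
    simp only [supp, mem_Tm, Set.mem_ofPred_eq, Set.mem_image]
    constructor
    · rintro ⟨_, ⟨x, hx, rfl⟩, hq⟩
      rw [supp_Tm f k] at hq
      obtain ⟨p, hp, rfl⟩ := hq
      exact ⟨p, ⟨x, hx, hp⟩, rfl⟩
    · rintro ⟨p, ⟨x, hx, hp⟩, rfl⟩
      exact ⟨_, ⟨x, hx, rfl⟩, by rw [supp_Tm f k]; exact ⟨p, hp, rfl⟩⟩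

lemma Tm_fix {P : PartOrd.{0}} (f : P →o P) :
    ∀ k (x : T k P), (∀ p ∈ supp k x, f p = p) → Tm f k x = x
  | 0, x, h => h x rfl
  | k + 1, c, h => fs_ext (fun y => by
      rw [mem_Tm]
      constructor
      · rintro ⟨x, hx, rfl⟩
        rwa [Tm_fix f k x (fun p hp => h p ⟨x, hx, hp⟩)]
      · intro hy
        exact ⟨y, hy, Tm_fix f k y (fun p hp => h p ⟨y, hy, hp⟩)⟩)

lemma supp_ne {P : PartOrd.{0}} : ∀ k (x : T k P), (supp k x).Nonempty
  | 0, x => ⟨x, rfl⟩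
  | k + 1, c => by
    obtain ⟨x, hx⟩ := fs_ne c
    obtain ⟨p, hp⟩ := supp_ne k x
    exact ⟨p, x, hx, hp⟩

lemma supp_fin {P : PartOrd.{0}} : ∀ k (x : T k P), (supp k x).Finite
  | 0, x => Set.finite_singleton x
  | k + 1, c => by
    refine ((fs c).finite_toSet.biUnion (fun x _ => supp_fin k x)).subset ?_
    rintro p ⟨x, hx, hp⟩
    exact Set.mem_biUnion hx hp

lemma supp_mono {P : PartOrd.{0}} {k : ℕ} {c d : T (k + 1) P} (h : c ≤ d) :
    supp (k + 1) c ⊆ supp (k + 1) d := fun _ ⟨x, hx, hp⟩ => ⟨x, h hx, hp⟩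

lemma supp_cmp {P : PartOrd.{0}} : ∀ k (x y : T k P), x ≤ y →
    ∀ p ∈ supp k x ∪ supp k y, ∀ q ∈ supp k x ∪ supp k y, p ≤ q ∨ q ≤ p
  | 0, x, y, h => by
    rintro p (rfl | rfl) q (rfl | rfl)
    · exact Or.inl le_rfl
    · exact Or.inl h
    · exact Or.inr h
    · exact Or.inl le_rfl
  | k + 1, c, d, h => by
    rw [Set.union_eq_right.2 (supp_mono h)]
    rintro p ⟨x, hx, hp⟩ q ⟨y, hy, hq⟩
    rcases fs_cmp d hx hy with h' | h'
    · exact supp_cmp k x y h' p (Or.inl hp) q (Or.inr hq)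
    · exact supp_cmp k y x h' p (Or.inr hp) q (Or.inl hq)

def pt {P : PartOrd.{0}} (a : P) : ∀ k, T k P
  | 0 => a
  | k + 1 => mkC {pt a k} (by simp) (by simp)

lemma mem_pt {P : PartOrd.{0}} (a : P) (k : ℕ) (x : T k P) : x ∈ fs (pt a (k + 1)) ↔ x = pt a k := by
  simp [pt]

lemma Tm_pt {P Q : PartOrd.{0}} (f : P →o Q) (a : P) : ∀ k, Tm f k (pt a k) = pt (f a) k
  | 0 => rfl
  | k + 1 => fs_ext (fun y => by
      simp only [mem_Tm, mem_pt, exists_eq_left, Tm_pt f a k]; exact eq_comm)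

lemma eq_pt {P : PartOrd.{0}} (a : P) : ∀ k (x : T k P), (∀ p ∈ supp k x, p = a) → x = pt a k
  | 0, x, h => h x rfl
  | k + 1, c, h => fs_ext (fun y => by
      rw [mem_pt]
      constructor
      · intro hy; exact eq_pt a k y (fun p hp => h p ⟨y, hy, hp⟩)
      · rintro rfl
        obtain ⟨x, hx⟩ := fs_ne c
        rwa [← eq_pt a k x (fun p hp => h p ⟨x, hx, hp⟩)])

abbrev cP (P : PartOrd.{0}) : PartOrd.{0} := PartOrd.of (NonemptyFiniteChains P)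

/-- the comparison of the two ways of iterating. -/
lemma theta (k : ℕ) : ∃ (θ : ∀ P : PartOrd.{0}, T k (cP P) →o T (k + 1) P)
    (θ' : ∀ P : PartOrd.{0}, T (k + 1) P →o T k (cP P)),
    (∀ P x, θ P (θ' P x) = x) ∧ (∀ P x, θ' P (θ P x) = x) ∧
    ∀ (P Q : PartOrd.{0}) (f : P →o Q) x,
      θ' Q (Tm f (k + 1) x) = Tm (P := cP P) (Q := cP Q)
        (NonemptyFiniteChains.orderHomMap f) k (θ' P x) := by
  induction k with
  | zero => exact ⟨fun _ => OrderHom.id, fun _ => OrderHom.id, fun _ _ => rfl, fun _ _ => rfl,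
      fun _ _ _ _ => rfl⟩
  | succ k ih =>
    obtain ⟨θ, θ', h1, h2, h3⟩ := ih
    have m1 : ∀ P (x : T (k + 1) (cP P)) y,
        y ∈ fs (k := k + 1) (NonemptyFiniteChains.orderHomMap (θ P) x) ↔
          ∃ a, a ∈ fs x ∧ θ P a = y := fun P x y => NonemptyFiniteChains.mem_map_iff x _ y
    have m2 : ∀ P (x : T (k + 2) P) y,
        y ∈ fs (P := cP P) (k := k) (NonemptyFiniteChains.orderHomMap (θ' P) x) ↔
          ∃ a, a ∈ fs x ∧ θ' P a = y := fun P x y => NonemptyFiniteChains.mem_map_iff x _ y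
    refine ⟨fun P => NonemptyFiniteChains.orderHomMap (θ P),
      fun P => NonemptyFiniteChains.orderHomMap (θ' P), fun P x => fs_ext (fun y => ?_),
      fun P x => fs_ext (fun y => ?_), fun P Q f x => fs_ext (fun y => ?_)⟩
    · refine (m1 P _ y).trans ?_
      constructor
      · rintro ⟨a, ha, rfl⟩
        obtain ⟨b, hb, rfl⟩ := (m2 P x a).1 ha
        rwa [h1]
      · intro hy; exact ⟨_, (m2 P x _).2 ⟨y, hy, rfl⟩, h1 P y⟩
    · refine (m2 P _ y).trans ?_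
      constructor
      · rintro ⟨a, ha, rfl⟩
        obtain ⟨b, hb, rfl⟩ := (m1 P x a).1 ha
        rwa [h2]
      · intro hy; exact ⟨_, (m1 P x _).2 ⟨y, hy, rfl⟩, h2 P y⟩
    · refine (m2 Q _ y).trans (Iff.trans ?_ (mem_Tm _ _ y).symm)
      constructor
      · rintro ⟨a, ha, rfl⟩
        obtain ⟨b, hb, rfl⟩ := (mem_Tm f x a).1 ha
        exact ⟨_, (m2 P x _).2 ⟨b, hb, rfl⟩, (h3 P Q f b).symm⟩
      · rintro ⟨a, ha, rfl⟩
        obtain ⟨b, hb, rfl⟩ := (m2 P x a).1 ha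
        exact ⟨_, (mem_Tm f x _).2 ⟨b, hb, rfl⟩, h3 P Q f b⟩

abbrev UP (m : ℕ) : PartOrd.{0} := PartOrd.of (U m)

def hat {Q : PartOrd.{0}} {l : ℕ} (τ : Fin (l + 1) →o Q) : UP l →o Q :=
  ⟨fun i => τ i.down, fun _ _ h => τ.monotone h⟩

lemma retr' {m : ℕ} (S : Set (U m)) (hS : S.Nonempty) : ∃ ρ : Fin (m + 1) →o Fin (m + 1),
    (∀ a, ULift.up (ρ a) ∈ S) ∧ ∀ a, ULift.up a ∈ S → ρ a = a := by
  classical
  let W : Finset (Fin (m + 1)) := Finset.univ.filter (fun a => ULift.up a ∈ S)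
  have hW : W.Nonempty := by
    obtain ⟨⟨a⟩, ha⟩ := hS
    exact ⟨a, by simp [W, ha]⟩
  let F : Fin (m + 1) → Finset (Fin (m + 1)) := fun a => insert (W.min' hW) (W.filter (· ≤ a))
  have hF : ∀ a, (F a).Nonempty := fun a => Finset.insert_nonempty _ _
  refine ⟨⟨fun a => (F a).max' (hF a), fun a b hab => ?_⟩, fun a => ?_, fun a ha => ?_⟩
  · apply Finset.max'_subset
    apply Finset.insert_subset_insert
    intro x hx
    rw [Finset.mem_filter] at hx ⊢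
    exact ⟨hx.1, hx.2.trans hab⟩
  · have h := Finset.max'_mem _ (hF a)
    have : (F a).max' (hF a) ∈ W := by
      rcases Finset.mem_insert.1 h with h | h
      · rw [h]; exact Finset.min'_mem _ _
      · exact (Finset.mem_filter.1 h).1
    exact (Finset.mem_filter.1 this).2
  · have haW : a ∈ W := by simp [W, ha]
    apply le_antisymm
    · refine Finset.max'_le _ (hF a) _ ?_
      intro y hy
      rcases Finset.mem_insert.1 hy with h | h
      · rw [h]; exact Finset.min'_le _ _ haW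
      · exact (Finset.mem_filter.1 h).2
    · have : a ∈ F a := Finset.mem_insert_of_mem (Finset.mem_filter.2 ⟨haW, le_rfl⟩)
      exact Finset.le_max' _ _ this

lemma msec {Q : PartOrd.{0}} {l : ℕ} (τ : Fin (l + 1) →o Q) :
    ∃ s : Q →o Fin (l + 1), ∀ j, τ (s (τ j)) = τ j := by
  classical
  refine ⟨⟨fun q => (Finset.univ.filter (fun i => τ i ≤ q)).sup id, fun a b hab => ?_⟩, fun j => ?_⟩
  · apply Finset.sup_mono
    intro i hi
    rw [Finset.mem_filter] at hi ⊢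
    exact ⟨hi.1, hi.2.trans hab⟩
  · have hj : j ∈ Finset.univ.filter (fun i => τ i ≤ τ j) := by simp
    obtain ⟨i, hi, e⟩ := Finset.exists_mem_eq_sup _ ⟨j, hj⟩ id
    apply le_antisymm
    · change τ ((Finset.univ.filter (fun i => τ i ≤ τ j)).sup id) ≤ _
      rw [e]; exact (Finset.mem_filter.1 hi).2
    · exact τ.monotone (Finset.le_sup (f := id) hj)

lemma enum {Q : PartOrd.{0}} {S : Set Q} (hf : S.Finite) (hn : S.Nonempty)
    (hc : ∀ p ∈ S, ∀ q ∈ S, p ≤ q ∨ q ≤ p) :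
    ∃ (l : ℕ) (τ : Fin (l + 1) →o Q), Set.range τ = S := by
  classical
  have hch : IsChain (· ≤ ·) S := fun p hp q hq _ => hc p hp q hq
  let : LinearOrder S := hch.linearOrder
  let : Fintype S := hf.fintype
  have : Nonempty S := hn.to_subtype
  obtain ⟨l, hl⟩ : ∃ l, Fintype.card S = l + 1 :=
    ⟨Fintype.card S - 1, by have := Fintype.card_pos (α := S); omega⟩
  let e := monoEquivOfFin S hl
  refine ⟨l, ⟨fun i => (e i).1, fun a b h => e.monotone h⟩, ?_⟩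
  ext p
  constructor
  · rintro ⟨i, rfl⟩; exact (e i).2
  · intro hp; exact ⟨e.symm ⟨p, hp⟩, by simp⟩

end Pool.Agent.H17.Ex
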