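import Pool.Agent.H17.Ex4

namespace Pool.Agent.H17.Ex
open CategoryTheory Simplicial Opposite PartialOrder SSet

variable {C : Type} [PartialOrder C]

noncomputable abbrev Tu {l m : ℕ} (φ : Fin (l + 1) →o Fin (m + 1)) (k : ℕ) :
    T k (UP l) →o T k (UP m) := Tm (P := UP l) (Q := UP m) (um φ) k

def upm {Q : PartOrd.{0}} {l : ℕ} (s : Q →o Fin (l + 1)) : Q →o UP l :=
  ⟨fun q => ⟨s q⟩, fun _ _ h => s.monotone h⟩

section Fam
variable {Q : PartOrd.{0}} {k : ℕ} {A : ∀ l, (Fin (l + 1) →o Q) → Prop}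
  (hA : ∀ l m (τ : Fin (m + 1) →o Q) (φ : Fin (l + 1) →o Fin (m + 1)), A m τ → A l (τ.comp φ))
  (e : ∀ l τ, A l τ → (T k (UP l) →o C))
  (he : ∀ l m (τ : Fin (m + 1) →o Q) (φ : Fin (l + 1) →o Fin (m + 1)) (h : A m τ) ξ,
    e l (τ.comp φ) (hA l m τ φ h) ξ = e m τ h (Tu φ k ξ))
include he

lemma fam_eq {l l' : ℕ} {τ : Fin (l + 1) →o Q} {τ' : Fin (l' + 1) →o Q} (h : A l τ)
    (h' : A l' τ') {ξ : T k (UP l)} {ξ' : T k (UP l')}
    (hx : Tm (hat τ) k ξ = Tm (hat τ') k ξ') : e l τ h ξ = e l' τ' h' ξ' := by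
  obtain ⟨ρ, hρ, hρ'⟩ := retr' (supp k ξ) (supp_ne k ξ)
  obtain ⟨s, hs⟩ := msec τ'
  have hs2 := congrArg (supp k) hx
  rw [supp_Tm, supp_Tm] at hs2
  have e1 : τ.comp ρ = τ'.comp (s.comp (τ.comp ρ)) := by
    ext1; funext a
    have : hat τ (ULift.up (ρ a)) ∈ hat τ' '' supp k ξ' := hs2 ▸ ⟨_, hρ a, rfl⟩
    obtain ⟨b, -, hb⟩ := this
    have hb' : τ' b.down = τ (ρ a) := hb
    change τ (ρ a) = τ' (s (τ (ρ a)))
    rw [← hb', hs]
  have e2 : τ' = τ'.comp (s.comp τ') := by ext1; funext a; exact (hs a).symm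
  have f1 : Tu ρ k ξ = ξ := Tm_fix _ k ξ (fun p hp => congrArg ULift.up (hρ' p.down hp))
  have c1 : e l τ h ξ = e l' τ' h' (Tu (s.comp (τ.comp ρ)) k ξ) := by
    rw [← he l l' τ' _ h', ← f1, ← he l l τ ρ h, f1]
    simp only [← e1]
  have c2 : e l' τ' h' ξ' = e l' τ' h' (Tu (s.comp τ') k ξ') := by
    rw [← he l' l' τ' _ h']
    simp only [← e2]
  rw [c1, c2]
  congr 1
  have g1 : Tu (s.comp (τ.comp ρ)) k ξ = Tm (upm s) k (Tm (hat τ) k (Tu ρ k ξ)) := by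
    rw [← Tm_comp, ← Tm_comp]; rfl
  have g2 : Tu (s.comp τ') k ξ' = Tm (upm s) k (Tm (hat τ') k ξ') := by
    rw [← Tm_comp]; rfl
  rw [g1, g2, f1, hx]

lemma fam_glue (z : C) : ∃ F : T k Q → C,
    (∀ l τ (h : A l τ) ξ, F (Tm (hat τ) k ξ) = e l τ h ξ) ∧
    ∀ ξ ξ', ξ ≤ ξ' → (∃ l τ, A l τ ∧ supp k ξ ∪ supp k ξ' ⊆ Set.range τ) → F ξ ≤ F ξ' := by
  classical
  let F : T k Q → C := fun ξ =>
    if h : ∃ v, ∃ l τ, ∃ h : A l τ, ∃ η, Tm (hat τ) k η = ξ ∧ e l τ h η = v then h.choose else z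
  have hF : ∀ l τ (h : A l τ) ξ, F (Tm (hat τ) k ξ) = e l τ h ξ := by
    intro l τ h ξ
    have hh : ∃ v, ∃ l' τ', ∃ h' : A l' τ', ∃ η, Tm (hat τ') k η = Tm (hat τ) k ξ ∧
      e l' τ' h' η = v := ⟨_, l, τ, h, ξ, rfl, rfl⟩
    simp only [F, dif_pos hh]
    obtain ⟨l', τ', h', η, h1, h2⟩ := hh.choose_spec
    rw [← h2]; exact fam_eq hA e he h' h h1
  refine ⟨F, hF, ?_⟩
  rintro ξ ξ' hle ⟨l, τ, h, hsub⟩
  obtain ⟨s, hs⟩ := msec τ
  have fix : ∀ η : T k Q, supp k η ⊆ Set.range τ → Tm (hat τ) k (Tm (upm s) k η) = η := by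
    intro η hη
    rw [← Tm_comp]
    apply Tm_fix
    intro p hp
    obtain ⟨j, rfl⟩ := hη hp
    exact hs j
  rw [← fix ξ (Set.subset_union_left.trans hsub), ← fix ξ' (Set.subset_union_right.trans hsub),
    hF l τ h, hF l τ h]
  exact (e l τ h).monotone ((Tm (upm s) k).monotone hle)

end Fam

lemma cover {Q : PartOrd.{0}} {k : ℕ} {ξ ξ' : T k Q} (h : ξ ≤ ξ') :
    ∃ (l : ℕ) (τ : Fin (l + 1) →o Q), Set.range τ = supp k ξ ∪ supp k ξ' :=
  enum ((supp_fin k ξ).union (supp_fin k ξ')) (supp_ne k ξ).inl (supp_cmp k ξ ξ' h)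

lemma exists_hat {Q : PartOrd.{0}} {k : ℕ} (ξ : T k Q) :
    ∃ (l : ℕ) (τ : Fin (l + 1) →o Q) (η : T k (UP l)), Tm (hat τ) k η = ξ := by
  obtain ⟨l, τ, h⟩ := cover (le_refl ξ)
  obtain ⟨s, hs⟩ := msec τ
  refine ⟨l, τ, Tm (upm s) k ξ, ?_⟩
  rw [← Tm_comp]
  apply Tm_fix
  intro p hp
  obtain ⟨j, rfl⟩ : p ∈ Set.range τ := h ▸ Or.inl hp
  exact hs j

/-- the simplices of `Y` are the monotone maps from iterated chain posets to `C`. -/
def Rep (C : Type) [PartialOrder C] (k : ℕ) (Y : SSet.{0}) : Prop :=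
  ∃ E : ∀ m, Y.obj (op ⦋m⦌) → (T k (UP m) →o C), (∀ m, Function.Bijective (E m)) ∧
    ∀ l m (φ : Fin (l + 1) →o Fin (m + 1)) x ξ,
      E l (Y.map (SimplexCategory.mkHom φ).op x) ξ = E m x (Tu φ k ξ)

lemma rep_zero : Rep C 0 (nerve C) := by
  refine ⟨fun m x => ⟨fun i => x.obj i.down, fun _ _ h => Functor.monotone x h⟩,
    fun m => ⟨fun x y h => ?_, fun G => ?_⟩, fun _ _ _ _ _ => rfl⟩
  · apply nerve.ext_of_isThin
    funext i
    exact congrArg (fun G : T 0 (UP m) →o C => G (ULift.up i)) h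
  · let g : Fin (m + 1) →o C := ⟨fun i => G (ULift.up i), fun _ _ h => G.monotone h⟩
    exact ⟨g.monotone.functor, rfl⟩

lemma rep_succ [Nonempty C] {k : ℕ} {Y : SSet.{0}} (hY : Rep C k Y) :
    Rep C (k + 1) (ex.obj Y) := by
  obtain ⟨E, hE, hn⟩ := hY
  obtain ⟨θ, θ', h1, h2, h3⟩ := theta k
  have glue : ∀ (m : ℕ) (y : (ex.obj Y).obj (op ⦋m⦌)), ∃ F : T k (cP (UP m)) →o C,
      ∀ l (τ : Fin (l + 1) →o cP (UP m)) ξ, F (Tm (hat τ) k ξ)
        = E l (NatTrans.app y.down (op ⦋l⦌) τ.monotone.functor) ξ := by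
    intro m y
    obtain ⟨F, hF, hF'⟩ := fam_glue (Q := cP (UP m)) (k := k) (A := fun _ _ => True)
      (fun _ _ _ _ _ => trivial)
      (fun l τ _ => E l (NatTrans.app y.down (op ⦋l⦌) τ.monotone.functor))
      (fun l l' τ φ _ ξ => by
        rw [← hn]
        have h := NatTrans.naturality_apply y.down (SimplexCategory.mkHom φ).op
          τ.monotone.functor
        exact congrArg (fun w => E l w ξ) h) (Classical.arbitrary C)
    refine ⟨⟨F, fun ξ ξ' h => hF' ξ ξ' h ?_⟩, fun l τ ξ => hF l τ trivial ξ⟩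
    obtain ⟨l, τ, h⟩ := cover h
    exact ⟨l, τ, trivial, h.ge⟩
  choose F hF using glue
  refine ⟨fun m y => (F m y).comp (θ' _), fun m => ⟨fun y y' h => ?_, fun G => ?_⟩, ?_⟩
  · have hFF : ∀ ξ, F m y ξ = F m y' ξ := fun ξ => by
      have := congrArg (fun G : T (k + 1) (UP m) →o C => G (θ _ ξ)) h
      simpa [h2] using this
    apply ULift.ext
    apply NatTrans.ext
    funext Δ
    apply ConcreteCategory.hom_ext
    intro τ
    let τ' : Fin (Δ.unop.len + 1) →o cP (UP m) := ⟨τ.obj, Functor.monotone τ⟩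
    have e : τ = τ'.monotone.functor := nerve.ext_of_isThin (C := Pn m) rfl
    rw [e]
    apply (hE Δ.unop.len).1
    ext ξ
    exact (hF m y _ τ' ξ).symm.trans ((hFF _).trans (hF m y' _ τ' ξ))
  · choose inv hinv using fun l => (hE l).2
    let y : (ex.obj Y).obj (op ⦋m⦌) := ULift.up
      { app := fun Δ => TypeCat.ofHom (fun τ => inv Δ.unop.len
          ((G.comp (θ _)).comp (Tm (hat (Q := cP (UP m)) ⟨τ.obj, Functor.monotone τ⟩) k)))
        naturality := by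
          intro Δ Δ' f
          apply ConcreteCategory.hom_ext
          intro τ
          apply (hE Δ'.unop.len).1
          ext ξ
          have a1 := hn Δ'.unop.len Δ.unop.len f.unop.toOrderHom (inv Δ.unop.len
            ((G.comp (θ _)).comp (Tm (hat (Q := cP (UP m)) ⟨τ.obj, Functor.monotone τ⟩) k))) ξ
          rw [hinv] at a1
          refine Eq.trans ?_ a1.symm
          refine (congrArg (fun G : T k (UP Δ'.unop.len) →o C => G ξ) (hinv _ _)).trans ?_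
          simp only [OrderHom.comp_coe, Function.comp]
          rw [← Tm_comp]; rfl }
    refine ⟨y, ?_⟩
    ext ξ
    obtain ⟨l, τ, η, hη⟩ := exists_hat (θ' _ ξ)
    change F m y (θ' _ ξ) = G ξ
    rw [← hη, hF]
    refine (congrArg (fun G : T k (UP l) →o C => G η) (hinv _ _)).trans ?_
    change G (θ _ (Tm (hat τ) k η)) = _
    rw [hη, h1]
  · intro l m φ y ξ
    change F l _ (θ' _ ξ) = F m y (θ' _ (Tm (um φ) (k + 1) ξ))
    rw [h3]
    obtain ⟨j, τ, η, hη⟩ := exists_hat (θ' _ ξ)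
    rw [← hη, hF, ← Tm_comp]
    exact (hF m y j ((pm φ).comp τ) η).symm

lemma rep_iter [Nonempty C] (k : ℕ) : Rep C k (ex.obj^[k] (nerve C)) := by
  induction k with
  | zero => exact rep_zero
  | succ k ih => rw [Function.iterate_succ_apply']; exact rep_succ ih

end Pool.Agent.H17.Ex
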