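import Pool.Agent.H17.Ex3
import Pool.Agent.H17.Ex5

namespace Pool.Agent.H17.Ex
open CategoryTheory Simplicial Opposite PartialOrder SSet

abbrev p0 (k : ℕ) : T k (UP 1) := pt (P := UP 1) (ULift.up 0) k
abbrev p1 (k : ℕ) : T k (UP 1) := pt (P := UP 1) (ULift.up 1) k

lemma collar {P : PartOrd.{0}} (L : Set P → Prop) (hL : ∀ S S', S ⊆ S' → L S' → L S) (j : ℕ) :
    ∃ (W : Set (T (j + 1) P)) (r : T (j + 1) P → T (j + 1) P) (h : T (j + 1) P →o T j (UP 1)),
      (∀ ξ ∈ W, ∀ ξ' ∈ W, ξ ≤ ξ' → r ξ ≤ r ξ') ∧ (∀ ξ ∈ W, L (supp _ (r ξ))) ∧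
      (∀ ξ, L (supp _ ξ) → ξ ∈ W ∧ r ξ = ξ ∧ h ξ = p0 j) ∧ (∀ ξ, ξ ∉ W → h ξ = p1 j) := by
  classical
  induction j with
  | zero =>
    refine ⟨{ξ | L (supp _ ξ)}, id, ⟨fun ξ => if L (supp _ ξ) then ULift.up 0 else ULift.up 1,
      fun a b hab => ?_⟩, fun _ _ _ _ h => h, fun _ h => h, fun ξ h => ⟨h, rfl, if_pos h⟩,
      fun ξ h => if_neg h⟩
    by_cases hb : L (supp _ b)
    · simp only [if_pos hb, if_pos (hL _ _ (supp_mono hab) hb)]; exact le_rfl
    · simp only [if_neg hb]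
      split_ifs
      · exact (show (0 : Fin 2) ≤ 1 by decide)
      · exact le_rfl
  | succ j ih =>
    obtain ⟨W, r, h, h1, h2, h3, h4⟩ := ih
    have hc : ∀ c : T (j + 2) P, ∀ a ∈ ((fs c).filter (· ∈ W)).image r,
        ∀ b ∈ ((fs c).filter (· ∈ W)).image r, a ≤ b ∨ b ≤ a := by
      intro c a ha b hb
      obtain ⟨a, ha', rfl⟩ := Finset.mem_image.1 ha
      obtain ⟨b, hb', rfl⟩ := Finset.mem_image.1 hb
      rw [Finset.mem_filter] at ha' hb'
      exact (fs_cmp c ha'.1 hb'.1).imp (h1 a ha'.2 b hb'.2) (h1 b hb'.2 a ha'.2)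
    have hn : ∀ c : T (j + 2) P, (∃ η ∈ fs c, η ∈ W) →
        (((fs c).filter (· ∈ W)).image r).Nonempty := fun c ⟨η, a, b⟩ =>
      ⟨r η, Finset.mem_image_of_mem _ (Finset.mem_filter.2 ⟨a, b⟩)⟩
    let r' : T (j + 2) P → T (j + 2) P := fun c =>
      if hh : ∃ η ∈ fs c, η ∈ W then mkC _ (hn c hh) (hc c) else c
    have hr' : ∀ c, (∃ η ∈ fs c, η ∈ W) → ∀ y, y ∈ fs (r' c) ↔ ∃ η ∈ fs c, η ∈ W ∧ r η = y := by
      intro c hh y
      simp only [r', dif_pos hh, fs_mkC, Finset.mem_image, Finset.mem_filter, and_assoc]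
    have mh : ∀ (c : T (j + 2) P) y,
        y ∈ fs (k := j) (NonemptyFiniteChains.orderHomMap h c) ↔ ∃ a, a ∈ fs c ∧ h a = y :=
      fun c y => NonemptyFiniteChains.mem_map_iff c _ y
    have hpt : ∀ (c : T (j + 2) P) (a : UP 1), (∀ η ∈ fs c, h η = pt a j) →
        NonemptyFiniteChains.orderHomMap h c = pt a (j + 1) := by
      intro c a ha
      refine fs_ext (k := j) (fun y => ?_)
      rw [mh, mem_pt]
      constructor
      · rintro ⟨η, hη, rfl⟩; exact ha η hη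
      · rintro rfl
        obtain ⟨η, hη⟩ := fs_ne c
        exact ⟨η, hη, ha η hη⟩
    refine ⟨{c | ∃ η ∈ fs c, η ∈ W}, r', NonemptyFiniteChains.orderHomMap h, ?_, ?_, ?_, ?_⟩
    · intro c hc c' hc' hle
      rw [fs_le]
      intro y hy
      obtain ⟨η, a, b, rfl⟩ := (hr' c hc y).1 hy
      exact (hr' c' hc' _).2 ⟨η, hle a, b, rfl⟩
    · intro c hcW
      obtain ⟨a, ha, hmax⟩ := fs_max (fs (r' c)) (fs_ne _) (fun a ha b hb => fs_cmp _ ha hb)
      obtain ⟨η, -, b, rfl⟩ := (hr' c hcW a).1 ha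
      refine hL _ _ ?_ (h2 η b)
      rintro p ⟨x, hx, hp⟩
      exact supp_mono (hmax x hx) hp
    · intro c hcL
      have hall : ∀ η ∈ fs c, η ∈ W ∧ r η = η ∧ h η = p0 j := fun η hη =>
        h3 η (hL _ (supp (j + 1 + 1) c) (fun p hp => ⟨η, hη, hp⟩) hcL)
      have hcW : ∃ η ∈ fs c, η ∈ W := by
        obtain ⟨η, hη⟩ := fs_ne c
        exact ⟨η, hη, (hall η hη).1⟩
      refine ⟨hcW, fs_ext (fun y => ?_), hpt c _ (fun η hη => (hall η hη).2.2)⟩
      rw [hr' c hcW]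
      constructor
      · rintro ⟨η, a, -, rfl⟩; rwa [(hall η a).2.1]
      · intro hy; exact ⟨y, hy, (hall y hy).1, (hall y hy).2.1⟩
    · intro c hcW
      exact hpt c _ (fun η hη => h4 η (fun hW => hcW ⟨η, hη, hW⟩))

variable {C : Type} [PartialOrder C]

def dn {l m : ℕ} (τ : Fin (l + 1) →o UP m) : Fin (l + 1) →o Fin (m + 1) :=
  ⟨fun a => (τ a).down, fun _ _ h => τ.monotone h⟩

theorem kan_rep {j : ℕ} {Y : SSet.{0}} (hY : Rep C (j + 1) Y) (H : T j (UP 1) → C → C)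
    (hH : ∀ t t' x x', t ≤ t' → x ≤ x' → H t x ≤ H t' x') (z : C)
    (H0 : ∀ x, H (p0 j) x = x) (H1 : ∀ x, H (p1 j) x = z) : KanComplex Y := by
  classical
  obtain ⟨E, hE, hn⟩ := hY
  rw [KanComplex.iff]
  intro n i f hf
  let g := hf.desc
  obtain ⟨F, hF, hF'⟩ := fam_glue (Q := UP (n + 1)) (k := j + 1)
    (A := fun _ τ => InH i (dn τ)) (fun _ _ _ φ h => h.comp φ)
    (fun l τ h => E l (g.app (op ⦋l⦌) (hs (dn τ) h)))
    (fun l l' τ φ h ξ => by
      rw [← hn]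
      have h1 := NatTrans.naturality_apply g (SimplexCategory.mkHom φ).op (hs (dn τ) h)
      exact congrArg (fun w => E l w ξ) h1) z
  obtain ⟨W, r, h, h1, h2, h3, h4⟩ := collar (P := UP (n + 1))
    (fun S => ∃ j0, j0 ≠ i ∧ ULift.up j0 ∉ S)
    (fun S S' hS ⟨j0, a, b⟩ => ⟨j0, a, fun c => b (hS c)⟩) j
  let G : T (j + 1) (UP (n + 1)) →o C := ⟨fun ξ => if ξ ∈ W then H (h ξ) (F (r ξ)) else z, by
    intro ξ ξ' hle
    by_cases a : ξ ∈ W <;> by_cases b : ξ' ∈ W <;> simp only [a, b, if_true, if_false]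
    · refine hH _ _ _ _ (h.monotone hle) (hF' _ _ (h1 ξ a ξ' b hle) ?_)
      obtain ⟨l, τ, hτ⟩ := cover (h1 ξ a ξ' b hle)
      refine ⟨l, τ, ?_, hτ.ge⟩
      obtain ⟨j0, c, d⟩ := h2 ξ' b
      rw [Set.union_eq_right.2 (supp_mono (h1 ξ a ξ' b hle))] at hτ
      refine ⟨j0, c, fun t ht => d ?_⟩
      rw [← hτ]
      exact ⟨t, congrArg ULift.up ht⟩
    · rw [← H1 (F (r ξ)), ← h4 ξ' b]
      exact hH _ _ _ _ (h.monotone hle) le_rfl
    · rw [← H1 (F (r ξ')), ← h4 ξ a]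
      exact hH _ _ _ _ (h.monotone hle) le_rfl
    · exact le_rfl⟩
  obtain ⟨y, hy⟩ := (hE (n + 1)).2 G
  refine ⟨SSet.yonedaEquiv.symm y, fun j0 hj => ?_⟩
  rw [← hf.ι_desc j0 hj]
  apply SSet.yonedaEquiv.injective
  let α : Fin (n + 1) →o Fin (n + 2) := (Fin.succAboveOrderEmb j0).toOrderHom
  have hα : InH i α := ⟨j0, hj, fun t => Fin.succAbove_ne j0 t⟩
  have e1 : SSet.yonedaEquiv (stdSimplex.δ j0 ≫ SSet.yonedaEquiv.symm y)
      = Y.map (SimplexCategory.mkHom α).op y := rfl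
  have e2 : SSet.yonedaEquiv (horn.ι i j0 hj ≫ hf.desc) = g.app (op ⦋n⦌) (hs α hα) := rfl
  rw [e1, e2]
  apply (hE n).1
  ext ξ
  rw [hn, hy]
  obtain ⟨a, b, c⟩ := h3 (Tu α (j + 1) ξ) ⟨j0, hj, by
    rw [supp_Tm]
    rintro ⟨t, -, ht⟩
    exact Fin.succAbove_ne j0 t.down (congrArg ULift.down ht)⟩
  change (if _ then _ else _) = _
  rw [if_pos a, b, c, H0]
  exact hF n ⟨fun a => ULift.up (α a), fun _ _ h => α.monotone h⟩ hα ξ

/-- the order of a fence on natural numbers: even numbers lie below their neighbours. -/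
def Fl (a b : ℕ) : Prop := a = b ∨ (a % 2 = 0 ∧ (a = b + 1 ∨ b = a + 1))

lemma exists_pos (j : ℕ) : ∃ pos : T j (UP 1) → ℕ, pos (p0 j) = 0 ∧ pos (p1 j) = 2 ^ j ∧
    (∀ ξ, pos ξ ≤ 2 ^ j) ∧ ∀ ξ ξ', ξ ≤ ξ' → Fl (pos ξ) (pos ξ') := by
  induction j with
  | zero =>
    refine ⟨fun ξ => (ULift.down ξ).val, rfl, rfl, fun ξ => Nat.lt_succ_iff.1 (ULift.down ξ).2, ?_⟩
    rintro ⟨a⟩ ⟨b⟩ hab
    have h : a.val ≤ b.val := hab
    have := b.2
    unfold Fl
    simp only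
    omega
  | succ j ih =>
    obtain ⟨pos, a0, a1, hb, hm⟩ := ih
    refine ⟨fun c => (fs c).inf' (fs_ne c) pos + (fs c).sup' (fs_ne c) pos, ?_, ?_, ?_, ?_⟩
    · simp [pt, a0]
    · simp only [pt, fs_mkC, Finset.inf'_singleton, Finset.sup'_singleton]
      rw [a1]; ring
    · intro c
      obtain ⟨x, -, hx⟩ := Finset.exists_mem_eq_inf' (fs_ne c) pos
      obtain ⟨y, -, hy⟩ := Finset.exists_mem_eq_sup' (fs_ne c) pos
      simp only [hx, hy]
      have := hb x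
      have := hb y
      rw [pow_succ]; omega
    · intro c d hcd
      obtain ⟨x, hx, ex⟩ := Finset.exists_mem_eq_inf' (fs_ne c) pos
      obtain ⟨y, hy, ey⟩ := Finset.exists_mem_eq_sup' (fs_ne c) pos
      obtain ⟨x', hx', ex'⟩ := Finset.exists_mem_eq_inf' (fs_ne d) pos
      obtain ⟨y', hy', ey'⟩ := Finset.exists_mem_eq_sup' (fs_ne d) pos
      have b1 : pos x' ≤ pos x := ex' ▸ Finset.inf'_le pos (hcd hx)
      have b2 : pos x ≤ pos y := ex ▸ Finset.inf'_le pos hy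
      have b3 : pos y ≤ pos y' := ey' ▸ Finset.le_sup' pos (hcd hy)
      have b4 : pos y' ≤ pos x' + 1 := by
        rcases fs_cmp d hx' hy' with h | h
        · have := hm _ _ h; unfold Fl at this; omega
        · have := hm _ _ h; unfold Fl at this; omega
      simp only [ex, ey, ex', ey']
      unfold Fl; omega

lemma exists_path (j : ℕ) : ∃ q : ℕ → T j (UP 1), q 0 = p0 j ∧ q (2 ^ j) = p1 j ∧
    ∀ a, q a ≤ q (a + 1) ∨ q (a + 1) ≤ q a := by
  classical
  induction j with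
  | zero =>
    refine ⟨fun a => if a = 0 then ULift.up 0 else ULift.up 1, rfl, rfl, fun a => Or.inl ?_⟩
    by_cases h : a = 0
    · subst h; exact (show (0 : Fin 2) ≤ 1 by decide)
    · simp only [if_neg h, if_neg (Nat.succ_ne_zero a)]; exact le_rfl
  | succ j ih =>
    obtain ⟨q, a0, a1, hq⟩ := ih
    have hc : ∀ a : ℕ, q (a / 2) ≤ q ((a + 1) / 2) ∨ q ((a + 1) / 2) ≤ q (a / 2) := by
      intro a
      rcases (by omega : (a + 1) / 2 = a / 2 ∨ (a + 1) / 2 = a / 2 + 1) with h | h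
      · rw [h]; exact Or.inl le_rfl
      · rw [h]; exact hq _
    refine ⟨fun a => mkC {q (a / 2), q ((a + 1) / 2)} (by simp) (by
      intro x hx y hy
      simp only [Finset.mem_insert, Finset.mem_singleton] at hx hy
      rcases hx with rfl | rfl <;> rcases hy with rfl | rfl
      · exact Or.inl le_rfl
      · exact hc a
      · exact (hc a).symm
      · exact Or.inl le_rfl), ?_, ?_, fun a => ?_⟩
    · refine fs_ext (fun y => ?_)
      rw [mem_pt]; simp [a0]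
    · refine fs_ext (fun y => ?_)
      have e1 : 2 ^ (j + 1) / 2 = 2 ^ j := by rw [pow_succ]; omega
      have e2 : (2 ^ (j + 1) + 1) / 2 = 2 ^ j := by rw [pow_succ]; omega
      rw [mem_pt]; simp [e1, e2, a1]
    · simp only [fs_le, fs_mkC, Finset.mem_insert, Finset.mem_singleton]
      rcases (by omega : (a + 1) / 2 = a / 2 ∨ (a + 1 + 1) / 2 = (a + 1) / 2) with h | h
      · left; rintro x (rfl | rfl)
        · left; rw [h]
        · left; rfl
      · right; rintro x (rfl | rfl)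
        · right; rfl
        · right; rw [h]

/-- the fence `0 < 1 > 2 < 3 > ⋯` on `{0, …, N}`. -/
def Fen (N : ℕ) : Type := {a : ℕ // a ≤ N}

instance (N : ℕ) : PartialOrder (Fen N) where
  le a b := Fl a.1 b.1
  le_refl _ := Or.inl rfl
  le_trans a b c h1 h2 := by unfold Fl at *; omega
  le_antisymm a b h1 h2 := Subtype.ext (by unfold Fl at *; omega)

instance (N : ℕ) : Nonempty (Fen N) := ⟨⟨0, Nat.zero_le _⟩⟩

theorem kan_fen (j : ℕ) : KanComplex (ex.obj^[j + 1] (nerve (Fen (2 * 2 ^ j)))) := by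
  obtain ⟨pos, a0, a1, hb, hm⟩ := exists_pos j
  refine kan_rep (rep_iter (j + 1))
    (fun t x => ⟨max (pos t) (min x.1 (2 * 2 ^ j - pos t)), by have := hb t; omega⟩) ?_
    ⟨2 ^ j, by omega⟩ ?_ ?_
  · intro t t' x x' ht hx
    have b1 := hm t t' ht
    have b2 : Fl x.1 x'.1 := hx
    have b3 := hb t
    have b4 := hb t'
    have b5 := x.2
    have b6 := x'.2
    change Fl _ _
    simp only
    generalize 2 ^ j = R at *
    unfold Fl at *
    omega
  · intro x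
    apply Subtype.ext
    have := x.2
    simp only [a0]; omega
  · intro x
    apply Subtype.ext
    simp only [a1]; omega

theorem not_kan_fen (j : ℕ) : ¬ KanComplex (ex.obj^[j] (nerve (Fen (2 * 2 ^ j)))) := by
  intro hK
  obtain ⟨E, hE, hn⟩ := rep_iter (C := Fen (2 * 2 ^ j)) j
  generalize ex.obj^[j] (nerve (Fen (2 * 2 ^ j))) = Y at *
  obtain ⟨pos, a0, a1, hb, hm⟩ := exists_pos j
  obtain ⟨q, q0, q1, hq⟩ := exists_path j
  let G1 : T j (UP 1) →o Fen (2 * 2 ^ j) :=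
    ⟨fun ξ => ⟨pos ξ, by have := hb ξ; omega⟩, fun ξ ξ' h => hm ξ ξ' h⟩
  let G2 : T j (UP 1) →o Fen (2 * 2 ^ j) :=
    ⟨fun ξ => ⟨2 * 2 ^ j - pos ξ, by omega⟩, fun ξ ξ' h => by
      have b1 := hm ξ ξ' h
      have b2 := hb ξ
      have b3 := hb ξ'
      change Fl _ _
      simp only
      unfold Fl at *
      omega⟩
  obtain ⟨y1, hy1⟩ := (hE 1).2 G1
  obtain ⟨y2, hy2⟩ := (hE 1).2 G2
  have hnδ : ∀ (m : ℕ) (a : Fin (m + 2)) x ξ, E m (Y.map (SimplexCategory.δ a).op x) ξ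
      = E (m + 1) x (Tu (SimplexCategory.δ a).toOrderHom j ξ) := fun m a x ξ =>
    hn m (m + 1) (SimplexCategory.δ a).toOrderHom x ξ
  let f : ∀ (a : Fin 3) (_ : a ≠ 2), Δ[1] ⟶ Y := fun a _ =>
    if a = 0 then SSet.yonedaEquiv.symm y2 else SSet.yonedaEquiv.symm y1
  have hf : horn.IsCompatible (n := 1) f := by
    rw [horn.isCompatible_iff]
    intro a b ha hb' hab
    have h01 : ∀ a b : Fin 3, a ≠ 2 → b ≠ 2 → a < b → a = 0 ∧ b = 1 := by decide
    obtain ⟨rfl, rfl⟩ := h01 a b ha hb' hab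
    apply SSet.yonedaEquiv.injective
    rw [yon, yon]
    have e0 : f 0 ha = SSet.yonedaEquiv.symm y2 := if_pos rfl
    have e1 : f 1 hb' = SSet.yonedaEquiv.symm y1 := if_neg (by decide)
    rw [e0, e1, Equiv.apply_symm_apply, Equiv.apply_symm_apply]
    apply (hE 0).1
    ext ξ
    have hξ : ξ = pt (P := UP 0) (ULift.up 0) j :=
      eq_pt _ j ξ (fun p _ => congrArg ULift.up (Subsingleton.elim (α := Fin 1) _ _))
    rw [hnδ, hnδ, hy1, hy2, hξ, Tm_pt, Tm_pt]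
    apply Subtype.ext
    change 2 * 2 ^ j - pos (p1 j) = pos (p1 j)
    omega
  obtain ⟨φ, hφ⟩ := hf.exists_lift_of_kanComplex
  have h0 := congrArg SSet.yonedaEquiv (hφ 0 (by decide))
  have h1 := congrArg SSet.yonedaEquiv (hφ 1 (by decide))
  have e0 : f 0 (by decide) = SSet.yonedaEquiv.symm y2 := if_pos rfl
  have e1 : f 1 (by decide) = SSet.yonedaEquiv.symm y1 := if_neg (by decide)
  rw [yon, e0, Equiv.apply_symm_apply] at h0
  rw [yon, e1, Equiv.apply_symm_apply] at h1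
  set z := SSet.yonedaEquiv φ
  let G3 := (E 2 z).comp (Tu (SimplexCategory.δ (2 : Fin 3)).toOrderHom j)
  have v0 : (G3 (p0 j)).1 = 0 := by
    have := hnδ 1 1 z (p0 j)
    rw [h1, hy1, Tm_pt] at this
    have e : G3 (p0 j) = E 2 z (pt (P := UP 2) (ULift.up 0) j) := by
      simp only [G3, OrderHom.comp_coe, Function.comp]; rw [Tm_pt]; rfl
    rw [e]
    exact (congrArg Subtype.val this).symm.trans a0
  have v1 : (G3 (p1 j)).1 = 2 * 2 ^ j := by
    have := hnδ 1 0 z (p0 j)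
    rw [h0, hy2, Tm_pt] at this
    have e : G3 (p1 j) = E 2 z (pt (P := UP 2) (ULift.up 1) j) := by
      simp only [G3, OrderHom.comp_coe, Function.comp]; rw [Tm_pt]; rfl
    rw [e]
    refine (congrArg Subtype.val this).symm.trans ?_
    change 2 * 2 ^ j - pos (p0 j) = _
    omega
  have key : ∀ a, (G3 (q a)).1 ≤ a := by
    intro a
    induction a with
    | zero => rw [q0, v0]
    | succ a ih =>
      rcases hq a with h | h
      · have : Fl _ _ := G3.monotone h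
        unfold Fl at this; omega
      · have : Fl _ _ := G3.monotone h
        unfold Fl at this; omega
  have := key (2 ^ j)
  rw [q1, v1] at this
  have : 0 < 2 ^ j := by positivity
  omega

end Pool.Agent.H17.Ex
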