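import Mathlib
import Pool.Agent.H51.LebN

set_option autoImplicit false

namespace Pool.Agent.H17.FlowE

open Set Filter Topology Dynamics

/-- Entropy lower bound from many separated points. -/
theorem top_of_sep {Y : Type} [MetricSpace Y] (T : Y → Y) (M : ℕ) (hM : 0 < M) (ε : ℝ)
    (hε : 0 < ε)
    (h : ∀ m n : ℕ, 0 < m → ∃ y : (Fin n → Fin m) → Y, ∀ c c', c ≠ c' →
      ∃ k < n * M, ε / m ≤ dist (T^[k] (y c)) (T^[k] (y c'))) :
    coverEntropy T univ = ⊤ := by
  classical
  refine EReal.eq_top_iff_forall_lt _ |>.2 fun a => ?_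
  have key : ∀ a : ℝ, (a : EReal) ≤ coverEntropy T univ := by
    intro a
    obtain ⟨m, hm⟩ := exists_nat_ge (Real.exp (a * M))
    have hm0 : 0 < m := by
      have : (0 : ℝ) < m := (Real.exp_pos _).trans_le hm
      exact_mod_cast this
    have hmr : (0 : ℝ) < m := by exact_mod_cast hm0
    let U : SetRel Y Y := {p | dist p.1 p.2 < ε / m / 2}
    have hU : U ∈ uniformity Y := Metric.dist_mem_uniformity (by positivity)
    refine le_trans ?_ (netEntropyEntourage_le_coverEntropy T univ hU)
    refine Frequently.le_expGrowthSup ?_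
    refine frequently_atTop.2 fun N => ⟨N * M, Nat.le_mul_of_pos_right _ hM, ?_⟩
    obtain ⟨y, hy⟩ := h m N hm0
    have hinj : Function.Injective y := by
      intro c c' hc
      by_contra hne
      obtain ⟨k, -, hk⟩ := hy c c' hne
      rw [hc, dist_self] at hk
      have : 0 < ε / m := by positivity
      linarith
    have hnet : IsDynNetIn T univ U (N * M) ((Finset.univ.image y : Finset Y) : Set Y) := by
      refine ⟨subset_univ _, ?_⟩
      intro p hp q hq hpq
      simp only [Finset.coe_image, Finset.coe_univ, image_univ, mem_range] at hp hq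
      obtain ⟨c, rfl⟩ := hp
      obtain ⟨c', rfl⟩ := hq
      obtain ⟨k, hk, hd⟩ := hy c c' (fun e => hpq (by rw [e]))
      refine Set.disjoint_left.2 fun z hz hz' => ?_
      have h1 := mem_ball_dynEntourage.1 hz k hk
      have h2 := mem_ball_dynEntourage.1 hz' k hk
      simp only [UniformSpace.ball, U, mem_preimage, mem_ofPred_eq] at h1 h2
      have := dist_triangle_right (T^[k] (y c)) (T^[k] (y c')) (T^[k] z)
      linarith
    have hc := hnet.card_le_netMaxcard
    rw [Finset.card_image_of_injective _ hinj] at hc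
    simp only [Finset.card_univ, Fintype.card_fun, Fintype.card_fin] at hc
    refine le_trans ?_ (ENat.toENNReal_mono hc)
    have e1 : ((a : EReal) * ((N * M : ℕ) : EReal)) = ((a * (N * M : ℕ) : ℝ) : EReal) := by
      rw [EReal.coe_mul]; rfl
    rw [e1, EReal.exp_coe]
    simp only [ENat.toENNReal_coe]
    rw [← ENNReal.ofReal_natCast]
    refine ENNReal.ofReal_le_ofReal ?_
    have : a * (N * M : ℕ) = N * (a * M) := by push_cast; ring
    rw [this, Real.exp_nat_mul]
    push_cast
    exact pow_le_pow_left₀ (Real.exp_pos _).le hm N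
  exact lt_of_lt_of_le (by exact_mod_cast (lt_add_one a)) (key (a + 1))

/-- 1-Lipschitz functions from the line to the unit interval. -/
def LS : Set (ℝ → ℝ) := {f | (∀ s, f s ∈ Icc (0 : ℝ) 1) ∧ ∀ s t, |f s - f t| ≤ |s - t|}

theorem LS_compact : IsCompact LS := by
  have h1 : IsCompact {f : ℝ → ℝ | ∀ s, f s ∈ Icc (0 : ℝ) 1} :=
    isCompact_pi_infinite fun _ => isCompact_Icc
  refine h1.of_isClosed_subset ?_ fun f hf => hf.1
  have : LS = (⋂ s, {f : ℝ → ℝ | f s ∈ Icc (0 : ℝ) 1}) ∩
      ⋂ s, ⋂ t, {f : ℝ → ℝ | |f s - f t| ≤ |s - t|} := by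
    ext f; simp [LS]
  rw [this]
  refine (isClosed_iInter fun s => isClosed_Icc.preimage (continuous_apply s)).inter
    (isClosed_iInter fun s => isClosed_iInter fun t => isClosed_le (by fun_prop) (by fun_prop))

instance : CompactSpace LS := isCompact_iff_compactSpace.1 LS_compact

theorem LS_cont (f : LS) : Continuous f.1 := by
  have : LipschitzWith 1 f.1 := LipschitzWith.of_dist_le_mul fun s t => by
    simpa [Real.dist_eq] using f.2.2 s t
  exact this.continuous

instance : TopologicalSpace.MetrizableSpace LS := by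
  let r : LS → (ℚ → ℝ) := fun f q => f.1 q
  have hr : Continuous r := by
    refine continuous_pi fun q => (continuous_apply _).comp continuous_subtype_val
  have hi : Function.Injective r := by
    intro f g h
    apply Subtype.ext
    refine Continuous.ext_on Rat.denseRange_cast (LS_cont f) (LS_cont g) ?_
    rintro _ ⟨q, rfl⟩
    exact congrFun h q
  exact (hr.isClosedEmbedding hi).isEmbedding.metrizableSpace

def sh (t : ℝ) (f : LS) : LS :=
  ⟨fun s => f.1 (s + t), fun s => f.2.1 _, fun s s' => by simpa using f.2.2 (s + t) (s' + t)⟩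

theorem ev_cont : Continuous fun p : ℝ × LS => p.2.1 p.1 := by
  refine continuous_iff_continuousAt.2 fun p0 => ?_
  have h1 : Continuous fun p : ℝ × LS => p.2.1 p0.1 :=
    (continuous_apply _).comp (continuous_subtype_val.comp continuous_snd)
  have h2 : Tendsto (fun p : ℝ × LS => p.2.1 p.1 - p.2.1 p0.1) (𝓝 p0) (𝓝 0) := by
    refine squeeze_zero_norm (a := fun p => |p.1 - p0.1|) (fun p => p.2.2.2 _ _) ?_
    have : Continuous fun p : ℝ × LS => |p.1 - p0.1| := by fun_prop
    simpa using this.tendsto p0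
  have := h2.add (h1.tendsto p0)
  simpa [ContinuousAt] using this

theorem sh_cont : Continuous fun p : ℝ × LS => sh p.1 p.2 := by
  refine Continuous.subtype_mk (continuous_pi fun s => ?_) _
  exact ev_cont.comp (f := fun p : ℝ × LS => (s + p.1, p.2)) (by fun_prop)

abbrev X := LS × AddCircle (1 : ℝ)

noncomputable def φ : Flow ℝ X where
  toFun t x := (sh t x.1, x.2 + (t : AddCircle (1 : ℝ)))
  cont' := by
    refine Continuous.prodMk (sh_cont.comp (f := fun p : ℝ × X => (p.1, p.2.1)) (by fun_prop)) ?_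
    exact (continuous_snd.comp continuous_snd).add
      ((AddCircle.continuous_mk' 1).comp continuous_fst)
  map_add' t₁ t₂ x := by
    refine Prod.ext (Subtype.ext (funext fun s => ?_)) ?_
    · simp [sh, add_assoc]
    · simp [add_assoc, add_comm t₁ t₂]
  map_zero' x := by
    refine Prod.ext (Subtype.ext (funext fun s => ?_)) ?_
    · simp [sh]
    · simp

def cst (c : ℝ) (hc : c ∈ Icc (0 : ℝ) 1) : LS := ⟨fun _ => c, fun _ => hc, fun s t => by simp⟩

theorem window {Y : Type} [MetricSpace Y] (g : LS → Y) (hg : Continuous g) (f0 : LS) (ε : ℝ)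
    (hε : 0 < ε) : ∃ R : ℕ, ∀ f : LS, (∀ s : ℝ, |s| ≤ R → f.1 s = f0.1 s) → dist (g f) (g f0) < ε := by
  by_contra hne
  push Not at hne
  choose f hf hd using hne
  have ht : Tendsto f atTop (𝓝 f0) := by
    refine tendsto_subtype_rng.2 (tendsto_pi_nhds.2 fun s => ?_)
    obtain ⟨N, hN⟩ := exists_nat_ge |s|
    refine tendsto_const_nhds.congr' (eventually_atTop.2 ⟨N, fun R hR => ?_⟩)
    exact (hf R s (hN.trans (by exact_mod_cast hR))).symm
  obtain ⟨R, hR⟩ := ((Metric.tendsto_nhds.1 ((hg.tendsto f0).comp ht)) ε hε).exists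
  exact absurd hR (not_lt.2 (hd R))

noncomputable def tm (R : ℕ) {n : ℕ} (t : Fin n → ℝ) (s : ℝ) : Fin n → ℝ := fun j =>
  max 0 (min (min 1 (t j)) (R + 1 - |s - (j : ℕ) * (2 * R + 2)|))

noncomputable def F (R : ℕ) {n : ℕ} (t : Fin n → ℝ) : LS :=
  ⟨fun s => ‖tm R t s‖, fun s => ⟨norm_nonneg _, by
    refine (pi_norm_le_iff_of_nonneg zero_le_one).2 fun j => ?_
    rw [Real.norm_eq_abs, abs_of_nonneg (le_max_left _ _)]
    exact max_le zero_le_one ((min_le_left _ _).trans (min_le_left _ _))⟩, fun s s' => by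
    refine (abs_norm_sub_norm_le _ _).trans ?_
    refine (pi_norm_le_iff_of_nonneg (abs_nonneg _)).2 fun j => ?_
    simp only [Pi.sub_apply, tm, Real.norm_eq_abs]
    refine (abs_max_sub_max_le_max _ _ _ _).trans (max_le (by simp) ?_)
    refine (abs_min_sub_min_le_max _ _ _ _).trans (max_le (by simp) ?_)
    have := abs_abs_sub_abs_le_abs_sub (s' - (j : ℕ) * (2 * R + 2)) (s - (j : ℕ) * (2 * R + 2))
    rw [abs_sub_comm s s']
    have e1 : s' - (j : ℕ) * (2 * R + 2) - (s - (j : ℕ) * (2 * R + 2)) = s' - s := by ring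
    rw [e1] at this
    refine le_trans (le_of_eq ?_) this
    congr 1; ring⟩

theorem F_cont (R n : ℕ) : Continuous fun t : Fin n → ℝ => F R t := by
  refine Continuous.subtype_mk (continuous_pi fun s => ?_) _
  refine continuous_norm.comp (continuous_pi fun j => ?_)
  simp only [tm]
  fun_prop

theorem F_win (R : ℕ) {n : ℕ} (t : Fin n → ℝ) (j : Fin n) (ht : t j ∈ Icc (0 : ℝ) 1) (s : ℝ)
    (hs : |s| ≤ R) : (F R t).1 (s + (j : ℕ) * (2 * R + 2)) = t j := by
  have : tm R t (s + (j : ℕ) * (2 * R + 2)) = Pi.single j (t j) := by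
    funext i
    by_cases hi : i = j
    · subst hi
      simp only [tm, add_sub_cancel_right, Pi.single_eq_same]
      rw [min_eq_right ht.2, min_eq_left (by linarith [ht.2]), max_eq_right ht.1]
    · rw [Pi.single_eq_of_ne hi]
      simp only [tm]
      refine max_eq_left ((min_le_right _ _).trans ?_)
      have hR : (0 : ℝ) ≤ R := Nat.cast_nonneg _
      have hab := abs_le.1 hs
      rcases lt_or_gt_of_ne (fun e => hi (Fin.ext e) : (i : ℕ) ≠ j) with h | h
      · have : ((i : ℕ) : ℝ) + 1 ≤ (j : ℕ) := by exact_mod_cast h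
        have := le_abs_self (s + (j : ℕ) * (2 * R + 2) - (i : ℕ) * (2 * R + 2))
        nlinarith
      · have : ((j : ℕ) : ℝ) + 1 ≤ (i : ℕ) := by exact_mod_cast h
        have := neg_abs_le (s + (j : ℕ) * (2 * R + 2) - (i : ℕ) * (2 * R + 2))
        nlinarith
  show ‖tm R t _‖ = _
  rw [this, Pi.norm_single, Real.norm_eq_abs, abs_of_nonneg ht.1]

theorem main {Y : Type} [MetricSpace Y] (T : Y → Y) (g : LS → Y) (hg : Continuous g)
    (hT : ∀ f, g (sh 1 f) = T (g f))
    (hne : g (cst 0 ⟨le_rfl, zero_le_one⟩) ≠ g (cst 1 ⟨zero_le_one, le_rfl⟩)) :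
    coverEntropy T univ = ⊤ := by
  set w := cst 0 ⟨le_rfl, zero_le_one⟩
  set w' := cst 1 ⟨zero_le_one, le_rfl⟩
  set ε := dist (g w) (g w') / 3 with hεd
  have hε : 0 < ε := by have := dist_pos.2 hne; positivity
  obtain ⟨R0, h0⟩ := window g hg w ε hε
  obtain ⟨R1, h1⟩ := window g hg w' ε hε
  set R := max R0 R1
  have hR0 : (R0 : ℝ) ≤ R := by exact_mod_cast le_max_left _ _
  have hR1 : (R1 : ℝ) ≤ R := by exact_mod_cast le_max_right _ _
  have hit : ∀ (k : ℕ) f, T^[k] (g f) = g (sh k f) := by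
    intro k
    induction k with
    | zero => intro f; simp only [Function.iterate_zero, id]; congr 1; ext s; simp [sh]
    | succ k ih =>
      intro f
      rw [Function.iterate_succ_apply, ← hT, ih]
      congr 1; ext s; simp [sh, add_assoc]
  refine top_of_sep T (2 * R + 2) (by omega) ε hε fun m n hm => ?_
  have hmr : (0 : ℝ) < m := by exact_mod_cast hm
  have ex : ∀ c : Fin n → Fin m, ∃ t : Fin n → ℝ, ∀ j : Fin n,
      dist (g (sh ((j : ℕ) * (2 * R + 2) : ℕ) (F R t))) (g w) = ε + (c j : ℕ) * (ε / m) := by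
    intro c
    have hc : ∀ j, 0 ≤ ((c j : ℕ) : ℝ) * (ε / m) ∧ ((c j : ℕ) : ℝ) * (ε / m) ≤ ε := by
      intro j
      refine ⟨by positivity, ?_⟩
      have : ((c j : ℕ) : ℝ) ≤ m := by exact_mod_cast (c j).2.le
      calc _ ≤ (m : ℝ) * (ε / m) := by gcongr
        _ = ε := by field_simp
    obtain ⟨t, -, ht⟩ := Pool.Agent.H51.LebN.miranda n 1 one_pos (fun t j =>
      dist (g (sh ((j : ℕ) * (2 * R + 2) : ℕ) (F R t))) (g w) - (ε + (c j : ℕ) * (ε / m)))
      (continuous_pi fun j => by
        refine Continuous.sub (Continuous.dist (hg.comp ?_) continuous_const) continuous_const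
        exact sh_cont.comp (f := fun t : Fin n → ℝ => (_, F R t))
          (continuous_const.prodMk (F_cont R n)))
      (fun t j ht => by
        have := h0 (sh ((j : ℕ) * (2 * R + 2) : ℕ) (F R t)) fun s hs => by
          have := F_win R t j (by rw [ht]; exact ⟨le_rfl, zero_le_one⟩) s (hs.trans hR0)
          simp only [sh]; push_cast; rw [this, ht]; rfl
        linarith [(hc j).1])
      (fun t j ht => by
        have := h1 (sh ((j : ℕ) * (2 * R + 2) : ℕ) (F R t)) fun s hs => by
          have := F_win R t j (by rw [ht]; exact ⟨zero_le_one, le_rfl⟩) s (hs.trans hR1)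
          simp only [sh]; push_cast; rw [this, ht]; rfl
        have h3 := dist_triangle_left (g w) (g w') (g (sh ((j : ℕ) * (2 * R + 2) : ℕ) (F R t)))
        linarith [(hc j).2])
    exact ⟨t, fun j => by have := congrFun ht j; simpa [sub_eq_zero] using this⟩
  choose t ht using ex
  refine ⟨fun c => g (F R (t c)), fun c c' hcc => ?_⟩
  obtain ⟨j, hj⟩ := Function.ne_iff.1 hcc
  refine ⟨(j : ℕ) * (2 * R + 2), Nat.mul_lt_mul_of_pos_right j.2 (by omega), ?_⟩
  rw [hit, hit]
  refine le_trans ?_ (abs_dist_sub_le _ _ (g w))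
  rw [ht, ht]
  have hp : 0 < ε / m := by positivity
  rcases lt_or_gt_of_ne (fun e => hj (Fin.ext e) : (c j : ℕ) ≠ c' j) with h | h
  · have : ((c j : ℕ) : ℝ) + 1 ≤ (c' j : ℕ) := by exact_mod_cast h
    refine le_trans ?_ (neg_le_abs _)
    nlinarith
  · have : ((c' j : ℕ) : ℝ) + 1 ≤ (c j : ℕ) := by exact_mod_cast h
    refine le_trans ?_ (le_abs_self _)
    nlinarith

end Pool.Agent.H17.FlowE
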