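import Mathlib

namespace Pool.Agent.H17.GP
open Monoid Monoid.CoprodI

section Free
variable {I : Type} {M : I → Type} [∀ i, Group (M i)]

open Classical in
/-- first letter of index `j` of the reduced word of `W` (or `1`). -/
noncomputable def hd (j : I) (W : CoprodI M) : M j :=
  (Word.equivPair j (W • (Word.empty : Word M))).head

open Classical in
lemma hd_of_mul (j : I) (s : M j) (W : CoprodI M) : hd j (of s * W) = s * hd j W := by
  unfold hd
  rw [mul_smul, Word.equivPair_smul_same]

open Classical in
lemma hd_one (j : I) : hd j (1 : CoprodI M) = 1 := by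
  unfold hd
  rw [one_smul, Word.equivPair_eq_of_fstIdx_ne (by simp [Word.fstIdx])]

open Classical in
lemma hd_eq_one_iff (j : I) (W : CoprodI M) :
    hd j W = 1 ↔ (W • (Word.empty : Word M)).fstIdx ≠ some j := by
  unfold hd
  generalize W • (Word.empty : Word M) = w
  constructor
  · intro h
    have h2 := Word.equivPair_head_smul_equivPair_tail (i := j) w
    rw [h, map_one, one_smul] at h2
    rw [← h2]
    exact (Word.equivPair j w).fstIdx_ne
  · intro h
    rw [Word.equivPair_eq_of_fstIdx_ne h]

lemma hd_excl {j k : I} (hjk : j ≠ k) (W : CoprodI M) (h : hd k W ≠ 1) : hd j W = 1 := by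
  rw [Ne, hd_eq_one_iff, not_not] at h
  rw [hd_eq_one_iff, h]
  simpa using hjk.symm

open Classical in
lemma red_induction {P : CoprodI M → Prop} (h1 : P 1)
    (hs : ∀ (k : I) (t : M k) (W : CoprodI M), t ≠ 1 → hd k W = 1 → P W → P (of t * W))
    (W : CoprodI M) : P W := by
  have key : ∀ w : Word M, P w.prod := by
    intro w
    induction w using Word.consRecOn with
    | empty => simpa using h1
    | cons i m w h1' h2 ih =>
      rw [Word.prod_cons]
      refine hs i m _ h2 ?_ ih
      rw [hd_eq_one_iff]
      have : w.prod • (Word.empty : Word M) = w := Word.equiv.right_inv w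
      rw [this]; exact h1'
  have := key (Word.equiv W)
  have e : (Word.equiv W).prod = W := Word.equiv.left_inv W
  rwa [e] at this

lemma hd_of (j : I) (s : M j) : hd j (of s : CoprodI M) = s := by
  have := hd_of_mul j s 1
  simpa [hd_one] using this

lemma hd_of_ne {j k : I} (h : j ≠ k) (s : M k) : hd j (of s : CoprodI M) = 1 := by
  by_cases hs : s = 1
  · simp [hs, hd_one]
  · exact hd_excl h _ (by rwa [hd_of])

/-- right multiplication changes the first letter only in the degenerate case. -/
lemma hd_mul_of (W : CoprodI M) : ∀ (j i : I) (s : M i),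
    hd j (W * of s) = hd j W ∨ (i = j ∧ ∃ t : M j, W = of t) := by
  induction W using red_induction with
  | h1 =>
    intro j i s
    by_cases h : i = j
    · exact Or.inr ⟨h, 1, by simp⟩
    · left; rw [one_mul, hd_of_ne (Ne.symm h), hd_one]
  | hs k t W ht hW ih =>
    intro j i s
    rcases ih k i s with h | ⟨h, t', ht'⟩
    · left
      rw [mul_assoc]
      by_cases hj : j = k
      · subst hj
        rw [hd_of_mul, hd_of_mul, h]
      · rw [hd_excl hj, hd_excl hj]
        · rw [hd_of_mul, hW, mul_one]; exact ht
        · rw [hd_of_mul, h, hW, mul_one]; exact ht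
    · subst h
      have : t' = 1 := by rw [ht', hd_of] at hW; exact hW
      subst this
      rw [ht', map_one, mul_one]
      by_cases hj : j = i
      · subst hj
        exact Or.inr ⟨rfl, t, rfl⟩
      · left
        rw [← map_mul, hd_of_ne hj, hd_of_ne hj]

end Free

section Perm
variable {I : Type} {A : Type} [Group A]

abbrev FP (I A : Type) [Group A] := CoprodI (fun _ : I => A)

def ofi (i : I) : A →* FP I A := CoprodI.of (M := fun _ : I => A) (i := i)

def pm (e : I → I) : FP I A →* FP I A := CoprodI.lift (fun i => ofi (e i))

@[simp] lemma pm_ofi (e : I → I) (i : I) (a : A) : pm e (ofi i a) = ofi (e i) a := by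
  simp [pm, ofi]

lemma hd_pm (e : I → I) (he : Function.Injective e) (W : FP I A) :
    ∀ j, hd (M := fun _ : I => A) (e j) (pm e W) = hd (M := fun _ : I => A) j W := by
  induction W using red_induction with
  | h1 => intro j; simp [hd_one]
  | hs k t W ht hW ih =>
    intro j
    have e1 : pm e (CoprodI.of (M := fun _ : I => A) (i := k) t * W)
        = CoprodI.of (M := fun _ : I => A) (i := e k) t * pm e W := by
      rw [map_mul]; congr 1
    rw [e1]
    by_cases hj : j = k
    · subst hj
      rw [hd_of_mul, hd_of_mul, ih]
    · rw [hd_excl (he.ne hj), hd_excl hj]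
      · rw [hd_of_mul, hW, mul_one]; exact ht
      · rw [hd_of_mul, ih, hW, mul_one]; exact ht

end Perm

end Pool.Agent.H17.GP
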