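import Pool.Agent.H17.GP1

namespace Pool.Agent.H17.GP
open Monoid

variable {V : Type} (Γ : SimpleGraph V) (G : V → Type) [∀ v, Group (G v)]

/-- the commutation relators of the graph product. -/
def rels : Set (CoprodI G) :=
  {r | ∃ u v, Γ.Adj u v ∧ ∃ (g : G u) (h : G v),
    r = CoprodI.of g * CoprodI.of h * (CoprodI.of g)⁻¹ * (CoprodI.of h)⁻¹}

/-- the graph product. -/
abbrev GProd : Type := CoprodI G ⧸ Subgroup.normalClosure (rels Γ G)

/-- the vertex group `G v` mapped to the graph product. -/
def io (v : V) : G v →* GProd Γ G := (QuotientGroup.mk' _).comp CoprodI.of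

/-- the subgroup generated by the vertex groups of `Λ`. -/
def sub (Λ : Set V) : Subgroup (GProd Γ G) :=
  Subgroup.closure {x | ∃ u ∈ Λ, ∃ s : G u, x = io Γ G u s}

variable {Γ G}

lemma io_comm {u v : V} (h : Γ.Adj u v) (g : G u) (k : G v) :
    io Γ G u g * io Γ G v k = io Γ G v k * io Γ G u g := by
  have : (QuotientGroup.mk' (Subgroup.normalClosure (rels Γ G)))
      (CoprodI.of g * CoprodI.of k * (CoprodI.of g)⁻¹ * (CoprodI.of k)⁻¹) = 1 := by
    rw [← MonoidHom.mem_ker, QuotientGroup.ker_mk']
    exact Subgroup.subset_normalClosure ⟨u, v, h, g, k, rfl⟩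
  simp only [map_mul, map_inv] at this
  have h2 : io Γ G u g * io Γ G v k * (io Γ G u g)⁻¹ * (io Γ G v k)⁻¹ = 1 := this
  calc io Γ G u g * io Γ G v k
      = (io Γ G u g * io Γ G v k * (io Γ G u g)⁻¹ * (io Γ G v k)⁻¹) * (io Γ G v k * io Γ G u g) := by
        group
    _ = _ := by rw [h2, one_mul]

def glift {H : Type} [Group H] (f : ∀ v, G v →* H)
    (hf : ∀ u v, Γ.Adj u v → ∀ g k, f u g * f v k = f v k * f u g) : GProd Γ G →* H :=
  QuotientGroup.lift _ (CoprodI.lift f) (by
    apply Subgroup.normalClosure_le_normal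
    rintro r ⟨u, v, h, g, k, rfl⟩
    simp only [SetLike.mem_coe, MonoidHom.mem_ker, map_mul, map_inv, CoprodI.lift_of]
    rw [hf u v h]; group)

@[simp] lemma glift_io {H : Type} [Group H] (f : ∀ v, G v →* H)
    (hf : ∀ u v, Γ.Adj u v → ∀ g k, f u g * f v k = f v k * f u g) (v : V) (s : G v) :
    glift f hf (io Γ G v s) = f v s := by
  simp [glift, io]

lemma right_induction {P : GProd Γ G → Prop} (h1 : P 1)
    (hs : ∀ g v s, P g → P (g * io Γ G v s)) (g : GProd Γ G) : P g := by
  obtain ⟨W, rfl⟩ := QuotientGroup.mk'_surjective _ g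
  have : ∀ x, P x → P (x * QuotientGroup.mk' _ W) := by
    induction W using CoprodI.induction_on with
    | one => intro x hx; simpa using hx
    | of i m => intro x hx; exact hs x i m hx
    | mul a b ha hb => intro x hx; rw [map_mul, ← mul_assoc]; exact hb _ (ha _ hx)
  simpa using this 1 h1

lemma io_mem_sub {Λ : Set V} {u : V} (hu : u ∈ Λ) (s : G u) : io Γ G u s ∈ sub Γ G Λ :=
  Subgroup.subset_closure ⟨u, hu, s, rfl⟩

lemma sub_mono {Λ Λ' : Set V} (h : Λ ⊆ Λ') : sub Γ G Λ ≤ sub Γ G Λ' :=
  Subgroup.closure_mono (by rintro x ⟨u, hu, s, rfl⟩; exact ⟨u, h hu, s, rfl⟩)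

lemma link_comm {v : V} {l : GProd Γ G} (hl : l ∈ sub Γ G (Γ.neighborSet v)) (s : G v) :
    l * io Γ G v s = io Γ G v s * l := by
  induction hl using Subgroup.closure_induction with
  | mem x hx =>
    obtain ⟨u, hu, t, rfl⟩ := hx
    exact (io_comm hu s t).symm
  | one => simp
  | mul x y _ _ hx hy => rw [mul_assoc, hy, ← mul_assoc, hx, mul_assoc]
  | inv x _ hx =>
    calc x⁻¹ * io Γ G v s = x⁻¹ * (io Γ G v s * x) * x⁻¹ := by group
      _ = _ := by rw [← hx]; group

abbrev Ix (v : V) : Type := GProd Γ G ⧸ sub Γ G (Γ.neighborSet v)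

abbrev FF (v : V) : Type := FP (Ix (Γ := Γ) (G := G) v) (G v)

def al (v : V) : GProd Γ G →* MulAut (FF (Γ := Γ) (G := G) v) where
  toFun k := MonoidHom.toMulEquiv (pm (fun i => k • i)) (pm (fun i => k⁻¹ • i))
    (by
      apply CoprodI.ext_hom; intro i; ext a
      change pm _ (pm _ (ofi i a)) = ofi i a
      simp)
    (by
      apply CoprodI.ext_hom; intro i; ext a
      change pm _ (pm _ (ofi i a)) = ofi i a
      simp)
  map_one' := by
    apply MulEquiv.toMonoidHom_injective
    apply CoprodI.ext_hom; intro i; ext a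
    change pm _ (ofi i a) = ofi i a
    simp
  map_mul' k l := by
    apply MulEquiv.toMonoidHom_injective
    apply CoprodI.ext_hom; intro i; ext a
    change pm _ (ofi i a) = pm _ (pm _ (ofi i a))
    simp [mul_smul]

lemma al_apply (v : V) (k : GProd Γ G) (W : FF (Γ := Γ) (G := G) v) :
    al v k W = pm (fun i => k • i) W := rfl

def i0 (v : V) : Ix (Γ := Γ) (G := G) v := ((1 : GProd Γ G) : Ix v)

lemma smul_i0 (v : V) (k : GProd Γ G) : k • i0 (Γ := Γ) (G := G) v = (k : Ix v) := by
  simp [i0, MulAction.Quotient.smul_mk]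

lemma smul_i0_iff (v : V) (k : GProd Γ G) :
    k • i0 (Γ := Γ) (G := G) v = i0 v ↔ k ∈ sub Γ G (Γ.neighborSet v) := by
  rw [smul_i0, i0, QuotientGroup.eq]
  simp

abbrev SD (v : V) : Type := FF (Γ := Γ) (G := G) v ⋊[al v] GProd Γ G

open Classical in
noncomputable def phf (v : V) : ∀ u, G u →* SD (Γ := Γ) (G := G) v :=
  Function.update (fun u => SemidirectProduct.inr.comp (io Γ G u)) v
    (SemidirectProduct.inl.comp (ofi (i0 v)))

lemma phf_same (v : V) (s : G v) :
    phf (Γ := Γ) v v s = SemidirectProduct.inl (ofi (i0 v) s) := by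
  simp [phf]

lemma phf_ne {u v : V} (h : u ≠ v) (s : G u) :
    phf (Γ := Γ) v u s = SemidirectProduct.inr (io Γ G u s) := by
  classical
  unfold phf
  rw [Function.update_of_ne h]; rfl

lemma phf_comm' {u v : V} (h : Γ.Adj v u) (g : G u) (k : G v) :
    phf (Γ := Γ) v u g * phf (Γ := Γ) v v k = phf (Γ := Γ) v v k * phf (Γ := Γ) v u g := by
  rw [phf_same, phf_ne h.ne']
  ext
  · simp only [SemidirectProduct.mul_left, SemidirectProduct.left_inr, SemidirectProduct.right_inr,
      SemidirectProduct.left_inl, SemidirectProduct.right_inl, one_mul, map_one, mul_one, al_apply,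
      pm_ofi]
    rw [(smul_i0_iff v _).2 (io_mem_sub h g)]
  · simp

noncomputable def ph (v : V) : GProd Γ G →* SD (Γ := Γ) (G := G) v :=
  glift (phf v) (by
    intro a b hab g k
    by_cases ha : a = v
    · subst ha; exact (phf_comm' hab k g).symm
    · by_cases hb : b = v
      · subst hb; exact phf_comm' hab.symm g k
      · rw [phf_ne ha, phf_ne hb, ← map_mul, ← map_mul, io_comm hab])

lemma ph_same (v : V) (s : G v) :
    ph (Γ := Γ) v (io Γ G v s) = SemidirectProduct.inl (ofi (i0 v) s) := by
  rw [ph, glift_io, phf_same]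

lemma ph_ne {u v : V} (h : u ≠ v) (s : G u) :
    ph (Γ := Γ) v (io Γ G u s) = SemidirectProduct.inr (io Γ G u s) := by
  rw [ph, glift_io, phf_ne h]

/-- the first `v`-letter of an element of the graph product. -/
noncomputable def rho (v : V) (g : GProd Γ G) : G v :=
  hd (M := fun _ : Ix (Γ := Γ) (G := G) v => G v) (i0 v) (ph v g).left

lemma rho_one (v : V) : rho v (1 : GProd Γ G) = 1 := by
  simp [rho, hd_one]

lemma rho_same (v : V) (s : G v) (g : GProd Γ G) : rho v (io Γ G v s * g) = s * rho v g := by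
  unfold rho
  rw [map_mul, ph_same]
  simp only [SemidirectProduct.mul_left, SemidirectProduct.left_inl, SemidirectProduct.right_inl,
    map_one, MulAut.one_apply]
  exact hd_of_mul _ _ _

lemma rho_adj {u v : V} (h : Γ.Adj v u) (s : G u) (g : GProd Γ G) :
    rho v (io Γ G u s * g) = rho v g := by
  unfold rho
  rw [map_mul, ph_ne h.ne']
  simp only [SemidirectProduct.mul_left, SemidirectProduct.left_inr, SemidirectProduct.right_inr,
    one_mul, al_apply]
  have := hd_pm (fun i : Ix (Γ := Γ) (G := G) v => io Γ G u s • i) (MulAction.injective _)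
    (ph v g).left (i0 v)
  simp only [(smul_i0_iff v _).2 (io_mem_sub h s)] at this
  exact this

lemma rho_right {u v : V} (h : u ≠ v) (s : G u) (g : GProd Γ G) :
    rho v (g * io Γ G u s) = rho v g := by
  unfold rho
  rw [map_mul, ph_ne h]
  simp

lemma rho_sub {Λ : Set V} {v : V} (hv : v ∉ Λ) {l : GProd Γ G} (hl : l ∈ sub Γ G Λ) :
    ∀ g, rho v (g * l) = rho v g := by
  induction hl using Subgroup.closure_induction with
  | mem x hx =>
    obtain ⟨u, hu, t, rfl⟩ := hx
    intro g
    exact rho_right (by rintro rfl; exact hv hu) t g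
  | one => simp
  | mul x y _ _ hx hy => intro g; rw [← mul_assoc, hy, hx]
  | inv x _ hx =>
    intro g
    rw [← hx (g * x⁻¹)]; simp

noncomputable def psi (v : V) : FF (Γ := Γ) (G := G) v →* GProd Γ G :=
  CoprodI.lift (fun i => (MulAut.conj (Quotient.out i)).toMonoidHom.comp (io Γ G v))

lemma psi_ofi (v : V) (k : GProd Γ G) (s : G v) :
    psi v (ofi (k • i0 (Γ := Γ) (G := G) v) s) = k * io Γ G v s * k⁻¹ := by
  rw [smul_i0]
  obtain ⟨l, hl⟩ := QuotientGroup.mk_out_eq_mul (sub Γ G (Γ.neighborSet v)) k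
  have : psi v (ofi (k : Ix (Γ := Γ) (G := G) v) s)
      = (k * l) * io Γ G v s * (k * l)⁻¹ := by
    rw [← hl]
    simp [psi, ofi]
  rw [this, mul_assoc k, link_comm l.2]; group

lemma psi_ph (v : V) (g : GProd Γ G) : psi v (ph v g).left * (ph v g).right = g := by
  induction g using right_induction with
  | h1 => simp
  | hs g u s ih =>
    by_cases h : u = v
    · subst h
      rw [map_mul, ph_same]
      simp only [SemidirectProduct.mul_left, SemidirectProduct.mul_right,
        SemidirectProduct.left_inl, SemidirectProduct.right_inl, mul_one, al_apply, pm_ofi, map_mul]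
      rw [psi_ofi]
      calc _ = (psi u (ph u g).left * (ph u g).right) * io Γ G u s := by group
        _ = _ := by rw [ih]
    · rw [map_mul, ph_ne h]
      simp only [SemidirectProduct.mul_left, SemidirectProduct.mul_right,
        SemidirectProduct.left_inr, SemidirectProduct.right_inr, map_one, mul_one]
      rw [← mul_assoc, ih]

lemma rho_carrier (v : V) (g : GProd Γ G) (s : G v) :
    rho v (g * io Γ G v s) = rho v g ∨
      ∃ t : G v, ∃ l ∈ sub Γ G (Γ.neighborSet v), g = io Γ G v t * l := by
  have e : (ph v (g * io Γ G v s)).left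
      = (ph v g).left * ofi ((ph v g).right • i0 (Γ := Γ) (G := G) v) s := by
    rw [map_mul, ph_same]
    simp only [SemidirectProduct.mul_left, SemidirectProduct.left_inl, al_apply, pm_ofi]
  rcases hd_mul_of (M := fun _ : Ix (Γ := Γ) (G := G) v => G v) (ph v g).left (i0 v)
    ((ph v g).right • i0 v) s with h | ⟨h, t, ht⟩
  · left; unfold rho; rw [e]; exact h
  · right
    refine ⟨t, (ph v g).right, (smul_i0_iff v _).1 h, ?_⟩
    have h2 := psi_ph v g
    have h3 := psi_ofi (Γ := Γ) v 1 t
    rw [one_smul] at h3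
    rw [ht] at h2
    have h4 : psi v (CoprodI.of (M := fun _ : Ix (Γ := Γ) (G := G) v => G v) (i := i0 v) t)
        = io Γ G v t := by
      have h5 : psi v (ofi (i0 (Γ := Γ) (G := G) v) t) = io Γ G v t := by simpa using h3
      exact h5
    rw [h4] at h2
    exact h2.symm

lemma rho_excl_step {u v : V} (huv : u ≠ v) (h : ¬ Γ.Adj v u) (g : GProd Γ G) (s : G v)
    (ih : rho u g = 1 ∨ rho v g = 1) :
    rho u (g * io Γ G v s) = 1 ∨ rho v (g * io Γ G v s) = 1 := by
  rw [rho_right huv.symm]
  rcases ih with ih | ih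
  · exact Or.inl ih
  · rcases rho_carrier v g s with h1 | ⟨t, l, hl, rfl⟩
    · right; rw [h1, ih]
    · left
      have : t = 1 := by
        rw [rho_sub (by simp) hl] at ih
        have := rho_same (Γ := Γ) v t 1
        rw [mul_one, rho_one, mul_one] at this
        rw [← this, ih]
      subst this
      rw [rho_sub (by simpa using h) hl, map_one, rho_one]

lemma rho_excl {u v : V} (huv : u ≠ v) (h : ¬ Γ.Adj u v) (g : GProd Γ G) :
    rho u g = 1 ∨ rho v g = 1 := by
  induction g using right_induction with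
  | h1 => left; exact rho_one u
  | hs g w s ih =>
    by_cases hv : w = v
    · subst hv; exact rho_excl_step huv (fun h' => h h'.symm) g s ih
    · by_cases hu : w = u
      · subst hu; exact (rho_excl_step huv.symm h g s ih.symm).symm
      · rw [rho_right hu, rho_right hv]; exact ih

lemma rho_io (v : V) (s : G v) : rho v (io Γ G v s) = s := by
  have := rho_same (Γ := Γ) v s 1
  rwa [mul_one, rho_one, mul_one] at this

end Pool.Agent.H17.GP
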