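import Mathlib

namespace Pool.Agent.H17.GP
open SimpleGraph

/-- a connected graph whose vertex set, with the path metric, is quasi-isometric to `ℝ`. -/
def QuasiLine {W : Type} (X : SimpleGraph W) : Prop :=
  X.Connected ∧ ∃ (f : W → ℝ) (K C : ℝ), 1 ≤ K ∧ 0 ≤ C ∧
    (∀ x y, (X.dist x y : ℝ) / K - C ≤ |f x - f y| ∧ |f x - f y| ≤ K * X.dist x y + C) ∧
    ∀ t : ℝ, ∃ x, |f x - t| ≤ C

/-- a group with a cyclic subgroup of finite index. -/
def VirtCyc (H : Type) [Group H] : Prop := ∃ z : H, (Subgroup.zpowers z).FiniteIndex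

lemma not_ql_bdd {W : Type} {X : SimpleGraph W} (B : ℕ) (h : ∀ x y, X.dist x y ≤ B) :
    ¬ QuasiLine X := by
  rintro ⟨-, f, K, C, hK, hC, hf, hs⟩
  obtain ⟨x, hx⟩ := hs 0
  obtain ⟨y, hy⟩ := hs (K * B + 3 * C + 1)
  have h1 := (hf y x).2
  have h2 : (X.dist y x : ℝ) ≤ B := by exact_mod_cast h y x
  have h3 : K * X.dist y x ≤ K * B := by gcongr
  rw [abs_le] at hx hy h1
  linarith [hx.1, hx.2, hy.1, hy.2, h1.2]

lemma ivt (u : ℕ → ℝ) (M t : ℝ) (hu : ∀ m, u (m + 1) ≤ u m + M) (h0 : u 0 ≤ t + M) :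
    ∀ n, t ≤ u n → ∃ m, t ≤ u m ∧ u m ≤ t + M := by
  intro n
  induction n with
  | zero => intro h; exact ⟨0, h, h0⟩
  | succ n ih =>
    intro h
    by_cases h' : t ≤ u n
    · exact ih h'
    · exact ⟨n + 1, h, by linarith [hu n, not_le.1 h']⟩

lemma not_ql_tripod {W : Type} {X : SimpleGraph W} (o : W) (p : Fin 3 → ℕ → W) (L : ℕ)
    (h0 : ∀ i, X.dist (p i 0) o ≤ L) (hs : ∀ i m, X.dist (p i (m + 1)) (p i m) ≤ L)
    (hfar : ∀ i j, i ≠ j → ∀ m n, n ≤ X.dist (p i m) (p j n)) : ¬ QuasiLine X := by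
  rintro ⟨-, f, K, C, hK, hC, hf, -⟩
  obtain ⟨n, hn⟩ := exists_nat_gt (K * (K * L + 2 * C))
  have key : ∀ g : W → ℝ, (∀ x y, |g x - g y| = |f x - f y|) → ∀ i j, i ≠ j →
      g o ≤ g (p j n) → g (p j n) ≤ g (p i n) → False := by
    intro g hg i j hij h1 h2
    have hL : ∀ x y, X.dist x y ≤ L → g x ≤ g y + (K * L + C) := by
      intro x y hxy
      have a1 := (hf x y).2
      have a2 : (X.dist x y : ℝ) ≤ L := by exact_mod_cast hxy
      have a3 : K * X.dist x y ≤ K * L := by gcongr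
      rw [← hg, abs_le] at a1
      linarith [a1.2]
    obtain ⟨m, hm1, hm2⟩ := ivt (fun m => g (p i m)) (K * L + C) (g (p j n))
      (fun m => hL _ _ (hs i m)) (by linarith [hL _ _ (h0 i)]) n h2
    have a1 := (hf (p i m) (p j n)).1
    rw [← hg, abs_of_nonneg (by linarith)] at a1
    have a2 : (n : ℝ) ≤ X.dist (p i m) (p j n) := by exact_mod_cast hfar i j hij m n
    have a3 : (X.dist (p i m) (p j n) : ℝ) / K ≤ K * L + 2 * C := by linarith
    rw [div_le_iff₀ (by linarith)] at a3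
    nlinarith
  have k1 := key f (fun _ _ => rfl)
  have k2 := key (fun x => - f x) (fun x y => by rw [← abs_neg]; congr 1; ring)
  simp only [neg_le_neg_iff] at k2
  have k3 : ∀ i j : Fin 3, i ≠ j → f o ≤ f (p i n) → f o ≤ f (p j n) → False := by
    intro i j hij hi hj
    rcases le_total (f (p i n)) (f (p j n)) with h | h
    · exact k1 j i hij.symm hi h
    · exact k1 i j hij hj h
  have k4 : ∀ i j : Fin 3, i ≠ j → f (p i n) ≤ f o → f (p j n) ≤ f o → False := by
    intro i j hij hi hj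
    rcases le_total (f (p i n)) (f (p j n)) with h | h
    · exact k2 i j hij hj h
    · exact k2 j i hij.symm hi h
  rcases le_total (f o) (f (p 0 n)) with ha | ha <;>
    rcases le_total (f o) (f (p 1 n)) with hb | hb <;>
    rcases le_total (f o) (f (p 2 n)) with hc | hc
  · exact k3 0 1 (by decide) ha hb
  · exact k3 0 1 (by decide) ha hb
  · exact k3 0 2 (by decide) ha hc
  · exact k4 1 2 (by decide) hb hc
  · exact k3 1 2 (by decide) hb hc
  · exact k4 0 2 (by decide) ha hc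
  · exact k4 0 1 (by decide) ha hb
  · exact k4 0 1 (by decide) ha hb

section Cayley
variable {H : Type} [Group H] {S : Set H}

lemma cay_step (x : H) {s : H} (hs : s ∈ S) :
    (mulCayley S).Reachable x (x * s) ∧ (mulCayley S).dist x (x * s) ≤ 1 := by
  by_cases h : x = x * s
  · rw [← h]; exact ⟨Reachable.refl _, by simp⟩
  · have : (mulCayley S).Adj x (x * s) := (mulCayley_adj' S _ _).2 ⟨h, s, hs, Or.inl rfl⟩
    exact ⟨this.reachable, (dist_eq_one_iff_adj.2 this).le⟩

lemma cay_len (hS : Subgroup.closure S = ⊤) (h : H) :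
    ∃ n : ℕ, ∀ x, (mulCayley S).Reachable x (x * h) ∧ (mulCayley S).dist x (x * h) ≤ n := by
  have hh : h ∈ Subgroup.closure S := by rw [hS]; trivial
  induction hh using Subgroup.closure_induction with
  | mem s hs => exact ⟨1, fun x => cay_step x hs⟩
  | one => exact ⟨0, fun x => by simp⟩
  | mul a b _ _ ha hb =>
    obtain ⟨m, hm⟩ := ha
    obtain ⟨n, hn⟩ := hb
    refine ⟨m + n, fun x => ?_⟩
    rw [← mul_assoc]
    refine ⟨(hm x).1.trans (hn _).1, ?_⟩
    exact ((hm x).1.dist_triangle_left _).trans (add_le_add (hm x).2 (hn _).2)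
  | inv a _ ha =>
    obtain ⟨m, hm⟩ := ha
    refine ⟨m, fun x => ?_⟩
    have := hm (x * a⁻¹)
    rw [inv_mul_cancel_right] at this
    exact ⟨this.1.symm, by rw [dist_comm]; exact this.2⟩

lemma cay_conn (hS : Subgroup.closure S = ⊤) : (mulCayley S).Connected := by
  refine Connected.mk (fun x y => ?_)
  obtain ⟨n, hn⟩ := cay_len hS (x⁻¹ * y)
  simpa using (hn x).1

lemma cay_fin (hS : Subgroup.closure S = ⊤) {T : Set H} (hT : T.Finite) :
    ∃ B : ℕ, ∀ t ∈ T, ∀ x, (mulCayley S).dist x (x * t) ≤ B := by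
  choose n hn using cay_len hS
  obtain ⟨B, hB⟩ := (hT.image n).bddAbove
  exact ⟨B, fun t ht x => (hn t x).2.trans (hB ⟨t, ht, rfl⟩)⟩

lemma cay_lower (hS : Subgroup.closure S = ⊤) (D : ℕ → Set H)
    (hmono : ∀ n x, x ∉ D n → x ∉ D (n + 1))
    (hstep : ∀ n x s, (s ∈ S ∨ s⁻¹ ∈ S) → x ∉ D n → x * s ∉ D (n + 1))
    {x y : H} {n : ℕ} (hx : x ∉ D 0) (hy : y ∈ D n) : n ≤ (mulCayley S).dist x y := by
  have key : ∀ {a b : H} (w : (mulCayley S).Walk a b) (m : ℕ), a ∉ D m → b ∉ D (m + w.length) := by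
    intro a b w
    induction w with
    | nil => intro m h; simpa using h
    | @cons a c b hadj w ih =>
      intro m h
      have : c ∉ D (m + 1) := by
        obtain ⟨-, s, hs, h1 | h1⟩ := (mulCayley_adj' S _ _).1 hadj
        · rw [← h1]; exact hstep m a s (Or.inl hs) h
        · have : c = a * s⁻¹ := by rw [h1]; simp
          rw [this]; exact hstep m a s⁻¹ (Or.inr (by simpa using hs)) h
      have := ih (m + 1) this
      rw [Walk.length_cons]
      rwa [show m + (w.length + 1) = m + 1 + w.length by ring]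
  obtain ⟨w, hw⟩ := (cay_conn hS).exists_walk_length_eq_dist x y
  have h1 := key w 0 hx
  rw [zero_add, hw] at h1
  by_contra hlt
  have : ∀ k, y ∉ D ((mulCayley S).dist x y + k) := by
    intro k
    induction k with
    | zero => exact h1
    | succ k ih => exact hmono _ _ ih
  apply this (n - (mulCayley S).dist x y)
  rwa [show (mulCayley S).dist x y + (n - (mulCayley S).dist x y) = n by omega]

lemma vc_of_cover (z : H) {T : Set H} (hT : T.Finite)
    (h : ∀ g : H, ∃ k : ℤ, ∃ t ∈ T, g = z ^ k * t) : VirtCyc H := by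
  refine ⟨z, ?_⟩
  have : Finite (H ⧸ Subgroup.zpowers z) := by
    have := hT.to_subtype
    refine Finite.of_surjective (fun t : T => ((t.1⁻¹ : H) : H ⧸ Subgroup.zpowers z)) ?_
    intro q
    obtain ⟨g, rfl⟩ := QuotientGroup.mk_surjective q
    obtain ⟨k, t, ht, hg⟩ := h g⁻¹
    refine ⟨⟨t, ht⟩, ?_⟩
    rw [QuotientGroup.eq]
    refine ⟨-k, ?_⟩
    have : g = t⁻¹ * z ^ (-k) := by
      rw [← inv_inv g, hg]; simp
    rw [this]; simp
  exact Subgroup.finiteIndex_of_finite_quotient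

lemma common_pow (h : VirtCyc H) {a b : H} (ha : ¬ IsOfFinOrder a) (hb : ¬ IsOfFinOrder b) :
    ∃ m n : ℤ, m ≠ 0 ∧ n ≠ 0 ∧ a ^ m = b ^ n := by
  obtain ⟨z, hz⟩ := h
  obtain ⟨k, hk, -, i, hi⟩ := Subgroup.exists_pow_mem_of_index_ne_zero hz.index_ne_zero a
  obtain ⟨l, hl, -, j, hj⟩ := Subgroup.exists_pow_mem_of_index_ne_zero hz.index_ne_zero b
  simp only at hi hj
  have hi0 : i ≠ 0 := by
    rintro rfl
    exact ha (isOfFinOrder_iff_pow_eq_one.2 ⟨k, hk, by rw [← hi]; simp⟩)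
  have hj0 : j ≠ 0 := by
    rintro rfl
    exact hb (isOfFinOrder_iff_pow_eq_one.2 ⟨l, hl, by rw [← hj]; simp⟩)
  refine ⟨k * j, l * i, mul_ne_zero (by omega) hj0, mul_ne_zero (by omega) hi0, ?_⟩
  rw [zpow_mul, zpow_mul, zpow_natCast, zpow_natCast, ← hi, ← hj, ← zpow_mul, ← zpow_mul, mul_comm]

lemma ql_of_vc (hS : Subgroup.closure S = ⊤) (hfin : S.Finite) [Infinite H] (h : VirtCyc H) :
    QuasiLine (mulCayley S) := by
  obtain ⟨z, hz⟩ := h
  have hzo : ¬ IsOfFinOrder z := by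
    intro hz'
    have h1 : Finite (Subgroup.zpowers z) := finite_zpowers.2 hz'
    have h2 : Finite H := Finite.of_equiv _ (Subgroup.groupEquivQuotientProdSubgroup
      (s := Subgroup.zpowers z)).symm
    exact not_finite H
  have hinj : Function.Injective (fun k : ℤ => z ^ k) := injective_zpow_iff_not_isOfFinOrder.2 hzo
  let c : H → H := fun g => (Quotient.out ((g⁻¹ : H) : H ⧸ Subgroup.zpowers z))⁻¹
  have hc : ∀ g, ∃ k : ℤ, g = z ^ k * c g := by
    intro g
    obtain ⟨⟨l, k, hk⟩, hl⟩ := QuotientGroup.mk_out_eq_mul (Subgroup.zpowers z) g⁻¹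
    refine ⟨k, ?_⟩
    simp only [c]
    rw [hl]
    simp only at hk
    simp [hk]
  have hc2 : ∀ (k : ℤ) g, c (z ^ k * g) = c g := by
    intro k g
    have : (((z ^ k * g)⁻¹ : H) : H ⧸ Subgroup.zpowers z) = ((g⁻¹ : H) : H ⧸ Subgroup.zpowers z) := by
      rw [QuotientGroup.eq]
      exact ⟨k, by simp⟩
    simp only [c]; rw [this]
  have hcf : (Set.range c).Finite := by
    refine (Set.finite_range (fun q : H ⧸ Subgroup.zpowers z => (Quotient.out q)⁻¹)).subset ?_
    rintro _ ⟨g, rfl⟩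
    exact ⟨_, rfl⟩
  choose κ hκ using hc
  have hκ2 : ∀ (k : ℤ) g, κ (z ^ k * g) = k + κ g := by
    intro k g
    apply hinj
    have h1 := hκ (z ^ k * g)
    rw [hc2] at h1
    simp only
    have h2 : z ^ κ (z ^ k * g) * c g = z ^ (k + κ g) * c g := by
      rw [← h1, zpow_add, mul_assoc, ← hκ g]
    exact mul_right_cancel h2
  obtain ⟨M, hM⟩ := (((hcf.prod hfin).image (fun q => (κ (q.1 * q.2)).natAbs))).bddAbove
  have hstep : ∀ g, ∀ s ∈ S, |κ (g * s) - κ g| ≤ M := by
    intro g s hs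
    have h1 : κ (g * s) = κ g + κ (c g * s) := by
      rw [← hκ2, ← mul_assoc, ← hκ g]
    have h2 : (κ (c g * s)).natAbs ≤ M := hM ⟨(c g, s), ⟨⟨g, rfl⟩, hs⟩, rfl⟩
    rw [h1, add_sub_cancel_left, Int.abs_eq_natAbs]
    exact_mod_cast h2
  have hup : ∀ {x y : H} (w : (mulCayley S).Walk x y), |κ x - κ y| ≤ M * w.length := by
    intro x y w
    induction w with
    | nil => simp
    | @cons a b d hadj w ih =>
      have : |κ a - κ b| ≤ M := by
        obtain ⟨-, s, hs, h1 | h1⟩ := (mulCayley_adj' S _ _).1 hadj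
        · rw [← h1, abs_sub_comm]; exact hstep a s hs
        · rw [h1]; exact hstep b s hs
      rw [Walk.length_cons]
      push_cast
      have := abs_sub_le (κ a) (κ b) (κ d)
      linarith
  have hconn := cay_conn hS
  obtain ⟨B, hB⟩ := cay_fin hS hcf
  obtain ⟨N, hN⟩ := cay_len hS z
  have hpow : ∀ (x : H) (n : ℕ), (mulCayley S).dist x (x * z ^ n) ≤ N * n := by
    intro x n
    induction n with
    | zero => simp
    | succ n ih =>
      rw [pow_succ, ← mul_assoc, mul_add, mul_one]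
      exact hconn.dist_triangle.trans (add_le_add ih (hN _).2)
  have hzz : ∀ k l : ℤ, (mulCayley S).dist (z ^ k) (z ^ l) ≤ N * (k - l).natAbs := by
    have aux : ∀ k l : ℤ, k ≤ l → (mulCayley S).dist (z ^ k) (z ^ l) ≤ N * (k - l).natAbs := by
      intro k l hkl
      have : z ^ l = z ^ k * z ^ (k - l).natAbs := by
        rw [← zpow_natCast, ← zpow_add]; congr 1; omega
      rw [this]; exact hpow _ _
    intro k l
    rcases le_total k l with h | h
    · exact aux k l h
    · rw [dist_comm, show (k - l).natAbs = (l - k).natAbs by omega]; exact aux l k h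
  have hlow : ∀ x y, (mulCayley S).dist x y ≤ N * (κ x - κ y).natAbs + 2 * B := by
    intro x y
    have h1 : (mulCayley S).dist (z ^ κ x) x ≤ B := by
      have := hB (c x) ⟨x, rfl⟩ (z ^ κ x); rwa [← hκ x] at this
    have h2 : (mulCayley S).dist (z ^ κ y) y ≤ B := by
      have := hB (c y) ⟨y, rfl⟩ (z ^ κ y); rwa [← hκ y] at this
    have h3 := hzz (κ x) (κ y)
    have h4 := hconn.dist_triangle (u := x) (v := z ^ κ x) (w := y)
    have h5 := hconn.dist_triangle (u := z ^ κ x) (v := z ^ κ y) (w := y)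
    rw [dist_comm] at h1
    omega
  refine ⟨hconn, fun g => (κ g : ℝ), M + N + 1, 2 * B + 1, ?_, by positivity, ?_, ?_⟩
  · have : (0 : ℝ) ≤ M + N := by positivity
    linarith
  · intro x y
    have hd0 : (0 : ℝ) ≤ (mulCayley S).dist x y := by positivity
    have hM0 : (0 : ℝ) ≤ M := by positivity
    have hN0 : (0 : ℝ) ≤ N := by positivity
    have hB0 : (0 : ℝ) ≤ B := by positivity
    have ha0 : (0 : ℝ) ≤ |(κ x : ℝ) - κ y| := abs_nonneg _
    constructor
    · have h1 : ((mulCayley S).dist x y : ℝ) ≤ N * |(κ x : ℝ) - κ y| + 2 * B := by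
        have := hlow x y
        have e : |(κ x : ℝ) - κ y| = ((κ x - κ y).natAbs : ℝ) := by
          rw [Nat.cast_natAbs]; push_cast; rfl
        rw [e]; exact_mod_cast this
      rw [sub_le_iff_le_add, div_le_iff₀ (by positivity)]
      nlinarith [mul_nonneg hM0 ha0, mul_nonneg hM0 hB0, mul_nonneg hN0 hB0]
    · obtain ⟨w, hw⟩ := hconn.exists_walk_length_eq_dist x y
      have h1 := hup w
      rw [hw] at h1
      have h2 : |(κ x : ℝ) - κ y| ≤ M * (mulCayley S).dist x y := by exact_mod_cast h1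
      nlinarith [mul_nonneg hN0 hd0]
  · intro t
    refine ⟨z ^ (⌊t⌋ - κ 1) * 1, ?_⟩
    simp only
    rw [hκ2, sub_add_cancel, abs_le]
    have hB0 : (0 : ℝ) ≤ B := by positivity
    constructor <;> linarith [Int.floor_le t, Int.lt_floor_add_one t]

end Cayley

end Pool.Agent.H17.GP
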