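import Pool.Agent.H17.GP2
import Pool.Agent.H17.GP3

namespace Pool.Agent.H17.GP
open SimpleGraph

variable {V : Type} (Γ : SimpleGraph V) (G : V → Type) [∀ v, Group (G v)]

/-- `a b c d` (in cyclic order) is an induced 4-cycle. -/
def IsSq (a b c d : V) : Prop :=
  Γ.Adj a b ∧ Γ.Adj b c ∧ Γ.Adj c d ∧ Γ.Adj d a ∧ a ≠ c ∧ b ≠ d ∧ ¬ Γ.Adj a c ∧ ¬ Γ.Adj b d

def SqComplete (Λ : Set V) : Prop :=
  ∀ a b c d, IsSq Γ a b c d → a ∈ Λ → c ∈ Λ → b ∈ Λ ∧ d ∈ Λ

def HasSq (Λ : Set V) : Prop :=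
  ∃ a b c d, IsSq Γ a b c d ∧ a ∈ Λ ∧ b ∈ Λ ∧ c ∈ Λ ∧ d ∈ Λ

def MinSq (Λ : Set V) : Prop := Minimal (fun Λ' => SqComplete Γ Λ' ∧ HasSq Γ Λ') Λ

def gens : Set (GProd Γ G) :=
  {x | (∃ u, ∃ s : G u, x = io Γ G u s) ∨ ∃ Λ, MinSq Γ Λ ∧ x ∈ sub Γ G Λ}

/-- the electrification. -/
def Elec : SimpleGraph (GProd Γ G) := mulCayley (gens Γ G)

def Cone (v : V) : Prop := ∀ u, u ≠ v → Γ.Adj v u

def Shape : Prop :=
  ∃ u v, u ≠ v ∧ ¬ Γ.Adj u v ∧ Nat.card (G u) = 2 ∧ Nat.card (G v) = 2 ∧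
    ∀ w, w ≠ u → w ≠ v → Cone Γ w

variable {Γ G}

lemma gens_top : Subgroup.closure (gens Γ G) = ⊤ := by
  rw [eq_top_iff]
  intro g _
  induction g using right_induction with
  | h1 => exact one_mem _
  | hs g v s ih => exact mul_mem (ih trivial) (Subgroup.subset_closure (Or.inl ⟨v, s, rfl⟩))

lemma cone_comm {w : V} (hw : ¬ Cone Γ w) {c : GProd Γ G} (hc : c ∈ sub Γ G {v | Cone Γ v})
    (s : G w) : c * io Γ G w s = io Γ G w s * c := by
  refine link_comm (sub_mono ?_ hc) s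
  intro v hv
  exact (hv w (by rintro rfl; exact hw hv)).symm

lemma decomp (g : GProd Γ G) :
    ∃ a ∈ sub Γ G {v | ¬ Cone Γ v}, ∃ c ∈ sub Γ G {v | Cone Γ v}, g = a * c := by
  induction g using right_induction with
  | h1 => exact ⟨1, one_mem _, 1, one_mem _, by simp⟩
  | hs g w s ih =>
    obtain ⟨a, ha, c, hc, rfl⟩ := ih
    by_cases hw : Cone Γ w
    · exact ⟨a, ha, c * io Γ G w s, mul_mem hc (io_mem_sub hw s), by rw [mul_assoc]⟩
    · exact ⟨a * io Γ G w s, mul_mem ha (io_mem_sub hw s), c, hc,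
        by rw [mul_assoc, cone_comm hw hc, mul_assoc]⟩

lemma sub_empty {x : GProd Γ G} (hx : x ∈ sub Γ G ∅) : x = 1 := by
  simpa [sub] using hx

lemma cone_finite [Finite V] [∀ v, Finite (G v)] :
    (sub Γ G {v | Cone Γ v} : Set (GProd Γ G)).Finite := by
  have key : ∀ T : Set V, T.Finite → T ⊆ {v | Cone Γ v} →
      (sub Γ G T : Set (GProd Γ G)).Finite := by
    intro T hT
    induction T, hT using Set.Finite.induction_on with
    | empty => intro _; exact (Set.finite_singleton 1).subset (fun x hx => sub_empty hx)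
    | @insert w T hw _ ih =>
      intro hsub
      have hT := ih ((Set.subset_insert _ _).trans hsub)
      have hwc : Cone Γ w := hsub (Set.mem_insert _ _)
      have hle : sub Γ G T ≤ sub Γ G (Γ.neighborSet w) :=
        sub_mono (fun v hv => hwc v (by rintro rfl; exact hw hv))
      refine (((Set.finite_range (io Γ G w)).prod hT).image (fun q => q.1 * q.2)).subset ?_
      intro x hx
      have : ∃ s : G w, ∃ l ∈ sub Γ G T, x = io Γ G w s * l := by
        induction hx using Subgroup.closure_induction with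
        | mem x hx =>
          obtain ⟨u, hu | hu, s, rfl⟩ := hx
          · subst hu; exact ⟨s, 1, one_mem _, by simp⟩
          · exact ⟨1, _, io_mem_sub hu s, by simp⟩
        | one => exact ⟨1, 1, one_mem _, by simp⟩
        | mul x y _ _ hx hy =>
          obtain ⟨s, l, hl, rfl⟩ := hx
          obtain ⟨s', l', hl', rfl⟩ := hy
          refine ⟨s * s', l * l', mul_mem hl hl', ?_⟩
          rw [map_mul, mul_assoc, ← mul_assoc l, link_comm (hle hl)]
          simp only [mul_assoc]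
        | inv x _ hx =>
          obtain ⟨s, l, hl, rfl⟩ := hx
          refine ⟨s⁻¹, l⁻¹, inv_mem hl, ?_⟩
          rw [mul_inv_rev, ← map_inv, link_comm (hle (inv_mem hl))]
      obtain ⟨s, l, hl, rfl⟩ := this
      exact ⟨(io Γ G w s, l), ⟨⟨s, rfl⟩, hl⟩, rfl⟩
  exact key _ (Set.toFinite _) le_rfl

lemma not_ql_of_sub [Finite V] [∀ v, Finite (G v)]
    (h : ∀ a ∈ sub Γ G {v | ¬ Cone Γ v}, a = 1 ∨ a ∈ gens Γ G) : ¬ QuasiLine (Elec Γ G) := by
  obtain ⟨B, hB⟩ := cay_fin (gens_top (Γ := Γ) (G := G)) cone_finite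
  refine not_ql_bdd (1 + B) (fun x y => ?_)
  obtain ⟨a, ha, c, hc, hac⟩ := decomp (x⁻¹ * y)
  have hy : y = x * a * c := by rw [mul_assoc, ← hac]; simp
  have h1 : (mulCayley (gens Γ G)).dist x (x * a) ≤ 1 := by
    rcases h a ha with rfl | h'
    · simp
    · exact (cay_step x h').2
  rw [hy]
  exact (cay_conn gens_top).dist_triangle.trans (add_le_add h1 (hB c hc _))

lemma minsq_nc {x y : V} (hx : ¬ Cone Γ x) (hy : ¬ Cone Γ y) (hxy : ¬ Γᶜ.Reachable x y) :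
    MinSq Γ {v | ¬ Cone Γ v} := by
  have nb : ∀ v, ¬ Cone Γ v → ∃ u, Γᶜ.Adj v u := by
    intro v hv
    simp only [Cone, not_forall] at hv
    obtain ⟨u, hu, h⟩ := hv
    exact ⟨u, (compl_adj _ _ _).2 ⟨fun h => hu h.symm, h⟩⟩
  have nc : ∀ v u, Γᶜ.Adj v u → ¬ Cone Γ v := by
    intro v u h hv
    rw [compl_adj] at h
    exact h.2 (hv u h.1.symm)
  have adj : ∀ a b, ¬ Γᶜ.Reachable a b → Γ.Adj a b := by
    intro a b h
    by_contra h'
    by_cases hab : a = b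
    · subst hab; exact h (Reachable.refl _)
    · exact h ((compl_adj _ _ _).2 ⟨hab, h'⟩).reachable
  have sq : ∀ a c b d, Γᶜ.Adj a c → Γᶜ.Adj b d → ¬ Γᶜ.Reachable a b → IsSq Γ a b c d := by
    intro a c b d hac hbd hab
    refine ⟨adj _ _ hab, adj _ _ (fun h => hab (hac.reachable.trans h.symm)),
      adj _ _ (fun h => hab (hac.reachable.trans (h.trans hbd.reachable.symm))),
      adj _ _ (fun h => hab (h.symm.trans hbd.reachable.symm)), hac.ne, hbd.ne,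
      ((compl_adj _ _ _).1 hac).2, ((compl_adj _ _ _).1 hbd).2⟩
  have sqc : ∀ a b c d, IsSq Γ a b c d → Γᶜ.Adj a c ∧ Γᶜ.Adj b d := by
    rintro a b c d ⟨-, -, -, -, h1, h2, h3, h4⟩
    exact ⟨(compl_adj _ _ _).2 ⟨h1, h3⟩, (compl_adj _ _ _).2 ⟨h2, h4⟩⟩
  refine ⟨⟨?_, ?_⟩, ?_⟩
  · intro a b c d h _ _
    exact ⟨nc _ _ (sqc _ _ _ _ h).2, nc _ _ (sqc _ _ _ _ h).2.symm⟩
  · obtain ⟨x', hx'⟩ := nb x hx
    obtain ⟨y', hy'⟩ := nb y hy
    exact ⟨x, y, x', y', sq _ _ _ _ hx' hy' hxy, hx, hy, nc _ _ hx'.symm, nc _ _ hy'.symm⟩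
  · rintro Λ ⟨hΛ, a, b, c, d, habcd, ha, -, hc, -⟩ -
    have hac := (sqc _ _ _ _ habcd).1
    have far : ∀ a c, Γᶜ.Adj a c → a ∈ Λ → c ∈ Λ → ∀ p q, Γᶜ.Adj p q → ¬ Γᶜ.Reachable a p →
        p ∈ Λ ∧ q ∈ Λ := fun a c hac ha hc p q hpq hap => hΛ _ _ _ _ (sq _ _ _ _ hac hpq hap) ha hc
    obtain ⟨z, hz, haz⟩ : ∃ z, ¬ Cone Γ z ∧ ¬ Γᶜ.Reachable a z := by
      by_cases h : Γᶜ.Reachable a x
      · exact ⟨y, hy, fun h' => hxy (h.symm.trans h')⟩
      · exact ⟨x, hx, h⟩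
    obtain ⟨z', hz'⟩ := nb z hz
    obtain ⟨hz1, hz2⟩ := far a c hac ha hc z z' hz' haz
    intro v hv
    obtain ⟨v', hv'⟩ := nb v hv
    by_cases h : Γᶜ.Reachable a v
    · exact (far z z' hz' hz1 hz2 v v' hv' (fun h' => haz (h.trans h'.symm))).1
    · exact (far a c hac ha hc v v' hv' h).1

/-- `a` maps elements beginning with a `w`-letter to elements beginning with a `v`-letter. -/
def Ch (v w : V) (a : GProd Γ G) : Prop := ∀ y, rho w y ≠ 1 → rho v (a * y) ≠ 1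

lemma Ch.trans {v w z : V} {a b : GProd Γ G} (h1 : Ch v w a) (h2 : Ch w z b) : Ch v z (a * b) :=
  fun y hy => by rw [mul_assoc]; exact h1 _ (h2 y hy)

lemma rho_nonadj {v w : V} (h : Γᶜ.Adj v w) (s : G v) {y : GProd Γ G} (hy : rho w y ≠ 1) :
    rho v (io Γ G v s * y) = s := by
  rw [compl_adj] at h
  rw [rho_same, (rho_excl h.1 h.2 y).resolve_right hy, mul_one]

lemma ch_reach [∀ v, Nontrivial (G v)] {v w : V} (h : Γᶜ.Reachable v w) :
    ∃ a : GProd Γ G, Ch v w a := by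
  obtain ⟨p⟩ := h
  induction p with
  | nil => exact ⟨1, fun y hy => by rwa [one_mul]⟩
  | @cons a b c hab p ih =>
    obtain ⟨g, hg⟩ := ih
    obtain ⟨s, hs⟩ := exists_ne (1 : G a)
    exact ⟨io Γ G a s * g, Ch.trans (fun y hy => by rwa [rho_nonadj hab s hy]) hg⟩

lemma contracting [Finite V] [∀ v, Nontrivial (G v)] (v : V)
    (h : ∀ w, ¬ Cone Γ w → Γᶜ.Reachable v w) :
    ∃ g : GProd Γ G, Ch v v g ∧ ∀ w, ¬ Cone Γ w → ∃ a b, g = a * b ∧ Ch v w a ∧ Ch w v b := by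
  have key : ∀ T : Set V, T.Finite → (∀ w ∈ T, ¬ Cone Γ w) →
      ∃ g : GProd Γ G, Ch v v g ∧ ∀ w ∈ T, ∃ a b, g = a * b ∧ Ch v w a ∧ Ch w v b := by
    intro T hT
    induction T, hT using Set.Finite.induction_on with
    | empty => intro _; exact ⟨1, fun y hy => by rwa [one_mul], by simp⟩
    | @insert w T _ _ ih =>
      intro hsub
      obtain ⟨g, hg, hg'⟩ := ih (fun w hw => hsub w (Set.mem_insert_of_mem _ hw))
      obtain ⟨a, ha⟩ := ch_reach (G := G) (h w (hsub w (Set.mem_insert _ _)))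
      obtain ⟨b, hb⟩ := ch_reach (G := G) (h w (hsub w (Set.mem_insert _ _))).symm
      refine ⟨g * (a * b), hg.trans (ha.trans hb), ?_⟩
      rintro w' (rfl | hw')
      · exact ⟨g * a, b, by rw [mul_assoc], hg.trans ha, hb⟩
      · obtain ⟨a', b', rfl, ha', hb'⟩ := hg' w' hw'
        exact ⟨a', b' * (a * b), by rw [mul_assoc], ha', hb'.trans (ha.trans hb)⟩
  exact key {w | ¬ Cone Γ w} (Set.toFinite _) (fun w hw => hw)

/-- the translates by `k` and `k'` of the set of elements beginning with `v` are disjoint. -/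
def Dis (v : V) (k k' : GProd Γ G) : Prop := ∀ x y, rho v x ≠ 1 → rho v y ≠ 1 → k * x ≠ k' * y

lemma Dis.symm {v : V} {k k' : GProd Γ G} (h : Dis v k k') : Dis v k' k :=
  fun x y hx hy e => h y x hy hx e.symm

lemma not_ql_tri [Finite V] [∀ v, Nontrivial (G v)] (v : V)
    (h : ∀ w, ¬ Cone Γ w → Γᶜ.Reachable v w)
    (hg : ∀ s ∈ gens Γ G, ∃ Λ w, ¬ Cone Γ w ∧ w ∉ Λ ∧ s ∈ sub Γ G Λ) (hv : ¬ Cone Γ v)
    (k1 k2 k3 : GProd Γ G) (h12 : Dis v k1 k2) (h13 : Dis v k1 k3) (h23 : Dis v k2 k3) :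
    ¬ QuasiLine (Elec Γ G) := by
  obtain ⟨g, hgv, hgw⟩ := contracting (G := G) v h
  obtain ⟨s, hs⟩ := exists_ne (1 : G v)
  let k : Fin 3 → GProd Γ G := ![k1, k2, k3]
  have hk : ∀ i j, i ≠ j → Dis v (k i) (k j) := by
    intro i j hij
    fin_cases i <;> fin_cases j <;>
      first | exact absurd rfl hij | exact h12 | exact h13 | exact h23 | exact h12.symm
            | exact h13.symm | exact h23.symm
  have hconn := cay_conn (gens_top (Γ := Γ) (G := G))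
  obtain ⟨B, hB⟩ := cay_fin (gens_top (Γ := Γ) (G := G))
    ((Set.finite_range (fun i => k i * io Γ G v s)).insert
      ((io Γ G v s)⁻¹ * g * io Γ G v s))
  have hpow : ∀ m : ℕ, rho v (g ^ m * io Γ G v s) ≠ 1 := by
    intro m
    induction m with
    | zero => rwa [pow_zero, one_mul, rho_io]
    | succ m ih => rw [pow_succ', mul_assoc]; exact hgv _ ih
  have step : ∀ (c : GProd Γ G) (Λ : Set V) (w : V), ¬ Cone Γ w → w ∉ Λ → ∀ l ∈ sub Γ G Λ,
      ∀ (n : ℕ) x, rho v ((c * g ^ (n + 1))⁻¹ * (x * l)) ≠ 1 → rho v ((c * g ^ n)⁻¹ * x) ≠ 1 := by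
    intro c Λ w hw hwΛ l hl n x hx
    obtain ⟨a, b, hab, ha, hb⟩ := hgw w hw
    have h1 := hb _ hx
    have e1 : b * ((c * g ^ (n + 1))⁻¹ * (x * l)) = (a⁻¹ * ((c * g ^ n)⁻¹ * x)) * l := by
      rw [pow_succ]
      generalize g ^ n = q
      rw [hab]; group
    rw [e1, rho_sub hwΛ hl] at h1
    have h2 := ha _ h1
    rwa [mul_inv_cancel_left] at h2
  refine not_ql_tripod 1 (fun i m => k i * (g ^ m * io Γ G v s)) B ?_ ?_ ?_
  · intro i
    have := hB (k i * io Γ G v s) (Set.mem_insert_of_mem _ ⟨i, rfl⟩) 1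
    rw [dist_comm]
    simpa [Elec] using this
  · intro i m
    have := hB _ (Set.mem_insert _ _) (k i * (g ^ m * io Γ G v s))
    have e : k i * (g ^ m * io Γ G v s) * ((io Γ G v s)⁻¹ * g * io Γ G v s)
        = k i * (g ^ (m + 1) * io Γ G v s) := by rw [pow_succ]; group
    rw [e, dist_comm] at this
    exact this
  · intro i j hij m n
    refine cay_lower gens_top (fun n => {x | rho v ((k j * g ^ n)⁻¹ * x) ≠ 1}) ?_ ?_ ?_ ?_
    · intro n x hx hx'
      exact hx (step (k j) ∅ v hv (by simp) 1 (one_mem _) n x (by rwa [mul_one]))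
    · intro n x t ht hx hx'
      rcases ht with ht | ht
      · obtain ⟨Λ, w, hw, hwΛ, hl⟩ := hg t ht
        exact hx (step (k j) Λ w hw hwΛ t hl n x hx')
      · obtain ⟨Λ, w, hw, hwΛ, hl⟩ := hg _ ht
        exact hx (step (k j) Λ w hw hwΛ t (by simpa using hl) n x hx')
    · intro hx
      refine hk i j hij _ _ (hpow m) hx ?_
      simp
    · have : (k j * g ^ n)⁻¹ * (k j * (g ^ n * io Γ G v s)) = io Γ G v s := by group
      simp only [Set.mem_ofPred_eq]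
      rwa [this, rho_io]

end Pool.Agent.H17.GP
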