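import Pool.Agent.H17.GP4

namespace Pool.Agent.H17.GP
open SimpleGraph

variable {V : Type} {Γ : SimpleGraph V} {G : V → Type} [∀ v, Group (G v)]

lemma three_of_card {A : Type} [Group A] [Nontrivial A] (h : Nat.card A ≠ 2) :
    ∃ s s' : A, s ≠ 1 ∧ s' ≠ 1 ∧ s ≠ s' := by
  by_contra hc
  push Not at hc
  obtain ⟨s, hs⟩ := exists_ne (1 : A)
  exact h ((Nat.card_eq_two_iff' (1 : A)).2 ⟨s, hs, fun y hy => hc y s hy hs⟩)

lemma dis_same {u v : V} (h : Γᶜ.Adj u v) {s s' : G u} (hs : s ≠ s') :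
    Dis v (io Γ G u s) (io Γ G u s') := by
  intro x y hx hy e
  have h1 := rho_nonadj h s hx
  rw [e, rho_nonadj h s' hy] at h1
  exact hs h1.symm

lemma dis_one {u v : V} (h : Γᶜ.Adj u v) {s : G u} (hs : s ≠ 1) :
    Dis v (1 : GProd Γ G) (io Γ G u s) := by
  have := dis_same (Γ := Γ) h hs.symm
  rwa [map_one] at this

lemma dis_diff {a b c : V} (hab : Γᶜ.Adj a b) (hcb : Γᶜ.Adj c b) (hac : a ≠ c) {s : G a}
    {t : G c} (hs : s ≠ 1) (ht : t ≠ 1) : Dis b (io Γ G a s) (io Γ G c t) := by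
  intro x y hx hy e
  have h1 := rho_nonadj hcb t hy
  rw [← e] at h1
  by_cases h : Γ.Adj c a
  · rw [rho_adj h] at h1
    have := rho_nonadj hcb 1 hx
    rw [map_one, one_mul, h1] at this
    exact ht this
  · rcases rho_excl hac.symm h (io Γ G a s * x) with h2 | h2
    · exact ht (h1.symm.trans h2)
    · rw [rho_nonadj hab s hx] at h2; exact hs h2

lemma nc_of_adj {v u : V} (h : Γᶜ.Adj v u) : ¬ Cone Γ v := by
  intro hv
  rw [compl_adj] at h
  exact h.2 (hv u h.1.symm)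

lemma nb_of_nc {v : V} (hv : ¬ Cone Γ v) : ∃ u, Γᶜ.Adj v u := by
  simp only [Cone, not_forall] at hv
  obtain ⟨u, hu, h⟩ := hv
  exact ⟨u, (compl_adj _ _ _).2 ⟨fun h => hu h.symm, h⟩⟩

lemma path_of_reach {u v w : V} (huv : Γᶜ.Adj u v) (hwu : w ≠ u) (hwv : w ≠ v)
    (h : Γᶜ.Reachable u w) : ∃ a b c, a ≠ c ∧ Γᶜ.Adj a b ∧ Γᶜ.Adj c b := by
  by_contra hc
  push Not at hc
  have key : ∀ {x y : V} (p : Γᶜ.Walk x y), (x = u ∨ x = v) → (y = u ∨ y = v) := by
    intro x y p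
    induction p with
    | nil => exact id
    | @cons a b c hab p ih =>
      rintro (rfl | rfl)
      · refine ih (Or.inr ?_)
        by_contra hb
        exact hc b a v hb hab.symm huv.symm
      · refine ih (Or.inl ?_)
        by_contra hb
        exact hc b a u hb hab.symm huv
  obtain ⟨p⟩ := h
  rcases key p (Or.inl rfl) with h | h
  · exact hwu h
  · exact hwv h

lemma shape_cases [∀ v, Nontrivial (G v)] {u v : V} (huv : Γᶜ.Adj u v) (h : ¬ Shape Γ G) :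
    (∃ a b, Γᶜ.Adj a b ∧ ∃ s s' : G a, s ≠ 1 ∧ s' ≠ 1 ∧ s ≠ s') ∨
      ∃ w, w ≠ u ∧ w ≠ v ∧ ¬ Cone Γ w := by
  by_cases hu : Nat.card (G u) = 2
  · by_cases hv : Nat.card (G v) = 2
    · right
      by_contra hc
      push Not at hc
      exact h ⟨u, v, huv.ne, ((compl_adj _ _ _).1 huv).2, hu, hv, hc⟩
    · exact Or.inl ⟨v, u, huv.symm, three_of_card hv⟩
  · exact Or.inl ⟨u, v, huv, three_of_card hu⟩

theorem shape_of_ql [Finite V] [∀ v, Finite (G v)] [∀ v, Nontrivial (G v)]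
    (hq : QuasiLine (Elec Γ G)) : Shape Γ G := by
  by_contra hsh
  by_cases h0 : ∃ u, ¬ Cone Γ u
  swap
  · push Not at h0
    refine not_ql_of_sub (fun a ha => Or.inl (sub_empty ?_)) hq
    rwa [show {v | ¬ Cone Γ v} = ∅ by ext; simp [h0]] at ha
  by_cases h1 : ∃ Λ, MinSq Γ Λ ∧ {v | ¬ Cone Γ v} ⊆ Λ
  · obtain ⟨Λ, hΛ, hsub⟩ := h1
    exact not_ql_of_sub (fun a ha => Or.inr (Or.inr ⟨Λ, hΛ, sub_mono hsub ha⟩)) hq
  have hre : ∀ x y, ¬ Cone Γ x → ¬ Cone Γ y → Γᶜ.Reachable x y := by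
    intro x y hx hy
    by_contra hxy
    exact h1 ⟨_, minsq_nc hx hy hxy, le_rfl⟩
  obtain ⟨u, hu⟩ := h0
  obtain ⟨v, huv⟩ := nb_of_nc hu
  have hg : ∀ s ∈ gens Γ G, ∃ Λ w, ¬ Cone Γ w ∧ w ∉ Λ ∧ s ∈ sub Γ G Λ := by
    rintro s (⟨z, t, rfl⟩ | ⟨Λ, hΛ, hs⟩)
    · by_cases hz : u = z
      · exact ⟨{z}, v, nc_of_adj huv.symm, by rw [← hz]; exact huv.ne', io_mem_sub (Set.mem_singleton z) t⟩
      · exact ⟨{z}, u, hu, hz, io_mem_sub (Set.mem_singleton z) t⟩
    · have : ¬ {v | ¬ Cone Γ v} ⊆ Λ := fun h => h1 ⟨Λ, hΛ, h⟩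
      obtain ⟨w, hw, hwΛ⟩ := Set.not_subset.1 this
      exact ⟨Λ, w, hw, hwΛ, hs⟩
  rcases shape_cases huv hsh with ⟨a, b, hab, s, s', hs, hs', hss⟩ | ⟨w, hwu, hwv, hw⟩
  · have hb := nc_of_adj hab.symm
    exact not_ql_tri b (fun w hw => hre b w hb hw) hg hb 1 _ _ (dis_one hab hs) (dis_one hab hs')
      (dis_same hab hss) hq
  · obtain ⟨a, b, c, hac, hab, hcb⟩ := path_of_reach huv hwu hwv (hre u w hu hw)
    have hb := nc_of_adj hab.symm
    obtain ⟨s, hs⟩ := exists_ne (1 : G a)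
    obtain ⟨t, ht⟩ := exists_ne (1 : G c)
    exact not_ql_tri b (fun w hw => hre b w hb hw) hg hb 1 _ _ (dis_one hab hs) (dis_one hcb ht)
      (dis_diff hab hcb hac hs ht) hq

lemma rho_pow {u v : V} (h : Γᶜ.Adj u v) {s : G u} {t : G v} (hs : s ≠ 1) (ht : t ≠ 1) (m : ℕ) :
    rho v ((io Γ G u s * io Γ G v t) ^ m) = 1 ∧
      rho u ((io Γ G u s * io Γ G v t) ^ (m + 1)) = s := by
  have st : ∀ m : ℕ, rho v ((io Γ G u s * io Γ G v t) ^ m) = 1 →
      rho u ((io Γ G u s * io Γ G v t) ^ (m + 1)) = s := by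
    intro m hm
    rw [pow_succ', mul_assoc]
    exact rho_nonadj h s (by rwa [rho_same, hm, mul_one])
  induction m with
  | zero => exact ⟨by rw [pow_zero, rho_one], st 0 (by rw [pow_zero, rho_one])⟩
  | succ m ih =>
    have h' := (compl_adj _ _ _).1 h
    have := (rho_excl h'.1 h'.2 ((io Γ G u s * io Γ G v t) ^ (m + 1))).resolve_left
      (by rw [ih.2]; exact hs)
    exact ⟨this, st _ this⟩

lemma rho_zpow {u v : V} (h : Γᶜ.Adj u v) {s : G u} {t : G v} (hs : s ≠ 1) (ht : t ≠ 1) (m : ℤ) :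
    rho u ((io Γ G u s * io Γ G v t) ^ m) = if 0 < m then s else 1 := by
  split_ifs with hm
  · obtain ⟨n, rfl⟩ : ∃ n : ℕ, m = ((n + 1 : ℕ) : ℤ) := ⟨(m - 1).toNat, by omega⟩
    rw [zpow_natCast]; exact (rho_pow h hs ht n).2
  · obtain ⟨n, rfl⟩ : ∃ n : ℕ, m = -(n : ℤ) := ⟨(-m).toNat, by omega⟩
    rw [zpow_neg, zpow_natCast, ← inv_pow, mul_inv_rev, ← map_inv, ← map_inv]
    exact (rho_pow h.symm (inv_ne_one.2 ht) (inv_ne_one.2 hs) n).1

lemma inf_order {u v : V} (h : Γᶜ.Adj u v) {s : G u} {t : G v} (hs : s ≠ 1) (ht : t ≠ 1) :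
    ¬ IsOfFinOrder (io Γ G u s * io Γ G v t) := by
  intro hf
  obtain ⟨n, hn, he⟩ := isOfFinOrder_iff_pow_eq_one.1 hf
  obtain ⟨m, rfl⟩ : ∃ m, n = m + 1 := ⟨n - 1, by omega⟩
  have := (rho_pow h hs ht m).2
  rw [he, rho_one] at this
  exact hs this.symm

open Classical in
noncomputable def retr (Λ : Set V) : GProd Γ G →* GProd Γ G :=
  glift (fun z => if z ∈ Λ then io Γ G z else 1) (by
    intro a b hab g k
    by_cases ha : a ∈ Λ <;> by_cases hb : b ∈ Λ <;> simp [ha, hb, io_comm hab])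

lemma retr_mem {Λ : Set V} {z : V} (hz : z ∈ Λ) (s : G z) :
    retr Λ (io Γ G z s) = io Γ G z s := by simp [retr, hz]

lemma retr_not_mem {Λ : Set V} {z : V} (hz : z ∉ Λ) (s : G z) :
    retr Λ (io Γ G z s) = 1 := by simp [retr, hz]

theorem shape_of_vc [Finite V] [∀ v, Finite (G v)] [∀ v, Nontrivial (G v)]
    (hi : Infinite (GProd Γ G)) (hvc : VirtCyc (GProd Γ G)) : Shape Γ G := by
  by_contra hsh
  by_cases h0 : ∃ u, ¬ Cone Γ u
  swap
  · push Not at h0
    have : (Set.univ : Set (GProd Γ G)).Finite := by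
      refine cone_finite.subset (fun g _ => ?_)
      obtain ⟨a, ha, c, hc, rfl⟩ := decomp g
      rw [show {v | ¬ Cone Γ v} = ∅ by ext; simp [h0]] at ha
      rwa [sub_empty ha, one_mul]
    exact Set.infinite_univ this
  obtain ⟨u, hu⟩ := h0
  obtain ⟨v, huv⟩ := nb_of_nc hu
  rcases shape_cases huv hsh with ⟨a, b, hab, s, s', hs, hs', hss⟩ | ⟨w, hwu, hwv, hw⟩
  · obtain ⟨t, ht⟩ := exists_ne (1 : G b)
    obtain ⟨m, n, hm, -, e⟩ := common_pow hvc (inf_order hab hs ht) (inf_order hab hs' ht)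
    have key : ∀ m n : ℤ, 0 < m → (io Γ G a s * io Γ G b t) ^ m = (io Γ G a s' * io Γ G b t) ^ n →
        False := by
      intro m n hm e
      have h1 := rho_zpow hab hs ht m
      rw [e, rho_zpow hab hs' ht n, if_pos hm] at h1
      split_ifs at h1
      · exact hss h1.symm
      · exact hs h1.symm
    rcases lt_or_gt_of_ne hm with h | h
    · exact key (-m) (-n) (by omega) (by rw [zpow_neg, zpow_neg, e])
    · exact key m n h e
  · obtain ⟨q, hwq⟩ := nb_of_nc hw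
    obtain ⟨s, hs⟩ := exists_ne (1 : G u)
    obtain ⟨t, ht⟩ := exists_ne (1 : G v)
    obtain ⟨s', hs'⟩ := exists_ne (1 : G w)
    obtain ⟨t', ht'⟩ := exists_ne (1 : G q)
    obtain ⟨m, n, hm, -, e⟩ := common_pow hvc (inf_order huv hs ht) (inf_order hwq hs' ht')
    have e2 := congrArg (retr {u, v}) e
    rw [map_zpow, map_zpow, map_mul, map_mul, retr_mem (by simp), retr_mem (by simp),
      retr_not_mem (by simp [hwu, hwv]), one_mul] at e2
    have hf : IsOfFinOrder (retr {u, v} (io Γ G q t')) :=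
      MonoidHom.isOfFinOrder _ (MonoidHom.isOfFinOrder _ (isOfFinOrder_of_finite t'))
    have h2 : IsOfFinOrder ((io Γ G u s * io Γ G v t) ^ m) := by rw [e2]; exact hf.zpow
    rw [isOfFinOrder_iff_zpow_eq_one] at h2
    obtain ⟨k, hk, h3⟩ := h2
    exact inf_order huv hs ht (isOfFinOrder_iff_zpow_eq_one.2
      ⟨m * k, mul_ne_zero hm hk, by rw [zpow_mul, h3]⟩)

theorem vc_of_shape [Finite V] [∀ v, Finite (G v)] (h : Shape Γ G) :
    Infinite (GProd Γ G) ∧ VirtCyc (GProd Γ G) := by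
  obtain ⟨u, v, huv, hn, hu, hv, hc⟩ := h
  have hadj : Γᶜ.Adj u v := (compl_adj _ _ _).2 ⟨huv, hn⟩
  obtain ⟨s, hs, hs'⟩ := (Nat.card_eq_two_iff' (1 : G u)).1 hu
  obtain ⟨t, ht, ht'⟩ := (Nat.card_eq_two_iff' (1 : G v)).1 hv
  have hss : s * s = 1 := by
    have : s⁻¹ = s := hs' _ (inv_ne_one.2 hs)
    nth_rewrite 1 [← this]; simp
  have hσ : io Γ G u s * io Γ G u s = 1 := by rw [← map_mul, hss, map_one]
  have htt : t * t = 1 := by
    have : t⁻¹ = t := ht' _ (inv_ne_one.2 ht)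
    nth_rewrite 1 [← this]; simp
  have hτ : io Γ G v t * io Γ G v t = 1 := by rw [← map_mul, htt, map_one]
  have ho := inf_order hadj hs ht
  refine ⟨Infinite.of_injective _ (injective_zpow_iff_not_isOfFinOrder.2 ho), ?_⟩
  have hfin := cone_finite (Γ := Γ) (G := G)
  refine vc_of_cover (io Γ G u s * io Γ G v t)
    (hfin.union (hfin.image (fun c => io Γ G u s * c))) (fun g => ?_)
  have : ∃ k : ℤ, ∃ c ∈ sub Γ G {v | Cone Γ v}, g = (io Γ G u s * io Γ G v t) ^ k * c ∨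
      g = (io Γ G u s * io Γ G v t) ^ k * (io Γ G u s * c) := by
    induction g using right_induction with
    | h1 => exact ⟨0, 1, one_mem _, Or.inl (by simp)⟩
    | hs g w r ih =>
      obtain ⟨k, c, hc', hg⟩ := ih
      by_cases hr : r = 1
      · exact ⟨k, c, hc', by rwa [hr, map_one, mul_one]⟩
      by_cases hwu : w = u
      · subst hwu
        obtain rfl : r = s := hs' r hr
        have hcm := cone_comm (nc_of_adj hadj) hc' r
        refine ⟨k, c, hc', ?_⟩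
        rcases hg with rfl | rfl
        · right; rw [mul_assoc, hcm]
        · left; rw [mul_assoc, mul_assoc (io Γ G w r) c, hcm, ← mul_assoc (io Γ G w r), hσ, one_mul]
      by_cases hwv : w = v
      · subst hwv
        obtain rfl : r = t := ht' r hr
        have hcm := cone_comm (nc_of_adj hadj.symm) hc' r
        rcases hg with rfl | rfl
        · refine ⟨k - 1, c, hc', Or.inr ?_⟩
          have e : (io Γ G u s * io Γ G w r)⁻¹ * io Γ G u s = io Γ G w r := by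
            rw [mul_inv_rev, inv_mul_cancel_right]
            exact inv_eq_of_mul_eq_one_right hτ
          rw [mul_assoc, hcm, zpow_sub_one, mul_assoc, ← mul_assoc _ (io Γ G u s) c, e]
        · refine ⟨k + 1, c, hc', Or.inl ?_⟩
          rw [mul_assoc, mul_assoc (io Γ G u s) c, hcm, zpow_add_one]
          simp only [mul_assoc]
      · refine ⟨k, c * io Γ G w r, mul_mem hc' (io_mem_sub (hc w hwu hwv) r), ?_⟩
        rcases hg with rfl | rfl
        · left; rw [mul_assoc]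
        · right; simp only [mul_assoc]
  obtain ⟨k, c, hc', hg | hg⟩ := this
  · exact ⟨k, c, Or.inl hc', hg⟩
  · exact ⟨k, _, Or.inr ⟨c, hc', rfl⟩, hg⟩

theorem ql_of_shape [Finite V] [∀ v, Finite (G v)] (h : Shape Γ G) : QuasiLine (Elec Γ G) := by
  obtain ⟨hi, hvc⟩ := vc_of_shape h
  obtain ⟨u, v, huv, hn, -, -, hc⟩ := h
  refine ql_of_vc gens_top ?_ hvc
  refine (Set.finite_iUnion (fun u => Set.finite_range (io Γ G u))).subset ?_
  rintro x (⟨z, s, rfl⟩ | ⟨Λ, ⟨⟨-, a, b, c, d, ⟨hab, hbc, -, -, hac, hbd, nac, nbd⟩, -⟩, -⟩, -⟩)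
  · exact Set.mem_iUnion.2 ⟨z, s, rfl⟩
  · exfalso
    have k : ∀ x y, x ≠ y → ¬ Γ.Adj x y → x = u ∨ x = v := by
      intro x y hxy hn
      by_contra hx
      push Not at hx
      exact hn (hc x hx.1 hx.2 y hxy.symm)
    have ha := k a c hac nac
    have hb := k b d hbd nbd
    have hc' := k c a hac.symm (fun h => nac h.symm)
    have h1 := hab.ne
    have h2 := hbc.ne
    rcases ha with rfl | rfl <;> rcases hb with rfl | rfl <;> rcases hc' with rfl | rfl <;>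
      simp_all

end Pool.Agent.H17.GP
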