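import Mathlib

namespace Pool.Agent.H17.Gr
open MvPolynomial Set Filter Topology

abbrev V : Type := Fin 6 → ℝ

theorem key_aux {E : Type} [NormedAddCommGroup E] [NormedSpace ℝ E] (φ : E → V)
    (hφ : ∀ i z, AnalyticAt ℝ (fun z => φ z i) z) (f : MvPolynomial (Fin 6) ℝ) (z₀ : E)
    (hz : ∀ᶠ z in 𝓝 z₀, aeval (φ z) f = 0) (z : E) : aeval (φ z) f = 0 := by
  have ha : AnalyticOnNhd ℝ (fun z => aeval (φ z) f) univ :=
    fun z _ => AnalyticAt.aeval_mvPolynomial (fun i => hφ i z) f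
  exact ha.eqOn_zero_of_preconnected_of_eventuallyEq_zero isPreconnected_univ (mem_univ z₀) hz
    (mem_univ z)

theorem key_prime {E : Type} [NormedAddCommGroup E] [NormedSpace ℝ E] (φ : E → V)
    (hφ : ∀ i z, AnalyticAt ℝ (fun z => φ z i) z) :
    (vanishingIdeal ℝ (range φ)).IsPrime := by
  refine ⟨?_, ?_⟩
  · intro h
    have : (1 : MvPolynomial (Fin 6) ℝ) ∈ vanishingIdeal ℝ (range φ) := h ▸ Submodule.mem_top
    have := this (φ 0) ⟨0, rfl⟩
    simp at this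
  · intro f g hfg
    by_cases hf : f ∈ vanishingIdeal ℝ (range φ)
    · exact Or.inl hf
    right
    simp only [mem_vanishingIdeal_iff, not_forall] at hf
    obtain ⟨_, ⟨z₀, rfl⟩, hz₀⟩ := hf
    have hc : ContinuousAt (fun z => aeval (φ z) f) z₀ :=
      (AnalyticAt.aeval_mvPolynomial (fun i => hφ i z₀) f).continuousAt
    have h1 : ∀ᶠ z in 𝓝 z₀, aeval (φ z) f ≠ 0 := hc.eventually_ne hz₀
    rintro _ ⟨z, rfl⟩
    refine key_aux φ hφ g z₀ (h1.mono fun w hw => ?_) z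
    have := hfg (φ w) ⟨w, rfl⟩
    rw [map_mul] at this
    exact (mul_eq_zero.1 this).resolve_left hw

theorem key_dense {E : Type} [NormedAddCommGroup E] [NormedSpace ℝ E] (φ : E → V)
    (hφ : ∀ i z, AnalyticAt ℝ (fun z => φ z i) z) (O : Set V) (hO : IsOpen O)
    (hne : (range φ ∩ O).Nonempty) :
    vanishingIdeal ℝ (range φ ∩ O) ≤ vanishingIdeal ℝ (range φ) := by
  intro f hf
  obtain ⟨_, ⟨z₀, rfl⟩, hz₀⟩ := hne
  have hc : ContinuousAt φ z₀ := continuousAt_pi.2 fun i => (hφ i z₀).continuousAt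
  have h1 : ∀ᶠ z in 𝓝 z₀, φ z ∈ O := hc.preimage_mem_nhds (hO.mem_nhds hz₀)
  rintro _ ⟨z, rfl⟩
  exact key_aux φ hφ f z₀ (h1.mono fun w hw => hf _ ⟨⟨w, rfl⟩, hw⟩) z

/-- minimal primes of a finite intersection of pairwise incomparable primes -/
theorem minPrimes {R ι : Type} [CommRing R] [Fintype ι] (I : Ideal R) (P : ι → Ideal R)
    (good : ι → Prop) (hP : ∀ k, good k → (P k).IsPrime) (h1 : ∀ k, good k → I ≤ P k)
    (h2 : ∀ f, (∀ k, good k → f ∈ P k) → f ∈ I)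
    (h3 : ∀ k j, good k → good j → P k ≤ P j → k = j) :
    I.minimalPrimes = {J | ∃ k, good k ∧ J = P k} := by
  classical
  have hex : ∀ J : Ideal R, J.IsPrime → I ≤ J → ∃ k, good k ∧ P k ≤ J := by
    intro J hJ hIJ
    have : (Finset.univ.filter good).inf P ≤ J := by
      refine le_trans ?_ hIJ
      intro f hf
      apply h2
      intro k hk
      exact (Finset.inf_le (f := P) (by simpa using hk) : _ ≤ P k) hf
    obtain ⟨k, hk, hkJ⟩ := hJ.inf_le'.1 this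
    exact ⟨k, by simpa using hk, hkJ⟩
  ext J
  constructor
  · intro hJ
    obtain ⟨k, hk, hkJ⟩ := hex J hJ.1.1 hJ.1.2
    exact ⟨k, hk, le_antisymm (hJ.2 ⟨hP k hk, h1 k hk⟩ hkJ) hkJ⟩
  · rintro ⟨k, hk, rfl⟩
    refine ⟨⟨hP k hk, h1 k hk⟩, ?_⟩
    intro J hJ hJk
    obtain ⟨j, hj, hjJ⟩ := hex J hJ.1 hJ.2
    obtain rfl := h3 j k hj hk (hjJ.trans hJk)
    exact hjJ

theorem rank1 (x y z w : ℝ) (h : x * w = y * z) :
    ∃ a b c d : ℝ, x = a * c ∧ y = a * d ∧ z = b * c ∧ w = b * d := by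
  by_cases hx : x = 0
  · subst hx
    have : y * z = 0 := by linarith
    rcases mul_eq_zero.1 this with rfl | rfl
    · exact ⟨0, 1, z, w, by simp, by simp, by simp, by simp⟩
    · exact ⟨y, w, 0, 1, by simp, by simp, by simp, by simp⟩
  · refine ⟨x, z, 1, y / x, by simp, by field_simp, by simp, ?_⟩
    field_simp
    linarith

end Pool.Agent.H17.Gr
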