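import Pool.Agent.H17.Gr1

namespace Pool.Agent.H17.Gr
open MvPolynomial Set Filter Topology

/-! Coordinates `p 0, ..., p 5` are the Plucker coordinates `p12, p13, p23, p14, p24, p34`.
Everything takes place in the affine chart `sum p = 1` of the real projective 5-space, which
contains the positive simplex. -/

/-- The Plucker quadric `p12 p34 - p13 p24 + p14 p23`. -/
def plucker (p : V) : ℝ := p 0 * p 5 - p 1 * p 4 + p 3 * p 2

/-- The affine chart `sum p = 1`. -/
def chart : Set V := {p | ∑ i, p i = 1}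

/-- The real points of `Gr(2,4)` in the chart. -/
def Gr : Set V := {p | p ∈ chart ∧ plucker p = 0}

/-- The coefficient vectors of the `6 + m` linear forms `p_ij` and `h_1, ..., h_m`. -/
def form {m : ℕ} (h : Fin m → V) : Fin 6 ⊕ Fin m → V := Sum.elim (fun i => Pi.single i 1) h

/-- The polytope `P`: all the `6 + m` forms are nonnegative. -/
def poly {m : ℕ} (h : Fin m → V) : Set V := {p | p ∈ chart ∧ ∀ k, 0 ≤ form h k ⬝ᵥ p}

/-- `S = P ∩ Gr(2,4)`. -/
def S {m : ℕ} (h : Fin m → V) : Set V := poly h ∩ Gr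

/-- `S` as a subset of the space `Gr`. -/
def T {m : ℕ} (h : Fin m → V) : Set Gr := Subtype.val ⁻¹' S h

/-- The boundary: `S` minus its interior in `Gr`. -/
def bdry {m : ℕ} (h : Fin m → V) : Set V := Subtype.val '' (T h \ interior (T h))

/-- The affine cone over a subset of the chart. -/
def cone (B : Set V) : Set V := {x | ∃ t : ℝ, ∃ p ∈ B, x = t • p}

/-- The affine cone over the hyperplane section of `Gr(2,4)` by the form number `k`. -/
def hyp {m : ℕ} (h : Fin m → V) (k : Fin 6 ⊕ Fin m) : Set V :=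
  {x | plucker x = 0 ∧ form h k ⬝ᵥ x = 0}

/-- The facet on the form number `k`: with `C` the real points of the hyperplane section,
the closure in `C` of the interior in `C` of `C ∩ S`. -/
def facet {m : ℕ} (h : Fin m → V) (k : Fin 6 ⊕ Fin m) : Set V :=
  Subtype.val '' closure (interior (Subtype.val ⁻¹' S h : Set (hyp h k ∩ chart : Set V)))

/-- The `m + 4` forms `p12, p23, p14, p34, h_1, ..., h_m` (all but `p13` and `p24`). -/
def Good {m : ℕ} (k : Fin 6 ⊕ Fin m) : Prop := k ≠ Sum.inl 1 ∧ k ≠ Sum.inl 4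

/-- `S h` is a positive polytope in `Gr(2,4)`. -/
structure IsPositivePolytope {m : ℕ} (h : Fin m → V) : Prop where
  /-- `P` is full-dimensional -/
  fullDim : ∃ p ∈ chart, ∀ k, 0 < form h k ⬝ᵥ p
  /-- each of the `m + 6` hyperplanes carries a facet of `P` -/
  facetsP : ∀ k, ∃ p ∈ chart, form h k ⬝ᵥ p = 0 ∧ ∀ j, j ≠ k → 0 < form h j ⬝ᵥ p
  /-- the arrangement of the facet hyperplanes is simple -/
  simple : ∀ s : Finset (Fin 6 ⊕ Fin m), s.card ≤ 6 →
    LinearIndependent ℝ (fun k : s => form h k)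
  /-- `S` is the closure of its interior in `Gr(2,4)` -/
  regular : closure (interior (T h)) = T h
  /-- the irreducible components of the Zariski closure of the boundary are exactly the
  hyperplane sections by the `m + 4` good forms -/
  components : (vanishingIdeal ℝ (cone (bdry h))).minimalPrimes =
    {J | ∃ k, Good k ∧ J = vanishingIdeal ℝ (hyp h k)}
  /-- the `m + 4` facets are nonempty -/
  facetNonempty : ∀ k, Good k → (facet h k).Nonempty
  /-- the `m + 4` facets are pairwise distinct -/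
  facetInj : ∀ k j, Good k → Good j → facet h k = facet h j → k = j

/-- The example. -/
def h0 : Fin 1 → V := fun _ => ![1, -2, -2, -2, -2, 1]

def hv (p : V) : ℝ := p 0 + p 5 - 2 * (p 1 + p 2 + p 3 + p 4)

@[simp] theorem form_inl (i : Fin 6) (p : V) : form h0 (Sum.inl i) ⬝ᵥ p = p i := by
  simp [form]

@[simp] theorem form_inr (j : Fin 1) (p : V) : form h0 (Sum.inr j) ⬝ᵥ p = hv p := by
  simp [form, h0, hv, dotProduct, Fin.sum_univ_six]; ring

theorem mem_chart {p : V} : p ∈ chart ↔ p 0 + p 1 + p 2 + p 3 + p 4 + p 5 = 1 := by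
  simp [chart, Fin.sum_univ_six]

theorem mem_S {p : V} : p ∈ S h0 ↔ p ∈ Gr ∧ (∀ i, 0 ≤ p i) ∧ 0 ≤ hv p := by
  simp only [S, poly, mem_inter_iff, mem_setOf_eq, Sum.forall, form_inl, form_inr]
  constructor
  · rintro ⟨⟨_, h1, h2⟩, h3⟩; exact ⟨h3, h1, h2 0⟩
  · rintro ⟨h1, h2, h3⟩; exact ⟨⟨h1.1, h2, fun _ => h3⟩, h1⟩

theorem not_preconn : ¬ IsPreconnected (S h0) := by
  intro hc
  have ha : (Pi.single 5 1 : V) ∈ S h0 := by
    refine mem_S.2 ⟨⟨mem_chart.2 (by simp), by simp [plucker]⟩, fun i => ?_, by simp [hv]⟩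
    fin_cases i <;> simp
  have hb : (Pi.single 0 1 : V) ∈ S h0 := by
    refine mem_S.2 ⟨⟨mem_chart.2 (by simp), by simp [plucker]⟩, fun i => ?_, by simp [hv]⟩
    fin_cases i <;> simp
  obtain ⟨p, hp, he⟩ := hc.intermediate_value₂ ha hb (f := fun p : V => p 0) (g := fun p : V => p 5)
    (continuous_apply 0).continuousOn (continuous_apply 5).continuousOn (by simp) (by simp)
  obtain ⟨⟨h1, h2⟩, h3, h4⟩ := mem_S.1 hp
  rw [mem_chart] at h1
  simp only [plucker, hv] at h2 h4
  have e : p 0 = p 5 := he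
  have := h3 0; have := h3 1; have := h3 2; have := h3 3; have := h3 4
  have h5 : p 1 + p 4 ≤ p 0 := by linarith
  have h6 : p 0 * p 0 ≤ p 1 * p 4 := by rw [← e] at h2; nlinarith [mul_nonneg (h3 3) (h3 2)]
  have h7 : p 0 = 0 := by nlinarith [sq_nonneg (p 1 - p 4), mul_self_nonneg (p 0)]
  linarith

theorem simple0 (s : Finset (Fin 6 ⊕ Fin 1)) (hs : s.card ≤ 6) :
    LinearIndependent ℝ (fun k : s => form h0 k) := by
  classical
  obtain ⟨k0, hk0⟩ : ∃ k0, k0 ∉ s := by
    by_contra hcon
    push Not at hcon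
    have : s = Finset.univ := Finset.eq_univ_iff_forall.2 hcon
    subst this
    simp at hs
  rw [Fintype.linearIndependent_iff]
  intro g hg
  let c : Fin 6 ⊕ Fin 1 → ℝ := fun k => if hk : k ∈ s then g ⟨k, hk⟩ else 0
  have hsum : ∑ k, c k • form h0 k = 0 := by
    rw [← hg, ← Finset.sum_subset (Finset.subset_univ s), ← Finset.sum_coe_sort s]
    · refine Finset.sum_congr rfl fun k _ => ?_
      simp [c, k.2]
    · intro k _ hk
      simp [c, hk]
  have hc0 : c k0 = 0 := by simp [c, hk0]
  have hi : ∀ i : Fin 6, c (Sum.inl i) + c (Sum.inr 0) * h0 0 i = 0 := by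
    intro i
    have := congrFun hsum i
    simp only [Fintype.sum_sum_type, Pi.add_apply, Finset.sum_apply, Pi.smul_apply, form,
      Sum.elim_inl, Sum.elim_inr, smul_eq_mul, Pi.zero_apply, Pi.single_apply, Fin.sum_univ_one] at this
    simpa using this
  have hne : ∀ i : Fin 6, h0 0 i ≠ 0 := by
    intro i; fin_cases i <;> simp [h0]
  have hr : c (Sum.inr 0) = 0 := by
    rcases k0 with i | j
    · have := hi i
      rw [hc0, zero_add] at this
      exact (mul_eq_zero.1 this).resolve_right (hne i)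
    · rwa [Subsingleton.elim j 0] at hc0
  have hall : ∀ k, c k = 0 := by
    rintro (i | j)
    · have := hi i
      rwa [hr, zero_mul, add_zero] at this
    · rwa [Subsingleton.elim j 0]
  intro k
  simpa [c, k.2] using hall k

end Pool.Agent.H17.Gr
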