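import Pool.Agent.H17.Gr2

namespace Pool.Agent.H17.Gr
open MvPolynomial Set Filter Topology

noncomputable def N (x : V) : V := (∑ i, x i)⁻¹ • x

def U : Set V := {p | (∀ i, 0 < p i) ∧ 0 < hv p}

theorem cont_hv : Continuous hv := by unfold hv; fun_prop

theorem isOpen_U : IsOpen U := by
  have : U = (⋂ i, {p : V | 0 < p i}) ∩ {p | 0 < hv p} := by
    ext p; simp [U]
  rw [this]
  exact (isOpen_iInter_of_finite fun i => isOpen_lt continuous_const (continuous_apply i)).inter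
    (isOpen_lt continuous_const cont_hv)

theorem U_sub : (Subtype.val ⁻¹' U : Set Gr) ⊆ interior (T h0) := by
  apply interior_maximal _ (isOpen_U.preimage continuous_subtype_val)
  intro p hp
  exact mem_S.2 ⟨p.2, fun i => (hp.1 i).le, hp.2.le⟩

theorem isClosed_T : IsClosed (T h0) := by
  have : T h0 = Subtype.val ⁻¹' ((⋂ i, {p : V | 0 ≤ p i}) ∩ {p | 0 ≤ hv p}) := by
    ext p
    simp only [T, mem_preimage, mem_S, mem_inter_iff, mem_iInter, mem_setOf_eq]
    exact ⟨fun h => h.2, fun h => ⟨p.2, h⟩⟩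
  rw [this]
  exact ((isClosed_iInter fun i => isClosed_le continuous_const (continuous_apply i)).inter
    (isClosed_le continuous_const cont_hv)).preimage continuous_subtype_val

theorem plucker_smul (c : ℝ) (x : V) : plucker (c • x) = c ^ 2 * plucker x := by
  simp [plucker]; ring

theorem hv_smul (c : ℝ) (x : V) : hv (c • x) = c * hv x := by
  simp [hv]; ring

theorem N_mem {x : V} (hx : plucker x = 0) (hs : 0 < ∑ i, x i) : N x ∈ Gr := by
  refine ⟨?_, by rw [N, plucker_smul, hx, mul_zero]⟩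
  show ∑ i, (N x) i = 1
  simp only [N, Pi.smul_apply, smul_eq_mul, ← Finset.mul_sum]
  exact inv_mul_cancel₀ hs.ne'

theorem curve {γ : ℝ → V} (hγ : Continuous γ) {p : V} (hp : p ∈ chart) (h0 : γ 0 = p) :
    (∀ᶠ t in 𝓝[>] (0 : ℝ), 0 < ∑ i, γ t i) ∧ Tendsto (fun t => N (γ t)) (𝓝[>] 0) (𝓝 p) := by
  have hs : Continuous fun t => ∑ i, γ t i := by fun_prop
  have h1 : ∑ i, γ 0 i = 1 := by rw [h0]; exact hp
  constructor
  · apply Filter.Eventually.filter_mono nhdsWithin_le_nhds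
    exact (isOpen_lt continuous_const hs).mem_nhds (by simp [h1])
  · apply Tendsto.mono_left _ nhdsWithin_le_nhds
    have : ContinuousAt (fun t => N (γ t)) 0 := by
      unfold N
      exact (hs.continuousAt.inv₀ (by simp [h1])).smul hγ.continuousAt
    have e : N (γ 0) = p := by rw [N, h1, h0]; simp
    rw [← e]
    exact this

theorem mem_cl {γ : ℝ → V} (hγ : Continuous γ) {p : V} (hp : p ∈ Gr) (h0' : γ 0 = p)
    (hq : ∀ t, plucker (γ t) = 0) (hU : ∀ t ∈ Ioo (0 : ℝ) 1, γ t ∈ U) :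
    (⟨p, hp⟩ : Gr) ∈ closure (interior (T h0)) := by
  apply closure_mono U_sub
  rw [closure_subtype, Subtype.image_preimage_coe]
  obtain ⟨h1, h2⟩ := curve hγ hp.1 h0'
  refine mem_closure_of_tendsto h2 ?_
  filter_upwards [h1, Ioo_mem_nhdsGT (zero_lt_one' ℝ)] with t ht ht'
  refine ⟨N_mem (hq t) ht, fun i => ?_, ?_⟩
  · exact mul_pos (inv_pos.2 ht) ((hU t ht').1 i)
  · rw [N, hv_smul]; exact mul_pos (inv_pos.2 ht) (hU t ht').2

theorem not_mem_int {γ : ℝ → V} (hγ : Continuous γ) {p : V} (hp : p ∈ Gr) (h0' : γ 0 = p)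
    (hq : ∀ t, plucker (γ t) = 0) (k : Fin 6 ⊕ Fin 1)
    (hU : ∀ t ∈ Ioo (0 : ℝ) 1, form h0 k ⬝ᵥ γ t < 0) :
    (⟨p, hp⟩ : Gr) ∉ interior (T h0) := by
  intro hin
  rw [mem_interior_iff_mem_nhds, mem_nhds_subtype] at hin
  obtain ⟨W, hW, hWT⟩ := hin
  obtain ⟨h1, h2⟩ := curve hγ hp.1 h0'
  have h3 : ∀ᶠ t in 𝓝[>] (0 : ℝ), N (γ t) ∈ W := h2 hW
  obtain ⟨t, ht, ht', ht''⟩ := (h1.and (h3.and (Ioo_mem_nhdsGT (zero_lt_one' ℝ)))).exists
  have hS : N (γ t) ∈ S h0 := hWT (a := ⟨N (γ t), N_mem (hq t) ht⟩) ht'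
  have := hS.1.2 k
  rw [N, dotProduct_smul, smul_eq_mul] at this
  have h5 := mul_neg_of_pos_of_neg (inv_pos.2 ht) (hU t ht'')
  linarith

/-- the numerical heart of the regularity -/
theorem push_in (a b x1 x2 x3 x4 t : ℝ) (ha : 0 < a) (hb : 0 ≤ b) (hba : b ≤ a) (h1 : 0 ≤ x1)
    (h2 : 0 ≤ x2) (h3 : 0 ≤ x3) (h4 : 0 ≤ x4) (hq : a * b = x1 * x4 - x3 * x2)
    (hh : 2 * (x1 + x2 + x3 + x4) ≤ a + b) (ht : 0 < t) (ht1 : t < 1) :
    let y1 := (1 - t) * x1 + a * (t / 16)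
    let y2 := (1 - t) * x2 + a * (t ^ 2 / 1024)
    let y3 := (1 - t) * x3 + a * (t ^ 2 / 1024)
    let y4 := (1 - t) * x4 + a * (t / 16)
    0 < y1 ∧ 0 < y2 ∧ 0 < y3 ∧ 0 < y4 ∧ 0 < (y1 * y4 - y3 * y2) / a ∧
      2 * (y1 + y2 + y3 + y4) < a + (y1 * y4 - y3 * y2) / a := by
  intro y1 y2 y3 y4
  have hl : 0 < 1 - t := by linarith
  have p1 : 0 < y1 := by positivity
  have p2 : 0 < y2 := by positivity
  have p3 : 0 < y3 := by positivity
  have p4 : 0 < y4 := by positivity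
  have hs : x2 + x3 ≤ a := by linarith
  have hs' : x1 + x4 ≤ a := by linarith
  have hb4 : 4 * b ≤ a := by
    have : 4 * (a * b) ≤ a * a := by nlinarith [sq_nonneg (x1 - x4), mul_nonneg h3 h2]
    nlinarith
  have key : y1 * y4 - y3 * y2 = a * ((1 - t) ^ 2 * b + (1 - t) * (t / 16) * (x1 + x4)
      + a * (t / 16) ^ 2 - (1 - t) * (t ^ 2 / 1024) * (x2 + x3) - a * (t ^ 2 / 1024) ^ 2) := by
    simp only [y1, y2, y3, y4]
    linear_combination (-(1 - t) ^ 2) * hq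
  have e : (y1 * y4 - y3 * y2) / a = (1 - t) ^ 2 * b + (1 - t) * (t / 16) * (x1 + x4)
      + a * (t / 16) ^ 2 - (1 - t) * (t ^ 2 / 1024) * (x2 + x3) - a * (t ^ 2 / 1024) ^ 2 := by
    rw [key]; field_simp
  have t2 : 0 < t ^ 2 := by positivity
  have t21 : t ^ 2 < 1 := by nlinarith
  have c1 : (1 - t) * (t ^ 2 / 1024) * (x2 + x3) ≤ a * (t ^ 2 / 1024) := by
    have : (1 - t) * (x2 + x3) ≤ a := by nlinarith
    nlinarith
  have c2 : a * (t ^ 2 / 1024) ^ 2 ≤ a * (t ^ 2 / 1024) := by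
    apply mul_le_mul_of_nonneg_left _ ha.le
    nlinarith
  have c3 : 0 ≤ (1 - t) * (t / 16) * (x1 + x4) := by positivity
  have c4 : 0 < a * t ^ 2 := by positivity
  have d : (1 - t) ^ 2 * b < (y1 * y4 - y3 * y2) / a := by
    rw [e]; nlinarith
  refine ⟨p1, p2, p3, p4, lt_of_le_of_lt (by positivity) d, ?_⟩
  have c5 : 2 * (y1 + y2 + y3 + y4) = (1 - t) * (2 * (x1 + x2 + x3 + x4)) + a * t / 4
      + a * t ^ 2 / 256 := by
    simp only [y1, y2, y3, y4]; ring
  have c6 : (1 - t) * (2 * (x1 + x2 + x3 + x4)) ≤ (1 - t) * (a + b) :=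
    mul_le_mul_of_nonneg_left hh hl.le
  have c7 : a * t ^ 2 ≤ a * t := by
    apply mul_le_mul_of_nonneg_left _ ha.le
    nlinarith
  have c8 : t * ((1 - t) * b) ≤ t * (a / 4) := by
    apply mul_le_mul_of_nonneg_left _ ht.le
    nlinarith
  have c9 : 0 < a * t := by positivity
  rw [c5]
  nlinarith

theorem regular0 : closure (interior (T h0)) = T h0 := by
  refine subset_antisymm (closure_minimal interior_subset isClosed_T) ?_
  rintro ⟨p, hp⟩ hT
  obtain ⟨-, h3, h4⟩ := mem_S.1 hT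
  have h1 := mem_chart.1 hp.1
  have h2 := hp.2
  simp only [plucker, hv] at h2 h4
  have := h3 0; have := h3 1; have := h3 2; have := h3 3; have := h3 4; have := h3 5
  dsimp only at *
  rcases le_total (p 5) (p 0) with hle | hle
  · have ha : 0 < p 0 := by linarith
    refine mem_cl (γ := fun t => ![p 0, (1 - t) * p 1 + p 0 * (t / 16),
      (1 - t) * p 2 + p 0 * (t ^ 2 / 1024), (1 - t) * p 3 + p 0 * (t ^ 2 / 1024),
      (1 - t) * p 4 + p 0 * (t / 16),
      (((1 - t) * p 1 + p 0 * (t / 16)) * ((1 - t) * p 4 + p 0 * (t / 16)) -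
        ((1 - t) * p 3 + p 0 * (t ^ 2 / 1024)) * ((1 - t) * p 2 + p 0 * (t ^ 2 / 1024))) / p 0])
      (by fun_prop) hp ?_ ?_ ?_
    · ext i
      fin_cases i <;> simp
      field_simp
      linarith
    · intro t
      simp [plucker]
      field_simp
      ring
    · intro t ht
      obtain ⟨q1, q2, q3, q4, q5, q6⟩ := push_in (p 0) (p 5) (p 1) (p 2) (p 3) (p 4) t ha (h3 5) hle
        (h3 1) (h3 2) (h3 3) (h3 4) (by linarith) (by linarith) ht.1 ht.2
      refine ⟨fun i => ?_, ?_⟩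
      · fin_cases i
        exacts [ha, q1, q2, q3, q4, q5]
      · exact sub_pos.2 q6
  · have ha : 0 < p 5 := by linarith
    refine mem_cl (γ := fun t => ![
      (((1 - t) * p 1 + p 5 * (t / 16)) * ((1 - t) * p 4 + p 5 * (t / 16)) -
        ((1 - t) * p 3 + p 5 * (t ^ 2 / 1024)) * ((1 - t) * p 2 + p 5 * (t ^ 2 / 1024))) / p 5,
      (1 - t) * p 1 + p 5 * (t / 16),
      (1 - t) * p 2 + p 5 * (t ^ 2 / 1024), (1 - t) * p 3 + p 5 * (t ^ 2 / 1024),
      (1 - t) * p 4 + p 5 * (t / 16), p 5])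
      (by fun_prop) hp ?_ ?_ ?_
    · ext i
      fin_cases i <;> simp
      field_simp
      linarith
    · intro t
      simp [plucker]
      field_simp
      ring
    · intro t ht
      obtain ⟨q1, q2, q3, q4, q5, q6⟩ := push_in (p 5) (p 0) (p 1) (p 2) (p 3) (p 4) t ha (h3 0) hle
        (h3 1) (h3 2) (h3 3) (h3 4) (by linarith) (by linarith) ht.1 ht.2
      refine ⟨fun i => ?_, ?_⟩
      · fin_cases i
        exacts [q5, q1, q2, q3, q4, ha]
      · exact sub_pos.2 (q6.trans_eq (add_comm _ _))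

end Pool.Agent.H17.Gr
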