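import Pool.Agent.H17.Gr3

namespace Pool.Agent.H17.Gr
open MvPolynomial Set Filter Topology

def Par (C : Set V) : Prop :=
  (vanishingIdeal ℝ C).IsPrime ∧
    ∀ O : Set V, IsOpen O → (C ∩ O).Nonempty → vanishingIdeal ℝ (C ∩ O) ≤ vanishingIdeal ℝ C

theorem par_of {E : Type} [NormedAddCommGroup E] [NormedSpace ℝ E] (φ : E → V)
    (hφ : ∀ i z, AnalyticAt ℝ (fun z => φ z i) z) (C : Set V) (hC : range φ = C) : Par C := by
  subst hC
  exact ⟨key_prime φ hφ, key_dense φ hφ⟩

theorem an_proj {n : ℕ} (i : Fin n) (z : Fin n → ℝ) : AnalyticAt ℝ (fun z : Fin n → ℝ => z i) z :=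
  (ContinuousLinearMap.proj (R := ℝ) (φ := fun _ : Fin n => ℝ) i).analyticAt z

theorem par0 : Par (hyp h0 (Sum.inl 0)) := by
  refine par_of (fun z : Fin 5 → ℝ => ![0, z 0 * z 2, z 0 * z 3, z 1 * z 2, z 1 * z 3, z 4]) ?_ _ ?_
  · intro i z
    fin_cases i
    exacts [analyticAt_const, (an_proj 0 z).mul (an_proj 2 z), (an_proj 0 z).mul (an_proj 3 z),
      (an_proj 1 z).mul (an_proj 2 z), (an_proj 1 z).mul (an_proj 3 z), an_proj 4 z]
  · ext x
    simp only [hyp, form_inl, mem_range, mem_setOf_eq, plucker]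
    constructor
    · rintro ⟨z, rfl⟩
      simp
      ring
    · rintro ⟨h1, h2⟩
      obtain ⟨a, b, c, d, e1, e2, e3, e4⟩ := rank1 (x 1) (x 2) (x 3) (x 4)
        (by rw [h2] at h1; linarith)
      refine ⟨![a, b, c, d, x 5], ?_⟩
      ext i
      fin_cases i <;> simp [*]

theorem par5 : Par (hyp h0 (Sum.inl 5)) := by
  refine par_of (fun z : Fin 5 → ℝ => ![z 4, z 0 * z 2, z 0 * z 3, z 1 * z 2, z 1 * z 3, 0]) ?_ _ ?_
  · intro i z
    fin_cases i
    exacts [an_proj 4 z, (an_proj 0 z).mul (an_proj 2 z), (an_proj 0 z).mul (an_proj 3 z),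
      (an_proj 1 z).mul (an_proj 2 z), (an_proj 1 z).mul (an_proj 3 z), analyticAt_const]
  · ext x
    simp only [hyp, form_inl, mem_range, mem_setOf_eq, plucker]
    constructor
    · rintro ⟨z, rfl⟩
      simp
      ring
    · rintro ⟨h1, h2⟩
      obtain ⟨a, b, c, d, e1, e2, e3, e4⟩ := rank1 (x 1) (x 2) (x 3) (x 4)
        (by rw [h2] at h1; linarith)
      refine ⟨![a, b, c, d, x 0], ?_⟩
      ext i
      fin_cases i <;> simp [*]

theorem par2 : Par (hyp h0 (Sum.inl 2)) := by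
  refine par_of (fun z : Fin 5 → ℝ => ![z 0 * z 2, z 0 * z 3, 0, z 4, z 1 * z 2, z 1 * z 3]) ?_ _ ?_
  · intro i z
    fin_cases i
    exacts [(an_proj 0 z).mul (an_proj 2 z), (an_proj 0 z).mul (an_proj 3 z), analyticAt_const,
      an_proj 4 z, (an_proj 1 z).mul (an_proj 2 z), (an_proj 1 z).mul (an_proj 3 z)]
  · ext x
    simp only [hyp, form_inl, mem_range, mem_setOf_eq, plucker]
    constructor
    · rintro ⟨z, rfl⟩
      simp
      ring
    · rintro ⟨h1, h2⟩
      obtain ⟨a, b, c, d, e1, e2, e3, e4⟩ := rank1 (x 0) (x 1) (x 4) (x 5)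
        (by rw [h2] at h1; linarith)
      refine ⟨![a, b, c, d, x 3], ?_⟩
      ext i
      fin_cases i <;> simp [*]

theorem par3 : Par (hyp h0 (Sum.inl 3)) := by
  refine par_of (fun z : Fin 5 → ℝ => ![z 0 * z 2, z 0 * z 3, z 4, 0, z 1 * z 2, z 1 * z 3]) ?_ _ ?_
  · intro i z
    fin_cases i
    exacts [(an_proj 0 z).mul (an_proj 2 z), (an_proj 0 z).mul (an_proj 3 z), an_proj 4 z,
      analyticAt_const, (an_proj 1 z).mul (an_proj 2 z), (an_proj 1 z).mul (an_proj 3 z)]
  · ext x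
    simp only [hyp, form_inl, mem_range, mem_setOf_eq, plucker]
    constructor
    · rintro ⟨z, rfl⟩
      simp
      ring
    · rintro ⟨h1, h2⟩
      obtain ⟨a, b, c, d, e1, e2, e3, e4⟩ := rank1 (x 0) (x 1) (x 4) (x 5)
        (by rw [h2] at h1; linarith)
      refine ⟨![a, b, c, d, x 2], ?_⟩
      ext i
      fin_cases i <;> simp [*]

def B (x y : V) : ℝ := x 0 * y 5 + x 5 * y 0 - x 1 * y 4 - x 4 * y 1 + x 2 * y 3 + x 3 * y 2

def r (z v : V) : V := plucker z • v - B z v • z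

def L (z : V) : V := ![z 0, z 1, z 2, z 3, z 4, 2 * (z 1 + z 2 + z 3 + z 4) - z 0]

def v0 : V := ![0, 1, 0, 0, 0, 2]

theorem hv_r {z v : V} (hz : hv z = 0) (hv' : hv v = 0) : hv (r z v) = 0 := by
  have : hv (r z v) = plucker z * hv v - B z v * hv z := by simp [hv, r]; ring
  rw [this, hz, hv']; ring

theorem pl_r (z v : V) : plucker (r z v) = plucker z ^ 2 * plucker v := by
  simp [plucker, r, B]; ring

theorem hv_L (z : V) : hv (L z) = 0 := by simp [hv, L]

theorem L_eq {z : V} (hz : hv z = 0) : L z = z := by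
  ext i
  fin_cases i <;> simp [L]
  simp only [hv] at hz
  linarith

theorem an_r {E : Type} [NormedAddCommGroup E] [NormedSpace ℝ E] (f g : E → V) (z : E)
    (hf : ∀ i, AnalyticAt ℝ (fun z => f z i) z) (hg : ∀ i, AnalyticAt ℝ (fun z => g z i) z) (i : Fin 6) :
    AnalyticAt ℝ (fun z => r (f z) (g z) i) z := by
  have := hf 0; have := hf 1; have := hf 2; have := hf 3; have := hf 4; have := hf 5
  have := hg 0; have := hg 1; have := hg 2; have := hg 3; have := hg 4; have := hg 5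
  have := hf i; have := hg i
  simp only [r, plucker, B, Pi.sub_apply, Pi.smul_apply, smul_eq_mul]
  fun_prop

theorem an_L {E : Type} [NormedAddCommGroup E] [NormedSpace ℝ E] (f : E → V) (z : E)
    (hf : ∀ i, AnalyticAt ℝ (fun z => f z i) z) (i : Fin 6) :
    AnalyticAt ℝ (fun z => L (f z) i) z := by
  fin_cases i
  exacts [hf 0, hf 1, hf 2, hf 3, hf 4,
    (analyticAt_const.mul ((((hf 1).add (hf 2)).add (hf 3)).add (hf 4))).sub (hf 0)]

theorem surj_aux {p w : V} (hp : plucker p = 0) (hp' : hv p = 0) (hw : plucker w = 0)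
    (hw' : hv w = 0) (h1 : B w v0 ≠ 0) (h2 : B p w ≠ 0) :
    ∃ z : ℝ × V × V, z.1 • r (L z.2.1) (r (L z.2.2) v0) = p := by
  refine ⟨((B w v0 * B p w)⁻¹, p, w), ?_⟩
  simp only [L_eq hp', L_eq hw']
  have e1 : r w v0 = (-B w v0) • w := by simp [r, hw]
  have e2 : B p ((-B w v0) • w) = -B w v0 * B p w := by simp [B]; ring
  rw [e1, r, hp, e2, zero_smul, zero_sub, ← neg_smul, smul_smul]
  have : (B w v0 * B p w)⁻¹ * -(-B w v0 * B p w) = 1 := by field_simp
  rw [this, one_smul]

theorem parh : Par (hyp h0 (Sum.inr 0)) := by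
  refine par_of (fun z : ℝ × V × V => z.1 • r (L z.2.1) (r (L z.2.2) v0)) ?_ _ ?_
  · intro i z
    have a1 : ∀ i, AnalyticAt ℝ (fun z : ℝ × V × V => z.2.1 i) z := fun i =>
      (an_proj i _).comp (f := fun z : ℝ × V × V => z.2.1)
        (analyticAt_fst.comp (f := fun z : ℝ × V × V => z.2) analyticAt_snd)
    have a2 : ∀ i, AnalyticAt ℝ (fun z : ℝ × V × V => z.2.2 i) z := fun i =>
      (an_proj i _).comp (f := fun z : ℝ × V × V => z.2.2)
        (analyticAt_snd.comp (f := fun z : ℝ × V × V => z.2) analyticAt_snd)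
    have := an_r (fun z : ℝ × V × V => L z.2.1) (fun z => r (L z.2.2) v0) z (an_L _ z a1)
      (an_r (fun z : ℝ × V × V => L z.2.2) (fun _ => v0) z (an_L _ z a2)
        (fun _ => analyticAt_const)) i
    exact analyticAt_fst.mul this
  · ext x
    simp only [hyp, form_inr, mem_range, mem_setOf_eq]
    constructor
    · rintro ⟨z, rfl⟩
      have h1 : plucker v0 = 0 := by simp [plucker, v0]
      have h2 : hv v0 = 0 := by simp [hv, v0]
      rw [plucker_smul, pl_r, pl_r, h1, hv_smul, hv_r (hv_L _) (hv_r (hv_L _) h2)]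
      simp
    · rintro ⟨h1, h2⟩
      by_cases c1 : B x ![2, 1, 0, 0, 0, 0] = 0
      swap
      · exact surj_aux h1 h2 (by simp [plucker]) (by simp [hv]) (by simp [B, v0]) c1
      by_cases c2 : B x ![2, 0, 1, 0, 0, 0] = 0
      swap
      · exact surj_aux h1 h2 (by simp [plucker]) (by simp [hv]) (by simp [B, v0]) c2
      by_cases c3 : B x ![2, 0, 0, 1, 0, 0] = 0
      swap
      · exact surj_aux h1 h2 (by simp [plucker]) (by simp [hv]) (by simp [B, v0]) c3
      by_cases c4 : B x ![2, 0, 0, 0, 1, 0] = 0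
      swap
      · exact surj_aux h1 h2 (by simp [plucker]) (by simp [hv]) (by simp [B, v0]; norm_num) c4
      by_cases c5 : B x ![0, 0, 0, 0, 1, 2] = 0
      swap
      · exact surj_aux h1 h2 (by simp [plucker]) (by simp [hv]) (by simp [B, v0]) c5
      refine ⟨0, ?_⟩
      simp [B] at c1 c2 c3 c4 c5
      simp only [hv] at h2
      ext i
      fin_cases i <;> simp <;> linarith

theorem par_all (k : Fin 6 ⊕ Fin 1) (hk : Good k) : Par (hyp h0 k) := by
  rcases k with i | j
  · fin_cases i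
    · exact par0
    · exact absurd rfl hk.1
    · exact par2
    · exact par3
    · exact absurd rfl hk.2
    · exact par5
  · rw [Subsingleton.elim j 0]; exact parh

end Pool.Agent.H17.Gr
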