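import Pool.Agent.H17.Gr4

namespace Pool.Agent.H17.Gr
open MvPolynomial Set Filter Topology

def O (k : Fin 6 ⊕ Fin 1) : Set V :=
  {x | (∀ j, j ≠ k → 0 < form h0 j ⬝ᵥ x) ∧ (k = Sum.inr 0 → 2 * x 5 < x 0)}

theorem cont_form (j : Fin 6 ⊕ Fin 1) : Continuous fun x : V => form h0 j ⬝ᵥ x :=
  continuous_const.dotProduct continuous_id

theorem isOpen_O (k : Fin 6 ⊕ Fin 1) : IsOpen (O k) := by
  have : O k = (⋂ j, ⋂ _ : j ≠ k, {x : V | 0 < form h0 j ⬝ᵥ x}) ∩
      ⋂ _ : k = Sum.inr 0, {x : V | 2 * x 5 < x 0} := by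
    ext x; simp only [O, mem_inter_iff, mem_iInter, mem_setOf_eq]
  rw [this]
  refine (isOpen_iInter_of_finite fun j => isOpen_iInter_of_finite fun _ =>
    isOpen_lt continuous_const (cont_form j)).inter (isOpen_iInter_of_finite fun _ =>
    isOpen_lt (by fun_prop) (by fun_prop))

theorem nonneg_of {k : Fin 6 ⊕ Fin 1} {x : V} (h1 : x ∈ hyp h0 k) (h2 : x ∈ O k) (j : Fin 6 ⊕ Fin 1) :
    0 ≤ form h0 j ⬝ᵥ x := by
  by_cases hj : j = k
  · rw [hj, h1.2]
  · exact (h2.1 j hj).le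

theorem sum_pos_of {k : Fin 6 ⊕ Fin 1} (hk : Good k) {x : V} (h1 : x ∈ hyp h0 k) (h2 : x ∈ O k) :
    0 < ∑ i, x i := by
  apply Finset.sum_pos' (fun i _ => by simpa using nonneg_of h1 h2 (Sum.inl i))
  exact ⟨1, Finset.mem_univ _, by simpa using h2.1 (Sum.inl 1) hk.1.symm⟩

theorem N_hyp {k : Fin 6 ⊕ Fin 1} {x : V} (h1 : x ∈ hyp h0 k) : N x ∈ hyp h0 k :=
  ⟨by rw [N, plucker_smul, h1.1, mul_zero], by rw [N, dotProduct_smul, h1.2, smul_zero]⟩

theorem N_O {k : Fin 6 ⊕ Fin 1} {x : V} (h2 : x ∈ O k) (hs : 0 < ∑ i, x i) : N x ∈ O k := by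
  refine ⟨fun j hj => ?_, fun hk => ?_⟩
  · rw [N, dotProduct_smul, smul_eq_mul]
    exact mul_pos (inv_pos.2 hs) (h2.1 j hj)
  · have := mul_lt_mul_of_pos_left (h2.2 hk) (inv_pos.2 hs)
    simp only [N, Pi.smul_apply, smul_eq_mul]
    linarith

theorem mem_bdry {k : Fin 6 ⊕ Fin 1} (hk : Good k) {p : V} (hp : p ∈ Gr) (h1 : p ∈ hyp h0 k)
    (h2 : p ∈ O k) : p ∈ bdry h0 := by
  refine ⟨⟨p, hp⟩, ⟨⟨⟨hp.1, nonneg_of h1 h2⟩, hp⟩, ?_⟩, rfl⟩
  have hq := hp.2
  have hz := h1.2
  simp only [plucker] at hq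
  rcases k with i | j
  · fin_cases i
    · have a5 : 0 < p 5 := by simpa using h2.1 (Sum.inl 5) (by decide)
      have a3 : 0 < p 3 := by simpa using h2.1 (Sum.inl 3) (by decide)
      have hz' : p 0 = 0 := by simpa using hz
      refine not_mem_int (γ := fun t => ![-(t * p 3) / p 5, p 1, p 2 + t, p 3, p 4, p 5])
        (by fun_prop) hp ?_ ?_ (Sum.inl 0) ?_
      · ext i; fin_cases i <;> simp [hz']
      · intro t; simp [plucker]; field_simp; rw [hz'] at hq; linarith
      · intro t ht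
        simp only [form_inl, Matrix.cons_val_zero]
        exact div_neg_of_neg_of_pos (by have := mul_pos ht.1 a3; linarith) a5
    · exact absurd rfl hk.1
    · have a0 : 0 < p 0 := by simpa using h2.1 (Sum.inl 0) (by decide)
      have hz' : p 2 = 0 := by simpa using hz
      refine not_mem_int (γ := fun t => ![p 0, p 1, -t, p 3, p 4, p 5 + t * p 3 / p 0])
        (by fun_prop) hp ?_ ?_ (Sum.inl 2) ?_
      · ext i; fin_cases i <;> simp [hz']
      · intro t; simp [plucker]; field_simp; rw [hz'] at hq; linarith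
      · intro t ht
        rw [form_inl]
        simpa using ht.1
    · have a0 : 0 < p 0 := by simpa using h2.1 (Sum.inl 0) (by decide)
      have hz' : p 3 = 0 := by simpa using hz
      refine not_mem_int (γ := fun t => ![p 0, p 1, p 2, -t, p 4, p 5 + t * p 2 / p 0])
        (by fun_prop) hp ?_ ?_ (Sum.inl 3) ?_
      · ext i; fin_cases i <;> simp [hz']
      · intro t; simp [plucker]; field_simp; rw [hz'] at hq; linarith
      · intro t ht
        rw [form_inl]
        simpa using ht.1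
    · exact absurd rfl hk.2
    · have a0 : 0 < p 0 := by simpa using h2.1 (Sum.inl 0) (by decide)
      have a3 : 0 < p 3 := by simpa using h2.1 (Sum.inl 3) (by decide)
      have hz' : p 5 = 0 := by simpa using hz
      refine not_mem_int (γ := fun t => ![p 0, p 1, p 2 + t, p 3, p 4, -(t * p 3) / p 0])
        (by fun_prop) hp ?_ ?_ (Sum.inl 5) ?_
      · ext i; fin_cases i <;> simp [hz']
      · intro t; simp [plucker]; field_simp; rw [hz'] at hq; linarith
      · intro t ht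
        simp only [form_inl]
        exact div_neg_of_neg_of_pos (by have := mul_pos ht.1 a3; linarith) a0
  · obtain rfl : j = 0 := Subsingleton.elim _ _
    have a5 : 0 < p 5 := by simpa using h2.1 (Sum.inl 5) (by decide)
    have a0 := h2.2 rfl
    rw [form_inr, hv] at hz
    refine not_mem_int (γ := fun t => ![p 0, (1 + t) * p 1, (1 + t) * p 2, (1 + t) * p 3,
      (1 + t) * p 4, (1 + t) ^ 2 * p 5]) (by fun_prop) hp ?_ ?_ (Sum.inr 0) ?_
    · ext i; fin_cases i <;> simp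
    · intro t; simp [plucker]; linear_combination (1 + t) ^ 2 * hq
    · intro t ht
      rw [form_inr]
      have e : hv ![p 0, (1 + t) * p 1, (1 + t) * p 2, (1 + t) * p 3, (1 + t) * p 4,
          (1 + t) ^ 2 * p 5] = t * ((1 + t) * p 5 - p 0) := by
        simp [hv]; linear_combination (1 + t) * hz
      rw [e]
      exact mul_neg_of_pos_of_neg ht.1 (by nlinarith [ht.1, ht.2])

theorem sub_cone {k : Fin 6 ⊕ Fin 1} (hk : Good k) : hyp h0 k ∩ O k ⊆ cone (bdry h0) := by
  rintro x ⟨h1, h2⟩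
  have hs := sum_pos_of hk h1 h2
  refine ⟨∑ i, x i, N x, mem_bdry hk (N_mem h1.1 hs) (N_hyp h1) (N_O h2 hs), ?_⟩
  rw [N, smul_smul, mul_inv_cancel₀ hs.ne', one_smul]

theorem cone_sub {x : V} (hx : x ∈ cone (bdry h0)) : ∃ k, Good k ∧ x ∈ hyp h0 k := by
  obtain ⟨t, _, ⟨⟨p, hp⟩, ⟨hT, hn⟩, rfl⟩, rfl⟩ := hx
  suffices ∃ k : Fin 6 ⊕ Fin 1, Good k ∧ form h0 k ⬝ᵥ p = 0 by
    obtain ⟨k, hk, hz⟩ := this
    exact ⟨k, hk, by rw [plucker_smul, hp.2, mul_zero], by rw [dotProduct_smul, hz, smul_zero]⟩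
  by_contra hcon
  push Not at hcon
  obtain ⟨-, h3, h4⟩ := mem_S.1 hT
  dsimp only at h3 h4
  have pos : ∀ i : Fin 6, i ≠ 1 → i ≠ 4 → 0 < p i := fun i h1 h2 =>
    lt_of_le_of_ne (h3 i) (Ne.symm (by
      simpa using hcon (Sum.inl i) ⟨by simpa using h1, by simpa using h2⟩))
  have ph : 0 < hv p := lt_of_le_of_ne h4 (Ne.symm (by
      simpa using hcon (Sum.inr 0) ⟨by simp, by simp⟩))
  have hq := hp.2
  simp only [plucker] at hq
  have a0 := pos 0 (by decide) (by decide)
  have a2 := pos 2 (by decide) (by decide)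
  have a3 := pos 3 (by decide) (by decide)
  have a5 := pos 5 (by decide) (by decide)
  have h14 : 0 < p 1 * p 4 := by nlinarith [mul_pos a0 a5, mul_pos a3 a2]
  have a1 : 0 < p 1 := lt_of_le_of_ne (h3 1) (fun h => by rw [← h] at h14; simp at h14)
  have a4 : 0 < p 4 := lt_of_le_of_ne (h3 4) (fun h => by rw [← h] at h14; simp at h14)
  apply hn
  apply U_sub
  refine ⟨fun i => ?_, ph⟩
  fin_cases i
  exacts [a0, a1, a2, a3, a4, a5]

theorem base {k : Fin 6 ⊕ Fin 1} (hk : Good k) : (hyp h0 k ∩ O k).Nonempty := by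
  have aux : ∀ (k : Fin 6 ⊕ Fin 1) (x : V), plucker x = 0 → form h0 k ⬝ᵥ x = 0 →
      (∀ i, Sum.inl i ≠ k → 0 < x i) → (Sum.inr 0 ≠ k → 0 < hv x) →
      (k = Sum.inr 0 → 2 * x 5 < x 0) → (hyp h0 k ∩ O k).Nonempty := by
    intro k x h1 h2 h3 h4 h5
    refine ⟨x, ⟨h1, h2⟩, ?_, h5⟩
    rintro (i | j) hj
    · simpa using h3 i hj
    · obtain rfl : j = 0 := Subsingleton.elim _ _
      simpa using h4 hj
  rcases k with i | j
  · fin_cases i
    · refine aux _ ![0, 1, 1, 1, 1, 9] (by simp [plucker]) (by rw [form_inl]; simp) (fun i hi => ?_)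
        (fun _ => by simp [hv]; norm_num) (by simp)
      fin_cases i <;> simp at hi ⊢
    · exact absurd rfl hk.1
    · refine aux _ ![36, 6, 0, 1, 6, 1] (by simp [plucker]; norm_num) (by rw [form_inl]; simp)
        (fun i hi => ?_)
        (fun _ => by simp [hv]; norm_num) (by simp)
      fin_cases i <;> simp at hi ⊢
    · refine aux _ ![36, 6, 1, 0, 6, 1] (by simp [plucker]; norm_num) (by rw [form_inl]; simp)
        (fun i hi => ?_)
        (fun _ => by simp [hv]; norm_num) (by simp)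
      fin_cases i <;> simp at hi ⊢
    · exact absurd rfl hk.2
    · refine aux _ ![9, 1, 1, 1, 1, 0] (by simp [plucker]) (by rw [form_inl]; simp) (fun i hi => ?_)
        (fun _ => by simp [hv]; norm_num) (by simp)
      fin_cases i <;> simp at hi ⊢
  · obtain rfl : j = 0 := Subsingleton.elim _ _
    refine aux _ ![23, 4, 1, 1, 6, 1] (by simp [plucker]; norm_num)
      (by rw [form_inr]; simp [hv]; norm_num)
      (fun i _ => ?_) (fun h => absurd rfl h) (fun _ => by simp; norm_num)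
    fin_cases i <;> simp

noncomputable def lin (c : V) : MvPolynomial (Fin 6) ℝ := ∑ i, C (c i) * X i

theorem aeval_lin (c x : V) : aeval x (lin c) = c ⬝ᵥ x := by
  simp [lin, dotProduct]

theorem components0 : (vanishingIdeal ℝ (cone (bdry h0))).minimalPrimes =
    {J | ∃ k, Good k ∧ J = vanishingIdeal ℝ (hyp h0 k)} := by
  refine minPrimes _ (fun k => vanishingIdeal ℝ (hyp h0 k)) Good (fun k hk => (par_all k hk).1)
    (fun k hk => ?_) (fun f hf x hx => ?_) (fun k j hk hj hle => ?_)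
  · exact (vanishingIdeal_anti_mono (sub_cone hk)).trans
      ((par_all k hk).2 _ (isOpen_O k) (base hk))
  · obtain ⟨k, hk, hxk⟩ := cone_sub hx
    exact hf k hk x hxk
  · by_contra hne
    obtain ⟨x, h1, h2⟩ := base hj
    have : lin (form h0 k) ∈ vanishingIdeal ℝ (hyp h0 k) := fun y hy => by
      rw [aeval_lin]; exact hy.2
    have := hle this x h1
    rw [aeval_lin] at this
    exact (h2.1 k hne).ne' this

theorem facet_base {k : Fin 6 ⊕ Fin 1} (hk : Good k) : ∃ p ∈ facet h0 k, p ∈ O k := by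
  obtain ⟨x, h1, h2⟩ := base hk
  have hs := sum_pos_of hk h1 h2
  refine ⟨N x, ⟨⟨N x, N_hyp h1, (N_mem h1.1 hs).1⟩, subset_closure ?_, rfl⟩, N_O h2 hs⟩
  refine interior_maximal (t := Subtype.val ⁻¹' O k) ?_
    ((isOpen_O k).preimage continuous_subtype_val) (N_O h2 hs)
  intro p hp
  exact ⟨⟨p.2.2, nonneg_of p.2.1 hp⟩, p.2.2, p.2.1.1⟩

theorem isPos0 : IsPositivePolytope h0 where
  fullDim := by
    refine ⟨![9 / 14, 1 / 14, 1 / 14, 1 / 14, 1 / 14, 1 / 14], mem_chart.2 (by simp; norm_num), ?_⟩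
    rintro (i | j)
    · rw [form_inl]; fin_cases i <;> simp
    · rw [form_inr]; simp [hv]; norm_num
  facetsP := by
    have aux : ∀ k : Fin 6 ⊕ Fin 1, Good k →
        ∃ p ∈ chart, form h0 k ⬝ᵥ p = 0 ∧ ∀ j, j ≠ k → 0 < form h0 j ⬝ᵥ p := by
      intro k hk
      obtain ⟨_, ⟨p, -, rfl⟩, hp⟩ := facet_base hk
      exact ⟨p, p.2.2, p.2.1.2, hp.1⟩
    intro k
    by_cases h1 : k = Sum.inl 1
    · subst h1
      refine ⟨![9 / 13, 0, 1 / 13, 1 / 13, 1 / 13, 1 / 13], mem_chart.2 (by simp; norm_num),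
        by rw [form_inl]; simp, ?_⟩
      rintro (i | j) hj
      · rw [form_inl]; fin_cases i <;> simp at hj ⊢
      · rw [form_inr]; simp [hv]; norm_num
    by_cases h4 : k = Sum.inl 4
    · subst h4
      refine ⟨![9 / 13, 1 / 13, 1 / 13, 1 / 13, 0, 1 / 13], mem_chart.2 (by simp; norm_num),
        by rw [form_inl]; simp, ?_⟩
      rintro (i | j) hj
      · rw [form_inl]; fin_cases i <;> simp at hj ⊢
      · rw [form_inr]; simp [hv]; norm_num
    exact aux k ⟨h1, h4⟩
  simple := simple0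
  regular := regular0
  components := components0
  facetNonempty := fun k hk => by
    obtain ⟨p, hp, -⟩ := facet_base hk
    exact ⟨p, hp⟩
  facetInj := fun k j hk hj he => by
    by_contra hne
    obtain ⟨p, hp, hO⟩ := facet_base hj
    rw [← he] at hp
    obtain ⟨q, -, rfl⟩ := hp
    exact (hO.1 k hne).ne' q.2.1.2

end Pool.Agent.H17.Gr
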