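import Pool.Agent.H17.HKSDefs

set_option autoImplicit false

namespace Pool.Agent.H17.HKS

variable {A B C : Type}

@[simp] lemma fac_length (u : ℕ → A) (i n : ℕ) : (fac u i n).length = n := by simp [fac]

lemma fac_get (u : ℕ → A) (i n j : ℕ) (h : j < n) : (fac u i n)[j]? = some (u (i + j)) := by
  simp [fac, h]

lemma fac_add (u : ℕ → A) (i n m : ℕ) : fac u i (n + m) = fac u i n ++ fac u (i + n) m := by
  simp [fac, List.range_add, Nat.add_assoc]

lemma fac_succ (u : ℕ → A) (i n : ℕ) : fac u i (n + 1) = fac u i n ++ [u (i + n)] := by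
  rw [fac_add]; simp [fac]

lemma fac_zero (u : ℕ → A) (i : ℕ) : fac u i 0 = [] := rfl

lemma fac_rev (u : ℕ → A) (i n i' : ℕ) (h : ∀ j, j < n → u (i + j) = u (i' + (n - 1 - j))) :
    (fac u i n).reverse = fac u i' n := by
  apply List.ext_getElem?
  intro j
  by_cases hj : j < n
  · rw [List.getElem?_reverse (by simpa using hj), fac_length, fac_get _ _ _ _ (by omega),
      fac_get _ _ _ _ hj, h _ (by omega)]
    congr 3; omega
  · rw [List.getElem?_eq_none (by simp; omega), List.getElem?_eq_none (by simp; omega)]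

/-- a sufficient condition for being an image -/
lemma isImage_of (μ : B → List A) (y : ℕ → B) (u : ℕ → A) (f : ℕ → ℕ) (h0 : f 0 = 0)
    (h1 : ∀ n, f (n + 1) = f n + (μ (y n)).length) (h2 : ∀ n, μ (y n) = fac u (f n) (μ (y n)).length)
    (h3 : ∀ n, n ≤ f n) : IsImage μ y u := by
  have key : ∀ n, (fac y 0 n).flatMap μ = fac u 0 (f n) := by
    intro n
    induction n with
    | zero => simp [fac_zero, h0]
    | succ n ih =>
      rw [fac_succ, List.flatMap_append, ih, h1, fac_add]
      simp only [List.flatMap_cons, List.flatMap_nil, List.append_nil, Nat.zero_add]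
      rw [← h2]
  refine ⟨fun n => ?_, fun m => ⟨m, ?_⟩⟩
  · rw [key, fac_length]
  · rw [key, fac_length]; exact h3 m

lemma palindromic_of (u : ℕ → A) (h : ∀ N, ∃ l n, N ≤ n ∧ ∀ j, j < n → u (l + j) = u (l + (n - 1 - j))) :
    Palindromic u := by
  apply Set.Infinite.of_image List.length
  apply Set.infinite_of_forall_exists_gt
  intro N
  obtain ⟨l, n, h1, h2⟩ := h (N + 1)
  exact ⟨n, ⟨fac u l n, ⟨⟨l, n, rfl⟩, fac_rev u l n l h2⟩, by simp⟩, by omega⟩

def Good (ψ : B → List A) (p : List A) : Prop :=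
  p.reverse = p ∧ ∀ b, ψ b ++ p = p ++ (ψ b).reverse

lemma good_of_classP (ψ : B → List A) (h : ClassP ψ) : ∃ p, Good ψ p := by
  obtain ⟨p, hp, h⟩ := h
  refine ⟨p, hp, fun b => ?_⟩
  obtain ⟨q, hq, e⟩ := h b
  rw [e, List.reverse_append, hp, hq, List.append_assoc]

lemma Good.word {ψ : B → List A} {p : List A} (h : Good ψ p) (w : List B) :
    w.flatMap ψ ++ p = p ++ (w.reverse.flatMap ψ).reverse := by
  induction w with
  | nil => simp
  | cons b w ih =>
    simp only [List.flatMap_cons, List.reverse_cons, List.flatMap_append, List.flatMap_nil,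
      List.append_nil, List.reverse_append, List.append_assoc]
    rw [ih, ← List.append_assoc, h.2 b, List.append_assoc]

lemma Good.comp {ψ : B → List A} {p : List A} (h : Good ψ p) {φ : C → List B} {q : List B}
    (g : Good φ q) : Good (fun c => (φ c).flatMap ψ) (q.flatMap ψ ++ p) := by
  constructor
  · rw [List.reverse_append, h.1, h.word q, g.1]
  · intro c
    show (φ c).flatMap ψ ++ (q.flatMap ψ ++ p) = q.flatMap ψ ++ p ++ ((φ c).flatMap ψ).reverse
    rw [← List.append_assoc, ← List.flatMap_append, g.2 c, List.flatMap_append, List.append_assoc,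
      h.word (φ c).reverse, List.reverse_reverse, List.append_assoc]

lemma Good.pal {ψ : B → List A} {p : List A} (h : Good ψ p) (w : List B) (hw : w.reverse = w) :
    (w.flatMap ψ ++ p).reverse = w.flatMap ψ ++ p := by
  rw [List.reverse_append, h.1, h.word w, hw]

/-- two-sided conjugacy -/
def C2 (F F' : B → List A) : Prop :=
  ∃ g1 g2 h1 h2 : List A, ∀ x : List B, g1 ++ x.flatMap F ++ g2 = h1 ++ x.flatMap F' ++ h2

lemma conj_word {F F' : B → List A} {w : List A} (h : ∀ b, F b ++ w = w ++ F' b) (x : List B) :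
    x.flatMap F ++ w = w ++ x.flatMap F' := by
  induction x with
  | nil => simp
  | cons b x ih =>
    simp only [List.flatMap_cons, List.append_assoc]
    rw [ih, ← List.append_assoc, h b, List.append_assoc]

lemma c2_of_conj {F F' : B → List A} (h : Conj F F') : C2 F F' := by
  obtain ⟨w, h | h⟩ := h
  · exact ⟨[], w, w, [], fun x => by simpa using conj_word h x⟩
  · exact ⟨w, [], [], w, fun x => by simpa using (conj_word h x).symm⟩

lemma C2.comp {ψ ψ' : B → List A} (h : C2 ψ ψ') {φ φ' : C → List B} (g : C2 φ φ') :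
    C2 (fun c => (φ c).flatMap ψ) (fun c => (φ' c).flatMap ψ') := by
  obtain ⟨g1, g2, h1, h2, h⟩ := h
  obtain ⟨k1, k2, l1, l2, g⟩ := g
  refine ⟨g1 ++ k1.flatMap ψ, k2.flatMap ψ ++ g2, h1 ++ l1.flatMap ψ', l2.flatMap ψ' ++ h2, fun x => ?_⟩
  have e1 := h (k1 ++ x.flatMap φ ++ k2)
  have e2 := h (l1 ++ x.flatMap φ' ++ l2)
  rw [g x] at e1
  have e3 := h (k1 ++ x.flatMap φ ++ k2)
  rw [← List.flatMap_assoc, ← List.flatMap_assoc]
  have e4 : g1 ++ (k1 ++ x.flatMap φ ++ k2).flatMap ψ ++ g2 =
      h1 ++ (l1 ++ x.flatMap φ' ++ l2).flatMap ψ' ++ h2 := by rw [g x]; exact e2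
  simpa [List.flatMap_append, List.append_assoc] using e4

lemma C2.len {F F' : B → List A} (h : C2 F F') (b : B) : (F' b).length = (F b).length := by
  obtain ⟨g1, g2, h1, h2, h⟩ := h
  have a1 := congrArg List.length (h [])
  have a2 := congrArg List.length (h [b])
  simp at a1 a2
  omega

/-- class P' is stable under composition, in the form: two-sided conjugate of a good morphism -/
def GP (F : B → List A) : Prop := ∃ F' p, C2 F F' ∧ Good F' p

lemma gp_of (F : B → List A) (h : ClassP' F) : GP F := by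
  obtain ⟨ψ, h1, h2⟩ := h
  obtain ⟨p, hp⟩ := good_of_classP ψ h1
  exact ⟨ψ, p, c2_of_conj h2, hp⟩

lemma GP.comp {ψ : B → List A} (h : GP ψ) {φ : C → List B} (g : GP φ) :
    GP (fun c => (φ c).flatMap ψ) := by
  obtain ⟨ψ', p, h1, h2⟩ := h
  obtain ⟨φ', q, g1, g2⟩ := g
  exact ⟨_, _, h1.comp g1, h2.comp g2⟩

def pw (φ : B → List B) (k : ℕ) (b : B) : List B := (fun w : List B => w.flatMap φ)^[k] [b]

lemma pw_succ (φ : B → List B) (k : ℕ) : pw φ (k + 1) = fun b => (pw φ k b).flatMap φ := by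
  funext b; simp only [pw]; rw [Function.iterate_succ_apply']

lemma pw_zero (φ : B → List B) : pw φ 0 = fun b => [b] := rfl

lemma gp_id : GP (fun b : B => [b]) :=
  ⟨fun b => [b], [], ⟨[], [], [], [], fun _ => rfl⟩, rfl, fun b => by simp⟩

lemma GP.pw {φ : B → List B} (h : GP φ) (k : ℕ) : GP (pw φ k) := by
  induction k with
  | zero => exact gp_id
  | succ k ih => rw [pw_succ]; exact h.comp ih

/-- initial segments go to initial segments -/
def Pre (μ : B → List A) (y : ℕ → B) (u : ℕ → A) : Prop :=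
  ∀ n, ∃ m, (fac y 0 n).flatMap μ = fac u 0 m

lemma IsImage.pre {μ : B → List A} {y : ℕ → B} {u : ℕ → A} (h : IsImage μ y u) : Pre μ y u :=
  fun n => ⟨_, h.1 n⟩

lemma Pre.comp {μ : B → List A} {y : ℕ → B} {u : ℕ → A} (h : Pre μ y u) {φ : C → List B} {z : ℕ → C}
    (g : Pre φ z y) : Pre (fun c => (φ c).flatMap μ) z u := by
  intro n
  obtain ⟨m, e⟩ := g n
  obtain ⟨m', e'⟩ := h m
  exact ⟨m', by rw [← List.flatMap_assoc, e, e']⟩

lemma Pre.pw {φ : B → List B} {y : ℕ → B} (h : Pre φ y y) (k : ℕ) : Pre (pw φ k) y y := by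
  induction k with
  | zero => intro n; exact ⟨n, by simp [pw_zero]⟩
  | succ k ih => rw [pw_succ]; exact h.comp ih

lemma len_flat (F : B → List A) (N : ℕ) (h : ∀ b, N ≤ (F b).length) (x : List B) :
    N * x.length ≤ (x.flatMap F).length := by
  induction x with
  | nil => simp
  | cons b x ih =>
    simp only [List.flatMap_cons, List.length_append, List.length_cons]
    have := h b
    nlinarith

lemma Pre.fac {μ : B → List A} {y : ℕ → B} {u : ℕ → A} (h : Pre μ y u) (i n : ℕ) :
    ∃ i', (fac y i n).flatMap μ = fac u i' ((fac y i n).flatMap μ).length := by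
  obtain ⟨m, e⟩ := h i
  obtain ⟨m', e'⟩ := h (i + n)
  rw [fac_add, List.flatMap_append, e, Nat.zero_add] at e'
  have hl := congrArg List.length e'
  simp only [List.length_append, fac_length] at hl
  rw [← hl, fac_add] at e'
  exact ⟨_, List.append_cancel_left e'⟩

lemma two_le_len (w : List B) (a b : B) (hab : a ≠ b) (ha : a ∈ w) (hb : b ∈ w) : 2 ≤ w.length := by
  match w, ha, hb with
  | [], ha, _ => simp at ha
  | [x], ha, hb => simp at ha hb; exact absurd (ha.trans hb.symm) hab
  | _ :: _ :: _, _, _ => simp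

end Pool.Agent.H17.HKS
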