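import Pool.Agent.H17.HKS1

set_option autoImplicit false

namespace Pool.Agent.H17.HKS

def pat (r : ℕ) : Fin 3 := if r = 4 ∨ r = 5 ∨ r = 10 ∨ r = 12 then 1 else 2

def yy (n : ℕ) : Fin 3 := if h : n % 13 = 11 then yy (n / 13) else pat (n % 13)
decreasing_by omega

lemma yy_h (n : ℕ) (h : n % 13 = 11) : yy n = yy (n / 13) := by rw [yy, dif_pos h]

lemma yy_p (n : ℕ) (h : n % 13 ≠ 11) : yy n = pat (n % 13) := by rw [yy, dif_neg h]

lemma yy_b (n : ℕ) (h : n % 13 = 4 ∨ n % 13 = 5 ∨ n % 13 = 10 ∨ n % 13 = 12) : yy n = 1 := by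
  rw [yy_p n (by omega), pat, if_pos h]

lemma yy_c (n : ℕ) (h : n % 13 < 4 ∨ (6 ≤ n % 13 ∧ n % 13 ≤ 9)) : yy n = 2 := by
  rw [yy_p n (by omega), pat, if_neg (by omega)]

lemma yy_ne (n : ℕ) : yy n ≠ 0 := by
  induction n using Nat.strong_induction_on with
  | _ n ih =>
    by_cases h : n % 13 = 11
    · rw [yy_h n h]; exact ih _ (by omega)
    · rw [yy_p n h, pat]; split_ifs <;> decide

lemma ne_bc (i j : ℕ) (hi : i % 13 = 4 ∨ i % 13 = 5 ∨ i % 13 = 10 ∨ i % 13 = 12)
    (hj : j % 13 < 4 ∨ (6 ≤ j % 13 ∧ j % 13 ≤ 9)) : yy i ≠ yy j := by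
  rw [yy_b i hi, yy_c j hj]; decide

lemma refl_res : ∀ e < 13, e ≠ 9 → ∃ r < 13, r ≠ 11 ∧ (e + 13 - r) % 13 ≠ 11 ∧
    pat r ≠ pat ((e + 13 - r) % 13) := by decide

lemma shift_res : ∀ e < 13, e ≠ 0 → ∃ r < 13, r ≠ 11 ∧ (r + e) % 13 ≠ 11 ∧
    pat r ≠ pat ((r + e) % 13) := by decide

lemma phase (c l : ℕ) (h : ∀ j, l ≤ j → j + l ≤ c → yy j = yy (c - j)) (hl : 2 * l + 13 ≤ c + 1) :
    c % 13 = 9 := by
  by_contra hc
  obtain ⟨r, h1, h2, h3, h4⟩ := refl_res (c % 13) (by omega) hc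
  have := h (l + (r + 13 - l % 13) % 13) (by omega) (by omega)
  rw [yy_p _ (by omega), yy_p _ (by omega)] at this
  apply h4
  convert this using 2 <;> omega

lemma descent (Q : ℕ) : 1 ≤ Q → ∀ c l2 l1 : ℕ, (∀ j, l2 ≤ j → j + l2 ≤ c → yy j = yy (c - j)) →
    2 * l2 + 13 * Q ≤ c + 1 → (∀ j, l1 ≤ j → j + Q + l1 ≤ c → yy (j + Q) = yy j) →
    2 * l1 + 4 * Q ≤ c + 1 → False := by
  induction Q using Nat.strong_induction_on with
  | _ Q ih =>
  intro hQ c l2 l1 h2 hl2 h1 hl1
  have hc := phase c l2 h2 (by omega)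
  by_cases h5 : 5 ≤ Q
  · have hq : Q % 13 = 0 := by
      by_contra hq
      obtain ⟨r, a1, a2, a3, a4⟩ := shift_res (Q % 13) (by omega) hq
      have := h1 (l1 + (r + 13 - l1 % 13) % 13) (by omega) (by omega)
      rw [yy_p _ (by omega), yy_p _ (by omega)] at this
      apply a4
      convert this.symm using 2 <;> omega
    refine ih (Q / 13) (by omega) (by omega) (c / 13 - 1) ((l2 + 1) / 13) ((l1 + 1) / 13) ?_ (by omega)
      ?_ (by omega)
    · intro j a1 a2
      have := h2 (13 * j + 11) (by omega) (by omega)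
      rw [yy_h (13 * j + 11) (by omega), yy_h (c - _) (by omega)] at this
      convert this using 2 <;> omega
    · intro j a1 a2
      have := h1 (13 * j + 11) (by omega) (by omega)
      rw [yy_h (13 * j + 11) (by omega), yy_h (_ + Q) (by omega)] at this
      convert this using 2 <;> omega
  · obtain ⟨m, hm | hm⟩ := Nat.even_or_odd' c
    · have : Q = 1 ∨ Q = 2 ∨ Q = 3 ∨ Q = 4 := by omega
      rcases this with rfl | rfl | rfl | rfl
      · exact ne_bc _ _ (by omega) (by omega) (h1 (m - 2) (by omega) (by omega))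
      · exact ne_bc _ _ (by omega) (by omega) (h1 (m - 3) (by omega) (by omega))
      · exact ne_bc _ _ (by omega) (by omega) (h1 (m - 4) (by omega) (by omega))
      · exact ne_bc _ _ (by omega) (by omega) (h1 (m - 5) (by omega) (by omega))
    · have : Q = 1 ∨ Q = 2 ∨ Q = 3 ∨ Q = 4 := by omega
      rcases this with rfl | rfl | rfl | rfl
      · exact ne_bc _ _ (by omega) (by omega) (h1 (m - 1) (by omega) (by omega))
      · exact ne_bc _ _ (by omega) (by omega) (h1 (m - 2) (by omega) (by omega))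
      · exact ne_bc _ _ (by omega) (by omega) (h1 (m - 3) (by omega) (by omega))
      · exact ne_bc _ _ (by omega) (by omega) (h1 (m - 4) (by omega) (by omega))

def uu (n : ℕ) : Fin 3 := if n % 5 = 4 then yy (n / 5) else 0

lemma uu_h (n : ℕ) (h : n % 5 = 4) : uu n = yy (n / 5) := by rw [uu, if_pos h]

lemma uu_a (n : ℕ) (h : n % 5 ≠ 4) : uu n = 0 := by rw [uu, if_neg h]

lemma descent_u (Q : ℕ) (hQ : 2 ≤ Q) (c l2 l1 : ℕ)
    (h2 : ∀ j, l2 ≤ j → j + l2 ≤ c → uu j = uu (c - j)) (hl2 : 2 * l2 + 13 * Q ≤ c + 1)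
    (h1 : ∀ j, l1 ≤ j → j + Q + l1 ≤ c → uu (j + Q) = uu j) (hl1 : 2 * l1 + 4 * Q ≤ c + 1) : False := by
  have hc : c % 5 = 3 := by
    by_contra hc
    have := h2 (l2 + (9 - l2 % 5) % 5) (by omega) (by omega)
    rw [uu_h _ (by omega), uu_a _ (by omega)] at this
    exact yy_ne _ this
  have hq : Q % 5 = 0 := by
    by_contra hc
    have := h1 (l1 + (9 - l1 % 5) % 5) (by omega) (by omega)
    rw [uu_a _ (by omega), uu_h _ (by omega)] at this
    exact yy_ne _ this.symm
  refine descent (Q / 5) (by omega) (c / 5 - 1) (l2 / 5) (l1 / 5) ?_ (by omega) ?_ (by omega)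
  · intro j a1 a2
    have := h2 (5 * j + 4) (by omega) (by omega)
    rw [uu_h _ (by omega), uu_h _ (by omega)] at this
    convert this using 2 <;> omega
  · intro j a1 a2
    have := h1 (5 * j + 4) (by omega) (by omega)
    rw [uu_h _ (by omega), uu_h _ (by omega)] at this
    convert this using 2 <;> omega

lemma pat_sym : ∀ r < 13, r ≠ 11 → pat r = pat ((22 - r) % 13) := by decide

lemma even_pal (N : ℕ) : ∃ m l, 2 * l + N ≤ 2 * m ∧
    ∀ j, l ≤ j → j + l ≤ 2 * m + 1 → yy j = yy (2 * m + 1 - j) := by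
  induction N with
  | zero =>
    refine ⟨4, 4, by omega, fun j a1 a2 => ?_⟩
    rw [yy_b _ (by omega), yy_b _ (by omega)]
  | succ N ih =>
    obtain ⟨m, l, h1, h2⟩ := ih
    refine ⟨13 * m + 17, 13 * l + 11, by omega, fun j a1 a2 => ?_⟩
    by_cases hj : j % 13 = 11
    · rw [yy_h _ hj, yy_h (_ - j) (by omega), h2 _ (by omega) (by omega)]
      congr 1; omega
    · rw [yy_p _ hj, yy_p (_ - j) (by omega), pat_sym _ (by omega) hj]
      congr 1; omega

lemma even_pal_u (N : ℕ) : ∃ m l, l + N ≤ 5 * m + 5 ∧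
    ∀ j, l ≤ j → j + l ≤ 10 * m + 13 → uu j = uu (10 * m + 13 - j) := by
  obtain ⟨m, l, h1, h2⟩ := even_pal N
  refine ⟨m, 5 * l + 4, by omega, fun j a1 a2 => ?_⟩
  by_cases hj : j % 5 = 4
  · rw [uu_h _ hj, uu_h _ (by omega), h2 _ (by omega) (by omega)]
    congr 1; omega
  · rw [uu_a _ hj, uu_a _ (by omega)]

lemma uu_pal : Palindromic uu := by
  apply palindromic_of
  intro N
  obtain ⟨m, l, h1, h2⟩ := even_pal_u N
  refine ⟨l, 10 * m + 14 - 2 * l, by omega, fun j hj => ?_⟩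
  rw [h2 _ (by omega) (by omega)]
  congr 1; omega

def tau (w : List (Fin 3)) : List (Fin 3) := w.flatMap (fun x => [0, 0, 0, 0, x])

def ph (x : Fin 3) : List (Fin 3) :=
  if x = 0 then tau [2] else tau [1, 1, 2, 2, 2, 2, 1, x, 1]

lemma ph_prim : Prim ph := ⟨2, by omega, by decide +kernel⟩

lemma fac_tau (i n : ℕ) : fac uu (5 * i) (5 * n) = tau (fac yy i n) := by
  induction n with
  | zero => rfl
  | succ n ih =>
    rw [show 5 * (n + 1) = 5 * n + 5 by ring, fac_add, ih, fac_succ yy]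
    have e : fac uu (5 * i + 5 * n) 5 = [0, 0, 0, 0, yy (i + n)] := by
      simp only [fac, List.range_succ, List.range_zero, List.map_cons, List.map_nil,
        List.nil_append, List.cons_append]
      rw [uu_a (_ + 0) (by omega), uu_a (_ + 1) (by omega), uu_a (_ + 2) (by omega),
        uu_a (_ + 3) (by omega), uu_h (_ + 4) (by omega)]
      congr 6; omega
    rw [e]
    simp [tau]

lemma ph_fix : IsImage ph uu uu := by
  apply isImage_of ph uu uu (fun n => 65 * (n / 5) + 5 * (n % 5)) rfl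
  · intro n
    by_cases h : n % 5 = 4
    · rw [uu_h n h, ph, if_neg (yy_ne _)]
      simp [tau]; omega
    · rw [uu_a n h, ph, if_pos rfl]
      simp [tau]; omega
  · intro n
    by_cases h : n % 5 = 4
    · rw [uu_h n h, ph, if_neg (yy_ne _)]
      rw [show 65 * (n / 5) + 5 * (n % 5) = 5 * (13 * (n / 5) + 4) by omega,
        show (tau [1, 1, 2, 2, 2, 2, 1, yy (n / 5), 1]).length = 5 * 9 by simp [tau], fac_tau]
      congr 1
      simp only [fac, List.range_succ, List.range_zero, List.map_cons, List.map_nil,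
        List.nil_append, List.cons_append]
      rw [yy_b (_ + 0) (by omega), yy_b (_ + 1) (by omega), yy_c (_ + 2) (by omega),
        yy_c (_ + 3) (by omega), yy_c (_ + 4) (by omega), yy_c (_ + 5) (by omega),
        yy_b (_ + 6) (by omega), yy_h (_ + 7) (by omega), yy_b (_ + 8) (by omega)]
      congr 9; omega
    · rw [uu_a n h, ph, if_pos rfl]
      rw [show 65 * (n / 5) + 5 * (n % 5) = 5 * (13 * (n / 5) + n % 5) by omega,
        show (tau [2]).length = 5 * 1 by simp [tau], fac_tau]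
      congr 1
      simp only [fac, List.range_succ, List.range_zero, List.map_cons, List.map_nil,
        List.nil_append]
      rw [yy_c _ (by omega)]
  · intro n; omega

end Pool.Agent.H17.HKS
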