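import Pool.Agent.H17.HKS2

set_option autoImplicit false

namespace Pool.Agent.H17.HKS

variable {A B : Type}

lemma mid_get (a b c : List A) (t : ℕ) (h : t < b.length) : (a ++ b ++ c)[a.length + t]? = b[t]? := by
  rw [List.append_assoc, List.getElem?_append_right (by omega), Nat.add_sub_cancel_left,
    List.getElem?_append_left h]

lemma pal_get (w : List A) (hw : w.reverse = w) (t : ℕ) (h : t < w.length) :
    w[t]? = w[w.length - 1 - t]? := by
  conv_lhs => rw [← hw]
  rw [List.getElem?_reverse h]

lemma transfer (u : ℕ → A) (i n : ℕ) (g1 g2 h1 h2 X : List A)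
    (e : g1 ++ fac u i n ++ g2 = h1 ++ X ++ h2) (t : ℕ) (a1 : g1.length ≤ t)
    (a2 : t + g2.length < X.length) : X[t]? = some (u (i + h1.length + t - g1.length)) := by
  have hl := congrArg List.length e
  simp only [List.length_append, fac_length] at hl
  rw [← mid_get h1 X h2 t (by omega), ← e,
    show h1.length + t = g1.length + (h1.length + t - g1.length) by omega,
    mid_get _ _ _ _ (by simp; omega), fac_get _ _ _ _ (by omega)]
  congr 2; omega

lemma per4 (V p : List A) (h : V ++ p = p ++ V.reverse) (t : ℕ) (ht : t < 3 * V.length + p.length) :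
    (V ++ V ++ V ++ V ++ p)[t + V.length]? = (V ++ V ++ V ++ V ++ p)[t]? := by
  have e1 : V ++ V ++ V ++ V ++ p = V ++ (V ++ V ++ V ++ p) ++ [] := by simp
  have e2 : V ++ V ++ V ++ V ++ p = [] ++ (V ++ V ++ V ++ p) ++ V.reverse := by
    rw [List.append_assoc _ V p, h]; simp
  have a1 := mid_get V (V ++ V ++ V ++ p) [] t (by simp; omega)
  have a2 := mid_get [] (V ++ V ++ V ++ p) V.reverse t (by simp; omega)
  rw [← e1] at a1
  rw [← e2] at a2
  rw [Nat.add_comm, a1, ← a2]; simp

theorem no_classP (ψ : Fin 3 → List (Fin 3)) (v : ℕ → Fin 3) (hp : Prim ψ) (hc : ClassP' ψ)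
    (hf : IsImage ψ v v) (hl : lang v = lang uu) : False := by
  obtain ⟨k, -, hpr⟩ := hp
  obtain ⟨F', p, hC, hG⟩ := (gp_of ψ hc).pw k
  have h2 : ∀ b, 2 ≤ (F' b).length := fun b => by
    rw [hC.len b]; exact two_le_len _ 0 1 (by decide) (hpr b 0) (hpr b 1)
  obtain ⟨g1, g2, h1, h2', hC⟩ := hC
  obtain ⟨m, l, a1, a2⟩ := even_pal_u (7 * (F' 0).length + (g1.length + g2.length + p.length))
  obtain ⟨S, hS⟩ : ∃ S, 5 * m + 5 = l + S := ⟨5 * m + 5 - l, by omega⟩
  have hx : fac uu l (S + 4 + S) = fac uu l S ++ [0, 0, 0, 0] ++ fac uu (l + (S + 4)) S := by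
    rw [fac_add, fac_add]
    congr 2
    simp only [fac, List.range_succ, List.range_zero, List.map_cons, List.map_nil,
      List.nil_append, List.cons_append]
    rw [uu_a (_ + 0) (by omega), uu_a (_ + 1) (by omega), uu_a (_ + 2) (by omega),
      uu_a (_ + 3) (by omega)]
  have hs : (fac uu (l + (S + 4)) S).reverse = fac uu l S := by
    apply fac_rev
    intro j hj
    rw [a2 _ (by omega) (by omega)]
    congr 1; omega
  have hxp : (fac uu l (S + 4 + S)).reverse = fac uu l (S + 4 + S) := by
    apply fac_rev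
    intro j hj
    rw [a2 _ (by omega) (by omega)]
    congr 1; omega
  obtain ⟨i, n, e⟩ : fac uu l (S + 4 + S) ∈ lang v := by rw [hl]; exact ⟨_, _, rfl⟩
  obtain ⟨i', e'⟩ := (hf.pre.pw k).fac i n
  obtain ⟨i0, n0, e0⟩ : (fac uu l (S + 4 + S)).flatMap (pw ψ k) ∈ lang uu := by
    rw [← hl, e]; exact ⟨_, _, e'⟩
  have E := hC (fac uu l (S + 4 + S))
  rw [e0] at E
  have hW := hG.pal _ hxp
  have hW2 : (fac uu l (S + 4 + S)).flatMap F' ++ p = (fac uu l S).flatMap F' ++
      (F' 0 ++ F' 0 ++ F' 0 ++ F' 0 ++ p) ++ ((fac uu l S).flatMap F').reverse := by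
    rw [hx, List.flatMap_append, List.append_assoc, hG.word, hs]
    simp
  have hM := len_flat F' 2 h2 (fac uu l S)
  rw [fac_length] at hM
  have hlen := congrArg List.length hW2
  simp only [List.length_append, List.length_reverse] at hlen
  have T : ∀ t, g1.length ≤ t → t + g2.length < ((fac uu l (S + 4 + S)).flatMap F').length →
      ((fac uu l (S + 4 + S)).flatMap F' ++ p)[t]? = some (uu (i0 + h1.length + t - g1.length)) := by
    intro t b1 b2
    rw [List.getElem?_append_left (by omega)]
    exact transfer uu i0 n0 g1 g2 h1 h2' _ E t b1 b2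
  generalize hX : (fac uu l (S + 4 + S)).flatMap F' = X at *
  generalize hY : (fac uu l S).flatMap F' = Y at *
  obtain ⟨K, hK⟩ : ∃ K, K = g1.length + g2.length + p.length := ⟨_, rfl⟩
  obtain ⟨D, hD⟩ : ∃ D, D + g1.length = i0 + h1.length + K := ⟨i0 + h1.length + K - g1.length, by omega⟩
  have hq := h2 0
  refine descent_u (F' 0).length hq (2 * D + (X.length + p.length - 2 * K - 1)) D (D + (Y.length - K))
    ?_ (by omega) ?_ (by omega)
  · intro j b1 b2
    have := pal_get _ hW (K + (j - D)) (by simp; omega)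
    rw [T _ (by omega) (by omega), List.length_append, T _ (by omega) (by omega)] at this
    have := Option.some.inj this
    convert this using 2 <;> omega
  · intro j b1 b2
    have := per4 (F' 0) p (hG.2 0) (K + (j - D) - Y.length) (by omega)
    rw [← mid_get Y _ Y.reverse _ (by simp; omega), ← mid_get Y _ Y.reverse (K + (j - D) - Y.length)
      (by simp; omega), ← hW2, T _ (by omega) (by omega), T _ (by omega) (by omega)] at this
    have := Option.some.inj this
    convert this using 2 <;> omega

end Pool.Agent.H17.HKS
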