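import Pool.Agent.H17.HKSDefs

set_option autoImplicit false

namespace Pool.Agent.H17.HKS

/-- class P in the form: p is a palindrome, an initial segment of every ψ b, and ψ b p is a palindrome -/
def ClassQ {B A : Type} (ψ : B → List A) : Prop :=
  ∃ p : List A, p.reverse = p ∧ ∀ b, p <+: ψ b ∧ (ψ b ++ p).reverse = ψ b ++ p

/-- conjugate to a morphism in class P -/
def ClassQ' {B A : Type} (φ : B → List A) : Prop := ∃ ψ : B → List A, ClassQ ψ ∧ Conj φ ψ

end Pool.Agent.H17.HKS
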