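import Pool.Agent.H17.HKS3
import Pool.Agent.H17.HKSDefs2

set_option autoImplicit false

namespace Pool.Agent.H17.HKS

variable {A B : Type}

lemma gp_ofQ (F : B → List A) (h : ClassQ' F) : GP F := by
  obtain ⟨ψ, ⟨p, hp, h1⟩, h2⟩ := h
  refine ⟨ψ, p, c2_of_conj h2, hp, fun b => ?_⟩
  rw [← (h1 b).2, List.reverse_append, hp]

lemma cover (F : B → List A) (p : List A) (hG : Good F p) (N M : ℕ) (hN : ∀ b, N ≤ (F b).length)
    (hM : ∀ b, (F b).length ≤ M) (x : List B) : ∀ t, t + M + p.length < (x.flatMap F).length →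
    ∃ l n, l ≤ t ∧ t < l + n ∧ N ≤ n ∧ n ≤ M + p.length ∧
      ∀ j, j < n → (x.flatMap F)[l + j]? = (x.flatMap F)[l + (n - 1 - j)]? := by
  induction x with
  | nil => intro t ht; simp at ht
  | cons b x ih =>
    intro t ht
    simp only [List.flatMap_cons, List.length_append] at ht ⊢
    have a1 := hN b
    have a2 := hM b
    by_cases h : t < (F b).length
    · have hp : p <+: x.flatMap F :=
        List.prefix_of_prefix_length_le (l₃ := x.flatMap F ++ p) (by rw [hG.word]; simp) (by simp)
          (by omega)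
      obtain ⟨r, hr⟩ := hp
      have hw := hG.pal [b] rfl
      simp only [List.flatMap_cons, List.flatMap_nil, List.append_nil] at hw
      refine ⟨0, (F b).length + p.length, by omega, by omega, by omega, by omega, fun j hj => ?_⟩
      rw [← hr, ← List.append_assoc, List.getElem?_append_left (l₂ := r) (by simp; omega),
        List.getElem?_append_left (l₂ := r) (by simp; omega), Nat.zero_add, Nat.zero_add,
        pal_get _ hw j (by simp; omega), List.length_append]
    · obtain ⟨l, n, b1, b2, b3, b4, b5⟩ := ih (t - (F b).length) (by omega)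
      refine ⟨(F b).length + l, n, by omega, by omega, b3, b4, fun j hj => ?_⟩
      rw [List.getElem?_append_right (by omega), List.getElem?_append_right (by omega)]
      convert b5 j hj using 2 <;> omega

def pi4 (x : Fin 4) : Fin 4 := if x = 0 then 1 else if x = 1 then 0 else x

def pt (r : ℕ) : Fin 4 :=
  if r = 1 ∨ r = 6 then 2 else if r = 2 ∨ r = 5 then 3 else if r = 3 then 0 else 1

def zz (n : ℕ) : Fin 4 := if n = 0 then 0 else if h : n % 7 = 0 then zz (n / 7) else pt (n % 7)
decreasing_by omega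

lemma zz_h (n : ℕ) (h : n % 7 = 0) : zz n = zz (n / 7) := by
  by_cases h0 : n = 0
  · subst h0; rfl
  · rw [zz, if_neg h0, dif_pos h]

lemma zz_p (n : ℕ) (h : n % 7 ≠ 0) : zz n = pt (n % 7) := by
  rw [zz, if_neg (by omega), dif_neg h]

lemma zz_at (n r : ℕ) (h : n % 7 = r) (h0 : r ≠ 0) : zz n = pt r := by rw [zz_p n (by omega), h]

lemma zz_J (k : ℕ) : zz (3 * 7 ^ k) = 0 := by
  induction k with
  | zero => rw [zz_at _ 3 (by norm_num) (by omega)]; rfl
  | succ k ih => rw [zz_h _ (by omega), ← ih]; congr 1; omega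

lemma refl7 : ∀ e < 7, e ≠ 0 → ∃ r < 7, r ≠ 0 ∧ (e + 7 - r) % 7 ≠ 0 ∧
    pt ((e + 7 - r) % 7) ≠ pi4 (pt r) := by decide

lemma pt_one : ∀ r < 7, r ≠ 0 → pt r = 1 → r = 4 := by decide

lemma noc (k : ℕ) : ∀ c l, (∀ j, l ≤ j → j + l ≤ c → zz (c - j) = pi4 (zz j)) → l ≤ 3 * 7 ^ k →
    3 * 7 ^ k + l ≤ c → c + 1 ≤ 2 * l + 7 ^ k → False := by
  induction k with
  | zero =>
    intro c l h a1 a2 a3
    have := h 3 (by omega) (by omega)
    rw [show c - 3 = 3 by omega, zz_at _ 3 (by norm_num) (by omega)] at this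
    exact absurd this (by decide)
  | succ k ih =>
    intro c l h a1 a2 a3
    have hJ := zz_J (k + 1)
    have hpos : 0 < 7 ^ k := by positivity
    rw [pow_succ] at a1 a2 a3 hJ
    generalize 7 ^ k = J at *
    by_cases hl : 2 * l + 7 ≤ c + 1
    · have hc : c % 7 = 0 := by
        by_contra hc
        obtain ⟨r, h1, h2, h3, h4⟩ := refl7 (c % 7) (by omega) hc
        have := h (l + (r + 7 - l % 7) % 7) (by omega) (by omega)
        rw [zz_at (c - _) ((c % 7 + 7 - r) % 7) (by omega) h3, zz_at (l + _) r (by omega) h2] at this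
        exact h4 this
      refine ih (c / 7) ((l + 6) / 7) ?_ (by omega) (by omega) (by omega)
      intro j b1 b2
      have := h (7 * j) (by omega) (by omega)
      rw [zz_h (7 * j) (by omega), zz_h (c - _) (by omega)] at this
      convert this using 3 <;> omega
    · have h0 := h (3 * (J * 7)) a1 a2
      rw [hJ] at h0
      by_cases e0 : (c - 3 * (J * 7)) % 7 = 0
      · rw [show c - 3 * (J * 7) = 3 * (J * 7) by omega, hJ] at h0
        exact absurd h0 (by decide)
      · rw [zz_p _ e0] at h0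
        have h4 := pt_one _ (by omega) e0 h0
        by_cases e1 : 3 * (J * 7) ≤ c - 3 * (J * 7)
        · have := h (3 * (J * 7) + 1) (by omega) (by omega)
          rw [zz_at (c - _) 3 (by omega) (by omega), zz_at _ 1 (by omega) (by omega)] at this
          exact absurd this (by decide)
        · have := h (3 * (J * 7) - 1) (by omega) (by omega)
          rw [zz_at (c - _) 5 (by omega) (by omega), zz_at _ 6 (by omega) (by omega)] at this
          exact absurd this (by decide)

def ww (n : ℕ) : Fin 4 := if n % 2 = 0 then zz (n / 2) else pi4 (zz (n / 2))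

lemma ww_e (n : ℕ) (h : n % 2 = 0) : ww n = zz (n / 2) := by rw [ww, if_pos h]

lemma ww_o (n : ℕ) (h : n % 2 = 1) : ww n = pi4 (zz (n / 2)) := by rw [ww, if_neg (by omega)]

lemma pi4_pi4 : ∀ x, pi4 (pi4 x) = x := by decide

lemma pq : ∀ x, x = 3 → pi4 x ≠ 2 := by decide

lemma noc_w (k l n : ℕ) (h : ∀ j, j < n → ww (l + j) = ww (l + (n - 1 - j))) (a1 : l ≤ 6 * 7 ^ k)
    (a2 : 6 * 7 ^ k < l + n) (a3 : 16 ≤ n) (a4 : n ≤ 7 ^ k) : False := by
  have hn : n % 2 = 0 := by
    by_contra hn
    obtain ⟨j, b1, b2⟩ : ∃ j, j < 14 ∧ (l + j) % 14 = 3 := ⟨(17 - l % 14) % 14, by omega, by omega⟩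
    have e1 := h j (by omega)
    have e2 := h (j + 1) (by omega)
    rw [ww_o _ (by omega), zz_at _ 1 (by omega) (by omega), ww_o _ (by omega)] at e1
    rw [ww_e _ (by omega), zz_at _ 2 (by omega) (by omega), ww_e _ (by omega),
      show (l + (n - 1 - (j + 1))) / 2 = (l + (n - 1 - j)) / 2 by omega] at e2
    exact pq _ e2.symm e1.symm
  refine noc k (l + n / 2 - 1) (l / 2) ?_ (by omega) (by omega) (by omega)
  intro j b1 b2
  by_cases hj : l ≤ 2 * j
  · have := h (2 * j - l) (by omega)
    rw [ww_e _ (by omega), ww_o _ (by omega), show (l + (2 * j - l)) / 2 = j by omega] at this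
    rw [this, pi4_pi4]
    congr 1; omega
  · have := h 0 (by omega)
    rw [ww_o _ (by omega), ww_e _ (by omega), show (l + 0) / 2 = j by omega] at this
    rw [this]
    congr 1; omega

lemma pt_sym : ∀ r < 7, r ≠ 0 → pt (7 - r) = pi4 (pt r) := by decide

lemma zz_pal (N : ℕ) : ∃ c l, 2 * l + N + 1 ≤ c ∧ ∀ j, l ≤ j → j + l ≤ c → zz (c - j) = pi4 (zz j) := by
  induction N with
  | zero =>
    refine ⟨7, 3, by omega, fun j a1 a2 => ?_⟩
    rw [zz_at j j (by omega) (by omega), zz_at _ (7 - j) (by omega) (by omega),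
      pt_sym j (by omega) (by omega)]
  | succ N ih =>
    obtain ⟨c, l, h1, h2⟩ := ih
    refine ⟨7 * c, 7 * l, by omega, fun j a1 a2 => ?_⟩
    by_cases hj : j % 7 = 0
    · rw [zz_h j hj, zz_h (_ - j) (by omega), ← h2 _ (by omega) (by omega)]
      congr 1; omega
    · rw [zz_p j hj, zz_at _ (7 - j % 7) (by omega) (by omega), pt_sym _ (by omega) hj]

lemma ww_pal : Palindromic ww := by
  apply palindromic_of
  intro N
  obtain ⟨c, l, h1, h2⟩ := zz_pal N
  refine ⟨2 * l, 2 * (c + 1 - 2 * l), by omega, fun j hj => ?_⟩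
  have := h2 (l + j / 2) (by omega) (by omega)
  by_cases e : j % 2 = 0
  · rw [ww_e _ (by omega), ww_o _ (by omega),
      show (2 * l + (2 * (c + 1 - 2 * l) - 1 - j)) / 2 = c - (l + j / 2) by omega, this, pi4_pi4]
    congr 1; omega
  · rw [ww_o _ (by omega), ww_e _ (by omega),
      show (2 * l + (2 * (c + 1 - 2 * l) - 1 - j)) / 2 = c - (l + j / 2) by omega, this]
    congr 2; omega

def sg (x : Fin 4) : List (Fin 4) := [x, 2, 3, 0, 1, 3, 2]

def mu (x : Fin 4) : List (Fin 4) := [x, pi4 x]

lemma sg_prim : Prim sg := ⟨1, by omega, by decide⟩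

lemma sg_fix : IsImage sg zz zz := by
  apply isImage_of sg zz zz (fun n => 7 * n) rfl
  · intro n; simp [sg]; omega
  · intro n
    simp only [sg, fac, List.length_cons, List.length_nil, List.range_succ, List.range_zero,
      List.map_cons, List.map_nil, List.nil_append, List.cons_append]
    rw [zz_h (_ + 0) (by omega), zz_at (_ + 1) 1 (by omega) (by omega),
      zz_at (_ + 2) 2 (by omega) (by omega), zz_at (_ + 3) 3 (by omega) (by omega),
      zz_at (_ + 4) 4 (by omega) (by omega), zz_at (_ + 5) 5 (by omega) (by omega),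
      zz_at (_ + 6) 6 (by omega) (by omega), show (7 * n + 0) / 7 = n by omega]
    rfl
  · intro n; omega

lemma mu_img : IsImage mu zz ww := by
  apply isImage_of mu zz ww (fun n => 2 * n) rfl
  · intro n; simp [mu]; omega
  · intro n
    simp only [mu, fac, List.length_cons, List.length_nil, List.range_succ, List.range_zero,
      List.map_cons, List.map_nil, List.nil_append, List.cons_append]
    rw [ww_e (_ + 0) (by omega), ww_o (_ + 1) (by omega), show (2 * n + 0) / 2 = n by omega,
      show (2 * n + 1) / 2 = n by omega]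
  · intro n; omega

lemma core2 [Fintype B] (F : B → List (Fin 4)) (v : ℕ → B) (z : ℕ → Fin 4) (hF : GP F)
    (hN : ∀ b, 16 ≤ (F b).length) (hz : Pre F v z) (hl : lang z = lang ww) : False := by
  obtain ⟨F', p, hC, hG⟩ := hF
  have hN' : ∀ b, 16 ≤ (F' b).length := fun b => by rw [hC.len b]; exact hN b
  obtain ⟨M, hM⟩ : ∃ M, ∀ b, (F' b).length ≤ M :=
    ⟨Finset.univ.sup (fun b => (F' b).length),
      fun b => Finset.le_sup (f := fun b => (F' b).length) (Finset.mem_univ b)⟩
  obtain ⟨g1, g2, h1, h2, hC⟩ := hC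
  obtain ⟨R, hR⟩ : ∃ R, R = M + p.length + h1.length + h2.length := ⟨_, rfl⟩
  have hk : R < 7 ^ R := Nat.lt_pow_self (by norm_num)
  obtain ⟨i, n, e⟩ : fac ww (6 * 7 ^ R - R) (2 * R + 1) ∈ lang z := by rw [hl]; exact ⟨_, _, rfl⟩
  have hn : n = 2 * R + 1 := by simpa using (congrArg List.length e).symm
  subst hn
  have ez : ∀ j, j < 2 * R + 1 → z (i + j) = ww (6 * 7 ^ R - R + j) := by
    intro j hj
    have := fac_get z i _ j hj
    rw [← e, fac_get _ _ _ _ hj] at this
    exact (Option.some.inj this).symm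
  obtain ⟨m, em⟩ := hz (i + 2 * R + 1)
  have hm := len_flat F 16 hN (fac v 0 (i + 2 * R + 1))
  rw [em, fac_length, fac_length] at hm
  have E := hC (fac v 0 (i + 2 * R + 1))
  rw [em] at E
  have hlen := congrArg List.length E
  simp only [List.length_append, fac_length] at hlen
  obtain ⟨l, n, b1, b2, b3, b4, b5⟩ := cover F' p hG 16 M hN' hM (fac v 0 (i + 2 * R + 1))
    (i + R + g1.length - h1.length) (by omega)
  refine noc_w R (6 * 7 ^ R - R + (h1.length + l - g1.length - i)) n ?_ (by omega) (by omega) b3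
    (by omega)
  intro j hj
  have := b5 j hj
  rw [transfer z 0 m g1 g2 h1 h2 _ E _ (by omega) (by omega),
    transfer z 0 m g1 g2 h1 h2 _ E _ (by omega) (by omega)] at this
  have := Option.some.inj this
  rw [Nat.add_assoc, ← ez _ (by omega), Nat.add_assoc (6 * 7 ^ R - R), ← ez _ (by omega)]
  convert this using 2 <;> omega

lemma core3 [Fintype B] (G : B → List B) (ψ : B → List (Fin 4)) (v : ℕ → B) (z : ℕ → Fin 4)
    (hG : GP G) (hψ : GP ψ) (h2 : ∀ b, 2 ≤ (G b).length) (hall : ∀ a b, b ∈ G a) (hv : Pre G v v)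
    (hz : IsImage ψ v z) (hl : lang z = lang ww) : False := by
  obtain ⟨b0, hb0⟩ : ∃ b0, 1 ≤ (ψ b0).length := by
    obtain ⟨n, hn⟩ := hz.2 1
    by_contra hc
    push Not at hc
    have : (fac v 0 n).flatMap ψ = [] := by
      rw [List.flatMap_eq_nil_iff]
      intro b _
      exact List.eq_nil_of_length_eq_zero (by have := hc b; omega)
    rw [this] at hn; simp at hn
  have h1 : ∀ a, 1 ≤ ((G a).flatMap ψ).length := by
    intro a
    obtain ⟨s, t, e⟩ := List.append_of_mem (hall a b0)
    rw [e]; simp; omega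
  have hp : ∀ k b, 2 ^ k ≤ (pw G k b).length := by
    intro k
    induction k with
    | zero => intro b; simp [pw_zero]
    | succ k ih =>
      intro b
      rw [pw_succ]
      have := len_flat G 2 h2 (pw G k b)
      have := ih b
      show 2 ^ (k + 1) ≤ ((pw G k b).flatMap G).length
      rw [pow_succ]; omega
  refine core2 (fun b => (pw G 4 b).flatMap (fun a => (G a).flatMap ψ)) v z
    ((hψ.comp hG).comp (hG.pw 4)) (fun b => ?_) ((hz.pre.comp hv).comp (hv.pw 4)) hl
  have := len_flat _ 1 h1 (pw G 4 b)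
  have := hp 4 b
  omega

theorem no_classQ [Fintype B] (φ : B → List B) (ψ : B → List (Fin 4)) (v : ℕ → B) (z : ℕ → Fin 4)
    (hp : Prim φ) (h1 : ClassQ' φ) (h2 : ClassQ' ψ) (hv : IsImage φ v v) (hz : IsImage ψ v z)
    (hl : lang z = lang ww) : False := by
  by_cases hB : ∃ a b : B, a ≠ b
  · obtain ⟨a, b, hab⟩ := hB
    obtain ⟨k, -, hk⟩ := hp
    exact core3 (pw φ k) ψ v z ((gp_ofQ φ h1).pw k) (gp_ofQ ψ h2)
      (fun c => two_le_len _ a b hab (hk c a) (hk c b)) hk (hv.pre.pw k) hz hl
  · push Not at hB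
    refine core3 (fun b => [b, b]) ψ v z
      ⟨fun b => [b, b], [], ⟨[], [], [], [], fun _ => rfl⟩, rfl, fun b => by simp⟩ (gp_ofQ ψ h2)
      (fun b => by simp) (fun a b => by simp [hB a b]) (fun n => ⟨((fac v 0 n).flatMap (fun b => [b, b])).length, ?_⟩) hz hl
    apply List.ext_getElem
    · rw [fac_length]
    · intro j _ _; exact hB _ _

end Pool.Agent.H17.HKS
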