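import Mathlib

set_option autoImplicit false

namespace Pool.Agent.H17.HKS

/-- the factor of length n of the infinite word u starting at position i -/
def fac {A : Type} (u : ℕ → A) (i n : ℕ) : List A := (List.range n).map (fun j => u (i + j))

/-- the language of an infinite word: the set of its finite factors -/
def lang {A : Type} (u : ℕ → A) : Set (List A) := {w | ∃ i n, w = fac u i n}

/-- primitive morphism -/
def Prim {A : Type} (φ : A → List A) : Prop :=
  ∃ k : ℕ, 1 ≤ k ∧ ∀ a b : A, b ∈ (fun w : List A => w.flatMap φ)^[k] [a]

/-- the infinite word u is the image of the infinite word y under μ: the image of every initial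
segment of y is an initial segment of u, and these images have unbounded length -/
def IsImage {B A : Type} (μ : B → List A) (y : ℕ → B) (u : ℕ → A) : Prop :=
  (∀ n, (fac y 0 n).flatMap μ = fac u 0 ((fac y 0 n).flatMap μ).length) ∧
    ∀ m, ∃ n, m ≤ ((fac y 0 n).flatMap μ).length

/-- u has infinitely many palindromic factors -/
def Palindromic {A : Type} (u : ℕ → A) : Prop := {w | w ∈ lang u ∧ w.reverse = w}.Infinite

/-- class P of Hof, Knill and Simon (shape condition): ψ a = p q_a with palindromes p, q_a -/
def ClassP {B A : Type} (ψ : B → List A) : Prop :=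
  ∃ p : List A, p.reverse = p ∧ ∀ b, ∃ q : List A, q.reverse = q ∧ ψ b = p ++ q

/-- conjugate morphisms -/
def Conj {B A : Type} (φ ψ : B → List A) : Prop :=
  ∃ w : List A, (∀ b, φ b ++ w = w ++ ψ b) ∨ (∀ b, ψ b ++ w = w ++ φ b)

/-- conjugate to a morphism of class P -/
def ClassP' {B A : Type} (φ : B → List A) : Prop := ∃ ψ : B → List A, ClassP ψ ∧ Conj φ ψ

end Pool.Agent.H17.HKS
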