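import Pool.Agent.H17.Pent2

namespace Pool.Agent.H17.Hept
open Pool.Agent.H17.Pent

/-- Generalized heptagonal numbers. -/
def G7 (z : ℤ) : ℤ := (5 * z ^ 2 - 3 * z) / 2

def Rep (j k n : ℕ) : Prop := ∃ z : ℤ, ∃ x y : ℕ, (n : ℤ) = G7 z + P j x + P k y

def Universal7 (j k : ℕ) : Prop := ∀ n : ℕ, Rep j k n

def S : List (ℕ × ℕ) :=
  [(3, 3), (3, 4), (3, 5), (3, 6), (3, 7), (3, 8), (3, 9), (3, 10), (3, 11), (3, 12), (3, 13), (3, 14), (3, 15), (3, 16), (3, 17), (3, 18), (3, 19), (3, 21), (3, 22), (3, 23), (3, 24), (3, 26), (3, 27), (3, 29), (3, 30), (4, 4), (4, 5), (4, 6), (4, 7), (4, 8), (4, 9), (4, 10), (4, 11), (4, 13), (4, 14), (4, 17), (4, 19), (4, 20), (4, 23), (4, 26), (5, 6), (5, 9), (6, 7), (8, 9)]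

def E : List (ℕ × ℕ) := [(3, 34), (3, 35), (3, 36), (3, 37), (3, 38), (3, 40), (3, 43), (4, 38)]

lemma g_ex (z : ℤ) : ∃ t : ℕ, 2 * G7 z = (t * (5 * t + 3) : ℕ) ∨ 2 * G7 z = ((t + 1) * (5 * t + 2) : ℕ) := by
  have h : 2 * G7 z = 5 * z ^ 2 - 3 * z := by
    unfold G7
    have : (2 : ℤ) ∣ 5 * z ^ 2 - 3 * z := by
      have h1 := (Int.even_mul_pred_self z).two_dvd
      have : 5 * z ^ 2 - 3 * z = z * (z - 1) + 2 * (2 * z ^ 2 - z) := by ring
      rw [this]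
      exact Dvd.dvd.add h1 (Dvd.intro _ rfl)
    omega
  rw [h]
  rcases le_or_gt z 0 with hz | hz
  · refine ⟨(-z).toNat, Or.inl ?_⟩
    push_cast
    rw [Int.toNat_of_nonneg (by omega)]
    ring
  · refine ⟨(z - 1).toNat, Or.inr ?_⟩
    push_cast
    rw [Int.toNat_of_nonneg (by omega)]
    ring

def R7 (j k n : ℕ) : Prop :=
  ∃ t x y : ℕ, t * (5 * t + 3) + q j x + q k y = 2 * n ∨ (t + 1) * (5 * t + 2) + q j x + q k y = 2 * n

lemma R_of {j k : ℕ} (hj : 3 ≤ j) (hk : 3 ≤ k) (h : Universal7 j k) (n : ℕ) : R7 j k n := by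
  obtain ⟨z, x, y, e⟩ := h n
  obtain ⟨t, ht⟩ := g_ex z
  have h1 := q_cast j x hj
  have h2 := q_cast k y hk
  refine ⟨t, x, y, ?_⟩
  rcases ht with ht | ht
  · left
    generalize t * (5 * t + 3) = a at ht ⊢
    omega
  · right
    generalize (t + 1) * (5 * t + 2) = a at ht ⊢
    omega

lemma q_ge' (j x : ℕ) (hj : 3 ≤ j) (hx : 60 ≤ x) : 3600 ≤ q j x := by
  unfold q
  have h1 : 60 * 59 ≤ x * (x - 1) := Nat.mul_le_mul hx (by omega)
  have h2 : 1 * (x * (x - 1)) ≤ (j - 2) * (x * (x - 1)) := Nat.mul_le_mul (by omega) le_rfl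
  omega

def chk7 (j k n : ℕ) : Bool :=
  (List.range 60).all fun y => (2 * n < q k y) || (List.range 60).all fun x =>
    (2 * n < q j x + q k y) || (List.range 27).all fun t =>
      (t * (5 * t + 3) + q j x + q k y != 2 * n) && ((t + 1) * (5 * t + 2) + q j x + q k y != 2 * n)

lemma not_R {j k n : ℕ} (hj : 3 ≤ j) (hk : 3 ≤ k) (hn : n < 1750) (h : chk7 j k n = true) :
    ¬ R7 j k n := by
  rintro ⟨t, x, y, e⟩
  have hx : x < 60 := by
    by_contra hx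
    have := q_ge' j x hj (by omega)
    omega
  have hy : y < 60 := by
    by_contra hy
    have := q_ge' k y hk (by omega)
    omega
  have ht : t < 27 := by
    by_contra ht
    have h1 : 27 * 137 ≤ t * (5 * t + 3) := Nat.mul_le_mul (by omega) (by omega)
    have h2 : 27 * 137 ≤ (t + 1) * (5 * t + 2) := Nat.mul_le_mul (by omega) (by omega)
    omega
  simp only [chk7, List.all_eq_true, List.mem_range, Bool.or_eq_true, decide_eq_true_eq,
    Bool.and_eq_true, bne_iff_ne, ne_eq] at h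
  rcases h y hy with h | h
  · omega
  rcases h x hx with h | h
  · omega
  have := h t ht
  omega

def tab7 : List (List ℕ) :=
  [[0, 0, 0, 0, 0, 0, 0, 0, 0, 0, 0, 0, 0, 0, 0, 0, 0, 0, 0, 0, 51, 0, 0, 0, 0, 51, 0, 0, 131, 0, 0, 51, 274, 108, 0, 0, 0, 0, 0, 51, 0, 129, 51, 0, 108, 131, 1722, 923, 108, 156, 367, 108, 51],
   [0, 0, 0, 0, 0, 0, 0, 0, 0, 0, 0, 0, 45, 0, 0, 45, 211, 0, 42, 0, 0, 42, 61, 0, 45, 58, 0, 42, 58, 73, 42, 61, 73, 45, 58, 93, 42, 58, 0, 42, 61, 195, 45, 42, 42, 42, 42, 42, 42, 42, 42, 42, 42],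
   [0, 0, 0, 0, 0, 66, 0, 220, 11, 0, 21, 21, 11, 11, 11, 11, 11, 11, 11, 11, 11, 11, 11, 11, 11, 11, 11, 11, 11, 11, 11, 11, 11, 11, 11, 11, 11, 11, 11, 11, 11, 11, 11, 11, 11, 11, 11, 11, 11, 11, 11, 11, 11],
   [0, 0, 0, 0, 0, 0, 26, 0, 38, 12, 21, 89, 21, 12, 12, 12, 12, 12, 12, 12, 12, 12, 12, 12, 12, 12, 12, 12, 12, 12, 12, 12, 12, 12, 12, 12, 12, 12, 12, 12, 12, 12, 12, 12, 12, 12, 12, 12, 12, 12, 12, 12, 12],
   [0, 0, 0, 0, 0, 0, 0, 10, 17, 30, 16, 10, 10, 10, 10, 10, 10, 10, 10, 10, 10, 10, 10, 10, 10, 10, 10, 10, 10, 10, 10, 10, 10, 10, 10, 10, 10, 10, 10, 10, 10, 10, 10, 10, 10, 10, 10, 10, 10, 10, 10, 10, 10],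
   [0, 0, 0, 0, 0, 0, 0, 0, 11, 0, 30, 17, 11, 11, 11, 11, 11, 11, 11, 11, 11, 11, 11, 11, 11, 11, 11, 11, 11, 11, 11, 11, 11, 11, 11, 11, 11, 11, 11, 11, 11, 11, 11, 11, 11, 11, 11, 11, 11, 11, 11, 11, 11],
   [0, 0, 0, 0, 0, 0, 0, 0, 0, 12, 21, 41, 45, 12, 12, 12, 12, 12, 12, 12, 12, 12, 12, 12, 12, 12, 12, 12, 12, 12, 12, 12, 12, 12, 12, 12, 12, 12, 12, 12, 12, 12, 12, 12, 12, 12, 12, 12, 12, 12, 12, 12, 12],
   [0, 0, 0, 0, 0, 0, 0, 0, 0, 0, 16, 26, 21, 16, 26, 21, 22, 16, 16, 16, 16, 16, 16, 16, 16, 16, 16, 16, 16, 16, 16, 16, 16, 16, 16, 16, 16, 16, 16, 16, 16, 16, 16, 16, 16, 16, 16, 16, 16, 16, 16, 16, 16]]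

def w7 (j k : ℕ) : ℕ := (tab7.getD (j - 3) []).getD k 0

def ok7 (j k : ℕ) : Bool :=
  (j < 3) || (k < j) || decide ((j, k) ∈ S) || decide ((j, k) ∈ E) ||
    (w7 j k < 1750 && (k < 52 || w7 j k < 52) && chk7 j k (w7 j k))

lemma all_ok : ((List.range 11).all fun j => (List.range 53).all fun k => ok7 j k) = true := by
  decide +kernel

lemma big : chk7 11 11 10 = true := by decide +kernel

theorem main7 (j k : ℕ) (hj : 3 ≤ j) (hjk : j ≤ k) (h : Universal7 j k) :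
    (j, k) ∈ S ∨ (j, k) ∈ E := by
  have hk : 3 ≤ k := by omega
  have hR := R_of hj hk h
  by_cases hj' : 11 ≤ j
  · exfalso
    obtain ⟨t, x, y, e⟩ := hR 10
    have e1 := q_small j 11 x 20 hj (by omega) (by omega)
    have e2 := q_small k 11 y 20 hk (by omega) (by omega)
    exact not_R (by norm_num) (by norm_num) (by norm_num) big ⟨t, x, y, by rw [e1, e2]; exact e⟩
  have A := all_ok
  simp only [List.all_eq_true, List.mem_range] at A
  by_cases hk' : k < 53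
  · have B := A j (by omega) k hk'
    simp only [ok7, Bool.or_eq_true, decide_eq_true_eq, Bool.and_eq_true] at B
    rcases B with (((B | B) | B) | B) | ⟨⟨B1, _⟩, B3⟩
    · omega
    · omega
    · exact Or.inl B
    · exact Or.inr B
    · exact absurd (hR _) (not_R hj hk B1 B3)
  · exfalso
    have B := A j (by omega) 52 (by omega)
    simp only [ok7, Bool.or_eq_true, decide_eq_true_eq, Bool.and_eq_true] at B
    rcases B with (((B | B) | B) | B) | ⟨⟨B1, B2⟩, B3⟩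
    · omega
    · omega
    · have : ∀ p ∈ S, p.2 < 50 := by decide
      have := this _ B
      omega
    · have : ∀ p ∈ E, p.2 < 50 := by decide
      have := this _ B
      omega
    · obtain ⟨t, x, y, e⟩ := hR (w7 j 52)
      have e2 := q_small k 52 y (2 * w7 j 52) hk (by omega) (by omega)
      exact not_R hj (by norm_num) B1 B3 ⟨t, x, y, by rw [e2]; exact e⟩

def B1 : ℕ := sh 1 (fun t => t * (5 * t + 3) / 2) 640 ||| sh 1 (fun t => (t + 1) * (5 * t + 2) / 2) 640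
def B2 (j : ℕ) : ℕ := sh B1 (fun x => q j x / 2) (if j = 3 then 1420 else 1005)
def B3 (j k : ℕ) : ℕ := sh (B2 j) (fun y => q k y / 2) 60

lemma full7 : (E.all fun p => B3 p.1 p.2 &&& (2 ^ NN - 1) == 2 ^ NN - 1) = true := by decide +kernel

theorem repE (p : ℕ × ℕ) (hp : p ∈ E) (n : ℕ) (hn : n ≤ 1000000) : Rep p.1 p.2 n := by
  have hb3 : ∀ p ∈ E, 3 ≤ p.1 ∧ 3 ≤ p.2 := by decide
  have h0 : B3 p.1 p.2 &&& (2 ^ NN - 1) = 2 ^ NN - 1 :=
    eq_of_beq (List.all_eq_true.1 full7 p hp)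
  have h1 : (B3 p.1 p.2 &&& (2 ^ NN - 1)).testBit n = true := by
    rw [h0, Nat.testBit_two_pow_sub_one]
    exact decide_eq_true (by unfold NN; omega)
  rw [Nat.testBit_and, Bool.and_eq_true] at h1
  obtain ⟨y, a, ha, e1⟩ := sh_bit _ _ _ _ h1.1
  obtain ⟨x, b, hb, e2⟩ := sh_bit _ _ _ _ ha
  have q1 := q_cast p.1 x (hb3 p hp).1
  have q2 := q_cast p.2 y (hb3 p hp).2
  unfold B1 at hb
  rw [Nat.testBit_or, Bool.or_eq_true] at hb
  rcases hb with hb | hb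
  · obtain ⟨t, c, hc, e3⟩ := sh_bit _ _ _ _ hb
    have := one_bit c hc
    refine ⟨-(t : ℤ), x, y, ?_⟩
    have g : G7 (-(t : ℤ)) = ((t * (5 * t + 3) : ℕ) : ℤ) / 2 := by
      unfold G7; push_cast; congr 1; ring
    rw [g]
    generalize t * (5 * t + 3) = s at e3 ⊢
    omega
  · obtain ⟨t, c, hc, e3⟩ := sh_bit _ _ _ _ hb
    have := one_bit c hc
    refine ⟨(t : ℤ) + 1, x, y, ?_⟩
    have g : G7 ((t : ℤ) + 1) = (((t + 1) * (5 * t + 2) : ℕ) : ℤ) / 2 := by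
      unfold G7; push_cast; congr 1; ring
    rw [g]
    generalize (t + 1) * (5 * t + 2) = s at e3 ⊢
    omega

end Pool.Agent.H17.Hept
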