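import Mathlib

namespace Pool.Agent.H17.MW
open Module Finset

/-- `N(q,k) = (q^k - 1)/(q - 1)`. -/
def N (q k : ℕ) : ℕ := (q ^ k - 1) / (q - 1)

/-- `F^{m × n}` contains an MWS rank-metric code of dimension `k`. -/
def MWS (F : Type) [Field F] [Fintype F] (k m n : ℕ) : Prop :=
  ∃ C : Submodule F (Matrix (Fin m) (Fin n) F), finrank F C = k ∧
    {r : ℕ | ∃ A ∈ C, A ≠ 0 ∧ A.rank = r}.ncard = N (Fintype.card F) k

variable {F : Type} [Field F] [Fintype F]

lemma eig {U : Type} [AddCommGroup U] [Module F U] [FiniteDimensional F U] (M : End F U) :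
    ∑ t : F, finrank F (M.eigenspace t) ≤ finrank F U := by
  classical
  have h := (Module.End.eigenspaces_iSupIndep M).dfinsupp_lsum_injective
  have h2 := Module.finrank_directSum (R := F) (fun t : F => M.eigenspace t)
  rw [← h2]
  exact LinearMap.finrank_le_finrank_of_injective (f := (DFinsupp.lsum ℕ fun i => (M.eigenspace i).subtype)) h

lemma pencil {V W : Type} [AddCommGroup V] [Module F V] [FiniteDimensional F V]
    [AddCommGroup W] [Module F W] [FiniteDimensional F W] (A B : V →ₗ[F] W) :
    ∑ t : F, (finrank F (LinearMap.range B) - finrank F (LinearMap.range (A - t • B))) ≤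
      finrank F (LinearMap.range B) := by
  obtain ⟨Q, hQ⟩ := B.rangeRestrict.exists_rightInverse_of_surjective B.range_rangeRestrict
  obtain ⟨P, hP⟩ := (LinearMap.range B).subtype.exists_leftInverse_of_injective
    (Submodule.ker_subtype _)
  have hB : ∀ u, P (B (Q u)) = u := by
    intro u
    have h1 : B.rangeRestrict (Q u) = u := LinearMap.congr_fun hQ u
    have h2 : B (Q u) = (u : W) := by rw [← h1]; simp [h1]; exact congrArg Subtype.val h1
    rw [h2]; exact LinearMap.congr_fun hP u
  let M : End F (LinearMap.range B) := P ∘ₗ A ∘ₗ Q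
  refine le_trans (Finset.sum_le_sum fun t _ => ?_) (eig M)
  have e1 : M - t • (1 : End F (LinearMap.range B)) = P ∘ₗ (A - t • B) ∘ₗ Q := by
    ext u; simp [M, hB]
  have e2 := LinearMap.finrank_range_add_finrank_ker (M - t • (1 : End F (LinearMap.range B)))
  have e3 : finrank F (LinearMap.range (M - t • (1 : End F (LinearMap.range B)))) ≤
      finrank F (LinearMap.range (A - t • B)) := by
    rw [e1, LinearMap.range_comp]
    refine le_trans (Submodule.finrank_map_le _ _) (Submodule.finrank_mono ?_)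
    exact LinearMap.range_comp_le_range _ _
  have e4 : M.eigenspace t = LinearMap.ker (M - t • (1 : End F (LinearMap.range B))) := by
    rw [Module.End.eigenspace_def]
  rw [e4]; omega

lemma pencilM {m n : ℕ} (A B : Matrix (Fin m) (Fin n) F) :
    ∑ t : F, (B.rank - (A - t • B).rank) ≤ B.rank := by
  have := pencil A.mulVecLin B.mulVecLin
  have e : ∀ t : F, (A - t • B).mulVecLin = A.mulVecLin - t • B.mulVecLin := by
    intro t; ext; simp [Matrix.sub_mulVec, Matrix.smul_mulVec]
  have e' : ∀ t : F, (A - t • B).rank =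
      finrank F (LinearMap.range (A.mulVecLin - t • B.mulVecLin)) := by
    intro t; rw [← e]; rfl
  simp only [e']; exact this

lemma tri0 (T : Finset ℕ) : T.card * (T.card - 1) ≤ 2 * ∑ s ∈ T, s := by
  induction T using Finset.induction_on_max with
  | empty => simp
  | insert a T ha ih =>
    have hn : a ∉ T := fun h => lt_irrefl _ (ha a h)
    have hc : T.card ≤ a := by
      have : T ⊆ Finset.range a := fun x hx => Finset.mem_range.2 (ha x hx)
      simpa using Finset.card_le_card this
    rw [Finset.card_insert_of_notMem hn, Finset.sum_insert hn]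
    rcases Nat.eq_zero_or_pos T.card with h0 | h0
    · simp [h0]
    · obtain ⟨c, hc'⟩ : ∃ c, T.card = c + 1 := ⟨T.card - 1, by omega⟩
      rw [hc'] at ih hc ⊢
      simp only [Nat.add_sub_cancel] at ih ⊢
      nlinarith

lemma tri (S : Finset ℕ) (R : ℕ) (h : ∀ s ∈ S, s ≤ R) :
    S.card * (S.card - 1) ≤ 2 * ∑ s ∈ S, (R - s) := by
  have h1 : ∑ s ∈ S, (R - s) = ∑ d ∈ S.image (R - ·), d := by
    rw [Finset.sum_image]; intro a ha b hb hab
    have := h a ha; have := h b hb; simp only at hab; omega
  have h2 : (S.image (R - ·)).card = S.card := by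
    apply Finset.card_image_of_injOn; intro a ha b hb hab
    have := h a ha; have := h b hb; simp only at hab; omega
  rw [h1, ← h2]
  exact tri0 _

lemma geo (q k : ℕ) (hq : 2 ≤ q) : (q - 1) * N q k = q ^ k - 1 := by
  unfold N
  apply Nat.mul_div_cancel'
  simpa using Nat.sub_dvd_pow_sub_pow q 1 k

theorem lower {k m n : ℕ} (hk : 2 ≤ k) (h : MWS F k m n) :
    Fintype.card F * N (Fintype.card F) k ≤ 2 * min m n := by
  classical
  obtain ⟨C, hC, hS⟩ := h
  set q := Fintype.card F with hq
  have hq2 : 2 ≤ q := Fintype.one_lt_card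
  haveI : Fintype C := Fintype.ofFinite C
  have hcard : Fintype.card C = q ^ k := by rw [Module.card_eq_pow_finrank (K := F), hC]
  obtain ⟨B, -, hB⟩ := Finset.exists_max_image (Finset.univ : Finset C)
    (fun A => (A : Matrix (Fin m) (Fin n) F).rank) ⟨0, Finset.mem_univ _⟩
  set R := (B : Matrix (Fin m) (Fin n) F).rank with hR
  have hRm : R ≤ min m n := le_min (Matrix.rank_le_height _) (Matrix.rank_le_width _)
  let d : C → ℕ := fun A => R - (A : Matrix (Fin m) (Fin n) F).rank
  have up : q * ∑ A : C, d A ≤ q ^ k * R := by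
    have e1 : ∀ t : F, ∑ A : C, d (A - t • B) = ∑ A : C, d A := fun t =>
      Equiv.sum_comp (Equiv.subRight (t • B)) d
    calc q * ∑ A : C, d A = ∑ t : F, ∑ A : C, d (A - t • B) := by simp [e1, hq]
      _ = ∑ A : C, ∑ t : F, d (A - t • B) := Finset.sum_comm
      _ ≤ ∑ A : C, R := Finset.sum_le_sum fun A _ => pencilM (A : Matrix (Fin m) (Fin n) F) B
      _ = q ^ k * R := by simp [hcard]
  let Z : Finset C := Finset.univ.erase 0
  let S : Finset ℕ := Z.image (fun A : C => (A : Matrix (Fin m) (Fin n) F).rank)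
  have hSc : S.card = N q k := by
    rw [← hS, ← Set.ncard_coe_finset]; congr 1
    ext r; simp only [S, Z, Finset.coe_image, Set.mem_image, Finset.mem_coe, Finset.mem_erase,
      Finset.mem_univ, and_true, Set.mem_setOf_eq]
    constructor
    · rintro ⟨A, hA, rfl⟩; exact ⟨A, A.2, fun h => hA (Subtype.ext h), rfl⟩
    · rintro ⟨A, hA, h0, rfl⟩; exact ⟨⟨A, hA⟩, fun h => h0 (congrArg Subtype.val h), rfl⟩
  have fib : ∀ s ∈ S, q - 1 ≤ (Z.filter (fun A : C => (A : Matrix (Fin m) (Fin n) F).rank = s)).card := by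
    intro s hs
    obtain ⟨A, hA, rfl⟩ := Finset.mem_image.1 hs
    have hA0 : A ≠ 0 := (Finset.mem_erase.1 hA).1
    have : ((Finset.univ : Finset F).erase 0).card = q - 1 := by
      rw [Finset.card_erase_of_mem (Finset.mem_univ _)]; rfl
    rw [← this]
    apply Finset.card_le_card_of_injOn (fun c : F => c • A)
    · intro c hc
      have hc0 : c ≠ 0 := (Finset.mem_erase.1 hc).1
      simp only [Finset.coe_filter, Set.mem_setOf_eq, Z, Finset.mem_erase, Finset.mem_univ, and_true]
      refine ⟨smul_ne_zero hc0 hA0, ?_⟩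
      exact Matrix.rank_smul_of_mem_nonZeroDivisors _ (mem_nonZeroDivisors_of_ne_zero hc0)
    · intro a _ b _ hab
      exact smul_left_injective F hA0 hab
  have lo : R + (q - 1) * ∑ s ∈ S, (R - s) ≤ ∑ A : C, d A := by
    rw [← Finset.add_sum_erase _ _ (Finset.mem_univ (0 : C))]
    have : d 0 = R := by simp [d]
    rw [this]
    apply Nat.add_le_add_left
    rw [← Finset.sum_fiberwise_of_maps_to (s := Z) (t := S)
      (g := fun A : C => (A : Matrix (Fin m) (Fin n) F).rank)
      (fun A hA => Finset.mem_image_of_mem _ hA), Finset.mul_sum]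
    apply Finset.sum_le_sum; intro s hs
    rw [Finset.sum_congr rfl (g := fun _ => R - s)]
    · rw [Finset.sum_const, smul_eq_mul]; exact Nat.mul_le_mul_right _ (fib s hs)
    · intro A hA; simp only [d]; rw [(Finset.mem_filter.1 hA).2]
  have t1 := tri S R (by
    intro s hs; obtain ⟨A, -, rfl⟩ := Finset.mem_image.1 hs; exact hB A (Finset.mem_univ _))
  rw [hSc] at t1
  have g := geo q k hq2
  obtain ⟨j, rfl⟩ : ∃ j, k = j + 2 := ⟨k - 2, by omega⟩
  set X := ∑ s ∈ S, (R - s)
  set Y := ∑ A : C, d A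
  set M := N q (j + 2)
  obtain ⟨p, hp⟩ : ∃ p, q = p + 1 := ⟨q - 1, by omega⟩
  have hu : 2 ≤ q ^ (j + 1) := le_trans hq2 (Nat.le_self_pow (by omega) q)
  obtain ⟨u, hu'⟩ : ∃ u, q ^ (j + 1) = u + 1 := ⟨q ^ (j + 1) - 1, by omega⟩
  have hu0 : 0 < u := by omega
  have e2 : q ^ (j + 2) = q * (u + 1) := by rw [← hu']; ring
  rw [e2] at up g
  have up' : Y ≤ (u + 1) * R := by
    have : q * Y ≤ q * ((u + 1) * R) := by rw [← mul_assoc]; exact up
    exact Nat.le_of_mul_le_mul_left this (by omega)
  have hp1 : q - 1 = p := by omega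
  rw [hp1] at lo g
  have hM : 1 ≤ M := by
    rcases Nat.eq_zero_or_pos M with h0 | h0
    · rw [h0] at g; have : 2 ≤ q * (u + 1) := by nlinarith
      omega
    · exact h0
  obtain ⟨w, hw⟩ : ∃ w, M = w + 1 := ⟨M - 1, by omega⟩
  rw [hw] at g t1 ⊢
  simp only [Nat.add_sub_cancel] at t1
  have g2 : p * w = q * u := by
    have : p * (w + 1) + 1 = q * (u + 1) := by
      have : 1 ≤ q * (u + 1) := by nlinarith
      omega
    rw [hp] at this ⊢; nlinarith
  have k1 : p * X ≤ u * R := by nlinarith
  have k2 : u * (q * (w + 1)) ≤ u * (2 * R) := by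
    calc u * (q * (w + 1)) = p * ((w + 1) * w) := by
          have : u * (q * (w + 1)) = (q * u) * (w + 1) := by ring
          rw [this, ← g2]; ring
      _ ≤ p * (2 * X) := Nat.mul_le_mul_left _ t1
      _ ≤ u * (2 * R) := by nlinarith
  have := Nat.le_of_mul_le_mul_left k2 hu0
  omega

/-- Padding. -/
lemma pad {ι : Type} [Fintype ι] [DecidableEq ι] {m : ℕ} (h : Fintype.card ι ≤ m) :
    ∃ P : Matrix (Fin m) ι F, P.transpose * P = 1 := by
  classical
  obtain ⟨e⟩ : Nonempty (ι ↪ Fin m) := Function.Embedding.nonempty_of_card_le (by simpa using h)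
  refine ⟨fun i j => if i = e j then 1 else 0, ?_⟩
  ext a b
  simp [Matrix.mul_apply, Matrix.one_apply, Matrix.transpose_apply, eq_comm]

lemma rank_pad {ι : Type} [Fintype ι] [DecidableEq ι] {m n : ℕ} (P : Matrix (Fin m) ι F)
    (Q : Matrix (Fin n) ι F) (hP : P.transpose * P = 1) (hQ : Q.transpose * Q = 1)
    (D : Matrix ι ι F) : (P * D * Q.transpose).rank = D.rank := by
  apply le_antisymm
  · exact le_trans (Matrix.rank_mul_le_left _ _) (Matrix.rank_mul_le_right _ _)
  · have : D = P.transpose * (P * D * Q.transpose) * Q := by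
      rw [← Matrix.mul_assoc, ← Matrix.mul_assoc, hP, Matrix.one_mul, Matrix.mul_assoc, hQ,
        Matrix.mul_one]
    conv_lhs => rw [this]
    exact le_trans (Matrix.rank_mul_le_left _ _) (Matrix.rank_mul_le_right _ _)

/-- The linear form vanishing at the point `p` of the projective line. -/
def ell (p : Option F) : (F × F) →ₗ[F] F :=
  match p with
  | none => LinearMap.fst F F F
  | some a => LinearMap.snd F F F - a • LinearMap.fst F F F

lemma ell_ex (v : F × F) (hv : v ≠ 0) : ∃ p0, ∀ p, ell p v = 0 ↔ p = p0 := by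
  obtain ⟨x, y⟩ := v
  by_cases hx : x = 0
  · subst hx
    have hy : y ≠ 0 := fun h => hv (by simp [h])
    refine ⟨none, fun p => ?_⟩
    cases p <;> simp [ell, hy]
  · refine ⟨some (y / x), fun p => ?_⟩
    cases p with
    | none => simp [ell, hx]
    | some a =>
      simp only [ell, LinearMap.sub_apply, LinearMap.snd_apply, LinearMap.smul_apply,
        LinearMap.fst_apply, smul_eq_mul, Option.some.injEq, eq_div_iff hx, sub_eq_zero]
      exact eq_comm

lemma ell_sur (p : Option F) : ∃ v : F × F, v ≠ 0 ∧ ell p v = 0 := by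
  cases p with
  | none => exact ⟨(0, 1), by simp, by simp [ell]⟩
  | some a => exact ⟨(1, a), by simp, by simp [ell]⟩

theorem upper {m n : ℕ} (h : Fintype.card F * (Fintype.card F + 1) / 2 ≤ min m n) :
    MWS F 2 m n := by
  classical
  set q := Fintype.card F with hq
  have hq2 : 2 ≤ q := Fintype.one_lt_card
  let e : Option F ≃ Fin (q + 1) := Fintype.equivFinOfCardEq (by simp [hq])
  let ι := Σ p : Option F, Fin (e p).val
  set L := q * (q + 1) / 2 with hL
  have hι : Fintype.card ι = L := by
    simp only [ι, Fintype.card_sigma, Fintype.card_fin]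
    rw [Equiv.sum_comp e (fun i => i.val), Fin.sum_univ_eq_sum_range (fun i => i),
      Finset.sum_range_id, hL, mul_comm]; simp
  have hLq : q < L := by
    rw [hL]; apply Nat.lt_of_succ_le; rw [Nat.le_div_iff_mul_le (by norm_num)]; nlinarith
  obtain ⟨P, hP⟩ := pad (F := F) (ι := ι) (m := m) (by rw [hι]; exact le_trans h (min_le_left _ _))
  obtain ⟨Q, hQ⟩ := pad (F := F) (ι := ι) (m := n) (by rw [hι]; exact le_trans h (min_le_right _ _))
  let φ : (F × F) →ₗ[F] Matrix (Fin m) (Fin n) F :=
    { toFun := fun v => P * Matrix.diagonal (fun i : ι => ell i.1 v) * Q.transpose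
      map_add' := fun v w => by
        rw [← Matrix.add_mul, ← Matrix.mul_add, Matrix.diagonal_add]; simp
      map_smul' := fun c v => by
        rw [← Matrix.smul_mul, ← Matrix.mul_smul, ← Matrix.diagonal_smul]
        simp only [map_smul]; rfl }
  have hr : ∀ v p0, (∀ p, ell p v = 0 ↔ p = p0) → (φ v).rank = L - (e p0).val := by
    intro v p0 hp
    have : (φ v).rank = (Matrix.diagonal (fun i : ι => ell i.1 v)).rank := rank_pad P Q hP hQ _
    rw [this, Matrix.rank_diagonal, Fintype.card_subtype_compl, hι]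
    congr 1
    have e3 : {i : ι // ell i.1 v = 0} ≃ Fin (e p0).val :=
      { toFun := fun i => ⟨i.1.2.val, by have := (hp _).1 i.2; rw [← this]; exact i.1.2.2⟩
        invFun := fun j => ⟨⟨p0, j⟩, (hp _).2 rfl⟩
        left_inv := by
          rintro ⟨⟨p, j⟩, hh⟩
          have := (hp _).1 hh
          simp only at this; subst this; rfl
        right_inv := fun j => rfl }
    rw [Fintype.card_congr e3, Fintype.card_fin]
  have hne : ∀ v, v ≠ 0 → φ v ≠ 0 := by
    intro v hv h0
    obtain ⟨p0, hp⟩ := ell_ex v hv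
    have := hr v p0 hp
    rw [h0, Matrix.rank_zero] at this
    have := (e p0).2
    omega
  have hinj : Function.Injective φ := by
    rw [injective_iff_map_eq_zero]; intro v hv; by_contra h0; exact hne v h0 hv
  refine ⟨LinearMap.range φ, ?_, ?_⟩
  · rw [LinearMap.finrank_range_of_inj hinj]; simp
  · have hN : N q 2 = q + 1 := by
      have g := geo q 2 hq2
      obtain ⟨p, hp⟩ : ∃ p, q = p + 2 := ⟨q - 2, by omega⟩
      rw [hp] at g ⊢
      have e1 : (p + 2) ^ 2 - 1 = (p + 1) * (p + 2 + 1) := by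
        have : (p + 2) ^ 2 = (p + 1) * (p + 2 + 1) + 1 := by ring
        omega
      rw [e1] at g
      exact Nat.eq_of_mul_eq_mul_left (Nat.succ_pos p) g
    have hset : {r : ℕ | ∃ A ∈ LinearMap.range φ, A ≠ 0 ∧ A.rank = r} =
        Set.range (fun i : Fin (q + 1) => L - i.val) := by
      ext r; constructor
      · rintro ⟨A, ⟨v, rfl⟩, h0, rfl⟩
        obtain ⟨p0, hp⟩ := ell_ex v (fun hv => h0 (by rw [hv, map_zero]))
        exact ⟨e p0, (hr v p0 hp).symm⟩
      · rintro ⟨i, rfl⟩
        obtain ⟨v, hv, h0⟩ := ell_sur (e.symm i)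
        obtain ⟨p0, hp⟩ := ell_ex v hv
        have := (hp _).1 h0
        refine ⟨φ v, ⟨v, rfl⟩, hne v hv, ?_⟩
        rw [hr v p0 hp, ← this]; simp
    rw [hset, hN, Set.ncard_range_of_injective]
    · simp
    · intro a b hab
      have := a.2; have := b.2
      simp only at hab
      ext; omega

theorem two (m n : ℕ) :
    MWS F 2 m n ↔ Fintype.card F * (Fintype.card F + 1) / 2 ≤ min m n := by
  refine ⟨fun h => ?_, upper⟩
  have := lower le_rfl h
  have hq2 : 2 ≤ Fintype.card F := Fintype.one_lt_card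
  have g := geo (Fintype.card F) 2 hq2
  obtain ⟨p, hp⟩ : ∃ p, Fintype.card F = p + 2 := ⟨Fintype.card F - 2, by omega⟩
  rw [hp] at g this ⊢
  have e1 : (p + 2) ^ 2 - 1 = (p + 1) * (p + 2 + 1) := by
    have : (p + 2) ^ 2 = (p + 1) * (p + 2 + 1) + 1 := by ring
    omega
  rw [e1] at g
  have := Nat.eq_of_mul_eq_mul_left (Nat.succ_pos p) g
  simp_all only
  omega

end Pool.Agent.H17.MW

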