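import Mathlib

set_option autoImplicit false

namespace Pool.Agent.H17.OrdRec

open Finset

/-- after deleting rank `i` on the left and rank `j` on the right, left rank `u` corresponds to
right rank `v` -/
def Rel (i j u v : ℕ) : Prop :=
  (i < u ∧ j < v ∧ u = v) ∨ (u < i ∧ v < j ∧ u = v) ∨ (i < u ∧ v < j ∧ u = v + 1) ∨
    (u < i ∧ j < v ∧ v = u + 1)

def Step (n : ℕ) (P : Bool → ℕ → ℕ) (s t : Bool × ℕ × ℕ) : Prop :=
  t.1 = !s.1 ∧ s.2.1 < n ∧ s.2.2 < n ∧ t.2.1 < n ∧ t.2.2 < n ∧
    ∃ i, i < n ∧ Rel i (P s.1 i) s.2.1 t.2.1 ∧ Rel i (P s.1 i) s.2.2 t.2.2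

def Conn (n : ℕ) (P : Bool → ℕ → ℕ) : Bool × ℕ × ℕ → Bool × ℕ × ℕ → Prop :=
  Relation.ReflTransGen (Step n P)

def Inv (P : Bool → ℕ → ℕ) (e : Bool) (l k : ℕ) : Prop :=
  ∀ i, l ≤ i → i < k → l ≤ P e i ∧ P e i < k

section
variable {n : ℕ} {P : Bool → ℕ → ℕ} (hlt : ∀ e i, i < n → P e i < n)
  (hinv : ∀ e i, i < n → P (!e) (P e i) = i)
include hlt hinv

lemma step_symm {s t : Bool × ℕ × ℕ} (h : Step n P s t) : Step n P t s := by
  obtain ⟨h1, h2, h3, h4, h5, i, hi, r1, r2⟩ := h
  refine ⟨by rw [h1]; simp, h4, h5, h2, h3, P s.1 i, hlt _ _ hi, ?_, ?_⟩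
  · rw [h1, hinv _ _ hi]; unfold Rel at *; omega
  · rw [h1, hinv _ _ hi]; unfold Rel at *; omega

lemma conn_symm {s t : Bool × ℕ × ℕ} (h : Conn n P s t) : Conn n P t s := by
  induction h with
  | refl => exact Relation.ReflTransGen.refl
  | tail _ h2 ih => exact Relation.ReflTransGen.head (step_symm hlt hinv h2) ih

omit hlt in
lemma pigeon (e : Bool) (A B : Finset ℕ) (hA : ∀ i ∈ A, i < n) (h : B.card < A.card) :
    ∃ i ∈ A, P e i ∉ B := by
  by_contra hc
  push Not at hc
  have := card_le_card_of_injOn (P e) (s := A) (t := B) (fun i hi => hc i hi) (by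
    intro i hi j hj hij
    rw [← hinv e i (hA i hi), hij, hinv e j (hA j hj)])
  omega

omit hlt in
lemma inv_not {e : Bool} {l k : ℕ} (hk : k ≤ n) (h : Inv P e l k) : Inv P (!e) l k := by
  intro j h1 h2
  have hsub : (Ico l k).image (P e) ⊆ Ico l k := by
    intro y hy
    obtain ⟨x, hx, rfl⟩ := mem_image.mp hy
    rw [mem_Ico] at hx ⊢
    exact h x hx.1 hx.2
  have hc : ((Ico l k).image (P e)).card = (Ico l k).card := by
    apply card_image_of_injOn
    intro i hi j hj hij
    simp only [coe_Ico, Set.mem_Ico] at hi hj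
    rw [← hinv e i (by omega), hij, hinv e j (by omega)]
  have heq := eq_of_subset_of_card_le hsub hc.ge
  have : j ∈ (Ico l k).image (P e) := by rw [heq]; exact mem_Ico.mpr ⟨h1, h2⟩
  obtain ⟨x, hx, rfl⟩ := mem_image.mp this
  rw [mem_Ico] at hx
  rw [hinv e x (by omega)]
  exact hx

omit hlt in
lemma inv_all {e : Bool} {l k : ℕ} (hk : k ≤ n) (h : Inv P e l k) (e' : Bool) : Inv P e' l k := by
  have := inv_not hinv hk h
  cases e <;> cases e' <;> assumption

omit hlt hinv in
lemma mk_step (e : Bool) (i a b a' b' : ℕ) (hi : i < n) (ha : a < n) (hb : b < n) (ha' : a' < n)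
    (hb' : b' < n) (r1 : Rel i (P e i) a a') (r2 : Rel i (P e i) b b') :
    Conn n P (e, a, b) (!e, a', b') :=
  Relation.ReflTransGen.single ⟨rfl, ha, hb, ha', hb', i, hi, r1, r2⟩

lemma good_any {a b : ℕ} (h : Conn n P (false, a, b) (true, a, b)) (e e' : Bool) :
    Conn n P (e, a, b) (e', a, b) := by
  cases e <;> cases e'
  · exact Relation.ReflTransGen.refl
  · exact h
  · exact conn_symm hlt hinv h
  · exact Relation.ReflTransGen.refl

lemma fix (e : Bool) (i a b : ℕ) (hi : i < n) (hab : a < b) (hb : b < n)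
    (h : (i < a ∧ P e i < a) ∨ (a < i ∧ i < b ∧ a < P e i ∧ P e i < b) ∨ (b < i ∧ b < P e i)) :
    Conn n P (false, a, b) (true, a, b) := by
  have := mk_step (P := P) e i a b a b hi (by omega) hb (by omega) hb (by unfold Rel; omega)
    (by unfold Rel; omega)
  cases e
  · exact this
  · exact conn_symm hlt hinv this

lemma transfer {a b a' b' : ℕ} (h : ∀ e, ∃ e', Conn n P (e, a, b) (e', a', b'))
    (g : Conn n P (false, a', b') (true, a', b')) : Conn n P (false, a, b) (true, a, b) := by
  obtain ⟨e1, h1⟩ := h false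
  obtain ⟨e2, h2⟩ := h true
  exact (h1.trans (good_any hlt hinv g e1 e2)).trans (conn_symm hlt hinv h2)

lemma lemD {l k : ℕ} (h : Inv P false l k) (h3 : l + 3 ≤ k) (b : ℕ) (hkb : k ≤ b) (hb : b < n) :
    ∀ a, l ≤ a → a < k → Conn n P (false, a, b) (true, a, b) := by
  intro a hla
  induction a, hla using Nat.le_induction with
  | base =>
    intro _
    obtain ⟨i, hi, h2⟩ := pigeon hinv false (Ico (l + 1) (l + 3)) {l} (by
      intro i hi; rw [mem_Ico] at hi; omega) (by simp)
    rw [mem_Ico] at hi
    rw [mem_singleton] at h2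
    have := h i (by omega) (by omega)
    exact fix hlt hinv false i l b (by omega) (by omega) hb (by omega)
  | succ a hla ih =>
    intro hak
    by_cases hI : Inv P false l (a + 1)
    · have := hI l le_rfl (by omega)
      exact fix hlt hinv false l (a + 1) b (by omega) (by omega) hb (by omega)
    · refine transfer hlt hinv (a' := a) (b' := b) (fun e => ⟨!e, ?_⟩) (ih (by omega))
      have h1 : ¬ Inv P e l (a + 1) := fun h1 => hI (inv_all hinv (by omega) h1 false)
      unfold Inv at h1
      push Not at h1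
      obtain ⟨i, i1, i2, i3⟩ := h1
      have := inv_all hinv (by omega) h e i i1 (by omega)
      have i4 := i3 this.1
      exact mk_step e i _ _ _ _ (by omega) (by omega) hb (by omega) hb (by unfold Rel; omega)
        (by unfold Rel; omega)

lemma lemA (hn : 9 ≤ n) {l k : ℕ} (h : Inv P false l k) (hl : l ≤ 1) (h3 : k ≤ 3) (a : ℕ)
    (hak : a < k) : ∀ (m b : ℕ), k ≤ b → b + m + 1 = n → Conn n P (false, a, b) (true, a, b) := by
  have out : ∀ e i, i < n → k ≤ i → P e i ≠ 0 → k ≤ P e i := by
    intro e i hi hki h0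
    by_contra hc
    have := inv_all hinv (by omega) h (!e) (P e i) (by omega) (by omega)
    rw [hinv e i hi] at this
    omega
  have base : ∀ b, k ≤ b → b < n → n - 2 ≤ b → Conn n P (false, a, b) (true, a, b) := by
    intro b hkb hb hb2
    obtain ⟨i, hi, h2⟩ := pigeon hinv false (Ico k b) {0, n - 2, n - 1} (by
      intro i hi; rw [mem_Ico] at hi; omega) (by
      have := card_le_three (a := 0) (b := n - 2) (c := n - 1)
      rw [Nat.card_Ico]; omega)
    rw [mem_Ico] at hi
    simp only [mem_insert, mem_singleton, not_or] at h2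
    have := out false i (by omega) hi.1 h2.1
    have := hlt false i (by omega)
    exact fix hlt hinv false i a b (by omega) (by omega) hb (by omega)
  intro m
  induction m with
  | zero => intro b hkb hb; exact base b hkb (by omega) (by omega)
  | succ m ih =>
    intro b hkb hb
    by_cases hb2 : n - 2 ≤ b
    · exact base b hkb (by omega) hb2
    by_cases hZ : ∃ i, b < i ∧ i < n ∧ b < P false i
    · obtain ⟨i, i1, i2, i3⟩ := hZ
      exact fix hlt hinv false i a b i2 (by omega) (by omega) (by omega)
    · push Not at hZ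
      have hZ' : ∀ e i, b < i → i < n → P e i ≤ b := by
        intro e i i1 i2
        cases e
        · exact hZ i i1 i2
        · by_contra hc
          have := hZ (P true i) (by omega) (hlt _ _ i2)
          have h2 := hinv true i i2
          simp only [Bool.not_true] at h2
          omega
      refine transfer hlt hinv (a' := a) (b' := b + 1) (fun e => ⟨!e, ?_⟩)
        (ih (b + 1) (by omega) (by omega))
      obtain ⟨i, hi, h2⟩ := pigeon hinv e (Ico (n - 2) n) {0} (by
        intro i hi; rw [mem_Ico] at hi; omega) (by rw [Nat.card_Ico]; simp; omega)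
      rw [mem_Ico] at hi
      rw [mem_singleton] at h2
      have := out e i hi.2 (by omega) h2
      have := hZ' e i (by omega) hi.2
      exact mk_step e i _ _ _ _ hi.2 (by omega) (by omega) (by omega) (by omega)
        (by unfold Rel; omega) (by unfold Rel; omega)

lemma lemB (hn : 9 ≤ n) {l k : ℕ} (h : Inv P false l k) (hl : l ≤ 1) (a b : ℕ) (hla : l ≤ a)
    (hak : a < k) (hkb : k ≤ b) (hb : b < n) : Conn n P (false, a, b) (true, a, b) := by
  by_cases h3 : l + 3 ≤ k
  · exact lemD hlt hinv h h3 b hkb hb a hla hak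
  · exact lemA hlt hinv hn h hl (by omega) a hak (n - 1 - b) b hkb (by omega)

lemma lemH (hn : 9 ≤ n) (hind : ∀ e k, 0 < k → k < n → ¬ Inv P e 0 k) (c : ℕ) (hc : 1 ≤ c)
    (hcn : c + 1 < n) (hI : ¬ Inv P false 1 (c + 1)) :
    ∀ e, ∃ e', Conn n P (e, 0, c + 1) (e', 0, c) := by
  have direct : ∀ e, (∃ i, 1 ≤ i ∧ i < c + 1 ∧ c + 1 ≤ P e i) →
      Conn n P (e, 0, c + 1) (!e, 0, c) := by
    rintro e ⟨i, i1, i2, i3⟩
    exact mk_step e i _ _ _ _ (by omega) (by omega) (by omega) (by omega) (by omega)
      (by unfold Rel; omega) (by unfold Rel; omega)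
  intro e
  by_cases hd : ∃ i, 1 ≤ i ∧ i < c + 1 ∧ c + 1 ≤ P e i
  · exact ⟨_, direct e hd⟩
  push Not at hd
  have h0 : c + 1 ≤ P e 0 := by
    by_contra hc2
    apply hind e (c + 1) (by omega) hcn
    intro i _ i2
    refine ⟨by omega, ?_⟩
    by_cases hi : i = 0
    · rw [hi]; omega
    · exact hd i (by omega) i2
  have h1 : ¬ Inv P (!e) 1 (c + 1) := fun h1 => hI (inv_all hinv (by omega) h1 false)
  unfold Inv at h1
  push Not at h1
  obtain ⟨j, j1, j2, j3⟩ := h1
  have j4 : P (!e) j ≠ 0 := by
    intro h
    have := hinv (!e) j (by omega)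
    rw [h, Bool.not_not] at this
    omega
  have d2 := direct (!e) ⟨j, j1, j2, j3 (by omega)⟩
  have g : Conn n P (false, 0, c + 1) (true, 0, c + 1) := by
    by_cases hc2 : 2 ≤ c
    · obtain ⟨i, hi, h2⟩ := pigeon hinv e (Ico 1 3) {0} (by
        intro i hi; rw [mem_Ico] at hi; omega) (by simp)
      rw [mem_Ico] at hi
      rw [mem_singleton] at h2
      have := hd i (by omega) (by omega)
      exact fix hlt hinv e i 0 (c + 1) (by omega) (by omega) hcn (by omega)
    · obtain ⟨i, hi, h2⟩ := pigeon hinv e (Ico 3 7) (range 3) (by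
        intro i hi; rw [mem_Ico] at hi; omega) (by simp)
      rw [mem_Ico] at hi
      rw [mem_range] at h2
      exact fix hlt hinv e i 0 (c + 1) (by omega) (by omega) hcn (by omega)
  exact ⟨_, (good_any hlt hinv g e (!e)).trans d2⟩

lemma lemG0 (hn : 9 ≤ n) (hind : ∀ e k, 0 < k → k < n → ¬ Inv P e 0 k) :
    ∀ c, 1 ≤ c → c < n → Conn n P (false, 0, c) (true, 0, c) := by
  intro c hc
  induction c, hc using Nat.le_induction with
  | base =>
    intro _
    obtain ⟨i, hi, h2⟩ := pigeon hinv false (Ico 2 5) (range 2) (by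
      intro i hi; rw [mem_Ico] at hi; omega) (by simp)
    rw [mem_Ico] at hi
    rw [mem_range] at h2
    exact fix hlt hinv false i 0 1 (by omega) (by omega) (by omega) (by omega)
  | succ c hc ih =>
    intro hcn
    by_cases hI : Inv P false 1 (c + 1)
    · have := hI 1 le_rfl (by omega)
      exact fix hlt hinv false 1 0 (c + 1) (by omega) (by omega) hcn (by omega)
    · exact transfer hlt hinv (lemH hlt hinv hn hind c hc hcn hI) (ih (by omega))

theorem good_lt (hn : 9 ≤ n) (a b : ℕ) (hab : a < b) (hb : b < n) :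
    Conn n P (false, a, b) (true, a, b) := by
  by_cases hcut : ∃ k, 0 < k ∧ k < n ∧ Inv P false 0 k
  · obtain ⟨k, k1, k2, hk⟩ := hcut
    by_cases h1 : k ≤ a
    · have := hk 0 le_rfl k1
      exact fix hlt hinv false 0 a b (by omega) hab hb (by omega)
    by_cases h2 : b < k
    · have : k ≤ P false k := by
        by_contra hc
        have := inv_all hinv k2.le hk true (P false k) (by omega) (by omega)
        have h3 := hinv false k k2
        simp only [Bool.not_false] at h3
        omega
      exact fix hlt hinv false k a b k2 hab hb (by omega)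
    exact lemB hlt hinv hn hk (by omega) a b (by omega) (by omega) (by omega) hb
  have hind : ∀ e k, 0 < k → k < n → ¬ Inv P e 0 k := fun e k k1 k2 h =>
    hcut ⟨k, k1, k2, inv_all hinv k2.le h false⟩
  have G0 := lemG0 hlt hinv hn hind
  by_cases htrap : ∃ k, 2 ≤ k ∧ k < n ∧ Inv P false 1 k
  · obtain ⟨k, k1, k2, hk⟩ := htrap
    have h0 : ∀ e, k ≤ P e 0 := by
      intro e
      by_contra hc
      by_cases h1 : P e 0 = 0
      · apply hind e 1 (by omega) (by omega)
        intro i _ hi
        have : i = 0 := by omega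
        rw [this, h1]; omega
      · have := inv_all hinv k2.le hk (!e) (P e 0) (by omega) (by omega)
        rw [hinv e 0 (by omega)] at this
        omega
    by_cases hbk : b ≤ k
    · induction a generalizing b with
      | zero => exact G0 b (by omega) hb
      | succ a ih =>
        refine transfer hlt hinv (a' := a) (b' := b - 1) (fun e => ⟨!e, ?_⟩)
          (ih (b - 1) (by omega) (by omega) (by omega))
        have := h0 e
        exact mk_step e 0 _ _ _ _ (by omega) (by omega) hb (by omega) (by omega)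
          (by unfold Rel; omega) (by unfold Rel; omega)
    by_cases ha0 : a = 0
    · rw [ha0]; exact G0 b (by omega) hb
    by_cases hka : k ≤ a
    · have := hk 1 le_rfl (by omega)
      exact fix hlt hinv false 1 a b (by omega) hab hb (by omega)
    exact lemB hlt hinv hn hk le_rfl a b (by omega) (by omega) (by omega) hb
  · have h0 : ∀ c, 1 ≤ c → c < n → ∀ e, Conn n P (e, 0, c) (false, 0, 1) := by
      intro c hc
      induction c, hc using Nat.le_induction with
      | base => intro h e; exact good_any hlt hinv (G0 1 le_rfl h) e false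
      | succ c hc ih =>
        intro hcn e
        obtain ⟨e', h⟩ := lemH hlt hinv hn hind c hc hcn
          (fun h => htrap ⟨c + 1, by omega, hcn, h⟩) e
        exact h.trans (ih (by omega) e')
    have h1 : ∀ a b, a < b → b < n → ∀ e, Conn n P (e, a, b) (false, 0, 1) := by
      intro a
      induction a with
      | zero => intro b hab hb e; exact h0 b (by omega) hb e
      | succ a ih =>
        intro b hab hb e
        have h2 := hind e (a + 1) (by omega) (by omega)
        unfold Inv at h2
        push Not at h2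
        obtain ⟨i, _, i2, i3⟩ := h2
        have i4 := i3 (by omega)
        by_cases hbi : b ≤ P e i
        · exact (mk_step e i _ _ a (b - 1) (by omega) (by omega) hb (by omega) (by omega)
            (by unfold Rel; omega) (by unfold Rel; omega)).trans
            (ih (b - 1) (by omega) (by omega) _)
        · exact (mk_step e i _ _ a b (by omega) (by omega) hb (by omega) (by omega)
            (by unfold Rel; omega) (by unfold Rel; omega)).trans (ih b (by omega) hb _)
    exact (h1 a b hab hb false).trans (conn_symm hlt hinv (h1 a b hab hb true))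

omit hlt hinv in
lemma conn_swap {s t : Bool × ℕ × ℕ} (h : Conn n P s t) :
    Conn n P (s.1, s.2.2, s.2.1) (t.1, t.2.2, t.2.1) := by
  induction h with
  | refl => exact Relation.ReflTransGen.refl
  | tail _ h2 ih =>
    obtain ⟨h1, h2, h3, h4, h5, i, hi, r1, r2⟩ := h2
    exact Relation.ReflTransGen.tail ih ⟨h1, h3, h2, h5, h4, i, hi, r2, r1⟩

theorem good (hn : 9 ≤ n) (a b : ℕ) (hab : a ≠ b) (ha : a < n) (hb : b < n) :
    Conn n P (false, a, b) (true, a, b) := by
  rcases lt_or_gt_of_ne hab with h | h
  · exact good_lt hlt hinv hn a b h hb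
  · exact conn_swap (good_lt hlt hinv hn b a h ha)

end

lemma path_of_conn {α : Type} {r : α → α → Prop} {s t : α} (h : Relation.ReflTransGen r s t) :
    ∃ (m : ℕ) (f : ℕ → α), f 0 = s ∧ f m = t ∧ ∀ i, i < m → r (f i) (f (i + 1)) := by
  induction h with
  | refl => exact ⟨0, fun _ => s, rfl, rfl, fun i hi => absurd hi (by omega)⟩
  | @tail b c _ h2 ih =>
    obtain ⟨m, f, f0, fm, hf⟩ := ih
    refine ⟨m + 1, fun i => if i ≤ m then f i else c, by simp [f0], by simp, fun i hi => ?_⟩
    by_cases h : i = m
    · subst h; simp [fm, h2]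
    · simp only [show i ≤ m by omega, show i + 1 ≤ m by omega, if_true]
      exact hf i (by omega)

lemma rank_card {n : ℕ} (σ : Equiv.Perm (Fin n)) (z a : Fin n) :
    (univ.filter (fun e : Fin n => e ≠ z ∧ σ e < σ a)).card + (if σ z < σ a then 1 else 0) =
      (σ a : ℕ) := by
  have h1 : (univ.filter (fun e : Fin n => σ e < σ a)).card = (σ a : ℕ) := by
    rw [← Fin.card_Iio]
    refine card_bij (fun e _ => σ e) (by simp) (by simp) ?_
    intro b hb
    exact ⟨σ.symm b, by simpa using hb, by simp⟩
  rw [← h1]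
  split_ifs with h
  · have : univ.filter (fun e : Fin n => σ e < σ a) =
        insert z (univ.filter (fun e : Fin n => e ≠ z ∧ σ e < σ a)) := by
      ext e
      by_cases he : e = z <;> simp [he, h]
    rw [this, card_insert_of_notMem (by simp)]
  · rw [add_zero]
    congr 1
    ext e
    by_cases he : e = z <;> simp [he, h]

end Pool.Agent.H17.OrdRec
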