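import Mathlib

namespace Pool.Agent.H17.PG

open Set Projectivization Submodule
open scoped LinearAlgebra.Projectivization

variable {K V : Type} [Field K] [AddCommGroup V] [Module K V]

def PGBase (B : Set (ℙ K V)) : Prop :=
  LinearIndepOn K Projectivization.rep B ∧ span K (Projectivization.rep '' B) = ⊤

structure Wk (N : Matroid (ℙ K V)) : Prop where
  gr : N.E = univ
  base : ∀ B, N.IsBase B → PGBase B
  nl : ∀ x, x ∉ N.closure ∅

def col (N : Matroid (ℙ K V)) (x y z : ℙ K V) : Prop := z ∈ N.closure {x, y}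

variable {N : Matroid (ℙ K V)}

lemma col_comm {x y z : ℙ K V} (h : col N x y z) : col N y x z := by
  unfold col at *; rwa [pair_comm]

lemma Wk.sub (h : Wk N) (S : Set (ℙ K V)) : S ⊆ N.closure S :=
  N.subset_closure S (by rw [h.gr]; exact subset_univ _)

lemma Wk.cl (h : Wk N) (x y : ℙ K V) : col N x y x := h.sub _ (by simp)
lemma Wk.cr (h : Wk N) (x y : ℙ K V) : col N x y y := h.sub _ (by simp)

lemma cl_trans {S : Set (ℙ K V)} {a b z : ℙ K V} (ha : a ∈ N.closure S) (hb : b ∈ N.closure S)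
    (h : col N a b z) : z ∈ N.closure S :=
  Matroid.closure_subset_closure_of_subset_closure (by rintro w (rfl | rfl) <;> assumption) h

lemma ctr {x y a b z : ℙ K V} (ha : col N x y a) (hb : col N x y b) (h : col N a b z) :
    col N x y z := cl_trans ha hb h

lemma exch {x y z : ℙ K V} (h : col N x y z) (hn : ¬ col N x x z) : col N x z y := by
  unfold col at *
  rw [pair_eq_singleton] at hn
  rw [pair_comm] at h ⊢
  exact Matroid.mem_closure_insert hn h

lemma Wk.sym (h : Wk N) {x y : ℙ K V} (hp : col N x x y) : col N y y x := by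
  unfold col at *
  rw [pair_eq_singleton] at hp ⊢
  have := Matroid.mem_closure_insert (h.nl y) (f := x) (by simpa using hp)
  simpa using this

lemma Wk.indep (h : Wk N) {I : Set (ℙ K V)} (hI : N.Indep I) : LinearIndepOn K Projectivization.rep I := by
  obtain ⟨B, hB, hs⟩ := hI.exists_isBase_superset
  exact (h.base B hB).1.mono hs

lemma Wk.G (h : Wk N) {I : Set (ℙ K V)} (hI : N.Indep I) {z : ℙ K V}
    (hz : z.rep ∈ span K (Projectivization.rep '' I)) : z ∈ N.closure I := by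
  by_contra hn
  have hzI : z ∉ I := fun h' => hn (h.sub _ h')
  have := (hI.insert_indep_iff_of_notMem hzI).mpr ⟨by rw [h.gr]; trivial, hn⟩
  exact (h.indep this).notMem_span_of_insert hzI hz

lemma Wk.ind1 (h : Wk N) (x : ℙ K V) : N.Indep {x} := by
  have := (N.empty_indep.insert_indep_iff_of_notMem (notMem_empty x)).mpr
    ⟨by rw [h.gr]; trivial, h.nl x⟩
  simpa using this

lemma Wk.ind2 (h : Wk N) {x y : ℙ K V} (hn : ¬ col N x x y) : N.Indep {y, x} := by
  unfold col at hn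
  rw [pair_eq_singleton] at hn
  exact ((h.ind1 x).insert_indep_iff_of_notMem (fun h' => hn (h.sub _ h'))).mpr
    ⟨by rw [h.gr]; trivial, hn⟩

/-- `v` represents `x`. -/
def R (x : ℙ K V) (v : V) : Prop := ∃ hv : v ≠ 0, x = mk K v hv

lemma R_rep (x : ℙ K V) : R x x.rep := ⟨x.rep_nonzero, x.mk_rep.symm⟩

lemma R_ex {v : V} (hv : v ≠ 0) : ∃ x : ℙ K V, R x v := ⟨_, hv, rfl⟩

lemma R.ne {x : ℙ K V} {v : V} (h : R x v) : v ≠ 0 := h.1

lemma R.smul {x : ℙ K V} {v : V} (h : R x v) {a : K} (ha : a ≠ 0) : R x (a • v) := by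
  obtain ⟨hv, rfl⟩ := h
  exact ⟨smul_ne_zero ha hv, ((mk_eq_mk_iff' K _ _ _ _).mpr ⟨a, rfl⟩).symm⟩

lemma R.eq {x y : ℙ K V} {v : V} (h : R x v) (h' : R y v) : x = y := by
  obtain ⟨_, rfl⟩ := h; obtain ⟨_, rfl⟩ := h'; rfl

lemma R.mem {x : ℙ K V} {v : V} (h : R x v) (W : Submodule K V) : x.rep ∈ W ↔ v ∈ W := by
  obtain ⟨hv, rfl⟩ := h
  obtain ⟨a, ha⟩ := exists_smul_eq_mk_rep K v hv
  rw [← ha, Units.smul_def, W.smul_mem_iff a.ne_zero]

lemma Wk.L (h : Wk N) {x y z : ℙ K V} {u v w : V} (hx : R x u) (hy : R y v) (hz : R z w)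
    (a b : K) (e : w = a • u + b • v) (hn : ¬ col N x x y) : col N x y z := by
  apply col_comm
  apply h.G (h.ind2 hn)
  rw [hz.mem, e]
  refine add_mem (smul_mem _ _ ?_) (smul_mem _ _ ?_)
  · rw [← hx.mem]; exact subset_span ⟨x, by simp, rfl⟩
  · rw [← hy.mem]; exact subset_span ⟨y, by simp, rfl⟩

lemma Wk.H (h : Wk N) {B : Set (ℙ K V)} (hB : N.IsBase B) {x y : ℙ K V} (hy : y ∈ B)
    {u v : V} (hx : R x u) (hv : R y v) (hne : x ≠ y) :
    ∃ (a : K) (z : ℙ K V), R z (u + a • v) ∧ z ∈ N.closure (B \ {y}) := by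
  have h1 : u ∈ span K (Projectivization.rep '' B) := by rw [(h.base B hB).2]; trivial
  rw [← insert_sdiff_self_of_mem hy, image_insert_eq, Submodule.mem_span_insert] at h1
  obtain ⟨a, w, hw, e⟩ := h1
  obtain ⟨c, hc⟩ : ∃ c : K, c • v = y.rep :=
    Submodule.mem_span_singleton.mp ((hv.mem _).mpr (Submodule.mem_span_singleton_self v))
  have e2 : u + (-(a * c)) • v = w := by rw [e, ← hc]; module
  have hw0 : w ≠ 0 := by
    intro h0
    have e3 : u = (a * c) • v := by rw [e, h0, ← hc]; module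
    have hac : a * c ≠ 0 := fun h1 => hx.ne (by rw [e3, h1, zero_smul])
    exact hne (hx.eq (e3 ▸ hv.smul hac))
  obtain ⟨z, hz⟩ := R_ex (K := K) hw0
  exact ⟨-(a * c), z, e2 ▸ hz, h.G (hB.indep.subset sdiff_subset) ((hz.mem _).mpr hw)⟩

/-- realisation of a third point on the projective line -/
lemma Wk.real (h : Wk N) {x y w : ℙ K V} {u v : V} (hx : R x u) (hv : R y v)
    (hn : ¬ col N y y x) (hw : col N x y w) (h1 : ¬ col N x x w) (h2 : ¬ col N y y w) :
    ∃ (a : K) (z : ℙ K V), a ≠ 0 ∧ R z (u + a • v) ∧ ¬ col N x x z ∧ ¬ col N y y z := by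
  obtain ⟨B, hB, hs⟩ := (h.ind2 h2).exists_isBase_superset
  have hy : y ∈ B := hs (by simp)
  have hwy : w ≠ y := fun e => h2 (e ▸ h.cl _ _)
  have hwB : w ∈ N.closure (B \ {y}) := h.sub _ ⟨hs (by simp), hwy⟩
  have hyB := hB.indep.notMem_closure_sdiff_of_mem hy
  obtain ⟨a, z, hz, hzB⟩ := h.H hB hy hx hv (fun e => hn (e ▸ h.cl _ _))
  have hz1 : col N y x z := h.L hv hx hz a 1 (by module) hn
  have hx1 : col N y w x := exch (col_comm hw) h2
  have hz2 : col N w y z := col_comm (ctr (h.cl _ _) hx1 hz1)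
  have hz3 : col N w w z := by
    by_contra hc
    exact hyB (cl_trans hwB hzB (exch hz2 hc))
  have k1 : ¬ col N x x z := fun hc => h1 (ctr hc hc (h.sym hz3))
  refine ⟨a, z, ?_, hz, k1, fun hc => h2 (ctr hc hc (h.sym hz3))⟩
  rintro rfl
  rw [zero_smul, add_zero] at hz
  exact k1 (hz.eq hx ▸ h.cl _ _)

def Rel (N : Matroid (ℙ K V)) (x y : ℙ K V) : Prop :=
  col N x x y ∨ ∃ z, col N x y z ∧ ¬ col N x x z ∧ ¬ col N y y z

lemma Wk.rsym (h : Wk N) {x y : ℙ K V} (hr : Rel N x y) : Rel N y x := by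
  rcases hr with hr | ⟨z, h1, h2, h3⟩
  · exact Or.inl (h.sym hr)
  · exact Or.inr ⟨z, col_comm h1, h3, h2⟩

lemma Wk.rpar (h : Wk N) {x y z : ℙ K V} (hp : col N x x y) (hr : Rel N y z) : Rel N x z := by
  rcases hr with hr | ⟨w, h1, h2, h3⟩
  · exact Or.inl (ctr hp hp hr)
  · exact Or.inr ⟨w, ctr (ctr (h.cl _ _) (h.cl _ _) hp) (h.cr _ _) h1,
      fun hc => h2 (ctr (h.sym hp) (h.sym hp) hc), h3⟩

lemma Wk.rtrans (h : Wk N) {x y z : ℙ K V} (h1 : Rel N x y) (h2 : Rel N y z) : Rel N x z := by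
  by_cases hxy : col N x x y
  · exact h.rpar hxy h2
  by_cases hzy : col N z z y
  · exact h.rsym (h.rpar hzy (h.rsym h1))
  by_cases hxz : col N x x z
  · exact Or.inl hxz
  have hyx : ¬ col N y y x := fun hc => hxy (h.sym hc)
  have hyz : ¬ col N y y z := fun hc => hzy (h.sym hc)
  by_cases hc : col N x y z
  · exact Or.inr ⟨y, exch hc hxz, hxy, hzy⟩
  obtain ⟨p0, p1, p2, p3⟩ := h1.resolve_left hxy
  obtain ⟨q0, q1, q2, q3⟩ := h2.resolve_left hyz
  obtain ⟨a, p, ha, hp, hp1, hp2⟩ := h.real (R_rep y) (R_rep x) hxy (col_comm p1) p3 p2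
  obtain ⟨b, q, hb, hq, hq1, hq2⟩ := h.real (R_rep y) (R_rep z) hzy q1 q2 q3
  have cp : col N x y p := h.L (R_rep x) (R_rep y) hp a 1 (by module) hxy
  have cq : col N y z q := h.L (R_rep y) (R_rep z) hq 1 b (by module) hyz
  have nq : ¬ col N x y q := fun hc' => hc (ctr (h.cr _ _) hc' (exch cq hq1))
  have hpq : ¬ col N p p q := fun hc' => nq (ctr cp cp hc')
  have h0 : a • x.rep - b • z.rep ≠ 0 := by
    intro h0
    have e : y.rep + a • x.rep = y.rep + b • z.rep := by rw [sub_eq_zero.mp h0]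
    exact hpq ((e ▸ hp : R p _).eq hq ▸ h.cl _ _)
  obtain ⟨s, hs⟩ := R_ex (K := K) h0
  have cs : col N p q s := h.L hp hq hs 1 (-1) (by module) hpq
  refine Or.inr ⟨s, h.L (R_rep x) (R_rep z) hs a (-b) (by module) hxz, fun hc' => ?_, fun hc' => ?_⟩
  · have e1 : col N p q x := ctr cs cs (h.sym hc')
    exact nq (ctr cp (h.cl _ _) (exch e1 fun h' => hp2 (h.sym h')))
  · have e1 : col N q p z := col_comm (ctr cs cs (h.sym hc'))
    have e2 : col N y z p := ctr cq (h.cr _ _) (exch e1 fun h' => hq2 (h.sym h'))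
    have e3 : col N y z x := ctr (h.cl _ _) e2 (exch (col_comm cp) hp1)
    exact hc (col_comm (exch e3 hyx))

lemma Wk.rexch (h : Wk N) {B : Set (ℙ K V)} (hB : N.IsBase B) {x y : ℙ K V} (hy : y ∈ B)
    (hx : x ∉ B) (hB' : N.IsBase (insert x (B \ {y}))) : Rel N x y := by
  by_cases hxy : col N x x y
  · exact Or.inl hxy
  obtain ⟨a, z, hz, hzB⟩ := h.H hB hy (R_rep x) (R_rep y) (fun e => hx (e ▸ hy))
  have hyB := hB.indep.notMem_closure_sdiff_of_mem hy
  have hxB := hB'.indep.notMem_closure_sdiff_of_mem (mem_insert _ _)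
  rw [insert_sdiff_self_of_notMem (fun h' => hx h'.1)] at hxB
  exact Or.inr ⟨z, h.L (R_rep x) (R_rep y) hz 1 a (by module) hxy,
    fun hc => hxB (cl_trans hzB hzB (h.sym hc)), fun hc => hyB (cl_trans hzB hzB (h.sym hc))⟩

/-- an independent triple with representing vectors -/
structure Tri (N : Matroid (ℙ K V)) (x y z : ℙ K V) (u v w : V) : Prop where
  r1 : R x u
  r2 : R y v
  r3 : R z w
  n1 : ¬ col N y z x
  n2 : ¬ col N x z y
  n3 : ¬ col N x y z

lemma Tri.s12 {x y z : ℙ K V} {u v w : V} (t : Tri N x y z u v w) : Tri N y x z v u w :=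
  ⟨t.r2, t.r1, t.r3, t.n2, t.n1, fun h => t.n3 (col_comm h)⟩

lemma Tri.s23 {x y z : ℙ K V} {u v w : V} (t : Tri N x y z u v w) : Tri N x z y u w v :=
  ⟨t.r1, t.r3, t.r2, fun h => t.n1 (col_comm h), t.n3, t.n2⟩

lemma Wk.np (h : Wk N) {x y z : ℙ K V} {u v w : V} (t : Tri N x y z u v w) : ¬ col N x x y :=
  fun hc => t.n2 (ctr (h.cl _ _) (h.cl _ _) hc)

lemma Wk.ne0 (h : Wk N) {x y z : ℙ K V} {u v w : V} (t : Tri N x y z u v w) (a b : K) :
    u + a • v + b • w ≠ 0 := fun h0 =>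
  t.n1 (h.L t.r2 t.r3 t.r1 (-a) (-b) (by linear_combination (norm := module) h0)
    (h.np t.s12.s23))

lemma Wk.meet (h : Wk N) {x y z s : ℙ K V} {u v w : V} (t : Tri N x y z u v w)
    (h1 : col N x y s) (h2 : col N x z s) : col N x x s := by
  by_contra hc
  exact t.n3 (ctr (h.cl _ _) h1 (exch h2 hc))

lemma Wk.lemA (h : Wk N) {x y z : ℙ K V} {u v w : V} (t : Tri N x y z u v w) (c d : K)
    {p q s : ℙ K V} (hp : R p (u + c • v)) (hq : R q (v + d • w)) (hs : R s (u + (c * d) • w))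
    (h1 : col N x x p) (h2 : ¬ col N z z q) : col N x x s := by
  obtain ⟨r, hr⟩ := R_ex (K := K) (h.ne0 t c (c * d))
  have cq : col N y z q := h.L t.r2 t.r3 hq 1 d (by module) (h.np t.s12.s23)
  have npz : ¬ col N p p z := fun hc => h.np t.s23 (ctr h1 h1 hc)
  have c1 : col N x z r := ctr (ctr (h.cl _ _) (h.cl _ _) h1) (h.cr _ _)
    (h.L hp t.r3 hr 1 (c * d) (by module) npz)
  have nxq : ¬ col N x x q := fun hc => t.n1 (ctr cq cq (h.sym hc))
  have c2 : col N x q r := h.L t.r1 hq hr 1 c (by module) nxq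
  have c3 : col N x x r := by
    by_contra hc
    have e1 : col N x z q := ctr (h.cl _ _) c1 (exch c2 hc)
    exact t.n2 (ctr (h.cr _ _) e1 (exch (col_comm cq) h2))
  have nry : ¬ col N r r y := fun hc => h.np t (ctr c3 c3 hc)
  exact h.meet t (ctr (ctr (h.cl _ _) (h.cl _ _) c3) (h.cr _ _)
    (h.L hr t.r2 hs 1 (-c) (by module) nry))
    (h.L t.r1 t.r3 hs 1 (c * d) (by module) (h.np t.s23))

lemma Wk.lemB (h : Wk N) {x y z : ℙ K V} {u v w : V} (t : Tri N x y z u v w) (c d : K)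
    {p q s : ℙ K V} (hp : R p (u + c • v)) (hq : R q (v + d • w)) (hs : R s (u + (c * d) • w))
    (h1 : ¬ col N y y p) (h2 : col N y y q) : col N x x s := by
  obtain ⟨r, hr⟩ := R_ex (K := K) (h.ne0 t c (c * d))
  have nxq : ¬ col N x x q := fun hc => h.np t (ctr hc hc (h.sym h2))
  have c2 : col N x y r := ctr (h.cl _ _) (ctr (h.cr _ _) (h.cr _ _) h2)
    (h.L t.r1 hq hr 1 c (by module) nxq)
  have cp : col N x y p := h.L t.r1 t.r2 hp 1 c (by module) (h.np t)
  have npz : ¬ col N p p z := fun hc => t.n3 (ctr cp cp hc)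
  have c1 : col N p z r := h.L hp t.r3 hr 1 (c * d) (by module) npz
  have c3 : col N p p r := by
    by_contra hc
    exact t.n3 (ctr cp c2 (exch c1 hc))
  have nry : ¬ col N r r y := fun hc => h1 (h.sym (ctr c3 c3 hc))
  exact h.meet t (ctr c2 (h.cr _ _) (h.L hr t.r2 hs 1 (-c) (by module) nry))
    (h.L t.r1 t.r3 hs 1 (c * d) (by module) (h.np t.s23))

lemma Wk.third (h : Wk N) (hr : 3 ≤ Module.finrank K V) {x y : ℙ K V} (hn : ¬ col N x x y) :
    ∃ z, ¬ col N x y z := by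
  by_contra hc
  push Not at hc
  have hB : N.IsBase {y, x} := (h.ind2 hn).isBase_of_ground_subset_closure
    fun z _ => col_comm (hc z)
  have h1 := (h.base _ hB).2
  classical
  rw [image_pair] at h1
  have h2 := finrank_span_finset_le_card (R := K) ({y.rep, x.rep} : Finset V)
  have h3 : ({y.rep, x.rep} : Finset V).card ≤ 2 := Finset.card_le_two
  unfold Set.finrank at h2
  rw [Finset.coe_pair, h1, finrank_top] at h2
  omega

lemma Wk.mkTri (h : Wk N) {x y z : ℙ K V} {u v w : V} (r1 : R x u) (r2 : R y v) (r3 : R z w)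
    (hn : ¬ col N x x y) (h3 : ¬ col N x y z) : Tri N x y z u v w :=
  ⟨r1, r2, r3, fun hc => h3 (col_comm (exch hc fun h' => hn (h.sym h'))),
    fun hc => h3 (exch hc hn), h3⟩

lemma Wk.simple [Finite K] (h : Wk N) (hr : 3 ≤ Module.finrank K V) (hrel : ∀ x y, Rel N x y)
    {x y : ℙ K V} (hne : x ≠ y) : ¬ col N x x y := by
  intro hp
  obtain ⟨B, hB, hs⟩ := (h.ind1 x).exists_isBase_superset
  have hxB : x ∈ B := hs rfl
  obtain ⟨a, x2, hx2, hzB⟩ := h.H hB hxB (R_rep y) (R_rep x) hne.symm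
  have n12 : ¬ col N x x x2 := fun hc =>
    hB.indep.notMem_closure_sdiff_of_mem hxB (cl_trans hzB hzB (h.sym hc))
  have ha : a ≠ 0 := by
    rintro rfl
    rw [zero_smul, add_zero] at hx2
    exact n12 (hx2.eq (R_rep y) ▸ hp)
  obtain ⟨x3, n3⟩ := h.third hr n12
  obtain ⟨w1, k1, k2, k3⟩ := (hrel x x2).resolve_left n12
  obtain ⟨l, P, hl, hP, nP1, nP2⟩ := h.real (R_rep x) hx2 (fun h' => n12 (h.sym h')) k1 k2 k3
  have cP : col N x x2 P := h.L (R_rep x) hx2 hP 1 l (by module) n12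
  have nP3 : ¬ col N P P x3 := fun hc => n3 (ctr cP cP hc)
  obtain ⟨w2, j1, j2, j3⟩ := (hrel P x3).resolve_left nP3
  obtain ⟨m, U, hm, hU, nU1, nU2⟩ := h.real hP (R_rep x3) (fun h' => nP3 (h.sym h')) j1 j2 j3
  set e1 := x.rep with he1
  set e2 := l • (y.rep + a • x.rep) with he2
  set e3 := m • x3.rep with he3
  have t : Tri N x x2 x3 e1 e2 e3 := h.mkTri (R_rep x) (hx2.smul hl) ((R_rep x3).smul hm) n12 n3
  have cU : col N P x3 U := h.L hP t.r3 hU 1 1 (by module) nP3
  have nU : ¬ col N x x2 U := fun hc => n3 (ctr cP hc (exch cU nU1))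
  have ex : ∀ {x y z : ℙ K V} {u v w : V}, Tri N x y z u v w → ∀ c : K,
      ∃ p : ℙ K V, R p (u + c • v) := fun t c =>
    R_ex (by have := h.ne0 t c 0; rwa [zero_smul, add_zero] at this)
  obtain ⟨q23, hq23⟩ := ex t.s12.s23 1
  obtain ⟨q31, hq31⟩ := ex t.s23.s12 1
  have n23 : ¬ col N x3 x3 q23 := by
    intro hc
    have nUx : ¬ col N x x U := fun h' => nU (ctr (h.cl _ _) (h.cl _ _) h')
    have c1 : col N x U q23 := h.L t.r1 hU hq23 (-1) 1 (by module) nUx
    have c2 : col N U x x3 := col_comm (ctr c1 c1 (h.sym hc))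
    have c3 : col N U x3 x := exch c2 fun h' => nU2 (h.sym h')
    have c4 : col N P x3 x := ctr cU (h.cr _ _) c3
    exact n3 (ctr cP (h.cl _ _) (exch c4 fun h' => nP1 (h.sym h')))
  have n31 : ¬ col N x x q31 := by
    intro hc
    have nUx : ¬ col N x2 x2 U := fun h' => nU (ctr (h.cr _ _) (h.cr _ _) h')
    have c1 : col N x2 U q31 := h.L t.r2 hU hq31 (-1) 1 (by module) nUx
    have c2 : col N x2 U x := ctr c1 c1 (h.sym hc)
    exact nU (col_comm (exch c2 fun h' => n12 (h.sym h')))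
  set c : K := -(a * l)⁻¹ with hc
  have hc0 : c ≠ 0 := neg_ne_zero.mpr (inv_ne_zero (mul_ne_zero ha hl))
  have hy : R y (e1 + c • e2) := by
    have e : e1 + c • e2 = (-a⁻¹) • y.rep := by
      rw [he1, he2, hc]
      match_scalars <;> field_simp <;> ring
    rw [e]
    exact (R_rep y).smul (neg_ne_zero.mpr (inv_ne_zero ha))
  obtain ⟨q32, hq32⟩ := ex t.s12.s23.s12 c
  have p32 : col N x3 x3 q32 :=
    h.lemB t.s23.s12 1 c hq31 hy (by rwa [one_mul]) n31 hp
  have n32 : ¬ col N x2 x2 q32 := fun h' => h.np t.s12.s23 (ctr h' h' (h.sym p32))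
  have ind : ∀ n : ℕ, ∀ s, R s (e1 + c ^ (n + 1) • e2) → col N x x s := by
    intro n
    induction n with
    | zero => intro s hs; rw [zero_add, pow_one] at hs; exact hs.eq hy ▸ hp
    | succ n ih =>
      intro s hs
      obtain ⟨s1, hs1⟩ := ex t (c ^ (n + 1))
      obtain ⟨s2, hs2⟩ := ex t.s23 (c ^ (n + 1))
      have g1 := h.lemA t (c ^ (n + 1)) 1 hs1 hq23 (by rwa [mul_one]) (ih s1 hs1) n23
      exact h.lemA t.s23 (c ^ (n + 1)) c hs2 hq32 (by rwa [← pow_succ]) g1 n32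
  have := Fintype.ofFinite K
  have hq : c ^ (Fintype.card K - 1) = 1 := FiniteField.pow_card_sub_one_eq_one c hc0
  have h2 : 1 < Fintype.card K := Fintype.one_lt_card
  obtain ⟨n, hn⟩ : ∃ n, Fintype.card K - 1 = n + 1 := ⟨Fintype.card K - 2, by omega⟩
  exact nP1 (ind n P (by rw [← hn, hq, one_smul]; exact hP))

lemma Wk.all [Finite K] (h : Wk N) (hr : 3 ≤ Module.finrank K V) (hrel : ∀ x y, Rel N x y)
    {B : Set (ℙ K V)} (hB : PGBase B) : N.IsBase B := by
  let W : Submodule K V :=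
    { carrier := {v | ∀ x, R x v → x ∈ N.closure B}
      zero_mem' := fun x hx => absurd rfl hx.ne
      smul_mem' := fun a v hv x hx => by
        have ha : a ≠ 0 := fun h0 => hx.ne (by rw [h0, zero_smul])
        have := hx.smul (inv_ne_zero ha)
        rw [inv_smul_smul₀ ha] at this
        exact hv x this
      add_mem' := fun {u v} hu hv z hz => by
        by_cases hu0 : u = 0
        · rw [hu0, zero_add] at hz; exact hv z hz
        by_cases hv0 : v = 0
        · rw [hv0, add_zero] at hz; exact hu z hz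
        obtain ⟨x, hx⟩ := R_ex (K := K) hu0
        obtain ⟨y, hy⟩ := R_ex (K := K) hv0
        by_cases hxy : x = y
        · subst hxy
          refine cl_trans (hu x hx) (hu x hx) ?_
          unfold col
          rw [pair_eq_singleton]
          apply h.G (h.ind1 x)
          rw [hz.mem]
          refine add_mem ?_ ?_
          · rw [← hx.mem]; exact subset_span ⟨x, by simp, rfl⟩
          · rw [← hy.mem]; exact subset_span ⟨x, by simp, rfl⟩
        · exact cl_trans (hu x hx) (hv y hy)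
            (h.L hx hy hz 1 1 (by module) (h.simple hr hrel hxy)) }
  have hW : ⊤ ≤ W := by
    rw [← hB.2, span_le]
    rintro _ ⟨b, hb, rfl⟩ x hx
    exact hx.eq (R_rep b) ▸ h.sub _ hb
  have hsp : N.Spanning B := by
    rw [Matroid.spanning_iff_ground_subset_closure (by rw [h.gr]; exact subset_univ _)]
    exact fun x _ => hW (mem_top (x := x.rep)) x (R_rep x)
  obtain ⟨B', hB', hs⟩ := hsp.exists_isBase_subset
  have : B' = B := by
    refine Subset.antisymm hs fun b hb => ?_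
    by_contra hn
    apply hB.1.notMem_span hb
    apply span_mono (image_mono (show B' ⊆ B \ {b} from fun y hy => ⟨hs hy, fun e => hn (e ▸ hy)⟩))
    rw [(h.base _ hB').2]; trivial
  exact this ▸ hB'

section poly
open Classical

variable {E : Type}

noncomputable def ind (B : Set E) : E → ℝ := B.indicator 1

noncomputable def fS [Fintype E] (S : Set E) : (E → ℝ) →ₗ[ℝ] ℝ :=
  ∑ e, if e ∈ S then LinearMap.proj e else 0

lemma fS_single [Fintype E] (S : Set E) (x : E) :
    fS S (Pi.single x 1) = if x ∈ S then 1 else 0 := by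
  unfold fS
  rw [LinearMap.sum_apply, Finset.sum_eq_single x]
  · split_ifs <;> simp
  · intro b _ hb
    split_ifs <;> simp [hb]
  · simp

lemma ind_exch {B : Set E} {x y : E} (hy : y ∈ B) (hx : x ∉ B) :
    ind (insert x (B \ {y})) = ind B - Pi.single y 1 + Pi.single x 1 := by
  funext e
  have hne : x ≠ y := fun h => hx (h ▸ hy)
  by_cases h1 : e = x
  · subst h1; simp [ind, hx, hne]
  by_cases h2 : e = y
  · subst h2; simp [ind, hy, h1]
  · by_cases h3 : e ∈ B <;> simp [ind, h1, h2, h3]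

lemma sep [Fintype E] (M : Matroid E) (S : Set E)
    (h : ∀ B x y, M.IsBase B → y ∈ B → x ∉ B → M.IsBase (insert x (B \ {y})) → (x ∈ S ↔ y ∈ S)) :
    ∀ B1 B2, M.IsBase B1 → M.IsBase B2 → fS S (ind B1) = fS S (ind B2) := by
  intro B1 B2 h1 h2
  induction hn : (B1 \ B2).ncard using Nat.strong_induction_on generalizing B1 with
  | _ n ih =>
    by_cases he : B1 \ B2 = ∅
    · rw [h1.eq_of_subset_isBase h2 (sdiff_eq_empty.mp he)]
    · obtain ⟨y, hy⟩ := nonempty_iff_ne_empty.mpr he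
      obtain ⟨x, hx, hb⟩ := h1.exchange h2 hy
      have hlt : (insert x (B1 \ {y}) \ B2).ncard < n := by
        rw [← hn]
        apply ncard_lt_ncard _ (toFinite _)
        refine ⟨fun e he => ?_, fun hs => ?_⟩
        · rcases he with ⟨rfl | he, he2⟩
          · exact absurd hx.1 he2
          · exact ⟨he.1, he2⟩
        · rcases (hs hy).1 with e | e
          · exact hy.2 (e ▸ hx.1)
          · exact e.2 rfl
      rw [← ih _ hlt _ hb rfl, ind_exch hy.1 hx.2, map_add, map_sub, fS_single, fS_single]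
      simp only [h B1 x y h1 hy.1 hx.2 hb]
      ring

lemma avoid {X ι : Type} [AddCommGroup X] [Module ℝ X] (C : Set X) (hC : Convex ℝ C)
    (hne : C.Nonempty) (f : ι → X →ₗ[ℝ] ℝ) (k : ι → ℝ) (s : Finset ι)
    (h : ∀ i ∈ s, ∃ p ∈ C, f i p ≠ k i) : ∃ p ∈ C, ∀ i ∈ s, f i p ≠ k i := by
  induction s using Finset.induction_on with
  | empty => obtain ⟨p, hp⟩ := hne; exact ⟨p, hp, by simp⟩
  | insert j s hj ih =>
    obtain ⟨p, hp, hp2⟩ := ih fun i hi => h i (Finset.mem_insert_of_mem hi)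
    obtain ⟨q, hq, hq2⟩ := h j (Finset.mem_insert_self _ _)
    obtain ⟨t, ht, ht2⟩ := (Ioo_infinite (zero_lt_one' ℝ)).exists_notMem_finset
      ((insert j s).image fun i => (k i - f i p) / (f i q - f i p))
    refine ⟨(1 - t) • p + t • q, hC hp hq (by linarith [ht.2]) ht.1.le (by ring), fun i hi h0 => ?_⟩
    rw [map_add, map_smul, map_smul, smul_eq_mul, smul_eq_mul] at h0
    by_cases hd : f i q - f i p = 0
    · have e : f i q = f i p := sub_eq_zero.mp hd
      rcases Finset.mem_insert.mp hi with rfl | hi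
      · exact hq2 (by rw [← e] at h0; linarith)
      · exact hp2 i hi (by rw [e] at h0; linarith)
    · exact ht2 (Finset.mem_image.mpr ⟨i, hi, by rw [div_eq_iff hd]; linarith⟩)

lemma span_rep : span K (Projectivization.rep '' (univ : Set (ℙ K V))) = ⊤ := by
  rw [eq_top_iff]
  intro v _
  by_cases hv : v = 0
  · rw [hv]; exact zero_mem _
  obtain ⟨x, hx⟩ := R_ex (K := K) hv
  rw [← hx.mem]
  exact subset_span ⟨x, trivial, rfl⟩

lemma R.par {x y : ℙ K V} {u v : V} (hx : R x u) (hy : R y v) (h : u ∈ span K {v}) : x = y := by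
  obtain ⟨a, rfl⟩ := Submodule.mem_span_singleton.mp h
  exact hx.eq (hy.smul fun h0 => hx.ne (by rw [h0, zero_smul]))

lemma pg_exch {x y : ℙ K V} (hne : x ≠ y) :
    ∃ B : Set (ℙ K V), PGBase B ∧ y ∈ B ∧ x ∉ B ∧ PGBase (insert x (B \ {y})) := by
  have h0 : x.rep + y.rep ≠ 0 := fun h0 => hne ((R_rep x).par (R_rep y)
    (Submodule.mem_span_singleton.mpr ⟨-1, by linear_combination (norm := module) -h0⟩))
  obtain ⟨z, hz⟩ := R_ex (K := K) h0
  have hzy : z ≠ y := by
    rintro rfl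
    have := (hz.mem _).mp (Submodule.mem_span_singleton_self (R := K) z.rep)
    exact hne ((R_rep x).par (R_rep z)
      ((Submodule.add_mem_iff_left _ (Submodule.mem_span_singleton_self _)).mp this))
  have hzx : z ≠ x := by
    rintro rfl
    have := (hz.mem _).mp (Submodule.mem_span_singleton_self (R := K) z.rep)
    exact hne ((R_rep y).par (R_rep z)
      ((Submodule.add_mem_iff_right _ (Submodule.mem_span_singleton_self _)).mp this)).symm
  have li : LinearIndepOn K Projectivization.rep ({z, y} : Set (ℙ K V)) := by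
    refine LinearIndepOn.insert (by simpa using y.rep_nonzero) ?_
    rw [image_singleton]
    exact fun h => hzy ((R_rep z).par (R_rep y) h)
  obtain ⟨B, -, hs, hsp, hli⟩ := exists_linearIndepOn_extension li (subset_univ _)
  have hy : y ∈ B := hs (by simp)
  have hzB : z ∈ B := hs (by simp)
  have hsp2 : span K (Projectivization.rep '' B) = ⊤ := by
    rw [eq_top_iff, ← span_rep, span_le]; exact hsp
  have hzs : x.rep + y.rep ∈ span K (Projectivization.rep '' (B \ {y})) := by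
    rw [← hz.mem]; exact subset_span ⟨z, ⟨hzB, hzy⟩, rfl⟩
  have hxs : x.rep ∉ span K (Projectivization.rep '' (B \ {y})) := fun h =>
    hli.notMem_span hy ((Submodule.add_mem_iff_right _ h).mp hzs)
  refine ⟨B, ⟨hli, hsp2⟩, hy, fun hx => hxs (subset_span ⟨x, ⟨hx, hne⟩, rfl⟩),
    (hli.mono sdiff_subset).insert hxs, ?_⟩
  rw [eq_top_iff, ← hsp2, span_le]
  rintro _ ⟨b, hb, rfl⟩
  by_cases hby : b = y
  · subst hby
    have h1 : x.rep ∈ span K (Projectivization.rep '' insert x (B \ {b})) :=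
      subset_span ⟨x, mem_insert _ _, rfl⟩
    exact (Submodule.add_mem_iff_right _ h1).mp (span_mono (image_mono (subset_insert _ _)) hzs)
  · exact subset_span ⟨b, Or.inr ⟨hb, hby⟩, rfl⟩

theorem main [Finite K] [Fintype (ℙ K V)] (hr : 3 ≤ Module.finrank K V)
    {ι : Type} (s : Finset ι) (M : ι → Matroid (ℙ K V)) (hE : ∀ i ∈ s, (M i).E = univ)
    (hB : ∀ i ∈ s, ∀ B, (M i).IsBase B → PGBase B)
    (hcov : ∀ p ∈ convexHull ℝ (ind '' {B : Set (ℙ K V) | PGBase B}),
      ∃ i ∈ s, p ∈ convexHull ℝ (ind '' {B | (M i).IsBase B})) :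
    ∃ i ∈ s, ∀ B, PGBase B → (M i).IsBase B := by
  by_contra hc
  push Not at hc
  have hnt : Nontrivial (ℙ K V) := by
    by_contra hn
    have hn := not_nontrivial_iff_subsingleton.mp hn
    have : Nontrivial V := Module.nontrivial_of_finrank_pos (R := K) (by omega)
    obtain ⟨v, hv⟩ := exists_ne (0 : V)
    obtain ⟨x, hx⟩ := R_ex (K := K) hv
    have h1 : (univ : Set (ℙ K V)) = {x} := by ext y; simp [Subsingleton.elim y x]
    have h2 := span_rep (K := K) (V := V)
    rw [h1, image_singleton] at h2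
    have h3 := finrank_span_singleton (K := K) x.rep_nonzero
    rw [h2, finrank_top] at h3
    omega
  have key : ∀ i ∈ s, ∃ S : Set (ℙ K V), (∃ x y, x ∉ S ∧ y ∈ S) ∧ ∀ B x y, (M i).IsBase B →
      y ∈ B → x ∉ B → (M i).IsBase (insert x (B \ {y})) → (x ∈ S ↔ y ∈ S) := by
    intro i hi
    by_cases hl : ∃ x, x ∈ (M i).closure ∅
    · obtain ⟨x, hx⟩ := hl
      obtain ⟨y, hy⟩ := exists_ne x
      have hno : ∀ B, (M i).IsBase B → x ∉ B := fun B hB hxB =>
        hB.indep.notMem_closure_sdiff_of_mem hxB ((M i).closure_subset_closure (empty_subset _) hx)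
      refine ⟨{x}, ⟨y, x, hy, rfl⟩, fun B a b h1 h2 _ h4 => ?_⟩
      exact iff_of_false (fun e => hno _ h4 (e ▸ mem_insert _ _)) (fun e => hno _ h1 (e ▸ h2))
    · push Not at hl
      have w : Wk (M i) := ⟨hE i hi, hB i hi, hl⟩
      obtain ⟨B, h1, h2⟩ := hc i hi
      have : ¬ ∀ x y, Rel (M i) x y := fun hrel => h2 (w.all hr hrel h1)
      push Not at this
      obtain ⟨x, y, hxy⟩ := this
      refine ⟨{z | Rel (M i) x z}, ⟨y, x, hxy, Or.inl (w.cl _ _)⟩, fun B a b k1 k2 k3 k4 => ?_⟩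
      have := w.rexch k1 k2 k3 k4
      exact ⟨fun h' => w.rtrans h' this, fun h' => w.rtrans h' (w.rsym this)⟩
  choose! S hS1 hS2 using key
  have hb := fun i => (M i).exists_isBase
  choose B0 hB0 using hb
  obtain ⟨x0, y0, h0⟩ := exists_pair_ne (ℙ K V)
  obtain ⟨B1, hB1, -⟩ := pg_exch h0
  obtain ⟨p, hp, hp2⟩ := avoid _ (convex_convexHull ℝ (ind '' {B : Set (ℙ K V) | PGBase B}))
    ⟨_, subset_convexHull ℝ _ ⟨B1, hB1, rfl⟩⟩ (fun i => fS (S i)) (fun i => fS (S i) (ind (B0 i))) s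
    (by
      intro i hi
      obtain ⟨x, y, hx, hy⟩ := hS1 i hi
      obtain ⟨B, k1, k2, k3, k4⟩ := pg_exch (x := x) (y := y) (fun e => hx (e ▸ hy))
      by_cases he : fS (S i) (ind B) = fS (S i) (ind (B0 i))
      · refine ⟨_, subset_convexHull ℝ _ ⟨_, k4, rfl⟩, ?_⟩
        rw [ind_exch k2 k3, map_add, map_sub, fS_single, fS_single, he, if_pos hy, if_neg hx]
        linarith
      · exact ⟨_, subset_convexHull ℝ _ ⟨_, k1, rfl⟩, he⟩)
  obtain ⟨i, hi, hpi⟩ := hcov p hp
  refine hp2 i hi (convexHull_min (t := {p | fS (S i) p = fS (S i) (ind (B0 i))}) ?_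
    (convex_hyperplane (fS (S i)).isLinear _) hpi)
  rintro _ ⟨B, hB, rfl⟩
  exact sep (M i) (S i) (hS2 i hi) _ _ hB (hB0 i)

end poly

end Pool.Agent.H17.PG
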