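import Mathlib

namespace Pool.Agent.H17.Pent

/-- The `m`-gonal number with argument `x` (the numerator is always even). -/
def P (m x : ℕ) : ℤ := (((m : ℤ) - 2) * (x : ℤ) ^ 2 - ((m : ℤ) - 4) * x) / 2

/-- Generalized pentagonal numbers. -/
def G5 (z : ℤ) : ℤ := (3 * z ^ 2 - z) / 2

def Universal (j k : ℕ) : Prop := ∀ n : ℕ, ∃ z : ℤ, ∃ x y : ℕ, (n : ℤ) = G5 z + P j x + P k y

def L : List (ℕ × ℕ) :=
  [(3, 3), (3, 4), (3, 5), (3, 6), (3, 7), (3, 8), (3, 9), (3, 10), (3, 11), (3, 12), (3, 13), (3, 14), (3, 15), (3, 16), (3, 17), (3, 18), (3, 19), (3, 20), (3, 22), (3, 24), (3, 25), (3, 28), (3, 29), (3, 30), (3, 32), (3, 37), (4, 4), (4, 5), (4, 6), (4, 7), (4, 8), (4, 9), (4, 10), (4, 11), (4, 12), (4, 13), (4, 15), (4, 16), (4, 18), (4, 20), (4, 21), (4, 22), (4, 23), (4, 24), (4, 25), (4, 27), (4, 28), (4, 31), (4, 33), (4, 34), (5, 6), (5, 7), (5, 8), (5, 9), (5, 10), (5, 11), (5, 12),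 (5, 20), (6, 7), (6, 8), (6, 9), (6, 10), (7, 9), (7, 11), (8, 10), (9, 11)]

def q (j x : ℕ) : ℕ := (j - 2) * (x * (x - 1)) + 2 * x

lemma q_cast (j x : ℕ) (hj : 3 ≤ j) : (q j x : ℤ) = 2 * P j x := by
  have h1 : (q j x : ℤ) = ((j : ℤ) - 2) * (x : ℤ) ^ 2 - ((j : ℤ) - 4) * x := by
    unfold q
    rcases x with _ | x
    · simp
    · have : 2 ≤ j := by omega
      push_cast [Nat.add_sub_cancel, Nat.cast_sub this]
      ring
  have h2 : 2 ∣ q j x := by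
    unfold q
    refine Dvd.dvd.add (Dvd.dvd.mul_left ?_ _) (Dvd.intro _ rfl)
    exact (Nat.even_mul_pred_self x).two_dvd
  obtain ⟨c, hc⟩ := h2
  unfold P
  rw [← h1, hc]
  push_cast
  omega

lemma g_ex (z : ℤ) : ∃ t : ℕ, 2 * G5 z = (t * (3 * t + 1) : ℕ) ∨ 2 * G5 z = ((t + 1) * (3 * t + 2) : ℕ) := by
  have h : 2 * G5 z = 3 * z ^ 2 - z := by
    unfold G5
    have : (2 : ℤ) ∣ 3 * z ^ 2 - z := by
      have h1 := (Int.even_mul_pred_self z).two_dvd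
      have : 3 * z ^ 2 - z = z * (z - 1) + 2 * z ^ 2 := by ring
      rw [this]
      exact Dvd.dvd.add h1 (Dvd.intro _ rfl)
    omega
  rw [h]
  rcases le_or_gt z 0 with hz | hz
  · refine ⟨(-z).toNat, Or.inl ?_⟩
    push_cast
    rw [Int.toNat_of_nonneg (by omega)]
    ring
  · refine ⟨(z - 1).toNat, Or.inr ?_⟩
    push_cast
    rw [Int.toNat_of_nonneg (by omega)]
    ring

def R (j k n : ℕ) : Prop :=
  ∃ t x y : ℕ, t * (3 * t + 1) + q j x + q k y = 2 * n ∨ (t + 1) * (3 * t + 2) + q j x + q k y = 2 * n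

lemma R_of {j k : ℕ} (hj : 3 ≤ j) (hk : 3 ≤ k) (h : Universal j k) (n : ℕ) : R j k n := by
  obtain ⟨z, x, y, e⟩ := h n
  obtain ⟨t, ht⟩ := g_ex z
  have h1 := q_cast j x hj
  have h2 := q_cast k y hk
  refine ⟨t, x, y, ?_⟩
  rcases ht with ht | ht
  · left
    generalize t * (3 * t + 1) = a at ht ⊢
    omega
  · right
    generalize (t + 1) * (3 * t + 2) = a at ht ⊢
    omega

lemma q_ge (j x : ℕ) (hj : 3 ≤ j) (hx : 44 ≤ x) : 1900 ≤ q j x := by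
  unfold q
  have h1 : 44 * 43 ≤ x * (x - 1) := Nat.mul_le_mul hx (by omega)
  have h2 : 1 * (x * (x - 1)) ≤ (j - 2) * (x * (x - 1)) := Nat.mul_le_mul (by omega) le_rfl
  omega

lemma q_small (j j' x m : ℕ) (hj : 3 ≤ j) (h : q j x ≤ m) (hm : m < 2 * j) : q j' x = q j x := by
  rcases x with _ | _ | x
  · simp [q]
  · simp [q]
  · exfalso
    unfold q at h
    have h1 : 2 * 1 ≤ (x + 1 + 1) * (x + 1 + 1 - 1) := Nat.mul_le_mul (by omega) (by omega)
    have h2 : (j - 2) * 2 ≤ (j - 2) * ((x + 1 + 1) * (x + 1 + 1 - 1)) := Nat.mul_le_mul le_rfl h1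
    omega

def chk (j k n : ℕ) : Bool :=
  (List.range 44).all fun y => (2 * n < q k y) || (List.range 44).all fun x =>
    (2 * n < q j x + q k y) || (List.range 26).all fun t =>
      (t * (3 * t + 1) + q j x + q k y != 2 * n) && ((t + 1) * (3 * t + 2) + q j x + q k y != 2 * n)

lemma not_R {j k n : ℕ} (hj : 3 ≤ j) (hk : 3 ≤ k) (hn : n < 950) (h : chk j k n = true) :
    ¬ R j k n := by
  rintro ⟨t, x, y, e⟩
  have hx : x < 44 := by
    by_contra hx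
    have := q_ge j x hj (by omega)
    omega
  have hy : y < 44 := by
    by_contra hy
    have := q_ge k y hk (by omega)
    omega
  have ht : t < 26 := by
    by_contra ht
    have h1 : 26 * 79 ≤ t * (3 * t + 1) := Nat.mul_le_mul (by omega) (by omega)
    have h2 : 26 * 79 ≤ (t + 1) * (3 * t + 2) := Nat.mul_le_mul (by omega) (by omega)
    omega
  simp only [chk, List.all_eq_true, List.mem_range, Bool.or_eq_true, decide_eq_true_eq,
    Bool.and_eq_true, bne_iff_ne, ne_eq] at h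
  rcases h y hy with h | h
  · omega
  rcases h x hx with h | h
  · omega
  have := h t ht
  omega

def tab : List (List ℕ) :=
  [[0, 0, 0, 0, 0, 0, 0, 0, 0, 0, 0, 0, 0, 0, 0, 0, 0, 0, 0, 0, 0, 490, 0, 65, 0, 0, 65, 109, 0, 0, 0, 65, 0, 75, 65, 199, 75, 0, 439, 923, 109, 65, 286, 839, 75, 109, 65, 227, 134, 252, 109, 65, 134, 150, 273, 273, 65, 0, 285, 134, 109, 75, 571, 319, 150, 109, 65],
   [0, 0, 0, 0, 0, 0, 0, 0, 0, 0, 0, 0, 0, 0, 34, 0, 0, 46, 0, 243, 0, 0, 0, 0, 0, 0, 46, 0, 0, 234, 414, 0, 399, 0, 0, 34, 34, 34, 34, 34, 34, 34, 34, 34, 34, 34, 34, 34, 34, 34, 34, 34, 34, 34, 34, 34, 34, 34, 34, 34, 34, 34, 34, 34, 34, 34, 34],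
   [0, 0, 0, 0, 0, 33, 0, 0, 0, 0, 0, 0, 0, 68, 60, 33, 84, 81, 154, 65, 0, 81, 33, 55, 33, 55, 65, 55, 60, 33, 55, 154, 60, 65, 33, 33, 33, 33, 33, 33, 33, 33, 33, 33, 33, 33, 33, 33, 33, 33, 33, 33, 33, 33, 33, 33, 33, 33, 33, 33, 33, 33, 33, 33, 33, 33, 33],
   [0, 0, 0, 0, 0, 0, 10, 0, 0, 0, 0, 10, 10, 10, 10, 10, 10, 10, 10, 10, 10, 10, 10, 10, 10, 10, 10, 10, 10, 10, 10, 10, 10, 10, 10, 10, 10, 10, 10, 10, 10, 10, 10, 10, 10, 10, 10, 10, 10, 10, 10, 10, 10, 10, 10, 10, 10, 10, 10, 10, 10, 10, 10, 10, 10, 10, 10],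
   [0, 0, 0, 0, 0, 0, 0, 11, 32, 0, 38, 0, 11, 11, 11, 11, 11, 11, 11, 11, 11, 11, 11, 11, 11, 11, 11, 11, 11, 11, 11, 11, 11, 11, 11, 11, 11, 11, 11, 11, 11, 11, 11, 11, 11, 11, 11, 11, 11, 11, 11, 11, 11, 11, 11, 11, 11, 11, 11, 11, 11, 11, 11, 11, 11, 11, 11],
   [0, 0, 0, 0, 0, 0, 0, 0, 19, 38, 0, 25, 50, 32, 18, 19, 69, 361, 32, 18, 18, 18, 18, 18, 18, 18, 18, 18, 18, 18, 18, 18, 18, 18, 18, 18, 18, 18, 18, 18, 18, 18, 18, 18, 18, 18, 18, 18, 18, 18, 18, 18, 18, 18, 18, 18, 18, 18, 18, 18, 18, 18, 18, 18, 18, 18, 18],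
   [0, 0, 0, 0, 0, 0, 0, 0, 0, 43, 158, 0, 96, 33, 18, 19, 20, 34, 38, 18, 18, 18, 18, 18, 18, 18, 18, 18, 18, 18, 18, 18, 18, 18, 18, 18, 18, 18, 18, 18, 18, 18, 18, 18, 18, 18, 18, 18, 18, 18, 18, 18, 18, 18, 18, 18, 18, 18, 18, 18, 18, 18, 18, 18, 18, 18, 18],
   [0, 0, 0, 0, 0, 0, 0, 0, 0, 0, 19, 20, 21, 31, 38, 19, 20, 21, 38, 38, 19, 19, 19, 19, 19, 19, 19, 19, 19, 19, 19, 19, 19, 19, 19, 19, 19, 19, 19, 19, 19, 19, 19, 19, 19, 19, 19, 19, 19, 19, 19, 19, 19, 19, 19, 19, 19, 19, 19, 19, 19, 19, 19, 19, 19, 19, 19]]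

def w (j k : ℕ) : ℕ := (tab.getD (j - 3) []).getD k 0

def ok (j k : ℕ) : Bool :=
  (j < 3) || (k < j) || decide ((j, k) ∈ L) || (j == 3 && k == 57) ||
    (w j k < 950 && (k < 66 || w j k < 66) && chk j k (w j k))

lemma all_ok : ((List.range 11).all fun j => (List.range 67).all fun k => ok j k) = true := by
  decide +kernel

lemma big : chk 11 11 10 = true := by decide +kernel

theorem main (j k : ℕ) (hj : 3 ≤ j) (hjk : j ≤ k) (h : Universal j k) :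
    (j, k) ∈ L ∨ (j = 3 ∧ k = 57) := by
  have hk : 3 ≤ k := by omega
  have hR := R_of hj hk h
  by_cases hj' : 11 ≤ j
  · exfalso
    obtain ⟨t, x, y, e⟩ := hR 10
    have e1 := q_small j 11 x 20 hj (by omega) (by omega)
    have e2 := q_small k 11 y 20 hk (by omega) (by omega)
    exact not_R (by norm_num) (by norm_num) (by norm_num) big ⟨t, x, y, by rw [e1, e2]; exact e⟩
  have A := all_ok
  simp only [List.all_eq_true, List.mem_range] at A
  by_cases hk' : k < 67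
  · have B := A j (by omega) k hk'
    simp only [ok, Bool.or_eq_true, decide_eq_true_eq, Bool.and_eq_true, beq_iff_eq] at B
    rcases B with (((B | B) | B) | B) | ⟨⟨B1, _⟩, B3⟩
    · omega
    · omega
    · exact Or.inl B
    · exact Or.inr B
    · exact absurd (hR _) (not_R hj hk B1 B3)
  · exfalso
    have B := A j (by omega) 66 (by omega)
    simp only [ok, Bool.or_eq_true, decide_eq_true_eq, Bool.and_eq_true, beq_iff_eq] at B
    rcases B with (((B | B) | B) | B) | ⟨⟨B1, B2⟩, B3⟩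
    · omega
    · omega
    · have : ∀ p ∈ L, p.2 < 40 := by decide
      have := this _ B
      omega
    · omega
    · obtain ⟨t, x, y, e⟩ := hR (w j 66)
      have e2 := q_small k 66 y (2 * w j 66) hk (by omega) (by omega)
      exact not_R hj (by norm_num) B1 B3 ⟨t, x, y, by rw [e2]; exact e⟩

end Pool.Agent.H17.Pent
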