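import Pool.Agent.H17.Pent1

namespace Pool.Agent.H17.Pent

def sh (A : ℕ) (f : ℕ → ℕ) : ℕ → ℕ
  | 0 => 0
  | m + 1 => sh A f m ||| (A <<< f m)

lemma sh_bit (A : ℕ) (f : ℕ → ℕ) (m n : ℕ) (h : (sh A f m).testBit n = true) :
    ∃ i a, A.testBit a = true ∧ n = a + f i := by
  induction m with
  | zero => simp [sh] at h
  | succ m ih =>
    simp only [sh, Nat.testBit_or, Bool.or_eq_true, Nat.testBit_shiftLeft, Bool.and_eq_true,
      decide_eq_true_eq] at h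
    rcases h with h | ⟨h1, h2⟩
    · exact ih h
    · exact ⟨m, n - f m, h2, by omega⟩

def NN : ℕ := 1000001
def A1 : ℕ := sh 1 (fun t => t * (3 * t + 1) / 2) 820 ||| sh 1 (fun t => (t + 1) * (3 * t + 2) / 2) 820
def A2 : ℕ := sh A1 (fun x => q 3 x / 2) 1420
def A3 : ℕ := sh A2 (fun y => q 57 y / 2) 40

lemma full : (A3 &&& (2 ^ NN - 1) == 2 ^ NN - 1) = true := by decide +kernel

lemma one_bit (a : ℕ) (h : Nat.testBit 1 a = true) : a = 0 := by
  by_contra ha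
  have : 1 < 2 ^ a := Nat.one_lt_two_pow ha
  rw [Nat.testBit_lt_two_pow this] at h
  exact absurd h (by simp)

theorem rep57 (n : ℕ) (hn : n ≤ 1000000) :
    ∃ z : ℤ, ∃ x y : ℕ, (n : ℤ) = G5 z + P 3 x + P 57 y := by
  have h0 : A3 &&& (2 ^ NN - 1) = 2 ^ NN - 1 := eq_of_beq full
  have h1 : (A3 &&& (2 ^ NN - 1)).testBit n = true := by
    rw [h0, Nat.testBit_two_pow_sub_one]
    exact decide_eq_true (by unfold NN; omega)
  rw [Nat.testBit_and, Bool.and_eq_true] at h1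
  obtain ⟨y, a, ha, e1⟩ := sh_bit _ _ _ _ h1.1
  obtain ⟨x, b, hb, e2⟩ := sh_bit _ _ _ _ ha
  have q1 := q_cast 3 x (by norm_num)
  have q2 := q_cast 57 y (by norm_num)
  unfold A1 at hb
  rw [Nat.testBit_or, Bool.or_eq_true] at hb
  rcases hb with hb | hb
  · obtain ⟨t, c, hc, e3⟩ := sh_bit _ _ _ _ hb
    have := one_bit c hc
    refine ⟨-(t : ℤ), x, y, ?_⟩
    have g : G5 (-(t : ℤ)) = ((t * (3 * t + 1) : ℕ) : ℤ) / 2 := by
      unfold G5; push_cast; congr 1; ring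
    rw [g]
    generalize t * (3 * t + 1) = s at e3 ⊢
    omega
  · obtain ⟨t, c, hc, e3⟩ := sh_bit _ _ _ _ hb
    have := one_bit c hc
    refine ⟨(t : ℤ) + 1, x, y, ?_⟩
    have g : G5 ((t : ℤ) + 1) = (((t + 1) * (3 * t + 2) : ℕ) : ℤ) / 2 := by
      unfold G5; push_cast; congr 1; ring
    rw [g]
    generalize (t + 1) * (3 * t + 2) = s at e3 ⊢
    omega

end Pool.Agent.H17.Pent
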