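import Pool.Agent.H2.DnA

set_option autoImplicit false
set_option linter.unusedSectionVars false

namespace Pool.Agent.H17.PI

open Set Filter Topology

variable {G : Type} [Group G] [TopologicalSpace G]
  {E : Type} [AddCommGroup E] [Module ℝ E] [TopologicalSpace E]
  {F : Type} [AddCommGroup F] [Module ℝ F] [TopologicalSpace F]

/-- f is affine on the set K. -/
def AffOn (f : E → F) (K : Set E) : Prop :=
  ∀ x ∈ K, ∀ y ∈ K, ∀ a b : ℝ, 0 ≤ a → 0 ≤ b → a + b = 1 → f (a • x + b • y) = a • f x + b • f y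

/-- An affine G-flow: a compact convex set K in E with a jointly continuous action of G on K
by affine maps. -/
structure AFlow (G E : Type) [Group G] [TopologicalSpace G] [AddCommGroup E] [Module ℝ E]
    [TopologicalSpace E] where
  K : Set E
  compact : IsCompact K
  convex : Convex ℝ K
  act : G → E → E
  maps : ∀ g, MapsTo (act g) K K
  one : ∀ x ∈ K, act 1 x = x
  mul : ∀ g h, ∀ x ∈ K, act (g * h) x = act g (act h x)
  cont : ContinuousOn (fun p : G × E => act p.1 p.2) (univ ×ˢ K)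
  aff : ∀ g, AffOn (act g) K

/-- φ is a continuous affine equivariant surjection from L onto K. -/
structure IsExt (L : AFlow G E) (K : AFlow G F) (φ : E → F) : Prop where
  cont : ContinuousOn φ L.K
  aff : AffOn φ L.K
  image : φ '' L.K = K.K
  equiv : ∀ g, ∀ x ∈ L.K, φ (L.act g x) = K.act g (φ x)

/-- closure of the set of extreme points -/
def AFlow.cext (L : AFlow G E) : Set E := closure (L.K.extremePoints ℝ)

/-- proximal irreducibility -/
def ProxIrr (L : AFlow G E) (K : AFlow G F) (φ : E → F) : Prop :=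
  ∀ C ⊆ L.K, IsCompact C → Convex ℝ C → (∀ g, MapsTo (L.act g) C C) →
    (∀ y ∈ K.cext, (C ∩ convexHull ℝ (L.cext ∩ φ ⁻¹' {y})).Nonempty) → C = L.K

theorem AFlow.cont1 (L : AFlow G E) (g : G) : ContinuousOn (L.act g) L.K :=
  L.cont.comp (f := fun x => (g, x)) (by fun_prop) fun _ hx => ⟨trivial, hx⟩

theorem AFlow.inv (L : AFlow G E) (g : G) {x : E} (hx : x ∈ L.K) : L.act g⁻¹ (L.act g x) = x := by
  rw [← L.mul _ _ _ hx, inv_mul_cancel, L.one _ hx]

theorem AFlow.inv' (L : AFlow G E) (g : G) {x : E} (hx : x ∈ L.K) : L.act g (L.act g⁻¹ x) = x := by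
  rw [← L.mul _ _ _ hx, mul_inv_cancel, L.one _ hx]

theorem AffOn.hull {f : E → F} {K S : Set E} {T : Set F} (hf : AffOn f K) (hK : Convex ℝ K)
    (hS : S ⊆ K) (h : MapsTo f S T) : MapsTo f (convexHull ℝ S) (convexHull ℝ T) := by
  have : convexHull ℝ S ⊆ K ∩ f ⁻¹' convexHull ℝ T := by
    refine convexHull_min (fun x hx => ⟨hS hx, subset_convexHull ℝ T (h hx)⟩) ?_
    intro x hx y hy a b ha hb hab
    refine ⟨hK hx.1 hy.1 ha hb hab, ?_⟩
    rw [mem_preimage, hf x hx.1 y hy.1 a b ha hb hab]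
    exact convex_convexHull ℝ T hx.2 hy.2 ha hb hab
  exact fun x hx => (this hx).2

theorem AffOn.extreme {f : E → F} {K : Set E} {T : Set F} (hf : AffOn f K) (h : MapsTo f K T)
    {y : F} (hy : y ∈ T.extremePoints ℝ) : IsExtreme ℝ K (K ∩ f ⁻¹' {y}) := by
  refine ⟨inter_subset_left, ?_⟩
  rintro u hu v hv x ⟨-, hx⟩ ⟨a, b, ha, hb, hab, rfl⟩
  refine ⟨hu, ?_⟩
  exact (mem_extremePoints_iff_left.1 hy).2 _ (h hu) _ (h hv)
    ⟨a, b, ha, hb, hab, (hf u hu v hv a b ha.le hb.le hab).symm.trans hx⟩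

variable [T2Space E] [IsTopologicalAddGroup E] [ContinuousSMul ℝ E] [LocallyConvexSpace ℝ E]
  [T2Space F]

theorem AFlow.cext_sub (L : AFlow G E) : L.cext ⊆ L.K :=
  closure_minimal extremePoints_subset L.compact.isClosed

theorem AFlow.cext_compact (L : AFlow G E) : IsCompact L.cext :=
  L.compact.of_isClosed_subset isClosed_closure L.cext_sub

theorem AFlow.cext_maps (L : AFlow G E) (g : G) : MapsTo (L.act g) L.cext L.cext := by
  refine MapsTo.closure_of_continuousOn (fun x hx => ?_) ((L.cont1 g).mono L.cext_sub)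
  have h := (L.aff g⁻¹).extreme (L.maps _) hx
  have e : L.K ∩ L.act g⁻¹ ⁻¹' {x} = {L.act g x} := by
    ext w
    refine ⟨fun hw => ?_, ?_⟩
    · have : L.act g⁻¹ w = x := hw.2
      rw [← this, L.inv' g hw.1]; rfl
    · rintro rfl
      exact ⟨L.maps g hx.1, L.inv g hx.1⟩
  rw [e] at h
  exact h.mem_extremePoints

theorem IsExt.lift {L : AFlow G E} {K : AFlow G F} {φ : E → F} (h : IsExt L K φ) :
    K.cext ⊆ φ '' L.cext := by
  refine closure_minimal (fun y hy => ?_)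
    (L.cext_compact.image_of_continuousOn (h.cont.mono L.cext_sub)).isClosed
  have he := h.aff.extreme (fun x hx => h.image ▸ mem_image_of_mem φ hx) hy
  have hc : IsCompact (L.K ∩ φ ⁻¹' {y}) := L.compact.of_isClosed_subset
    (h.cont.preimage_isClosed_of_isClosed L.compact.isClosed isClosed_singleton) inter_subset_left
  obtain ⟨x, hx, e⟩ : y ∈ φ '' L.K := h.image ▸ hy.1
  obtain ⟨z, hz⟩ := hc.extremePoints_nonempty ⟨x, hx, e⟩
  exact ⟨z, subset_closure (he.extremePoints_subset_extremePoints hz), hz.1.2⟩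

theorem ProxIrr.gen {L : AFlow G E} {K : AFlow G F} {φ : E → F} (h : ProxIrr L K φ) {S : Set E}
    (hS : S ⊆ L.K) (hi : ∀ g, MapsTo (L.act g) S S)
    (hm : ∀ y ∈ K.cext, (S ∩ convexHull ℝ (L.cext ∩ φ ⁻¹' {y})).Nonempty) :
    L.cext ⊆ closure S := by
  have h1 : closure (convexHull ℝ S) ⊆ L.K :=
    closure_minimal (convexHull_min hS L.convex) L.compact.isClosed
  have := h _ h1 (L.compact.of_isClosed_subset isClosed_closure h1) (convex_convexHull ℝ S).closure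
    (fun g => ((L.aff g).hull L.convex hS (hi g)).closure_of_continuousOn ((L.cont1 g).mono h1))
    fun y hy => (hm y hy).mono (inter_subset_inter_left _
      ((subset_convexHull ℝ S).trans subset_closure))
  refine closure_minimal (fun e he => ?_) isClosed_closure
  by_contra hne
  exact Pool.Agent.H2.Dn.milman L.compact L.convex hS he hne (this ▸ he.1)

theorem ProxIrr.down [IsTopologicalAddGroup F] [ContinuousSMul ℝ F] [LocallyConvexSpace ℝ F]
    {L : AFlow G E} {K : AFlow G F} {φ : E → F} (he : IsExt L K φ)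
    (h : ProxIrr L K φ) : MapsTo φ L.cext K.cext := by
  have hcl : IsClosed (L.cext ∩ φ ⁻¹' K.cext) :=
    (he.cont.mono L.cext_sub).preimage_isClosed_of_isClosed isClosed_closure isClosed_closure
  have := h.gen (S := L.cext ∩ φ ⁻¹' K.cext) (inter_subset_left.trans L.cext_sub)
    (fun g x hx => ⟨L.cext_maps g hx.1, by
      rw [mem_preimage, he.equiv g x (L.cext_sub hx.1)]; exact K.cext_maps g hx.2⟩) fun y hy => by
      obtain ⟨x, hx, rfl⟩ := he.lift hy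
      exact ⟨x, ⟨hx, hy⟩, subset_convexHull ℝ _ ⟨hx, rfl⟩⟩
  rw [hcl.closure_eq] at this
  exact fun x hx => (this hx).2

/-- iterated fibrewise joins -/
def R (Z : Set E) (θ : E → F) : ℕ → Set (E × F)
  | 0 => (fun z => (z, θ z)) '' Z
  | k + 1 => (fun p : ℝ × (E × F) × E × F => ((1 - p.1) • p.2.1.1 + p.1 • p.2.2.1, p.2.1.2)) ''
      ((Icc 0 1 ×ˢ R Z θ k ×ˢ R Z θ k) ∩ {p | p.2.1.2 = p.2.2.2})

theorem R_compact {Z : Set E} {θ : E → F} (hZ : IsCompact Z) (hθ : ContinuousOn θ Z) (k : ℕ) :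
    IsCompact (R Z θ k) := by
  induction k with
  | zero => exact hZ.image_of_continuousOn (continuousOn_id.prodMk hθ)
  | succ k ih =>
    exact ((isCompact_Icc.prod (ih.prod ih)).inter_right
      (isClosed_eq (by fun_prop) (by fun_prop))).image (by fun_prop)

theorem R_mk {Z : Set E} {θ : E → F} {k : ℕ} {a b : E} {x : F} {t : ℝ} (ht : t ∈ Icc (0 : ℝ) 1)
    (ha : (a, x) ∈ R Z θ k) (hb : (b, x) ∈ R Z θ k) : ((1 - t) • a + t • b, x) ∈ R Z θ (k + 1) :=
  ⟨(t, (a, x), (b, x)), ⟨⟨ht, ha, hb⟩, rfl⟩, rfl⟩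

theorem R_mono (Z : Set E) (θ : E → F) : Monotone (R Z θ) := by
  refine monotone_nat_of_le_succ fun k p hp => ?_
  simpa using R_mk (t := 0) ⟨le_rfl, zero_le_one⟩ (a := p.1) (b := p.1) (x := p.2) hp hp

theorem R_ind {Z : Set E} {θ : E → F} {P : ℕ → E → F → Prop} (h0 : ∀ z ∈ Z, P 0 z (θ z))
    (hs : ∀ k a b x t, t ∈ Icc (0 : ℝ) 1 → (a, x) ∈ R Z θ k → (b, x) ∈ R Z θ k → P k a x →
      P k b x → P (k + 1) ((1 - t) • a + t • b) x) : ∀ k c x, (c, x) ∈ R Z θ k → P k c x := by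
  intro k
  induction k with
  | zero =>
    rintro c x ⟨z, hz, e⟩
    obtain ⟨rfl, rfl⟩ := Prod.mk.inj e
    exact h0 _ hz
  | succ k ih =>
    rintro c x ⟨⟨t, ⟨a, x1⟩, b, x2⟩, ⟨⟨ht, ha, hb⟩, e1⟩, e⟩
    obtain ⟨rfl, rfl⟩ := Prod.mk.inj e
    obtain rfl : x1 = x2 := e1
    exact hs k a b x1 t ht ha hb (ih _ _ ha) (ih _ _ hb)

theorem R_hull {Z : Set E} {θ : E → F} {c : E} {x : F} :
    c ∈ convexHull ℝ (Z ∩ θ ⁻¹' {x}) ↔ ∃ k, (c, x) ∈ R Z θ k := by
  constructor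
  · intro h
    refine convexHull_min (t := {c | ∃ k, (c, x) ∈ R Z θ k}) ?_ ?_ h
    · rintro z ⟨hz, rfl⟩
      exact ⟨0, z, hz, rfl⟩
    · rintro a ⟨i, ha⟩ b ⟨j, hb⟩ s t hs ht hst
      obtain rfl : s = 1 - t := by linarith
      exact ⟨max i j + 1, R_mk ⟨ht, by linarith⟩ (R_mono _ _ (le_max_left _ _) ha)
        (R_mono _ _ (le_max_right _ _) hb)⟩
  · rintro ⟨k, hk⟩
    exact R_ind (P := fun _ c x => c ∈ convexHull ℝ (Z ∩ θ ⁻¹' {x}))
      (fun z hz => subset_convexHull ℝ _ ⟨hz, rfl⟩)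
      (fun _ a b x t ht _ _ ha hb => convex_convexHull ℝ _ ha hb (by linarith [ht.2]) ht.1
        (by ring)) k c x hk

theorem mem_of_ev {α : Type} [TopologicalSpace α] {S T : Set α} {y : α} (hy : y ∈ closure S)
    (hT : IsClosed T) (h : ∀ᶠ w in 𝓝[S] y, w ∈ T) : y ∈ T :=
  haveI := mem_closure_iff_nhdsWithin_neBot.1 hy
  hT.mem_of_tendsto (tendsto_id'.2 nhdsWithin_le_nhds) h

theorem comp [IsTopologicalAddGroup F] [ContinuousSMul ℝ F] [LocallyConvexSpace ℝ F]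
    {D : Type} [AddCommGroup D] [Module ℝ D] [TopologicalSpace D] [T2Space D]
    [IsTopologicalAddGroup D] [ContinuousSMul ℝ D] [LocallyConvexSpace ℝ D]
    {P : AFlow G E} {L : AFlow G F} {K : AFlow G D} {ψ : E → F} {φ : F → D}
    (eψ : IsExt P L ψ) (eφ : IsExt L K φ) (hψ : ProxIrr P L ψ) (hφ : ProxIrr L K φ) :
    ProxIrr P K (φ ∘ ψ) := by
  classical
  intro C hC hCc hCv hCi hm
  set θ := φ ∘ ψ with hθ
  have mψ : MapsTo ψ P.K L.K := fun x hx => eψ.image ▸ mem_image_of_mem ψ hx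
  have mφ : MapsTo φ L.K K.K := fun x hx => eφ.image ▸ mem_image_of_mem φ hx
  have dψ := hψ.down eψ
  have dφ := hφ.down eφ
  have cθ : ContinuousOn θ P.K := eφ.cont.comp eψ.cont mψ
  have qθ : ∀ g, ∀ x ∈ P.K, θ (P.act g x) = K.act g (θ x) := fun g x hx => by
    simp only [hθ, Function.comp, eψ.equiv g x hx, eφ.equiv g _ (mψ hx)]
  have RK : ∀ (η : E → D) k c x, (c, x) ∈ R P.cext η k → c ∈ P.K := fun η =>
    R_ind (P := fun _ c _ => c ∈ P.K) (fun z hz => P.cext_sub hz)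
      fun _ a b x t ht _ _ ha hb => P.convex ha hb (by linarith [ht.2]) ht.1 (by ring)
  have Rθ : ∀ k c x, (c, x) ∈ R P.cext θ k → θ c = x ∧ x ∈ K.cext :=
    R_ind (P := fun _ c x => θ c = x ∧ x ∈ K.cext) (fun z hz => ⟨rfl, dφ (dψ hz)⟩)
      fun k a b x t ht ra rb ha hb => ⟨by
        have h1 : 0 ≤ 1 - t := by linarith [ht.2]
        have ka := RK θ k a x ra
        have kb := RK θ k b x rb
        have e1 : φ (ψ a) = x := ha.1
        have e2 : φ (ψ b) = x := hb.1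
        show φ (ψ _) = x
        rw [eψ.aff a ka b kb _ _ h1 ht.1 (by ring), eφ.aff _ (mψ ka) _ (mψ kb) _ _ h1 ht.1 (by ring),
          e1, e2, ← add_smul]
        simp, ha.2⟩
  have Rg : ∀ g k c x, (c, x) ∈ R P.cext θ k → (P.act g c, K.act g x) ∈ R P.cext θ k := fun g =>
    R_ind (P := fun k c x => (P.act g c, K.act g x) ∈ R P.cext θ k)
      (fun z hz => ⟨P.act g z, P.cext_maps g hz, by simp only [qθ g z (P.cext_sub hz)]⟩)
      fun k a b x t ht ra rb ha hb => by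
        rw [P.aff g a (RK θ k a x ra) b (RK θ k b x rb) _ _ (by linarith [ht.2]) ht.1 (by ring)]
        exact R_mk ht ha hb
  have Rψ : ∀ k c x, (c, x) ∈ R P.cext θ k → ψ c ∈ L.K.extremePoints ℝ →
      (c, ψ c) ∈ R P.cext ψ k :=
    R_ind (P := fun k c _ => ψ c ∈ L.K.extremePoints ℝ → (c, ψ c) ∈ R P.cext ψ k)
      (fun z hz _ => ⟨z, hz, rfl⟩) fun k a b x t ht ra rb ha hb he => by
        rcases ht.1.eq_or_lt with rfl | h0
        · simp only [sub_zero, one_smul, zero_smul, add_zero] at he ⊢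
          exact R_mono _ _ (Nat.le_succ k) (ha he)
        rcases ht.2.eq_or_lt with rfl | h1
        · simp only [sub_self, one_smul, zero_smul, zero_add] at he ⊢
          exact R_mono _ _ (Nat.le_succ k) (hb he)
        have ka := RK θ k a x ra
        have kb := RK θ k b x rb
        obtain ⟨e1, e2⟩ := (mem_extremePoints.1 he).2 _ (mψ ka) _ (mψ kb)
          ⟨1 - t, t, by linarith, h0, by ring,
            (eψ.aff a ka b kb _ _ (by linarith) ht.1 (by ring)).symm⟩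
        refine R_mk ht ?_ ?_
        · rw [← e1] at he ⊢; exact ha he
        · rw [← e2] at he ⊢; exact hb he
  have cpt : ∀ {D' : Type} [AddCommGroup D'] [Module ℝ D'] [TopologicalSpace D'] [T2Space D']
      (η : E → D') k,
      ContinuousOn η P.K → IsCompact (R P.cext η k ∩ {p | p.1 ∈ C}) := fun η k hη =>
    (R_compact P.cext_compact (hη.mono P.cext_sub) k).inter_right
      (hCc.isClosed.preimage continuous_fst)
  let Fk : ℕ → Set D := fun k => Prod.snd '' (R P.cext θ k ∩ {p | p.1 ∈ C})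
  let Hk : ℕ → Set F := fun k => Prod.snd '' (R P.cext ψ k ∩ {p | p.1 ∈ C})
  have Fc : ∀ k, IsClosed (Fk k) := fun k => ((cpt θ k cθ).image continuous_snd).isClosed
  have Hc : ∀ k, IsClosed (Hk k) := fun k => ((cpt ψ k eψ.cont).image continuous_snd).isClosed
  have Fg : ∀ g k, MapsTo (K.act g) (Fk k) (Fk k) := by
    rintro g k _ ⟨⟨c, x⟩, ⟨h1, h2⟩, rfl⟩
    exact ⟨_, ⟨Rg g k c x h1, hCi g h2⟩, rfl⟩
  have Fall : ∀ x ∈ K.cext, ∃ k, x ∈ Fk k := fun x hx => by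
    obtain ⟨c, h1, h2⟩ := hm x hx
    obtain ⟨k, hk⟩ := R_hull.1 h2
    exact ⟨k, _, ⟨hk, h1⟩, rfl⟩
  let U : Set D := {x | x ∈ K.cext ∧ ∃ k, Fk k ∈ 𝓝[K.cext] x}
  have Ud : K.cext ⊆ closure U := by
    have : CompactSpace K.cext := isCompact_iff_compactSpace.1 K.cext_compact
    have hd := dense_iUnion_interior_of_closed (f := fun k => ((↑) : K.cext → D) ⁻¹' Fk k)
      (fun k => (Fc k).preimage continuous_subtype_val)
      (eq_univ_of_forall fun x => mem_iUnion.2 (Fall x.1 x.2))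
    intro x hx
    refine closure_mono ?_ (image_closure_subset_closure_image continuous_subtype_val
      ⟨⟨x, hx⟩, hd _, rfl⟩)
    rintro _ ⟨w, hw, rfl⟩
    obtain ⟨k, hk⟩ := mem_iUnion.1 hw
    exact ⟨w.2, k, preimage_coe_mem_nhds_subtype.1 (mem_interior_iff_mem_nhds.1 hk)⟩
  have Ug : ∀ g, MapsTo (K.act g) U U := by
    rintro g x ⟨hx, k, hk⟩
    refine ⟨K.cext_maps g hx, k, ?_⟩
    have h1 := (((K.cont1 g⁻¹).mono K.cext_sub) _ (K.cext_maps g hx)).tendsto_nhdsWithin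
      (K.cext_maps g⁻¹)
    rw [K.inv g (K.cext_sub hx)] at h1
    filter_upwards [h1 hk, self_mem_nhdsWithin] with w hw hw2
    rw [← K.inv' g (K.cext_sub hw2)]
    exact Fg g k hw
  -- step A
  let S' : Set E := {c | c ∈ C ∧ θ c ∈ K.cext ∧ ∀ i, θ c ∈ Fk i → (c, θ c) ∈ R P.cext θ i}
  have hS : L.cext ⊆ closure (ψ '' S') := by
    refine hφ.gen (by rintro _ ⟨c, hc, rfl⟩; exact mψ (hC hc.1)) (fun g => ?_) fun x hx => ?_
    · rintro _ ⟨c, ⟨h1, h2, h3⟩, rfl⟩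
      refine ⟨P.act g c, ⟨hCi g h1, ?_, fun i hi => ?_⟩, eψ.equiv g c (hC h1)⟩
      · rw [qθ g c (hC h1)]; exact K.cext_maps g h2
      · rw [qθ g c (hC h1)] at hi ⊢
        have := Fg g⁻¹ i hi
        rw [K.inv g (K.cext_sub h2)] at this
        exact Rg g i _ _ (h3 i this)
    · obtain ⟨⟨c, x⟩, ⟨h1, h2⟩, rfl⟩ := Nat.find_spec (Fall x hx)
      have e := (Rθ _ _ _ h1).1
      refine ⟨ψ c, ⟨c, ⟨h2, e ▸ hx, fun i hi => ?_⟩, rfl⟩, ?_⟩
      · rw [e] at hi ⊢
        exact R_mono _ _ (Nat.find_min' _ hi) h1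
      · exact eψ.aff.hull P.convex (inter_subset_left.trans P.cext_sub)
          (T := L.cext ∩ φ ⁻¹' {x}) (fun z hz => ⟨dψ hz.1, hz.2⟩) (R_hull.2 ⟨_, h1⟩)
  have A0 : ∀ k, ∀ y ∈ L.K.extremePoints ℝ, Fk k ∈ 𝓝[K.cext] (φ y) → y ∈ Hk k := by
    intro k y hy hk
    have hT : IsClosed ((fun p : E × D => ψ p.1) '' (R P.cext θ k ∩ {p | p.1 ∈ C})) :=
      ((cpt θ k cθ).image_of_continuousOn (eψ.cont.comp continuousOn_fst
        fun p hp => hC hp.2)).isClosed
    have h1 : Tendsto φ (𝓝[ψ '' S'] y) (𝓝[K.cext] (φ y)) :=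
      ((eφ.cont y hy.1).mono (by rintro _ ⟨c, hc, rfl⟩; exact mψ (hC hc.1))).tendsto_nhdsWithin
        (by rintro _ ⟨c, hc, rfl⟩; exact hc.2.1)
    obtain ⟨⟨c, x⟩, ⟨h2, h3⟩, rfl⟩ := mem_of_ev (hS (subset_closure hy)) hT (by
      filter_upwards [h1 hk, self_mem_nhdsWithin] with w hw hw2
      obtain ⟨c, hc, rfl⟩ := hw2
      exact ⟨(c, θ c), ⟨hc.2.2 k hw, hc.1⟩, rfl⟩)
    exact ⟨_, ⟨Rψ k c x h2 hy, h3⟩, rfl⟩
  have A : ∀ y ∈ L.cext, φ y ∈ U → (C ∩ convexHull ℝ (P.cext ∩ ψ ⁻¹' {y})).Nonempty := by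
    rintro y hy ⟨-, k, hk⟩
    have h1 : Tendsto φ (𝓝[L.K.extremePoints ℝ] y) (𝓝[K.cext] (φ y)) :=
      ((eφ.cont y (L.cext_sub hy)).mono extremePoints_subset).tendsto_nhdsWithin
        fun w hw => dφ (subset_closure hw)
    obtain ⟨⟨c, y⟩, ⟨h2, h3⟩, rfl⟩ := mem_of_ev hy (Hc k) (by
      filter_upwards [h1.eventually (eventually_eventually_nhdsWithin.2 hk), self_mem_nhdsWithin]
        with w hw hw2
      exact A0 k w hw2 hw)
    exact ⟨c, h3, R_hull.2 ⟨k, h2⟩⟩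
  -- step B
  have B : ∀ z ∈ P.cext, θ z ∈ U → z ∈ C := by
    intro z hz hU
    have h1 := hψ.gen (S := C ∪ (P.cext ∩ θ ⁻¹' Uᶜ))
      (union_subset hC (inter_subset_left.trans P.cext_sub)) (fun g => (hCi g).union_union
        fun w hw => ⟨P.cext_maps g hw.1, fun h => hw.2 (by
          have := Ug g⁻¹ h
          rwa [qθ g w (P.cext_sub hw.1), K.inv g (x := θ w) (mφ (mψ (P.cext_sub hw.1)))] at this)⟩)
      (fun y hy => by
        by_cases h : φ y ∈ U
        · exact (A y hy h).mono (inter_subset_inter_left _ subset_union_left)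
        · obtain ⟨w, hw, rfl⟩ := eψ.lift hy
          exact ⟨w, .inr ⟨hw, h⟩, subset_convexHull ℝ _ ⟨hw, rfl⟩⟩) hz
    rw [closure_union, hCc.isClosed.closure_eq] at h1
    refine h1.resolve_right fun h2 => ?_
    obtain ⟨-, k, hk⟩ := hU
    have h3 : Tendsto θ (𝓝[P.cext ∩ θ ⁻¹' Uᶜ] z) (𝓝[K.cext] (θ z)) :=
      ((cθ z (P.cext_sub hz)).mono (inter_subset_left.trans P.cext_sub)).tendsto_nhdsWithin
        fun w hw => dφ (dψ hw.1)
    exact mem_of_ev h2 isClosed_empty (by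
      filter_upwards [h3.eventually (eventually_eventually_nhdsWithin.2 hk), self_mem_nhdsWithin]
        with w hw hw2
      exact hw2.2 ⟨dφ (dψ hw2.1), k, hw⟩)
  -- step C
  have Zc : IsCompact (P.cext ∩ C) := P.cext_compact.inter_right hCc.isClosed
  have Zs : P.cext ∩ C ⊆ P.K := inter_subset_right.trans hC
  have C1 : K.cext ⊆ θ '' (P.cext ∩ C) := by
    refine Ud.trans (closure_minimal (fun x hx => ?_)
      (Zc.image_of_continuousOn (cθ.mono Zs)).isClosed)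
    obtain ⟨y, hy, rfl⟩ := eφ.lift hx.1
    obtain ⟨z, hz, rfl⟩ := eψ.lift hy
    exact ⟨z, ⟨hz, B z hz hx⟩, rfl⟩
  have C2 : L.cext ⊆ ψ '' (P.cext ∩ C) := by
    rw [← (Zc.image_of_continuousOn (eψ.cont.mono Zs)).isClosed.closure_eq]
    refine hφ.gen (by rintro _ ⟨c, hc, rfl⟩; exact mψ (Zs hc)) (fun g => ?_) fun x hx => ?_
    · rintro _ ⟨c, hc, rfl⟩
      exact ⟨_, ⟨P.cext_maps g hc.1, hCi g hc.2⟩, eψ.equiv g c (Zs hc)⟩
    · obtain ⟨z, hz, rfl⟩ := C1 hx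
      exact ⟨ψ z, ⟨z, hz, rfl⟩, subset_convexHull ℝ _ ⟨dψ hz.1, rfl⟩⟩
  refine hψ C hC hCc hCv hCi fun y hy => ?_
  obtain ⟨z, hz, rfl⟩ := C2 hy
  exact ⟨z, hz.2, subset_convexHull ℝ _ ⟨hz.1, rfl⟩⟩

end Pool.Agent.H17.PI
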