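import Mathlib

set_option autoImplicit false

namespace Pool.Agent.H17.QMat

open Finset Module

section det
variable {K : Type} [Field K]

def d3 (x y z : Fin 3 → K) : K :=
  x 0 * y 1 * z 2 - x 0 * y 2 * z 1 - x 1 * y 0 * z 2 + x 1 * y 2 * z 0 + x 2 * y 0 * z 1 -
    x 2 * y 1 * z 0

lemma li_iff (x : Fin 3 → Fin 3 → K) : LinearIndependent K x ↔ d3 (x 0) (x 1) (x 2) ≠ 0 := by
  have := Matrix.linearIndependent_rows_iff_isUnit (A := Matrix.of x)
  rw [Matrix.isUnit_iff_isUnit_det, isUnit_iff_ne_zero, Matrix.det_fin_three] at this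
  exact this

lemma d3_rot (x y z : Fin 3 → K) : d3 x y z = d3 y z x := by unfold d3; ring

lemma d3_sum {ι : Type} [Fintype ι] (a : ι → K) (g : ι → Fin 3 → K) (y z : Fin 3 → K) :
    d3 (∑ i, a i • g i) y z = ∑ i, a i * d3 (g i) y z := by
  simp only [d3, Finset.sum_apply, Pi.smul_apply, smul_eq_mul, sum_mul, ← sum_add_distrib,
    ← sum_sub_distrib]
  exact sum_congr rfl fun i _ => by ring

lemma d3_sum3 {ι : Type} [Fintype ι] (a b c : ι → K) (g : ι → Fin 3 → K) :
    d3 (∑ i, a i • g i) (∑ i, b i • g i) (∑ i, c i • g i) =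
      ∑ i, ∑ j, ∑ k, a i * b j * c k * d3 (g i) (g j) (g k) := by
  rw [d3_sum]
  refine sum_congr rfl fun i _ => ?_
  rw [d3_rot, d3_sum, mul_sum]
  refine sum_congr rfl fun j _ => ?_
  rw [d3_rot, d3_sum, mul_sum, mul_sum]
  refine sum_congr rfl fun k _ => ?_
  rw [d3_rot (g k)]; ring

lemma six {ι : Type} [Fintype ι] (y : Fin 3 → ι → K) (l : ι → K) (g : ι → Fin 3 → K) :
    ∑ i, ∑ j, ∑ k, d3 (g i) (g j) (g k) * d3 (y · i) (y · j) (y · k) * (l i * l j * l k) =
      6 * d3 (∑ i, (y 0 i * l i) • g i) (∑ i, (y 1 i * l i) • g i) (∑ i, (y 2 i * l i) • g i) := by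
  have h := fun a b c : Fin 3 => d3_sum3 (fun i => y a i * l i) (fun i => y b i * l i)
    (fun i => y c i * l i) g
  have e : ∀ x y z : Fin 3 → K, 6 * d3 x y z =
      d3 x y z - d3 x z y - d3 y x z + d3 y z x + d3 z x y - d3 z y x := by
    intro x y z; unfold d3; ring
  rw [e, h, h, h, h, h, h]
  simp only [← sum_add_distrib, ← sum_sub_distrib]
  refine sum_congr rfl fun i _ => sum_congr rfl fun j _ => sum_congr rfl fun k _ => ?_
  generalize d3 (g i) (g j) (g k) = D
  unfold d3; ring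

/-- generic scaling of the points -/
lemma generic {F : Type} [Field F] [Fintype F] [Algebra F K] [Finite K] {n : ℕ}
    (h6 : (6 : K) ≠ 0) (hc : 3 * (Fintype.card F ^ n) ^ 3 < Nat.card K) (g : Fin n → Fin 3 → K) :
    ∃ l : Fin n → K, ∀ v : Fin 3 → Fin n → F,
      d3 (∑ i, (algebraMap F K (v 0 i) * l i) • g i) (∑ i, (algebraMap F K (v 1 i) * l i) • g i)
        (∑ i, (algebraMap F K (v 2 i) * l i) • g i) = 0 ↔
      ∀ i j k, d3 (g i) (g j) (g k) = 0 ∨ d3 (v · i) (v · j) (v · k) = 0 := by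
  classical
  have := Fintype.ofFinite K
  have hm : ∀ (v : Fin 3 → Fin n → F) i j k, d3 (fun c => algebraMap F K (v c i))
      (fun c => algebraMap F K (v c j)) (fun c => algebraMap F K (v c k)) =
      algebraMap F K (d3 (v · i) (v · j) (v · k)) := by
    intro v i j k; simp [d3]
  let Q : (Fin 3 → Fin n → F) → MvPolynomial (Fin n) K := fun v => ∑ i, ∑ j, ∑ k,
    MvPolynomial.C (d3 (g i) (g j) (g k) * algebraMap F K (d3 (v · i) (v · j) (v · k))) *
      (MvPolynomial.X i * MvPolynomial.X j * MvPolynomial.X k)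
  have ev : ∀ v l, MvPolynomial.eval l (Q v) =
      6 * d3 (∑ i, (algebraMap F K (v 0 i) * l i) • g i) (∑ i, (algebraMap F K (v 1 i) * l i) • g i)
        (∑ i, (algebraMap F K (v 2 i) * l i) • g i) := by
    intro v l
    rw [← six (fun c i => algebraMap F K (v c i)) l g]
    simp only [Q, map_sum, map_mul, MvPolynomial.eval_C, MvPolynomial.eval_X, hm]
  have dg : ∀ v, (Q v).totalDegree ≤ 3 := by
    intro v
    refine MvPolynomial.totalDegree_finsetSum_le fun i _ =>
      MvPolynomial.totalDegree_finsetSum_le fun j _ =>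
      MvPolynomial.totalDegree_finsetSum_le fun k _ => ?_
    refine (MvPolynomial.totalDegree_mul _ _).trans ?_
    rw [MvPolynomial.totalDegree_C, zero_add]
    refine (MvPolynomial.totalDegree_mul _ _).trans ?_
    have := MvPolynomial.totalDegree_mul (MvPolynomial.X i : MvPolynomial (Fin n) K)
      (MvPolynomial.X j)
    simp only [MvPolynomial.totalDegree_X] at this ⊢
    omega
  let S := univ.filter fun v : Fin 3 → Fin n → F =>
    ¬ ∀ i j k, d3 (g i) (g j) (g k) = 0 ∨ d3 (v · i) (v · j) (v · k) = 0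
  have nz : ∀ v ∈ S, Q v ≠ 0 := by
    intro v hv h0
    have hv := (mem_filter.mp hv).2
    push Not at hv
    obtain ⟨i, j, k, h1, h2⟩ := hv
    have ij : i ≠ j := by rintro rfl; exact h1 (by unfold d3; ring)
    have ik : i ≠ k := by rintro rfl; exact h1 (by unfold d3; ring)
    have jk : j ≠ k := by rintro rfl; exact h1 (by unfold d3; ring)
    have e := ev v (fun t => if t ∈ ({i, j, k} : Finset (Fin n)) then 1 else 0)
    have r : ∀ a : Fin n → K,
        ∑ t, (a t * if t ∈ ({i, j, k} : Finset (Fin n)) then 1 else 0) • g t =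
          a i • g i + a j • g j + a k • g k := by
      intro a
      simp only [mul_ite, mul_one, mul_zero, ite_smul, zero_smul, sum_ite_mem, univ_inter]
      rw [sum_insert (by simp [ij, ik]), sum_insert (by simp [jk]), sum_singleton, add_assoc]
    rw [h0, map_zero, r, r, r] at e
    have h3 : algebraMap F K (d3 (v · i) (v · j) (v · k)) ≠ 0 := by simpa using h2
    rw [← hm] at h3
    refine mul_ne_zero h6 (mul_ne_zero h1 h3) ?_
    rw [e]
    simp only [d3, Pi.add_apply, Pi.smul_apply, smul_eq_mul]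
    ring
  have hP : ∏ v ∈ S, Q v ≠ 0 := prod_ne_zero_iff.mpr nz
  have : ∃ l, MvPolynomial.eval l (∏ v ∈ S, Q v) ≠ 0 := by
    by_contra hh
    push Not at hh
    refine hP (MvPolynomial.eq_zero_of_eval_zero_at_prod_finset _ (fun _ => univ) (fun i => ?_)
      (fun x _ => hh x))
    refine lt_of_le_of_lt ((MvPolynomial.degreeOf_le_totalDegree _ _).trans
      ((MvPolynomial.totalDegree_finsetProd _ _).trans (sum_le_card_nsmul _ _ 3
        fun v _ => dg v))) ?_
    have := card_le_univ S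
    rw [card_univ, ← Nat.card_eq_fintype_card]
    simp only [Fintype.card_fun, Fintype.card_fin, smul_eq_mul] at this ⊢
    omega
  obtain ⟨l, hl⟩ := this
  refine ⟨l, fun v => ⟨fun h => ?_, fun h => ?_⟩⟩
  · by_contra hv
    rw [map_prod, prod_ne_zero_iff] at hl
    exact hl v (mem_filter.mpr ⟨mem_univ _, hv⟩) (by rw [ev, h, mul_zero])
  · have e := ev v l
    have : Q v = 0 := sum_eq_zero fun i _ => sum_eq_zero fun j _ => sum_eq_zero fun k _ => by
      rcases h i j k with h | h <;> simp [h]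
    rw [this, map_zero] at e
    exact (mul_eq_zero.mp e.symm).resolve_left h6

end det

lemma rank_le {X La Lb : Type} [Field La] [Field Lb] (a : X → Fin 3 → La) (b : X → Fin 3 → Lb)
    (top : ⊤ ≤ Submodule.span La (a '' Set.univ))
    (h : ∀ v : Fin 3 → X, LinearIndependent La (a ∘ v) → LinearIndependent Lb (b ∘ v))
    (S : Set X) : finrank La (Submodule.span La (a '' S)) ≤
      finrank Lb (Submodule.span Lb (b '' S)) := by
  obtain ⟨b0, s0, -, sp0, li0⟩ := exists_linearIndepOn_extension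
    (linearIndepOn_empty La a) (Set.empty_subset S)
  obtain ⟨b1, -, s1, sp1, li1⟩ := exists_linearIndepOn_extension li0 (Set.subset_univ b0)
  have fin1 : Finite b1 := li1.linearIndependent.finite
  have := Fintype.ofFinite b1
  have fin0 : Finite b0 := li0.linearIndependent.finite
  have := Fintype.ofFinite b0
  have B : Basis b1 La (Fin 3 → La) := Basis.mk li1.linearIndependent (by
    rw [← Set.image_eq_range]
    exact top.trans (Submodule.span_le.mpr sp1))
  have c3 : Fintype.card b1 = 3 := by rw [← finrank_eq_card_basis B]; simp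
  let e : Fin 3 ≃ b1 := (Fintype.equivFinOfCardEq c3).symm
  have l1 := h (fun c => e c) (li1.linearIndependent.comp e e.injective)
  have l2 : LinearIndepOn Lb b b1 := (linearIndependent_equiv e).mp l1
  have l3 : LinearIndepOn Lb b b0 := l2.mono s1
  have e1 := finrank_span_eq_card li0.linearIndependent
  have e2 := finrank_span_eq_card l3.linearIndependent
  rw [← Set.image_eq_range] at e1 e2
  calc _ ≤ finrank La (Submodule.span La (a '' b0)) :=
        Submodule.finrank_mono (Submodule.span_le.mpr sp0)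
    _ = finrank Lb (Submodule.span Lb (b '' b0)) := e1.trans e2.symm
    _ ≤ _ := Submodule.finrank_mono (Submodule.span_mono (Set.image_mono s0))

lemma fr_ann {F L : Type} [Field F] [Field L] [Algebra F L] (U : Submodule L (Fin 3 → L)) :
    finrank F U.dualAnnihilator = finrank F L * (3 - finrank L U) := by
  have h := Subspace.finrank_add_finrank_dualAnnihilator_eq U
  have : Module.Free L U.dualAnnihilator := Module.Free.of_divisionRing L ↥U.dualAnnihilator
  rw [← finrank_mul_finrank F L U.dualAnnihilator]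
  congr 1
  simp only [finrank_fintype_fun_eq_card, Fintype.card_fin] at h
  omega

/-- exponents of the homogeneous coordinates (`none` is the coordinate zero) -/
def pts : Fin 13 → Option ℕ × Option ℕ × Option ℕ :=
  ![(some 0, none, none), (none, some 0, none), (none, none, some 0),
    (some 0, some 0, some 0), (some 1, some 1, some 0), (some 2, some 2, some 0),
    (some 3, some 3, some 0), (some 4, some 4, some 0),
    (some 0, some 1, some 0), (some 1, some 2, some 0), (some 2, some 3, some 0),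
    (some 3, some 4, some 0), (some 4, some 0, some 0)]

abbrev T3 := ZMod 5 × ZMod 5 × ZMod 5

def tm (pw : ℕ → T3) : Option ℕ → Option ℕ → Option ℕ → T3
  | some a, some b, some c => pw (a + b + c)
  | _, _, _ => 0

def DD (pw : ℕ → T3) (i j k : Fin 13) : T3 :=
  tm pw (pts i).1 (pts j).2.1 (pts k).2.2 - tm pw (pts i).1 (pts j).2.2 (pts k).2.1 -
    tm pw (pts i).2.1 (pts j).1 (pts k).2.2 + tm pw (pts i).2.1 (pts j).2.2 (pts k).1 +
    tm pw (pts i).2.2 (pts j).1 (pts k).2.1 - tm pw (pts i).2.2 (pts j).2.1 (pts k).1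

def pa : ℕ → T3
  | 0 => (1, 0, 0)
  | n + 1 => (2 * (pa n).2.1, (pa n).1 + 2 * (pa n).2.2, 0)

def pb : ℕ → T3
  | 0 => (1, 0, 0)
  | n + 1 => (3 * (pb n).2.2, (pb n).1 + (pb n).2.2, (pb n).2.1 + 3 * (pb n).2.2)

lemma pat : ∀ i j k, (DD pa i j k).2.2 = 0 ∧ (DD pa i j k = 0 ↔ DD pb i j k = 0) := by
  decide +kernel

section pts
variable {L : Type} [Field L] [Algebra (ZMod 5) L]

def val (t : L) : Option ℕ → L
  | some a => t ^ a
  | none => 0

def gp (t : L) (i : Fin 13) : Fin 3 → L :=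
  ![val t (pts i).1, val t (pts i).2.1, val t (pts i).2.2]

def ev (t : L) : T3 →+ L where
  toFun u := algebraMap _ L u.1 + algebraMap _ L u.2.1 * t + algebraMap _ L u.2.2 * t ^ 2
  map_zero' := by simp
  map_add' u v := by simp only [Prod.fst_add, Prod.snd_add, map_add]; ring

lemma ev_DD (t : L) (pw : ℕ → T3) (h : ∀ e, ev t (pw e) = t ^ e) (i j k : Fin 13) :
    d3 (gp t i) (gp t j) (gp t k) = ev t (DD pw i j k) := by
  have : ∀ a b c, ev t (tm pw a b c) = val t a * val t b * val t c := by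
    rintro (_ | a) (_ | b) (_ | c) <;> simp [tm, val, h, pow_add]
  simp [DD, this, d3, gp]

lemma five : (5 : L) = 0 := by
  rw [← map_ofNat (algebraMap (ZMod 5) L) 5]
  exact (congrArg _ (by decide : (5 : ZMod 5) = 0)).trans (map_zero _)

lemma ev_pa (t : L) (h : t ^ 2 + 3 = 0) (e : ℕ) : ev t (pa e) = t ^ e := by
  induction e with
  | zero => simp [ev, pa]
  | succ e ih =>
    rw [pow_succ, ← ih]
    simp only [ev, pa, AddMonoidHom.coe_mk, ZeroHom.coe_mk, map_add, map_mul, map_ofNat, map_zero]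
    linear_combination (algebraMap _ L (pa e).2.1 + algebraMap _ L (pa e).2.2 * t) *
      (five (L := L) - h)

lemma ev_pb (t : L) (h : t ^ 3 + 2 * t ^ 2 + 4 * t + 2 = 0) (e : ℕ) : ev t (pb e) = t ^ e := by
  induction e with
  | zero => simp [ev, pb]
  | succ e ih =>
    rw [pow_succ, ← ih]
    simp only [ev, pb, AddMonoidHom.coe_mk, ZeroHom.coe_mk, map_add, map_mul, map_ofNat]
    linear_combination algebraMap _ L (pb e).2.2 * ((t ^ 2 + t + 1) * five (L := L) - h)

open Polynomial

instance : Fact (Nat.Prime 5) := ⟨by norm_num⟩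

noncomputable def fa : (ZMod 5)[X] := X ^ 2 + C 3
noncomputable def fb : (ZMod 5)[X] := X ^ 3 + C 2 * X ^ 2 + C 4 * X + C 2

lemma fa_deg : fa.natDegree = 2 := by unfold fa; compute_degree!
lemma fb_deg : fb.natDegree = 3 := by unfold fb; compute_degree!
lemma fa_monic : fa.Monic := by unfold fa; monicity!
lemma fb_monic : fb.Monic := by unfold fb; monicity!

lemma fa_irr : Irreducible fa :=
  irreducible_of_degree_le_three_of_not_isRoot (by rw [fa_deg]; decide) (by
    simp only [fa, IsRoot, eval_add, eval_pow, eval_X, eval_C]; decide)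

lemma fb_irr : Irreducible fb :=
  irreducible_of_degree_le_three_of_not_isRoot (by rw [fb_deg]; decide) (by
    simp only [fb, IsRoot, eval_add, eval_mul, eval_pow, eval_X, eval_C]; decide)

lemma aeval_fa (t : L) : aeval t fa = t ^ 2 + 3 := by simp [fa, map_ofNat]
lemma aeval_fb (t : L) : aeval t fb = t ^ 3 + 2 * t ^ 2 + 4 * t + 2 := by simp [fb, map_ofNat]

lemma ev_inj (t : L) (f : (ZMod 5)[X]) (h1 : Irreducible f) (h2 : f.Monic) (h3 : aeval t f = 0)
    (u : T3) (hd : (C u.1 + C u.2.1 * X + C u.2.2 * X ^ 2).natDegree < f.natDegree)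
    (h : ev t u = 0) : u = 0 := by
  have e := minpoly.eq_of_irreducible_of_monic h1 h3 h2
  have d : f ∣ C u.1 + C u.2.1 * X + C u.2.2 * X ^ 2 := by
    rw [e]; exact minpoly.dvd _ _ (by simpa [ev] using h)
  have z := eq_zero_of_dvd_of_natDegree_lt d hd
  have z0 := congrArg (coeff · 0) z
  have z1 := congrArg (coeff · 1) z
  have z2 := congrArg (coeff · 2) z
  simp [coeff_X, coeff_C, coeff_X_pow] at z0 z1 z2
  exact Prod.ext z0 (Prod.ext z1 z2)

lemma pat_a (t : L) (h : t ^ 2 + 3 = 0) (i j k : Fin 13) :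
    d3 (gp t i) (gp t j) (gp t k) = 0 ↔ DD pa i j k = 0 := by
  rw [ev_DD t pa (ev_pa t h)]
  refine ⟨ev_inj t fa fa_irr fa_monic (by rw [aeval_fa, h]) _ ?_, fun h => by rw [h, map_zero]⟩
  rw [(pat i j k).1, fa_deg, map_zero, zero_mul, add_zero]
  exact Nat.lt_succ_of_le (by compute_degree)

lemma pat_b (t : L) (h : t ^ 3 + 2 * t ^ 2 + 4 * t + 2 = 0) (i j k : Fin 13) :
    d3 (gp t i) (gp t j) (gp t k) = 0 ↔ DD pa i j k = 0 := by
  rw [ev_DD t pb (ev_pb t h), (pat i j k).2]
  refine ⟨ev_inj t fb fb_irr fb_monic (by rw [aeval_fb, h]) _ ?_, fun h => by rw [h, map_zero]⟩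
  rw [fb_deg]
  exact Nat.lt_succ_of_le (by compute_degree)

lemma exists_root [Finite L] (f : (ZMod 5)[X]) (h1 : Irreducible f)
    (h : f.natDegree ∣ finrank (ZMod 5) L) : ∃ t : L, aeval t f = 0 := by
  have : Fact (Irreducible f) := ⟨h1⟩
  have e : finrank (ZMod 5) (AdjoinRoot f) = f.natDegree :=
    (AdjoinRoot.powerBasis h1.ne_zero).finrank
  obtain ⟨φ⟩ := FiniteField.nonempty_algHom_of_finrank_dvd (F := ZMod 5) (K := AdjoinRoot f)
    (L := L) (e ▸ h)
  refine ⟨φ (AdjoinRoot.root f), ?_⟩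
  rw [aeval_algHom_apply, AdjoinRoot.aeval_eq, AdjoinRoot.mk_self, map_zero]

lemma dvd_of_root [FiniteDimensional (ZMod 5) L] (f : (ZMod 5)[X]) (h1 : Irreducible f)
    (h2 : f.Monic) (t : L) (h : aeval t f = 0) : f.natDegree ∣ finrank (ZMod 5) L := by
  rw [minpoly.eq_of_irreducible_of_monic h1 h h2]
  exact minpoly.degree_dvd (Algebra.IsIntegral.isIntegral t)

lemma forced (x : Fin 13 → Fin 3 → L) (x0 : x 0 = ![1, 0, 0]) (x1 : x 1 = ![0, 1, 0])
    (x2 : x 2 = ![0, 0, 1]) (h : ∀ i j k, d3 (x i) (x j) (x k) = 0 ↔ DD pa i j k = 0) :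
    ∃ t : L, t ^ 2 + 3 = 0 ∨ t ^ 3 + 2 * t ^ 2 + 4 * t + 2 = 0 := by
  have z : ∀ i, DD pa 0 1 i ≠ 0 → x i 2 ≠ 0 := fun i hi e =>
    hi ((h 0 1 i).mp (by simp [d3, x0, x1, e]))
  have V : ∀ i j, DD pa 0 1 i ≠ 0 → DD pa 0 1 j ≠ 0 → DD pa 1 i j = 0 →
      x j 0 / x j 2 = x i 0 / x i 2 := by
    intro i j hi hj e
    have := (h 1 i j).mpr e
    simp [d3, x1] at this
    rw [div_eq_div_iff (z j hj) (z i hi)]
    linear_combination this
  have H : ∀ i j, DD pa 0 1 i ≠ 0 → DD pa 0 1 j ≠ 0 →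
      (DD pa 0 i j = 0 ↔ x j 1 / x j 2 = x i 1 / x i 2) := by
    intro i j hi hj
    rw [← h, div_eq_div_iff (z j hj) (z i hi)]
    simp only [d3, x0, Matrix.cons_val_zero, Matrix.cons_val_one, Matrix.cons_val]
    constructor <;> intro e <;> linear_combination -e
  have O : ∀ i j, DD pa 0 1 i ≠ 0 → DD pa 0 1 j ≠ 0 → DD pa 2 i j = 0 →
      (x i 0 / x i 2) * (x j 1 / x j 2) = (x j 0 / x j 2) * (x i 1 / x i 2) := by
    intro i j hi hj e
    have := (h 2 i j).mpr e
    simp [d3, x2] at this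
    have := z i hi
    have := z j hj
    field_simp
    linear_combination ‹x i 0 * x j 1 - x i 1 * x j 0 = 0›
  have a0 : x 3 0 / x 3 2 ≠ 0 := div_ne_zero (fun e => (by decide : DD pa 1 2 3 ≠ 0)
    ((h 1 2 3).mp (by simp [d3, x1, x2, e]))) (z 3 (by decide))
  have b0 : x 3 1 / x 3 2 ≠ 0 := div_ne_zero (fun e => (by decide : DD pa 0 2 3 ≠ 0)
    ((h 0 2 3).mp (by simp [d3, x0, x2, e]))) (z 3 (by decide))
  have t1 : x 8 1 / x 8 2 ≠ x 3 1 / x 3 2 := fun e => (by decide : DD pa 0 3 8 ≠ 0)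
    ((H 3 8 (by decide) (by decide)).mpr e)
  have fin : d3 ![x 6 0 / x 6 2, x 6 1 / x 6 2, 1] ![x 8 0 / x 8 2, x 8 1 / x 8 2, 1]
      ![x 12 0 / x 12 2, x 12 1 / x 12 2, 1] = 0 := by
    have := (h 6 8 12).mpr (by decide)
    have := z 6 (by decide)
    have := z 8 (by decide)
    have := z 12 (by decide)
    simp only [d3, Matrix.cons_val_zero, Matrix.cons_val_one, Matrix.cons_val] at *
    field_simp
    linear_combination ‹x 6 0 * x 8 1 * x 12 2 - _ - _ + _ + _ - _ = 0›
  have v0 := V 3 8 (by decide) (by decide) (by decide)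
  have v1 := V 4 9 (by decide) (by decide) (by decide)
  have v2 := V 5 10 (by decide) (by decide) (by decide)
  have v3 := V 6 11 (by decide) (by decide) (by decide)
  have v4 := V 7 12 (by decide) (by decide) (by decide)
  have h0 := (H 8 4 (by decide) (by decide)).mp (by decide)
  have h1 := (H 9 5 (by decide) (by decide)).mp (by decide)
  have h2 := (H 10 6 (by decide) (by decide)).mp (by decide)
  have h3 := (H 11 7 (by decide) (by decide)).mp (by decide)
  have h4 := (H 3 12 (by decide) (by decide)).mp (by decide)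
  have o1 := O 3 4 (by decide) (by decide) (by decide)
  have o2 := O 3 5 (by decide) (by decide) (by decide)
  have o3 := O 3 6 (by decide) (by decide) (by decide)
  have o4 := O 3 7 (by decide) (by decide) (by decide)
  have q1 := O 8 9 (by decide) (by decide) (by decide)
  have q2 := O 8 10 (by decide) (by decide) (by decide)
  have q3 := O 8 11 (by decide) (by decide) (by decide)
  simp only [d3, Matrix.cons_val_zero, Matrix.cons_val_one, Matrix.cons_val] at fin
  rw [v0] at q1 q2 q3 fin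
  rw [v1] at q1
  rw [v2] at q2
  rw [v3] at q3
  rw [v4, h4, h2] at fin
  rw [h0] at o1
  rw [h1] at o2
  rw [h2] at o3
  rw [h3] at o4
  obtain ⟨t, ht⟩ : ∃ t, x 8 1 / x 8 2 = x 3 1 / x 3 2 * t := ⟨_, (mul_div_cancel₀ _ b0).symm⟩
  rw [ht] at q1 q2 q3 o1 fin t1
  generalize x 3 0 / x 3 2 = a at *
  generalize x 3 1 / x 3 2 = b at *
  have e1 : x 4 0 / x 4 2 = a * t := mul_right_cancel₀ b0 (by linear_combination -o1)
  rw [e1] at q1
  have e2 : x 9 1 / x 9 2 = b * t ^ 2 := mul_left_cancel₀ a0 (by linear_combination q1)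
  rw [e2] at o2
  have e3 : x 5 0 / x 5 2 = a * t ^ 2 := mul_right_cancel₀ b0 (by linear_combination -o2)
  rw [e3] at q2
  have e4 : x 10 1 / x 10 2 = b * t ^ 3 := mul_left_cancel₀ a0 (by linear_combination q2)
  rw [e4] at o3 fin
  have e5 : x 6 0 / x 6 2 = a * t ^ 3 := mul_right_cancel₀ b0 (by linear_combination -o3)
  rw [e5] at q3 fin
  have e6 : x 11 1 / x 11 2 = b * t ^ 4 := mul_left_cancel₀ a0 (by linear_combination q3)
  rw [e6] at o4
  have e7 : x 7 0 / x 7 2 = a * t ^ 4 := mul_right_cancel₀ b0 (by linear_combination -o4)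
  rw [e7] at fin
  have t2 : t - 1 ≠ 0 := fun e => t1 (by rw [sub_eq_zero.mp e, mul_one])
  have g : 1 - 2 * t ^ 3 + t ^ 4 - t ^ 5 + t ^ 7 = 0 :=
    mul_left_cancel₀ (mul_ne_zero a0 b0) (by linear_combination fin)
  refine ⟨t, mul_eq_zero.mp (mul_left_cancel₀ (pow_ne_zero 2 t2) ?_)⟩
  linear_combination g + (1 - 2 * t ^ 2 + t ^ 3 - t ^ 4 + t ^ 5) * five (L := L)

end pts

end Pool.Agent.H17.QMat
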