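import Pool.Agent.H17.QMat

set_option autoImplicit false

namespace Pool.Agent.H17.QMat2

open Finset Module Pool.Agent.H17.QMat

section code
variable {F La Lb : Type} [Field F] [Field La] [Field Lb] [Algebra F La] [Algebra F Lb] {n m : ℕ}

/-- the linear map sending the standard basis to the given vectors -/
noncomputable def phi (γ : Fin n → Fin 3 → La) : (Fin n → F) →ₗ[F] (Fin 3 → La) :=
  Fintype.linearCombination F γ

lemma phi_apply (γ : Fin n → Fin 3 → La) (v : Fin n → F) : phi γ v = ∑ i, v i • γ i :=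
  Fintype.linearCombination_apply F γ v

def Psi (γa : Fin n → Fin 3 → La) (γb : Fin n → Fin 3 → Lb) (e : (La × Lb) ≃ₗ[F] (Fin m → F)) :
    (Dual La (Fin 3 → La) × Dual Lb (Fin 3 → Lb)) →ₗ[F] (Fin n → Fin m → F) where
  toFun x := fun i => e (x.1 (γa i), x.2 (γb i))
  map_add' x y := by funext i; rw [Pi.add_apply, ← map_add]; rfl
  map_smul' c x := by funext i; rw [Pi.smul_apply, RingHom.id_apply, ← map_smul]; rfl

lemma Psi_sum (γa : Fin n → Fin 3 → La) (γb : Fin n → Fin 3 → Lb)
    (e : (La × Lb) ≃ₗ[F] (Fin m → F)) (x : Dual La (Fin 3 → La) × Dual Lb (Fin 3 → Lb))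
    (v : Fin n → F) :
    (∀ j, ∑ i, v i * Psi γa γb e x i j = 0) ↔ x.1 (phi γa v) = 0 ∧ x.2 (phi γb v) = 0 := by
  have : e (x.1 (phi γa v), x.2 (phi γb v)) = fun j => ∑ i, v i * Psi γa γb e x i j := by
    have : (x.1 (phi γa v), x.2 (phi γb v)) = ∑ i, v i • (x.1 (γa i), x.2 (γb i)) := by
      simp [phi_apply, Prod.ext_iff, Prod.fst_sum, Prod.snd_sum]
    rw [this, map_sum]
    funext j
    simp only [map_smul, Finset.sum_apply, Pi.smul_apply, smul_eq_mul]
    rfl
  rw [← Prod.mk_eq_zero, ← e.map_eq_zero_iff, this, funext_iff]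
  rfl

lemma fr_code [FiniteDimensional F La] [FiniteDimensional F Lb]
    (γa : Fin n → Fin 3 → La) (γb : Fin n → Fin 3 → Lb)
    (e : (La × Lb) ≃ₗ[F] (Fin m → F))
    (ta : ⊤ ≤ Submodule.span La (phi (F := F) γa '' Set.univ))
    (tb : ⊤ ≤ Submodule.span Lb (phi (F := F) γb '' Set.univ))
    (D : Submodule F (Fin n → Fin m → F)) (S : Set (Fin n → F))
    (hD : ∀ c, c ∈ D ↔ ∀ v ∈ S, ∀ j, ∑ i, v i * c i j = 0) :
    finrank F ↥(LinearMap.range (Psi γa γb e) ⊓ D) =
      finrank F La * (3 - finrank La (Submodule.span La (phi γa '' S))) +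
      finrank F Lb * (3 - finrank Lb (Submodule.span Lb (phi γb '' S))) := by
  have inj : Function.Injective (Psi γa γb e) := by
    rw [injective_iff_map_eq_zero]
    intro x hx
    have h := fun v => (Psi_sum γa γb e x v).mp (by simp [hx])
    refine Prod.ext ?_ ?_
    · exact LinearMap.ext_on (top_le_iff.mp ta) (by rintro _ ⟨v, -, rfl⟩; exact (h v).1)
    · exact LinearMap.ext_on (top_le_iff.mp tb) (by rintro _ ⟨v, -, rfl⟩; exact (h v).2)
  set Na := (Submodule.span La (phi (F := F) γa '' S)).dualAnnihilator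
  set Nb := (Submodule.span Lb (phi (F := F) γb '' S)).dualAnnihilator
  have ma : ∀ x, x ∈ Na ↔ ∀ v ∈ S, x (phi γa v) = 0 := by
    intro x
    rw [Submodule.mem_dualAnnihilator, ← Set.forall_mem_image (p := fun w => x w = 0)]
    exact ⟨fun h w hw => h w (Submodule.subset_span hw), fun h w hw =>
      (Submodule.span_le (p := LinearMap.ker x)).mpr h hw⟩
  have mb : ∀ x, x ∈ Nb ↔ ∀ v ∈ S, x (phi γb v) = 0 := by
    intro x
    rw [Submodule.mem_dualAnnihilator, ← Set.forall_mem_image (p := fun w => x w = 0)]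
    exact ⟨fun h w hw => h w (Submodule.subset_span hw), fun h w hw =>
      (Submodule.span_le (p := LinearMap.ker x)).mpr h hw⟩
  let ι : (Na × Nb) →ₗ[F] (Dual La (Fin 3 → La) × Dual Lb (Fin 3 → Lb)) :=
    (Na.subtype.restrictScalars F).prodMap (Nb.subtype.restrictScalars F)
  have ιi : Function.Injective ι := Subtype.val_injective.prodMap Subtype.val_injective
  have : LinearMap.range (Psi γa γb e) ⊓ D = LinearMap.range (Psi γa γb e ∘ₗ ι) := by
    ext c
    constructor
    · rintro ⟨⟨x, rfl⟩, hc⟩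
      have h := fun v hv => (Psi_sum γa γb e x v).mp ((hD _).mp hc v hv)
      exact ⟨(⟨x.1, (ma _).mpr fun v hv => (h v hv).1⟩, ⟨x.2, (mb _).mpr fun v hv => (h v hv).2⟩),
        rfl⟩
    · rintro ⟨x, rfl⟩
      exact ⟨⟨ι x, rfl⟩, (hD _).mpr fun v hv => (Psi_sum γa γb e (ι x) v).mpr
        ⟨(ma _).mp x.1.2 v hv, (mb _).mp x.2.2 v hv⟩⟩
  have f1 : Module.Finite F Na := Module.Finite.trans La Na
  have f2 : Module.Finite F Nb := Module.Finite.trans Lb Nb
  have f3 : Module.Free F Na := Module.Free.of_divisionRing F ↥Na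
  have f4 : Module.Free F Nb := Module.Free.of_divisionRing F ↥Nb
  have i2 : Function.Injective (Psi γa γb e ∘ₗ ι) := inj.comp ιi
  rw [this, LinearMap.finrank_range_of_inj i2, finrank_prod, fr_ann, fr_ann]

lemma span_tri {M : Type} [AddCommGroup M] [Module F M] [Module La M] [IsScalarTower F La M]
    (ψ : (Fin n → F) →ₗ[F] M) (w : Fin 3 → Fin n → F) :
    LinearIndependent La (ψ ∘ w) ↔
      finrank La (Submodule.span La (ψ '' (Submodule.span F (Set.range w)))) = 3 := by
  rw [← Submodule.map_coe, Submodule.map_span, Submodule.span_span_of_tower, ← Set.range_comp,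
    linearIndependent_iff_card_eq_finrank_span, Fintype.card_fin, eq_comm]
  rfl

end code

lemma setup (d : ℕ) (hd : 46 ≤ d) (t : GaloisField 5 d)
    (h : ∀ i j k, d3 (gp t i) (gp t j) (gp t k) = 0 ↔ DD pa i j k = 0) :
    ∃ γ : Fin 13 → Fin 3 → GaloisField 5 d,
      (∀ v : Fin 3 → Fin 13 → ZMod 5, LinearIndependent (GaloisField 5 d) (phi γ ∘ v) ↔
        ¬ ∀ i j k, DD pa i j k = 0 ∨ d3 (v · i) (v · j) (v · k) = 0) ∧
      (∀ u : Fin 3 → Fin 13, LinearIndependent (GaloisField 5 d)
        (phi γ ∘ fun c => Pi.single (u c) (1 : ZMod 5)) ↔ DD pa (u 0) (u 1) (u 2) ≠ 0) ∧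
      ⊤ ≤ Submodule.span (GaloisField 5 d) (phi (F := ZMod 5) γ '' Set.univ) := by
  have h6 : (6 : GaloisField 5 d) ≠ 0 := fun e =>
    one_ne_zero (α := GaloisField 5 d) (by linear_combination e - five (L := GaloisField 5 d))
  obtain ⟨l, hl⟩ := generic (F := ZMod 5) h6 (by
    rw [GaloisField.card 5 d (by omega), ZMod.card]
    exact lt_of_lt_of_le (by norm_num) (Nat.pow_le_pow_right (by norm_num) hd)) (gp t)
  have a1 : ∀ v : Fin 3 → Fin 13 → ZMod 5,
      LinearIndependent (GaloisField 5 d) (phi (fun i => l i • gp t i) ∘ v) ↔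
        ¬ ∀ i j k, DD pa i j k = 0 ∨ d3 (v · i) (v · j) (v · k) = 0 := by
    intro v
    simp only [← h, ← hl, li_iff, Function.comp, phi_apply, mul_smul, algebraMap_smul]
  have a2 : ∀ u : Fin 3 → Fin 13, LinearIndependent (GaloisField 5 d)
      (phi (fun i => l i • gp t i) ∘ fun c => Pi.single (u c) (1 : ZMod 5)) ↔
        DD pa (u 0) (u 1) (u 2) ≠ 0 := by
    intro u
    constructor
    · intro h1 h2
      rw [li_iff] at h1
      apply h1
      have := (h _ _ _).mpr h2
      simp only [Function.comp, phi, Fintype.linearCombination_apply_single, one_smul]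
      simp only [d3, Pi.smul_apply, smul_eq_mul] at this ⊢
      linear_combination l (u 0) * l (u 1) * l (u 2) * this
    · intro h1
      rw [a1]
      intro h2
      have h3 := mt (h _ _ _).mp h1
      have ij : u 0 ≠ u 1 := fun e => h3 (by rw [e]; unfold d3; ring)
      have ik : u 0 ≠ u 2 := fun e => h3 (by rw [e]; unfold d3; ring)
      have jk : u 1 ≠ u 2 := fun e => h3 (by rw [e]; unfold d3; ring)
      have := (h2 (u 0) (u 1) (u 2)).resolve_left h1
      simp [d3, ij, ik, jk, ij.symm, ik.symm, jk.symm] at this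
  refine ⟨_, a1, a2, ?_⟩
  have := ((a2 ![0, 1, 2]).mpr (by decide)).span_eq_top_of_card_eq_finrank (by simp)
  rw [← this]
  refine Submodule.span_mono ?_
  rintro _ ⟨c, rfl⟩
  exact ⟨_, trivial, rfl⟩

theorem main :
    ∃ (F K : Type) (_ : Field F) (_ : Fintype F) (_ : Field K) (_ : Algebra F K) (m n : ℕ),
      1 < m ∧ Module.finrank F K = m ∧
      ∃ C : Submodule F (Fin n → Fin m → F),
        (∀ W : Submodule F (Fin n → F),
          m ∣ Module.finrank F ↥(C ⊓ ⨅ j : Fin m, Submodule.comap
            (LinearMap.pi (fun i : Fin n =>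
              LinearMap.comp (LinearMap.proj j : (Fin m → F) →ₗ[F] F)
                (LinearMap.proj i : (Fin n → Fin m → F) →ₗ[F] (Fin m → F)))) W)) ∧
        ¬ ∃ (k : ℕ) (G : Matrix (Fin k) (Fin n) K),
          ∀ V : Submodule F (Fin n → F),
            m * Module.finrank K (Submodule.span K
              ((fun v : Fin n → F => Matrix.mulVec G (fun i => algebraMap F K (v i))) ''
                (V : Set (Fin n → F))))
            = Module.finrank F C - Module.finrank F ↥(C ⊓ ⨅ j : Fin m, Submodule.comap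
              (LinearMap.pi (fun i : Fin n =>
                LinearMap.comp (LinearMap.proj j : (Fin m → F) →ₗ[F] F)
                  (LinearMap.proj i : (Fin n → Fin m → F) →ₗ[F] (Fin m → F))))
              (⨅ (v : Fin n → F) (_ : v ∈ V), LinearMap.ker
                (∑ i : Fin n, v i • (LinearMap.proj i : (Fin n → F) →ₗ[F] F)))) := by
  have ra : finrank (ZMod 5) (GaloisField 5 46) = 46 := GaloisField.finrank 5 (by norm_num)
  have rb : finrank (ZMod 5) (GaloisField 5 69) = 69 := GaloisField.finrank 5 (by norm_num)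
  have rk : finrank (ZMod 5) (GaloisField 5 115) = 115 := GaloisField.finrank 5 (by norm_num)
  obtain ⟨ta, hta⟩ := exists_root (L := GaloisField 5 46) fa fa_irr (by rw [fa_deg, ra]; norm_num)
  obtain ⟨tb, htb⟩ := exists_root (L := GaloisField 5 69) fb fb_irr (by rw [fb_deg, rb]; norm_num)
  obtain ⟨γa, a1, a2, a3⟩ := setup 46 le_rfl ta (pat_a ta (by rwa [aeval_fa] at hta))
  obtain ⟨γb, b1, -, b3⟩ := setup 69 (by norm_num) tb (pat_b tb (by rwa [aeval_fb] at htb))
  have req : ∀ S : Set (Fin 13 → ZMod 5),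
      finrank (GaloisField 5 69) (Submodule.span (GaloisField 5 69) (phi γb '' S)) =
      finrank (GaloisField 5 46) (Submodule.span (GaloisField 5 46) (phi γa '' S)) := fun S =>
    le_antisymm (rank_le _ _ b3 (fun v h => (a1 v).mpr ((b1 v).mp h)) S)
      (rank_le _ _ a3 (fun v h => (b1 v).mpr ((a1 v).mp h)) S)
  let e : (GaloisField 5 46 × GaloisField 5 69) ≃ₗ[ZMod 5] (Fin 115 → ZMod 5) :=
    LinearEquiv.ofFinrankEq _ _ (by rw [finrank_prod, ra, rb]; simp)
  have fr : ∀ (D : Submodule (ZMod 5) (Fin 13 → Fin 115 → ZMod 5)) (S : Set (Fin 13 → ZMod 5)),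
      (∀ c, c ∈ D ↔ ∀ v ∈ S, ∀ j, ∑ i, v i * c i j = 0) →
      finrank (ZMod 5) ↥(LinearMap.range (Psi γa γb e) ⊓ D) =
        115 * (3 - finrank (GaloisField 5 46) (Submodule.span (GaloisField 5 46) (phi γa '' S))) := by
    intro D S h
    rw [fr_code γa γb e a3 b3 D S h, req, ra, rb, ← add_mul]
  refine ⟨ZMod 5, GaloisField 5 115, inferInstance, inferInstance, inferInstance, inferInstance,
    115, 13, by norm_num, rk, LinearMap.range (Psi γa γb e), fun W => ?_, ?_⟩
  · rw [fr _ {v | ∀ w ∈ W, ∑ i, v i * w i = 0}]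
    · exact Dvd.intro _ rfl
    intro c
    simp only [Submodule.mem_iInf, Submodule.mem_comap, Set.mem_ofPred_eq]
    refine ⟨fun h v hv j => hv _ (h j), fun h j => ?_⟩
    rw [← Subspace.forall_mem_dualAnnihilator_apply_eq_zero_iff]
    intro φ hφ
    have key : ∀ w : Fin 13 → ZMod 5, φ w = ∑ i, φ (Pi.single i 1) * w i := by
      intro w
      rw [LinearMap.pi_apply_eq_sum_univ]
      refine sum_congr rfl fun i _ => ?_
      rw [smul_eq_mul, mul_comm]
      congr 2
      funext j
      simp [Pi.single_apply, eq_comm]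
    rw [key]
    exact h _ (fun w hw => (key w).symm.trans ((Submodule.mem_dualAnnihilator _).mp hφ w hw)) j
  · rintro ⟨k, G, hG⟩
    let ψ : (Fin 13 → ZMod 5) →ₗ[ZMod 5] (Fin k → GaloisField 5 115) :=
      (G.mulVecLin.restrictScalars (ZMod 5)) ∘ₗ
        (Algebra.linearMap (ZMod 5) (GaloisField 5 115)).compLeft (Fin 13)
    have c0 : finrank (ZMod 5) (LinearMap.range (Psi γa γb e)) = 115 * 3 := by
      have := fr ⊤ ∅ (by simp)
      rwa [inf_top_eq, Set.image_empty, Submodule.span_empty, finrank_bot] at this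
    have rr : ∀ V : Submodule (ZMod 5) (Fin 13 → ZMod 5),
        finrank (GaloisField 5 115) (Submodule.span (GaloisField 5 115) (ψ '' V)) =
        finrank (GaloisField 5 46) (Submodule.span (GaloisField 5 46) (phi γa '' (V : Set (Fin 13 → ZMod 5)))) := by
      intro V
      have := hG V
      rw [fr _ V, c0] at this
      · have le : finrank (GaloisField 5 46) (Submodule.span (GaloisField 5 46) (phi γa '' (V : Set (Fin 13 → ZMod 5)))) ≤ 3 :=
          (Submodule.finrank_le _).trans (by simp)
        change 115 * finrank (GaloisField 5 115)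
          (Submodule.span (GaloisField 5 115) (ψ '' V)) = _ at this
        omega
      · intro c
        simp only [Submodule.mem_iInf, Submodule.mem_comap, LinearMap.mem_ker, LinearMap.sum_apply,
          LinearMap.smul_apply, smul_eq_mul]
        exact ⟨fun h v hv j => h j v hv, fun h j v hv => h v hv j⟩
    have li : ∀ u : Fin 3 → Fin 13, LinearIndependent (GaloisField 5 115)
        (ψ ∘ fun c => Pi.single (u c) (1 : ZMod 5)) ↔ DD pa (u 0) (u 1) (u 2) ≠ 0 := by
      intro u
      rw [← a2, span_tri, span_tri, rr]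
    set U := Submodule.span (GaloisField 5 115) (ψ '' (⊤ : Submodule (ZMod 5) (Fin 13 → ZMod 5)))
    have u3 : finrank (GaloisField 5 115) U = 3 := by
      rw [rr, Submodule.top_coe, top_le_iff.mp a3]; simp
    let y : Fin 13 → U := fun i => ⟨ψ (Pi.single i 1), Submodule.subset_span ⟨_, trivial, rfl⟩⟩
    have li2 : ∀ u : Fin 3 → Fin 13, LinearIndependent (GaloisField 5 115) (y ∘ u) ↔
        DD pa (u 0) (u 1) (u 2) ≠ 0 := by
      intro u
      rw [← li, ← U.subtype.linearIndependent_iff U.ker_subtype]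
      rfl
    let B := basisOfLinearIndependentOfCardEqFinrank ((li2 ![0, 1, 2]).mpr (by decide))
      (by rw [u3]; simp)
    have hB : ∀ c, B c = y (![0, 1, 2] c) := fun c => by simp [B]
    obtain ⟨t, ht⟩ := forced (fun i => B.equivFun (y i))
      (by rw [show y 0 = B 0 from (hB 0).symm]; funext j; fin_cases j <;> simp)
      (by rw [show y 1 = B 1 from (hB 1).symm]; funext j; fin_cases j <;> simp)
      (by rw [show y 2 = B 2 from (hB 2).symm]; funext j; fin_cases j <;> simp)
      (by
        intro i j k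
        have := li2 ![i, j, k]
        rw [← B.equivFun.toLinearMap.linearIndependent_iff B.equivFun.ker, li_iff] at this
        exact not_iff_not.mp this)
    rcases ht with ht | ht
    · have := dvd_of_root fa fa_irr fa_monic t (by rwa [aeval_fa])
      rw [fa_deg, rk] at this
      omega
    · have := dvd_of_root fb fb_irr fb_monic t (by rwa [aeval_fb])
      rw [fb_deg, rk] at this
      omega

end Pool.Agent.H17.QMat2
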