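import Mathlib

set_option linter.unusedSectionVars false

namespace Pool.Agent.H17.QR

open Module Submodule

variable {K V : Type} [Field K] [AddCommGroup V] [Module K V]

/-- The rank axioms of a `q`-matroid on the subspaces of `V`. -/
structure IsQMatroid (r : Submodule K V → ℕ) : Prop where
  le_dim : ∀ A, r A ≤ finrank K A
  mono : ∀ A B, A ≤ B → r A ≤ r B
  submod : ∀ A B, r (A ⊔ B) + r (A ⊓ B) ≤ r A + r B

/-- Independent subspaces. -/
def Indep (r : Submodule K V → ℕ) (A : Submodule K V) : Prop := r A = finrank K A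

/-- Bases: the maximal independent subspaces. -/
def IsBase (r : Submodule K V → ℕ) (B : Submodule K V) : Prop := Maximal (Indep r) B

/-- The bar nullity: the least dimension of `B ⊓ X` over the bases `B`. -/
noncomputable def nbar (r : Submodule K V → ℕ) (X : Submodule K V) : ℕ :=
  sInf {k : ℕ | ∃ B, IsBase r B ∧ finrank K (B ⊓ X : Submodule K V) = k}

/-- `T` has dimension `n` and every vector basis of `T` can be listed with `bᵢ ∉ Xᵢ`. -/
def IsQTransversal {n : ℕ} (X : Fin n → Submodule K V) (T : Submodule K V) : Prop :=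
  finrank K T = n ∧ ∀ b : Fin n → V, LinearIndependent K b → span K (Set.range b) = T →
    ∃ σ : Equiv.Perm (Fin n), ∀ i, b (σ i) ∉ X i

variable [FiniteDimensional K V] {r : Submodule K V → ℕ}

theorem closure_finset (h : IsQMatroid r) (Y : Submodule K V) (s : Finset V)
    (hs : ∀ v ∈ s, r (Y ⊔ span K {v}) ≤ r Y) : r (Y ⊔ span K (s : Set V)) ≤ r Y := by
  classical
  induction s using Finset.induction_on with
  | empty => simp
  | insert v s hv ih =>
    have h1 := ih fun w hw => hs w (Finset.mem_insert_of_mem hw)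
    have h2 := hs v (Finset.mem_insert_self _ _)
    have h3 := h.submod (Y ⊔ span K (s : Set V)) (Y ⊔ span K {v})
    have h4 := h.mono Y ((Y ⊔ span K (s : Set V)) ⊓ (Y ⊔ span K {v}))
      (le_inf le_sup_left le_sup_left)
    have h5 := h.mono (Y ⊔ span K ((insert v s : Finset V) : Set V))
      ((Y ⊔ span K (s : Set V)) ⊔ (Y ⊔ span K {v})) (by
        rw [Finset.coe_insert, span_insert]
        exact sup_le (le_sup_of_le_left le_sup_left)
          (sup_le (le_sup_of_le_right le_sup_right) (le_sup_of_le_left le_sup_right)))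
    omega

theorem exists_ext (h : IsQMatroid r) (Y W : Submodule K V) (hW : W ≠ ⊤) (hY : r Y < r ⊤) :
    ∃ v, v ∉ W ∧ r Y < r (Y ⊔ span K {v}) := by
  by_contra hc
  push Not at hc
  have hsp : span K {v : V | v ∉ W} = ⊤ := by
    obtain ⟨u, hu⟩ : ∃ u, u ∉ W := by
      by_contra h'
      push Not at h'
      exact hW (eq_top_iff'.2 h')
    rw [eq_top_iff']
    intro v
    by_cases hv : v ∈ W
    · have h1 : v + u ∉ W := fun h1 => hu (by simpa using W.sub_mem h1 hv)
      have := (span K {v : V | v ∉ W}).sub_mem (subset_span h1) (subset_span hu)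
      simpa using this
    · exact subset_span hv
  obtain ⟨s, hs, e⟩ := (fg_span_iff_fg_span_finset_subset (R := K) {v : V | v ∉ W}).1
    (IsNoetherian.noetherian _)
  have := closure_finset h Y s fun v hv => hc v (hs hv)
  rw [← e, hsp, sup_top_eq] at this
  omega

theorem finrank_sup_le (Y : Submodule K V) (v : V) :
    finrank K (Y ⊔ span K {v} : Submodule K V) ≤ finrank K Y + 1 := by
  have h1 := finrank_add_le_finrank_add_finrank Y (span K {v})
  have h2 : finrank K (span K {v} : Submodule K V) ≤ 1 := by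
    simpa using finrank_span_le_card (R := K) ({v} : Set V)
  omega

theorem indep_ext (h : IsQMatroid r) {Y : Submodule K V} (hY : Indep r Y) {v : V}
    (hv : r Y < r (Y ⊔ span K {v})) :
    Indep r (Y ⊔ span K {v}) ∧ finrank K (Y ⊔ span K {v} : Submodule K V) = finrank K Y + 1 := by
  have h1 := finrank_sup_le Y v
  have h2 := h.le_dim (Y ⊔ span K {v})
  unfold Indep at hY ⊢
  omega

theorem base_finrank (h : IsQMatroid r) {B : Submodule K V} (hB : IsBase r B) :
    finrank K B = r ⊤ := by
  have h1 : r B = finrank K B := hB.1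
  have h2 := h.mono B ⊤ le_top
  by_contra hne
  have hlt : r B < r ⊤ := by omega
  obtain ⟨v, -, hv⟩ := exists_ext h B B (by rintro rfl; omega) hlt
  obtain ⟨h3, h4⟩ := indep_ext h hB.1 hv
  have h5 := Submodule.finrank_mono (hB.2 h3 le_sup_left)
  omega

theorem indep_bot (h : IsQMatroid r) : Indep r ⊥ := by
  have := h.le_dim ⊥
  unfold Indep
  simp at this ⊢
  exact this

theorem exists_base {T : Submodule K V} (hT : Indep r T) : ∃ B, T ≤ B ∧ IsBase r B :=
  exists_maximal_ge_of_wellFoundedGT (Indep r) T hT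

theorem nbar_le {B : Submodule K V} (hB : IsBase r B) (X : Submodule K V) :
    nbar r X ≤ finrank K (B ⊓ X : Submodule K V) :=
  Nat.sInf_le ⟨B, hB, rfl⟩

theorem nbar_mem (h : IsQMatroid r) (X : Submodule K V) :
    ∃ B, IsBase r B ∧ finrank K (B ⊓ X : Submodule K V) = nbar r X := by
  obtain ⟨B, -, hB⟩ := exists_base (indep_bot h)
  exact Nat.sInf_mem (s := {k : ℕ | ∃ B, IsBase r B ∧ finrank K (B ⊓ X : Submodule K V) = k})
    ⟨_, B, hB, rfl⟩

theorem nbar_top (h : IsQMatroid r) : nbar r ⊤ = r ⊤ := by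
  obtain ⟨B, hB, e⟩ := nbar_mem h ⊤
  rw [← e, inf_top_eq, base_finrank h hB]

theorem exists_compl (h : IsQMatroid r) (W : Submodule K V) (k : ℕ)
    (h1 : finrank K W + k ≤ finrank K V) (h2 : k ≤ r ⊤) :
    ∃ T, Indep r T ∧ finrank K T = k ∧ T ⊓ W = ⊥ := by
  induction k with
  | zero => exact ⟨⊥, indep_bot h, by simp, by simp⟩
  | succ k ih =>
    obtain ⟨Y, hY, dY, eY⟩ := ih (by omega) (by omega)
    have h3 := finrank_sup_add_finrank_inf_eq Y W
    rw [eY, finrank_bot] at h3
    have hne : Y ⊔ W ≠ ⊤ := by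
      intro e
      rw [e, finrank_top] at h3
      omega
    obtain ⟨v, hv, hr⟩ := exists_ext h Y (Y ⊔ W) hne (by rw [hY]; omega)
    obtain ⟨h4, h5⟩ := indep_ext h hY hr
    refine ⟨_, h4, by omega, ?_⟩
    have h6 := finrank_sup_add_finrank_inf_eq (Y ⊔ span K {v}) W
    have h7 : Y ⊔ W < (Y ⊔ span K {v}) ⊔ W := by
      refine lt_of_le_of_ne (sup_le_sup_right le_sup_left _) fun e => hv ?_
      rw [e]
      exact mem_sup_left (mem_sup_right (mem_span_singleton_self v))
    have h8 := finrank_lt_finrank_of_lt h7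
    exact Submodule.finrank_eq_zero.1 (by omega)

/-- Hall's condition in avoidance form. -/
def Hall {n : ℕ} (X : Fin n → Submodule K V) : Prop :=
  ∀ J : Finset (Fin n), finrank K (⨅ j ∈ J, X j : Submodule K V) + J.card ≤ finrank K V

theorem hall_step {n : ℕ} (X : Fin n → Submodule K V) (hX : Hall X) (i : Fin n)
    (A B : Submodule K V) (hAB : A ⊓ B ≤ X i) :
    Hall (Function.update X i A) ∨ Hall (Function.update X i B) := by
  classical
  by_contra hc
  unfold Hall at hc
  push Not at hc
  obtain ⟨⟨J1, h1⟩, ⟨J2, h2⟩⟩ := hc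
  have mem : ∀ (C : Submodule K V) (J : Finset (Fin n)) (v : V),
      v ∈ (⨅ j ∈ J, Function.update X i C j : Submodule K V) ↔
        ∀ j ∈ J, v ∈ Function.update X i C j := by
    intro C J v
    simp [mem_iInf]
  have hi : ∀ (C : Submodule K V) (J : Finset (Fin n)),
      finrank K V < finrank K (⨅ j ∈ J, Function.update X i C j : Submodule K V) + J.card →
      i ∈ J := by
    intro C J hJ
    by_contra hn
    have h3 := hX J
    have h4 : (⨅ j ∈ J, Function.update X i C j : Submodule K V) ≤ ⨅ j ∈ J, X j := by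
      refine le_iInf₂ fun j hj v hv => ?_
      have := (mem C J v).1 hv j hj
      rwa [Function.update_of_ne (by rintro rfl; exact hn hj)] at this
    have := Submodule.finrank_mono h4
    omega
  have i1 := hi A J1 h1
  have i2 := hi B J2 h2
  have e := finrank_sup_add_finrank_inf_eq (⨅ j ∈ J1, Function.update X i A j : Submodule K V)
    (⨅ j ∈ J2, Function.update X i B j)
  have l1 : (⨅ j ∈ J1, Function.update X i A j : Submodule K V) ⊓
      (⨅ j ∈ J2, Function.update X i B j) ≤ ⨅ j ∈ J1 ∪ J2, X j := by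
    refine le_iInf₂ fun j hj v hv => ?_
    have v1 := (mem A J1 v).1 hv.1
    have v2 := (mem B J2 v).1 hv.2
    by_cases hji : j = i
    · subst hji
      exact hAB ⟨by simpa using v1 j i1, by simpa using v2 j i2⟩
    · rcases Finset.mem_union.1 hj with hj | hj
      · simpa [Function.update_of_ne hji] using v1 j hj
      · simpa [Function.update_of_ne hji] using v2 j hj
  have l2 : (⨅ j ∈ J1, Function.update X i A j : Submodule K V) ⊔
      (⨅ j ∈ J2, Function.update X i B j) ≤ ⨅ j ∈ (J1 ∩ J2).erase i, X j := by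
    refine le_iInf₂ fun j hj => ?_
    obtain ⟨hji, hj⟩ := Finset.mem_erase.1 hj
    obtain ⟨j1, j2⟩ := Finset.mem_inter.1 hj
    refine sup_le (fun v hv => ?_) (fun v hv => ?_)
    · simpa [Function.update_of_ne hji] using (mem A J1 v).1 hv j j1
    · simpa [Function.update_of_ne hji] using (mem B J2 v).1 hv j j2
  have m1 := Submodule.finrank_mono l1
  have m2 := Submodule.finrank_mono l2
  have x1 := hX (J1 ∪ J2)
  have x2 := hX ((J1 ∩ J2).erase i)
  have c1 := Finset.card_union_add_card_inter J1 J2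
  have c2 := Finset.card_erase_add_one (Finset.mem_inter.2 ⟨i1, i2⟩)
  omega

theorem exists_hyper {n : ℕ} (X : Fin n → Submodule K V) (hX : Hall X) :
    ∃ X' : Fin n → Submodule K V, (∀ i, X i ≤ X' i) ∧ Hall X' ∧
      ∀ i, finrank K (X' i) + 1 = finrank K V := by
  classical
  have : WellFoundedGT (Fin n → Submodule K V) :=
    ⟨(Function.wellFoundedLT (ι := Fin n) (α := (Submodule K V)ᵒᵈ)).wf⟩
  obtain ⟨X', hle, hmax⟩ := exists_maximal_ge_of_wellFoundedGT Hall X hX
  refine ⟨X', hle, hmax.1, fun i => ?_⟩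
  have h1 := hmax.1 {i}
  have e1 : (⨅ j ∈ ({i} : Finset (Fin n)), X' j : Submodule K V) = X' i := by simp
  rw [e1, Finset.card_singleton] at h1
  by_contra hne
  have nt : ∀ W : Submodule K V, finrank K W < finrank K V → ∃ u, u ∉ W := by
    intro W hW
    by_contra h'
    push Not at h'
    rw [eq_top_iff'.2 h', finrank_top] at hW
    omega
  obtain ⟨u, hu⟩ := nt (X' i) (by omega)
  obtain ⟨v, hv⟩ := nt (X' i ⊔ span K {u}) (by have := finrank_sup_le (X' i) u; omega)
  have hv' : v ∉ X' i := fun h => hv (mem_sup_left h)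
  have hAB : (X' i ⊔ span K {u}) ⊓ (X' i ⊔ span K {v}) ≤ X' i := by
    rintro w ⟨w1, w2⟩
    obtain ⟨y, hy, z, hz, rfl⟩ := mem_sup.1 w2
    obtain ⟨c, rfl⟩ := mem_span_singleton.1 hz
    by_cases hc : c = 0
    · simpa [hc] using hy
    · exfalso
      apply hv
      have := (X' i ⊔ span K {u}).sub_mem w1 (mem_sup_left hy)
      rw [add_sub_cancel_left] at this
      exact (smul_mem_iff _ hc).1 this
  have fin : ∀ w, w ∉ X' i → ¬ Hall (Function.update X' i (X' i ⊔ span K {w})) := by
    intro w hw hH
    have := hmax.2 hH (by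
      intro j
      by_cases hji : j = i
      · subst hji; simp
      · simp [Function.update_of_ne hji]) i
    rw [Function.update_self] at this
    exact hw (this (mem_sup_right (mem_span_singleton_self w)))
  rcases hall_step X' hmax.1 i _ _ hAB with h | h
  · exact fin u hu h
  · exact fin v hv' h

theorem transversal_of_hyper {n : ℕ} (X : Fin n → Submodule K V)
    (hX : ∀ i, finrank K (X i) + 1 = finrank K V) (T : Submodule K V)
    (hT : T ⊓ (⨅ j ∈ (Finset.univ : Finset (Fin n)), X j) = ⊥) (b : Fin n → V)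
    (hb : LinearIndependent K b) (hs : span K (Set.range b) = T) :
    ∃ σ : Equiv.Perm (Fin n), ∀ i, b (σ i) ∉ X i := by
  classical
  have hf : ∀ i, ∃ f : V →ₗ[K] K, X i = LinearMap.ker f := by
    intro i
    have h1 : X i < ⊤ := lt_top_iff_ne_top.2 fun e => by
      have := hX i
      rw [e, finrank_top] at this
      omega
    obtain ⟨f, f0, hf⟩ := Submodule.exists_le_ker_of_lt_top _ h1
    refine ⟨f, Submodule.eq_of_le_of_finrank_le hf ?_⟩
    have := Submodule.finrank_lt (s := LinearMap.ker f) (by simpa using f0)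
    have := hX i
    omega
  choose f hf using hf
  let M : Matrix (Fin n) (Fin n) K := Matrix.of fun k i => f i (b k)
  have hdet : M.det ≠ 0 := by
    intro h0
    obtain ⟨c, c0, hc⟩ := Matrix.exists_vecMul_eq_zero_iff.2 h0
    have h1 : ∑ k, c k • b k ∈ T ⊓ (⨅ j ∈ (Finset.univ : Finset (Fin n)), X j) := by
      refine ⟨?_, ?_⟩
      · rw [← hs]
        exact sum_mem fun k _ => smul_mem _ _ (subset_span ⟨k, rfl⟩)
      · simp only [SetLike.mem_coe, mem_iInf]
        intro j _
        rw [hf j, LinearMap.mem_ker, map_sum]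
        have := congrFun hc j
        simpa [Matrix.vecMul, dotProduct, M] using this
    rw [hT, mem_bot] at h1
    exact c0 (funext (Fintype.linearIndependent_iff.1 hb c h1))
  rw [Matrix.det_apply] at hdet
  obtain ⟨σ, -, hσ⟩ := Finset.exists_ne_zero_of_sum_ne_zero hdet
  refine ⟨σ, fun i hi => hσ ?_⟩
  rw [hf i, LinearMap.mem_ker] at hi
  rw [Finset.prod_eq_zero (Finset.mem_univ i) (by simpa [M] using hi), smul_zero]

theorem transversal_bound {n : ℕ} {X : Fin n → Submodule K V} {T : Submodule K V}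
    (hT : IsQTransversal X T) (J : Finset (Fin n)) :
    finrank K (T ⊓ (⨅ j ∈ J, X j) : Submodule K V) + J.card ≤ n := by
  classical
  set U : Submodule K V := T ⊓ (⨅ j ∈ J, X j) with hU
  obtain ⟨W, hd, hs⟩ := IsModularLattice.exists_disjoint_and_sup_eq (show U ≤ T from inf_le_left)
  have hn : finrank K U + finrank K W = n := by
    have := finrank_sup_add_finrank_inf_eq U W
    rw [hs, disjoint_iff.1 hd, finrank_bot, hT.1] at this
    omega
  let bU := Module.finBasis K U
  let bW := Module.finBasis K W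
  have sU : span K (Set.range (U.subtype ∘ bU)) = U := by
    rw [Set.range_comp, ← Submodule.map_span, bU.span_eq, Submodule.map_top, range_subtype]
  have sW : span K (Set.range (W.subtype ∘ bW)) = W := by
    rw [Set.range_comp, ← Submodule.map_span, bW.span_eq, Submodule.map_top, range_subtype]
  have li : LinearIndependent K (Sum.elim (U.subtype ∘ bU) (W.subtype ∘ bW)) :=
    (bU.linearIndependent.map' _ (ker_subtype U)).sum_type
      (bW.linearIndependent.map' _ (ker_subtype W)) (by rw [sU, sW]; exact hd)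
  let e : Fin n ≃ Fin (finrank K U) ⊕ Fin (finrank K W) :=
    Fintype.equivOfCardEq (by simp [hn])
  obtain ⟨σ, hσ⟩ := hT.2 (Sum.elim (U.subtype ∘ bU) (W.subtype ∘ bW) ∘ e)
    (li.comp e e.injective) (by
      rw [e.surjective.range_comp, Set.Sum.elim_range, span_union, sU, sW, hs])
  have hc : J.card ≤ ((Finset.univ : Finset (Fin (finrank K W))).map
      (Function.Embedding.inr : _ ↪ Fin (finrank K U) ⊕ Fin (finrank K W))).card := by
    refine Finset.card_le_card_of_injOn (fun j => e (σ j)) ?_
      (fun x _ y _ h => σ.injective (e.injective h))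
    intro j hj
    have h1 := hσ j
    rcases hk : e (σ j) with k | k
    · exfalso
      apply h1
      rw [Function.comp_apply, hk]
      have h2 : ((bU k : U) : V) ∈ (⨅ j ∈ J, X j : Submodule K V) := (bU k).2.2
      simp only [mem_iInf] at h2
      exact h2 j hj
    · simp [hk]
  rw [Finset.card_map, Finset.card_univ, Fintype.card_fin] at hc
  omega

theorem main (h : IsQMatroid r) {n : ℕ} (X : Fin n → Submodule K V) :
    (∃ T, IsQTransversal X T ∧ Indep r T) ↔
      ∀ J : Finset (Fin n), nbar r (⨅ j ∈ J, X j) + J.card ≤ nbar r ⊤ := by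
  rw [nbar_top h]
  constructor
  · rintro ⟨T, hT, hI⟩ J
    obtain ⟨B, hTB, hB⟩ := exists_base hI
    have h1 := nbar_le hB (⨅ j ∈ J, X j)
    have h2 := transversal_bound hT J
    have h3 := finrank_sup_add_finrank_inf_eq (B ⊓ (⨅ j ∈ J, X j)) T
    have h4 := Submodule.finrank_mono (show (B ⊓ (⨅ j ∈ J, X j)) ⊔ T ≤ B from
      sup_le inf_le_left hTB)
    have h5 := Submodule.finrank_mono (show (B ⊓ (⨅ j ∈ J, X j)) ⊓ T ≤ T ⊓ (⨅ j ∈ J, X j) from
      le_inf inf_le_right (inf_le_of_left_le inf_le_right))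
    have h6 := base_finrank h hB
    have h7 := hT.1
    omega
  · intro H
    have hH : Hall X := by
      intro J
      obtain ⟨B, hB, e⟩ := nbar_mem h (⨅ j ∈ J, X j)
      have h1 := H J
      have h3 := finrank_sup_add_finrank_inf_eq B (⨅ j ∈ J, X j)
      have h4 := Submodule.finrank_le (B ⊔ (⨅ j ∈ J, X j))
      have h6 := base_finrank h hB
      omega
    obtain ⟨X', hle, hH', hd⟩ := exists_hyper X hH
    have h1 := hH' Finset.univ
    have h2 := H Finset.univ
    rw [Finset.card_univ, Fintype.card_fin] at h1 h2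
    obtain ⟨T, hI, dT, eT⟩ := exists_compl h _ n h1 (by omega)
    refine ⟨T, ⟨dT, fun b hb hs => ?_⟩, hI⟩
    obtain ⟨σ, hσ⟩ := transversal_of_hyper X' hd T eT b hb hs
    exact ⟨σ, fun i hi => hσ i (hle i hi)⟩

end Pool.Agent.H17.QR
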