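import Mathlib

set_option autoImplicit false

namespace Pool.Agent.H17.Qp

def ap (F : List (List ℕ)) (y : List ℕ) : List ℕ := y.flatMap (fun c => F.getD c [])

def apk (F : List (List ℕ)) (k : ℕ) (y : List ℕ) : List ℕ := (ap F)^[k] y

def it (F : List (List ℕ)) (a n : ℕ) : List ℕ := apk F n [a]

def seg (w : ℕ → ℕ) (p m : ℕ) : List ℕ := (List.range m).map (fun t => w (p + t))

def Occ (w : ℕ → ℕ) (p : ℕ) (y : List ℕ) : Prop := seg w p y.length = y

section lists
variable {F : List (List ℕ)}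

@[simp] theorem ap_nil : ap F [] = [] := rfl
theorem ap_cons (c : ℕ) (y : List ℕ) : ap F (c :: y) = F.getD c [] ++ ap F y := by simp [ap]
theorem ap_append (y z : List ℕ) : ap F (y ++ z) = ap F y ++ ap F z := by simp [ap]
theorem ap_single (c : ℕ) : ap F [c] = F.getD c [] := by simp [ap]
theorem mem_ap {y : List ℕ} {d : ℕ} : d ∈ ap F y ↔ ∃ c ∈ y, d ∈ F.getD c [] := by simp [ap]

@[simp] theorem apk_zero (y : List ℕ) : apk F 0 y = y := rfl
theorem apk_succ (k : ℕ) (y : List ℕ) : apk F (k + 1) y = ap F (apk F k y) :=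
  Function.iterate_succ_apply' _ _ _
theorem apk_succ' (k : ℕ) (y : List ℕ) : apk F (k + 1) y = apk F k (ap F y) :=
  Function.iterate_succ_apply _ _ _
theorem apk_add (k j : ℕ) (y : List ℕ) : apk F (k + j) y = apk F k (apk F j y) :=
  Function.iterate_add_apply _ _ _ _
@[simp] theorem apk_nil (k : ℕ) : apk F k [] = [] := by
  induction k with
  | zero => rfl
  | succ k ih => rw [apk_succ, ih, ap_nil]
theorem apk_append (k : ℕ) (y z : List ℕ) : apk F k (y ++ z) = apk F k y ++ apk F k z := by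
  induction k with
  | zero => rfl
  | succ k ih => rw [apk_succ, ih, ap_append, apk_succ, apk_succ]
theorem apk_cons (k c : ℕ) (y : List ℕ) : apk F k (c :: y) = apk F k [c] ++ apk F k y := by
  rw [← apk_append]; rfl
theorem mem_apk {k : ℕ} {y : List ℕ} {d : ℕ} : d ∈ apk F k y ↔ ∃ c ∈ y, d ∈ apk F k [c] := by
  induction y with
  | nil => simp
  | cons c y ih => rw [apk_cons, List.mem_append, ih]; simp

theorem ap_prefix {y z : List ℕ} (h : y <+: z) : ap F y <+: ap F z := by
  obtain ⟨t, rfl⟩ := h; rw [ap_append]; exact List.prefix_append _ _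
theorem apk_prefix (k : ℕ) {y z : List ℕ} (h : y <+: z) : apk F k y <+: apk F k z := by
  obtain ⟨t, rfl⟩ := h; rw [apk_append]; exact List.prefix_append _ _
theorem apk_infix (k : ℕ) {y z : List ℕ} (h : y <:+: z) : apk F k y <:+: apk F k z := by
  obtain ⟨s, t, rfl⟩ := h; rw [apk_append, apk_append]; exact ⟨_, _, rfl⟩

theorem apk_len_le (k Bd : ℕ) (y : List ℕ) (h : ∀ c ∈ y, (apk F k [c]).length ≤ Bd) :
    (apk F k y).length ≤ Bd * y.length := by
  induction y with
  | nil => simp
  | cons c y ih =>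
    rw [apk_cons, List.length_append, List.length_cons, Nat.mul_succ]
    have h1 := h c (by simp)
    have h2 := ih (fun d hd => h d (by simp [hd]))
    omega

theorem exists_M (F : List (List ℕ)) : ∃ M, 1 ≤ M ∧ ∀ c, (F.getD c []).length ≤ M := by
  refine ⟨(F.map List.length).sum + 1, by omega, fun c => ?_⟩
  by_cases h : c < F.length
  · have : (F.getD c []).length ∈ F.map List.length :=
      List.mem_map.2 ⟨_, by rw [List.getD_eq_getElem _ _ h]; exact List.getElem_mem h, rfl⟩
    have := List.single_le_sum (l := F.map List.length) (by simp) _ this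
    omega
  · rw [List.getD_eq_default _ _ (by omega)]; simp

theorem ap_len_le {M : ℕ} (hM : ∀ c, (F.getD c []).length ≤ M) (y : List ℕ) :
    (ap F y).length ≤ M * y.length :=
  apk_len_le (F := F) 1 M y (fun c _ => by
    show (ap F [c]).length ≤ M
    rw [ap_single]; exact hM c)

theorem apk_len_pow {M : ℕ} (hM : ∀ c, (F.getD c []).length ≤ M) (k : ℕ) (y : List ℕ) :
    (apk F k y).length ≤ M ^ k * y.length := by
  induction k with
  | zero => simp
  | succ k ih =>
    rw [apk_succ]
    calc _ ≤ M * (apk F k y).length := ap_len_le hM _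
      _ ≤ M * (M ^ k * y.length) := Nat.mul_le_mul_left _ ih
      _ = _ := by ring

theorem ap_len_ge (y : List ℕ) (h : ∀ c ∈ y, F.getD c [] ≠ []) : y.length ≤ (ap F y).length := by
  induction y with
  | nil => simp
  | cons c y ih =>
    rw [ap_cons, List.length_append, List.length_cons]
    have h1 := List.length_pos_of_ne_nil (h c (by simp))
    have h2 := ih (fun d hd => h d (by simp [hd]))
    omega

theorem apk_lt {s : ℕ} (hF : ∀ c < s, ∀ d ∈ F.getD c [], d < s) (k : ℕ) (y : List ℕ)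
    (hy : ∀ c ∈ y, c < s) : ∀ d ∈ apk F k y, d < s := by
  induction k with
  | zero => exact hy
  | succ k ih =>
    intro d hd
    rw [apk_succ, mem_ap] at hd
    obtain ⟨c, hc, hd⟩ := hd
    exact hF c (ih c hc) d hd

theorem ap_split {y al be : List ℕ} {x : ℕ} (h : ap F y = al ++ x :: be) :
    ∃ y1 c y2 f1 f2, y = y1 ++ c :: y2 ∧ F.getD c [] = f1 ++ x :: f2 ∧ al = ap F y1 ++ f1 ∧
      be = f2 ++ ap F y2 := by
  induction y generalizing al with
  | nil => simp at h
  | cons c y ih =>
    rw [ap_cons, List.append_eq_append_iff] at h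
    rcases h with ⟨a', h1, h2⟩ | ⟨c', h1, h2⟩
    · obtain ⟨y1, c1, y2, f1, f2, e1, e2, e3, e4⟩ := ih h2
      refine ⟨c :: y1, c1, y2, f1, f2, by simp [e1], e2, ?_, e4⟩
      rw [h1, e3, ap_cons, List.append_assoc]
    · cases c' with
      | nil =>
        simp only [List.append_nil, List.nil_append] at h1 h2
        obtain ⟨y1, c1, y2, f1, f2, e1, e2, e3, e4⟩ := ih (al := []) (by simpa using h2.symm)
        refine ⟨c :: y1, c1, y2, f1, f2, by simp [e1], e2, ?_, e4⟩
        rw [ap_cons, List.append_assoc, ← e3, h1, List.append_nil]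
      | cons x' c' =>
        simp only [List.cons_append, List.cons.injEq] at h2
        obtain ⟨rfl, h2⟩ := h2
        exact ⟨[], c, y, al, c', rfl, h1, by simp, h2⟩

end lists

section segs
variable {w : ℕ → ℕ}

@[simp] theorem seg_length (p m : ℕ) : (seg w p m).length = m := by simp [seg]
@[simp] theorem seg_zero (p : ℕ) : seg w p 0 = [] := rfl
theorem seg_add (p m n : ℕ) : seg w p (m + n) = seg w p m ++ seg w (p + m) n := by
  simp [seg, List.range_add, Function.comp_def, add_assoc]
theorem seg_one (p : ℕ) : seg w p 1 = [w p] := by simp [seg]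
theorem seg_succ' (p m : ℕ) : seg w p (m + 1) = w p :: seg w (p + 1) m := by
  rw [add_comm m 1, seg_add, seg_one]; rfl
theorem seg_succ (p m : ℕ) : seg w p (m + 1) = seg w p m ++ [w (p + m)] := by
  rw [seg_add, seg_one]
theorem seg_getD {p m t : ℕ} (h : t < m) : (seg w p m).getD t 0 = w (p + t) := by
  rw [List.getD_eq_getElem _ _ (by simpa using h)]; simp [seg]
theorem mem_seg {p m c : ℕ} : c ∈ seg w p m ↔ ∃ t < m, w (p + t) = c := by simp [seg]
theorem seg_eq_iff {p q m : ℕ} : seg w p m = seg w q m ↔ ∀ t < m, w (p + t) = w (q + t) := by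
  simp [seg]
theorem seg_take {p m n : ℕ} (h : n ≤ m) : (seg w p m).take n = seg w p n := by
  obtain ⟨k, rfl⟩ := Nat.exists_eq_add_of_le h
  rw [seg_add, List.take_left' (by simp)]
theorem seg_drop {p m n : ℕ} (h : n ≤ m) : (seg w p m).drop n = seg w (p + n) (m - n) := by
  obtain ⟨k, rfl⟩ := Nat.exists_eq_add_of_le h
  rw [seg_add, List.drop_left' (by simp)]; simp
theorem seg_mono {p q m n : ℕ} (h : seg w p m = seg w q m) (hn : n ≤ m) :
    seg w p n = seg w q n := by
  rw [← seg_take hn, h, seg_take hn]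

theorem occ_seg (p m : ℕ) : Occ w p (seg w p m) := by simp [Occ]
theorem occ_iff {p : ℕ} {y : List ℕ} : Occ w p y ↔ ∀ t < y.length, w (p + t) = y.getD t 0 := by
  constructor
  · intro h t ht
    rw [← seg_getD (w := w) (p := p) ht, h]
  · intro h
    apply List.ext_getElem (by simp)
    intro t h1 h2
    have := h t h2
    rw [List.getD_eq_getElem _ _ h2] at this
    simp [seg, this]
theorem occ_append {p : ℕ} {y z : List ℕ} :
    Occ w p (y ++ z) ↔ Occ w p y ∧ Occ w (p + y.length) z := by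
  unfold Occ
  rw [List.length_append, seg_add]
  constructor
  · intro h; exact List.append_inj h (by simp)
  · rintro ⟨h1, h2⟩; rw [h1, h2]
theorem Occ.pre {p : ℕ} {y z : List ℕ} (h : Occ w p z) (hy : y <+: z) : Occ w p y := by
  obtain ⟨t, rfl⟩ := hy; exact (occ_append.1 h).1
theorem Occ.take {p m : ℕ} {y : List ℕ} (h : Occ w p y) (hm : m ≤ y.length) :
    y.take m = seg w p m := by
  have := seg_take (w := w) (p := p) hm
  rwa [h] at this
theorem Occ.drop {p m : ℕ} {y : List ℕ} (h : Occ w p y) (hm : m ≤ y.length) :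
    Occ w (p + m) (y.drop m) := by
  have := (occ_append (y := y.take m) (z := y.drop m)).1 (by rwa [List.take_append_drop])
  simpa [min_eq_left hm] using this.2
theorem Occ.prefix_of_le {p : ℕ} {y z : List ℕ} (h1 : Occ w p y) (h2 : Occ w p z)
    (h : y.length ≤ z.length) : y <+: z := by
  rw [List.prefix_iff_eq_take, h2.take h]; exact h1.symm
theorem Occ.eq_of_len {p : ℕ} {y z : List ℕ} (h1 : Occ w p y) (h2 : Occ w p z)
    (h : y.length = z.length) : y = z := by
  rw [← h1, ← h2, h]
theorem Occ.move {p q m : ℕ} {y : List ℕ} (h : Occ w p y) (e : seg w p m = seg w q m)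
    (hm : y.length ≤ m) : Occ w q y := by
  unfold Occ at *; rw [← seg_mono e hm, h]
theorem Occ.infx {p : ℕ} {y z : List ℕ} (h : Occ w p z) (hy : y <:+: z) :
    ∃ q, p ≤ q ∧ q + y.length ≤ p + z.length ∧ Occ w q y := by
  obtain ⟨s, t, rfl⟩ := hy
  rw [occ_append, occ_append] at h
  exact ⟨p + s.length, by omega, by simp; omega, h.1.2⟩
theorem occ_single {p c : ℕ} : Occ w p [c] ↔ w p = c := by simp [Occ, seg_one]
theorem Occ.mem {p c : ℕ} {y : List ℕ} (h : Occ w p y) (hc : c ∈ y) :
    ∃ t < y.length, w (p + t) = c := by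
  rw [← h] at hc; exact mem_seg.1 hc

end segs

/-- `w` is the infinite fixed point generated from `a` -/
structure Fx (F : List (List ℕ)) (a : ℕ) (w : ℕ → ℕ) : Prop where
  head : ∃ s, F.getD a [] = a :: s
  unb : ∀ m, ∃ n, m < (it F a n).length
  occ : ∀ n, Occ w 0 (it F a n)

theorem it_succ (F : List (List ℕ)) (a n : ℕ) : it F a (n + 1) = ap F (it F a n) := apk_succ _ _

theorem it_pre {F : List (List ℕ)} {a : ℕ} (h : ∃ s, F.getD a [] = a :: s) (n : ℕ) :
    it F a n <+: it F a (n + 1) := by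
  obtain ⟨s, hs⟩ := h
  unfold it
  rw [apk_succ', ap_single, hs]
  exact apk_prefix n ⟨s, rfl⟩

theorem it_pre' {F : List (List ℕ)} {a : ℕ} (h : ∃ s, F.getD a [] = a :: s) {n m : ℕ}
    (hnm : n ≤ m) : it F a n <+: it F a m := by
  induction m, hnm using Nat.le_induction with
  | base => exact List.prefix_rfl
  | succ m _ ih => exact ih.trans (it_pre h m)

theorem exists_fx {F : List (List ℕ)} {a : ℕ} (h : ∃ s, F.getD a [] = a :: s)
    (unb : ∀ m, ∃ n, m < (it F a n).length) : ∃ w, Fx F a w := by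
  choose N hN using unb
  refine ⟨fun i => (it F a (N i)).getD i 0, h, fun m => ⟨N m, hN m⟩, fun n => ?_⟩
  rw [occ_iff]
  intro t ht
  simp only [zero_add]
  have key : ∀ {y z : List ℕ}, y <+: z → t < y.length → y.getD t 0 = z.getD t 0 := by
    rintro y z ⟨r, rfl⟩ hy
    rw [List.getD_append _ _ _ _ hy]
  rcases le_total n (N t) with h1 | h1
  · exact (key (it_pre' h h1) ht).symm
  · exact key (it_pre' h h1) (hN t)

def ph (F : List (List ℕ)) (w : ℕ → ℕ) (k i : ℕ) : ℕ := (apk F k (seg w 0 i)).length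

namespace Fx
variable {F : List (List ℕ)} {a : ℕ} {w : ℕ → ℕ}

theorem w0 (H : Fx F a w) : w 0 = a := occ_single.1 (H.occ 0)

theorem pre_it (H : Fx F a w) {y : List ℕ} (h : Occ w 0 y) : ∃ n, ∀ m, n ≤ m → y <+: it F a m := by
  obtain ⟨n, hn⟩ := H.unb y.length
  exact ⟨n, fun m hm => (h.prefix_of_le (H.occ n) hn.le).trans (it_pre' H.head hm)⟩

theorem pre (H : Fx F a w) (k : ℕ) {y : List ℕ} (h : Occ w 0 y) : Occ w 0 (apk F k y) := by
  obtain ⟨n, hn⟩ := H.pre_it h
  have := apk_prefix (F := F) k (hn n le_rfl)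
  unfold it at this
  rw [← apk_add] at this
  exact (H.occ (k + n)).pre this

theorem ph_add (k p m : ℕ) : ph F w k (p + m) = ph F w k p + (apk F k (seg w p m)).length := by
  unfold ph; rw [seg_add, apk_append, List.length_append, zero_add]

@[simp] theorem ph_zero (k : ℕ) : ph F w k 0 = 0 := by simp [ph]

theorem ph_mono (k : ℕ) : Monotone (ph F w k) := by
  intro p q h
  obtain ⟨m, rfl⟩ := Nat.exists_eq_add_of_le h
  rw [ph_add]; omega

theorem img (H : Fx F a w) (k : ℕ) {p : ℕ} {y : List ℕ} (h : Occ w p y) :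
    Occ w (ph F w k p) (apk F k y) := by
  have h1 := H.pre k (occ_seg (w := w) 0 (p + y.length))
  rw [seg_add, zero_add, h, apk_append, occ_append, zero_add] at h1
  exact h1.2

theorem lt_ph (H : Fx F a w) {i : ℕ} (hi : 1 ≤ i) : i < ph F w 1 i := by
  by_contra hc
  push Not at hc
  have key : ∀ n, (apk F n (seg w 0 i)).length ≤ i := by
    intro n
    induction n with
    | zero => simp
    | succ n ih =>
      have h1 : apk F n (seg w 0 i) <+: seg w 0 i :=
        (H.pre n (occ_seg 0 i)).prefix_of_le (occ_seg 0 i) (by simpa using ih)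
      rw [apk_succ]
      exact (ap_prefix h1).length_le.trans hc
  obtain ⟨n, hn⟩ := H.unb i
  have h2 : [a] <+: seg w 0 i := (H.occ 0).prefix_of_le (occ_seg 0 i) (by simpa [it] using hi)
  have := (apk_prefix (F := F) n h2).length_le
  have := key n
  unfold it at hn
  omega

theorem le_ph (H : Fx F a w) (k i : ℕ) : i ≤ ph F w k i := by
  induction k with
  | zero => simp [ph]
  | succ k ih =>
    have e : ph F w (k + 1) i = ph F w 1 (ph F w k i) := by
      have h1 : seg w 0 (ph F w k i) = apk F k (seg w 0 i) := H.pre k (occ_seg 0 i)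
      conv_rhs => unfold ph
      have h2 : (apk F k (seg w 0 i)).length = ph F w k i := rfl
      rw [h2, h1, ← apk_add, add_comm]; rfl
    rw [e]
    rcases Nat.eq_zero_or_pos (ph F w k i) with h | h
    · omega
    · have := H.lt_ph h; omega

theorem letter (H : Fx F a w) {s : ℕ} (ha : a < s) (hF : ∀ c < s, ∀ d ∈ F.getD c [], d < s)
    (i : ℕ) : w i < s := by
  obtain ⟨n, hn⟩ := H.unb i
  have h1 := H.occ n
  refine apk_lt hF n [a] (by simpa using ha) _ ?_
  change w i ∈ it F a n
  rw [← h1]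
  exact mem_seg.2 ⟨i, hn, by simp⟩

end Fx

def Cov (w : ℕ → ℕ) (x : List ℕ) : Prop := ∀ i, ∃ j, j ≤ i ∧ i < j + x.length ∧ Occ w j x

def QP (w : ℕ → ℕ) : Prop := ∃ x, Cov w x

def Gap (w : ℕ → ℕ) (a : ℕ) : Prop := ∃ G, ∀ p, ∃ t < G, w (p + t) = a

theorem Cov.occ0 {w : ℕ → ℕ} {x : List ℕ} (h : Cov w x) : Occ w 0 x ∧ 0 < x.length := by
  obtain ⟨j, h1, h2, h3⟩ := h 0
  obtain rfl : j = 0 := by omega
  exact ⟨h3, by omega⟩

theorem QP.gap {w : ℕ → ℕ} (h : QP w) : Gap w (w 0) := by
  obtain ⟨x, hx⟩ := h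
  refine ⟨x.length + 1, fun p => ?_⟩
  obtain ⟨j, h1, h2, h3⟩ := hx (p + x.length)
  refine ⟨j - p, by omega, ?_⟩
  have e1 := occ_iff.1 h3 0 hx.occ0.2
  have e2 := occ_iff.1 hx.occ0.1 0 hx.occ0.2
  rw [show p + (j - p) = j + 0 by omega, e1, ← e2]

theorem finite_words (s g : ℕ) : {z : List ℕ | z.length ≤ g ∧ ∀ c ∈ z, c < s}.Finite := by
  have h : (List.map (Fin.val : Fin s → ℕ) '' {l : List (Fin s) | l.length ≤ g}).Finite :=
    (List.finite_length_le (Fin s) g).image _
  refine h.subset ?_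
  rintro z ⟨h1, h2⟩
  refine ⟨z.attach.map (fun c => ⟨c.1, h2 c.1 c.2⟩), by simpa using h1, ?_⟩
  simp [List.map_map, Function.comp_def]

end Pool.Agent.H17.Qp
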