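import Pool.Agent.H17.Qp1

set_option autoImplicit false

namespace Pool.Agent.H17.Qp

/-- finite certificate that `w` factors over the return words `Th` of `u`, with derived morphism `h` -/
def RS (F : List (List ℕ)) (a : ℕ) (u : List ℕ) (Th h : List (List ℕ)) (n : ℕ) : Prop :=
  (∀ al ∈ List.range Th.length, Th.getD al [] ≠ [] ∧ u <+: Th.getD al [] ++ u ∧
      (∀ be ∈ h.getD al [], be < Th.length) ∧ ap F (Th.getD al []) = ap Th (h.getD al [])) ∧
    0 < Th.length ∧ [0] <+: h.getD 0 [] ∧ Th.getD 0 [] <+: it F a n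

structure CS (w : ℕ → ℕ) (Th : List (List ℕ)) (u : List ℕ) (D p : ℕ → ℕ) : Prop where
  p0 : p 0 = 0
  padd : ∀ i d, p (i + d) = p i + (ap Th (seg D i d)).length
  oc : ∀ i, Occ w (p i) (Th.getD (D i) [] ++ u)
  ou : ∀ i, Occ w (p i) u
  lt : ∀ i, D i < Th.length
  ne : ∀ al < Th.length, Th.getD al [] ≠ []

section
variable {F : List (List ℕ)} {a : ℕ} {w : ℕ → ℕ} {u : List ℕ} {Th h : List (List ℕ)} {n : ℕ}

theorem RS.comm (R : RS F a u Th h n) (z : List ℕ) (hz : ∀ c ∈ z, c < Th.length) :
    ap F (ap Th z) = ap Th (ap h z) := by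
  induction z with
  | nil => simp
  | cons c z ih =>
    rw [ap_cons, ap_cons, ap_append, ap_append, ih (fun d hd => hz d (by simp [hd])),
      (R.1 c (List.mem_range.2 (hz c (by simp)))).2.2.2]

theorem RS.hlt (R : RS F a u Th h n) : ∀ c < Th.length, ∀ d ∈ h.getD c [], d < Th.length :=
  fun c hc => (R.1 c (List.mem_range.2 hc)).2.2.1

theorem RS.it_eq (R : RS F a u Th h n) (k : ℕ) :
    apk F k (Th.getD 0 []) = ap Th (it h 0 k) := by
  induction k with
  | zero => simp [it, ap_single]
  | succ k ih =>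
    rw [apk_succ, ih, it_succ, R.comm]
    exact apk_lt R.hlt k [0] (by simpa using R.2.1)

theorem RS.exists_D (H : Fx F a w) (R : RS F a u Th h n) : ∃ D, Fx h 0 D := by
  refine exists_fx ?_ fun m => ?_
  · obtain ⟨t, ht⟩ := R.2.2.1
    exact ⟨t, ht.symm⟩
  · obtain ⟨M, hM1, hM⟩ := exists_M Th
    obtain ⟨k, hk⟩ := H.unb (M * m)
    refine ⟨k, ?_⟩
    have h0 : Occ w 0 (Th.getD 0 []) := (H.occ n).pre R.2.2.2
    have h1 : [a] <+: Th.getD 0 [] := (H.occ 0).prefix_of_le h0
      (List.length_pos_of_ne_nil (R.1 0 (List.mem_range.2 R.2.1)).1)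
    have h2 := (apk_prefix (F := F) k h1).length_le
    rw [R.it_eq] at h2
    have h3 := ap_len_le hM (it h 0 k)
    unfold it at hk
    by_contra hc
    push Not at hc
    have := Nat.mul_le_mul_left M hc
    omega

theorem RS.upre (R : RS F a u Th h n) (z : List ℕ) (hz : ∀ c ∈ z, c < Th.length) :
    u <+: ap Th z ++ u := by
  induction z with
  | nil => simp
  | cons c z ih =>
    rw [ap_cons, List.append_assoc]
    exact (R.1 c (List.mem_range.2 (hz c (by simp)))).2.1.trans
      ((List.prefix_append_right_inj _).2 (ih (fun d hd => hz d (by simp [hd]))))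

theorem RS.cs (H : Fx F a w) (R : RS F a u Th h n) {D : ℕ → ℕ} (HD : Fx h 0 D) :
    CS w Th u D (fun i => (ap Th (seg D 0 i)).length) := by
  have hlt : ∀ i, D i < Th.length := HD.letter R.2.1 R.hlt
  have hne : ∀ al < Th.length, Th.getD al [] ≠ [] := fun al hal => (R.1 al (List.mem_range.2 hal)).1
  have hseg : ∀ i m, ∀ c ∈ seg D i m, c < Th.length := by
    intro i m c hc
    obtain ⟨t, -, rfl⟩ := mem_seg.1 hc
    exact hlt _
  have h0 : Occ w 0 (Th.getD 0 []) := (H.occ n).pre R.2.2.2
  have h1 : ∀ i, Occ w 0 (ap Th (seg D 0 i)) := by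
    intro i
    obtain ⟨k, hk⟩ := HD.pre_it (occ_seg 0 i)
    have := H.pre k h0
    rw [R.it_eq] at this
    exact this.pre (ap_prefix (hk k le_rfl))
  have h2 : ∀ i m, Occ w (ap Th (seg D 0 i)).length (ap Th (seg D i m)) := by
    intro i m
    have := h1 (i + m)
    rw [seg_add, ap_append, occ_append, zero_add, zero_add] at this
    exact this.2
  have h3 : ∀ i, Occ w (ap Th (seg D 0 i)).length u := by
    intro i
    refine (h2 i u.length).pre ?_
    have e1 := R.upre _ (hseg i u.length)
    have e2 := ap_len_ge (F := Th) (seg D i u.length) (fun c hc => hne c (hseg _ _ c hc))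
    exact List.prefix_of_prefix_length_le e1 (List.prefix_append _ _) (by simpa using e2)
  refine ⟨by simp, fun i d => ?_, fun i => ?_, h3, hlt, hne⟩
  · rw [seg_add, ap_append, List.length_append, zero_add]
  · rw [occ_append]
    have e1 := h2 i 1
    rw [seg_one, ap_single] at e1
    refine ⟨e1, ?_⟩
    have e2 := h3 (i + 1)
    rwa [seg_add, ap_append, List.length_append, zero_add, seg_one, ap_single] at e2

namespace CS
variable {D p : ℕ → ℕ}

theorem ps (C : CS w Th u D p) (i : ℕ) : p (i + 1) = p i + (Th.getD (D i) []).length := by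
  rw [C.padd, seg_one, ap_single]

theorem smono (C : CS w Th u D p) : StrictMono p := by
  refine strictMono_nat_of_lt_succ fun i => ?_
  have := List.length_pos_of_ne_nil (C.ne _ (C.lt i))
  rw [C.ps]; omega

theorem find (C : CS w Th u D p) (t : ℕ) : ∃ i, p i ≤ t ∧ t < p (i + 1) := by
  induction t with
  | zero => exact ⟨0, C.p0.le, by have := C.smono (show 0 < 0 + 1 by omega); omega⟩
  | succ t ih =>
    obtain ⟨i, h1, h2⟩ := ih
    by_cases h3 : t + 1 < p (i + 1)
    · exact ⟨i, by omega, h3⟩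
    · exact ⟨i + 1, by omega, by have := C.smono (show i + 1 < i + 1 + 1 by omega); omega⟩

theorem cov (C : CS w Th u D p) (hl : ∀ al < Th.length, (Th.getD al []).length ≤ u.length) :
    Cov w u := by
  intro t
  obtain ⟨i, h1, h2⟩ := C.find t
  refine ⟨p i, h1, ?_, C.ou i⟩
  have := hl _ (C.lt i)
  rw [C.ps] at h2; omega

end CS

/-- no occurrence of `u` strictly inside a return word -/
def C1 (Th : List (List ℕ)) (u : List ℕ) : Prop :=
  ∀ al ∈ List.range Th.length, ∀ j ∈ List.range (Th.getD al []).length,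
    j ≠ 0 → ¬ u <+: (Th.getD al [] ++ u).drop j

def Cmp (Th : List (List ℕ)) (u : List ℕ) (al be : ℕ) (z : List ℕ) : Prop :=
  (ap Th (al :: z)).length ≤ (Th.getD al [] ++ u).length ∧
  (ap Th (al :: z)).length ≤ (Th.getD be [] ++ u).length ∧
  (Th.getD al [] ++ u).take (ap Th (al :: z)).length =
    (Th.getD be [] ++ u).take (ap Th (al :: z)).length

theorem C1.inner (c : C1 Th u) {al q j : ℕ} (hal : al < Th.length)
    (ho : Occ w q (Th.getD al [] ++ u)) (h0 : 0 < j) (hj : j < (Th.getD al []).length) :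
    ¬ Occ w (q + j) u := by
  intro hu
  refine c al (List.mem_range.2 hal) j (List.mem_range.2 hj) (by omega) ?_
  exact hu.prefix_of_le (ho.drop (by rw [List.length_append]; omega))
    (by rw [List.length_drop, List.length_append]; omega)

theorem CS.occ_range {D p : ℕ → ℕ} (C : CS w Th u D p) (c : C1 Th u) {q : ℕ} (hq : Occ w q u) :
    ∃ i, p i = q := by
  obtain ⟨i, h1, h2⟩ := C.find q
  by_cases h3 : p i = q
  · exact ⟨i, h3⟩
  · exfalso
    rw [C.ps] at h2
    refine c.inner (j := q - p i) (C.lt i) (C.oc i) (by omega) (by omega) ?_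
    rwa [show p i + (q - p i) = q by omega]

theorem C1.noPre (c : C1 Th u) (hne : ∀ al < Th.length, Th.getD al [] ≠ []) {al be q : ℕ}
    (hal : al < Th.length) (hbe : be < Th.length) (h1 : Occ w q (Th.getD al [] ++ u))
    (h2 : Occ w q (Th.getD be [] ++ u)) : Th.getD al [] = Th.getD be [] := by
  rcases lt_trichotomy (Th.getD al []).length (Th.getD be []).length with h | h | h
  · exact absurd (occ_append.1 h1).2
      (c.inner hbe h2 (List.length_pos_of_ne_nil (hne _ hal)) h)
  · exact (occ_append.1 h1).1.eq_of_len (occ_append.1 h2).1 h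
  · exact absurd (occ_append.1 h2).2
      (c.inner hal h1 (List.length_pos_of_ne_nil (hne _ hbe)) h)

theorem transfer {u' : List ℕ} {Th' : List (List ℕ)} {D p p' : ℕ → ℕ} (C : CS w Th u D p)
    (C' : CS w Th' u' D p') (c1 : C1 Th' u')
    (c3 : ∀ al < Th'.length, ∀ be < Th'.length, Th'.getD al [] = Th'.getD be [] →
      Th.getD al [] = Th.getD be [])
    (c4 : ∀ al < Th'.length, ∀ be < Th'.length, ∀ z : List ℕ, z.length ≤ u'.length →
      (∀ c ∈ z, c < Th'.length) → Cmp Th' u' al be z → Cmp Th u al be z) (d : ℕ) :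
    ∀ i j, seg w (p' i) (ap Th' (seg D i d)).length = seg w (p' j) (ap Th' (seg D i d)).length →
      seg w (p i) (ap Th (seg D i d)).length = seg w (p j) (ap Th (seg D i d)).length := by
  induction d with
  | zero => intro i j _; simp
  | succ d ih =>
    intro i j e
    by_cases hc : Th'.getD (D i) [] = Th'.getD (D j) []
    · have hc2 := c3 _ (C'.lt i) _ (C'.lt j) hc
      rw [seg_succ', ap_cons, List.length_append, seg_add, seg_add] at e ⊢
      have e2 := (List.append_inj e (by simp)).2
      rw [← C'.ps, hc, ← C'.ps] at e2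
      have e3 := ih _ _ e2
      rw [← C.ps, e3, (occ_append.1 (C.oc i)).1, hc2, (occ_append.1 (C.oc j)).1, ← C.ps]
    · rw [seg_succ'] at e ⊢
      have b1 : (ap Th' (D i :: seg D (i + 1) d)).length ≤ (Th'.getD (D i) [] ++ u').length := by
        by_contra hb
        exact hc (c1.noPre C'.ne (C'.lt i) (C'.lt j) ((C'.oc i).move e (by omega)) (C'.oc j))
      have b2 : (ap Th' (D i :: seg D (i + 1) d)).length ≤ (Th'.getD (D j) [] ++ u').length := by
        by_contra hb
        exact hc (c1.noPre C'.ne (C'.lt i) (C'.lt j) (C'.oc i) ((C'.oc j).move e.symm (by omega)))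
      have hz : ∀ c ∈ seg D (i + 1) d, c < Th'.length := by
        intro c hc
        obtain ⟨t, -, rfl⟩ := mem_seg.1 hc
        exact C'.lt _
      have hl := ap_len_ge (F := Th') (seg D (i + 1) d) (fun c hc => C'.ne c (hz c hc))
      have b3 := b1
      rw [ap_cons, List.length_append, List.length_append] at b3
      obtain ⟨k1, k2, k3⟩ := c4 _ (C'.lt i) _ (C'.lt j) (seg D (i + 1) d) (by omega) hz
        ⟨b1, b2, by rw [(C'.oc i).take b1, (C'.oc j).take b2, e]⟩
      rwa [(C.oc i).take k1, (C.oc j).take k2] at k3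

theorem not_qp_of {u' : List ℕ} {Th' : List (List ℕ)} {D p p' : ℕ → ℕ} (C : CS w Th u D p)
    (C' : CS w Th' u' D p') (c1 : C1 Th' u')
    (c2 : ∀ al < Th'.length, (Th.getD al []).length < (Th'.getD al []).length)
    (c3 : ∀ al < Th'.length, ∀ be < Th'.length, Th'.getD al [] = Th'.getD be [] →
      Th.getD al [] = Th.getD be [])
    (c4 : ∀ al < Th'.length, ∀ be < Th'.length, ∀ z : List ℕ, z.length ≤ u'.length →
      (∀ c ∈ z, c < Th'.length) → Cmp Th' u' al be z → Cmp Th u al be z)
    (c5 : ∀ l < u'.length, ¬ Cov w (seg w 0 l)) : ¬ QP w := by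
  classical
  rintro ⟨x0, hx0⟩
  have ex : ∃ q, 0 < q ∧ ∃ x, Cov w x ∧ Occ w q x := by
    obtain ⟨j, h1, h2, h3⟩ := hx0 x0.length
    exact ⟨j, by omega, x0, hx0, h3⟩
  obtain ⟨hq0, x, hx, hqx⟩ := Nat.find_spec ex
  have hmin := fun m => Nat.find_min' ex (m := m)
  set q := Nat.find ex
  have hx00 := hx.occ0.1
  have hl : u'.length ≤ x.length := by
    by_contra hc
    refine c5 x.length (by omega) ?_
    rwa [hx00]
  have hux : u' <+: x := by
    have := C'.ou 0
    rw [C'.p0] at this
    exact this.prefix_of_le hx00 hl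
  have hr : ∀ t, Occ w t x → ∃ i, p' i = t := fun t ht => C'.occ_range c1 (ht.pre hux)
  have hd : ∀ i d, (ap Th (seg D i d)).length + d ≤ (ap Th' (seg D i d)).length := by
    intro i d
    induction d with
    | zero => simp
    | succ d ih =>
      have := c2 _ (C'.lt (i + d))
      rw [seg_succ, ap_append, ap_append, ap_single, ap_single, List.length_append,
        List.length_append]
      omega
  have hn : ∀ j, Occ w (p' j) x → ∃ d, 0 < d ∧ Occ w (p' (j + d)) x ∧
      (ap Th' (seg D j d)).length ≤ x.length := by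
    intro j hj
    obtain ⟨t, h1, h2, h3⟩ := hx (p' j + x.length)
    obtain ⟨i, rfl⟩ := hr t h3
    have hji : j < i := C'.smono.lt_iff_lt.1 (by omega)
    obtain ⟨d, rfl⟩ := Nat.exists_eq_add_of_le hji.le
    refine ⟨d, by omega, h3, ?_⟩
    rw [C'.padd] at h1; omega
  choose! nx hnx using hn
  let S : Set ℕ := {m | ∃ j, Occ w (p' j) x ∧ (ap Th (seg D j (nx j))).length = m}
  have h0J : Occ w (p' 0) x := by rwa [C'.p0]
  have hSne : S.Nonempty := ⟨_, 0, h0J, rfl⟩
  have hSb : BddAbove S := by
    refine ⟨x.length, ?_⟩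
    rintro m ⟨j, hj, rfl⟩
    have := hd j (nx j)
    have := (hnx j hj).2.2
    omega
  obtain ⟨i, hi, hi2⟩ := Nat.sSup_mem hSne hSb
  have hle : ∀ j, Occ w (p' j) x → (ap Th (seg D j (nx j))).length ≤ sSup S :=
    fun j hj => le_csSup hSb ⟨j, hj, rfl⟩
  have hag : ∀ j, Occ w (p' j) x → seg w (p i) (sSup S) = seg w (p j) (sSup S) := by
    intro j hj
    rw [← hi2]
    refine transfer C C' c1 c3 c4 _ i j ?_
    rw [← hi.take (hnx i hi).2.2, ← hj.take (hnx i hi).2.2]
  have hocc : ∀ j, Occ w (p' j) x → Occ w (p j) (seg w 0 (sSup S)) := by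
    intro j hj
    unfold Occ
    rw [seg_length, ← hag j hj, hag 0 h0J, C.p0]
  have hcov : Cov w (seg w 0 (sSup S)) := by
    have key : ∀ t, ∃ j, Occ w (p' j) x ∧ p j ≤ t ∧ t < p (j + nx j) := by
      intro t
      induction t with
      | zero =>
        refine ⟨0, h0J, C.p0.le, ?_⟩
        have := C.smono (show 0 < 0 + nx 0 by have := (hnx 0 h0J).1; omega)
        omega
      | succ t ih =>
        obtain ⟨j, h1, h2, h3⟩ := ih
        by_cases h4 : t + 1 < p (j + nx j)
        · exact ⟨j, h1, by omega, h4⟩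
        · have h5 := (hnx j h1).2.1
          refine ⟨j + nx j, h5, by omega, ?_⟩
          have := C.smono (show j + nx j < j + nx j + nx (j + nx j) by
            have := (hnx _ h5).1; omega)
          omega
    intro t
    obtain ⟨j, h1, h2, h3⟩ := key t
    refine ⟨p j, h2, ?_, hocc j h1⟩
    have := hle j h1
    rw [C.padd] at h3
    simp only [seg_length]; omega
  obtain ⟨j, hj⟩ := hr q hqx
  have hj0 : 0 < j := by
    rcases Nat.eq_zero_or_pos j with rfl | h
    · rw [C'.p0] at hj; omega
    · exact h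
  have h1 := hmin (p j) ⟨by have := C.smono hj0; omega, _, hcov, hocc j (by rwa [hj])⟩
  have h2 := hd 0 j
  have h3 := C.padd 0 j
  have h4 := C'.padd 0 j
  rw [zero_add] at h3 h4
  have := C.p0
  have := C'.p0
  omega

end

end Pool.Agent.H17.Qp
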