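import Pool.Agent.H17.Qp2

set_option autoImplicit false

namespace Pool.Agent.H17.Qp

open Classical

noncomputable def pp (w : ℕ → ℕ) (l : ℕ) : ℕ → ℕ := Nat.nth (fun q => Occ w q (seg w 0 l))

noncomputable def rr (w : ℕ → ℕ) (l i : ℕ) : List ℕ :=
  seg w (pp w l i) (pp w l (i + 1) - pp w l i)

noncomputable def DD (w : ℕ → ℕ) (l i : ℕ) : ℕ :=
  Nat.find (⟨i, rfl⟩ : ∃ i0, rr w l i0 = rr w l i)

noncomputable def mm (F : List (List ℕ)) (w : ℕ → ℕ) (l i : ℕ) : ℕ :=
  Nat.count (fun q => Occ w q (seg w 0 l)) (ph F w 1 (pp w l i))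

noncomputable def hh (F : List (List ℕ)) (w : ℕ → ℕ) (l al : ℕ) : List ℕ :=
  seg (DD w l) (mm F w l al) (mm F w l (al + 1) - mm F w l al)

noncomputable def TH (w : ℕ → ℕ) (l S : ℕ) : List (List ℕ) := (List.range S).map (rr w l)

noncomputable def HH (F : List (List ℕ)) (w : ℕ → ℕ) (l S : ℕ) : List (List ℕ) :=
  (List.range S).map (hh F w l)

def Inf (w : ℕ → ℕ) (l : ℕ) : Prop := {q | Occ w q (seg w 0 l)}.Infinite

section
variable {F : List (List ℕ)} {a : ℕ} {w : ℕ → ℕ} {l S : ℕ}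

theorem pp0 : pp w l 0 = 0 := Nat.nth_zero_of_zero (occ_seg 0 l)
theorem Inf.mono (I : Inf w l) : StrictMono (pp w l) := Nat.nth_strictMono I
theorem Inf.occ (I : Inf w l) (i : ℕ) : Occ w (pp w l i) (seg w 0 l) := Nat.nth_mem_of_infinite I i
theorem pp_range {q : ℕ} (h : Occ w q (seg w 0 l)) : ∃ i, pp w l i = q :=
  ⟨_, Nat.nth_count (p := fun q => Occ w q (seg w 0 l)) h⟩

theorem Inf.next (I : Inf w l) {i q : ℕ} (h : Occ w q (seg w 0 l)) (hq : pp w l i < q) :
    pp w l (i + 1) ≤ q := by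
  obtain ⟨j, rfl⟩ := pp_range h
  exact I.mono.monotone (I.mono.lt_iff_lt.1 hq)

theorem rr_len (i : ℕ) : (rr w l i).length = pp w l (i + 1) - pp w l i := by simp [rr]

theorem Inf.succ (I : Inf w l) (i : ℕ) : pp w l (i + 1) = pp w l i + (rr w l i).length := by
  have := I.mono (show i < i + 1 by omega)
  rw [rr_len]; omega

theorem Inf.rr_pos (I : Inf w l) (i : ℕ) : 0 < (rr w l i).length := by
  have := I.mono (show i < i + 1 by omega)
  rw [rr_len]; omega

theorem Inf.rr_occ (I : Inf w l) (i : ℕ) : Occ w (pp w l i) (rr w l i ++ seg w 0 l) := by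
  rw [occ_append, ← I.succ]
  exact ⟨occ_seg _ _, I.occ _⟩

theorem rr_DD (i : ℕ) : rr w l (DD w l i) = rr w l i :=
  Nat.find_spec (⟨i, rfl⟩ : ∃ i0, rr w l i0 = rr w l i)

theorem DD_le {i i0 : ℕ} (h : rr w l i0 = rr w l i) : DD w l i ≤ i0 := Nat.find_min' _ h

theorem TH_len : (TH w l S).length = S := by simp [TH]

theorem TH_getD {al : ℕ} (h : al < S) : (TH w l S).getD al [] = rr w l al := by
  rw [List.getD_eq_getElem _ _ (by simpa [TH] using h)]; simp [TH]

theorem HH_getD {al : ℕ} (h : al < S) : (HH F w l S).getD al [] = hh F w l al := by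
  rw [List.getD_eq_getElem _ _ (by simpa [HH] using h)]; simp [HH]

theorem Inf.ap_TH (I : Inf w l) (hS : ∀ i, DD w l i < S) (i d : ℕ) :
    ap (TH w l S) (seg (DD w l) i d) = seg w (pp w l i) (pp w l (i + d) - pp w l i) := by
  induction d with
  | zero => simp
  | succ d ih =>
    have h1 := I.mono.monotone (show i ≤ i + d by omega)
    have h2 := I.mono.monotone (show i + d ≤ i + d + 1 by omega)
    rw [seg_succ, ap_append, ih, ap_single, TH_getD (hS _), rr_DD, rr, ← add_assoc,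
      show pp w l (i + d + 1) - pp w l i =
        (pp w l (i + d) - pp w l i) + (pp w l (i + d + 1) - pp w l (i + d)) by omega, seg_add,
      show pp w l i + (pp w l (i + d) - pp w l i) = pp w l (i + d) by omega]

theorem Inf.mm_spec (I : Inf w l) (H : Fx F a w) (i : ℕ) :
    pp w l (mm F w l i) = ph F w 1 (pp w l i) := by
  refine Nat.nth_count (p := fun q => Occ w q (seg w 0 l)) ?_
  refine (H.img 1 (I.occ i)).pre ?_
  exact (occ_seg 0 l).prefix_of_le (H.pre 1 (occ_seg 0 l)) (by rw [seg_length]; exact H.le_ph 1 l)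

theorem Inf.mm_le (I : Inf w l) (H : Fx F a w) (i : ℕ) : mm F w l i ≤ mm F w l (i + 1) := by
  rw [← I.mono.le_iff_le, I.mm_spec H, I.mm_spec H]
  exact Fx.ph_mono 1 (I.mono.monotone (by omega))

theorem Inf.ap_rr (I : Inf w l) (H : Fx F a w) (i : ℕ) :
    pp w l (mm F w l (i + 1)) = pp w l (mm F w l i) + (ap F (rr w l i)).length := by
  rw [I.mm_spec H, I.mm_spec H, I.succ, Fx.ph_add, (occ_append.1 (I.rr_occ i)).1]; rfl

theorem Inf.rs (I : Inf w l) (H : Fx F a w) (hS : ∀ i, DD w l i < S) :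
    ∃ n0, ∀ n, n0 ≤ n → RS F a (seg w 0 l) (TH w l S) (HH F w l S) n := by
  have hS0 : 0 < S := by have := hS 0; omega
  have h0 : Occ w 0 (rr w l 0) := by
    have := (occ_append.1 (I.rr_occ 0)).1
    rwa [pp0] at this
  obtain ⟨n0, hn0⟩ := H.pre_it h0
  refine ⟨n0, fun n hn => ⟨fun al hal => ?_, by rwa [TH_len], ?_, ?_⟩⟩
  · rw [TH_len, List.mem_range] at hal
    rw [TH_getD hal, HH_getD hal, TH_len]
    refine ⟨List.ne_nil_of_length_pos (I.rr_pos al), (I.occ al).prefix_of_le (I.rr_occ al) (by simp),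
      fun be hbe => ?_, ?_⟩
    · obtain ⟨t, -, rfl⟩ := mem_seg.1 hbe
      exact hS _
    · have h1 := I.mm_le H al
      rw [hh, I.ap_TH hS, show mm F w l al + (mm F w l (al + 1) - mm F w l al) = mm F w l (al + 1)
        by omega, I.ap_rr H, Nat.add_sub_cancel_left, I.mm_spec H]
      exact (H.img 1 (occ_append.1 (I.rr_occ al)).1).symm
  · rw [HH_getD hS0, hh]
    have e0 : mm F w l 0 = 0 := by
      apply I.mono.injective
      rw [I.mm_spec H, pp0, Fx.ph_zero]
    have e1 : 0 < mm F w l (0 + 1) := by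
      rw [← I.mono.lt_iff_lt, I.mm_spec H, pp0]
      have h1 := I.mono (show 0 < 0 + 1 by omega)
      have h2 := H.le_ph 1 (pp w l (0 + 1))
      omega
    obtain ⟨k, hk⟩ := Nat.exists_eq_add_of_lt e1
    have e2 : DD w l 0 = 0 := Nat.le_zero.1 (DD_le rfl)
    rw [hk, e0, Nat.sub_zero, zero_add, seg_succ', e2]
    exact ⟨_, rfl⟩
  · rw [TH_getD hS0]; exact hn0 n hn

theorem Inf.c1 (I : Inf w l) : C1 (TH w l S) (seg w 0 l) := by
  intro al hal j hj h0 hp
  rw [TH_len, List.mem_range] at hal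
  rw [TH_getD hal] at hj hp
  rw [List.mem_range] at hj
  have h1 := ((I.rr_occ al).drop (m := j) (by rw [List.length_append]; omega)).pre hp
  have h2 := I.next (i := al) h1 (by omega)
  rw [I.succ] at h2; omega

theorem Inf.same (I : Inf w l) {i i0 : ℕ} (h : Occ w (pp w l i0) (rr w l i ++ seg w 0 l)) :
    rr w l i0 = rr w l i := by
  have c := I.c1 (S := max i i0 + 1)
  have := c.noPre (w := w) (al := i0) (be := i) (q := pp w l i0)
    (fun al hal => by
      rw [TH_len] at hal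
      rw [TH_getD hal]; exact List.ne_nil_of_length_pos (I.rr_pos al))
    (by rw [TH_len]; omega) (by rw [TH_len]; omega)
    (by rw [TH_getD (by omega)]; exact I.rr_occ i0) (by rwa [TH_getD (by omega)])
  rwa [TH_getD (by omega), TH_getD (by omega)] at this

/-- finitely many factors of each length: all of them occur early -/
theorem early {s : ℕ} (hs : ∀ i, w i < s) (g : ℕ) :
    ∃ T, ∀ p, ∃ p', p' + g ≤ T ∧ seg w p' g = seg w p g := by
  have hf : (Set.range fun p => seg w p g).Finite := by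
    refine (finite_words s g).subset ?_
    rintro _ ⟨p, rfl⟩
    refine ⟨by simp, fun c hc => ?_⟩
    obtain ⟨t, -, rfl⟩ := mem_seg.1 hc
    exact hs _
  let rep : List ℕ → ℕ := fun y => if h : ∃ p, seg w p g = y then h.choose else 0
  obtain ⟨T, hT⟩ := (hf.image rep).bddAbove
  refine ⟨T + g, fun p => ⟨rep (seg w p g), ?_, ?_⟩⟩
  · have := hT ⟨_, ⟨p, rfl⟩, rfl⟩
    simpa using this
  · have h : ∃ q, seg w q g = seg w p g := ⟨p, rfl⟩
    simp only [rep, dif_pos h]
    exact h.choose_spec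

theorem win (H : Fx F a w) {k g Bd : ℕ} {y : List ℕ} (hB : ∀ i, (apk F k [w i]).length ≤ Bd)
    (hy : ∀ i, ∃ t < g, y <:+: apk F k [w (i + t)]) (p : ℕ) :
    ∃ q, p ≤ q ∧ q + y.length ≤ p + Bd * (g + 1) ∧ Occ w q y := by
  have ex : ∃ i, p ≤ ph F w k i := ⟨p, H.le_ph k p⟩
  have h1 := Nat.find_spec ex
  have h2 : ph F w k (Nat.find ex) ≤ p + Bd := by
    rcases Nat.eq_zero_or_pos (Nat.find ex) with h | h
    · rw [h, Fx.ph_zero]; omega
    · have h3 := Nat.find_min ex (m := Nat.find ex - 1) (by omega)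
      have h4 := Fx.ph_add (F := F) (w := w) k (Nat.find ex - 1) 1
      rw [show Nat.find ex - 1 + 1 = Nat.find ex by omega, seg_one] at h4
      have := hB (Nat.find ex - 1)
      omega
  set i := Nat.find ex
  obtain ⟨t, ht, hy⟩ := hy i
  have h5 : [w (i + t)] <:+: seg w i g := by
    rw [List.singleton_infix_iff]; exact mem_seg.2 ⟨t, ht, rfl⟩
  obtain ⟨q, e1, e2, e3⟩ := (H.img k (occ_seg i g)).infx (hy.trans (apk_infix k h5))
  have h6 := apk_len_le (F := F) k Bd (seg w i g) (fun c hc => by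
    obtain ⟨t, -, rfl⟩ := mem_seg.1 hc
    exact hB _)
  rw [seg_length] at h6
  refine ⟨q, by omega, ?_, e3⟩
  rw [Nat.mul_succ]; omega

/-- a level adapted to the length `l`, with blocks of length at most `C * l` -/
theorem level (H : Fx F a w) {s : ℕ} (hs : ∀ i, w i < s) :
    ∃ C, ∀ l, 1 ≤ l → ∃ k, l ≤ (it F a k).length ∧ ∀ i, (apk F k [w i]).length ≤ C * l := by
  obtain ⟨M, hM1, hM⟩ := exists_M F
  obtain ⟨T, hT⟩ := early hs 1
  obtain ⟨n, hn⟩ := H.unb T
  refine ⟨M ^ n * M, fun l hl => ?_⟩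
  have ex : ∃ k, l ≤ (it F a k).length := (H.unb l).imp fun k hk => hk.le
  refine ⟨Nat.find ex, Nat.find_spec ex, fun i => ?_⟩
  have h1 : (it F a (Nat.find ex)).length ≤ M * l := by
    rcases Nat.eq_zero_or_pos (Nat.find ex) with h | h
    · rw [h]
      have : 1 * 1 ≤ M * l := Nat.mul_le_mul hM1 hl
      simpa [it] using this
    · have h3 := Nat.find_min ex (m := Nat.find ex - 1) (by omega)
      rw [show Nat.find ex = Nat.find ex - 1 + 1 by omega, it_succ]
      exact (ap_len_le hM _).trans (Nat.mul_le_mul_left _ (by omega))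
  set k := Nat.find ex
  obtain ⟨p', e1, e2⟩ := hT i
  rw [seg_one, seg_one] at e2
  have h2 : [w i] <:+: it F a n := by
    rw [← e2, List.singleton_infix_iff, ← H.occ n]
    exact mem_seg.2 ⟨p', by omega, by simp⟩
  have h3 := (apk_infix (F := F) k h2).length_le
  have h4 : apk F k (it F a n) = apk F n (it F a k) := by
    unfold it; rw [← apk_add, ← apk_add, add_comm]
  rw [h4] at h3
  calc _ ≤ _ := h3
    _ ≤ M ^ n * (it F a k).length := apk_len_pow hM _ _
    _ ≤ M ^ n * (M * l) := Nat.mul_le_mul_left _ h1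
    _ = _ := by ring

theorem lr1 (H : Fx F a w) {s : ℕ} (hs : ∀ i, w i < s) (hG : Gap w a) :
    ∃ K, ∀ l, 1 ≤ l → ∀ p, ∃ q, p ≤ q ∧ q + l ≤ p + K * l ∧ Occ w q (seg w 0 l) := by
  obtain ⟨C, hC⟩ := level H hs
  obtain ⟨G, hG⟩ := hG
  refine ⟨C * (G + 1), fun l hl p => ?_⟩
  obtain ⟨k, h1, h2⟩ := hC l hl
  obtain ⟨q, e1, e2, e3⟩ := win H (g := G) (y := seg w 0 l) h2 (fun i => by
    obtain ⟨t, ht, e⟩ := hG i
    refine ⟨t, ht, ?_⟩
    rw [e]
    exact ((occ_seg 0 l).prefix_of_le (H.occ k) (by simpa using h1)).isInfix) p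
  refine ⟨q, e1, ?_, e3⟩
  rw [seg_length] at e2
  calc _ ≤ _ := e2
    _ = _ := by ring

theorem lr2 (H : Fx F a w) {s : ℕ} (hs : ∀ i, w i < s) (hG : Gap w a) :
    ∃ K, ∀ m, 1 ≤ m → ∀ p, ∃ p', p' + m ≤ K * m ∧ seg w p' m = seg w p m := by
  obtain ⟨C, hC⟩ := level H hs
  obtain ⟨G, hG⟩ := hG
  obtain ⟨T, hT⟩ := early hs (1 + G)
  refine ⟨C * T, fun m hm p => ?_⟩
  obtain ⟨k, h1, h2⟩ := hC m hm
  have ex : ∃ i, p < ph F w k (i + 1) := ⟨p, by have := H.le_ph k (p + 1); omega⟩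
  have e1 := Nat.find_spec ex
  have e2 : ph F w k (Nat.find ex) ≤ p := by
    rcases Nat.eq_zero_or_pos (Nat.find ex) with h | h
    · rw [h, Fx.ph_zero]; omega
    · have h3 := Nat.find_min ex (m := Nat.find ex - 1) (by omega)
      rw [show Nat.find ex - 1 + 1 = Nat.find ex by omega] at h3
      omega
  set i := Nat.find ex
  obtain ⟨t, ht, e⟩ := hG (i + 1)
  have h5 : [a] <:+: seg w (i + 1) G := by
    rw [List.singleton_infix_iff]; exact mem_seg.2 ⟨t, ht, e⟩
  have h6 := (apk_infix (F := F) k h5).length_le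
  have h7 := Fx.ph_add (F := F) (w := w) k (i + 1) G
  have h8 := Fx.ph_add (F := F) (w := w) k i (1 + G)
  rw [← add_assoc] at h8
  obtain ⟨i', f1, f2⟩ := hT i
  have o1 := H.img k (occ_seg i (1 + G))
  have o2 := H.img k (occ_seg i' (1 + G))
  rw [f2] at o2
  have h9 := Fx.ph_add (F := F) (w := w) k i' (1 + G)
  rw [f2] at h9
  have h10 := Fx.ph_mono (F := F) (w := w) k f1
  have h11 : ph F w k T ≤ C * m * T := by
    have := apk_len_le (F := F) k (C * m) (seg w 0 T) (fun c hc => by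
      obtain ⟨t, -, rfl⟩ := mem_seg.1 hc
      exact h2 _)
    rwa [seg_length] at this
  unfold it at h1
  set Y := apk F k (seg w i (1 + G))
  have d1 := (o1.drop (m := p - ph F w k i) (by omega)).take (m := m)
    (by rw [List.length_drop]; omega)
  have d2 := (o2.drop (m := p - ph F w k i) (by omega)).take (m := m)
    (by rw [List.length_drop]; omega)
  refine ⟨ph F w k i' + (p - ph F w k i), ?_, ?_⟩
  · have : C * T * m = C * m * T := by ring
    omega
  · rw [← d2, d1, show ph F w k i + (p - ph F w k i) = p by omega]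

theorem qp_of_period {q : ℕ} (hq : 1 ≤ q) (h : ∀ i, w (i + q) = w i) : QP w := by
  refine ⟨seg w 0 q, fun i => ?_⟩
  have key : ∀ k t, w (q * k + t) = w t := by
    intro k t
    induction k with
    | zero => simp
    | succ k ih => rw [← ih, ← h (q * k + t)]; congr 1; ring
  refine ⟨q * (i / q), Nat.mul_div_le _ _, ?_, ?_⟩
  · have := Nat.div_add_mod i q
    have := Nat.mod_lt i hq
    simp only [seg_length]; omega
  · unfold Occ
    rw [seg_length, seg_eq_iff]
    intro t _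
    rw [key, zero_add]

theorem lr3 (H : Fx F a w) {s : ℕ} (hs : ∀ i, w i < s) (hG : Gap w a) (hq : ¬ QP w) :
    ∃ K, ∀ l p q, 1 ≤ q → Occ w p (seg w 0 l) → Occ w (p + q) (seg w 0 l) → l ≤ K * q := by
  obtain ⟨K, hK⟩ := lr2 H hs hG
  refine ⟨K * 2, fun l p q h1 o1 o2 => ?_⟩
  by_contra hc
  refine hq (qp_of_period h1 fun i => ?_)
  obtain ⟨p', e1, e2⟩ := hK (q + 1) (by omega) i
  have e3 : K * (q + 1) ≤ K * 2 * q := by rw [mul_assoc]; exact Nat.mul_le_mul_left _ (by omega)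
  unfold Occ at o1 o2
  rw [seg_length, seg_eq_iff] at o1 o2
  rw [seg_eq_iff] at e2
  have a1 := e2 0 (by omega)
  have a2 := e2 q (by omega)
  have a3 := o1 (p' + q) (by omega)
  have a4 := o2 p' (by omega)
  simp only [zero_add, add_zero] at *
  rw [← a1, ← a2, ← a3, ← a4]; congr 1; ring

theorem inf_of (hK : ∀ p, ∃ q, p ≤ q ∧ Occ w q (seg w 0 l)) : Inf w l := by
  refine Set.infinite_of_forall_exists_gt fun p => ?_
  obtain ⟨q, h1, h2⟩ := hK (p + 1)
  exact ⟨q, h2, by omega⟩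

end

end Pool.Agent.H17.Qp
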