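import Pool.Agent.H17.Qp3

set_option autoImplicit false

namespace Pool.Agent.H17.Qp

def allL (L : List ℕ) (k : ℕ) : List (List ℕ) :=
  Nat.rec [[]] (fun _ r => L.flatMap fun a => r.map fun l => a :: l) k

theorem mem_allL {L : List ℕ} {k : ℕ} {z : List ℕ} :
    z ∈ allL L k ↔ z.length = k ∧ ∀ c ∈ z, c ∈ L := by
  induction k generalizing z with
  | zero =>
    show z ∈ [[]] ↔ _
    simp +contextual
  | succ k ih =>
    show z ∈ L.flatMap (fun a => (allL L k).map fun l => a :: l) ↔ _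
    simp only [List.mem_flatMap, List.mem_map, ih]
    constructor
    · rintro ⟨c, hc, l, ⟨h1, h2⟩, rfl⟩
      exact ⟨by simp [h1], by simpa using ⟨hc, h2⟩⟩
    · rintro ⟨h1, h2⟩
      cases z with
      | nil => simp at h1
      | cons c l =>
        exact ⟨c, h2 c (by simp), l, ⟨by simpa using h1, fun d hd => h2 d (by simp [hd])⟩, rfl⟩

def YC (F : List (List ℕ)) (a n : ℕ) (u : List ℕ) (Th h : List (List ℕ)) : Prop :=
  RS F a u Th h n ∧ ∀ al ∈ List.range Th.length, (Th.getD al []).length ≤ u.length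

def C5 (y : List ℕ) (b : ℕ) : Prop :=
  ∀ l ∈ List.range b, ∃ i ∈ List.range y.length, i + l ≤ y.length ∧
    ∀ j ∈ List.range (i + 1), i < j + l → ¬ (y.drop j).take l = y.take l

def N1 (F : List (List ℕ)) (a n : ℕ) (u u' : List ℕ) (Th Th' h : List (List ℕ)) : Prop :=
  RS F a u Th h n ∧ RS F a u' Th' h n ∧ C1 Th' u' ∧
  (∀ al ∈ List.range Th'.length, (Th.getD al []).length < (Th'.getD al []).length) ∧
  (∀ al ∈ List.range Th'.length, ∀ be ∈ List.range Th'.length,
    Th'.getD al [] = Th'.getD be [] → Th.getD al [] = Th.getD be []) ∧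
  (∀ al ∈ List.range Th'.length, ∀ be ∈ List.range Th'.length,
    ∀ k ∈ List.range (u'.length + 1), ∀ z ∈ allL (List.range Th'.length) k,
      Cmp Th' u' al be z → Cmp Th u al be z) ∧
  C5 (it F a n) u'.length

section
variable {F : List (List ℕ)} {a : ℕ} {w : ℕ → ℕ}

theorem YC.sound (H : Fx F a w) {n : ℕ} {u : List ℕ} {Th h : List (List ℕ)}
    (c : YC F a n u Th h) : QP w := by
  obtain ⟨D, HD⟩ := c.1.exists_D H
  exact ⟨u, (c.1.cs H HD).cov fun al hal => c.2 al (List.mem_range.2 hal)⟩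

theorem N1.sound (H : Fx F a w) {n : ℕ} {u u' : List ℕ} {Th Th' h : List (List ℕ)}
    (c : N1 F a n u u' Th Th' h) : ¬ QP w := by
  obtain ⟨r1, r2, c1, c2, c3, c4, c5⟩ := c
  obtain ⟨D, HD⟩ := r1.exists_D H
  refine not_qp_of (r1.cs H HD) (r2.cs H HD) c1 (fun al hal => c2 al (List.mem_range.2 hal))
    (fun al hal be hbe => c3 al (List.mem_range.2 hal) be (List.mem_range.2 hbe))
    (fun al hal be hbe z h1 h2 => c4 al (List.mem_range.2 hal) be (List.mem_range.2 hbe) z.length
      (List.mem_range.2 (by omega)) z (mem_allL.2 ⟨rfl, fun c hc => List.mem_range.2 (h2 c hc)⟩))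
    fun l hl hc => ?_
  obtain ⟨i, -, h1, h2⟩ := c5 l (List.mem_range.2 hl)
  obtain ⟨j, e1, e2, e3⟩ := hc i
  rw [seg_length] at e2
  refine h2 j (List.mem_range.2 (by omega)) e2 ?_
  rw [((H.occ n).drop (m := j) (by omega)).take (by rw [List.length_drop]; omega),
    (H.occ n).take (by omega), zero_add]
  unfold Occ at e3
  rwa [seg_length] at e3

theorem YC.complete (H : Fx F a w) {s : ℕ} (hs : ∀ i, w i < s) (hq : QP w) :
    ∃ n u Th h, YC F a n u Th h := by
  obtain ⟨x, hx⟩ := hq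
  have h0 := hx.occ0.1
  unfold Occ at h0
  set l := x.length
  rw [← h0] at hx
  have I : Inf w l := inf_of fun p => by
    obtain ⟨j, h1, h2, h3⟩ := hx (p + l)
    rw [seg_length] at h2
    exact ⟨j, by omega, h3⟩
  have hr : ∀ i, (rr w l i).length ≤ l := by
    intro i
    obtain ⟨j, h1, h2, h3⟩ := hx (pp w l i + l)
    rw [seg_length] at h2
    have := I.next (i := i) h3 (by omega)
    rw [rr_len]; omega
  have hf : (Set.range (rr w l)).Finite := by
    refine (finite_words s l).subset ?_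
    rintro _ ⟨i, rfl⟩
    refine ⟨hr i, fun c hc => ?_⟩
    obtain ⟨t, -, rfl⟩ := mem_seg.1 hc
    exact hs _
  have hS : ∃ S, ∀ i, DD w l i < S := by
    classical
    let rep : List ℕ → ℕ := fun y => if h : ∃ p, rr w l p = y then h.choose else 0
    obtain ⟨T, hT⟩ := (hf.image rep).bddAbove
    refine ⟨T + 1, fun i => ?_⟩
    have h1 : rep (rr w l i) ≤ T := hT ⟨_, ⟨i, rfl⟩, rfl⟩
    have h : ∃ q, rr w l q = rr w l i := ⟨i, rfl⟩
    have h2 : rr w l (rep (rr w l i)) = rr w l i := by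
      simp only [rep, dif_pos h]
      exact h.choose_spec
    have := DD_le h2
    omega
  obtain ⟨S, hS⟩ := hS
  obtain ⟨n, hn⟩ := I.rs H hS
  refine ⟨n, _, _, _, hn n le_rfl, fun al hal => ?_⟩
  rw [TH_len, List.mem_range] at hal
  rw [TH_getD hal, seg_length]
  exact hr al

theorem pigeon {X Y : Type} [Finite Y] {T : Set X} (hT : T.Finite) (Q : ℕ → X → Y) :
    ∃ n m, n < m ∧ ∀ t ∈ T, Q n t = Q m t := by
  have := hT.to_subtype
  obtain ⟨n, m, h1, h2⟩ := Finite.exists_ne_map_eq_of_infinite (fun n (t : T) => Q n t)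
  rcases lt_or_gt_of_ne h1 with h | h
  · exact ⟨n, m, h, fun t ht => congrFun h2 ⟨t, ht⟩⟩
  · exact ⟨m, n, h, fun t ht => (congrFun h2 ⟨t, ht⟩).symm⟩

theorem c5_complete (H : Fx F a w) (hq : ¬ QP w) (b : ℕ) :
    ∃ n0, ∀ n, n0 ≤ n → C5 (it F a n) b := by
  have h1 : ∀ l, ∃ i, ∀ j, j ≤ i → i < j + l → ¬ Occ w j (seg w 0 l) := by
    intro l
    by_contra hc
    push Not at hc
    exact hq ⟨seg w 0 l, fun i => by simpa using hc i⟩
  choose I hI using h1
  obtain ⟨T, hT⟩ := ((Set.finite_lt_nat b).image fun l => I l + l).bddAbove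
  obtain ⟨n0, hn0⟩ := H.unb T
  refine ⟨n0, fun n hn l hl => ?_⟩
  have h2 : I l + l ≤ T := hT ⟨l, List.mem_range.1 hl, rfl⟩
  have h3 := (it_pre' H.head hn).length_le
  refine ⟨I l, List.mem_range.2 (by omega), by omega, fun j hj h4 h5 => ?_⟩
  rw [List.mem_range] at hj
  refine hI l j (by omega) h4 ?_
  rw [((H.occ n).drop (m := j) (by omega)).take (by rw [List.length_drop]; omega),
    (H.occ n).take (by omega), zero_add] at h5
  unfold Occ
  rwa [seg_length]

theorem N1.complete (H : Fx F a w) {s : ℕ} (hs : ∀ i, w i < s) (hG : Gap w a) (hq : ¬ QP w) :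
    ∃ n u u' Th Th' h, N1 F a n u u' Th Th' h := by
  obtain ⟨K, hK⟩ := lr1 H hs hG
  obtain ⟨K1, hK1⟩ := lr2 H hs hG
  obtain ⟨K3, hK3⟩ := lr3 H hs hG hq
  obtain ⟨M, hM1, hM⟩ := exists_M F
  have I : ∀ l, 1 ≤ l → Inf w l := fun l hl => inf_of fun p => by
    obtain ⟨q, h1, -, h3⟩ := hK l hl p
    exact ⟨q, h1, h3⟩
  have up : ∀ l, 1 ≤ l → ∀ i, (rr w l i).length ≤ K * l := by
    intro l hl i
    obtain ⟨q, h1, h2, h3⟩ := hK l hl (pp w l i + 1)
    have := (I l hl).next (i := i) h3 (by omega)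
    rw [rr_len]; omega
  have lo : ∀ l, 1 ≤ l → ∀ i, l ≤ K3 * (rr w l i).length := by
    intro l hl i
    refine hK3 l (pp w l i) _ ((I l hl).rr_pos i) ((I l hl).occ i) ?_
    rw [← (I l hl).succ]; exact (I l hl).occ _
  have lo2 : ∀ l, 1 ≤ l → ∀ i d, K3 * pp w l i + d * l ≤ K3 * pp w l (i + d) := by
    intro l hl i d
    induction d with
    | zero => simp
    | succ d ih =>
      have := lo l hl (i + d)
      rw [← add_assoc, (I l hl).succ, mul_add, add_mul]; omega
  set S := K3 * (K1 * (K + 1)) + 1 with hSdef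
  have hS : ∀ l, 1 ≤ l → ∀ i, DD w l i < S := by
    intro l hl i
    have o := (I l hl).rr_occ i
    obtain ⟨p', e1, e2⟩ := hK1 (rr w l i ++ seg w 0 l).length
      (by rw [List.length_append, seg_length]; omega) (pp w l i)
    have o2 := o.move e2.symm le_rfl
    have hpre : seg w 0 l <+: rr w l i ++ seg w 0 l :=
      ((I l hl).occ i).prefix_of_le o (by simp)
    obtain ⟨i0, rfl⟩ := pp_range (o2.pre hpre)
    have h1 := DD_le ((I l hl).same o2)
    have h2 := lo2 l hl 0 i0
    rw [pp0, zero_add] at h2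
    have h3 : (rr w l i ++ seg w 0 l).length ≤ (K + 1) * l := by
      have := up l hl i
      rw [List.length_append, seg_length, add_mul]; omega
    have h4 : pp w l i0 ≤ K1 * ((K + 1) * l) :=
      le_trans (by omega) (e1.trans (Nat.mul_le_mul_left _ h3))
    have h5 : i0 * l ≤ K3 * (K1 * (K + 1)) * l := by
      calc i0 * l ≤ K3 * pp w l i0 := by omega
        _ ≤ K3 * (K1 * ((K + 1) * l)) := Nat.mul_le_mul_left _ h4
        _ = _ := by ring
    have := Nat.le_of_mul_le_mul_right h5 (by omega)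
    omega
  have hH : ∀ l, 1 ≤ l → ∀ al, (hh F w l al).length ≤ K3 * (M * K) := by
    intro l hl al
    have h1 := (I l hl).mm_le H al
    have h2 := lo2 l hl (mm F w l al) (mm F w l (al + 1) - mm F w l al)
    rw [show mm F w l al + (mm F w l (al + 1) - mm F w l al) = mm F w l (al + 1) by omega,
      (I l hl).ap_rr H, mul_add] at h2
    have h3 : (ap F (rr w l al)).length ≤ M * (K * l) :=
      (ap_len_le hM _).trans (Nat.mul_le_mul_left _ (up l hl al))
    have h5 : (mm F w l (al + 1) - mm F w l al) * l ≤ K3 * (M * K) * l := by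
      calc _ ≤ K3 * (ap F (rr w l al)).length := by omega
        _ ≤ K3 * (M * (K * l)) := Nat.mul_le_mul_left _ h3
        _ = _ := by ring
    rw [hh, seg_length]
    exact Nat.le_of_mul_le_mul_right h5 (by omega)
  have hZ : ∀ l, 1 ≤ l → ∀ al be z, (∀ c ∈ z, c < S) → Cmp (TH w l S) (seg w 0 l) al be z →
      z.length ≤ K3 := by
    intro l hl al be z hz hc
    have h1 := hc.1
    rw [ap_cons, List.length_append, List.length_append, seg_length] at h1
    have h2 : z.length * l ≤ K3 * (ap (TH w l S) z).length := by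
      clear h1 hc
      induction z with
      | nil => simp
      | cons c z ih =>
        have := ih (fun d hd => hz d (by simp [hd]))
        have := lo l hl c
        rw [ap_cons, TH_getD (hz c (by simp)), List.length_append, List.length_cons, mul_add,
          add_mul]
        omega
    have h3 : z.length * l ≤ K3 * l := h2.trans (Nat.mul_le_mul_left _ (by omega))
    exact Nat.le_of_mul_le_mul_right h3 (by omega)
  have hT : ({al | al < S} ×ˢ {be | be < S} ×ˢ
      {z : List ℕ | z.length ≤ K3 * (M * K) + K3 ∧ ∀ c ∈ z, c < S}).Finite :=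
    (Set.finite_lt_nat S).prod ((Set.finite_lt_nat S).prod (finite_words _ _))
  let L : ℕ → ℕ := fun n => (K3 * K + 1) ^ n
  have hL : ∀ n, 1 ≤ L n := fun n => Nat.one_le_pow _ _ (by omega)
  obtain ⟨n, m, hnm, hQ⟩ := pigeon hT (fun n (t : ℕ × ℕ × List ℕ) =>
    ((hh F w (L n) t.1 = t.2.2, rr w (L n) t.1 = rr w (L n) t.2.1,
      Cmp (TH w (L n) S) (seg w 0 (L n)) t.1 t.2.1 t.2.2) : Prop × Prop × Prop))
  have hLL : K3 * K * L n < L m := by
    have h1 : L (n + 1) ≤ L m := Nat.pow_le_pow_right (by omega) hnm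
    have h2 : L (n + 1) = L n * (K3 * K + 1) := pow_succ _ _
    have := hL n
    nlinarith
  have hHH : HH F w (L n) S = HH F w (L m) S := by
    unfold HH
    refine List.map_congr_left fun al hal => ?_
    have := hQ (al, al, hh F w (L n) al) ⟨List.mem_range.1 hal, List.mem_range.1 hal,
      by have := hH _ (hL n) al; simp only; omega, fun c hc => by
        obtain ⟨t, -, rfl⟩ := mem_seg.1 hc
        exact hS _ (hL n) _⟩
    have h1 := (Prod.ext_iff.1 this).1
    simp only [eq_iff_iff, true_iff] at h1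
    exact h1.symm
  obtain ⟨n1, hn1⟩ := (I _ (hL n)).rs H (hS _ (hL n))
  obtain ⟨n2, hn2⟩ := (I _ (hL m)).rs H (hS _ (hL m))
  obtain ⟨n3, hn3⟩ := c5_complete H hq (L m)
  refine ⟨n1 + n2 + n3, seg w 0 (L n), seg w 0 (L m), TH w (L n) S, TH w (L m) S, HH F w (L n) S,
    hn1 _ (by omega), by rw [hHH]; exact hn2 _ (by omega), (I _ (hL m)).c1, ?_, ?_, ?_,
    by rw [seg_length]; exact hn3 _ (by omega)⟩
  · intro al hal
    rw [TH_len, List.mem_range] at hal
    rw [TH_getD hal, TH_getD hal]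
    have h1 := up _ (hL n) al
    have h2 := lo _ (hL m) al
    by_contra hc
    have h3 : K3 * (rr w (L m) al).length ≤ K3 * (K * L n) := Nat.mul_le_mul_left _ (by omega)
    rw [← mul_assoc] at h3
    omega
  · intro al hal be hbe
    rw [TH_len, List.mem_range] at hal hbe
    rw [TH_getD hal, TH_getD hal, TH_getD hbe, TH_getD hbe]
    have := hQ (al, be, []) ⟨hal, hbe, by simp, by simp⟩
    have h1 := (Prod.ext_iff.1 (Prod.ext_iff.1 this).2).1
    simp only [eq_iff_iff] at h1
    exact h1.2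
  · intro al hal be hbe k _ z hz hc
    rw [TH_len] at hal hbe hz
    rw [List.mem_range] at hal hbe
    have hz2 : ∀ c ∈ z, c < S := fun c hc => List.mem_range.1 ((mem_allL.1 hz).2 c hc)
    have h0 := hZ _ (hL m) al be z hz2 hc
    have := hQ (al, be, z) ⟨hal, hbe, by simp only; omega, hz2⟩
    have h1 := (Prod.ext_iff.1 (Prod.ext_iff.1 this).2).2
    simp only [eq_iff_iff] at h1
    exact h1.2 hc

end

end Pool.Agent.H17.Qp
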