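import Pool.Agent.H17.Qp4

set_option autoImplicit false

namespace Pool.Agent.H17.Qp

def cnt (I v : List ℕ) : ℕ := (v.filter (fun c => decide (c ∈ I))).length

def Clo (F : List (List ℕ)) (a : ℕ) (B : List ℕ) : Prop :=
  (∀ b ∈ B, ∀ d ∈ F.getD b [], d ∈ B) ∧ ¬ a ∈ B

def N00 (F : List (List ℕ)) (a : ℕ) (B s : List ℕ) : Prop :=
  Clo F a B ∧ F.getD a [] = a :: s ∧ ∀ c ∈ s, c ∈ B

def N0 (F : List (List ℕ)) (a n q : ℕ) (B I e1 e2 v y s p y' al be : List ℕ) : Prop :=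
  Clo F a B ∧ (∀ c ∈ I, ∃ d ∈ F.getD c [], d ∈ I) ∧ apk F q e1 = y ++ e1 ++ s ∧
    apk F q e2 = p ++ e2 ++ y' ∧ (∀ c ∈ s ++ v ++ p, c ∈ B) ∧
    v.Sublist (s ++ apk F q v ++ p) ∧ cnt I v < cnt I (s ++ apk F q v ++ p) ∧
    it F a n = al ++ (e1 ++ v ++ e2) ++ be

section
variable {F : List (List ℕ)} {a : ℕ} {w : ℕ → ℕ}

theorem cnt_append (I y z : List ℕ) : cnt I (y ++ z) = cnt I y + cnt I z := by simp [cnt]
@[simp] theorem cnt_nil (I : List ℕ) : cnt I [] = 0 := rfl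
theorem cnt_le (I y : List ℕ) : cnt I y ≤ y.length := List.length_filter_le _ _
theorem cnt_cons (I : List ℕ) (c : ℕ) (y : List ℕ) : cnt I (c :: y) = cnt I [c] + cnt I y := by
  rw [← cnt_append]; rfl
theorem cnt_pos {I y : List ℕ} {d : ℕ} (h1 : d ∈ y) (h2 : d ∈ I) : 0 < cnt I y :=
  List.length_pos_of_mem (a := d) (by simp [h1, h2])
theorem cnt_single_le {I : List ℕ} (hI : ∀ c ∈ I, ∃ d ∈ F.getD c [], d ∈ I) (c : ℕ) :
    cnt I [c] ≤ cnt I (F.getD c []) := by
  by_cases h : c ∈ I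
  · obtain ⟨d, h1, h2⟩ := hI c h
    have := cnt_pos h1 h2
    have := cnt_le I [c]
    simp at this; omega
  · simp [cnt, h]

theorem cnt_sub {I : List ℕ} (hI : ∀ c ∈ I, ∃ d ∈ F.getD c [], d ∈ I) {y z : List ℕ}
    (h : y.Sublist z) :
    (ap F y).Sublist (ap F z) ∧ cnt I (ap F y) + cnt I z ≤ cnt I (ap F z) + cnt I y := by
  induction h with
  | slnil => simp
  | cons c _ ih =>
    refine ⟨by rw [ap_cons]; exact ih.1.trans (List.sublist_append_right _ _), ?_⟩
    have := cnt_single_le hI c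
    rw [ap_cons, cnt_append, cnt_cons I c]; omega
  | @cons_cons l1 l2 c _ ih =>
    refine ⟨by rw [ap_cons, ap_cons]; exact (List.Sublist.refl _).append ih.1, ?_⟩
    rw [ap_cons, ap_cons, cnt_append, cnt_append, cnt_cons I c l1, cnt_cons I c l2]; omega

theorem cnt_subk {I : List ℕ} (hI : ∀ c ∈ I, ∃ d ∈ F.getD c [], d ∈ I) (k : ℕ) {y z : List ℕ}
    (h : y.Sublist z) :
    (apk F k y).Sublist (apk F k z) ∧
      cnt I (apk F k y) + cnt I z ≤ cnt I (apk F k z) + cnt I y := by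
  induction k with
  | zero => exact ⟨h, by simp [add_comm]⟩
  | succ k ih =>
    have := cnt_sub hI ih.1
    rw [apk_succ, apk_succ]
    exact ⟨this.1, by omega⟩

theorem Clo.apk {B : List ℕ} (c : Clo F a B) (k : ℕ) {y : List ℕ} (hy : ∀ d ∈ y, d ∈ B) :
    ∀ d ∈ apk F k y, d ∈ B := by
  induction k with
  | zero => exact hy
  | succ k ih =>
    intro d hd
    rw [apk_succ, mem_ap] at hd
    obtain ⟨b, h1, h2⟩ := hd
    exact c.1 b (ih b h1) d h2

theorem not_gap_of {B : List ℕ} (hB : ¬ a ∈ B)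
    (h : ∀ g, ∃ p y, Occ w p y ∧ g ≤ y.length ∧ ∀ d ∈ y, d ∈ B) : ¬ Gap w a := by
  rintro ⟨G, hG⟩
  obtain ⟨p, y, h1, h2, h3⟩ := h G
  obtain ⟨t, ht, e⟩ := hG p
  refine hB (h3 a ?_)
  rw [← h1]
  exact mem_seg.2 ⟨t, by omega, e⟩

theorem N00.sound (H : Fx F a w) {B s : List ℕ} (c : N00 F a B s) : ¬ Gap w a := by
  obtain ⟨c1, c2, c3⟩ := c
  have key : ∀ n, ∃ t, it F a n = a :: t ∧ ∀ d ∈ t, d ∈ B := by
    intro n
    induction n with
    | zero => exact ⟨[], rfl, by simp⟩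
    | succ n ih =>
      obtain ⟨t, h1, h2⟩ := ih
      refine ⟨s ++ ap F t, by rw [it_succ, h1, ap_cons, c2]; rfl, fun d hd => ?_⟩
      rcases List.mem_append.1 hd with hd | hd
      · exact c3 d hd
      · exact c1.apk 1 h2 d hd
  refine not_gap_of c1.2 fun g => ?_
  obtain ⟨n, hn⟩ := H.unb g
  obtain ⟨t, h1, h2⟩ := key n
  have h3 := H.occ n
  rw [h1] at hn h3
  exact ⟨_, t, ((occ_append (y := [a])).1 h3).2, by simp at hn; omega, h2⟩

theorem N0.sound (H : Fx F a w) {n q : ℕ} {B I e1 e2 v y s p y' al be : List ℕ}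
    (c : N0 F a n q B I e1 e2 v y s p y' al be) : ¬ Gap w a := by
  obtain ⟨c1, c2, c3, c4, c5, c6, c7, c8⟩ := c
  let V : ℕ → List ℕ := fun j => Nat.rec v (fun _ r => s ++ apk F q r ++ p) j
  have hV : ∀ j, V (j + 1) = s ++ apk F q (V j) ++ p := fun j => rfl
  have key : ∀ j, (∀ d ∈ V j, d ∈ B) ∧ (∃ r, Occ w r (e1 ++ V j ++ e2)) ∧
      (V j).Sublist (V (j + 1)) ∧ cnt I (V j) < cnt I (V (j + 1)) ∧ j ≤ cnt I (V j) := by
    intro j
    induction j with
    | zero =>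
      refine ⟨fun d hd => c5 d (by simp [show d ∈ v from hd]), ?_, c6, c7, by omega⟩
      obtain ⟨r, -, -, h⟩ := (H.occ n).infx (y := e1 ++ v ++ e2) ⟨al, be, c8.symm⟩
      exact ⟨r, h⟩
    | succ j ih =>
      obtain ⟨h1, ⟨r, h2⟩, h3, h4, h5⟩ := ih
      have h6 := cnt_subk c2 q h3
      refine ⟨fun d hd => ?_, ?_, ?_, ?_, by omega⟩
      · rw [hV, List.mem_append, List.mem_append] at hd
        rcases hd with (hd | hd) | hd
        · exact c5 d (by simp [hd])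
        · exact c1.apk q h1 d hd
        · exact c5 d (by simp [hd])
      · obtain ⟨r', -, -, h⟩ := (H.img q h2).infx (y := e1 ++ V (j + 1) ++ e2)
          ⟨y, y', by rw [apk_append, apk_append, c3, c4, hV]; simp⟩
        exact ⟨r', h⟩
      · rw [hV (j + 1)]
        conv_lhs => rw [hV j]
        exact ((List.Sublist.refl _).append h6.1).append (List.Sublist.refl _)
      · rw [hV (j + 1)]
        conv_lhs => rw [hV j]
        simp only [cnt_append]
        omega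
  refine not_gap_of c1.2 fun g => ?_
  obtain ⟨h1, ⟨r, h2⟩, -, -, h5⟩ := key g
  rw [occ_append, occ_append] at h2
  exact ⟨_, _, h2.1.2, h5.trans (cnt_le _ _), h1⟩

/-- letters producing `a` -/
def Np (F : List (List ℕ)) (a c : ℕ) : Prop := ∃ n, a ∈ apk F n [c]

theorem Np.of_mem {c d : ℕ} (h : Np F a d) (hd : d ∈ F.getD c []) : Np F a c := by
  obtain ⟨n, hn⟩ := h
  exact ⟨n + 1, by rw [apk_succ', ap_single, mem_apk]; exact ⟨d, hd, hn⟩⟩

theorem Np.child (H : Fx F a w) {c : ℕ} (h : Np F a c) : ∃ d ∈ F.getD c [], Np F a d := by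
  obtain ⟨n, hn⟩ := h
  cases n with
  | zero =>
    obtain rfl : a = c := by simpa using hn
    obtain ⟨s, hs⟩ := H.head
    exact ⟨a, by rw [hs]; simp, 0, by simp⟩
  | succ n =>
    rw [apk_succ', ap_single, mem_apk] at hn
    obtain ⟨d, h1, h2⟩ := hn
    exact ⟨d, h1, n, h2⟩

theorem uniform {s : ℕ} {P : ℕ → ℕ → Prop} (hP : ∀ c n, P c n → P c (n + 1)) :
    ∃ t, ∀ c < s, (∃ n, P c n) → P c t := by
  have mono : ∀ c n m, n ≤ m → P c n → P c m := by
    intro c n m h h1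
    induction m, h using Nat.le_induction with
    | base => exact h1
    | succ m _ ih => exact hP c m ih
  induction s with
  | zero => exact ⟨0, by simp⟩
  | succ s ih =>
    obtain ⟨t, ht⟩ := ih
    by_cases h : ∃ n, P s n
    · obtain ⟨n, hn⟩ := h
      refine ⟨t + n, fun c hc h => ?_⟩
      by_cases e : c = s
      · subst e; exact mono _ n _ (by omega) hn
      · exact mono _ t _ (by omega) (ht c (by omega) h)
    · refine ⟨t, fun c hc h' => ?_⟩
      by_cases e : c = s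
      · subst e; exact absurd h' h
      · exact ht c (by omega) h'

theorem runs (H : Fx F a w) {s : ℕ} (hs : ∀ i, w i < s) (hG : ¬ Gap w a) (g : ℕ) :
    ∃ p, ∀ t < g, ¬ Np F a (w (p + t)) := by
  by_contra hc
  push Not at hc
  obtain ⟨M, -, hM⟩ := exists_M F
  obtain ⟨k, hk⟩ := uniform (s := s) (P := fun c n => a ∈ apk F n [c]) (fun c n h => by
    obtain ⟨t, ht⟩ := H.head
    rw [apk_succ, mem_ap]
    exact ⟨a, h, by rw [ht]; simp⟩)
  refine hG ⟨M ^ k * (g + 1), fun p => ?_⟩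
  obtain ⟨q, h1, h2, h3⟩ := win H (k := k) (g := g) (Bd := M ^ k) (y := [a])
    (fun i => by simpa using apk_len_pow hM k [w i])
    (fun i => by
      obtain ⟨t, ht, h⟩ := hc i
      exact ⟨t, ht, by rw [List.singleton_infix_iff]; exact hk _ (hs _) h⟩) p
  refine ⟨q - p, by simp at h2; omega, ?_⟩
  rw [show p + (q - p) = q by omega]
  exact occ_single.1 h3

abbrev Tr := ℕ × List ℕ × ℕ

def Tr.wd (e : Tr) : List ℕ := [e.1] ++ e.2.1 ++ [e.2.2]

def Tr.ok (F : List (List ℕ)) (a : ℕ) (e : Tr) : Prop :=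
  Np F a e.1 ∧ Np F a e.2.2 ∧ ∀ b ∈ e.2.1, ¬ Np F a b

def Step (F : List (List ℕ)) (k : ℕ) (e e' : Tr) : Prop :=
  ∃ y s p y', apk F k [e.1] = y ++ [e'.1] ++ s ∧ apk F k [e.2.2] = p ++ [e'.2.2] ++ y' ∧
    e'.2.1 = s ++ apk F k e.2.1 ++ p

theorem split_uniq {P : ℕ → Prop} {p p' y y' : List ℕ} {d d' : ℕ} (hd : P d) (hd' : P d')
    (hp : ∀ b ∈ p, ¬ P b) (hp' : ∀ b ∈ p', ¬ P b) (h : p ++ [d] ++ y = p' ++ [d'] ++ y') :
    p = p' ∧ d = d' := by
  induction p generalizing p' with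
  | nil =>
    cases p' with
    | nil => simp at h; exact ⟨rfl, h.1⟩
    | cons b p' =>
      simp at h
      exact absurd hd (h.1 ▸ hp' b (by simp))
  | cons c p ih =>
    cases p' with
    | nil =>
      simp at h
      exact absurd hd' (h.1 ▸ hp c (by simp))
    | cons b p' =>
      simp only [List.cons_append, List.cons.injEq] at h
      obtain ⟨e1, e2⟩ := ih (fun b hb => hp b (by simp [hb])) (fun b hb => hp' b (by simp [hb])) h.2
      exact ⟨by rw [h.1, e1], e2⟩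

theorem split_ex {P : ℕ → Prop} {z : List ℕ} (h : ∃ d ∈ z, P d) :
    ∃ p d y, z = p ++ [d] ++ y ∧ P d ∧ ∀ b ∈ p, ¬ P b := by
  induction z with
  | nil => simp at h
  | cons c z ih =>
    by_cases hc : P c
    · exact ⟨[], c, z, rfl, hc, by simp⟩
    · obtain ⟨p, d, y, h1, h2, h3⟩ := ih (by
        obtain ⟨d, h1, h2⟩ := h
        rcases List.mem_cons.1 h1 with rfl | h1
        · exact absurd h2 hc
        · exact ⟨d, h1, h2⟩)
      exact ⟨c :: p, d, y, by simp [h1], h2, by simpa [hc] using h3⟩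

theorem Step.uniq {k : ℕ} {e e1 e2 : Tr} (h1 : Step F k e e1) (h2 : Step F k e e2)
    (o1 : e1.ok F a) (o2 : e2.ok F a) : e1 = e2 := by
  obtain ⟨y, s, p, y', a1, a2, a3⟩ := h1
  obtain ⟨z, s', p', z', b1, b2, b3⟩ := h2
  have r1 := split_uniq (P := Np F a) o1.2.1 o2.2.1 (fun b hb => o1.2.2 b (by simp [a3, hb]))
    (fun b hb => o2.2.2 b (by simp [b3, hb])) (a2.symm.trans b2)
  have r2 := split_uniq (P := Np F a) (p := s.reverse) (p' := s'.reverse) (y := y.reverse)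
    (y' := z.reverse) o1.1 o2.1 (fun b hb => o1.2.2 b (by simp [a3, List.mem_reverse.1 hb]))
    (fun b hb => o2.2.2 b (by simp [b3, List.mem_reverse.1 hb]))
    (by simpa using congrArg List.reverse (a1.symm.trans b1))
  refine Prod.ext r2.2 (Prod.ext ?_ r1.2)
  rw [a3, b3, r1.1, List.reverse_injective r2.1]

theorem step_ex (H : Fx F a w) {e : Tr} (o : e.ok F a) : ∃ e', Step F 1 e e' ∧ e'.ok F a := by
  obtain ⟨p, d, y', h1, h2, h3⟩ := split_ex (P := Np F a) (o.2.1.child H)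
  obtain ⟨s, c, y, g1, g2, g3⟩ := split_ex (P := Np F a) (z := (F.getD e.1 []).reverse)
    (by simpa using o.1.child H)
  refine ⟨(c, s.reverse ++ ap F e.2.1 ++ p, d), ⟨y.reverse, s.reverse, p, y', ?_, ?_, rfl⟩, g2, h2, ?_⟩
  · show ap F _ = _
    rw [ap_single, ← List.reverse_reverse (F.getD e.1 []), g1]; simp
  · show ap F _ = _
    rw [ap_single, h1]
  · intro b hb
    simp only [List.mem_append, List.mem_reverse] at hb
    rcases hb with (hb | hb) | hb
    · exact g3 b hb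
    · obtain ⟨c', k1, k2⟩ := mem_ap.1 hb
      exact fun hN => o.2.2 c' k1 (hN.of_mem k2)
    · exact h3 b hb

theorem Step.trans {k : ℕ} {e e1 e2 : Tr} (h1 : Step F k e e1) (h2 : Step F 1 e1 e2) :
    Step F (k + 1) e e2 := by
  obtain ⟨y, s, p, y', a1, a2, a3⟩ := h1
  obtain ⟨z, s', p', z', b1, b2, b3⟩ := h2
  change ap F _ = _ at b1 b2
  change _ = _ ++ ap F _ ++ _ at b3
  refine ⟨ap F y ++ z, s' ++ ap F s, ap F p ++ p', z' ++ ap F y', ?_, ?_, ?_⟩
  · rw [apk_succ, a1, ap_append, ap_append, b1]; simp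
  · rw [apk_succ, a2, ap_append, ap_append, b2]; simp
  · rw [b3, a3, apk_succ, ap_append, ap_append]; simp

theorem Step.infx {k : ℕ} {e e1 : Tr} (h1 : Step F k e e1) : e1.wd <:+: apk F k e.wd := by
  obtain ⟨y, s, p, y', a1, a2, a3⟩ := h1
  exact ⟨y, y', by rw [Tr.wd, Tr.wd, apk_append, apk_append, a1, a2, a3]; simp⟩

theorem step_pred (H : Fx F a w) {M : ℕ} (hM : ∀ c, (F.getD c []).length ≤ M) {e' : Tr}
    (o : e'.ok F a) {z : List ℕ} (h : e'.wd <:+: ap F z) :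
    e'.2.1.length ≤ M ∨ ∃ e : Tr, e.ok F a ∧ e.wd <:+: z ∧ Step F 1 e e' := by
  obtain ⟨c', v', d'⟩ := e'
  obtain ⟨al, be, h⟩ := h
  obtain ⟨y1, c, y2, f1, f2, e1, e2, e3, e4⟩ := ap_split (F := F) (y := z) (al := al) (x := c')
    (be := v' ++ d' :: be) (by rw [← h]; simp [Tr.wd])
  by_cases hl : v'.length < f2.length
  · left
    have := hM c
    rw [e2, List.length_append, List.length_cons] at this
    simp only; omega
  · right
    have hp : f2 <+: v' := List.prefix_of_prefix_length_le (l₃ := v' ++ d' :: be)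
      ⟨_, e4.symm⟩ (List.prefix_append _ _) (by omega)
    obtain ⟨v2, rfl⟩ := hp
    rw [List.append_assoc, List.append_cancel_left_eq] at e4
    obtain ⟨v, d, y3, g1, g2, k1, k2, k3, k4⟩ := ap_split e4.symm
    refine ⟨(c, v, d), ⟨o.1.of_mem (by rw [e2]; simp), o.2.1.of_mem (by rw [k2]; simp), fun b hb hN => ?_⟩,
      ⟨y1, y3, by rw [e1, k1]; simp [Tr.wd]⟩, f1, f2, g1, g2, ?_, ?_, ?_⟩
    · obtain ⟨x, x1, x2⟩ := hN.child H
      refine o.2.2 x ?_ x2
      simp only [k3, List.mem_append]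
      exact Or.inr (Or.inl (mem_ap.2 ⟨b, hb, x1⟩))
    · show ap F _ = _
      rw [ap_single, e2]; simp
    · show ap F _ = _
      rw [ap_single, k2]; simp
    · show _ = _ ++ ap F _ ++ _
      rw [k3]; simp

end

end Pool.Agent.H17.Qp
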