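import Pool.Agent.H17.Qp5

set_option autoImplicit false

namespace Pool.Agent.H17.Qp

open Classical

section
variable {F : List (List ℕ)} {a : ℕ} {w : ℕ → ℕ}

noncomputable def TT (F : List (List ℕ)) (a : ℕ) (e : Tr) : Tr :=
  if h : ∃ e', Step F 1 e e' ∧ e'.ok F a then h.choose else e

theorem TT_spec (H : Fx F a w) {e : Tr} (o : e.ok F a) :
    Step F 1 e (TT F a e) ∧ (TT F a e).ok F a := by
  have h := step_ex H o
  rw [TT, dif_pos h]; exact h.choose_spec

theorem TT_iter (H : Fx F a w) {e : Tr} (o : e.ok F a) (j : ℕ) :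
    Step F j e ((TT F a)^[j] e) ∧ ((TT F a)^[j] e).ok F a := by
  induction j with
  | zero => exact ⟨⟨[], [], [], [], by simp, by simp, by simp⟩, o⟩
  | succ j ih =>
    rw [Function.iterate_succ_apply']
    exact ⟨ih.1.trans (TT_spec H ih.2).1, (TT_spec H ih.2).2⟩

theorem ancestor (H : Fx F a w) {M : ℕ} (hM : ∀ c, (F.getD c []).length ≤ M) (n : ℕ) :
    ∀ e' : Tr, e'.ok F a → e'.wd <:+: it F a n → ∃ e : Tr, ∃ j n0, e.ok F a ∧
      e.wd <:+: it F a n0 ∧ e.2.1.length ≤ M ∧ (TT F a)^[j] e = e' := by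
  induction n with
  | zero =>
    intro e' _ h
    have := h.length_le
    simp [Tr.wd, it] at this
  | succ n ih =>
    intro e' o h
    rcases step_pred H hM o (by rwa [it_succ] at h) with h1 | ⟨e, h1, h2, h3⟩
    · exact ⟨e', 0, n + 1, o, h, h1, rfl⟩
    · obtain ⟨e0, j, n0, k1, k2, k3, k4⟩ := ih e h1 h2
      refine ⟨e0, j + 1, n0, k1, k2, k3, ?_⟩
      rw [Function.iterate_succ_apply', k4]
      exact (TT_spec H h1).1.uniq h3 (TT_spec H h1).2 o

theorem long_triple (H : Fx F a w) {k : ℕ} (hs : ∀ i, w i < k) (hG : ¬ Gap w a)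
    (hinf : ∀ p, ∃ q, p < q ∧ Np F a (w q)) (g : ℕ) :
    ∃ e : Tr, ∃ n, e.ok F a ∧ e.wd <:+: it F a n ∧ g ≤ e.2.1.length := by
  obtain ⟨p, hp⟩ := runs H hs hG (g + 1)
  have h0 : Np F a (w 0) := ⟨0, by simp [H.w0]⟩
  have e1 : Np F a (w (Nat.findGreatest (fun i => Np F a (w i)) p)) :=
    Nat.findGreatest_spec (P := fun i => Np F a (w i)) (Nat.zero_le p) h0
  have e2 := Nat.findGreatest_le (P := fun i => Np F a (w i)) p
  have e3 := fun i => Nat.findGreatest_is_greatest (P := fun i => Np F a (w i)) (n := p) (k := i)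
  set p0 := Nat.findGreatest (fun i => Np F a (w i)) p
  have f1 := Nat.find_spec (hinf p)
  have f2 := fun m => Nat.find_min (hinf p) (m := m)
  set q := Nat.find (hinf p)
  have g1 : p0 < p := by
    rcases e2.lt_or_eq with h | h
    · exact h
    · exact absurd (h ▸ e1) (hp 0 (by omega))
  have g2 : p + g < q := by
    by_contra hc
    refine hp (q - p) (by omega) ?_
    rw [show p + (q - p) = q by omega]; exact f1.2
  obtain ⟨n, hn⟩ := H.pre_it (occ_seg 0 (q + 1))
  refine ⟨(w p0, seg w (p0 + 1) (q - p0 - 1), w q), n, ⟨e1, f1.2, fun b hb => ?_⟩, ?_,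
    by simp only [seg_length]; omega⟩
  · obtain ⟨t, ht, rfl⟩ := mem_seg.1 hb
    by_cases h : p0 + 1 + t ≤ p
    · exact e3 _ (by omega) h
    · exact fun hN => f2 (p0 + 1 + t) (by omega) ⟨by omega, hN⟩
  · refine List.IsInfix.trans ?_ (hn n le_rfl).isInfix
    refine ⟨seg w 0 p0, [], ?_⟩
    rw [show q + 1 = p0 + ((q - p0 - 1) + 1 + 1) by omega, seg_add, seg_succ, seg_succ', zero_add,
      show p0 + (q - p0 - 1 + 1) = q by omega]
    simp [Tr.wd]

theorem higman {k : ℕ} (f : ℕ → Tr) (h : ∀ n, (f n).1 < k ∧ (∀ c ∈ (f n).2.1, c < k) ∧ (f n).2.2 < k) :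
    ∃ m n, m < n ∧ (f m).1 = (f n).1 ∧ (f m).2.1.Sublist (f n).2.1 ∧ (f m).2.2 = (f n).2.2 := by
  have h1 : Set.PartiallyWellOrderedOn {c : ℕ | c < k} (· = ·) :=
    (Set.finite_lt_nat k).partiallyWellOrderedOn
  have h2 := Set.PartiallyWellOrderedOn.partiallyWellOrderedOn_sublistForall₂ (· = ·) h1
  have : IsPreorder (List ℕ) (List.SublistForall₂ (· = ·)) := {}
  have h3 := h1.prod (h2.prod h1)
  obtain ⟨m, n, e1, e2, e3, e4⟩ := h3.exists_lt (f := f) (fun n => h n)
  obtain ⟨l, l1, l2⟩ := List.sublistForall₂_iff.1 e3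
  rw [List.forall₂_eq_eq_eq] at l1
  exact ⟨m, n, e1, e2, l1 ▸ l2, e4⟩

theorem n0_complete (H : Fx F a w) {k : ℕ} (ha : a < k) (hF : ∀ c < k, ∀ d ∈ F.getD c [], d < k)
    (hG : ¬ Gap w a) : (∃ B s, N00 F a B s) ∨
      ∃ n q B I e1 e2 v y s p y' al be, N0 F a n q B I e1 e2 v y s p y' al be := by
  have hs := H.letter ha hF
  have hit : ∀ n, ∀ c ∈ it F a n, c < k := fun n => apk_lt hF n [a] (by simpa using ha)
  set B := (List.range k).filter (fun c => decide (¬ Np F a c)) with hBdef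
  have hB : ∀ b, b ∈ B ↔ b < k ∧ ¬ Np F a b := by simp [hBdef]
  have hClo : Clo F a B := ⟨fun b hb d hd => (hB d).2 ⟨hF b ((hB b).1 hb).1 d hd,
    fun hN => ((hB b).1 hb).2 (hN.of_mem hd)⟩, fun h => ((hB a).1 h).2 ⟨0, by simp⟩⟩
  obtain ⟨s0, hs0⟩ := H.head
  by_cases hA : ∀ c ∈ s0, ¬ Np F a c
  · exact Or.inl ⟨B, s0, hClo, hs0, fun c hc =>
      (hB c).2 ⟨hF a ha c (by rw [hs0]; simp [hc]), hA c hc⟩⟩
  right
  push Not at hA
  have hinf : ∀ p, ∃ q, p < q ∧ Np F a (w q) := by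
    intro p
    induction p with
    | zero =>
      obtain ⟨c, h1, h2⟩ := hA
      have h3 := H.occ 1
      rw [it_succ, show it F a 0 = [a] from rfl, ap_single, hs0] at h3
      obtain ⟨t, -, h4⟩ := ((occ_append (y := [a])).1 h3).2.mem h1
      exact ⟨_, by simp, h4 ▸ h2⟩
    | succ p ih =>
      obtain ⟨q, h1, h2⟩ := ih
      obtain ⟨d, h3, h4⟩ := h2.child H
      have h5 := H.img 1 (occ_single.2 (rfl : w q = w q))
      obtain ⟨t, -, h6⟩ := h5.mem (c := d) (by rwa [← ap_single] at h3)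
      have := H.lt_ph (i := q) (by omega)
      exact ⟨_, by omega, h6 ▸ h4⟩
  obtain ⟨M, hM1, hM⟩ := exists_M F
  have hwd : ∀ (e : Tr) n, e.wd <:+: it F a n → e.1 < k ∧ (∀ c ∈ e.2.1, c < k) ∧ e.2.2 < k :=
    fun e n h => ⟨hit n _ (h.subset (by simp [Tr.wd])),
      fun c hc => hit n _ (h.subset (by simp [Tr.wd, hc])), hit n _ (h.subset (by simp [Tr.wd]))⟩
  have horb : ∃ e : Tr, ∃ n0, e.ok F a ∧ e.wd <:+: it F a n0 ∧
      ∀ b, ∃ j, b < ((TT F a)^[j] e).2.1.length := by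
    by_contra hc
    push Not at hc
    choose! bd hbd using hc
    have hfin : ({c | c < k} ×ˢ {z : List ℕ | z.length ≤ M ∧ ∀ c ∈ z, c < k} ×ˢ
        {c | c < k}).Finite :=
      (Set.finite_lt_nat k).prod ((finite_words _ _).prod (Set.finite_lt_nat k))
    let rep : Tr → ℕ := fun e => if h : ∃ n0, e.wd <:+: it F a n0 then bd e h.choose else 0
    obtain ⟨T, hT⟩ := (hfin.image rep).bddAbove
    obtain ⟨e', n, h1, h2, h3⟩ := long_triple H hs hG hinf (T + 1)
    obtain ⟨e, j, n0, k1, k2, k3, rfl⟩ := ancestor H hM n e' h1 h2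
    have k4 := hwd e n0 k2
    have k5 : rep e ≤ T := hT ⟨e, ⟨k4.1, ⟨k3, k4.2.1⟩, k4.2.2⟩, rfl⟩
    have hex : ∃ n0, e.wd <:+: it F a n0 := ⟨n0, k2⟩
    simp only [rep, dif_pos hex] at k5
    have := hbd e _ k1 hex.choose_spec j
    omega
  obtain ⟨e, n0, o, hin, hun⟩ := horb
  let E : ℕ → Tr := fun j => (TT F a)^[j] e
  have hok : ∀ j, (E j).ok F a := fun j => (TT_iter H o j).2
  have hst : ∀ j q, Step F q (E j) (E (j + q)) := by
    intro j q
    have := (TT_iter H (hok j) q).1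
    rwa [← Function.iterate_add_apply, add_comm] at this
  have hEin : ∀ j, (E j).wd <:+: it F a (j + n0) := by
    intro j
    have := (TT_iter H o j).1.infx.trans (apk_infix (F := F) j hin)
    unfold it at this ⊢
    rwa [← apk_add] at this
  set I := (List.range k).filter (fun c => decide (¬ ∃ n, apk F n [c] = [])) with hIdef
  have hI : ∀ c, c ∈ I ↔ c < k ∧ ¬ ∃ n, apk F n [c] = [] := by simp [hIdef]
  obtain ⟨t, ht⟩ := uniform (s := k) (P := fun c n => apk F n [c] = [])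
    (fun c n h => by rw [apk_succ, h, ap_nil])
  have hIc : ∀ c ∈ I, ∃ d ∈ F.getD c [], d ∈ I := by
    intro c hc
    by_contra h
    push Not at h
    refine ((hI c).1 hc).2 ⟨t + 1, ?_⟩
    rw [apk_succ', ap_single, List.eq_nil_iff_forall_not_mem]
    intro x hx
    obtain ⟨d, h1, h2⟩ := mem_apk.1 hx
    have h3 := hF c ((hI c).1 hc).1 d h1
    have h4 : ∃ n, apk F n [d] = [] := by
      by_contra h5
      exact h d h1 ((hI d).2 ⟨h3, h5⟩)
    rw [ht d h3 h4] at h2
    simp at h2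
  have hlen : ∀ v : List ℕ, (∀ c ∈ v, c < k) → (apk F t v).length ≤ M ^ t * cnt I v := by
    intro v hv
    induction v with
    | nil => simp
    | cons c v ih =>
      have h1 := ih (fun d hd => hv d (by simp [hd]))
      rw [apk_cons, cnt_cons, List.length_append, mul_add]
      by_cases hc : c ∈ I
      · have h2 : (apk F t [c]).length ≤ M ^ t := by simpa using apk_len_pow hM t [c]
        have h3 : M ^ t * 1 ≤ M ^ t * cnt I [c] :=
          Nat.mul_le_mul_left _ (cnt_pos (d := c) (by simp) hc)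
        omega
      · have h4 : ∃ n, apk F n [c] = [] := by
          by_contra h5
          exact hc ((hI c).2 ⟨hv c (by simp), h5⟩)
        rw [ht c (hv c (by simp)) h4]
        simp only [List.length_nil]; omega
  have hmono : Monotone fun j => cnt I (E j).2.1 := by
    refine monotone_nat_of_le_succ fun j => ?_
    obtain ⟨y, s, p, y', -, -, h3⟩ := hst j 1
    have := (cnt_subk hIc 1 (List.nil_sublist (E j).2.1)).2
    simp only [h3, cnt_append]
    simp only [apk_nil, cnt_nil] at this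
    omega
  have hcu : ∀ j, ∃ j', j < j' ∧ cnt I (E j).2.1 < cnt I (E j').2.1 := by
    intro j
    obtain ⟨T, hT⟩ := ((Set.finite_lt_nat t).image fun i => (E i).2.1.length).bddAbove
    obtain ⟨i, hi⟩ := hun (T + 2 * M ^ t + M ^ t * cnt I (E j).2.1)
    change _ < (E i).2.1.length at hi
    have h1 : t ≤ i := by
      by_contra hc
      have : (E i).2.1.length ≤ T := hT ⟨i, by simpa using hc, rfl⟩
      omega
    obtain ⟨y, s, p, y', h2, h3, h4⟩ := hst (i - t) t
    rw [show i - t + t = i by omega] at h2 h3 h4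
    have l1 : (apk F t [(E (i - t)).1]).length ≤ M ^ t := by simpa using apk_len_pow hM t [_]
    have l2 : (apk F t [(E (i - t)).2.2]).length ≤ M ^ t := by simpa using apk_len_pow hM t [_]
    have l3 := hlen _ (hwd _ _ (hEin (i - t))).2.1
    rw [h2] at l1
    rw [h3] at l2
    rw [h4] at hi
    simp only [List.length_append] at l1 l2 hi
    have l4 : cnt I (E j).2.1 < cnt I (E (i - t)).2.1 := by
      by_contra hc
      have := Nat.mul_le_mul_left (M ^ t) (not_lt.1 hc)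
      omega
    refine ⟨i - t, ?_, l4⟩
    by_contra hc
    exact absurd (hmono (not_lt.1 hc)) (not_le.2 l4)
  choose nx hnx using hcu
  let sg : ℕ → ℕ := fun n => nx^[n] 0
  have hsg : ∀ n, sg (n + 1) = nx (sg n) := fun n => Function.iterate_succ_apply' _ _ _
  have m1 : StrictMono sg := strictMono_nat_of_lt_succ fun n => by rw [hsg]; exact (hnx _).1
  have m2 : StrictMono fun n => cnt I (E (sg n)).2.1 :=
    strictMono_nat_of_lt_succ fun n => by rw [hsg]; exact (hnx _).2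
  obtain ⟨m, n, h1, h2, h3, h4⟩ := higman (k := k) (fun n => E (sg n)) (fun n => hwd _ _ (hEin _))
  have h5 := m1 h1
  obtain ⟨y, s, p, y', k1, k2, k3⟩ := hst (sg m) (sg n - sg m)
  rw [show sg m + (sg n - sg m) = sg n by omega] at k1 k2 k3
  obtain ⟨al, be, k4⟩ := hEin (sg m)
  refine ⟨_, sg n - sg m, B, I, [(E (sg m)).1], [(E (sg m)).2.2], (E (sg m)).2.1, y, s, p, y', al, be,
    hClo, hIc, by rw [k1, h2], by rw [k2, h4], fun c hc => ?_, k3 ▸ h3, k3 ▸ m2 h1, k4.symm⟩
  have hv : ∀ j, ∀ c ∈ (E j).2.1, c ∈ B := fun j c hc =>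
    (hB c).2 ⟨(hwd _ _ (hEin j)).2.1 c hc, (hok j).2.2 c hc⟩
  simp only [List.mem_append] at hc
  rcases hc with (hc | hc) | hc
  · exact hv (sg n) c (by rw [k3]; simp [hc])
  · exact hv _ c hc
  · exact hv (sg n) c (by rw [k3]; simp [hc])

end

end Pool.Agent.H17.Qp
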