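import Pool.Agent.H17.Qp6

set_option autoImplicit false

namespace Pool.Agent.H17.Qp

attribute [fun_prop] Primrec

section basic
variable {X Y β γ : Type} [Primcodable X] [Primcodable Y] [Primcodable β] [Primcodable γ]

@[fun_prop] theorem p_id : Primrec (fun x : X => x) := Primrec.id
@[fun_prop] theorem p_const (b : β) : Primrec (fun _ : X => b) := Primrec.const b
@[fun_prop] theorem p_comp {f : β → γ} {g : X → β} (hf : Primrec f) (hg : Primrec g) :
    Primrec (fun x => f (g x)) := hf.comp hg
@[fun_prop] theorem p_pair {f : X → β} {g : X → γ} (hf : Primrec f) (hg : Primrec g) :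
    Primrec (fun x => (f x, g x)) := hf.pair hg
@[fun_prop] theorem p_fst {f : X → β × γ} (hf : Primrec f) : Primrec (fun x => (f x).1) :=
  Primrec.fst.comp hf
@[fun_prop] theorem p_snd {f : X → β × γ} (hf : Primrec f) : Primrec (fun x => (f x).2) :=
  Primrec.snd.comp hf
@[fun_prop] theorem p_len {f : X → List β} (hf : Primrec f) : Primrec (fun x => (f x).length) :=
  Primrec.list_length.comp hf
@[fun_prop] theorem p_range {f : X → ℕ} (hf : Primrec f) : Primrec (fun x => List.range (f x)) :=
  Primrec.list_range.comp hf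
@[fun_prop] theorem p_add {f g : X → ℕ} (hf : Primrec f) (hg : Primrec g) :
    Primrec (fun x => f x + g x) := Primrec.nat_add.comp hf hg
@[fun_prop] theorem p_map {f : X → List β} {g : X → β → γ} (hf : Primrec f)
    (hg : Primrec (fun p : X × β => g p.1 p.2)) : Primrec (fun x => (f x).map (g x)) :=
  Primrec.list_map hf hg
@[fun_prop] theorem p_flatMap {f : X → List β} {g : X → β → List γ} (hf : Primrec f)
    (hg : Primrec (fun p : X × β => g p.1 p.2)) : Primrec (fun x => (f x).flatMap (g x)) :=
  Primrec.list_flatMap hf hg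
@[fun_prop] theorem p_cons {f : X → β} {g : X → List β} (hf : Primrec f) (hg : Primrec g) :
    Primrec (fun x => f x :: g x) := Primrec.list_cons.comp hf hg
@[fun_prop] theorem p_append {f g : X → List β} (hf : Primrec f) (hg : Primrec g) :
    Primrec (fun x => f x ++ g x) := Primrec.list_append.comp hf hg
@[fun_prop] theorem p_take {f : X → ℕ} {g : X → List β} (hf : Primrec f) (hg : Primrec g) :
    Primrec (fun x => (g x).take (f x)) := Primrec.list_take.comp hf hg
@[fun_prop] theorem p_drop {f : X → ℕ} {g : X → List β} (hf : Primrec f) (hg : Primrec g) :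
    Primrec (fun x => (g x).drop (f x)) := Primrec.list_drop.comp hf hg
@[fun_prop] theorem p_getD {f : X → List (List ℕ)} {g : X → ℕ} (hf : Primrec f) (hg : Primrec g) :
    Primrec (fun x => (f x).getD (g x) []) := (Primrec.list_getD []).comp hf hg

@[fun_prop] theorem p_allL {f : X → List ℕ} {g : X → ℕ} (hf : Primrec f) (hg : Primrec g) :
    Primrec (fun x => allL (f x) (g x)) :=
  Primrec.nat_rec' (g := fun _ => [[]])
    (h := fun x (r : ℕ × List (List ℕ)) => (f x).flatMap fun a => r.2.map fun l => a :: l)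
    hg (.const _) (show Primrec _ by fun_prop)

@[fun_prop] theorem p_ap {f : X → List (List ℕ)} {g : X → List ℕ} (hf : Primrec f)
    (hg : Primrec g) : Primrec (fun x => ap (f x) (g x)) := by
  unfold ap; fun_prop

@[fun_prop] theorem p_apk {f : X → List (List ℕ)} {k : X → ℕ} {g : X → List ℕ} (hf : Primrec f)
    (hk : Primrec k) (hg : Primrec g) : Primrec (fun x => apk (f x) (k x) (g x)) :=
  Primrec.nat_iterate (h := fun x y => ap (f x) y) hk hg (show Primrec _ by fun_prop)

@[fun_prop] theorem p_it {f : X → List (List ℕ)} {a k : X → ℕ} (hf : Primrec f)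
    (ha : Primrec a) (hk : Primrec k) : Primrec (fun x => it (f x) (a x) (k x)) := by
  unfold it; fun_prop

theorem pall {L : X → List β} {P : X → β → Prop} (hL : Primrec L)
    (hP : PrimrecPred fun p : X × β => P p.1 p.2) : PrimrecPred fun x => ∀ a ∈ L x, P x a :=
  (PrimrecRel.forall_mem_list (R := fun a x => P x a)
    (hP.comp (Primrec.snd.pair Primrec.fst))).comp hL Primrec.id

theorem pex {L : X → List β} {P : X → β → Prop} (hL : Primrec L)
    (hP : PrimrecPred fun p : X × β => P p.1 p.2) : PrimrecPred fun x => ∃ a ∈ L x, P x a :=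
  (PrimrecRel.exists_mem_list (R := fun a x => P x a)
    (hP.comp (Primrec.snd.pair Primrec.fst))).comp hL Primrec.id

theorem peq {f g : X → β} (hf : Primrec f) (hg : Primrec g) : PrimrecPred fun x => f x = g x :=
  Primrec.eq.comp hf hg

theorem ple {f g : X → ℕ} (hf : Primrec f) (hg : Primrec g) : PrimrecPred fun x => f x ≤ g x :=
  Primrec.nat_le.comp hf hg

theorem plt {f g : X → ℕ} (hf : Primrec f) (hg : Primrec g) : PrimrecPred fun x => f x < g x :=
  Primrec.nat_lt.comp hf hg

theorem pmem {f : X → β} {L : X → List β} (hf : Primrec f) (hL : Primrec L) :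
    PrimrecPred fun x => f x ∈ L x :=
  (pex (P := fun x a => f x = a) hL (peq (by fun_prop) (by fun_prop))).of_eq (by simp)

theorem pimp {p q : X → Prop} (hp : PrimrecPred p) (hq : PrimrecPred q) :
    PrimrecPred fun x => p x → q x :=
  (hp.not.or hq).of_eq fun _ => imp_iff_not_or.symm

theorem ppre {f g : X → List β} (hf : Primrec f) (hg : Primrec g) :
    PrimrecPred fun x => f x <+: g x :=
  (peq (f := f) (g := fun x => (g x).take (f x).length) hf (by fun_prop)).of_eq
    fun _ => List.prefix_iff_eq_take.symm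

def subs (L : List ℕ) : List (List ℕ) :=
  L.foldr (fun a r => r ++ r.map fun l => a :: l) [[]]

theorem mem_subs {L T : List ℕ} : T ∈ subs L ↔ T.Sublist L := by
  induction L generalizing T with
  | nil => simp [subs]
  | cons a L ih =>
    show T ∈ subs L ++ (subs L).map (fun l => a :: l) ↔ _
    simp only [List.mem_append, List.mem_map, ih, List.sublist_cons_iff]
    constructor
    · rintro (h | ⟨l, h, rfl⟩)
      exacts [Or.inl h, Or.inr ⟨l, rfl, h⟩]
    · rintro (h | ⟨l, rfl, h⟩)
      exacts [Or.inl h, Or.inr ⟨l, h, rfl⟩]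

@[fun_prop] theorem p_subs {f : X → List ℕ} (hf : Primrec f) : Primrec (fun x => subs (f x)) :=
  Primrec.list_foldr (g := fun _ => [[]])
    (h := fun _ (r : ℕ × List (List ℕ)) => r.2 ++ r.2.map fun l => r.1 :: l)
    hf (.const _) (show Primrec _ by fun_prop)

theorem psub {f g : X → List ℕ} (hf : Primrec f) (hg : Primrec g) :
    PrimrecPred fun x => (f x).Sublist (g x) :=
  (pmem hf (p_subs hg)).of_eq fun _ => mem_subs

@[fun_prop] theorem p_cnt {f g : X → List ℕ} (hf : Primrec f) (hg : Primrec g) :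
    Primrec (fun x => cnt (f x) (g x)) := by
  have h1 : PrimrecRel fun (c : ℕ) (I : List ℕ) => c ∈ I :=
    pmem (X := ℕ × List ℕ) (by fun_prop) (by fun_prop)
  exact Primrec.list_length.comp (h1.listFilter.comp hg hf)

variable {F Th Th' h : X → List (List ℕ)} {a n q : X → ℕ} {u u' : X → List ℕ}

theorem p_RS (hF : Primrec F) (ha : Primrec a) (hu : Primrec u) (hT : Primrec Th)
    (hh : Primrec h) (hn : Primrec n) :
    PrimrecPred fun x => RS (F x) (a x) (u x) (Th x) (h x) (n x) := by
  unfold RS
  repeat' first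
    | exact ple (by fun_prop) (by fun_prop) | exact plt (by fun_prop) (by fun_prop)
    | exact ppre (by fun_prop) (by fun_prop) | exact peq (by fun_prop) (by fun_prop)
    | exact pmem (by fun_prop) (by fun_prop) | exact psub (by fun_prop) (by fun_prop)
    | refine PrimrecPred.and ?_ ?_ | refine PrimrecPred.or ?_ ?_ | refine PrimrecPred.not ?_
    | refine pall (by fun_prop) ?_ | refine pex (by fun_prop) ?_ | refine pimp ?_ ?_

theorem p_YC (hF : Primrec F) (ha : Primrec a) (hn : Primrec n) (hu : Primrec u)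
    (hT : Primrec Th) (hh : Primrec h) :
    PrimrecPred fun x => YC (F x) (a x) (n x) (u x) (Th x) (h x) := by
  unfold YC
  repeat' first
    | exact ple (by fun_prop) (by fun_prop) | exact plt (by fun_prop) (by fun_prop)
    | exact ppre (by fun_prop) (by fun_prop) | exact peq (by fun_prop) (by fun_prop)
    | exact pmem (by fun_prop) (by fun_prop) | exact psub (by fun_prop) (by fun_prop)
    | exact p_RS hF ha hu hT hh hn
    | refine PrimrecPred.and ?_ ?_ | refine PrimrecPred.or ?_ ?_ | refine PrimrecPred.not ?_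
    | refine pall (by fun_prop) ?_ | refine pex (by fun_prop) ?_ | refine pimp ?_ ?_

theorem p_C1 (hT : Primrec Th) (hu : Primrec u) : PrimrecPred fun x => C1 (Th x) (u x) := by
  unfold C1
  repeat' first
    | exact ple (by fun_prop) (by fun_prop) | exact plt (by fun_prop) (by fun_prop)
    | exact ppre (by fun_prop) (by fun_prop) | exact peq (by fun_prop) (by fun_prop)
    | exact pmem (by fun_prop) (by fun_prop) | exact psub (by fun_prop) (by fun_prop)
    | refine PrimrecPred.and ?_ ?_ | refine PrimrecPred.or ?_ ?_ | refine PrimrecPred.not ?_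
    | refine pall (by fun_prop) ?_ | refine pex (by fun_prop) ?_ | refine pimp ?_ ?_

theorem p_Cmp (hT : Primrec Th) (hu : Primrec u) (ha : Primrec a) (hn : Primrec n)
    (hz : Primrec u') : PrimrecPred fun x => Cmp (Th x) (u x) (a x) (n x) (u' x) := by
  unfold Cmp
  repeat' first
    | exact ple (by fun_prop) (by fun_prop) | exact plt (by fun_prop) (by fun_prop)
    | exact ppre (by fun_prop) (by fun_prop) | exact peq (by fun_prop) (by fun_prop)
    | exact pmem (by fun_prop) (by fun_prop) | exact psub (by fun_prop) (by fun_prop)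
    | refine PrimrecPred.and ?_ ?_ | refine PrimrecPred.or ?_ ?_ | refine PrimrecPred.not ?_
    | refine pall (by fun_prop) ?_ | refine pex (by fun_prop) ?_ | refine pimp ?_ ?_

theorem p_C5 (hu : Primrec u) (hn : Primrec n) : PrimrecPred fun x => C5 (u x) (n x) := by
  unfold C5
  repeat' first
    | exact ple (by fun_prop) (by fun_prop) | exact plt (by fun_prop) (by fun_prop)
    | exact ppre (by fun_prop) (by fun_prop) | exact peq (by fun_prop) (by fun_prop)
    | exact pmem (by fun_prop) (by fun_prop) | exact psub (by fun_prop) (by fun_prop)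
    | refine PrimrecPred.and ?_ ?_ | refine PrimrecPred.or ?_ ?_ | refine PrimrecPred.not ?_
    | refine pall (by fun_prop) ?_ | refine pex (by fun_prop) ?_ | refine pimp ?_ ?_

theorem p_N1 (hF : Primrec F) (ha : Primrec a) (hn : Primrec n) (hu : Primrec u)
    (hu' : Primrec u') (hT : Primrec Th) (hT' : Primrec Th') (hh : Primrec h) :
    PrimrecPred fun x => N1 (F x) (a x) (n x) (u x) (u' x) (Th x) (Th' x) (h x) := by
  unfold N1
  repeat' first
    | exact ple (by fun_prop) (by fun_prop) | exact plt (by fun_prop) (by fun_prop)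
    | exact ppre (by fun_prop) (by fun_prop) | exact peq (by fun_prop) (by fun_prop)
    | exact pmem (by fun_prop) (by fun_prop) | exact psub (by fun_prop) (by fun_prop)
    | exact p_RS hF ha hu hT hh hn | exact p_RS hF ha hu' hT' hh hn | exact p_C1 hT' hu'
    | exact p_C5 (by fun_prop) (by fun_prop)
    | exact p_Cmp (by fun_prop) (by fun_prop) (by fun_prop) (by fun_prop) (by fun_prop)
    | refine PrimrecPred.and ?_ ?_ | refine PrimrecPred.or ?_ ?_ | refine PrimrecPred.not ?_
    | refine pall (by fun_prop) ?_ | refine pex (by fun_prop) ?_ | refine pimp ?_ ?_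

theorem p_Clo (hF : Primrec F) (ha : Primrec a) (hu : Primrec u) :
    PrimrecPred fun x => Clo (F x) (a x) (u x) := by
  unfold Clo
  repeat' first
    | exact ple (by fun_prop) (by fun_prop) | exact plt (by fun_prop) (by fun_prop)
    | exact ppre (by fun_prop) (by fun_prop) | exact peq (by fun_prop) (by fun_prop)
    | exact pmem (by fun_prop) (by fun_prop) | exact psub (by fun_prop) (by fun_prop)
    | refine PrimrecPred.and ?_ ?_ | refine PrimrecPred.or ?_ ?_ | refine PrimrecPred.not ?_
    | refine pall (by fun_prop) ?_ | refine pex (by fun_prop) ?_ | refine pimp ?_ ?_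

theorem p_N00 (hF : Primrec F) (ha : Primrec a) (hu : Primrec u) (hu' : Primrec u') :
    PrimrecPred fun x => N00 (F x) (a x) (u x) (u' x) := by
  unfold N00
  repeat' first
    | exact ple (by fun_prop) (by fun_prop) | exact plt (by fun_prop) (by fun_prop)
    | exact ppre (by fun_prop) (by fun_prop) | exact peq (by fun_prop) (by fun_prop)
    | exact pmem (by fun_prop) (by fun_prop) | exact psub (by fun_prop) (by fun_prop)
    | exact p_Clo hF ha hu
    | refine PrimrecPred.and ?_ ?_ | refine PrimrecPred.or ?_ ?_ | refine PrimrecPred.not ?_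
    | refine pall (by fun_prop) ?_ | refine pex (by fun_prop) ?_ | refine pimp ?_ ?_

def N0L (F : List (List ℕ)) (a n q : ℕ) (L : List (List ℕ)) : Prop :=
  N0 F a n q (L.getD 0 []) (L.getD 1 []) (L.getD 2 []) (L.getD 3 []) (L.getD 4 []) (L.getD 5 [])
    (L.getD 6 []) (L.getD 7 []) (L.getD 8 []) (L.getD 9 []) (L.getD 10 [])

theorem p_N0L (hF : Primrec F) (ha : Primrec a) (hn : Primrec n) (hq : Primrec q)
    (hh : Primrec h) : PrimrecPred fun x => N0L (F x) (a x) (n x) (q x) (h x) := by
  unfold N0L N0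
  repeat' first
    | exact ple (by fun_prop) (by fun_prop) | exact plt (by fun_prop) (by fun_prop)
    | exact ppre (by fun_prop) (by fun_prop) | exact peq (by fun_prop) (by fun_prop)
    | exact pmem (by fun_prop) (by fun_prop) | exact psub (by fun_prop) (by fun_prop)
    | exact p_Clo hF ha (by fun_prop)
    | refine PrimrecPred.and ?_ ?_ | refine PrimrecPred.or ?_ ?_ | refine PrimrecPred.not ?_
    | refine pall (by fun_prop) ?_ | refine pex (by fun_prop) ?_ | refine pimp ?_ ?_

def Bad (F : List (List ℕ)) (a n : ℕ) : Prop :=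
  ¬ a < F.length ∨ (∃ l ∈ F, ∃ c ∈ l, ¬ c < F.length) ∨ ¬ [a] <+: F.getD a [] ∨
    it F a (n + 1) = it F a n

theorem p_Bad (hF : Primrec F) (ha : Primrec a) (hn : Primrec n) :
    PrimrecPred fun x => Bad (F x) (a x) (n x) := by
  unfold Bad
  repeat' first
    | exact ple (by fun_prop) (by fun_prop) | exact plt (by fun_prop) (by fun_prop)
    | exact ppre (by fun_prop) (by fun_prop) | exact peq (by fun_prop) (by fun_prop)
    | exact pmem (by fun_prop) (by fun_prop) | exact psub (by fun_prop) (by fun_prop)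
    | refine PrimrecPred.and ?_ ?_ | refine PrimrecPred.or ?_ ?_ | refine PrimrecPred.not ?_
    | refine pall (by fun_prop) ?_ | refine pex (by fun_prop) ?_ | refine pimp ?_ ?_

theorem decide_of_certs [Inhabited β] {A Z : X → β → Prop}
    (hA : PrimrecPred fun p : X × β => A p.1 p.2) (hZ : PrimrecPred fun p : X × β => Z p.1 p.2)
    (tot : ∀ x, ∃ c, A x c ∨ Z x c) :
    ∃ P : X → Prop, ComputablePred P ∧ ∀ x, (P x → ∃ c, A x c) ∧ (¬ P x → ∃ c, Z x c) := by
  classical
  let dec : ℕ → β := fun n => (Encodable.decode n).getD default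
  have hdec : Primrec dec := Primrec.option_getD.comp Primrec.decode (.const _)
  have ex : ∀ x, ∃ n, A x (dec n) ∨ Z x (dec n) := fun x => by
    obtain ⟨c, hc⟩ := tot x
    exact ⟨Encodable.encode c, by simpa [dec] using hc⟩
  have h1 : PrimrecPred fun p : X × ℕ => A p.1 (dec p.2) ∨ Z p.1 (dec p.2) :=
    (hA.or hZ).comp (f := fun p : X × ℕ => (p.1, dec p.2)) (by fun_prop)
  have h2 := Computable.find (P := fun x n => A x (dec n) ∨ Z x (dec n)) h1.computablePred ex
  refine ⟨fun x => A x (dec (Nat.find (ex x))), ?_, fun x => ⟨fun h => ⟨_, h⟩, fun h => ?_⟩⟩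
  · obtain ⟨inst, hA'⟩ := hA
    exact ⟨fun x => inst (x, dec (Nat.find (ex x))), hA'.to_comp.comp
      (Computable.id.pair (hdec.to_comp.comp h2))⟩
  · exact ⟨_, (Nat.find_spec (ex x)).resolve_left h⟩

end basic

abbrev Cert := (ℕ × ℕ) × List (List ℕ) × List (List ℕ) × List (List ℕ) × List (List ℕ)

def Yes (x : List (List ℕ) × ℕ) (c : Cert) : Prop :=
  YC x.1 x.2 c.1.1 (c.2.1.getD 0 []) c.2.2.1 c.2.2.2.2

def No (x : List (List ℕ) × ℕ) (c : Cert) : Prop :=
  Bad x.1 x.2 c.1.1 ∨ N00 x.1 x.2 (c.2.1.getD 0 []) (c.2.1.getD 1 []) ∨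
    N0L x.1 x.2 c.1.1 c.1.2 c.2.1 ∨
    N1 x.1 x.2 c.1.1 (c.2.1.getD 0 []) (c.2.1.getD 1 []) c.2.2.1 c.2.2.2.1 c.2.2.2.2

theorem getD_lt {F : List (List ℕ)} (h : ∀ l ∈ F, ∀ c ∈ l, c < F.length) :
    ∀ c < F.length, ∀ d ∈ F.getD c [], d < F.length := by
  intro c hc d hd
  rw [List.getD_eq_getElem _ _ hc] at hd
  exact h _ (List.getElem_mem hc) d hd

theorem total (x : List (List ℕ) × ℕ) : ∃ c, Yes x c ∨ No x c := by
  obtain ⟨F, a⟩ := x
  by_cases hb : ∃ n, Bad F a n
  · obtain ⟨n, hn⟩ := hb
    exact ⟨((n, 0), [], [], [], []), Or.inr (Or.inl hn)⟩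
  simp only [Bad, not_exists, not_or, not_not, not_and] at hb
  obtain ⟨ha, hl, ⟨s, hs⟩, -⟩ := hb 0
  have hd : ∃ s, F.getD a [] = a :: s := ⟨s, hs.symm⟩
  have hF := getD_lt hl
  have unb : ∀ m, ∃ n, m < (it F a n).length := by
    intro m
    refine ⟨m, ?_⟩
    induction m with
    | zero => simp [it]
    | succ m ih =>
      have h1 := it_pre hd m
      have h2 := h1.length_le
      rcases h2.lt_or_eq with h3 | h3
      · omega
      · exact absurd (h1.eq_of_length h3).symm (hb m).2.2.2
  obtain ⟨w, H⟩ := exists_fx hd unb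
  have hw := H.letter ha hF
  by_cases hq : QP w
  · obtain ⟨n, u, Th, h, c⟩ := YC.complete H hw hq
    exact ⟨((n, 0), [u], Th, [], h), Or.inl c⟩
  by_cases hG : Gap w a
  · obtain ⟨n, u, u', Th, Th', h, c⟩ := N1.complete H hw hG hq
    exact ⟨((n, 0), [u, u'], Th, Th', h), Or.inr (Or.inr (Or.inr (Or.inr c)))⟩
  rcases n0_complete H ha hF hG with ⟨B, s, c⟩ | ⟨n, q, B, I, e1, e2, v, y, s, p, y', al, be, c⟩
  · exact ⟨((0, 0), [B, s], [], [], []), Or.inr (Or.inr (Or.inl c))⟩
  · exact ⟨((n, q), [B, I, e1, e2, v, y, s, p, y', al, be], [], [], []),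
      Or.inr (Or.inr (Or.inr (Or.inl c)))⟩

theorem main : ∃ P : List (List ℕ) × ℕ → Prop, ComputablePred P ∧
    ∀ F a w, a < F.length → (∀ l ∈ F, ∀ c ∈ l, c < F.length) → Fx F a w → (P (F, a) ↔ QP w) := by
  obtain ⟨P, hP, h⟩ := decide_of_certs (A := Yes) (Z := No)
    (p_YC (by fun_prop) (by fun_prop) (by fun_prop) (by fun_prop) (by fun_prop) (by fun_prop))
    (PrimrecPred.or (p_Bad (by fun_prop) (by fun_prop) (by fun_prop))
      (PrimrecPred.or (p_N00 (by fun_prop) (by fun_prop) (by fun_prop) (by fun_prop))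
      (PrimrecPred.or (p_N0L (by fun_prop) (by fun_prop) (by fun_prop) (by fun_prop) (by fun_prop))
      (p_N1 (by fun_prop) (by fun_prop) (by fun_prop) (by fun_prop) (by fun_prop) (by fun_prop)
        (by fun_prop) (by fun_prop))))) total
  refine ⟨P, hP, fun F a w ha hl H => ⟨fun hp => ?_, fun hq => ?_⟩⟩
  · obtain ⟨c, hc⟩ := (h _).1 hp
    exact YC.sound H hc
  · by_contra hp
    obtain ⟨c, hc⟩ := (h _).2 hp
    have hG : Gap w a := H.w0 ▸ hq.gap
    rcases hc with (hc | ⟨l, h1, d, h2, h3⟩ | hc | hc) | hc | hc | hc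
    · exact hc ha
    · exact h3 (hl l h1 d h2)
    · obtain ⟨s, hs⟩ := H.head
      exact hc ⟨s, hs.symm⟩
    · simp only at hc
      have key : ∀ k, it F a (c.1.1 + k) = it F a c.1.1 := by
        intro k
        induction k with
        | zero => rfl
        | succ k ih => rw [← add_assoc, it_succ, ih, ← it_succ, hc]
      obtain ⟨m, hm⟩ := H.unb (it F a c.1.1).length
      have := (it_pre' H.head (show m ≤ c.1.1 + m by omega)).length_le
      rw [key] at this
      omega
    · exact hc.sound H hG
    · exact N0.sound H hc hG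
    · exact hc.sound H hq

end Pool.Agent.H17.Qp
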