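import Mathlib

set_option autoImplicit false

namespace Pool.Agent.H17.Reimer

open Finset

/-- linear pieces of the chord interpolation of `m log₂ m` -/
def pc (j m : ℕ) : ℤ := (j + 2) * m - 2 ^ (j + 1)

/-- chord interpolation of `m log₂ m` at powers of two -/
def Cb (m : ℕ) : ℤ := if m = 0 then 0 else pc (Nat.log 2 m) m

lemma pc_le (j m : ℕ) (hm : m ≠ 0) : pc j m ≤ Cb m := by
  rw [Cb, if_neg hm]
  have l2 : 2 ^ Nat.log 2 m ≤ m := Nat.pow_log_le_self 2 hm
  have l3 : m < 2 ^ (Nat.log 2 m + 1) := Nat.lt_pow_succ_log_self (by norm_num) m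
  generalize Nat.log 2 m = l at *
  rcases le_total j l with h | h
  · induction h using Nat.decreasingInduction with
    | self => exact le_rfl
    | of_succ k hk ih =>
      refine le_trans ?_ ih
      have : 2 ^ (k + 1) ≤ m := le_trans (Nat.pow_le_pow_right (by norm_num) hk) l2
      have h2 : (2 : ℤ) ^ (k + 1) ≤ m := by exact_mod_cast this
      unfold pc
      push_cast
      rw [pow_succ (2 : ℤ) (k + 1)]
      linarith
  · induction h with
    | refl => exact le_rfl
    | @step k hk ih =>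
      refine le_trans ?_ ih
      have : m ≤ 2 ^ (k + 1) := le_trans l3.le (Nat.pow_le_pow_right (by norm_num) (by
        exact Nat.succ_le_succ hk))
      have h2 : (m : ℤ) ≤ 2 ^ (k + 1) := by exact_mod_cast this
      unfold pc
      push_cast
      rw [pow_succ (2 : ℤ) (k + 1)]
      linarith

lemma Cb_super (a b : ℕ) (h : a ≤ b) : Cb a + Cb b + 2 * a ≤ Cb (a + b) := by
  by_cases ha : a = 0
  · simp [ha, Cb]
  have hb : b ≠ 0 := by omega
  have p1 := pc_le (Nat.log 2 b) (a + b) (by omega)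
  have p2 := pc_le (Nat.log 2 b + 1) (a + b) (by omega)
  rw [Cb, if_neg ha, Cb, if_neg hb]
  have l1 : Nat.log 2 a ≤ Nat.log 2 b := Nat.log_mono_right h
  have l3 : a < 2 ^ (Nat.log 2 a + 1) := Nat.lt_pow_succ_log_self (by norm_num) a
  have l4 : (a : ℤ) < 2 ^ (Nat.log 2 a + 1) := by exact_mod_cast l3
  have h' : (a : ℤ) ≤ b := by exact_mod_cast h
  generalize Nat.log 2 a = i at *
  generalize Nat.log 2 b = j at *
  unfold pc at *
  push_cast at *
  rcases Nat.eq_or_lt_of_le l1 with rfl | l5
  · rw [pow_succ (2 : ℤ) (i + 1)] at p2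
    linarith
  · have : (i : ℤ) + 1 ≤ j := by exact_mod_cast l5
    have a0 : (0 : ℤ) ≤ a := by positivity
    nlinarith

def tbl : List ℕ := [0, 0, 2, 4, 8, 10, 14, 18, 24, 26, 30, 34, 40, 44, 50, 56, 64, 66, 70, 74, 80,
  84, 90, 96, 104, 108, 114, 120, 128, 134, 142, 150, 160]

/-- upper bound for twice the number of edges spanned by `m` vertices of a cube -/
def Eb (m : ℕ) : ℤ := if m ≤ 32 then (tbl.getD m 0 : ℕ) else Cb m

lemma Eb_le (m : ℕ) : Eb m ≤ Cb m := by
  unfold Eb
  split_ifs with h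
  · have : ∀ m ≤ 32, ((tbl.getD m 0 : ℕ) : ℤ) ≤ Cb m := by decide +kernel
    exact this m h
  · exact le_rfl

lemma Eb_super (a b : ℕ) (h : a ≤ b) : Eb a + Eb b + 2 * a ≤ Eb (a + b) := by
  by_cases h2 : a + b ≤ 32
  · have : ∀ a ≤ 32, ∀ b ≤ 32, a ≤ b → a + b ≤ 32 → Eb a + Eb b + 2 * a ≤ Eb (a + b) := by
      decide +kernel
    exact this a (by omega) b (by omega) h h2
  · have := Cb_super a b h
    have h3 : Eb (a + b) = Cb (a + b) := by rw [Eb, if_neg h2]
    linarith [Eb_le a, Eb_le b]

variable {α : Type} [DecidableEq α]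

lemma sum_split (a : α) (B : Finset (Finset α)) (f : Finset α → ℤ) :
    ∑ y ∈ B, f y = ∑ y ∈ B.nonMemberSubfamily a, f y +
      ∑ y ∈ B.memberSubfamily a, f (insert a y) := by
  rw [← sum_filter_add_sum_filter_not B (fun y => a ∉ y)]
  congr 1
  symm
  refine sum_bij (fun y _ => insert a y) ?_ ?_ ?_ (fun _ _ => rfl)
  · intro y hy
    rw [mem_memberSubfamily] at hy
    simp [hy.1]
  · intro y hy z hz h
    rw [mem_memberSubfamily] at hy hz
    rw [← erase_insert hy.2, h, erase_insert hz.2]
  · intro y hy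
    simp only [mem_filter, not_not] at hy
    refine ⟨y.erase a, ?_, insert_erase hy.2⟩
    rw [mem_memberSubfamily, insert_erase hy.2]
    exact ⟨hy.1, notMem_erase a y⟩

lemma upset_bound (U : Finset α) : ∀ G : Finset (Finset α), G ⊆ U.powerset →
    (∀ B ∈ G, ∀ x ∈ U, insert x B ∈ G) →
    2 * ∑ B ∈ G, ((U.card : ℤ) - B.card) ≤ Eb G.card := by
  induction U using Finset.induction_on with
  | empty =>
    intro G hG _
    rw [powerset_empty, subset_singleton_iff] at hG
    rcases hG with rfl | rfl <;> simp [Eb, tbl]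
  | insert a U ha ih =>
    intro G hG hup
    have s0 : G.nonMemberSubfamily a ⊆ U.powerset := by
      intro y hy
      rw [mem_nonMemberSubfamily] at hy
      have := mem_powerset.mp (hG hy.1)
      exact mem_powerset.mpr ((subset_insert_iff_of_notMem hy.2).mp this)
    have s1 : G.memberSubfamily a ⊆ U.powerset := by
      intro y hy
      rw [mem_memberSubfamily] at hy
      have := (subset_insert a y).trans (mem_powerset.mp (hG hy.1))
      exact mem_powerset.mpr ((subset_insert_iff_of_notMem hy.2).mp this)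
    have i0 := ih _ s0 (by
      intro B hB x hx
      rw [mem_nonMemberSubfamily] at hB ⊢
      refine ⟨hup B hB.1 x (mem_insert_of_mem hx), ?_⟩
      rw [mem_insert, not_or]
      exact ⟨fun h => ha (h ▸ hx), hB.2⟩)
    have i1 := ih _ s1 (by
      intro B hB x hx
      rw [mem_memberSubfamily] at hB ⊢
      refine ⟨?_, ?_⟩
      · rw [insert_comm]
        exact hup _ hB.1 x (mem_insert_of_mem hx)
      · rw [mem_insert, not_or]
        exact ⟨fun h => ha (h ▸ hx), hB.2⟩)
    have sub : G.nonMemberSubfamily a ⊆ G.memberSubfamily a := by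
      intro B hB
      rw [mem_nonMemberSubfamily] at hB
      rw [mem_memberSubfamily]
      exact ⟨hup B hB.1 a (mem_insert_self _ _), hB.2⟩
    have sup := Eb_super _ _ (card_le_card sub)
    rw [add_comm (G.nonMemberSubfamily a).card,
      card_memberSubfamily_add_card_nonMemberSubfamily] at sup
    rw [sum_split a G, card_insert_of_notMem ha]
    have e1 : ∑ y ∈ G.memberSubfamily a, (((U.card + 1 : ℕ) : ℤ) - (insert a y).card) =
        ∑ y ∈ G.memberSubfamily a, ((U.card : ℤ) - y.card) := by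
      refine sum_congr rfl fun y hy => ?_
      rw [card_insert_of_notMem (mem_memberSubfamily.mp hy).2]
      push_cast; ring
    have e0 : ∑ y ∈ G.nonMemberSubfamily a, (((U.card + 1 : ℕ) : ℤ) - y.card) =
        ∑ y ∈ G.nonMemberSubfamily a, ((U.card : ℤ) - y.card) + (G.nonMemberSubfamily a).card := by
      rw [card_eq_sum_ones (G.nonMemberSubfamily a)]
      push_cast
      rw [← sum_add_distrib]
      refine sum_congr rfl fun y _ => by ring
    rw [e0, e1]
    linarith

lemma compress (F : Finset (Finset α)) (hF : ∀ A ∈ F, ∀ B ∈ F, A ∪ B ∈ F) (S : Finset α) :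
    ∃ φ : Finset α → Finset α, (∀ A, A ⊆ φ A ∧ φ A ⊆ A ∪ S) ∧ Set.InjOn φ F ∧
      (∀ X ∈ F.image φ, ∀ s ∈ S, insert s X ∈ F.image φ) ∧
      (∀ X ∈ F.image φ, ∀ D ∈ F, X ∪ D ∈ F.image φ) ∧
      (∀ A ∈ F, ∀ D ∈ F, A ⊆ D → D ⊆ φ A → D = A) := by
  induction S using Finset.induction_on with
  | empty =>
    refine ⟨id, by simp, Set.injOn_id _, by simp, by simpa using hF, ?_⟩
    intro A _ D _ h1 h2
    exact Subset.antisymm h2 h1
  | insert k S hk ih =>
    obtain ⟨φ, h1, h2, h3, h4, h5⟩ := ih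
    set G := F.image φ with hG
    let u : Finset α → Finset α := fun X => if insert k X ∈ G then X else insert k X
    have mem : ∀ Y, Y ∈ F.image (u ∘ φ) ↔
        (k ∈ Y ∧ (Y ∈ G ∨ Y.erase k ∈ G)) ∨ (Y ∈ G ∧ insert k Y ∈ G) := by
      intro Y
      rw [← image_image, ← hG, mem_image]
      constructor
      · rintro ⟨X, hX, rfl⟩
        simp only [u]
        split_ifs with h
        · exact Or.inr ⟨hX, h⟩
        · have hkX : k ∉ X := fun h' => h (by rwa [insert_eq_of_mem h'])
          exact Or.inl ⟨mem_insert_self _ _, Or.inr (by rwa [erase_insert hkX])⟩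
      · rintro (⟨a1, a2⟩ | ⟨a1, a2⟩)
        · by_cases hY : Y ∈ G
          · exact ⟨Y, hY, by simp [u, insert_eq_of_mem a1, hY]⟩
          · exact ⟨Y.erase k, a2.resolve_left hY, by simp [u, insert_erase a1, hY]⟩
        · exact ⟨Y, a1, by simp [u, a2]⟩
    have closed : ∀ D : Finset α, (∀ X ∈ G, X ∪ D ∈ G) →
        ∀ X ∈ F.image (u ∘ φ), X ∪ D ∈ F.image (u ∘ φ) := by
      intro D hD X hX
      rw [mem] at hX ⊢
      rcases hX with ⟨a1, a2 | a2⟩ | ⟨a1, a2⟩
      · exact Or.inl ⟨mem_union_left _ a1, Or.inl (hD X a2)⟩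
      · refine Or.inl ⟨mem_union_left _ a1, ?_⟩
        have := hD _ a2
        by_cases hkD : k ∈ D
        · left
          convert this using 1
          ext x
          by_cases hx : x = k <;> simp [hx, hkD]
        · right
          convert this using 1
          ext x
          by_cases hx : x = k <;> simp [hx, hkD]
      · refine Or.inr ⟨hD X a1, ?_⟩
        rw [← insert_union]
        exact hD _ a2
    refine ⟨u ∘ φ, ?_, ?_, ?_, ?_, ?_⟩
    · intro A
      simp only [Function.comp, u]
      split_ifs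
      · exact ⟨(h1 A).1, (h1 A).2.trans (union_subset_union_right (subset_insert _ _))⟩
      · refine ⟨(h1 A).1.trans (subset_insert _ _), ?_⟩
        rw [union_insert]
        exact insert_subset_insert _ (h1 A).2
    · intro A hA B hB h
      apply h2 hA hB
      have hA' : φ A ∈ G := mem_image_of_mem _ hA
      have hB' : φ B ∈ G := mem_image_of_mem _ hB
      simp only [Function.comp, u] at h
      split_ifs at h with a1 a2 a2
      · exact h
      · exact absurd (h ▸ hA') a2
      · exact absurd (h ▸ hB') a1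
      · have k1 : k ∉ φ A := fun h' => a1 (by rwa [insert_eq_of_mem h'])
        have k2 : k ∉ φ B := fun h' => a2 (by rwa [insert_eq_of_mem h'])
        rw [← erase_insert k1, h, erase_insert k2]
    · intro X hX s hs
      rcases mem_insert.mp hs with rfl | hs
      · rw [mem] at hX ⊢
        rcases hX with ⟨a1, a2⟩ | ⟨_, a2⟩
        · rw [insert_eq_of_mem a1]; exact Or.inl ⟨a1, a2⟩
        · exact Or.inl ⟨mem_insert_self _ _, Or.inl a2⟩
      · have := closed {s} (fun Y hY => by
          rw [union_comm, ← insert_eq]; exact h3 Y hY s hs) X hX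
        rwa [union_comm, ← insert_eq] at this
    · intro X hX D hD
      exact closed D (fun Y hY => h4 Y hY D hD) X hX
    · intro A hA D hD a1 a2
      simp only [Function.comp, u] at a2
      split_ifs at a2 with h
      · exact h5 A hA D hD a1 a2
      · by_cases hkD : k ∈ D
        · exfalso
          apply h
          have := h4 _ (mem_image_of_mem φ hA) D hD
          convert this using 1
          apply Subset.antisymm
          · exact insert_subset (mem_union_right _ hkD) subset_union_left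
          · exact union_subset (subset_insert _ _) a2
        · exact h5 A hA D hD a1 ((subset_insert_iff_of_notMem hkD).mp a2)

theorem reimer_data (F : Finset (Finset α)) (hF : ∀ A ∈ F, ∀ B ∈ F, A ∪ B ∈ F) (U : Finset α)
    (hU : F ⊆ U.powerset) :
    ∃ l : Finset α → ℕ, (∀ A ∈ F, l A ≤ U.card) ∧
      (U ∈ F → l U = U.card ∧ ∀ A ∈ F, A ≠ U → A.card + 1 ≤ l A) ∧
      ∑ A ∈ F, 2 ^ (U.card - l A) ≤ 2 ^ U.card ∧
      2 * ∑ A ∈ F, (l A : ℤ) ≤ 2 * ∑ A ∈ F, (A.card : ℤ) + Eb F.card := by
  obtain ⟨φ, h1, h2, h3, -, h5⟩ := compress F hF U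
  have sub : ∀ A ∈ F, φ A ⊆ U := fun A hA =>
    (h1 A).2.trans (union_subset (mem_powerset.mp (hU hA)) subset_rfl)
  have c1 : ∀ A, A.card ≤ (φ A).card := fun A => card_le_card (h1 A).1
  have c2 : ∀ A ∈ F, (φ A).card ≤ U.card := fun A hA => card_le_card (sub A hA)
  refine ⟨fun A => U.card - ((φ A).card - A.card), fun A _ => Nat.sub_le _ _, ?_, ?_, ?_⟩
  · intro hUF
    refine ⟨by have := c2 U hUF; simp only; omega, fun A hA hne => ?_⟩
    have : φ A ≠ U := fun h => hne (h5 A hA U hUF (mem_powerset.mp (hU hA)) h.ge).symm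
    have := card_lt_card (Finset.ssubset_iff_subset_ne.mpr ⟨sub A hA, this⟩)
    have := c1 A
    simp only
    omega
  · have e : ∀ A ∈ F, 2 ^ (U.card - (U.card - ((φ A).card - A.card))) = (Icc A (φ A)).card := by
      intro A hA
      rw [card_Icc_finset (h1 A).1]
      congr 1
      have := c2 A hA
      omega
    rw [sum_congr rfl e, ← card_biUnion, ← card_powerset]
    · apply card_le_card
      intro X hX
      obtain ⟨A, hA, hX⟩ := mem_biUnion.mp hX
      exact mem_powerset.mpr ((mem_Icc.mp hX).2.trans (sub A hA))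
    · intro A hA B hB hAB
      rw [Function.onFun, disjoint_left]
      intro X a1 a2
      rw [mem_Icc] at a1 a2
      have hX : A ∪ B ⊆ X := union_subset a1.1 a2.1
      have e1 := h5 A hA _ (hF A hA B hB) subset_union_left (hX.trans a1.2)
      have e2 := h5 B hB _ (hF A hA B hB) subset_union_right (hX.trans a2.2)
      exact hAB (e1.symm.trans e2)
  · have up := upset_bound U (F.image φ) (by
      intro X hX
      obtain ⟨A, hA, rfl⟩ := mem_image.mp hX
      exact mem_powerset.mpr (sub A hA)) h3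
    rw [sum_image h2, card_image_of_injOn h2] at up
    have e : ∀ A ∈ F, ((U.card - ((φ A).card - A.card) : ℕ) : ℤ) =
        A.card + ((U.card : ℤ) - (φ A).card) := by
      intro A hA
      have := c1 A
      have := c2 A hA
      omega
    rw [sum_congr rfl e, sum_add_distrib]
    linarith

lemma kraft_pt (n l j : ℕ) (h : l ≤ n) :
    ((j : ℤ) + 2) * 2 ^ n ≤ l * 2 ^ n + 2 ^ (j + 1) * 2 ^ (n - l) := by
  obtain ⟨r, rfl⟩ := Nat.exists_eq_add_of_le h
  rw [Nat.add_sub_cancel_left, pow_add]
  have p : (0 : ℤ) < 2 ^ r := by positivity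
  have q : (0 : ℤ) < 2 ^ l := by positivity
  have key : ((j : ℤ) + 2) * 2 ^ l ≤ l * 2 ^ l + 2 ^ (j + 1) := by
    by_cases hc : j + 2 ≤ l
    · have : (j : ℤ) + 2 ≤ l := by exact_mod_cast hc
      have : (0 : ℤ) < 2 ^ (j + 1) := by positivity
      nlinarith
    · obtain ⟨t, ht⟩ : ∃ t, j + 1 = l + t := ⟨j + 1 - l, by omega⟩
      have h1 : (t : ℤ) + 1 ≤ 2 ^ t := by exact_mod_cast (Nat.lt_two_pow_self (n := t))
      have h2 : (j : ℤ) + 1 = l + t := by exact_mod_cast ht
      rw [ht, pow_add]
      nlinarith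
  nlinarith

omit [DecidableEq α] in
lemma kraft_sum (n j : ℕ) (R : Finset (Finset α)) (l : Finset α → ℕ) (h : ∀ A ∈ R, l A ≤ n) :
    ((j : ℤ) + 2) * R.card * 2 ^ n ≤
      (∑ A ∈ R, (l A : ℤ)) * 2 ^ n + 2 ^ (j + 1) * ∑ A ∈ R, (2 : ℤ) ^ (n - l A) := by
  have := sum_le_sum fun A (hA : A ∈ R) => kraft_pt n (l A) j (h A hA)
  rw [sum_add_distrib, ← sum_mul, ← sum_mul, ← mul_sum, sum_const, nsmul_eq_mul] at this
  linarith

theorem reimer (F : Finset (Finset α)) (hF : ∀ A ∈ F, ∀ B ∈ F, A ∪ B ∈ F) :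
    Cb F.card ≤ 2 * ∑ A ∈ F, (A.card : ℤ) := by
  by_cases h0 : F.card = 0
  · simp [card_eq_zero.mp h0, Cb]
  obtain ⟨l, h1, -, h3, h4⟩ := reimer_data F hF (F.biUnion id) (fun A hA =>
    mem_powerset.mpr (subset_biUnion_of_mem id hA))
  have k := kraft_sum _ (Nat.log 2 F.card) F l h1
  have h3' : ∑ A ∈ F, (2 : ℤ) ^ ((F.biUnion id).card - l A) ≤ 2 ^ (F.biUnion id).card := by
    exact_mod_cast h3
  have e := Eb_le F.card
  have : Cb F.card ≤ ∑ A ∈ F, (l A : ℤ) := by
    rw [Cb, if_neg h0, pc]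
    have p : (0 : ℤ) < 2 ^ (F.biUnion id).card := by positivity
    have q : (0 : ℤ) < 2 ^ (Nat.log 2 F.card + 1) := by positivity
    refine le_of_mul_le_mul_right ?_ p
    nlinarith
  linarith

end Pool.Agent.H17.Reimer
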