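import Mathlib

namespace Pool.Agent.H17.Repl

open Cardinal Quaternion

lemma exists_indep (σ : Type) (hσ : #σ ≤ 𝔠) : ∃ t : σ → ℝ, AlgebraicIndependent ℚ t := by
  obtain ⟨s, hs⟩ := exists_isTranscendenceBasis ℚ ℝ
  have h1 : #ℝ ≤ max #(Algebra.adjoin ℚ (Set.range ((↑) : s → ℝ))) ℵ₀ := by
    have := hs.isAlgebraic
    exact Algebra.IsAlgebraic.cardinalMk_le_max _ ℝ
  have h2 : #(Algebra.adjoin ℚ (Set.range ((↑) : s → ℝ))) = #(MvPolynomial s ℚ) :=
    (Cardinal.mk_congr hs.1.aevalEquiv.toEquiv).symm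
  have h3 : #(MvPolynomial s ℚ) ≤ max (max #ℚ #s) ℵ₀ := MvPolynomial.cardinalMk_le_max
  have h4 : 𝔠 ≤ #s := by
    by_contra h
    push Not at h
    rw [h2, Cardinal.mk_real] at h1
    have h5 : max (max #ℚ #s) ℵ₀ < 𝔠 := by
      rw [Cardinal.mkRat]
      exact max_lt (max_lt aleph0_lt_continuum h) aleph0_lt_continuum
    exact absurd h1 (not_le.mpr (max_lt (h3.trans_lt h5) aleph0_lt_continuum))
  obtain ⟨f⟩ := (Cardinal.le_def σ s).mp (hσ.trans h4)
  exact ⟨_, hs.1.comp f f.injective⟩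

section
variable {P : Type} [CommRing P]

noncomputable def act (f : P →+* ℂ) (q : ℍ[P]) (v : ℂ × ℂ) : ℂ × ℂ :=
  ((f q.re + f q.imI * Complex.I) * v.1 + (f q.imJ + f q.imK * Complex.I) * v.2,
   (-f q.imJ + f q.imK * Complex.I) * v.1 + (f q.re - f q.imI * Complex.I) * v.2)

lemma act_mul (f : P →+* ℂ) (p q : ℍ[P]) (v : ℂ × ℂ) :
    act f (p * q) v = act f p (act f q v) := by
  have hI : Complex.I ^ 2 = -1 := Complex.I_sq
  unfold act
  ext
  · simp only [Quaternion.re_mul, Quaternion.imI_mul, Quaternion.imJ_mul, Quaternion.imK_mul,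
      map_add, map_sub, map_mul]
    linear_combination (-(f p.imI * f q.imI * v.1) - f p.imI * f q.imK * v.2
      - f p.imK * f q.imK * v.1 + f p.imK * f q.imI * v.2) * hI
  · simp only [Quaternion.re_mul, Quaternion.imI_mul, Quaternion.imJ_mul, Quaternion.imK_mul,
      map_add, map_sub, map_mul]
    linear_combination (-(f p.imK * f q.imI * v.1) - f p.imK * f q.imK * v.2
      + f p.imI * f q.imK * v.1 - f p.imI * f q.imI * v.2) * hI

lemma act_one (f : P →+* ℂ) (v : ℂ × ℂ) : act f 1 v = v := by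
  unfold act; ext <;> simp

def qmap (g : P →+* ℝ) (q : ℍ[P]) : ℍ[ℝ] := ⟨g q.re, g q.imI, g q.imJ, g q.imK⟩

lemma qmap_mul (g : P →+* ℝ) (p q : ℍ[P]) : qmap g (p * q) = qmap g p * qmap g q := by
  unfold qmap; ext <;> simp

lemma qmap_one (g : P →+* ℝ) : qmap g 1 = 1 := by
  unfold qmap; ext <;> simp

lemma qmap_star (g : P →+* ℝ) (p : ℍ[P]) : qmap g (star p) = star (qmap g p) := by
  unfold qmap; ext <;> simp

end

section
variable {I : Type}

noncomputable def Q (i : I) : ℍ[MvPolynomial (I × Fin 3) ℚ] :=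
  ⟨MvPolynomial.X (i, 0), 0, MvPolynomial.X (i, 1), MvPolynomial.X (i, 2)⟩

noncomputable def W (L : List (I × Bool)) : ℍ[MvPolynomial (I × Fin 3) ℚ] :=
  (L.map fun x => cond x.2 (Q x.1) (star (Q x.1))).prod

noncomputable def sp (z : I → ℝ) : MvPolynomial (I × Fin 3) ℚ →+* ℂ :=
  (MvPolynomial.aeval (fun p : I × Fin 3 =>
    (![(z p.1 : ℂ), (1 - (z p.1 : ℂ) ^ 2) / 2, -Complex.I * (1 + (z p.1 : ℂ) ^ 2) / 2] p.2 : ℂ))).toRingHom

noncomputable def sg (b : Bool) : ℝ := cond b 1 (-1)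

lemma act_Q (z : I → ℝ) (x : I × Bool) (v : ℂ × ℂ) :
    act (sp z) (cond x.2 (Q x.1) (star (Q x.1))) v
      = ((z x.1 : ℂ) * v.1 + (sg x.2 : ℂ) * v.2,
        ((z x.1 : ℂ) * v.1 + (sg x.2 : ℂ) * v.2) * ((sg x.2 : ℂ) * z x.1)) := by
  have hI : Complex.I ^ 2 = -1 := Complex.I_sq
  obtain ⟨i, b⟩ := x
  cases b
  · unfold act Q sp sg
    ext
    · simp
      linear_combination ((1 + (z i : ℂ) ^ 2) / 2 * v.2) * hI
    · simp
      linear_combination ((1 + (z i : ℂ) ^ 2) / 2 * v.1) * hI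
  · unfold act Q sp sg
    ext
    · simp
      linear_combination (-(1 + (z i : ℂ) ^ 2) / 2 * v.2) * hI
    · simp
      linear_combination (-(1 + (z i : ℂ) ^ 2) / 2 * v.1) * hI

lemma chase (z : I → ℝ) (hz : ∀ i, 0 < z i) (hzi : Function.Injective z) :
    ∀ (L : List (I × Bool)) (a : I × Bool), FreeGroup.IsReduced (a :: L) →
      ∃ c : ℂ, c ≠ 0 ∧ act (sp z) (W (a :: L)) (1, 0) = (c, c * ((sg a.2 : ℂ) * z a.1)) := by
  intro L
  induction L with
  | nil =>
    intro a _
    refine ⟨z a.1, by exact_mod_cast (hz _).ne', ?_⟩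
    simp only [W, List.map_cons, List.map_nil, List.prod_cons, List.prod_nil, mul_one, act_Q]
    simp
  | cons b L ih =>
    intro a h
    have h' := List.isChain_cons_cons.mp h
    obtain ⟨c, hc, e⟩ := ih b h'.2
    have e2 : W (a :: b :: L) = cond a.2 (Q a.1) (star (Q a.1)) * W (b :: L) := by
      simp only [W, List.map_cons, List.prod_cons]
    rw [e2, act_mul, e, act_Q]
    refine ⟨_, ?_, rfl⟩
    have h3 : z a.1 + sg a.2 * (sg b.2 * z b.1) ≠ 0 := by
      have ha := hz a.1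
      have hb := hz b.1
      intro h0
      have h4 := h'.1
      obtain ⟨i, s⟩ := a
      obtain ⟨j, t⟩ := b
      cases s <;> cases t <;> simp only [sg, cond_true, cond_false] at h0 h4 ha hb
      · linarith
      · exact absurd (h4 (hzi (by linarith))) (by simp)
      · exact absurd (h4 (hzi (by linarith))) (by simp)
      · linarith
    have h5 : ((z a.1 + sg a.2 * (sg b.2 * z b.1) : ℝ) : ℂ) ≠ 0 := by exact_mod_cast h3
    intro h0
    apply mul_ne_zero hc h5
    push_cast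
    simp only at h0
    linear_combination h0

lemma exists_free (hI : #I ≤ 𝔠) :
    ∃ u : I → unitary ℍ[ℝ], Function.Injective (FreeGroup.lift u) := by
  classical
  obtain ⟨t, ht⟩ := exists_indep (I × Fin 3) (by
    rw [Cardinal.mk_prod, Cardinal.mk_fin]
    simp only [Cardinal.lift_id]
    calc #I * (3 : ℕ) ≤ 𝔠 * 𝔠 := mul_le_mul' hI (Cardinal.nat_lt_continuum 3).le
      _ = 𝔠 := Cardinal.continuum_mul_self)
  set g : MvPolynomial (I × Fin 3) ℚ →+* ℝ := (MvPolynomial.aeval t).toRingHom with hg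
  have hgi : Function.Injective g := algebraicIndependent_iff_injective_aeval.mp ht
  have hq0 : ∀ i, qmap g (Q i) ≠ 0 := by
    intro i h
    have h1 : g (MvPolynomial.X (i, 0)) = g 0 := by
      rw [map_zero]; exact congrArg QuaternionAlgebra.re h
    exact MvPolynomial.X_ne_zero _ (hgi h1)
  have hmem : ∀ i, (‖qmap g (Q i)‖⁻¹ • qmap g (Q i)) ∈ unitary ℍ[ℝ] := by
    intro i
    have hn : ‖qmap g (Q i)‖ ≠ 0 := norm_ne_zero_iff.mpr (hq0 i)
    have h1 : normSq (‖qmap g (Q i)‖⁻¹ • qmap g (Q i)) = 1 := by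
      rw [normSq_eq_norm_mul_self, norm_smul, norm_inv, norm_norm, inv_mul_cancel₀ hn, one_mul]
    constructor
    · rw [Quaternion.star_mul_self, h1]; rfl
    · rw [Quaternion.self_mul_star, h1]; rfl
  refine ⟨fun i => ⟨_, hmem i⟩, ?_⟩
  have key : ∀ L : List (I × Bool), ∃ r : ℝ, r ≠ 0 ∧
      ((FreeGroup.lift (fun i => (⟨_, hmem i⟩ : unitary ℍ[ℝ])) (FreeGroup.mk L) : unitary ℍ[ℝ]) : ℍ[ℝ])
        = r • qmap g (W L) := by
    intro L
    rw [FreeGroup.lift_mk]
    induction L with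
    | nil => exact ⟨1, one_ne_zero, by simp [W, qmap_one]⟩
    | cons a L ih =>
      obtain ⟨r, hr, e⟩ := ih
      refine ⟨‖qmap g (Q a.1)‖⁻¹ * r,
        mul_ne_zero (inv_ne_zero (norm_ne_zero_iff.mpr (hq0 _))) hr, ?_⟩
      have e2 : W (a :: L) = cond a.2 (Q a.1) (star (Q a.1)) * W L := by
        simp only [W, List.map_cons, List.prod_cons]
      rw [List.map_cons, List.prod_cons, Submonoid.coe_mul, e, e2, qmap_mul]
      obtain ⟨i, s⟩ := a
      cases s
      · simp only [cond_false, ← Unitary.star_eq_inv, Unitary.coe_star, qmap_star,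
          Quaternion.star_smul, smul_mul_smul_comm]
      · simp only [cond_true, smul_mul_smul_comm]
  rw [injective_iff_map_eq_one]
  intro w hw
  by_contra hne
  obtain ⟨r, hr, e⟩ := key w.toWord
  rw [FreeGroup.mk_toWord, hw] at e
  have hJ : (W w.toWord).imJ = 0 := by
    apply hgi
    have := congrArg QuaternionAlgebra.imJ e
    simp [qmap, hr] at this
    simpa using this
  have hK : (W w.toWord).imK = 0 := by
    apply hgi
    have := congrArg QuaternionAlgebra.imK e
    simp [qmap, hr] at this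
    simpa using this
  have hred : FreeGroup.IsReduced w.toWord := FreeGroup.isReduced_toWord
  have hzi : Function.Injective (fun i => Real.exp (t (i, 0))) := by
    intro i j h
    have := ht.injective (Real.exp_injective h)
    exact congrArg Prod.fst this
  cases hL : w.toWord with
  | nil => exact hne (FreeGroup.toWord_eq_nil_iff.mp hL)
  | cons a L =>
    rw [hL] at hred hJ hK
    obtain ⟨c, hc, e3⟩ := chase (fun i => Real.exp (t (i, 0))) (fun i => Real.exp_pos _) hzi L a hred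
    have h4 := congrArg Prod.snd e3
    simp only [act, hJ, hK, map_zero, neg_zero, zero_mul, add_zero, mul_zero] at h4
    have h5 : (sg a.2 : ℂ) ≠ 0 := by
      cases a.2 <;> simp [sg]
    have h6 : ((Real.exp (t (a.1, 0)) : ℝ) : ℂ) ≠ 0 := by exact_mod_cast (Real.exp_pos _).ne'
    exact mul_ne_zero hc (mul_ne_zero h5 h6) h4.symm

end

section
variable {I Z : Type} [AddCommGroup Z]

noncomputable def gen (u : unitary ℍ[ℝ]) (f : ℍ[ℝ] → Z) : Equiv.Perm (ℍ[ℝ] × Z) where
  toFun p := (u • p.1, p.2 + f p.1 - f (u • p.1))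
  invFun p := (u⁻¹ • p.1, p.2 + f p.1 - f (u⁻¹ • p.1))
  left_inv p := by ext <;> simp
  right_inv p := by ext <;> simp

lemma exists_col (u : I → unitary ℍ[ℝ]) (hu : Function.Injective (FreeGroup.lift u))
    (f : I → ℍ[ℝ] → Z) :
    ∃ c : ℍ[ℝ] → Z, ∀ i x, c (u i • x) + f i (u i • x) = c x + f i x := by
  classical
  set ρ := FreeGroup.lift u with hρ
  set ψ : FreeGroup I →* Equiv.Perm (ℍ[ℝ] × Z) := FreeGroup.lift (fun i => gen (u i) (f i)) with hψ
  have h1 : ∀ w p, (ψ w p).1 = ρ w • p.1 := by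
    intro w
    induction w using FreeGroup.induction_on with
    | C1 => intro p; simp
    | of i => intro p; simp [hψ, hρ, gen]
    | inv_of i ih =>
      intro p
      have := ih (ψ (FreeGroup.of i)⁻¹ p)
      rw [← Equiv.Perm.mul_apply, ← map_mul, mul_inv_cancel, map_one, Equiv.Perm.one_apply] at this
      rw [this, map_inv ρ, inv_smul_smul]
    | mul x y hx hy => intro p; rw [map_mul, map_mul, Equiv.Perm.mul_apply, hx, hy, mul_smul]
  have h0 : ∀ w b, ψ w (0, b) = (0, b) := by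
    intro w
    induction w using FreeGroup.induction_on with
    | C1 => intro p; simp
    | of i => intro p; simp [hψ, gen]
    | inv_of i ih => intro p; rw [map_inv, Equiv.Perm.inv_eq_iff_eq, ih]
    | mul x y hx hy => intro p; rw [map_mul, Equiv.Perm.mul_apply, hy, hx]
  let r : Setoid ℍ[ℝ] := ⟨fun x y => ∃ w, ρ w • x = y,
    ⟨fun x => ⟨1, by simp⟩, fun ⟨w, h⟩ => ⟨w⁻¹, by rw [← h, map_inv, inv_smul_smul]⟩,
      fun ⟨w, h⟩ ⟨w', h'⟩ => ⟨w' * w, by rw [map_mul, mul_smul, h, h']⟩⟩⟩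
  let rep : ℍ[ℝ] → ℍ[ℝ] := fun x => (Quotient.mk r x).out
  have hrep : ∀ x, ∃ w, ρ w • rep x = x := fun x => Quotient.mk_out (s := r) x
  choose wd hwd using hrep
  have hrep2 : ∀ w x, rep (ρ w • x) = rep x := by
    intro w x
    have : Quotient.mk r x = Quotient.mk r (ρ w • x) := Quotient.sound ⟨w, rfl⟩
    simp only [rep, this]
  let c : ℍ[ℝ] → Z := fun x => (ψ (wd x) (rep x, 0)).2
  have key : ∀ w x y, ρ w • rep x = y → ψ w (rep x, 0) = (y, c y) := by
    intro w x y hy
    have e1 : rep y = rep x := by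
      have e0 := hrep2 (wd x) (rep x)
      rw [hwd] at e0
      rw [← hy, hrep2, ← e0]
    have e2 := hwd y
    rw [e1] at e2
    refine Prod.ext (by rw [h1]; exact hy) ?_
    show _ = (ψ (wd y) (rep y, 0)).2
    rw [e1]
    by_cases hx : rep x = 0
    · rw [hx, h0, h0]
    · have e3 : ρ w = ρ (wd y) := by
        apply Subtype.ext
        apply mul_right_cancel₀ hx
        exact hy.trans e2.symm
      rw [hu e3]
  refine ⟨c, fun i x => ?_⟩
  have k1 := key (wd x) x x (hwd x)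
  have k2 := key (FreeGroup.of i * wd x) x (u i • x) (by
    rw [map_mul, mul_smul, hwd]; simp [hρ])
  rw [map_mul, Equiv.Perm.mul_apply, k1] at k2
  have k3 := congrArg Prod.snd k2
  simp only [hψ, FreeGroup.lift_apply_of, gen, Equiv.coe_fn_mk] at k3
  rw [← k3]; abel

end

/-- A colouring of the quaternions no finite recolouring of which is asymmetric. -/
theorem exists_bad : ∃ c : ℍ[ℝ] → Fin 2, ∀ c' : ℍ[ℝ] → Fin 2, {x | c' x ≠ c x}.Finite →
    ∃ u : unitary ℍ[ℝ], u ≠ 1 ∧ ∀ x, c' (u • x) = c' x := by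
  classical
  have hI : #(ℍ[ℝ] →₀ Fin 2) ≤ 𝔠 := by
    have h1 : #ℍ[ℝ] = 𝔠 := by
      rw [Cardinal.mk_quaternion, Cardinal.mk_real]
      exact Cardinal.power_nat_eq aleph0_le_continuum (by norm_num)
    have : Infinite ℍ[ℝ] := Cardinal.infinite_iff.mpr (h1 ▸ aleph0_le_continuum)
    rw [Cardinal.mk_finsupp_of_infinite, h1]
    exact max_le le_rfl (by rw [Cardinal.mk_fin]; exact (Cardinal.nat_lt_continuum 2).le)
  obtain ⟨u, hu⟩ := exists_free hI
  obtain ⟨c, hc⟩ := exists_col u hu (fun i x => i x)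
  refine ⟨c, fun c' hf => ?_⟩
  let i : ℍ[ℝ] →₀ Fin 2 := Finsupp.ofSupportFinite (fun x => c' x - c x)
    (hf.subset fun x hx => sub_ne_zero.mp hx)
  refine ⟨u i, ?_, fun x => ?_⟩
  · intro h
    apply FreeGroup.of_ne_one i
    apply hu
    rw [FreeGroup.lift_apply_of, h, map_one]
  · have := hc i x
    simpa [i, Finsupp.ofSupportFinite_coe] using this

end Pool.Agent.H17.Repl
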