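import Mathlib

set_option autoImplicit false

namespace Pool.Agent.H17.SAlpha

open Set Filter Topology Function

/-- special alpha-limit set, cluster point form -/
def sa {α : Type} [TopologicalSpace α] (f : α → α) (x : α) : Set α :=
  {w | ∃ z : ℕ → α, z 0 = x ∧ (∀ k, f (z (k + 1)) = z k) ∧ ∀ U ∈ 𝓝 w, ∃ᶠ k in atTop, z k ∈ U}

section gen
variable {α : Type} [TopologicalSpace α] {f : α → α}

theorem sa_pre {x y : α} (h : f y = x) : sa f y ⊆ sa f x := by
  rintro w ⟨z, h0, hz, hw⟩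
  refine ⟨fun k => Nat.casesOn k x z, rfl, fun k => ?_, fun U hU => ?_⟩
  · cases k with
    | zero => simpa [h0] using h
    | succ k => exact hz k
  · exact (tendsto_add_atTop_nat 1).frequently (p := fun k => (Nat.casesOn k x z : α) ∈ U) (hw U hU)

theorem sa_pre_iter (k : ℕ) : ∀ {x y : α}, f^[k] y = x → sa f y ⊆ sa f x := by
  induction k with
  | zero => rintro x y rfl; exact subset_rfl
  | succ k ih => intro x y h; exact (sa_pre rfl).trans (ih h)

omit [TopologicalSpace α] in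
theorem br_iter {z : ℕ → α} (hz : ∀ k, f (z (k + 1)) = z k) (j k : ℕ) : f^[j] (z (k + j)) = z k := by
  induction j with
  | zero => rfl
  | succ j ih => rw [iterate_succ_apply, ← add_assoc, hz, ih]

theorem sa_iter {n : ℕ} (hn : 0 < n) {x : α} : sa (f^[n]) x ⊆ sa f x := by
  rintro w ⟨z, h0, hz, hw⟩
  obtain ⟨m, rfl⟩ : ∃ m, n = m + 1 := ⟨n - 1, by omega⟩
  refine ⟨fun j => f^[m * j] (z j), by simpa using h0, fun j => ?_, fun U hU => ?_⟩
  · show f (f^[m * (j + 1)] (z (j + 1))) = f^[m * j] (z j)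
    rw [← hz j, ← iterate_add_apply, ← iterate_succ_apply' f]
    congr 1
  · have ht : Tendsto (fun k => (m + 1) * k) atTop atTop :=
      tendsto_atTop_mono (fun k => Nat.le_mul_of_pos_left k hn) tendsto_id
    refine ht.frequently (p := fun j => f^[m * j] (z j) ∈ U) ((hw U hU).mono fun k hk => ?_)
    have := br_iter hz (m * k) k
    rw [← iterate_mul] at this
    rw [show m * ((m + 1) * k) = (m + 1) * (m * k) by ring, show (m + 1) * k = k + m * k by ring,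
      this]
    exact hk

theorem sa_map (hf : Continuous f) {x w : α} (h : w ∈ sa f x) : f w ∈ sa f x := by
  obtain ⟨z, h0, hz, hw⟩ := h
  refine ⟨z, h0, hz, fun U hU => ?_⟩
  have := hw _ (hf.continuousAt.preimage_mem_nhds hU)
  refine frequently_atTop.2 fun N => ?_
  obtain ⟨k, hk, hU⟩ := frequently_atTop.1 this (N + 1)
  obtain ⟨j, rfl⟩ : ∃ j, k = j + 1 := ⟨k - 1, by omega⟩
  exact ⟨j, by omega, by rw [← hz j]; exact hU⟩

theorem sa_map_iter (hf : Continuous f) {x w : α} (h : w ∈ sa f x) (i : ℕ) : f^[i] w ∈ sa f x := by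
  induction i with
  | zero => exact h
  | succ i ih => rw [iterate_succ_apply']; exact sa_map hf ih

end gen

variable {α : Type} [ConditionallyCompleteLinearOrder α] [TopologicalSpace α] [OrderTopology α]
  [DenselyOrdered α]

theorem sub0 {g : α → α} (hg : Continuous g) {a b : α} (hab : a ≤ b) :
    ∃ r s, a ≤ r ∧ r ≤ s ∧ s ≤ b ∧ g r = g a ∧ g s = g b ∧ g '' Icc r s = uIcc (g a) (g b) := by
  obtain ⟨r, ⟨⟨har, hrb⟩, hr⟩, hrm⟩ := (isCompact_Icc.inter_right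
    (isClosed_eq hg continuous_const : IsClosed {t | g t = g a})).exists_isGreatest
    (⟨a, ⟨le_rfl, hab⟩, rfl⟩ : (Icc a b ∩ {t | g t = g a}).Nonempty)
  obtain ⟨s, ⟨⟨hrs, hsb⟩, hs⟩, hsm⟩ := (isCompact_Icc.inter_right
    (isClosed_eq hg continuous_const : IsClosed {t | g t = g b})).exists_isLeast
    (⟨b, ⟨hrb, le_rfl⟩, rfl⟩ : (Icc r b ∩ {t | g t = g b}).Nonempty)
  have hr : g r = g a := hr
  have hs : g s = g b := hs
  refine ⟨r, s, har, hrs, hsb, hr, hs, Subset.antisymm ?_ ?_⟩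
  · rintro _ ⟨t, ⟨hrt, hts⟩, rfl⟩
    by_contra hc
    have : g a ∈ uIcc (g t) (g s) ∨ g b ∈ uIcc (g r) (g t) := by
      rw [hr, hs]
      simp only [mem_uIcc] at hc ⊢
      rcases le_total (g a) (g b) with h | h <;> rcases le_total (g t) (g a) with h1 | h1 <;>
        rcases le_total (g t) (g b) with h2 | h2 <;> tauto
    rcases this with h | h
    · obtain ⟨t', ht', e⟩ := intermediate_value_uIcc hg.continuousOn h
      rw [uIcc_of_le hts] at ht'
      have h1 : t' ≤ r := hrm ⟨⟨har.trans (hrt.trans ht'.1), ht'.2.trans hsb⟩, e⟩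
      have : t = r := le_antisymm (ht'.1.trans h1) hrt
      exact hc (by rw [this, hr]; exact left_mem_uIcc)
    · obtain ⟨t', ht', e⟩ := intermediate_value_uIcc hg.continuousOn h
      rw [uIcc_of_le hrt] at ht'
      have h1 : s ≤ t' := hsm ⟨⟨ht'.1, ht'.2.trans (hts.trans hsb)⟩, e⟩
      have : t = s := le_antisymm hts (h1.trans ht'.2)
      exact hc (by rw [this, hs]; exact right_mem_uIcc)
  · have := intermediate_value_uIcc (a := r) (b := s) hg.continuousOn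
    rwa [hr, hs, uIcc_of_le hrs] at this

theorem sub {g : α → α} (hg : Continuous g) {r s p q : α} (hpq : p ≤ q)
    (h : Icc p q ⊆ g '' Icc r s) : ∃ r' s', r ≤ r' ∧ r' ≤ s' ∧ s' ≤ s ∧ g '' Icc r' s' = Icc p q ∧
      ((g r' = p ∧ g s' = q) ∨ (g r' = q ∧ g s' = p)) := by
  obtain ⟨a, ha, rfl⟩ := h ⟨le_rfl, hpq⟩
  obtain ⟨b, hb, rfl⟩ := h ⟨hpq, le_rfl⟩
  rcases le_total a b with hab | hab
  · obtain ⟨r', s', h1, h2, h3, h4, h5, h6⟩ := sub0 hg hab
    exact ⟨r', s', ha.1.trans h1, h2, h3.trans hb.2, by rw [h6, uIcc_of_le hpq], .inl ⟨h4, h5⟩⟩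
  · obtain ⟨r', s', h1, h2, h3, h4, h5, h6⟩ := sub0 hg hab
    exact ⟨r', s', hb.1.trans h1, h2, h3.trans ha.2, by rw [h6, uIcc_of_ge hpq], .inr ⟨h4, h5⟩⟩

theorem core {g : α → α} (hg : Continuous g) {p q r s : α} (hpq : p ≤ q)
    (hL : Icc r s ⊆ Icc p q) (h : Icc p q ⊆ g '' Icc r s) :
    ∃ u v, u ≤ v ∧ Icc u v ⊆ Icc r s ∧ MapsTo g (Icc u v) (Icc u v) ∧ g (g u) = u ∧ g (g v) = v ∧
      ∀ y ∈ Icc p q, y ∉ Icc u v → u ∈ sa g y ∨ v ∈ sa g y := by
  -- states: intervals inside [r,s] covering themselves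
  let P : α × α → Prop := fun K => K.1 ≤ K.2 ∧ Icc K.1 K.2 ⊆ g '' Icc K.1 K.2
  let R : α × α → α × α → Prop := fun K K' => K.1 ≤ K'.1 ∧ K'.2 ≤ K.2 ∧
    g '' Icc K'.1 K'.2 = Icc K.1 K.2 ∧ ((g K'.1 = K.1 ∧ g K'.2 = K.2) ∨ (g K'.1 = K.2 ∧ g K'.2 = K.1))
  have step : ∀ K : {K // P K}, ∃ K' : {K // P K}, R K.1 K'.1 := by
    rintro ⟨K, h1, h2⟩
    obtain ⟨r', s', a1, a2, a3, a4, a5⟩ := sub hg h1 h2
    exact ⟨⟨(r', s'), a2, by rw [a4]; exact Icc_subset_Icc a1 a3⟩, a1, a3, a4, a5⟩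
  obtain ⟨r1, s1, b1, b2, b3, b4, -⟩ := sub hg hpq h
  have hP1 : P (r1, s1) := ⟨b2, by
    show Icc r1 s1 ⊆ g '' Icc r1 s1
    rw [b4]; exact (Icc_subset_Icc b1 b3).trans hL⟩
  choose nx hnx using step
  let K : ℕ → α × α := fun k => (nx^[k] ⟨(r1, s1), hP1⟩).1
  have hK0 : K 0 = (r1, s1) := rfl
  have hR : ∀ k, R (K k) (K (k + 1)) := fun k => by
    simp only [K, iterate_succ_apply']; exact hnx _
  have hle : ∀ k, (K k).1 ≤ (K k).2 := fun k => (nx^[k] ⟨(r1, s1), hP1⟩).2.1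
  have hm1 : Monotone fun k => (K k).1 := monotone_nat_of_le_succ fun k => (hR k).1
  have hm2 : Antitone fun k => (K k).2 := antitone_nat_of_succ_le fun k => (hR k).2.1
  have hc : ∀ i j, (K i).1 ≤ (K j).2 := fun i j =>
    (hm1 (le_max_left i j)).trans ((hle _).trans (hm2 (le_max_right i j)))
  have hb1 : BddAbove (range fun k => (K k).1) := ⟨(K 0).2, by rintro _ ⟨k, rfl⟩; exact hc _ _⟩
  have hb2 : BddBelow (range fun k => (K k).2) := ⟨(K 0).1, by rintro _ ⟨k, rfl⟩; exact hc _ _⟩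
  set u := ⨆ k, (K k).1
  set v := ⨅ k, (K k).2
  have tu : Tendsto (fun k => (K k).1) atTop (𝓝 u) := tendsto_atTop_ciSup hm1 hb1
  have tv : Tendsto (fun k => (K k).2) atTop (𝓝 v) := tendsto_atTop_ciInf hm2 hb2
  have hu : ∀ k, (K k).1 ≤ u := fun k => le_ciSup hb1 k
  have hv : ∀ k, v ≤ (K k).2 := fun k => ciInf_le hb2 k
  have huv : u ≤ v := ciSup_le fun i => le_ciInf fun j => hc i j
  have hmem : ∀ z, z ∈ Icc u v ↔ ∀ k, z ∈ Icc (K k).1 (K k).2 := fun z =>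
    ⟨fun hz k => ⟨(hu k).trans hz.1, hz.2.trans (hv k)⟩,
      fun hz => ⟨ciSup_le fun k => (hz k).1, le_ciInf fun k => (hz k).2⟩⟩
  have hmap : MapsTo g (Icc u v) (Icc u v) := fun z hz => (hmem _).2 fun k => by
    rw [← (hR k).2.2.1]; exact mem_image_of_mem _ ((hmem z).1 hz (k + 1))
  have hend : (g u = u ∧ g v = v) ∨ (g u = v ∧ g v = u) := by
    have hcl : IsClosed {t : (α × α) × α × α | (t.1.1 = t.2.1 ∧ t.1.2 = t.2.2) ∨
        (t.1.1 = t.2.2 ∧ t.1.2 = t.2.1)} :=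
      ((isClosed_eq (by fun_prop) (by fun_prop)).inter (isClosed_eq (by fun_prop) (by fun_prop))).union
        ((isClosed_eq (by fun_prop) (by fun_prop)).inter (isClosed_eq (by fun_prop) (by fun_prop)))
    have t1 := (hg.tendsto u).comp (tu.comp (tendsto_add_atTop_nat 1))
    have t2 := (hg.tendsto v).comp (tv.comp (tendsto_add_atTop_nat 1))
    exact hcl.mem_of_tendsto ((t1.prodMk_nhds t2).prodMk_nhds (tu.prodMk_nhds tv))
      (Eventually.of_forall fun k => (hR k).2.2.2)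
  refine ⟨u, v, huv, fun z hz => Icc_subset_Icc b1 b3 ((hmem z).1 hz 0), hmap, ?_, ?_, ?_⟩
  · rcases hend with ⟨h1, h2⟩ | ⟨h1, h2⟩ <;> rw [h1] <;> assumption
  · rcases hend with ⟨h1, h2⟩ | ⟨h1, h2⟩ <;> rw [h2] <;> assumption
  intro y hy hyZ
  rw [← b4] at hy
  obtain ⟨y0, hy0, rfl⟩ := hy
  suffices H : u ∈ sa g y0 ∨ v ∈ sa g y0 from H.imp (fun h => sa_pre rfl h) fun h => sa_pre rfl h
  have hy0Z : y0 ∉ Icc u v := fun h => hyZ (hmap h)
  have st : ∀ k (t : {t // t ∈ Icc (K k).1 (K k).2 ∧ t ∉ Icc u v}),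
      ∃ t' : {t // t ∈ Icc (K (k + 1)).1 (K (k + 1)).2 ∧ t ∉ Icc u v}, g t'.1 = t.1 := by
    rintro k ⟨t, h1, h2⟩
    rw [← (hR k).2.2.1] at h1
    obtain ⟨t', h3, rfl⟩ := h1
    exact ⟨⟨t', h3, fun h => h2 (hmap h)⟩, rfl⟩
  choose nt hnt using st
  let z : ∀ k, {t // t ∈ Icc (K k).1 (K k).2 ∧ t ∉ Icc u v} := fun k =>
    Nat.rec ⟨y0, hy0, hy0Z⟩ nt k
  have hz : ∀ k, g (z (k + 1)).1 = (z k).1 := fun k => hnt k (z k)
  by_cases hf : ∃ᶠ k in atTop, (z k).1 < u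
  · refine .inl ⟨fun k => (z k).1, rfl, hz, fun U hU => ?_⟩
    have : Tendsto (fun k => min (z k).1 u) atTop (𝓝 u) :=
      tendsto_of_tendsto_of_tendsto_of_le_of_le tu tendsto_const_nhds
        (fun k => le_min (z k).2.1.1 (hu k)) fun k => min_le_right _ _
    refine (hf.and_eventually (this.eventually hU)).mono fun k hk => ?_
    have h2 : min (z k).1 u ∈ U := hk.2
    rwa [min_eq_left hk.1.le] at h2
  · refine .inr ⟨fun k => (z k).1, rfl, hz, fun U hU => ?_⟩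
    have : Tendsto (fun k => (z k).1) atTop (𝓝 v) := by
      refine tendsto_of_tendsto_of_tendsto_of_le_of_le' tendsto_const_nhds tv
        ((not_frequently.1 hf).mono fun k hk => ?_) (Eventually.of_forall fun k => (z k).2.1.2)
      by_contra h2
      exact (z k).2.2 ⟨not_lt.1 hk, (not_le.1 h2).le⟩
    exact (this.eventually hU).frequently

theorem fin {f : α → α} (hf : Continuous f) {n : ℕ} (hn : 0 < n) {a b c p q r s x : α}
    (hb : b ∈ Ioo a c) (hbx : b ∈ sa f x) (hpq : p ≤ q) (hL : Icc r s ⊆ Icc p q)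
    (h : Icc p q ⊆ f^[n] '' Icc r s) (hcov : Ioo a c ⊆ Icc p q ∪ f '' Icc p q)
    (H : ∀ z, (∀ k, f^[n * k] z ∈ Icc r s) → (∀ j, f^[j] z ≠ b) ∧ ∀ m, f^[m] z = z → n ∣ m) :
    ∃ w, (minimalPeriod f w = n ∨ minimalPeriod f w = 2 * n) ∧ ∀ i, f^[i] w ∈ sa f x := by
  obtain ⟨u, v, huv, hZ, hmap, hu, hv, hy⟩ := core (hf.iterate n) hpq hL h
  have HZ : ∀ z ∈ Icc u v, (∀ j, f^[j] z ≠ b) ∧ ∀ m, f^[m] z = z → n ∣ m := fun z hz =>
    H z fun k => hZ (by rw [iterate_mul]; exact hmap.iterate k hz)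
  have hper : ∀ w ∈ Icc u v, f^[n] (f^[n] w) = w →
      (minimalPeriod f w = n ∨ minimalPeriod f w = 2 * n) := by
    intro w hw h2
    have h3 : minimalPeriod f w ∣ 2 * n := IsPeriodicPt.minimalPeriod_dvd (by
      show f^[2 * n] w = w
      rw [two_mul, iterate_add_apply, h2])
    obtain ⟨d, hd⟩ := (HZ w hw).2 _ (isPeriodicPt_minimalPeriod f w)
    rw [hd, mul_comm 2 n] at h3
    rcases (Nat.dvd_prime Nat.prime_two).1 (Nat.dvd_of_mul_dvd_mul_left hn h3) with h4 | h4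
    · left; rw [hd, h4, mul_one]
    · right; rw [hd, h4, mul_comm]
  have hcl : IsClosed (Icc u v ∪ f '' Icc u v) :=
    isClosed_Icc.union (isCompact_Icc.image hf).isClosed
  have hbn : b ∉ Icc u v ∪ f '' Icc u v := by
    rintro (h1 | ⟨z, h1, h2⟩)
    · exact (HZ b h1).1 0 rfl
    · exact (HZ z h1).1 1 h2
  obtain ⟨z, h0, hz, hw⟩ := hbx
  obtain ⟨k, hk1, hk2⟩ := (hw _ (inter_mem (isOpen_Ioo.mem_nhds hb)
    (hcl.isOpen_compl.mem_nhds hbn))).exists
  have hx : sa f (z k) ⊆ sa f x := sa_pre_iter k (by simpa [h0] using br_iter hz k 0)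
  obtain ⟨y, hy1, hy2, hy3⟩ : ∃ y ∈ Icc p q, y ∉ Icc u v ∧ sa f y ⊆ sa f x := by
    rcases hcov hk1 with h1 | ⟨y, h1, h2⟩
    · exact ⟨z k, h1, fun h => hk2 (.inl h), hx⟩
    · exact ⟨y, h1, fun h => hk2 (.inr ⟨y, h, h2⟩), (sa_pre h2).trans hx⟩
  rcases hy y hy1 hy2 with h1 | h1
  · exact ⟨u, hper u ⟨le_rfl, huv⟩ hu, sa_map_iter hf (hy3 (sa_iter hn h1))⟩
  · exact ⟨v, hper v ⟨huv, le_rfl⟩ hv, sa_map_iter hf (hy3 (sa_iter hn h1))⟩

theorem main {f : α → α} (hf : Continuous f) {a b c x : α} (hab : a < b) (hbc : b < c)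
    (ha : f a = b) (hb : f b = c) (hc : f c = a) (hbx : b ∈ sa f x) {n : ℕ} (hn : 0 < n)
    (h3 : n ≠ 3) :
    ∃ w, (minimalPeriod f w = n ∨ minimalPeriod f w = 2 * n) ∧ ∀ i, f^[i] w ∈ sa f x := by
  have c0 : Icc b c ⊆ f '' Icc a b := by
    have := intermediate_value_Icc hab.le hf.continuousOn
    rwa [ha, hb] at this
  have c1 : Icc a c ⊆ f '' Icc b c := by
    have := intermediate_value_Icc' hbc.le hf.continuousOn
    rwa [hc, hb] at this
  have hnext : ∀ z j, f^[j] z = b → f^[j + 2] z = a ∧ f^[j + 5] z = a := by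
    intro z j h
    simp [iterate_succ_apply', h, ha, hb, hc]
  rcases Nat.lt_or_ge 1 n with h1 | h1
  · have hL : ∀ m, ∃ r s, Icc r s ⊆ Icc a b ∧ f^[m + 1] '' Icc r s = Icc b c ∧
        ∀ i ≤ m, f^[i + 1] '' Icc r s ⊆ Icc b c := by
      intro m
      induction m with
      | zero =>
        obtain ⟨r, s, a1, -, a3, a4, -⟩ := sub hf hbc.le c0
        refine ⟨r, s, Icc_subset_Icc a1 a3, a4, fun i hi => ?_⟩
        obtain rfl : i = 0 := by omega
        exact a4.subset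
      | succ m ih =>
        obtain ⟨r, s, a1, a2, a3⟩ := ih
        have : Icc b c ⊆ f^[m + 1 + 1] '' Icc r s := by
          rw [iterate_succ', image_comp, a2]
          exact (Icc_subset_Icc_left hab.le).trans c1
        obtain ⟨r', s', b1, -, b3, b4, -⟩ := sub (hf.iterate _) hbc.le this
        refine ⟨r', s', (Icc_subset_Icc b1 b3).trans a1, b4, fun i hi => ?_⟩
        rcases Nat.lt_or_ge m i with h | h
        · obtain rfl : i = m + 1 := by omega
          exact b4.subset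
        · exact (image_mono (Icc_subset_Icc b1 b3)).trans (a3 i h)
    obtain ⟨m, rfl⟩ : ∃ m, n = m + 2 := ⟨n - 2, by omega⟩
    obtain ⟨r, s, a1, a2, a3⟩ := hL m
    refine fin hf hn ⟨hab, hbc⟩ hbx hab.le a1 ?_ ?_ fun z hz => ?_
    · rw [iterate_succ', image_comp, a2]
      exact (Icc_subset_Icc_right hbc.le).trans c1
    · intro t ht
      rcases le_total t b with h | h
      · exact .inl ⟨ht.1.le, h⟩
      · exact .inr (c0 ⟨h, ht.2.le⟩)
    have key : ∀ j, ¬ (m + 2) ∣ j → b ≤ f^[j] z := by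
      intro j hj
      have e := Nat.mod_add_div j (m + 2)
      have hlt := Nat.mod_lt j hn
      obtain ⟨i, hi⟩ : ∃ i, j % (m + 2) = i + 1 :=
        ⟨j % (m + 2) - 1, by have := mt Nat.dvd_of_mod_eq_zero hj; omega⟩
      rw [← e, iterate_add_apply, hi]
      exact (a3 i (by omega) (mem_image_of_mem _ (hz _))).1
    have nb : ∀ j, f^[j] z ≠ b := by
      intro j hj
      obtain ⟨e1, e2⟩ := hnext z j hj
      have d1 : (m + 2) ∣ j + 2 := by
        by_contra h; have := key _ h; rw [e1] at this; exact absurd hab (not_lt.2 this)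
      have d2 : (m + 2) ∣ j + 5 := by
        by_contra h; have := key _ h; rw [e2] at this; exact absurd hab (not_lt.2 this)
      have d3 : (m + 2) ∣ 3 := (Nat.dvd_add_right d1).1 d2
      rcases (Nat.dvd_prime Nat.prime_three).1 d3 with h | h <;> omega
    refine ⟨nb, fun j hj => ?_⟩
    by_contra h
    have h4 := key j h
    rw [hj] at h4
    exact nb 0 (le_antisymm (a1 (hz 0)).2 h4)
  · obtain rfl : n = 1 := by omega
    refine fin hf hn ⟨hab, hbc⟩ hbx hbc.le subset_rfl ((Icc_subset_Icc_left hab.le).trans c1)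
      (fun t ht => .inr (c1 ⟨ht.1.le, ht.2.le⟩)) fun z hz => ⟨fun j hj => ?_, fun _ _ => one_dvd _⟩
    have := (hz (j + 2)).1
    rw [one_mul, (hnext z j hj).1] at this
    exact absurd hab (not_lt.2 this)

end Pool.Agent.H17.SAlpha
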