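import Mathlib

namespace Pool.Agent.H17.SR

theorem solve2 (m1 m2 uj vj uk vk : ℂ) (h : uj * vk - uk * vj ≠ 0) :
    ∃ l n : ℂ, m1 + l * uj + n * uk = 0 ∧ m2 + l * vj + n * vk = 0 := by
  have hi := mul_inv_cancel₀ h
  refine ⟨(uk * m2 - vk * m1) * (uj * vk - uk * vj)⁻¹,
    (vj * m1 - uj * m2) * (uj * vk - uk * vj)⁻¹, ?_, ?_⟩
  · linear_combination (-m1) * hi
  · linear_combination (-m2) * hi

theorem solve1 (m1 m2 uj vj : ℂ) (h : ¬ (uj = 0 ∧ vj = 0)) (hd : uj * m2 - m1 * vj = 0) :
    ∃ l : ℂ, m1 + l * uj = 0 ∧ m2 + l * vj = 0 := by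
  by_cases hu : uj = 0
  · have hv : vj ≠ 0 := fun hv => h ⟨hu, hv⟩
    refine ⟨-m2 / vj, ?_, ?_⟩
    · have : m1 * vj = 0 := by rw [hu] at hd; linear_combination -hd
      have h1 : m1 = 0 := by simpa [hv] using this
      simp [h1, hu]
    · field_simp; ring
  · refine ⟨-m1 / uj, ?_, ?_⟩
    · field_simp; ring
    · field_simp; linear_combination hd

/-- The cubic `a y² + b w² + μ z x²` vanishes on no subspace cut out by two linear forms. -/
theorem lemB (μ : ℂ) (hμ : μ ≠ 0) (ux uy uw ua ub uz vx vy vw va vb vz : ℂ)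
    (H : ∀ x y w a b z : ℂ, ux * x + uy * y + uw * w + ua * a + ub * b + uz * z = 0 →
      vx * x + vy * y + vw * w + va * a + vb * b + vz * z = 0 →
      a * y ^ 2 + b * w ^ 2 + μ * z * x ^ 2 = 0) : False := by
  have d1 : ub * va - ua * vb = 0 := by
    by_contra h
    obtain ⟨l, n, h1, h2⟩ := solve2 (uz + ux) (vz + vx) _ _ _ _ h
    have := H 1 0 0 n l 1 (by linear_combination h1) (by linear_combination h2)
    exact hμ (by linear_combination this)
  have d2 : ub * vy - uy * vb = 0 := by
    by_contra h
    obtain ⟨l, n, h1, h2⟩ := solve2 (uz + ux) (vz + vx) _ _ _ _ h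
    have := H 1 n 0 0 l 1 (by linear_combination h1) (by linear_combination h2)
    exact hμ (by linear_combination this)
  have d3 : uw * va - ua * vw = 0 := by
    by_contra h
    obtain ⟨l, n, h1, h2⟩ := solve2 (uz + ux) (vz + vx) _ _ _ _ h
    have := H 1 0 l n 0 1 (by linear_combination h1) (by linear_combination h2)
    exact hμ (by linear_combination this)
  have d4 : uw * vy - uy * vw = 0 := by
    by_contra h
    obtain ⟨l, n, h1, h2⟩ := solve2 (uz + ux) (vz + vx) _ _ _ _ h
    have := H 1 n l 0 0 1 (by linear_combination h1) (by linear_combination h2)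
    exact hμ (by linear_combination this)
  have e1 : ub = 0 ∧ vb = 0 := by
    by_contra h
    obtain ⟨l, h1, h2⟩ := solve1 (ua + uy) (va + vy) _ _ h (by linear_combination d1 + d2)
    have := H 0 1 0 1 l 0 (by linear_combination h1) (by linear_combination h2)
    exact one_ne_zero (α := ℂ) (by linear_combination this)
  have e2 : uw = 0 ∧ vw = 0 := by
    by_contra h
    obtain ⟨l, h1, h2⟩ := solve1 (ua + uy) (va + vy) _ _ h (by linear_combination d3 + d4)
    have := H 0 1 l 1 0 0 (by linear_combination h1) (by linear_combination h2)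
    exact one_ne_zero (α := ℂ) (by linear_combination this)
  have := H 0 0 1 0 1 0 (by linear_combination e1.1 + e2.1) (by linear_combination e1.2 + e2.2)
  exact one_ne_zero (α := ℂ) (by linear_combination this)

/-- The cubic `a y² + b w² + c x y + d x w` vanishes on only one subspace cut out by two
linear forms. -/
theorem lemA (ux uy uw ua ub uc ud vx vy vw va vb vc vd : ℂ)
    (H : ∀ x y w a b c d : ℂ,
      ux * x + uy * y + uw * w + ua * a + ub * b + uc * c + ud * d = 0 →
      vx * x + vy * y + vw * w + va * a + vb * b + vc * c + vd * d = 0 →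
      a * y ^ 2 + b * w ^ 2 + c * x * y + d * x * w = 0) :
    (ux = 0 ∧ vx = 0) ∧ (uc = 0 ∧ vc = 0) ∧ uy * vw - uw * vy ≠ 0 := by
  have d1 : uc * va - ua * vc = 0 := by
    by_contra h
    obtain ⟨l, n, h1, h2⟩ := solve2 (ub + uw) (vb + vw) _ _ _ _ h
    have := H 0 0 1 n 1 l 0 (by linear_combination h1) (by linear_combination h2)
    exact one_ne_zero (α := ℂ) (by linear_combination this)
  have d2 : uc * vy - uy * vc = 0 := by
    by_contra h
    obtain ⟨l, n, h1, h2⟩ := solve2 (ub + uw) (vb + vw) _ _ _ _ h
    have := H 0 n 1 0 1 l 0 (by linear_combination h1) (by linear_combination h2)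
    exact one_ne_zero (α := ℂ) (by linear_combination this)
  have d3 : ux * va - ua * vx = 0 := by
    by_contra h
    obtain ⟨l, n, h1, h2⟩ := solve2 (ub + uw) (vb + vw) _ _ _ _ h
    have := H l 0 1 n 1 0 0 (by linear_combination h1) (by linear_combination h2)
    exact one_ne_zero (α := ℂ) (by linear_combination this)
  have d4 : ux * vy - uy * vx = 0 := by
    by_contra h
    obtain ⟨l, n, h1, h2⟩ := solve2 (ub + uw) (vb + vw) _ _ _ _ h
    have := H l n 1 0 1 0 0 (by linear_combination h1) (by linear_combination h2)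
    exact one_ne_zero (α := ℂ) (by linear_combination this)
  have d5 : ud * va - ua * vd = 0 := by
    by_contra h
    obtain ⟨l, n, h1, h2⟩ := solve2 (ub + uw) (vb + vw) _ _ _ _ h
    have := H 0 0 1 n 1 0 l (by linear_combination h1) (by linear_combination h2)
    exact one_ne_zero (α := ℂ) (by linear_combination this)
  have d6 : ud * vy - uy * vd = 0 := by
    by_contra h
    obtain ⟨l, n, h1, h2⟩ := solve2 (ub + uw) (vb + vw) _ _ _ _ h
    have := H 0 n 1 0 1 0 l (by linear_combination h1) (by linear_combination h2)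
    exact one_ne_zero (α := ℂ) (by linear_combination this)
  have e1 : uc = 0 ∧ vc = 0 := by
    by_contra h
    obtain ⟨l, h1, h2⟩ := solve1 (ua + uy) (va + vy) _ _ h (by linear_combination d1 + d2)
    have := H 0 1 0 1 0 l 0 (by linear_combination h1) (by linear_combination h2)
    exact one_ne_zero (α := ℂ) (by linear_combination this)
  have e2 : ux = 0 ∧ vx = 0 := by
    by_contra h
    obtain ⟨l, h1, h2⟩ := solve1 (ua + uy) (va + vy) _ _ h (by linear_combination d3 + d4)
    have := H l 1 0 1 0 0 0 (by linear_combination h1) (by linear_combination h2)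
    exact one_ne_zero (α := ℂ) (by linear_combination this)
  have e3 : ud = 0 ∧ vd = 0 := by
    by_contra h
    obtain ⟨l, h1, h2⟩ := solve1 (ua + uy) (va + vy) _ _ h (by linear_combination d5 + d6)
    have := H 0 1 0 1 0 0 l (by linear_combination h1) (by linear_combination h2)
    exact one_ne_zero (α := ℂ) (by linear_combination this)
  refine ⟨e2, e1, fun hd => ?_⟩
  have e4 : uw = 0 ∧ vw = 0 := by
    by_contra h
    obtain ⟨l, h1, h2⟩ := solve1 uy vy _ _ h (by linear_combination -hd)
    have := H 1 1 l 0 0 1 0 (by linear_combination h1 + e1.1 + e2.1)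
      (by linear_combination h2 + e1.2 + e2.2)
    exact one_ne_zero (α := ℂ) (by linear_combination this)
  have := H 1 0 1 0 0 0 1 (by linear_combination e2.1 + e3.1 + e4.1)
    (by linear_combination e2.2 + e3.2 + e4.2)
  exact one_ne_zero (α := ℂ) (by linear_combination this)

end Pool.Agent.H17.SR
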