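import Mathlib

namespace Pool.Agent.H17.SR

open MvPolynomial

variable {σ : Type*}

theorem decomp2 (Q : MvPolynomial σ ℂ) (h : Q.totalDegree < 3) :
    ∃ q a : MvPolynomial σ ℂ, ∃ c : ℂ, q.IsHomogeneous 2 ∧ a.IsHomogeneous 1 ∧
      Q = q + a + C c := by
  refine ⟨homogeneousComponent 2 Q, homogeneousComponent 1 Q, coeff 0 Q,
    homogeneousComponent_isHomogeneous _ _, homogeneousComponent_isHomogeneous _ _, ?_⟩
  have h1 := sum_homogeneousComponent Q
  have h2 : ∑ i ∈ Finset.range (Q.totalDegree + 1), homogeneousComponent i Q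
      = ∑ i ∈ Finset.range 3, homogeneousComponent i Q := by
    apply Finset.sum_subset
    · intro i hi
      simp only [Finset.mem_range] at hi ⊢
      omega
    · intro i _ hi
      simp only [Finset.mem_range, not_lt] at hi
      exact homogeneousComponent_eq_zero _ _ (by omega)
  rw [h2] at h1
  simp only [Finset.sum_range_succ, Finset.range_zero, Finset.sum_empty, zero_add,
    homogeneousComponent_zero] at h1
  linear_combination -h1

theorem decomp1 (Q : MvPolynomial σ ℂ) (h : Q.totalDegree < 2) :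
    ∃ a : MvPolynomial σ ℂ, ∃ c : ℂ, a.IsHomogeneous 1 ∧ Q = a + C c := by
  refine ⟨homogeneousComponent 1 Q, coeff 0 Q,
    homogeneousComponent_isHomogeneous _ _, ?_⟩
  have h1 := sum_homogeneousComponent Q
  have h2 : ∑ i ∈ Finset.range (Q.totalDegree + 1), homogeneousComponent i Q
      = ∑ i ∈ Finset.range 2, homogeneousComponent i Q := by
    apply Finset.sum_subset
    · intro i hi
      simp only [Finset.mem_range] at hi ⊢
      omega
    · intro i _ hi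
      simp only [Finset.mem_range, not_lt] at hi
      exact homogeneousComponent_eq_zero _ _ (by omega)
  rw [h2] at h1
  simp only [Finset.sum_range_succ, Finset.range_zero, Finset.sum_empty, zero_add,
    homogeneousComponent_zero] at h1
  linear_combination -h1

theorem hc_of {p : MvPolynomial σ ℂ} {n : ℕ} (m : ℕ) (h : p.IsHomogeneous n) :
    homogeneousComponent m p = if m = n then p else 0 :=
  homogeneousComponent_of_mem ((mem_homogeneousSubmodule n p).2 h)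

theorem compare5 {H4 H3 H2 H1 H0 G4 G3 G2 G1 G0 : MvPolynomial σ ℂ}
    (h4 : H4.IsHomogeneous 4) (h3 : H3.IsHomogeneous 3) (h2 : H2.IsHomogeneous 2)
    (h1 : H1.IsHomogeneous 1) (h0 : H0.IsHomogeneous 0)
    (g4 : G4.IsHomogeneous 4) (g3 : G3.IsHomogeneous 3) (g2 : G2.IsHomogeneous 2)
    (g1 : G1.IsHomogeneous 1) (g0 : G0.IsHomogeneous 0)
    (e : H4 + H3 + H2 + H1 + H0 = G4 + G3 + G2 + G1 + G0) : H4 = G4 ∧ H3 = G3 ∧ H2 = G2 := by
  refine ⟨?_, ?_, ?_⟩
  · have := congrArg (homogeneousComponent 4) e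
    simpa [map_add, hc_of 4 h4, hc_of 4 h3, hc_of 4 h2, hc_of 4 h1, hc_of 4 h0,
      hc_of 4 g4, hc_of 4 g3, hc_of 4 g2, hc_of 4 g1, hc_of 4 g0] using this
  · have := congrArg (homogeneousComponent 3) e
    simpa [map_add, hc_of 3 h4, hc_of 3 h3, hc_of 3 h2, hc_of 3 h1, hc_of 3 h0,
      hc_of 3 g4, hc_of 3 g3, hc_of 3 g2, hc_of 3 g1, hc_of 3 g0] using this
  · have := congrArg (homogeneousComponent 2) e
    simpa [map_add, hc_of 2 h4, hc_of 2 h3, hc_of 2 h2, hc_of 2 h1, hc_of 2 h0,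
      hc_of 2 g4, hc_of 2 g3, hc_of 2 g2, hc_of 2 g1, hc_of 2 g0] using this

theorem top2 {q A B : MvPolynomial σ ℂ} {α β : ℂ} (hq : q.IsHomogeneous 2)
    (hA : A.IsHomogeneous 1) (hB : B.IsHomogeneous 1) (e : q = (A + C α) * (B + C β)) :
    q = A * B := by
  have := compare5 (isHomogeneous_zero σ ℂ 4) (isHomogeneous_zero σ ℂ 3) hq
    (isHomogeneous_zero σ ℂ 1) (isHomogeneous_zero σ ℂ 0)
    (isHomogeneous_zero σ ℂ 4) (isHomogeneous_zero σ ℂ 3) (hA.mul hB)
    ((hA.C_mul β).add (hB.C_mul α)) (isHomogeneous_C σ (α * β))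
    (by rw [e, C_mul]; ring)
  exact this.2.2

/-- The first alternative: two affine-linear factors. -/
def AltA (P3 P : MvPolynomial σ ℂ) : Prop :=
  ∃ l1 l2 : MvPolynomial σ ℂ, ∃ e1 e2 : ℂ, ∃ g h G H : MvPolynomial σ ℂ,
    l1.IsHomogeneous 1 ∧ l2.IsHomogeneous 1 ∧ P3 = l1 * g + l2 * h ∧
      P = (l1 + C e1) * G + (l2 + C e2) * H

/-- The second alternative: the quartic parts cancel through four linear forms. -/
def AltB (P3 : MvPolynomial σ ℂ) : Prop :=
  ∃ A B D E b1 a1 b2 a2 : MvPolynomial σ ℂ,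
    A.IsHomogeneous 1 ∧ B.IsHomogeneous 1 ∧ D.IsHomogeneous 1 ∧ E.IsHomogeneous 1 ∧
    b1.IsHomogeneous 1 ∧ a1.IsHomogeneous 1 ∧ b2.IsHomogeneous 1 ∧ a2.IsHomogeneous 1 ∧
    P3 = A * B * b1 - a1 * D * E + A * D * b2 + a2 * B * E

theorem structure_lemma (P3 P2 Q1 R1 Q2 R2 : MvPolynomial σ ℂ) (h3 : P3.IsHomogeneous 3)
    (h2 : P2.IsHomogeneous 2) (dQ1 : Q1.totalDegree < 3) (dR1 : R1.totalDegree < 3)
    (dQ2 : Q2.totalDegree < 3) (dR2 : R2.totalDegree < 3)
    (e : P3 + P2 = Q1 * R1 + Q2 * R2) : AltA P3 (P3 + P2) ∨ AltB P3 := by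
  obtain ⟨q1, a1, c1, hq1, ha1, rfl⟩ := decomp2 Q1 dQ1
  obtain ⟨r1, b1, d1, hr1, hb1, rfl⟩ := decomp2 R1 dR1
  obtain ⟨q2, a2, c2, hq2, ha2, rfl⟩ := decomp2 Q2 dQ2
  obtain ⟨r2, b2, d2, hr2, hb2, rfl⟩ := decomp2 R2 dR2
  have key := compare5 (isHomogeneous_zero σ ℂ 4) h3 h2
    (isHomogeneous_zero σ ℂ 1) (isHomogeneous_zero σ ℂ 0)
    ((hq1.mul hr1).add (hq2.mul hr2))
    ((((hq1.mul hb1).add (ha1.mul hr1)).add (hq2.mul hb2)).add (ha2.mul hr2))
    ((((((hq1.C_mul d1).add (ha1.mul hb1)).add (hr1.C_mul c1)).add (hq2.C_mul d2)).add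
      (ha2.mul hb2)).add (hr2.C_mul c2))
    ((((ha1.C_mul d1).add (hb1.C_mul c1)).add (ha2.C_mul d2)).add (hb2.C_mul c2))
    ((isHomogeneous_C σ (c1 * d1)).add (isHomogeneous_C σ (c2 * d2)))
    (by rw [C_mul, C_mul]; linear_combination e)
  obtain ⟨E4, E3, -⟩ := key
  by_cases z1 : q1 * r1 = 0
  · have z2 : q2 * r2 = 0 := by linear_combination -E4 - z1
    left
    rcases mul_eq_zero.1 z1 with rfl | rfl <;> rcases mul_eq_zero.1 z2 with rfl | rfl
    · exact ⟨a1, a2, c1, c2, r1, r2, _, _, ha1, ha2, by linear_combination E3,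
        by rw [e, zero_add, zero_add]⟩
    · exact ⟨a1, b2, c1, d2, r1, q2, r1 + b1 + C d1, q2 + a2 + C c2, ha1, hb2,
        by linear_combination E3, by linear_combination e⟩
    · exact ⟨b1, a2, d1, c2, q1, r2, q1 + a1 + C c1, r2 + b2 + C d2, hb1, ha2,
        by linear_combination E3, by linear_combination e⟩
    · exact ⟨b1, b2, d1, d2, q1, q2, q1 + a1 + C c1, q2 + a2 + C c2, hb1, hb2,
        by linear_combination E3, by linear_combination e⟩
  · have z2 : q2 * r2 ≠ 0 := fun h => z1 (by linear_combination -E4 - h)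
    have nq1 : q1 ≠ 0 := left_ne_zero_of_mul z1
    have nr1 : r1 ≠ 0 := right_ne_zero_of_mul z1
    have nq2 : q2 ≠ 0 := left_ne_zero_of_mul z2
    have nr2 : r2 ≠ 0 := right_ne_zero_of_mul z2
    have hdvd : q1 ∣ q2 * r2 := ⟨-r1, by linear_combination -E4⟩
    obtain ⟨A, B, ⟨D, hD⟩, ⟨E, hE⟩, hAB⟩ := exists_dvd_and_dvd_of_dvd_mul hdvd
    have nA : A ≠ 0 := fun h => nq1 (by rw [hAB, h, zero_mul])
    have nB : B ≠ 0 := fun h => nq1 (by rw [hAB, h, mul_zero])
    have nD : D ≠ 0 := fun h => nq2 (by rw [hD, h, mul_zero])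
    have nE : E ≠ 0 := fun h => nr2 (by rw [hE, h, mul_zero])
    have hr1' : r1 = -(D * E) := by
      apply mul_left_cancel₀ nq1
      have : q1 * r1 = -(q2 * r2) := by linear_combination -E4
      rw [this, hD, hE, hAB]; ring
    have g1 : A.totalDegree + B.totalDegree = 2 := by
      rw [← totalDegree_mul_of_isDomain nA nB, ← hAB, hq1.totalDegree nq1]
    have g2 : A.totalDegree + D.totalDegree = 2 := by
      rw [← totalDegree_mul_of_isDomain nA nD, ← hD, hq2.totalDegree nq2]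
    have g3 : B.totalDegree + E.totalDegree = 2 := by
      rw [← totalDegree_mul_of_isDomain nB nE, ← hE, hr2.totalDegree nr2]
    by_cases zA : A.totalDegree = 0
    · left
      have zE : E.totalDegree = 0 := by omega
      obtain ⟨α, rfl⟩ : ∃ α, A = C α := ⟨_, totalDegree_eq_zero_iff_eq_C.1 zA⟩
      obtain ⟨δ, rfl⟩ : ∃ δ, E = C δ := ⟨_, totalDegree_eq_zero_iff_eq_C.1 zE⟩
      have nα : α ≠ 0 := fun h => nA (by rw [h, map_zero])
      have hκ : (C (δ / α) : MvPolynomial σ ℂ) * C α = C δ := by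
        rw [← C_mul, div_mul_cancel₀ _ nα]
      have k1 : r2 = C (δ / α) * q1 := by rw [hE, hAB, ← hκ]; ring
      have k2 : r1 = -(C (δ / α) * q2) := by rw [hr1', hD, ← hκ]; ring
      refine ⟨b1 + C (δ / α) * a2, b2 - C (δ / α) * a1, d1 + δ / α * c2, d2 - δ / α * c1, q1, q2,
        q1 + a1 + C c1, q2 + a2 + C c2, hb1.add (ha2.C_mul _), hb2.sub (ha1.C_mul _), ?_, ?_⟩
      · rw [E3, k1, k2]; ring
      · rw [e, k1, k2, C_add, C_sub, C_mul, C_mul]; ring
    by_cases zB : B.totalDegree = 0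
    · left
      have zD : D.totalDegree = 0 := by omega
      obtain ⟨β, rfl⟩ : ∃ β, B = C β := ⟨_, totalDegree_eq_zero_iff_eq_C.1 zB⟩
      obtain ⟨γ, rfl⟩ : ∃ γ, D = C γ := ⟨_, totalDegree_eq_zero_iff_eq_C.1 zD⟩
      have nβ : β ≠ 0 := fun h => nB (by rw [h, map_zero])
      have hκ : (C (γ / β) : MvPolynomial σ ℂ) * C β = C γ := by
        rw [← C_mul, div_mul_cancel₀ _ nβ]
      have k1 : q2 = C (γ / β) * q1 := by rw [hD, hAB, ← hκ]; ring
      have k2 : r1 = -(C (γ / β) * r2) := by rw [hr1', hE, ← hκ]; ring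
      refine ⟨b1 + C (γ / β) * b2, a2 - C (γ / β) * a1, d1 + γ / β * d2, c2 - γ / β * c1, q1, r2,
        q1 + a1 + C c1, r2 + b2 + C d2, hb1.add (hb2.C_mul _), ha2.sub (ha1.C_mul _), ?_, ?_⟩
      · rw [E3, k1, k2]; ring
      · rw [e, k1, k2, C_add, C_sub, C_mul, C_mul]; ring
    right
    obtain ⟨A1, α, hA1, rfl⟩ := decomp1 A (by omega)
    obtain ⟨B1, β, hB1, rfl⟩ := decomp1 B (by omega)
    obtain ⟨D1, γ, hD1, rfl⟩ := decomp1 D (by omega)
    obtain ⟨E1, δ, hE1, rfl⟩ := decomp1 E (by omega)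
    have t1 := top2 hq1 hA1 hB1 hAB
    have t2 := top2 hq2 hA1 hD1 hD
    have t3 := top2 hr2 hB1 hE1 hE
    have t4 := top2 hr1.neg hD1 hE1 (by rw [hr1', neg_neg])
    refine ⟨A1, B1, D1, E1, b1, a1, b2, a2, hA1, hB1, hD1, hE1, hb1, ha1, hb2, ha2, ?_⟩
    rw [E3, t1, t2, t3]
    linear_combination (-a1) * t4

theorem linear_form {n : ℕ} (l : MvPolynomial (Fin n) ℂ) (h : l.IsHomogeneous 1) :
    ∃ u : Fin n → ℂ, ∀ p : Fin n → ℂ, eval p l = ∑ i, u i * p i := by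
  have h1 : l ∈ homogeneousSubmodule (Fin n) ℂ 1 := (mem_homogeneousSubmodule 1 l).2 h
  rw [homogeneousSubmodule_one_eq_span_X] at h1
  obtain ⟨u, hu⟩ := (Submodule.mem_span_range_iff_exists_fun ℂ).1 h1
  refine ⟨u, fun p => ?_⟩
  rw [← hu, map_sum]
  simp [smul_eq_C_mul]

end Pool.Agent.H17.SR
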