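import Pool.Agent.H17.SR1
import Pool.Agent.H17.SR2

namespace Pool.Agent.H17.SR

open MvPolynomial

/-- The Schmidt rank of `P`: the least `r` with `P = ∑ Qᵢ Rᵢ` (`r` terms), all factors of total
degree less than the total degree of `P`. -/
noncomputable def rank {K : Type} [Field K] {n : ℕ} (P : MvPolynomial (Fin n) K) : ℕ :=
  sInf {r : ℕ | ∃ Q R : Fin r → MvPolynomial (Fin n) K,
    (∀ i, (Q i).totalDegree < P.totalDegree ∧ (R i).totalDegree < P.totalDegree) ∧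
      P = ∑ i, Q i * R i}

/-- The member at the point `s` of affine `m`-space of a family whose coefficients are
polynomial functions of `s`. -/
noncomputable def member {K : Type} [Field K] {n m : ℕ}
    (F : MvPolynomial (Fin n) (MvPolynomial (Fin m) K)) (s : Fin m → K) :
    MvPolynomial (Fin n) K :=
  MvPolynomial.map (MvPolynomial.eval s) F

/-- The cubic part, variables `x, y, w, a, b, c, d, z`. -/
noncomputable def P3 {R : Type} [CommRing R] (s t : R) : MvPolynomial (Fin 8) R :=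
  X 3 * X 1 * X 1 + X 4 * X 2 * X 2 + X 5 * X 0 * X 1 + X 6 * X 0 * X 2
    + C t * (X 4 * X 5 * X 2 - X 3 * X 6 * X 1) + C (s * t) * (X 7 * X 0 * X 0)

/-- The quadratic part. -/
noncomputable def P2 {R : Type} [CommRing R] (t : R) : MvPolynomial (Fin 8) R :=
  X 0 * X 0 + C (t * t) * (X 3 * X 4)

/-- The family over the plane with coordinates `s, t`. -/
noncomputable def fam : MvPolynomial (Fin 8) (MvPolynomial (Fin 2) ℂ) :=
  P3 (X 0) (X 1) + P2 (X 1)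

theorem member_fam (p : Fin 2 → ℂ) : member fam p = P3 (p 0) (p 1) + P2 (p 1) := by
  simp [member, fam, P3, P2]

theorem hX (i : Fin 8) : (X i : MvPolynomial (Fin 8) ℂ).IsHomogeneous 1 := isHomogeneous_X ℂ i

theorem hXX (i j : Fin 8) : (X i * X j : MvPolynomial (Fin 8) ℂ).IsHomogeneous 2 :=
  (hX i).mul (hX j)

theorem hXXX (i j k : Fin 8) : (X i * X j * X k : MvPolynomial (Fin 8) ℂ).IsHomogeneous 3 :=
  (hXX i j).mul (hX k)

theorem P3_hom (s t : ℂ) : (P3 s t).IsHomogeneous 3 :=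
  (((((hXXX _ _ _).add (hXXX _ _ _)).add (hXXX _ _ _)).add (hXXX _ _ _)).add
    (((hXXX _ _ _).sub (hXXX _ _ _)).C_mul _)).add ((hXXX _ _ _).C_mul _)

theorem P2_hom (t : ℂ) : (P2 t).IsHomogeneous 2 :=
  (hXX _ _).add ((hXX _ _).C_mul _)

theorem eval_P3 (s t x y w a b c d z : ℂ) : eval ![x, y, w, a, b, c, d, z] (P3 s t) =
    a * y ^ 2 + b * w ^ 2 + c * x * y + d * x * w + t * (b * c * w - a * d * y)
      + s * t * z * x ^ 2 := by
  simp [P3]
  ring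

theorem eval_P2 (t x y w a b c d z : ℂ) : eval ![x, y, w, a, b, c, d, z] (P2 t) =
    x ^ 2 + t ^ 2 * a * b := by
  simp [P2]
  ring

theorem P3_ne (s t : ℂ) : P3 s t ≠ 0 := by
  intro h
  have := eval_P3 s t 0 1 0 1 0 0 0 0
  rw [h] at this
  simp at this

theorem deg_P (s t : ℂ) : (P3 s t + P2 t).totalDegree = 3 := by
  have h3 := (P3_hom s t).totalDegree (P3_ne s t)
  rw [totalDegree_add_eq_left_of_totalDegree_lt, h3]
  rw [h3]
  exact lt_of_le_of_lt (P2_hom t).totalDegree_le (by norm_num)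

theorem lin8 (l : MvPolynomial (Fin 8) ℂ) (h : l.IsHomogeneous 1) :
    ∃ u0 u1 u2 u3 u4 u5 u6 u7 : ℂ, ∀ x y w a b c d z : ℂ, eval ![x, y, w, a, b, c, d, z] l =
      u0 * x + u1 * y + u2 * w + u3 * a + u4 * b + u5 * c + u6 * d + u7 * z := by
  obtain ⟨u, hu⟩ := linear_form l h
  refine ⟨u 0, u 1, u 2, u 3, u 4, u 5, u 6, u 7, fun x y w a b c d z => ?_⟩
  rw [hu, Fin.sum_univ_eight]
  simp

/-- For `s t ≠ 0` the cubic part vanishes on no codimension-two linear subspace. -/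
theorem no_slice (s t : ℂ) (hst : s * t ≠ 0) (l1 l2 g h : MvPolynomial (Fin 8) ℂ)
    (h1 : l1.IsHomogeneous 1) (h2 : l2.IsHomogeneous 1) (e : P3 s t = l1 * g + l2 * h) :
    False := by
  obtain ⟨u0, u1, u2, u3, u4, u5, u6, u7, hu⟩ := lin8 l1 h1
  obtain ⟨v0, v1, v2, v3, v4, v5, v6, v7, hv⟩ := lin8 l2 h2
  refine lemB (s * t) hst u0 u1 u2 u3 u4 u7 v0 v1 v2 v3 v4 v7 fun x y w a b z e1 e2 => ?_
  have := eval_P3 s t x y w a b 0 0 z
  rw [e, map_add, map_mul, map_mul, hu, hv] at this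
  linear_combination -this + (eval ![x, y, w, a, b, 0, 0, z] g) * e1
    + (eval ![x, y, w, a, b, 0, 0, z] h) * e2

theorem slice0 (s : ℂ) (l1 l2 g h : MvPolynomial (Fin 8) ℂ)
    (e : P3 s 0 = l1 * g + l2 * h) (u0 u1 u2 u3 u4 u5 u6 u7 v0 v1 v2 v3 v4 v5 v6 v7 : ℂ)
    (hu : ∀ x y w a b c d z : ℂ, eval ![x, y, w, a, b, c, d, z] l1 =
      u0 * x + u1 * y + u2 * w + u3 * a + u4 * b + u5 * c + u6 * d + u7 * z)
    (hv : ∀ x y w a b c d z : ℂ, eval ![x, y, w, a, b, c, d, z] l2 =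
      v0 * x + v1 * y + v2 * w + v3 * a + v4 * b + v5 * c + v6 * d + v7 * z) :
    (u0 = 0 ∧ v0 = 0) ∧ (u5 = 0 ∧ v5 = 0) ∧ u1 * v2 - u2 * v1 ≠ 0 := by
  refine lemA u0 u1 u2 u3 u4 u5 u6 v0 v1 v2 v3 v4 v5 v6 fun x y w a b c d e1 e2 => ?_
  have := eval_P3 s 0 x y w a b c d 0
  rw [e, map_add, map_mul, map_mul, hu, hv] at this
  linear_combination -this + (eval ![x, y, w, a, b, c, d, 0] g) * e1
    + (eval ![x, y, w, a, b, c, d, 0] h) * e2

theorem not_two (s t : ℂ) (hst : s ≠ 0 ∨ t = 0) (Q1 R1 Q2 R2 : MvPolynomial (Fin 8) ℂ)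
    (dQ1 : Q1.totalDegree < 3) (dR1 : R1.totalDegree < 3)
    (dQ2 : Q2.totalDegree < 3) (dR2 : R2.totalDegree < 3)
    (e : P3 s t + P2 t = Q1 * R1 + Q2 * R2) : False := by
  have key := structure_lemma _ _ _ _ _ _ (P3_hom s t) (P2_hom t) dQ1 dR1 dQ2 dR2 e
  by_cases ht : t = 0
  · subst ht
    rcases key with ⟨l1, l2, e1, e2, g, h, G, H, h1, h2, k3, k⟩ |
      ⟨A, B, D, E, b1, a1, b2, a2, hA, hB, hD, hE, hb1, ha1, hb2, ha2, k⟩
    · obtain ⟨u0, u1, u2, u3, u4, u5, u6, u7, hu⟩ := lin8 l1 h1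
      obtain ⟨v0, v1, v2, v3, v4, v5, v6, v7, hv⟩ := lin8 l2 h2
      obtain ⟨-, -, hd⟩ := slice0 s l1 l2 g h k3 _ _ _ _ _ _ _ _ _ _ _ _ _ _ _ _ hu hv
      obtain ⟨y, w, k1, k2⟩ := solve2 (u0 + e1) (v0 + e2) _ _ _ _ hd
      have := congrArg (eval ![1, y, w, 0, 0, 0, 0, 0]) k
      rw [map_add, eval_P3, eval_P2, map_add, map_mul, map_mul, map_add, map_add, hu, hv,
        eval_C, eval_C] at this
      exact one_ne_zero (α := ℂ) (by
        linear_combination this + (eval ![1, y, w, 0, 0, 0, 0, 0] G) * k1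
          + (eval ![1, y, w, 0, 0, 0, 0, 0] H) * k2)
    · obtain ⟨A0, A1, A2, A3, A4, A5, A6, A7, eA⟩ := lin8 A hA
      obtain ⟨B0, B1, B2, B3, B4, B5, B6, B7, eB⟩ := lin8 B hB
      obtain ⟨D0, D1, D2, D3, D4, D5, D6, D7, eD⟩ := lin8 D hD
      obtain ⟨E0, E1, E2, E3, E4, E5, E6, E7, eE⟩ := lin8 E hE
      obtain ⟨p0, p1, p2, p3, p4, p5, p6, p7, ep⟩ := lin8 b1 hb1
      obtain ⟨q0, q1, q2, q3, q4, q5, q6, q7, eq⟩ := lin8 a1 ha1
      obtain ⟨r0, r1, r2, r3, r4, r5, r6, r7, er⟩ := lin8 b2 hb2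
      obtain ⟨s0, s1, s2, s3, s4, s5, s6, s7, es⟩ := lin8 a2 ha2
      obtain ⟨⟨rfl, rfl⟩, ⟨rfl, rfl⟩, -⟩ := slice0 s B D (A * b1 + a2 * E) (A * b2 - a1 * E)
        (by rw [k]; ring) _ _ _ _ _ _ _ _ _ _ _ _ _ _ _ _ eB eD
      obtain ⟨⟨rfl, rfl⟩, ⟨rfl, rfl⟩, -⟩ := slice0 s A E (B * b1 + D * b2) (a2 * B - a1 * D)
        (by rw [k]; ring) _ _ _ _ _ _ _ _ _ _ _ _ _ _ _ _ eA eE
      have ev : ∀ τ : ℂ, τ = τ ^ 2 * (A1 * B1 * (p0 + p1 * τ + p5) - (q0 + q1 * τ + q5) * D1 * E1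
          + A1 * D1 * (r0 + r1 * τ + r5) + (s0 + s1 * τ + s5) * B1 * E1) := by
        intro τ
        have := eval_P3 s 0 1 τ 0 0 0 1 0 0
        rw [k] at this
        simp only [map_add, map_sub, map_mul, eA, eB, eD, eE, ep, eq, er, es] at this
        linear_combination -this
      have v1 := ev 1
      have v2 := ev (-1)
      have v3 := ev 2
      exact one_ne_zero (α := ℂ) (by linear_combination v1 - (1 / 3 : ℂ) * v2
        - (1 / 6 : ℂ) * v3)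
  · have hs : s ≠ 0 := hst.resolve_right ht
    rcases key with ⟨l1, l2, e1, e2, g, h, G, H, h1, h2, k3, k⟩ |
      ⟨A, B, D, E, b1, a1, b2, a2, hA, hB, hD, hE, hb1, ha1, hb2, ha2, k⟩
    · exact no_slice s t (mul_ne_zero hs ht) l1 l2 g h h1 h2 k3
    · exact no_slice s t (mul_ne_zero hs ht) B D (A * b1 + a2 * E) (A * b2 - a1 * E) hB hD
        (by rw [k]; ring)

theorem lt3 {q : MvPolynomial (Fin 8) ℂ} (h : q.IsHomogeneous 2) : q.totalDegree < 3 :=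
  lt_of_le_of_lt h.totalDegree_le (by norm_num)

theorem lt3' {q : MvPolynomial (Fin 8) ℂ} (h : q.IsHomogeneous 1) : q.totalDegree < 3 :=
  lt_of_le_of_lt h.totalDegree_le (by norm_num)

theorem lt3'' {q a : MvPolynomial (Fin 8) ℂ} (h : q.IsHomogeneous 2) (k : a.IsHomogeneous 1) :
    (q + a).totalDegree < 3 :=
  lt_of_le_of_lt (totalDegree_add _ _) (max_lt (lt3 h) (lt3' k))

theorem two_rep (s t : ℂ) (ht : t ≠ 0) : ∃ Q1 R1 Q2 R2 : MvPolynomial (Fin 8) ℂ,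
    Q1.totalDegree < 3 ∧ R1.totalDegree < 3 ∧ Q2.totalDegree < 3 ∧ R2.totalDegree < 3 ∧
    P3 s t + P2 t = Q1 * R1 + Q2 * R2 + X 7 * (C (s * t) * (X 0 * X 0)) := by
  refine ⟨C (t⁻¹ * t⁻¹) * (X 2 * X 2 + C t * (X 5 * X 2)) + X 3,
    (X 1 * X 1 - C t * (X 6 * X 1)) + C (t * t) * X 4,
    C (t⁻¹ * t⁻¹) * (X 2 * X 1 - C t * (X 6 * X 2)) + C (-t⁻¹) * X 0,
    (-(X 1 * X 2) - C t * (X 5 * X 1)) + C (-t) * X 0,
    lt3'' (((hXX _ _).add ((hXX _ _).C_mul _)).C_mul _) (hX _),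
    lt3'' ((hXX _ _).sub ((hXX _ _).C_mul _)) ((hX _).C_mul _),
    lt3'' (((hXX _ _).sub ((hXX _ _).C_mul _)).C_mul _) ((hX _).C_mul _),
    lt3'' ((hXX _ _).neg.sub ((hXX _ _).C_mul _)) ((hX _).C_mul _), ?_⟩
  apply MvPolynomial.funext
  intro p
  simp only [P3, P2, map_add, map_sub, map_mul, map_neg, eval_C, eval_X]
  field_simp
  ring

theorem three_rep (s t : ℂ) : ∃ Q R : Fin 3 → MvPolynomial (Fin 8) ℂ,
    (∀ i, (Q i).totalDegree < 3 ∧ (R i).totalDegree < 3) ∧ P3 s t + P2 t = ∑ i, Q i * R i := by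
  by_cases ht : t = 0
  · subst ht
    refine ⟨![X 1, X 2, X 0], ![X 3 * X 1 + X 5 * X 0, X 4 * X 2 + X 6 * X 0, X 0], ?_, ?_⟩
    · intro i
      fin_cases i
      · exact ⟨lt3' (hX _), lt3 ((hXX _ _).add (hXX _ _))⟩
      · exact ⟨lt3' (hX _), lt3 ((hXX _ _).add (hXX _ _))⟩
      · exact ⟨lt3' (hX _), lt3' (hX _)⟩
    · simp [P3, P2, Fin.sum_univ_three]
      ring
  · obtain ⟨Q1, R1, Q2, R2, h1, h2, h3, h4, e⟩ := two_rep s t ht
    refine ⟨![Q1, Q2, X 7], ![R1, R2, C (s * t) * (X 0 * X 0)], ?_, ?_⟩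
    · intro i
      fin_cases i
      · exact ⟨h1, h2⟩
      · exact ⟨h3, h4⟩
      · exact ⟨lt3' (hX _), lt3 ((hXX _ _).C_mul _)⟩
    · rw [e, Fin.sum_univ_three]
      rfl

theorem rank_le_three (s t : ℂ) : rank (P3 s t + P2 t) ≤ 3 := by
  apply Nat.sInf_le
  rw [deg_P]
  exact three_rep s t

theorem rank_le_two (t : ℂ) (ht : t ≠ 0) : rank (P3 0 t + P2 t) ≤ 2 := by
  apply Nat.sInf_le
  rw [deg_P]
  obtain ⟨Q1, R1, Q2, R2, h1, h2, h3, h4, e⟩ := two_rep 0 t ht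
  refine ⟨![Q1, Q2], ![R1, R2], ?_, ?_⟩
  · intro i
    fin_cases i
    · exact ⟨h1, h2⟩
    · exact ⟨h3, h4⟩
  · rw [e, Fin.sum_univ_two]
    simp

theorem rank_eq_three (s t : ℂ) (hst : s ≠ 0 ∨ t = 0) : rank (P3 s t + P2 t) = 3 := by
  refine le_antisymm (rank_le_three s t) ?_
  by_contra hlt
  have hmem : rank (P3 s t + P2 t) ∈ {r : ℕ | ∃ Q R : Fin r → MvPolynomial (Fin 8) ℂ,
      (∀ i, (Q i).totalDegree < (P3 s t + P2 t).totalDegree ∧
        (R i).totalDegree < (P3 s t + P2 t).totalDegree) ∧ P3 s t + P2 t = ∑ i, Q i * R i} := by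
    apply Nat.sInf_mem
    refine ⟨3, ?_⟩
    rw [deg_P]
    exact three_rep s t
  rw [deg_P] at hmem
  generalize rank (P3 s t + P2 t) = r at hlt hmem
  obtain ⟨Q, R, hd, e⟩ := hmem
  have z : (0 : MvPolynomial (Fin 8) ℂ).totalDegree < 3 := by simp
  have hr : r < 3 := not_le.1 hlt
  interval_cases r
  · exact not_two s t hst 0 0 0 0 z z z z (by simpa using e)
  · exact not_two s t hst (Q 0) (R 0) 0 0 (hd 0).1 (hd 0).2 z z (by simpa using e)
  · exact not_two s t hst (Q 0) (R 0) (Q 1) (R 1) (hd 0).1 (hd 0).2 (hd 1).1 (hd 1).2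
      (by simpa [Fin.sum_univ_two] using e)

theorem locus_eq : {p : Fin 2 → ℂ | ∀ q, rank (member fam q) ≤ rank (member fam p)} =
    {p | p 0 ≠ 0 ∨ p 1 = 0} := by
  ext p
  simp only [Set.mem_ofPred_eq, member_fam]
  constructor
  · intro h
    by_contra hn
    push Not at hn
    have h1 := h ![0, 0]
    have h2 := rank_eq_three 0 0 (Or.inr rfl)
    have h3 := rank_le_two (p 1) hn.2
    rw [hn.1] at h1
    simp only [Matrix.cons_val_zero, Matrix.cons_val_one] at h1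
    omega
  · intro h q
    rw [rank_eq_three _ _ h]
    exact rank_le_three _ _

theorem not_lc : ¬ ∃ I J : Ideal (MvPolynomial (Fin 2) ℂ),
    {p : Fin 2 → ℂ | p 0 ≠ 0 ∨ p 1 = 0} = zeroLocus ℂ I \ zeroLocus ℂ J := by
  rintro ⟨I, J, h⟩
  have hI : ∀ f ∈ I, f = 0 := by
    intro f hf
    have : X 0 * f = 0 := by
      apply MvPolynomial.funext
      intro p
      by_cases hp : p 0 = 0
      · simp [hp]
      · have h1 : p ∈ zeroLocus ℂ I \ zeroLocus ℂ J := by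
          rw [← h]; exact Or.inl hp
        have h2 : eval p f = 0 := h1.1 f hf
        simp [h2]
    exact (mul_eq_zero.1 this).resolve_left (X_ne_zero _)
  have h0 : (![0, 0] : Fin 2 → ℂ) ∈ zeroLocus ℂ I \ zeroLocus ℂ J := by
    rw [← h]; exact Or.inr rfl
  apply h0.2
  intro g hg
  have hz : ∀ t : ℂ, t ≠ 0 → aeval (![0, t] : Fin 2 → ℂ) g = 0 := by
    intro t ht
    have h1 : (![0, t] : Fin 2 → ℂ) ∉ zeroLocus ℂ I \ zeroLocus ℂ J := by
      rw [← h]; simp [ht]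
    have h2 : (![0, t] : Fin 2 → ℂ) ∈ zeroLocus ℂ J := by
      by_contra h3
      exact h1 ⟨fun f hf => by rw [hI f hf, map_zero], h3⟩
    exact h2 g hg
  let g' : Polynomial ℂ := aeval (![0, Polynomial.X] : Fin 2 → Polynomial ℂ) g
  have hg' : ∀ t : ℂ, g'.eval t = aeval (![0, t] : Fin 2 → ℂ) g := by
    intro t
    have : (Polynomial.aeval t).comp (aeval (![0, Polynomial.X] : Fin 2 → Polynomial ℂ))
        = (aeval (![0, t] : Fin 2 → ℂ) : MvPolynomial (Fin 2) ℂ →ₐ[ℂ] ℂ) := by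
      apply MvPolynomial.algHom_ext
      intro i
      fin_cases i <;> simp
    rw [← this, AlgHom.comp_apply, Polynomial.coe_aeval_eq_eval]
  have hz' : Polynomial.X * g' = 0 := by
    apply Polynomial.funext
    intro t
    by_cases ht : t = 0
    · simp [ht]
    · simp [hg', hz t ht]
  have := (mul_eq_zero.1 hz').resolve_left Polynomial.X_ne_zero
  rw [← hg', this, Polynomial.eval_zero]

end Pool.Agent.H17.SR
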