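import Mathlib

set_option autoImplicit false

namespace Pool.Agent.H17.Weyl

open Finset

/-- all `D`-fold differences of `g` vanish -/
def Pd {p : ℕ} : ℕ → (ZMod p → ZMod p) → Prop
  | 0, g => ∀ x, g x = 0
  | D + 1, g => ∀ h, Pd D (fun x => g (x + h) - g x)

lemma Pd_mul {p : ℕ} (c : ZMod p) : ∀ (D : ℕ) (g : ZMod p → ZMod p), Pd D g →
    Pd D (fun x => c * g x)
  | 0, g, h => by intro x; simp [h x]
  | D + 1, g, h => by
    intro t
    have := Pd_mul c D _ (h t)
    simp only [mul_sub] at this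
    exact this

lemma normsq_sum {p : ℕ} [NeZero p] {ι : Type*} (s : Finset ι) (g : ι → ZMod p) :
    ((‖∑ x ∈ s, ZMod.stdAddChar (g x)‖ ^ 2 : ℝ) : ℂ) =
      ∑ x ∈ s, ∑ y ∈ s, ZMod.stdAddChar (g y - g x) := by
  have h1 : ∀ z : ℂ, ((‖z‖ ^ 2 : ℝ) : ℂ) = (starRingEnd ℂ) z * z := by
    intro z
    rw [mul_comm, Complex.mul_conj, Complex.normSq_eq_norm_sq]
  rw [h1, map_sum, sum_mul_sum]
  refine sum_congr rfl fun x _ => sum_congr rfl fun y _ => ?_
  rw [← AddChar.map_neg_eq_conj, ← AddChar.map_add_eq_mul]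
  congr 1
  ring

theorem weyl : ∀ (D : ℕ) (ε : ℝ), 0 < ε → ∃ p₀ : ℕ, ∀ (p : ℕ) [Fact p.Prime], p₀ < p →
    ∀ g : ZMod p → ZMod p, Pd D g →
      (∀ x, g x = g 0) ∨ ‖∑ x, ZMod.stdAddChar (g x)‖ ≤ ε * p
  | 0, ε, _ => ⟨0, fun p _ _ g hg => Or.inl fun x => by rw [hg x, hg 0]⟩
  | D + 1, ε, hε => by
    obtain ⟨p₁, hp₁⟩ := weyl D (ε ^ 2 / 2) (by positivity)
    obtain ⟨p₂, hp₂⟩ := exists_nat_ge (2 / ε ^ 2)
    refine ⟨max p₁ p₂, fun p _ hp g hg => ?_⟩
    have hp1 : p₁ < p := lt_of_le_of_lt (le_max_left _ _) hp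
    have hp2 : p₂ < p := lt_of_le_of_lt (le_max_right _ _) hp
    have hpos : (0 : ℝ) < p := by exact_mod_cast (by omega : 0 < p)
    by_cases hc : ∃ h : ZMod p, h ≠ 0 ∧ ∀ x, g (x + h) - g x = g (0 + h) - g 0
    · obtain ⟨h, h0, hh⟩ := hc
      set c := g (0 + h) - g 0 with hcdef
      by_cases c0 : c = 0
      · left
        have key : ∀ n : ℕ, g (n * h) = g 0 := by
          intro n
          induction n with
          | zero => simp
          | succ n ih =>
            have := hh (n * h)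
            rw [c0, sub_eq_zero] at this
            rw [← ih, ← this]
            congr 1
            push_cast
            ring
        intro x
        have := key (x / h).val
        rw [ZMod.natCast_zmod_val, div_mul_cancel₀ _ h0] at this
        exact this
      · right
        have h1 : ∑ x, ZMod.stdAddChar (g x) =
            ZMod.stdAddChar c * ∑ x, ZMod.stdAddChar (g x) := by
          rw [mul_sum]
          rw [← Equiv.sum_comp (Equiv.addRight h)]
          refine sum_congr rfl fun x _ => ?_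
          rw [← AddChar.map_add_eq_mul]
          congr 1
          have := hh x
          simp only [Equiv.coe_addRight]
          linear_combination this
        have h2 : ZMod.stdAddChar c ≠ 1 := by
          intro h3
          apply c0
          apply ZMod.injective_stdAddChar
          rw [h3, AddChar.map_zero_eq_one]
        have h3 : ∑ x, ZMod.stdAddChar (g x) = 0 := by
          have : (1 - ZMod.stdAddChar c) * ∑ x, ZMod.stdAddChar (g x) = 0 := by
            linear_combination h1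
          rcases mul_eq_zero.mp this with h4 | h4
          · exact absurd (sub_eq_zero.mp h4).symm h2
          · exact h4
        rw [h3, norm_zero]
        positivity
    · right
      push Not at hc
      have hb : ∀ h : ZMod p, h ≠ 0 →
          ‖∑ x, ZMod.stdAddChar (g (x + h) - g x)‖ ≤ ε ^ 2 / 2 * p := by
        intro h h0
        rcases hp₁ p hp1 _ (hg h) with h1 | h1
        · obtain ⟨x, hx⟩ := hc h h0
          exact absurd (h1 x) hx
        · exact h1
      have e1 := normsq_sum (p := p) univ g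
      have e2 : ∑ x, ∑ y, ZMod.stdAddChar (g y - g x) =
          ∑ h, ∑ x, ZMod.stdAddChar (g (x + h) - g x) := by
        rw [sum_comm (s := univ) (t := univ) (f := fun h x => ZMod.stdAddChar (g (x + h) - g x))]
        refine sum_congr rfl fun x _ => ?_
        rw [← Equiv.sum_comp (Equiv.addLeft x)]
        simp
      have e3 : ‖∑ h, ∑ x, ZMod.stdAddChar (g (x + h) - g x)‖ ≤ p + p * (ε ^ 2 / 2 * p) := by
        refine (norm_sum_le _ _).trans ?_
        have : ∀ h : ZMod p, ‖∑ x, ZMod.stdAddChar (g (x + h) - g x)‖ ≤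
            (if h = 0 then (p : ℝ) else 0) + ε ^ 2 / 2 * p := by
          intro h
          by_cases h0 : h = 0
          · rw [if_pos h0]
            refine (norm_sum_le _ _).trans ?_
            simp only [AddChar.norm_apply, sum_const, card_univ, ZMod.card, nsmul_eq_mul, mul_one]
            have : 0 ≤ ε ^ 2 / 2 * p := by positivity
            linarith
          · rw [if_neg h0, zero_add]; exact hb h h0
        refine (sum_le_sum fun h _ => this h).trans ?_
        rw [sum_add_distrib]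
        simp [ZMod.card]
      rw [← e2, ← e1, Complex.norm_real, Real.norm_eq_abs, abs_of_nonneg (by positivity)] at e3
      have h4 : (2 / ε ^ 2 : ℝ) ≤ p := hp₂.trans (by exact_mod_cast hp2.le)
      have h5 : (2 : ℝ) ≤ ε ^ 2 * p := by
        rw [div_le_iff₀ (by positivity)] at h4
        linarith
      have h6 : ‖∑ x, ZMod.stdAddChar (g x)‖ ^ 2 ≤ (ε * p) ^ 2 := by
        nlinarith
      exact (pow_le_pow_iff_left₀ (norm_nonneg _) (by positivity) two_ne_zero).mp h6

lemma orth {p : ℕ} [Fact p.Prime] (z : ZMod p) :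
    ∑ j : ZMod p, ZMod.stdAddChar (j * z) = if z = 0 then (p : ℂ) else 0 := by
  have := AddChar.sum_mulShift z (ZMod.isPrimitive_stdAddChar p)
  rw [this]
  split_ifs <;> simp [ZMod.card]

/-- number of ways of writing `z` as a difference of two elements of `[0, L)` -/
def cnt {p : ℕ} (L : ℕ) (z : ZMod p) : ℕ :=
  ((range L ×ˢ range L).filter (fun st : ℕ × ℕ => z = (st.1 : ZMod p) - st.2)).card

lemma cnt_fourier {p : ℕ} [Fact p.Prime] (L : ℕ) (z : ZMod p) :
    (p : ℂ) * cnt L z = ∑ j : ZMod p, ZMod.stdAddChar (j * z) *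
      ((‖∑ t ∈ range L, ZMod.stdAddChar (j * (t : ZMod p))‖ ^ 2 : ℝ) : ℂ) := by
  simp only [normsq_sum, mul_sum]
  rw [sum_comm]
  simp only [← AddChar.map_add_eq_mul]
  have : ∀ s ∈ range L, ∑ j : ZMod p, ∑ t ∈ range L,
      ZMod.stdAddChar (j * z + (j * (t : ZMod p) - j * (s : ZMod p))) =
      ∑ t ∈ range L, if z = (s : ZMod p) - t then (p : ℂ) else 0 := by
    intro s _
    rw [sum_comm]
    refine sum_congr rfl fun t _ => ?_
    have h1 : ∀ j : ZMod p, j * z + (j * (t : ZMod p) - j * (s : ZMod p)) = j * (z - (s - t)) := by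
      intro j; ring
    simp only [h1, orth, sub_eq_zero]
  rw [sum_congr rfl this, cnt, card_filter]
  push_cast
  rw [mul_sum, sum_product]
  refine sum_congr rfl fun s _ => sum_congr rfl fun t _ => ?_
  split_ifs <;> simp

lemma cnt_zero {p : ℕ} [Fact p.Prime] (L : ℕ) (hL : L ≤ p) : cnt L (0 : ZMod p) = L := by
  unfold cnt
  have : ((range L ×ˢ range L).filter (fun st : ℕ × ℕ => (0 : ZMod p) = (st.1 : ZMod p) - st.2)) =
      (range L).diag := by
    ext ⟨s, t⟩
    simp only [mem_filter, mem_product, mem_range, mem_diag]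
    constructor
    · rintro ⟨⟨h1, h2⟩, h3⟩
      refine ⟨h1, ?_⟩
      have h4 : (s : ZMod p) = t := (sub_eq_zero.mp h3.symm)
      rw [ZMod.natCast_eq_natCast_iff'] at h4
      rw [Nat.mod_eq_of_lt (by omega), Nat.mod_eq_of_lt (by omega)] at h4
      exact h4
    · rintro ⟨h1, rfl⟩
      exact ⟨⟨h1, h1⟩, by simp⟩
  rw [this, diag_card, card_range]

lemma sum_cnt_le {p : ℕ} [Fact p.Prime] (L : ℕ) (hL : L ≤ p) (ε : ℝ) (hε : 0 ≤ ε)
    (g : ZMod p → ZMod p)
    (hg : ∀ j : ZMod p, j ≠ 0 → ‖∑ b, ZMod.stdAddChar (j * g b)‖ ≤ ε * p) (c : ZMod p) :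
    ∑ b, (cnt L (g b + c) : ℝ) ≤ L ^ 2 + ε * p * L := by
  have hp : (0 : ℝ) < p := by exact_mod_cast (Fact.out : p.Prime).pos
  set A : ZMod p → ℝ := fun j => ‖∑ t ∈ range L, ZMod.stdAddChar (j * (t : ZMod p))‖ ^ 2 with hA
  have hA0 : ∀ j, 0 ≤ A j := fun j => by simp only [hA]; positivity
  have par : ∑ j, A j = p * L := by
    have := cnt_fourier (p := p) L 0
    rw [cnt_zero L hL] at this
    simp only [mul_zero, AddChar.map_zero_eq_one, one_mul] at this
    exact_mod_cast this.symm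
  have hAz : A 0 = L ^ 2 := by simp [hA]
  have e1 : (((p : ℝ) * ∑ b, (cnt L (g b + c) : ℝ) : ℝ) : ℂ) =
      ∑ j : ZMod p, (ZMod.stdAddChar (j * c) * ∑ b, ZMod.stdAddChar (j * g b)) * (A j : ℂ) := by
    push_cast
    rw [mul_sum]
    simp only [cnt_fourier]
    rw [sum_comm]
    refine sum_congr rfl fun j _ => ?_
    rw [mul_sum, sum_mul]
    refine sum_congr rfl fun b _ => ?_
    rw [← AddChar.map_add_eq_mul]
    simp only [hA]
    congr 2
    ring
  have e2 : ‖∑ j : ZMod p, (ZMod.stdAddChar (j * c) * ∑ b, ZMod.stdAddChar (j * g b)) * (A j : ℂ)‖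
      ≤ p * L ^ 2 + ε * p * (p * L) := by
    refine (norm_sum_le _ _).trans ?_
    have : ∀ j : ZMod p, ‖(ZMod.stdAddChar (j * c) * ∑ b, ZMod.stdAddChar (j * g b)) * (A j : ℂ)‖
        ≤ (if j = 0 then (p : ℝ) * L ^ 2 else 0) + ε * p * A j := by
      intro j
      rw [norm_mul, norm_mul, AddChar.norm_apply, one_mul, Complex.norm_real, Real.norm_eq_abs,
        abs_of_nonneg (hA0 j)]
      by_cases h0 : j = 0
      · rw [if_pos h0, h0, hAz]
        simp only [zero_mul, AddChar.map_zero_eq_one, sum_const, card_univ, ZMod.card,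
          nsmul_eq_mul, mul_one, Complex.norm_natCast]
        have : 0 ≤ ε * p * (L : ℝ) ^ 2 := by positivity
        linarith
      · rw [if_neg h0, zero_add]
        exact mul_le_mul_of_nonneg_right (hg j h0) (hA0 j)
    refine (sum_le_sum fun j _ => this j).trans ?_
    rw [sum_add_distrib, ← mul_sum, par]
    simp
  rw [← e1, Complex.norm_real, Real.norm_eq_abs] at e2
  have e3 := (le_abs_self _).trans e2
  have : (p : ℝ) * ∑ b, (cnt L (g b + c) : ℝ) ≤ p * (L ^ 2 + ε * p * L) := by linarith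
  exact le_of_mul_le_mul_left this hp

lemma cnt_ge {p : ℕ} (L : ℕ) (a : ℤ) : (L : ℤ) - |a| ≤ cnt L (a : ZMod p) := by
  unfold cnt
  rcases le_total 0 a with h | h
  · obtain ⟨n, rfl⟩ := Int.eq_ofNat_of_zero_le h
    have : (range (L - n)).card ≤ ((range L ×ˢ range L).filter
        (fun st : ℕ × ℕ => ((n : ℤ) : ZMod p) = (st.1 : ZMod p) - st.2)).card := by
      refine card_le_card_of_injOn (fun t => (t + n, t)) ?_ ?_
      · intro t ht
        simp only [coe_range, Set.mem_Iio] at ht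
        simp only [coe_filter, mem_product, mem_range, Set.mem_ofPred_eq]
        refine ⟨⟨by omega, by omega⟩, by push_cast; ring⟩
      · intro a _ b _ hab
        simpa using congrArg Prod.snd hab
    rw [card_range] at this
    rw [abs_of_nonneg h]
    omega
  · obtain ⟨n, rfl⟩ := Int.exists_eq_neg_ofNat h
    have : (range (L - n)).card ≤ ((range L ×ˢ range L).filter
        (fun st : ℕ × ℕ => ((-(n : ℤ) : ℤ) : ZMod p) = (st.1 : ZMod p) - st.2)).card := by
      refine card_le_card_of_injOn (fun t => (t, t + n)) ?_ ?_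
      · intro t ht
        simp only [coe_range, Set.mem_Iio] at ht
        simp only [coe_filter, mem_product, mem_range, Set.mem_ofPred_eq]
        refine ⟨⟨by omega, by omega⟩, by push_cast; ring⟩
      · intro a _ b _ hab
        simpa using congrArg Prod.fst hab
    rw [card_range] at this
    rw [abs_neg, abs_of_nonneg (by omega)]
    omega

lemma tent (a L c0 c1 c2 : ℝ) (hL : 0 ≤ L) (h0 : 0 ≤ c0) (h1 : 0 ≤ c1) (h2 : 0 ≤ c2)
    (k0 : L - |a| ≤ c0) (k1 : L - |a - L| ≤ c1) (k2 : L - |a + L| ≤ c2) :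
    15 / 4 * L ^ 2 - 4 * L * c0 - 3 * L * (c1 + c2) ≤ a ^ 2 := by
  have m0 := mul_nonneg hL h0
  have m1 := mul_nonneg hL h1
  have m2 := mul_nonneg hL h2
  have n0 := mul_le_mul_of_nonneg_left k0 hL
  have n1 := mul_le_mul_of_nonneg_left k1 hL
  have n2 := mul_le_mul_of_nonneg_left k2 hL
  rcases le_total 0 a with ha | ha
  · rw [abs_of_nonneg ha] at n0
    rcases le_total a L with hb | hb
    · rw [abs_of_nonpos (by linarith : a - L ≤ 0)] at n1
      nlinarith [sq_nonneg (a - L / 2)]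
    · rw [abs_of_nonneg (by linarith : 0 ≤ a - L)] at n1
      nlinarith [sq_nonneg (a - 3 * L / 2)]
  · rw [abs_of_nonpos ha] at n0
    rcases le_total (-L) a with hb | hb
    · rw [abs_of_nonneg (by linarith : 0 ≤ a + L)] at n2
      nlinarith [sq_nonneg (a + L / 2)]
    · rw [abs_of_nonpos (by linarith : a + L ≤ 0)] at n2
      nlinarith [sq_nonneg (a + 3 * L / 2)]

/-- variance lower bound for an integer function that is equidistributed modulo `p` -/
theorem variance_ge {p : ℕ} [Fact p.Prime] (hp : 100 ≤ p) (a : ZMod p → ℤ)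
    (hg : ∀ j : ZMod p, j ≠ 0 → ‖∑ b, ZMod.stdAddChar (j * (a b : ZMod p))‖ ≤ 1 / 100 * p) :
    (p : ℝ) ^ 3 / 16 < ∑ b, (a b : ℝ) ^ 2 := by
  set L := p / 4 with hLdef
  have hL : L ≤ p := Nat.div_le_self _ _
  have s0 := sum_cnt_le L hL (1 / 100) (by norm_num) (fun b => (a b : ZMod p)) hg 0
  have s1 := sum_cnt_le L hL (1 / 100) (by norm_num) (fun b => (a b : ZMod p)) hg (-(L : ZMod p))
  have s2 := sum_cnt_le L hL (1 / 100) (by norm_num) (fun b => (a b : ZMod p)) hg (L : ZMod p)
  have pt : ∀ b, 15 / 4 * (L : ℝ) ^ 2 - 4 * L * (cnt L ((a b : ZMod p) + 0) : ℝ) -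
      3 * L * ((cnt L ((a b : ZMod p) + -(L : ZMod p)) : ℝ) +
        (cnt L ((a b : ZMod p) + (L : ZMod p)) : ℝ)) ≤ (a b : ℝ) ^ 2 := by
    intro b
    apply tent <;> try positivity
    · have := cnt_ge (p := p) L (a b)
      rw [add_zero]
      exact_mod_cast this
    · have := cnt_ge (p := p) L (a b - L)
      push_cast at this
      rw [← sub_eq_add_neg]
      exact_mod_cast this
    · have := cnt_ge (p := p) L (a b + L)
      push_cast at this
      exact_mod_cast this
  have tot := sum_le_sum fun b (_ : b ∈ (univ : Finset (ZMod p))) => pt b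
  rw [sum_sub_distrib, sum_sub_distrib, ← mul_sum, ← mul_sum, ← mul_sum, sum_add_distrib] at tot
  simp only [sum_const, card_univ, ZMod.card, nsmul_eq_mul] at tot
  have hL0 : (0 : ℝ) ≤ L := by positivity
  have hL1 : (4 : ℝ) * L ≤ p := by exact_mod_cast (by omega : 4 * L ≤ p)
  have hL2 : (p : ℝ) ≤ 4 * L + 3 := by exact_mod_cast (by omega : p ≤ 4 * L + 3)
  have hp' : (100 : ℝ) ≤ p := by exact_mod_cast hp
  have t0 := mul_le_mul_of_nonneg_left s0 hL0
  have t1 := mul_le_mul_of_nonneg_left s1 hL0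
  have t2 := mul_le_mul_of_nonneg_left s2 hL0
  have u1 : (L : ℝ) ^ 2 * (4 * L) ≤ (L : ℝ) ^ 2 * p := mul_le_mul_of_nonneg_left hL1 (by positivity)
  have u2 : (23 / 20 : ℝ) * ((L : ℝ) ^ 2 * p) ≤ ∑ b, (a b : ℝ) ^ 2 := by nlinarith
  have u3 : (97 / 100 * p : ℝ) ≤ 4 * L := by linarith
  have u4 : (97 / 100 * p : ℝ) ^ 2 ≤ (4 * L) ^ 2 := pow_le_pow_left₀ (by positivity) u3 2
  have u5 := mul_le_mul_of_nonneg_right u4 (by positivity : (0 : ℝ) ≤ p)
  have u6 : (0 : ℝ) < (p : ℝ) ^ 3 := by positivity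
  nlinarith

end Pool.Agent.H17.Weyl
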