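import Mathlib
import Pool.Agent.H17.Weyl

set_option autoImplicit false

namespace Pool.Agent.H17.SpecialDir

open Finset Pool.Agent.H17.Weyl

variable {p : ℕ} [Fact p.Prime]

/-- linear form whose fibres are the lines of direction `d` -/
def ell (d : Option (ZMod p)) (q : ZMod p × ZMod p) : ZMod p :=
  d.elim q.1 (fun m => q.2 - m * q.1)

lemma ell_add (d : Option (ZMod p)) (P v : ZMod p × ZMod p) :
    ell d (P + v) = ell d P + ell d v := by
  cases d <;> simp [ell]; ring

lemma ell_exists (d e : Option (ZMod p)) (hde : d ≠ e) (h : ZMod p) :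
    ∃ v, ell e v = 0 ∧ ell d v = h := by
  cases d with
  | none =>
    cases e with
    | none => exact absurd rfl hde
    | some m => exact ⟨(h, m * h), by simp [ell], by simp [ell]⟩
  | some m =>
    cases e with
    | none => exact ⟨(0, h), by simp [ell], by simp [ell]⟩
    | some m' =>
      have h1 : m' - m ≠ 0 := by
        intro h2
        apply hde
        rw [sub_eq_zero.mp h2]
      refine ⟨(h / (m' - m), m' * (h / (m' - m))), by simp [ell], ?_⟩
      simp only [ell, Option.elim]
      field_simp

lemma ell_surj (d : Option (ZMod p)) (h : ZMod p) : ∃ v, ell d v = h := by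
  cases d with
  | none => exact ⟨(h, 0), by simp [ell]⟩
  | some m => exact ⟨(0, h), by simp [ell]⟩

lemma diff_lemma : ∀ (n : ℕ) (T : Finset (Option (ZMod p))), T.card = n →
    ∀ (g : Option (ZMod p) → ZMod p → ZMod p) (C : ZMod p),
      (∀ P, ∑ d ∈ T, g d (ell d P) = C) → ∀ d ∈ T, Pd n (g d) := by
  intro n
  induction n with
  | zero =>
    intro T hT g C _ d hd
    rw [card_eq_zero] at hT
    simp [hT] at hd
  | succ n ih =>
    intro T hT g C hg d hd h
    by_cases hn : n = 0
    · subst hn
      obtain ⟨e, rfl⟩ := card_eq_one.mp hT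
      rw [mem_singleton] at hd
      subst hd
      intro x
      obtain ⟨v, hv⟩ := ell_surj d x
      obtain ⟨w, hw⟩ := ell_surj d (x + h)
      have h1 := hg v
      have h2 := hg w
      simp only [sum_singleton, hv, hw] at h1 h2
      simp [h1, h2]
    · obtain ⟨e, he, hed⟩ : ∃ e ∈ T, e ≠ d := by
        apply exists_mem_ne (by omega)
      obtain ⟨v, hv1, hv2⟩ := ell_exists d e hed.symm h
      have := ih (T.erase e) (by rw [card_erase_of_mem he]; omega)
        (fun c x => g c (x + ell c v) - g c x) 0 (by
          intro P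
          have h1 := hg (P + v)
          have h2 := hg P
          simp only [ell_add] at h1
          rw [← add_sum_erase T _ he] at h1 h2
          rw [hv1, add_zero] at h1
          rw [sum_sub_distrib]
          linear_combination h1 - h2) d (mem_erase.mpr ⟨hed.symm, hd⟩)
      rw [hv2] at this
      exact this

lemma count_dir (P Q : ZMod p × ZMod p) :
    ∑ d : Option (ZMod p), (if ell d Q = ell d P then (1 : ℤ) else 0) =
      if Q = P then (p : ℤ) + 1 else 1 := by
  rw [Fintype.sum_option]
  by_cases h : Q = P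
  · subst h
    simp [ZMod.card, add_comm]
  · rw [if_neg h]
    by_cases h1 : Q.1 = P.1
    · have h2 : Q.2 ≠ P.2 := fun h2 => h (Prod.ext h1 h2)
      have : ∀ m : ZMod p, ell (some m) Q ≠ ell (some m) P := by
        intro m hm
        simp only [ell, Option.elim, h1] at hm
        exact h2 (by linear_combination hm)
      simp only [this, if_false]
      simp [ell, h1]
    · have h3 : Q.1 - P.1 ≠ 0 := sub_ne_zero.mpr h1
      have : ∀ m : ZMod p, ell (some m) Q = ell (some m) P ↔ m = (Q.2 - P.2) / (Q.1 - P.1) := by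
        intro m
        simp only [ell, Option.elim]
        rw [eq_div_iff h3]
        constructor <;> intro hm <;> linear_combination -hm
      simp only [this]
      simp [ell, h1]

/-- number of points of `S` on the line `ell d = b` -/
def num (S : Finset (ZMod p × ZMod p)) (d : Option (ZMod p)) (b : ZMod p) : ℕ :=
  (S.filter (fun q => ell d q = b)).card

lemma num_le (S : Finset (ZMod p × ZMod p)) (d : Option (ZMod p)) (b : ZMod p) :
    num S d b ≤ p := by
  have : num S d b ≤ (univ : Finset (ZMod p)).card := by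
    unfold num
    cases d with
    | none =>
      refine card_le_card_of_injOn Prod.snd (fun _ _ => by simp) ?_
      intro x hx y hy hxy
      simp only [coe_filter, Set.mem_ofPred_eq, ell, Option.elim] at hx hy
      exact Prod.ext (hx.2.trans hy.2.symm) hxy
    | some m =>
      refine card_le_card_of_injOn Prod.fst (fun _ _ => by simp) ?_
      intro x hx y hy hxy
      simp only [coe_filter, Set.mem_ofPred_eq, ell, Option.elim] at hx hy
      refine Prod.ext hxy ?_
      have := hx.2.trans hy.2.symm
      rw [hxy] at this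
      linear_combination this
  simpa [ZMod.card] using this

lemma sum_num (S : Finset (ZMod p × ZMod p)) (d : Option (ZMod p)) :
    ∑ b, (num S d b : ℤ) = S.card := by
  have := card_eq_sum_card_fiberwise (s := S) (t := univ) (f := ell d) (fun _ _ => by simp)
  rw [this]
  push_cast
  rfl

lemma sum_num_pt (S : Finset (ZMod p × ZMod p)) (P : ZMod p × ZMod p) :
    ∑ d, (num S d (ell d P) : ℤ) = S.card + if P ∈ S then (p : ℤ) else 0 := by
  have h1 : ∀ d, (num S d (ell d P) : ℤ) = ∑ Q ∈ S, if ell d Q = ell d P then (1 : ℤ) else 0 := by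
    intro d
    unfold num
    rw [card_filter]
    push_cast
    rfl
  simp only [h1]
  rw [sum_comm]
  simp only [count_dir]
  have h2 : ∀ Q : ZMod p × ZMod p, (if Q = P then (p : ℤ) + 1 else 1) =
      1 + if Q = P then (p : ℤ) else 0 := by
    intro Q; split_ifs <;> ring
  simp only [h2, sum_add_distrib]
  simp

lemma sum_num_sq (S : Finset (ZMod p × ZMod p)) :
    ∑ d, ∑ b, (num S d b : ℤ) ^ 2 = S.card * (S.card + p) := by
  have h1 : ∀ d, ∑ b, (num S d b : ℤ) ^ 2 = ∑ P ∈ S, (num S d (ell d P) : ℤ) := by
    intro d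
    rw [← sum_fiberwise_of_maps_to (s := S) (t := univ) (g := ell d) (fun _ _ => by simp)]
    refine sum_congr rfl fun b _ => ?_
    rw [sum_congr rfl (g := fun _ => (num S d b : ℤ))]
    · rw [sum_const, nsmul_eq_mul, sq]; rfl
    · intro P hP
      rw [(mem_filter.mp hP).2]
  simp only [h1]
  rw [sum_comm]
  simp only [sum_num_pt]
  rw [sum_congr rfl (g := fun _ => (S.card : ℤ) + p)]
  · simp
  · intro P hP
    rw [if_pos hP]

lemma var_eq (S : Finset (ZMod p × ZMod p)) (m : ℕ) (hm : S.card = p * m) (d : Option (ZMod p)) :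
    ∑ b, ((num S d b : ℤ) - m) ^ 2 = ∑ b, (num S d b : ℤ) ^ 2 - p * m ^ 2 := by
  have : ∀ b, ((num S d b : ℤ) - m) ^ 2 = (num S d b : ℤ) ^ 2 - 2 * m * num S d b + m ^ 2 := by
    intro b; ring
  simp only [this, sum_add_distrib, sum_sub_distrib, ← mul_sum, sum_num, hm]
  simp [ZMod.card]
  ring

lemma total_var (S : Finset (ZMod p × ZMod p)) (m : ℕ) (hm : S.card = p * m) :
    ∑ d, ∑ b, ((num S d b : ℤ) - m) ^ 2 = p * m * (p - m) := by
  simp only [var_eq S m hm, sum_sub_distrib, sum_num_sq, hm]
  simp [ZMod.card]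
  ring

theorem main (k : ℕ) (hk : 4 ≤ k) : ∃ p₀ : ℕ, ∀ (p : ℕ) [Fact p.Prime], p₀ < p →
    ∀ S : Finset (ZMod p × ZMod p), p ∣ S.card →
      (univ.filter (fun d : Option (ZMod p) => ∃ b, num S d b * p ≠ S.card)).card ≠ k := by
  obtain ⟨p₁, hp₁⟩ := weyl k (1 / 100) (by norm_num)
  refine ⟨max p₁ 100, fun p _ hp S hS hT => ?_⟩
  have hp1 : p₁ < p := lt_of_le_of_lt (le_max_left _ _) hp
  have hp2 : 100 < p := lt_of_le_of_lt (le_max_right _ _) hp
  obtain ⟨m, hm⟩ := hS
  set T := univ.filter (fun d : Option (ZMod p) => ∃ b, num S d b * p ≠ S.card) with hTdef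
  have hmemT : ∀ d, d ∈ T ↔ ∃ b, num S d b ≠ m := by
    intro d
    simp only [hTdef, mem_filter, mem_univ, true_and, hm]
    refine exists_congr fun b => ?_
    rw [mul_comm p m]
    simp only [ne_eq, mul_eq_mul_right_iff, not_or]
    constructor
    · exact fun h => h.1
    · exact fun h => ⟨h, by omega⟩
  set V : Option (ZMod p) → ℤ := fun d => ∑ b, ((num S d b : ℤ) - m) ^ 2 with hV
  have V0 : ∀ d, 0 ≤ V d := fun d => sum_nonneg fun b _ => sq_nonneg _
  have Vtot : ∑ d, V d = p * m * (p - m) := total_var S m hm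
  have Vpos : ∀ d ∈ T, 0 < V d := by
    intro d hd
    obtain ⟨b, hb⟩ := (hmemT d).mp hd
    refine sum_pos' (fun b _ => sq_nonneg _) ⟨b, mem_univ _, ?_⟩
    have : (num S d b : ℤ) - m ≠ 0 := by omega
    positivity
  set g : Option (ZMod p) → ZMod p → ZMod p :=
    fun d b => (((num S d b : ℤ) - m : ℤ) : ZMod p) with hg
  have hsum : ∀ P, ∑ d ∈ T, g d (ell d P) = -(m : ZMod p) := by
    intro P
    have h1 : ∑ d ∈ T, g d (ell d P) = ∑ d, g d (ell d P) := by
      refine sum_subset (subset_univ _) fun d _ hd => ?_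
      rw [hmemT] at hd
      push Not at hd
      simp [hg, hd]
    rw [h1]
    simp only [hg]
    rw [← Int.cast_sum, sum_sub_distrib, sum_num_pt, hm]
    split_ifs <;> simp [ZMod.card]
  have hPd := diff_lemma k T hT g _ hsum
  have big : ∀ d ∈ T, (p : ℝ) ^ 3 / 16 < (V d : ℝ) := by
    intro d hd
    by_cases hc : ∀ b, g d b = g d 0
    · exfalso
      have hc2 : ∀ b, (p : ℤ) ∣ (num S d b : ℤ) - num S d 0 := by
        intro b
        rw [← ZMod.intCast_zmod_eq_zero_iff_dvd]
        have := hc b
        simp only [hg] at this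
        push_cast at this ⊢
        linear_combination this
      have hne : ∃ b, num S d b ≠ num S d 0 := by
        by_contra hall
        push Not at hall
        have h1 := sum_num S d
        simp only [hall, sum_const, card_univ, ZMod.card, nsmul_eq_mul, hm] at h1
        obtain ⟨b, hb⟩ := (hmemT d).mp hd
        apply hb
        rw [hall b]
        have h2 : p * num S d 0 = p * m := by exact_mod_cast h1
        exact Nat.eq_of_mul_eq_mul_left (by omega) h2
      obtain ⟨b0, hb0⟩ := hne
      have hdv : ∀ x y : ℕ, x ≤ p → y ≤ p → (p : ℤ) ∣ (x : ℤ) - y → x = y ∨ (x = 0 ∧ y = p) ∨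
          (x = p ∧ y = 0) := by
        intro x y hx hy ⟨c, hc⟩
        have hp0 : (0 : ℤ) < p := by omega
        have c1 : c ≤ 1 := by nlinarith
        have c2 : -1 ≤ c := by nlinarith
        interval_cases c <;> omega
      have h0p : num S d 0 = 0 ∨ num S d 0 = p := by
        rcases hdv _ _ (num_le S d b0) (num_le S d 0) (hc2 b0) with h | h | h
        · exact absurd h hb0
        · exact Or.inr h.2
        · exact Or.inl h.2
      have hall : ∀ b, (num S d b : ℤ) ^ 2 = p * num S d b := by
        intro b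
        rcases hdv _ _ (num_le S d b) (num_le S d 0) (hc2 b) with h | h | h
        · rcases h0p with h' | h' <;> rw [h, h'] <;> ring
        · rw [h.1]; ring
        · rw [h.1]; ring
      have hVd : V d = p * m * (p - m) := by
        simp only [hV]
        rw [var_eq S m hm]
        simp only [hall, ← mul_sum, sum_num, hm]
        push_cast
        ring
      obtain ⟨e, he, hed⟩ : ∃ e ∈ T, e ≠ d := exists_mem_ne (by omega) d
      have h1 : ∑ c ∈ {e, d}, V c ≤ ∑ c, V c :=
        sum_le_sum_of_subset_of_nonneg (subset_univ _) fun c _ _ => V0 c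
      rw [sum_pair hed] at h1
      have := Vpos e he
      omega
    · have := variance_ge (p := p) hp2.le (fun b => (num S d b : ℤ) - m) (by
        intro j hj
        rcases hp₁ p hp1 _ (Pd_mul j k _ (hPd d hd)) with h | h
        · exfalso
          apply hc
          intro b
          exact mul_left_cancel₀ hj (h b)
        · exact h)
      simp only [hV]
      push_cast at this ⊢
      exact this
  have h1 : ∑ c ∈ T, V c ≤ ∑ c, V c :=
    sum_le_sum_of_subset_of_nonneg (subset_univ _) fun c _ _ => V0 c
  have h2 : ∑ c ∈ T, (p : ℝ) ^ 3 / 16 < ∑ c ∈ T, (V c : ℝ) :=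
    sum_lt_sum_of_nonempty (card_pos.mp (by omega)) big
  rw [sum_const, hT, nsmul_eq_mul] at h2
  have h3 : ∑ c ∈ T, (V c : ℝ) ≤ p * m * (p - m) := by
    rw [Vtot] at h1
    exact_mod_cast h1
  have hk' : (4 : ℝ) ≤ k := by exact_mod_cast hk
  have hp0 : (0 : ℝ) < p := by exact_mod_cast (by omega : 0 < p)
  have h4 : (0 : ℝ) < (p : ℝ) ^ 3 := by positivity
  nlinarith [mul_nonneg hp0.le (sq_nonneg ((p : ℝ) - 2 * m))]

end Pool.Agent.H17.SpecialDir
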