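import Pool.Agent.H17.HKS1

set_option autoImplicit false

namespace Pool.Agent.H17.HKS

variable {A B : Type}

def cut (φ : B → List A) (u : ℕ → B) (t : ℕ) : ℕ := ((fac u 0 t).flatMap φ).length

lemma cut_zero (φ : B → List A) (u : ℕ → B) : cut φ u 0 = 0 := rfl

lemma cut_add (φ : B → List A) (u : ℕ → B) (t n : ℕ) :
    cut φ u (t + n) = cut φ u t + ((fac u t n).flatMap φ).length := by
  simp [cut, fac_add]

lemma fac_one (u : ℕ → A) (t : ℕ) : fac u t 1 = [u t] := by simp [fac]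

lemma cut_succ (φ : B → List A) (u : ℕ → B) (t : ℕ) :
    cut φ u (t + 1) = cut φ u t + (φ (u t)).length := by
  rw [cut_add, fac_one]; simp

lemma Pre.fac0 {φ : B → List A} {y : ℕ → B} {u : ℕ → A} (h : Pre φ y u) (t : ℕ) :
    (HKS.fac y 0 t).flatMap φ = HKS.fac u 0 (cut φ y t) := by
  obtain ⟨m, e⟩ := h t
  rw [cut, e, fac_length]

lemma Pre.facc {φ : B → List A} {y : ℕ → B} {u : ℕ → A} (h : Pre φ y u) (t n : ℕ) :
    (HKS.fac y t n).flatMap φ = HKS.fac u (cut φ y t) ((HKS.fac y t n).flatMap φ).length := by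
  have e := h.fac0 (t + n)
  rw [fac_add, List.flatMap_append, h.fac0 t, Nat.zero_add, cut_add, fac_add, Nat.zero_add] at e
  exact List.append_cancel_left e

lemma Pre.one {φ : B → List A} {y : ℕ → B} {u : ℕ → A} (h : Pre φ y u) (t : ℕ) :
    φ (y t) = HKS.fac u (cut φ y t) (φ (y t)).length := by
  have := h.facc t 1
  simpa [fac_one] using this

lemma fac_eq_iff (u v : ℕ → A) (i j n : ℕ) :
    fac u i n = fac v j n ↔ ∀ x, x < n → u (i + x) = v (j + x) := by
  constructor
  · intro h x hx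
    have := fac_get u i n x hx
    rw [h, fac_get _ _ _ _ hx] at this
    exact (Option.some.inj this).symm
  · intro h
    simp only [fac]
    apply List.map_congr_left
    intro x hx
    exact h x (List.mem_range.1 hx)

lemma infix_fac (u : ℕ → A) (i n : ℕ) (w : List A) (h : w <:+: fac u i n) :
    ∃ x, x + w.length ≤ n ∧ w = fac u (i + x) w.length := by
  obtain ⟨s, t, e⟩ := h
  have hl := congrArg List.length e
  simp only [List.length_append, fac_length] at hl
  refine ⟨s.length, by omega, ?_⟩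
  rw [← hl, fac_add, fac_add] at e
  have e1 := List.append_inj_left' e (by simp)
  exact List.append_inj_right e1 (by simp)

lemma fac_infix (u : ℕ → A) (i n x m : ℕ) (h : x + m ≤ n) : fac u (i + x) m <:+: fac u i n := by
  refine ⟨fac u i x, fac u (i + (x + m)) (n - (x + m)), ?_⟩
  rw [← fac_add, ← fac_add]; congr 1; omega

lemma infix_flat (φ : B → List A) {v w : List B} (h : v <:+: w) : v.flatMap φ <:+: w.flatMap φ := by
  obtain ⟨s, t, rfl⟩ := h
  exact ⟨s.flatMap φ, t.flatMap φ, by simp⟩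

lemma len_flat_le (F : B → List A) (N : ℕ) (h : ∀ b, (F b).length ≤ N) (x : List B) :
    (x.flatMap F).length ≤ N * x.length := by
  induction x with
  | nil => simp
  | cons b x ih =>
    simp only [List.flatMap_cons, List.length_append, List.length_cons]
    have := h b
    nlinarith

lemma pw_add (φ : B → List B) (p q : ℕ) (b : B) : pw φ (p + q) b = (pw φ p b).flatMap (pw φ q) := by
  induction q with
  | zero => simp [pw_zero]
  | succ q ih => rw [← Nat.add_assoc, pw_succ, pw_succ]; simp only; rw [ih, List.flatMap_assoc]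

lemma pw_one (φ : B → List B) : pw φ 1 = φ := by
  funext b; simp [pw]

lemma pw_succ' (φ : B → List B) (p : ℕ) (b : B) : pw φ (p + 1) b = (φ b).flatMap (pw φ p) := by
  rw [Nat.add_comm, pw_add, pw_one]

lemma flat_pw (φ : B → List B) (p q : ℕ) (w : List B) :
    w.flatMap (pw φ (p + q)) = (w.flatMap (pw φ p)).flatMap (pw φ q) := by
  rw [List.flatMap_assoc]; congr 1; funext b; exact pw_add φ p q b

lemma pw_pw (φ : B → List B) (p q : ℕ) : pw (pw φ p) q = pw φ (q * p) := by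
  induction q with
  | zero => simp [pw_zero]
  | succ q ih => funext b; rw [pw_succ, ih, Nat.succ_mul, pw_add]

lemma locate (c : ℕ → ℕ) (h0 : c 0 = 0) (h : ∀ t, c t < c (t + 1)) (z : ℕ) :
    ∃ t, c t ≤ z ∧ z < c (t + 1) := by
  induction z with
  | zero => exact ⟨0, by omega, by have := h 0; omega⟩
  | succ z ih =>
    obtain ⟨t, a, b⟩ := ih
    by_cases e : z + 1 < c (t + 1)
    · exact ⟨t, by omega, e⟩
    · exact ⟨t + 1, by omega, by have := h (t + 1); omega⟩

/-- standing assumptions: a fixed point of a morphism whose images contain all letters -/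
structure Sys (φ : A → List A) (u : ℕ → A) (lam : ℕ) : Prop where
  fix : Pre φ u u
  all : ∀ a b, b ∈ φ a
  two : ∀ a, 2 ≤ (φ a).length
  le : ∀ a, (φ a).length ≤ lam

namespace Sys

variable {φ : A → List A} {u : ℕ → A} {lam : ℕ}

lemma lam2 (h : Sys φ u lam) : 2 ≤ lam := (h.two (u 0)).trans (h.le _)

lemma pow_le (h : Sys φ u lam) (k : ℕ) (b : A) : 2 ^ k ≤ (pw φ k b).length := by
  induction k with
  | zero => simp [pw_zero]
  | succ k ih =>
    rw [pw_succ]
    have := len_flat φ 2 h.two (pw φ k b)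
    show 2 ^ (k + 1) ≤ ((pw φ k b).flatMap φ).length
    rw [pow_succ]; omega

lemma lt_len (h : Sys φ u lam) (k : ℕ) (b : A) : k < (pw φ k b).length :=
  Nat.lt_two_pow_self.trans_le (h.pow_le k b)

lemma up (h : Sys φ u lam) (k j : ℕ) (b : A) : (pw φ (k + j) b).length ≤ lam ^ j * (pw φ k b).length := by
  induction j with
  | zero => simp
  | succ j ih =>
    rw [← Nat.add_assoc, pw_succ]
    have := len_flat_le φ lam h.le (pw φ (k + j) b)
    show ((pw φ (k + j) b).flatMap φ).length ≤ _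
    rw [pow_succ]
    calc _ ≤ lam * (pw φ (k + j) b).length := this
      _ ≤ lam * (lam ^ j * (pw φ k b).length) := Nat.mul_le_mul_left _ ih
      _ = _ := by ring

lemma inf1 (h : Sys φ u lam) (k : ℕ) (a b : A) : pw φ k b <:+: pw φ (k + 1) a := by
  rw [pw_succ']
  obtain ⟨s, t, e⟩ := List.append_of_mem (h.all a b)
  exact ⟨s.flatMap (pw φ k), t.flatMap (pw φ k), by rw [e]; simp⟩

lemma cmp (h : Sys φ u lam) (k : ℕ) (a b : A) : (pw φ k b).length ≤ lam * (pw φ k a).length := by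
  cases k with
  | zero => have := h.lam2; simp [pw_zero]; omega
  | succ k =>
    have a1 := h.up k 1 b
    have a2 := (h.inf1 k a b).length_le
    rw [pow_one] at a1
    exact a1.trans (Nat.mul_le_mul_left _ a2)

lemma scale (h : Sys φ u lam) (d : ℕ) (hd : 1 ≤ d) :
    ∃ k, (∀ b, d ≤ (pw φ k b).length) ∧ ∀ b, (pw φ k b).length ≤ lam ^ 2 * d := by
  classical
  have ex : ∃ k, ∀ b, d ≤ (pw φ k b).length := ⟨d, fun b => (h.lt_len d b).le⟩
  refine ⟨Nat.find ex, Nat.find_spec ex, fun b => ?_⟩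
  have hl := h.lam2
  rcases e : Nat.find ex with _ | k
  · simp only [pw_zero, List.length_singleton]
    exact Nat.mul_pos (by positivity) hd
  · have := Nat.find_min ex (m := k) (by omega)
    push Not at this
    obtain ⟨b0, hb⟩ := this
    have a1 := h.up k 1 b
    have a2 := h.cmp k b0 b
    rw [pow_one] at a1
    calc _ ≤ lam * (pw φ k b).length := a1
      _ ≤ lam * (lam * (pw φ k b0).length) := Nat.mul_le_mul_left _ a2
      _ ≤ lam * (lam * d) := Nat.mul_le_mul_left _ (Nat.mul_le_mul_left _ hb.le)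
      _ = _ := by ring

lemma c_lt (h : Sys φ u lam) (k t : ℕ) : cut (pw φ k) u t < cut (pw φ k) u (t + 1) := by
  rw [cut_succ]; have := h.lt_len k (u t); omega

lemma c_mono (h : Sys φ u lam) (k : ℕ) : StrictMono (cut (pw φ k) u) :=
  strictMono_nat_of_lt_succ (h.c_lt k)

lemma loc (h : Sys φ u lam) (k z : ℕ) : ∃ t, cut (pw φ k) u t ≤ z ∧ z < cut (pw φ k) u (t + 1) :=
  locate _ rfl (h.c_lt k) z

lemma c_add (h : Sys φ u lam) (p q t : ℕ) :
    cut (pw φ (p + q)) u t = cut (pw φ q) u (cut (pw φ p) u t) := by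
  rw [cut, flat_pw, (h.fix.pw p).fac0]; rfl

lemma window (h : Sys φ u lam) (k M i n : ℕ) (hM : ∀ b, (pw φ k b).length ≤ M) (hn : 2 * M ≤ n) :
    ∃ c, pw φ k c <:+: fac u i n := by
  obtain ⟨t, a1, a2⟩ := h.loc k i
  have b1 := cut_succ (pw φ k) u t
  have b2 := hM (u t)
  have b3 := hM (u (t + 1))
  refine ⟨u (t + 1), ?_⟩
  rw [(h.fix.pw k).one (t + 1), show cut (pw φ k) u (t + 1) = i + (cut (pw φ k) u (t + 1) - i) by omega]
  exact fac_infix _ _ _ _ _ (by omega)

lemma inpair (h : Sys φ u lam) (k i n : ℕ) (hn : ∀ b, n ≤ (pw φ k b).length + 1) :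
    ∃ t x, x < (pw φ k (u t)).length ∧ x + n ≤ ((fac u t 2).flatMap (pw φ k)).length ∧
      i = cut (pw φ k) u t + x := by
  obtain ⟨t, a1, a2⟩ := h.loc k i
  have b1 := cut_succ (pw φ k) u t
  have b2 := cut_succ (pw φ k) u (t + 1)
  have b3 := cut_add (pw φ k) u t 2
  have b4 := hn (u (t + 1))
  rw [show t + 2 = t + 1 + 1 by ring] at b3
  exact ⟨t, i - cut (pw φ k) u t, by omega, by omega, by omega⟩

lemma ur [Fintype A] (h : Sys φ u lam) : ∃ j, ∀ k c i n, (∀ b, n ≤ (pw φ k b).length + 1) →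
    fac u i n <:+: pw φ (k + j) c := by
  classical
  obtain ⟨T, hT⟩ : ∃ T, ∀ t, ∃ t', t' < T ∧ fac u t' 2 = fac u t 2 := by
    have : ∀ p : A × A, ∃ t', ∀ t, fac u t 2 = [p.1, p.2] → fac u t' 2 = fac u t 2 := by
      intro p
      by_cases e : ∃ t, fac u t 2 = [p.1, p.2]
      · obtain ⟨t', e⟩ := e
        exact ⟨t', fun t ht => by rw [e, ht]⟩
      · exact ⟨0, fun t ht => absurd ⟨t, ht⟩ e⟩
    choose f hf using this
    refine ⟨Finset.univ.sup f + 1, fun t => ⟨f (u t, u (t + 1)), ?_, hf _ _ (by simp [fac, List.range_succ])⟩⟩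
    exact Nat.lt_succ_of_le (Finset.le_sup (f := f) (Finset.mem_univ _))
  refine ⟨T + 1 + 1, fun k c i n hn => ?_⟩
  obtain ⟨t, x, -, a2, rfl⟩ := h.inpair k i n hn
  obtain ⟨t', b1, b2⟩ := hT t
  have c1 : fac u (cut (pw φ k) u t + x) n <:+: (fac u t 2).flatMap (pw φ k) := by
    rw [(h.fix.pw k).facc]; exact fac_infix _ _ _ _ _ a2
  have c2 : fac u t' 2 <:+: pw φ (T + 1) (u 0) := by
    rw [(h.fix.pw (T + 1)).one 0, cut_zero]
    have := h.lt_len (T + 1) (u 0)
    have := fac_infix u 0 (pw φ (T + 1) (u 0)).length t' 2 (by omega)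
    rwa [Nat.zero_add] at this
  rw [Nat.add_comm k, pw_add]
  exact c1.trans (b2 ▸ infix_flat _ (c2.trans (h.inf1 _ _ _)))

/-- uniform recurrence -/
lemma urec [Fintype A] (h : Sys φ u lam) : ∃ N, ∀ d, 1 ≤ d → ∀ y i, fac u y (d + 1) <:+: fac u i (N * d) := by
  obtain ⟨j, hj⟩ := h.ur
  refine ⟨2 * (lam ^ j * lam ^ 2), fun d hd y i => ?_⟩
  obtain ⟨k, a1, a2⟩ := h.scale d hd
  obtain ⟨c, hc⟩ := h.window (k + j) (lam ^ j * (lam ^ 2 * d)) i (2 * (lam ^ j * lam ^ 2) * d)
    (fun b => (h.up k j b).trans (Nat.mul_le_mul_left _ (a2 b))) (le_of_eq (by ring))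
  exact (hj k c y (d + 1) (fun b => by have := a1 b; omega)).trans hc

/-- bounded powers -/
lemma bp [Fintype A] (h : Sys φ u lam) (hap : ¬ ∃ d, 1 ≤ d ∧ ∀ i, u (i + d) = u i) :
    ∃ N, ∀ d, 1 ≤ d → ∀ i, ¬ ∀ x, x < N * d → u (i + x + d) = u (i + x) := by
  obtain ⟨N, hN⟩ := h.urec
  refine ⟨N, fun d hd i hi => hap ⟨d, hd, fun y => ?_⟩⟩
  obtain ⟨x, a1, a2⟩ := infix_fac _ _ _ _ (hN d hd y i)
  rw [fac_length] at a1 a2
  rw [fac_eq_iff] at a2
  have b1 := a2 0 (by omega)
  have b2 := a2 d (by omega)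
  rw [b2, hi x (by omega)]
  exact b1.symm

end Sys

end Pool.Agent.H17.HKS
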