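import Pool.Agent.H17.Sub1

set_option autoImplicit false

namespace Pool.Agent.H17.HKS

variable {A : Type}

namespace Sys

variable {φ : A → List A} {u : ℕ → A} {lam : ℕ}

lemma low (h : Sys φ u lam) (q t k : ℕ) :
    cut (pw φ q) u t + k * (pw φ q (u 0)).length ≤
      cut (pw φ q) u t + lam * ((fac u t k).flatMap (pw φ q)).length := by
  have : ∀ w : List A, w.length * (pw φ q (u 0)).length ≤ lam * (w.flatMap (pw φ q)).length := by
    intro w
    induction w with
    | nil => simp
    | cons b w ih =>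
      simp only [List.flatMap_cons, List.length_append, List.length_cons]
      have := h.cmp q b (u 0)
      nlinarith
  have := this (fac u t k)
  rw [fac_length] at this
  omega

/-- the data extracted from two equal windows around cutting points -/
lemma data (h : Sys φ u lam) (n C p i j M : ℕ) (hM : M = lam * (pw φ (p + 1) (u 0)).length)
    (hC : n * lam + 1 ≤ C) (hn : n ≤ i) (hi : C * M ≤ cut φ u i) (hj : C * M ≤ cut φ u j)
    (e : ∀ t, t < 2 * (C * M) → u (cut φ u i - C * M + t) = u (cut φ u j - C * M + t)) :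
    ∃ a k a' k' al, k ≤ (2 * C + 2) * (lam * lam) ∧ k' ≤ (2 * C + 2) * (lam * lam) ∧
      cut (pw φ (p + 1)) u a' ≤ al ∧
      al + ((fac u a k).flatMap (pw φ (p + 1))).length ≤ cut (pw φ (p + 1)) u (a' + k') ∧
      cut (pw φ (p + 1)) u (a' + k') ≤
        cut (pw φ (p + 1)) u a' + ((fac u a k).flatMap (pw φ (p + 1))).length + 2 * M ∧
      2 * (C * M) ≤ ((fac u a k).flatMap (pw φ (p + 1))).length + 2 * M ∧
      (fac u a k).flatMap (pw φ (p + 1)) = fac u al ((fac u a k).flatMap (pw φ (p + 1))).length ∧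
      al + cut φ u i = cut φ u j + cut (pw φ (p + 1)) u a ∧
      cut (pw φ p) u a + n ≤ i ∧ i + n ≤ cut (pw φ p) u (a + k) := by
  have hb : ∀ b, (pw φ (p + 1) b).length ≤ M := fun b => by rw [hM]; exact h.cmp _ _ _
  have hl := h.lam2
  have hμ := h.lt_len (p + 1) (u 0)
  have hM1 : 1 ≤ M := by rw [hM]; exact Nat.mul_pos (by omega) (by omega)
  have hCM : n * lam + M ≤ C * M := by
    have : (n * lam + 1) * M ≤ C * M := Nat.mul_le_mul_right _ hC
    have : n * lam * 1 ≤ n * lam * M := Nat.mul_le_mul_left _ hM1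
    nlinarith
  have bound : ∀ t k, ((fac u t k).flatMap (pw φ (p + 1))).length ≤ 2 * (C * M) + 2 * M →
      k ≤ (2 * C + 2) * (lam * lam) := by
    intro t k hk
    have a1 := h.low (p + 1) t k
    have a2 : k * (pw φ (p + 1) (u 0)).length ≤
        (2 * C + 2) * (lam * lam) * (pw φ (p + 1) (u 0)).length := by
      calc _ ≤ lam * ((fac u t k).flatMap (pw φ (p + 1))).length := by omega
        _ ≤ lam * (2 * (C * M) + 2 * M) := Nat.mul_le_mul_left _ hk
        _ = _ := by rw [hM]; ring
    exact Nat.le_of_mul_le_mul_right a2 (by omega)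
  generalize hR : C * M = R at *
  obtain ⟨a0, a1, a2⟩ := h.loc (p + 1) (cut φ u i - R)
  obtain ⟨b, b1, b2⟩ := h.loc (p + 1) (cut φ u i + R)
  have a3 := cut_succ (pw φ (p + 1)) u a0
  have a4 := hb (u a0)
  have b3 := cut_succ (pw φ (p + 1)) u b
  have b4 := hb (u b)
  have hab : a0 + 1 ≤ b := by
    by_contra hc
    have := (h.c_mono (p + 1)).monotone (show b + 1 ≤ a0 + 1 by omega)
    omega
  obtain ⟨k, rfl⟩ := Nat.exists_eq_add_of_le hab
  have c1 := cut_add (pw φ (p + 1)) u (a0 + 1) k
  obtain ⟨a', d1, d2⟩ := h.loc (p + 1) (cut φ u j + cut (pw φ (p + 1)) u (a0 + 1) - cut φ u i)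
  obtain ⟨b', f1, f2⟩ := h.loc (p + 1) (cut φ u j + cut (pw φ (p + 1)) u (a0 + 1 + k) - cut φ u i)
  have d3 := cut_succ (pw φ (p + 1)) u a'
  have d4 := hb (u a')
  have f3 := cut_succ (pw φ (p + 1)) u b'
  have f4 := hb (u b')
  have hab' : a' ≤ b' + 1 := by
    by_contra hc
    have := (h.c_mono (p + 1)).monotone (show b' + 1 ≤ a' by omega)
    omega
  obtain ⟨k', hk'⟩ := Nat.exists_eq_add_of_le hab'
  have c2 := cut_add (pw φ (p + 1)) u a' k'
  rw [← hk'] at c2
  have g1 := h.c_add p 1 (a0 + 1)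
  have g2 := h.c_add p 1 (a0 + 1 + k)
  have mono := h.c_mono 1
  rw [pw_one] at g1 g2 mono
  have g3 := cut_add φ u (i - n) n
  have g4 := cut_add φ u i n
  have g5 := len_flat_le φ lam h.le (fac u (i - n) n)
  have g6 := len_flat_le φ lam h.le (fac u i n)
  rw [fac_length, Nat.mul_comm] at g5 g6
  rw [show i - n + n = i by omega] at g3
  refine ⟨a0 + 1, k, a', k', cut φ u j + cut (pw φ (p + 1)) u (a0 + 1) - cut φ u i,
    bound (a0 + 1) _ (by omega), bound a' _ (by omega), by omega, by rw [← hk']; omega, by rw [← hk']; omega,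
    by omega, ?_, by omega, ?_, ?_⟩
  · rw [(h.fix.pw (p + 1)).facc, fac_length, fac_eq_iff]
    intro x hx
    have := e (cut (pw φ (p + 1)) u (a0 + 1) + x - (cut φ u i - R)) (by omega)
    convert this using 2 <;> omega
  · have := mono.le_iff_le.1 (show cut φ u (cut (pw φ p) u (a0 + 1)) ≤ cut φ u (i - n) by omega)
    omega
  · exact mono.le_iff_le.1 (by omega)

/-- recognizability (theorem of Mosse), pointed form -/
theorem mosse [Fintype A] (h : Sys φ u lam) (hap : ¬ ∃ d, 1 ≤ d ∧ ∀ i, u (i + d) = u i) (n : ℕ) :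
    ∃ R, ∀ i j, n ≤ i → n ≤ j → R ≤ cut φ u i → R ≤ cut φ u j →
      (∀ t, t < 2 * R → u (cut φ u i - R + t) = u (cut φ u j - R + t)) →
      ∀ t, t < 2 * n → u (i - n + t) = u (j - n + t) := by
  obtain ⟨N, hN⟩ := h.bp hap
  by_contra hc
  push Not at hc
  obtain ⟨C, hC⟩ : ∃ C, C = n * lam + 1 + N := ⟨_, rfl⟩
  choose i j h1 h2 h3 h4 h5 t h6 h7 using fun p => hc (C * (lam * (pw φ (p + 1) (u 0)).length))
  choose a k a' k' al b1 b2 b3 b4 b5 b6 b7 b8 b9 b10 using fun p =>
    h.data n C p (i p) (j p) _ rfl (by omega) (h1 p) (h3 p) (h4 p) (h5 p)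
  have fin : {x : List A × List A | x.1.length ≤ (2 * C + 2) * (lam * lam) ∧
      x.2.length ≤ (2 * C + 2) * (lam * lam)}.Finite :=
    (List.finite_length_le A _).prod (List.finite_length_le A _)
  obtain ⟨p, q, hpq, e⟩ := Set.Finite.exists_lt_map_eq_of_forall_mem
    (f := fun p => (fac u (a p) (k p), fac u (a' p) (k' p)))
    (fun p => And.intro (by simpa using b1 p) (by simpa using b2 p)) fin
  obtain ⟨δ, rfl⟩ : ∃ δ, q = p + 1 + δ := ⟨q - (p + 1), by omega⟩
  obtain ⟨e1, e2⟩ := Prod.mk.inj e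
  have s1 : (fac u (a' p) (k' p)).flatMap (pw φ (p + 1)) =
      fac u (cut (pw φ (p + 1)) u (a' p)) (al p - cut (pw φ (p + 1)) u (a' p)) ++
        (fac u (a p) (k p)).flatMap (pw φ (p + 1)) ++
        fac u (al p + ((fac u (a p) (k p)).flatMap (pw φ (p + 1))).length)
          (cut (pw φ (p + 1)) u (a' p + k' p) -
            (al p + ((fac u (a p) (k p)).flatMap (pw φ (p + 1))).length)) := by
    have c1 := cut_add (pw φ (p + 1)) u (a' p) (k' p)
    have c2 := b3 p
    have c3 := b4 p
    rw [(h.fix.pw (p + 1)).facc]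
    conv_rhs => rw [b7 p]
    simp only [fac_length]
    generalize ((fac u (a p) (k p)).flatMap (pw φ (p + 1))).length = L at *
    have x1 := fac_add u (cut (pw φ (p + 1)) u (a' p)) (al p - cut (pw φ (p + 1)) u (a' p)) L
    have x2 := fac_add u (cut (pw φ (p + 1)) u (a' p)) (al p - cut (pw φ (p + 1)) u (a' p) + L)
      (cut (pw φ (p + 1)) u (a' p + k' p) - (al p + L))
    rw [show cut (pw φ (p + 1)) u (a' p) + (al p - cut (pw φ (p + 1)) u (a' p)) = al p by omega] at x1
    rw [show cut (pw φ (p + 1)) u (a' p) + (al p - cut (pw φ (p + 1)) u (a' p) + L) = al p + L by omega,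
      x1] at x2
    rw [← x2]; congr 1; omega
  generalize fac u (cut (pw φ (p + 1)) u (a' p)) (al p - cut (pw φ (p + 1)) u (a' p)) = g at s1
  generalize fac u (al p + _) _ = g' at s1
  have s2 := congrArg (List.flatMap (pw φ δ)) s1
  rw [List.flatMap_append, List.flatMap_append, ← flat_pw, ← flat_pw, e1, e2] at s2
  generalize p + 1 + δ = q at *
  have c1 := cut_add (pw φ q) u (a' q) (k' q)
  have c2 := cut_add (pw φ q) u (a q) (k q)
  have c3 := cut_add (pw φ (q + 1)) u (a q) (k q)
  have hl := congrArg List.length s2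
  simp only [List.length_append] at hl
  have s3 : fac u (cut (pw φ q) u (a' q) + (g.flatMap (pw φ δ)).length)
      ((fac u (a q) (k q)).flatMap (pw φ q)).length =
      fac u (cut (pw φ q) u (a q)) ((fac u (a q) (k q)).flatMap (pw φ q)).length := by
    rw [← (h.fix.pw q).facc]
    rw [(h.fix.pw q).facc, hl, fac_add, fac_add] at s2
    exact List.append_inj_right (List.append_inj_left' s2 (by simp)) (by simp)
  generalize hE : cut (pw φ q) u (a' q) + (g.flatMap (pw φ δ)).length = E at *
  have mono := h.c_mono 1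
  have g1 := h.c_add q 1 (a q)
  have g2 := h.c_add q 1 (a' q)
  have g3 := h.c_add q 1 (a' q + k' q)
  have g4 := flat_pw φ q 1 (fac u (a q) (k q))
  rw [pw_one] at mono g1 g2 g3 g4
  have s4 : (fac u (a q) (k q)).flatMap (pw φ (q + 1)) =
      fac u (cut φ u E) ((fac u (a q) (k q)).flatMap (pw φ (q + 1))).length := by
    rw [g4, (h.fix.pw q).facc, ← s3]; exact h.fix.facc _ _
  have g5 := cut_add φ u E ((fac u (a q) (k q)).flatMap (pw φ q)).length
  rw [s3, ← (h.fix.pw q).facc, ← g4] at g5
  have g6 := mono.monotone (show cut (pw φ q) u (a' q) ≤ E by omega)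
  have g7 := mono.monotone (show E + ((fac u (a q) (k q)).flatMap (pw φ q)).length ≤
    cut (pw φ q) u (a' q + k' q) by omega)
  have d3 := b3 q
  have d4 := b4 q
  have d5 := b5 q
  have d6 := b6 q
  have s5 := (fac_eq_iff _ _ _ _ _).1 (s4.symm.trans (b7 q))
  generalize ((fac u (a q) (k q)).flatMap (pw φ (q + 1))).length = L at *
  generalize lam * (pw φ (q + 1) (u 0)).length = M at *
  have hNM : ∀ d, d ≤ 2 * M → N * d ≤ L := by
    intro d hd
    have : N * d ≤ N * (2 * M) := Nat.mul_le_mul_left _ hd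
    have : C * M = n * lam * M + M + N * M := by rw [hC]; ring
    have : N * (2 * M) = 2 * (N * M) := by ring
    omega
  have hEq : cut φ u E = al q := by
    rcases lt_trichotomy (cut φ u E) (al q) with c | c | c
    · exfalso
      refine hN (al q - cut φ u E) (by omega) (cut φ u E) (fun x hx => ?_)
      rw [s5 x (by have := hNM (al q - cut φ u E) (by omega); omega)]
      congr 1; omega
    · exact c
    · exfalso
      refine hN (cut φ u E - al q) (by omega) (al q) (fun x hx => ?_)
      rw [← s5 x (by have := hNM (cut φ u E - al q) (by omega); omega)]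
      congr 1; omega
  have d8 := b8 q
  have d9 := b9 q
  have d10 := b10 q
  have s6 := (fac_eq_iff _ _ _ _ _).1 s3
  have s7 : fac u E (i q - cut (pw φ q) u (a q)) =
      fac u (cut (pw φ q) u (a q)) (i q - cut (pw φ q) u (a q)) :=
    (fac_eq_iff _ _ _ _ _).2 (fun x hx => s6 x (by omega))
  have g8 := cut_add φ u E (i q - cut (pw φ q) u (a q))
  have g9 := cut_add φ u (cut (pw φ q) u (a q)) (i q - cut (pw φ q) u (a q))
  rw [← s7, show cut (pw φ q) u (a q) + (i q - cut (pw φ q) u (a q)) = i q by omega] at g9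
  have hj : j q = E + (i q - cut (pw φ q) u (a q)) := mono.injective (by omega)
  apply h7 q
  have d11 := h6 q
  have := s6 (i q - n + t q - cut (pw φ q) u (a q)) (by omega)
  convert this.symm using 2 <;> omega

end Sys

end Pool.Agent.H17.HKS
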