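import Pool.Agent.H17.Sub2

set_option autoImplicit false

namespace Pool.Agent.H17.HKS

variable {A : Type}

def RevCl (u : ℕ → A) : Prop := ∀ i n, ∃ i', ∀ x, x < n → u (i' + x) = u (i + (n - 1 - x))

/-- the two-sided word with left half l (read leftwards) and right half r lies in the hull of u -/
def XX (u l r : ℕ → A) : Prop :=
  ∀ m, ∃ z, m ≤ z ∧ (∀ x, x < m → u (z + x) = r x) ∧ ∀ x, x < m → u (z - 1 - x) = l x

lemma XX.symm {u l r : ℕ → A} (hr : RevCl u) (h : XX u l r) : XX u r l := by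
  intro m
  obtain ⟨z, a1, a2, a3⟩ := h m
  obtain ⟨i', e⟩ := hr (z - m) (2 * m)
  refine ⟨i' + m, by omega, fun x hx => ?_, fun x hx => ?_⟩
  · rw [Nat.add_assoc, e _ (by omega), ← a3 x hx]; congr 1; omega
  · rw [show i' + m - 1 - x = i' + (m - 1 - x) by omega, e _ (by omega), ← a2 x hx]; congr 1; omega

def sh (r : ℕ → A) (i : ℕ) : ℕ → A := fun n => r (n + i)

def mv (l r : ℕ → A) (i : ℕ) : ℕ → A := fun n => if n < i then r (i - 1 - n) else l (n - i)

lemma XX.move {u l r : ℕ → A} (h : XX u l r) (i : ℕ) : XX u (mv l r i) (sh r i) := by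
  intro m
  obtain ⟨z, a1, a2, a3⟩ := h (m + i)
  refine ⟨z + i, by omega, fun x hx => ?_, fun x hx => ?_⟩
  · rw [sh, ← a2 _ (by omega)]; congr 1; omega
  · rw [mv]
    split_ifs with c
    · rw [← a2 _ (by omega)]; congr 1; omega
    · rw [← a3 _ (by omega)]; congr 1; omega

def img (φ : A → List A) (r : ℕ → A) : ℕ → A :=
  fun i => ((fac r 0 (i + 1)).flatMap φ).getD i (r 0)

lemma pre_img (φ : A → List A) (h : ∀ a, 1 ≤ (φ a).length) (r : ℕ → A) : Pre φ r (img φ r) := by
  intro n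
  refine ⟨((fac r 0 n).flatMap φ).length, ?_⟩
  apply List.ext_getElem?
  intro i
  by_cases hi : i < ((fac r 0 n).flatMap φ).length
  · rw [fac_get _ _ _ _ hi, Nat.zero_add, img]
    have a1 := len_flat φ 1 h (fac r 0 (i + 1))
    rw [fac_length] at a1
    rw [List.getD_eq_getElem?_getD]
    have a2 : ((fac r 0 (i + 1)).flatMap φ)[i]? = ((fac r 0 n).flatMap φ)[i]? := by
      have b1 := fac_add r 0 (i + 1) n
      have b2 := fac_add r 0 n (i + 1)
      rw [Nat.add_comm n, b1] at b2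
      have b3 := congrArg (fun w => (List.flatMap φ w)[i]?) b2
      simp only [List.flatMap_append] at b3
      rwa [List.getElem?_append_left (by omega), List.getElem?_append_left hi] at b3
    rw [a2, List.getElem?_eq_getElem hi]; rfl
  · rw [List.getElem?_eq_none (by omega), List.getElem?_eq_none (by simp only [fac_length]; omega)]

def mir (φ : A → List A) : A → List A := fun a => (φ a).reverse

lemma flat_mir (φ : A → List A) (w : List A) : w.flatMap (mir φ) = (w.reverse.flatMap φ).reverse := by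
  induction w with
  | nil => rfl
  | cons a w ih => simp [ih, mir]

lemma pw_mir (φ : A → List A) (k : ℕ) (a : A) : pw (mir φ) k a = (pw φ k a).reverse := by
  induction k with
  | zero => simp [pw_zero]
  | succ k ih => rw [pw_succ, pw_succ]; simp only; rw [ih, flat_mir, List.reverse_reverse]

lemma pre_iter (φ : A → List A) (h : ∀ a, 1 ≤ (φ a).length) (r : ℕ → A) (k : ℕ) :
    Pre (pw φ k) r ((img φ)^[k] r) := by
  induction k with
  | zero => intro n; exact ⟨n, by simp [pw_zero]⟩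
  | succ k ih => rw [pw_succ, Function.iterate_succ_apply']; exact (pre_img φ h _).comp ih

lemma img_agree (φ : A → List A) (h : ∀ a, 2 ≤ (φ a).length) (r r' : ℕ → A) (i : ℕ)
    (e : ∀ x, x < i → r x = r' x) : ∀ x, x < 2 * i → img φ r x = img φ r' x := by
  have h1 : ∀ a, 1 ≤ (φ a).length := fun a => by have := h a; omega
  have a1 := (pre_img φ h1 r).facc 0 i
  have a2 := (pre_img φ h1 r').facc 0 i
  have a3 : fac r 0 i = fac r' 0 i := (fac_eq_iff _ _ _ _ _).2 (fun x hx => by simpa using e x hx)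
  have a4 := len_flat φ 2 h (fac r 0 i)
  rw [fac_length] at a4
  rw [← a3, cut_zero] at a2
  rw [cut_zero] at a1
  intro x hx
  simpa using (fac_eq_iff _ _ _ _ _).1 (a1.symm.trans a2) x (by omega)

def LL (u : ℕ → A) : Set (ℕ → A) := {r | ∃ l l', XX u l r ∧ XX u l' r ∧ l 0 ≠ l' 0}

namespace Sys

variable {φ : A → List A} {u : ℕ → A} {lam : ℕ}

lemma one (h : Sys φ u lam) (a : A) : 1 ≤ (φ a).length := by have := h.two a; omega

lemma mone (h : Sys φ u lam) (a : A) : 1 ≤ (mir φ a).length := by simpa [mir] using h.one a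

lemma mtwo (h : Sys φ u lam) (a : A) : 2 ≤ (mir φ a).length := by simpa [mir] using h.two a

lemma lift (h : Sys φ u lam) (l r : ℕ → A) (m z : ℕ) (a1 : m ≤ z) (a2 : ∀ x, x < m → u (z + x) = r x)
    (a3 : ∀ x, x < m → u (z - 1 - x) = l x) : m ≤ cut φ u z ∧
      (∀ x, x < m → u (cut φ u z + x) = img φ r x) ∧
      ∀ x, x < m → u (cut φ u z - 1 - x) = img (mir φ) l x := by
  have b1 := len_flat φ 1 h.one (fac u z m)
  have b2 := len_flat φ 1 h.one (fac u (z - m) m)
  have b3 := cut_add φ u (z - m) m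
  rw [fac_length] at b1 b2
  rw [show z - m + m = z by omega] at b3
  refine ⟨by omega, fun x hx => ?_, fun x hx => ?_⟩
  · have c1 := h.fix.facc z m
    have c2 := (pre_img φ h.one r).facc 0 m
    have c3 : fac r 0 m = fac u z m :=
      (fac_eq_iff _ _ _ _ _).2 (fun x hx => by rw [a2 x hx, Nat.zero_add])
    rw [c3, cut_zero] at c2
    simpa using (fac_eq_iff _ _ _ _ _).1 (c1.symm.trans c2) x (by omega)
  · have c1 := h.fix.facc (z - m) m
    have c2 := (pre_img (mir φ) h.mone l).facc 0 m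
    have c3 : (fac l 0 m).reverse = fac u (z - m) m := by
      apply List.ext_getElem?
      intro j
      by_cases hj : j < m
      · rw [List.getElem?_reverse (by simpa using hj), fac_length, fac_get _ _ _ _ (by omega),
          fac_get _ _ _ _ hj, Nat.zero_add, ← a3 _ (by omega)]
        congr 2; omega
      · rw [List.getElem?_eq_none (by simp; omega), List.getElem?_eq_none (by simp; omega)]
    rw [flat_mir, c3, cut_zero, List.length_reverse] at c2
    generalize ((fac u (z - m) m).flatMap φ).length = L at *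
    rw [c1] at c2
    have c4 := fac_get (img (mir φ) l) 0 L x (by omega)
    rw [← c2, List.getElem?_reverse (by simp; omega), fac_length, fac_get _ _ _ _ (by omega),
      Nat.zero_add] at c4
    rw [← Option.some.inj c4]; congr 1; omega

lemma ximg (h : Sys φ u lam) {l r : ℕ → A} (hx : XX u l r) : XX u (img (mir φ) l) (img φ r) := by
  intro m
  obtain ⟨z, a1, a2, a3⟩ := hx m
  exact ⟨_, h.lift l r m z a1 a2 a3⟩

lemma inj [Fintype A] (h : Sys φ u lam) (hap : ¬ ∃ d, 1 ≤ d ∧ ∀ i, u (i + d) = u i)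
    {l r l' r' : ℕ → A} (hx : XX u l r) (hx' : XX u l' r') (e1 : img (mir φ) l = img (mir φ) l')
    (e2 : img φ r = img φ r') : l = l' ∧ r = r' := by
  have key : ∀ n, l n = l' n ∧ r n = r' n := by
    intro n
    obtain ⟨R, hR⟩ := h.mosse hap (n + 1)
    obtain ⟨z, a1, a2, a3⟩ := hx (R + n + 1)
    obtain ⟨z', b1, b2, b3⟩ := hx' (R + n + 1)
    obtain ⟨c1, c2, c3⟩ := h.lift l r _ z a1 a2 a3
    obtain ⟨d1, d2, d3⟩ := h.lift l' r' _ z' b1 b2 b3
    have := hR z z' (by omega) (by omega) (by omega) (by omega) (fun t ht => by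
      by_cases c : t < R
      · have f1 := c3 (R - 1 - t) (by omega)
        have f2 := d3 (R - 1 - t) (by omega)
        rw [← e1, ← f1] at f2
        convert f2.symm using 2 <;> omega
      · have f1 := c2 (t - R) (by omega)
        have f2 := d2 (t - R) (by omega)
        rw [← e2, ← f1] at f2
        convert f2.symm using 2 <;> omega)
    constructor
    · rw [← a3 n (by omega), ← b3 n (by omega)]
      convert this 0 (by omega) using 2 <;> omega
    · rw [← a2 n (by omega), ← b2 n (by omega)]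
      convert this (2 * n + 1) (by omega) using 2 <;> omega
  exact ⟨funext fun n => (key n).1, funext fun n => (key n).2⟩

lemma aper [Fintype A] (h : Sys φ u lam) (hap : ¬ ∃ d, 1 ≤ d ∧ ∀ i, u (i + d) = u i)
    {l r : ℕ → A} (hx : XX u l r) (d : ℕ) (hd : 1 ≤ d) : ¬ ∀ y, r (y + d) = r y := by
  obtain ⟨N, hN⟩ := h.bp hap
  intro e
  obtain ⟨z, -, a2, -⟩ := hx (N * d + d)
  refine hN d hd z (fun x hx => ?_)
  rw [Nat.add_assoc, a2 _ (by omega), a2 _ (by omega), e]

lemma cx_le [Fintype A] (h : Sys φ u lam) : ∃ K, ∀ n, 1 ≤ n →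
    {w | ∃ i, w = fac u i n}.ncard ≤ K * n := by
  classical
  refine ⟨Fintype.card A * Fintype.card A * lam ^ 2, fun n hn => ?_⟩
  obtain ⟨k, a1, a2⟩ := h.scale n hn
  have sub : {w | ∃ i, w = fac u i n} ⊆
      ↑(((Finset.univ ×ˢ Finset.univ) ×ˢ Finset.range (lam ^ 2 * n)).image
        (fun p : (A × A) × ℕ => (([p.1.1, p.1.2].flatMap (pw φ k)).drop p.2).take n)) := by
    rintro w ⟨i, rfl⟩
    obtain ⟨t, x, b1, b2, rfl⟩ := h.inpair k i n (fun b => by have := a1 b; omega)
    simp only [Finset.coe_image, Set.mem_image]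
    refine ⟨((u t, u (t + 1)), x), by simpa using b1.trans_le (a2 _), ?_⟩
    have e : fac u t 2 = [u t, u (t + 1)] := by simp [fac, List.range_succ]
    simp only
    rw [← e, (h.fix.pw k).facc]
    obtain ⟨y, hy⟩ := Nat.exists_eq_add_of_le b2
    rw [hy, Nat.add_assoc, fac_add, List.drop_left' (by simp), fac_add, List.take_left' (by simp)]
  refine (Set.ncard_le_ncard sub (Finset.finite_toSet _)).trans ?_
  rw [Set.ncard_coe_finset]
  refine Finset.card_image_le.trans (le_of_eq ?_)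
  simp [mul_assoc]

end Sys

lemma fac_cons (u : ℕ → A) (i n : ℕ) : fac u i (n + 1) = u i :: fac u (i + 1) n := by
  rw [Nat.add_comm n, fac_add, fac_one]; rfl

lemma fin_fac [Fintype A] (u : ℕ → A) (n : ℕ) : {w | ∃ i, w = fac u i n}.Finite :=
  (List.finite_length_eq A n).subset (by rintro w ⟨i, rfl⟩; simp)

lemma xx_cons {u l r : ℕ → A} (h : XX u l r) (n : ℕ) : ∃ i, l 0 :: fac r 0 n = fac u i (n + 1) := by
  obtain ⟨z, a1, a2, a3⟩ := h (n + 1)
  refine ⟨z - 1, ?_⟩
  rw [fac_cons, ← a3 0 (by omega)]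
  congr 1
  refine (fac_eq_iff _ _ _ _ _).2 (fun x hx => ?_)
  rw [Nat.zero_add, ← a2 x (by omega)]; congr 1; omega

lemma left_ext {u : ℕ → A} (hr : RevCl u) (i n : ℕ) : ∃ a j, a :: fac u i n = fac u j (n + 1) := by
  obtain ⟨i', e⟩ := hr i n
  obtain ⟨j, e'⟩ := hr i' (n + 1)
  refine ⟨u j, j, ?_⟩
  rw [fac_cons]
  congr 1
  refine (fac_eq_iff _ _ _ _ _).2 (fun x hx => ?_)
  rw [Nat.add_assoc, e' _ (by omega), e _ (by omega)]; congr 1; omega

lemma cx_step [Fintype A] {u : ℕ → A} (hr : RevCl u) (s : Finset (ℕ → A)) (hs : ↑s ⊆ LL u) (n : ℕ)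
    (hn : Set.InjOn (fun r => fac r 0 n) (s : Set (ℕ → A))) :
    {w | ∃ i, w = fac u i n}.ncard + s.card ≤ {w | ∃ i, w = fac u i (n + 1)}.ncard := by
  classical
  have e1 : ∀ w : List A, ∃ a, (∃ i, w = fac u i n) → ∃ j, a :: w = fac u j (n + 1) := by
    intro w
    by_cases c : ∃ i, w = fac u i n
    · obtain ⟨i, rfl⟩ := c
      obtain ⟨a, j, e⟩ := left_ext hr i n
      exact ⟨a, fun _ => ⟨j, e⟩⟩
    · exact ⟨u 0, fun c' => absurd c' c⟩
  choose e he using e1
  have e2 : ∀ r : ℕ → A, ∃ a, r ∈ s → a ≠ e (fac r 0 n) ∧ ∃ j, a :: fac r 0 n = fac u j (n + 1) := by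
    intro r
    by_cases c : r ∈ s
    · obtain ⟨l, l', x1, x2, x3⟩ := hs c
      by_cases c' : l 0 = e (fac r 0 n)
      · exact ⟨l' 0, fun _ => ⟨fun c'' => x3 (c'.trans c''.symm), xx_cons x2 n⟩⟩
      · exact ⟨l 0, fun _ => ⟨c', xx_cons x1 n⟩⟩
    · exact ⟨u 0, fun c' => absurd c' c⟩
  choose e' he' using e2
  rw [← Set.ncard_coe_finset s,
    ← Set.InjOn.ncard_image (f := fun w => e w :: w) (s := {w | ∃ i, w = fac u i n})
      (fun w _ w' _ c => (List.cons.inj c).2),
    ← Set.InjOn.ncard_image (f := fun r => e' r :: fac r 0 n) (s := (s : Set (ℕ → A)))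
      (fun w hw w' hw' c => hn hw hw' (List.cons.inj c).2),
    ← Set.ncard_union_eq ?_ ((fin_fac u n).image _) ((Finset.finite_toSet s).image _)]
  · refine Set.ncard_le_ncard ?_ (fin_fac u (n + 1))
    rintro w (⟨w, hw, rfl⟩ | ⟨r, hr, rfl⟩)
    · exact he w hw
    · exact (he' r hr).2
  · rw [Set.disjoint_left]
    rintro w ⟨w', -, rfl⟩ ⟨r, hr, c⟩
    obtain ⟨c1, c2⟩ := List.cons.inj c
    exact (he' r hr).1 (by rw [c1, c2])

lemma Sys.fin_LL [Fintype A] {φ : A → List A} {u : ℕ → A} {lam : ℕ} (h : Sys φ u lam) (hr : RevCl u) :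
    (LL u).Finite := by
  classical
  obtain ⟨K, hK⟩ := h.cx_le
  by_contra hc
  obtain ⟨s, hs, hcard⟩ := Set.Infinite.exists_subset_card_eq hc (2 * K + 1)
  have e1 : ∀ p : (ℕ → A) × (ℕ → A), ∃ x, p.1 ≠ p.2 → p.1 x ≠ p.2 x := by
    intro p
    by_cases c : p.1 = p.2
    · exact ⟨0, fun c' => absurd c c'⟩
    · obtain ⟨x, hx⟩ := Function.ne_iff.1 c
      exact ⟨x, fun _ => hx⟩
  choose f hf using e1
  obtain ⟨n0, hn0⟩ : ∃ n0, ∀ n, n0 ≤ n → Set.InjOn (fun r => fac r 0 n) (s : Set (ℕ → A)) := by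
    refine ⟨(s ×ˢ s).sup f + 1, fun n hn r a1 r' a2 c => ?_⟩
    by_contra c'
    have a3 : f (r, r') ≤ (s ×ˢ s).sup f := Finset.le_sup (Finset.mem_product.2 ⟨a1, a2⟩)
    apply hf (r, r') c'
    simpa using (fac_eq_iff _ _ _ _ _).1 c (f (r, r')) (by omega)
  have key : ∀ x, (2 * K + 1) * x ≤ {w | ∃ i, w = fac u i (n0 + x)}.ncard := by
    intro x
    induction x with
    | zero => simp
    | succ x ih =>
      have := cx_step hr s hs (n0 + x) (hn0 _ (by omega))
      rw [← Nat.add_assoc]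
      rw [hcard] at this
      nlinarith
  have a1 := key (n0 + 1)
  have a2 := hK (n0 + (n0 + 1)) (by omega)
  nlinarith

end Pool.Agent.H17.HKS
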