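import Pool.Agent.H17.Sub3

set_option autoImplicit false

namespace Pool.Agent.H17.HKS

variable {A : Type}

lemma mv_congr (l r r' : ℕ → A) (i : ℕ) (e : ∀ x, x < i → r x = r' x) : mv l r i = mv l r' i := by
  funext n
  simp only [mv]
  split_ifs with c
  · exact e _ (by omega)
  · rfl

lemma first_diff (r r' : ℕ → A) (h : r ≠ r') : ∃ i, (∀ x, x < i → r x = r' x) ∧ r i ≠ r' i := by
  classical
  have ex := Function.ne_iff.1 h
  exact ⟨Nat.find ex, fun x hx => by simpa using Nat.find_min ex hx, Nat.find_spec ex⟩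

lemma mv_LL {u l r r' : ℕ → A} (hr : RevCl u) (h : XX u l r) (h' : XX u l r') (i : ℕ)
    (e : ∀ x, x < i → r x = r' x) (e' : r i ≠ r' i) : mv l r i ∈ LL u :=
  ⟨sh r i, sh r' i, (h.move i).symm hr, by rw [mv_congr l r r' i e]; exact (h'.move i).symm hr,
    by simpa [sh] using e'⟩

def DD (u : ℕ → A) : Set ((ℕ → A) × (ℕ → A)) :=
  {p | XX u p.1 p.2 ∧ (∃ r', XX u p.1 r' ∧ p.2 0 ≠ r' 0) ∧ ∃ l', XX u l' p.2 ∧ p.1 0 ≠ l' 0}

lemma DD_symm {u : ℕ → A} (hr : RevCl u) {l r : ℕ → A} (h : (l, r) ∈ DD u) : (r, l) ∈ DD u := by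
  obtain ⟨h1, ⟨r', h2, h3⟩, l', h4, h5⟩ := h
  exact ⟨h1.symm hr, ⟨l', h4.symm hr, h5⟩, r', h2.symm hr, h3⟩

namespace Sys

variable {φ : A → List A} {u : ℕ → A} {lam : ℕ} [Fintype A]

lemma fin_ext (h : Sys φ u lam) (hr : RevCl u) (hap : ¬ ∃ d, 1 ≤ d ∧ ∀ i, u (i + d) = u i)
    (l : ℕ → A) : {r | XX u l r}.Finite := by
  classical
  have fb : {n | ∃ r r', XX u l r ∧ XX u l r' ∧ (∀ x, x < n → r x = r' x) ∧ r n ≠ r' n}.Finite := by
    have : ∀ n, ∃ r, (∃ r r', XX u l r ∧ XX u l r' ∧ (∀ x, x < n → r x = r' x) ∧ r n ≠ r' n) →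
        XX u l r ∧ mv l r n ∈ LL u := by
      intro n
      by_cases c : ∃ r r', XX u l r ∧ XX u l r' ∧ (∀ x, x < n → r x = r' x) ∧ r n ≠ r' n
      · obtain ⟨r, r', a1, a2, a3, a4⟩ := c
        exact ⟨r, fun _ => ⟨a1, mv_LL hr a1 a2 n a3 a4⟩⟩
      · exact ⟨l, fun c' => absurd c' c⟩
    choose f hf using this
    refine Set.Finite.of_finite_image (f := fun n => mv l (f n) n)
      ((h.fin_LL hr).subset (by rintro _ ⟨n, hn, rfl⟩; exact (hf n hn).2)) ?_
    have key : ∀ n n', n < n' → XX u l (f n) → mv l (f n) n ≠ mv l (f n') n' := by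
      intro n n' c hx e
      refine h.aper hap (hx.symm hr) (n' - n) (by omega) (fun y => ?_)
      have := congrFun e (y + n')
      simp only [mv] at this
      rw [if_neg (by omega), if_neg (by omega)] at this
      convert this using 2 <;> omega
    intro n hn n' hn' e
    rcases lt_trichotomy n n' with c | c | c
    · exact absurd e (key n n' c (hf n hn).1)
    · exact c
    · exact absurd e.symm (key n' n c (hf n' hn').1)
  obtain ⟨N, hN⟩ := fb.bddAbove
  refine Set.Finite.of_finite_image (f := fun r => fun x : Fin (N + 1) => r x) (Set.toFinite _) ?_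
  intro r a1 r' a2 e
  by_contra c
  obtain ⟨i, b1, b2⟩ := first_diff r r' c
  have : i ≤ N := hN ⟨r, r', a1, a2, b1, b2⟩
  exact b2 (congrFun e ⟨i, by omega⟩)

lemma overlap (h : Sys φ u lam) (hr : RevCl u) (hap : ¬ ∃ d, 1 ≤ d ∧ ∀ i, u (i + d) = u i) :
    ∃ K, ∀ l r l' r' i j, XX u l r → XX u l r' → XX u l' r → (∀ x, x < i → r x = r' x) → r i ≠ r' i →
      (∀ x, x < j → l x = l' x) → l j ≠ l' j → i + j ≤ K := by
  have fo : ∀ a b : ℕ → A, {o | XX u a (sh b o)}.Finite := by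
    intro a b
    refine Set.Finite.of_finite_image (f := fun o => sh b o)
      ((h.fin_ext hr hap a).subset (by rintro _ ⟨n, hn, rfl⟩; exact hn)) ?_
    have key : ∀ o o', o < o' → XX u a (sh b o) → sh b o ≠ sh b o' := by
      intro o o' c hx e
      refine h.aper hap hx (o' - o) (by omega) (fun y => ?_)
      have := congrFun e y
      simp only [sh] at this ⊢
      rw [this]; congr 1; omega
    intro n hn n' hn' e
    rcases lt_trichotomy n n' with c | c | c
    · exact absurd e (key n n' c hn)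
    · exact c
    · exact absurd e.symm (key n' n c hn')
  have := (h.fin_LL hr).biUnion (fun a _ => (h.fin_LL hr).biUnion (fun b _ => fo a b))
  obtain ⟨K, hK⟩ := this.bddAbove
  refine ⟨K, fun l r l' r' i j a1 a2 a3 a4 a5 a6 a7 => hK ?_⟩
  simp only [Set.mem_iUnion]
  refine ⟨mv l r i, mv_LL hr a1 a2 i a4 a5, mv r l j, mv_LL hr (a1.symm hr) (a3.symm hr) j a6 a7, ?_⟩
  have : sh (mv r l j) (i + j) = sh r i := by
    funext n
    simp only [sh, mv]
    rw [if_neg (by omega)]; congr 1; omega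
  show XX u _ _
  rw [this]; exact a1.move i

lemma DD_map (h : Sys φ u lam) (hr : RevCl u) (hap : ¬ ∃ d, 1 ≤ d ∧ ∀ i, u (i + d) = u i)
    {l r : ℕ → A} (hd : (l, r) ∈ DD u) : (img (mir φ) l, img φ r) ∈ DD u := by
  obtain ⟨h1, ⟨r', h2, h3⟩, l', h4, h5⟩ := hd
  obtain ⟨K, hK⟩ := h.overlap hr hap
  have step : ∀ m l r l' r', XX u l r → XX u l r' → XX u l' r → r ≠ r' → l ≠ l' →
      (∃ i j, 1 ≤ i + j ∧ m ≤ i + j ∧ (∀ x, x < i → r x = r' x) ∧ ∀ x, x < j → l x = l' x) →
      K < m → False := by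
    intro m l r l' r' a1 a2 a3 a4 a5 ⟨i, j, _, b2, b3, b4⟩ hm
    obtain ⟨i', c1, c2⟩ := first_diff r r' a4
    obtain ⟨j', d1, d2⟩ := first_diff l l' a5
    have := hK l r l' r' i' j' a1 a2 a3 c1 c2 d1 d2
    have : i ≤ i' := by by_contra c; exact c2 (b3 _ (by omega))
    have : j ≤ j' := by by_contra c; exact d2 (b4 _ (by omega))
    omega
  have grow : ∀ s m l r l' r', XX u l r → XX u l r' → XX u l' r → r ≠ r' → l ≠ l' →
      (∃ i j, 1 ≤ i + j ∧ m ≤ i + j ∧ (∀ x, x < i → r x = r' x) ∧ ∀ x, x < j → l x = l' x) →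
      K < m + s → False := by
    intro s
    induction s with
    | zero => exact step
    | succ s ih =>
      intro m l r l' r' a1 a2 a3 a4 a5 ⟨i, j, b1, b2, b3, b4⟩ hm
      exact ih (m + 1) _ _ _ _ (h.ximg a1) (h.ximg a2) (h.ximg a3)
        (fun c => a4 (h.inj hap a1 a2 rfl c).2) (fun c => a5 (h.inj hap a1 a3 c rfl).1)
        ⟨2 * i, 2 * j, by omega, by omega, img_agree φ h.two r r' i b3,
          img_agree (mir φ) h.mtwo l l' j b4⟩ (by omega)
  have n1 : img φ r ≠ img φ r' := fun c => h3 (congrFun (h.inj hap h1 h2 rfl c).2 0)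
  have n2 : img (mir φ) l ≠ img (mir φ) l' := fun c => h5 (congrFun (h.inj hap h1 h4 c rfl).1 0)
  refine ⟨h.ximg h1, ⟨_, h.ximg h2, fun c => ?_⟩, _, h.ximg h4, fun c => ?_⟩
  · exact grow (K + 1) 0 _ _ _ _ (h.ximg h1) (h.ximg h2) (h.ximg h4) n1 n2
      ⟨1, 0, by omega, by omega, fun x hx => by rwa [show x = 0 by omega], fun x hx => by omega⟩
      (by omega)
  · exact grow (K + 1) 0 _ _ _ _ (h.ximg h1) (h.ximg h2) (h.ximg h4) n1 n2
      ⟨0, 1, by omega, by omega, fun x hx => by omega, fun x hx => by rwa [show x = 0 by omega]⟩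
      (by omega)

lemma DD_per (h : Sys φ u lam) (hr : RevCl u) (hap : ¬ ∃ d, 1 ≤ d ∧ ∀ i, u (i + d) = u i)
    {l r : ℕ → A} (hd : (l, r) ∈ DD u) :
    ∃ m, 1 ≤ m ∧ (img (mir φ))^[m] l = l ∧ (img φ)^[m] r = r := by
  have fin : (DD u).Finite := ((h.fin_LL hr).prod (h.fin_LL hr)).subset (by
    rintro ⟨l, r⟩ ⟨h1, ⟨r', h2, h3⟩, l', h4, h5⟩
    exact ⟨⟨r, r', h1.symm hr, h2.symm hr, h3⟩, ⟨l, l', h1, h4, h5⟩⟩)
  have mem : ∀ n, ((img (mir φ))^[n] l, (img φ)^[n] r) ∈ DD u := by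
    intro n
    induction n with
    | zero => exact hd
    | succ n ih =>
      rw [Function.iterate_succ_apply', Function.iterate_succ_apply']; exact h.DD_map hr hap ih
  obtain ⟨p, q, hpq, e⟩ := Set.Finite.exists_lt_map_eq_of_forall_mem mem fin
  obtain ⟨m, rfl⟩ : ∃ m, q = m + 1 + p := ⟨q - p - 1, by omega⟩
  refine ⟨m + 1, by omega, ?_⟩
  clear hpq
  induction p with
  | zero => exact ⟨(Prod.mk.inj e).1.symm, (Prod.mk.inj e).2.symm⟩
  | succ p ih =>
    apply ih
    rw [← Nat.add_assoc] at e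
    simp only [Function.iterate_succ_apply' _ p, Function.iterate_succ_apply' _ (m + 1 + p)] at e
    obtain ⟨e1, e2⟩ := h.inj hap (mem p).1 (mem (m + 1 + p)).1 (Prod.mk.inj e).1 (Prod.mk.inj e).2
    exact Prod.ext e1 e2

lemma DD_pal (h : Sys φ u lam) (hr : RevCl u) (hap : ¬ ∃ d, 1 ≤ d ∧ ∀ i, u (i + d) = u i)
    {l r : ℕ → A} (hd : (l, r) ∈ DD u) (N : ℕ) :
    ∃ i n, N ≤ n ∧ (fac u i n).reverse = fac u i n := by
  obtain ⟨m, a1, -, a2⟩ := h.DD_per hr hap hd
  obtain ⟨m', b1, b2, -⟩ := h.DD_per hr hap (DD_symm hr hd)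
  have c1 : (img φ)^[m * (m' * N)] r = r := by
    rw [Function.iterate_mul]; exact Function.iterate_fixed a2 _
  have c2 : (img (mir φ))^[m * (m' * N)] r = r := by
    rw [show m * (m' * N) = m' * (m * N) by ring, Function.iterate_mul]
    exact Function.iterate_fixed b2 _
  have d1 := pre_iter φ h.one r (m * (m' * N))
  have d2 := pre_iter (mir φ) h.mone r (m * (m' * N))
  rw [c1] at d1
  rw [c2] at d2
  have e1 := d1.one 0
  have e2 := d2.one 0
  rw [cut_zero] at e1 e2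
  rw [pw_mir, List.length_reverse, e1, fac_length] at e2
  have e3 := h.lt_len (m * (m' * N)) (r 0)
  have e4 : N ≤ m * (m' * N) := by
    calc N = 1 * (1 * N) := by ring
      _ ≤ _ := Nat.mul_le_mul a1 (Nat.mul_le_mul_right _ b1)
  obtain ⟨z, -, f1, -⟩ := hd.1 (pw φ (m * (m' * N)) (r 0)).length
  refine ⟨z, (pw φ (m * (m' * N)) (r 0)).length, by omega, ?_⟩
  rw [(fac_eq_iff u r z 0 _).2 (fun x hx => by rw [f1 x hx, Nat.zero_add])]
  exact e2

end Sys

lemma seed (φ : A → List A) (h : ∀ a, 2 ≤ (φ a).length) (b : A) (hb : (φ b).head? = some b) :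
    ∃ r : ℕ → A, r 0 = b ∧ ∀ k, pw φ k b = fac r 0 (pw φ k b).length := by
  have p1 : ∀ k, pw φ k b <+: pw φ (k + 1) b := by
    intro k
    rw [pw_succ']
    obtain ⟨t, e⟩ := List.head?_eq_some_iff.1 hb
    rw [e]; simp
  have p2 : ∀ k j, pw φ k b <+: pw φ (k + j) b := by
    intro k j
    induction j with
    | zero => exact List.prefix_refl _
    | succ j ih => exact ih.trans (p1 _)
  have p3 : ∀ k, k < (pw φ k b).length := by
    intro k
    induction k with
    | zero => simp [pw_zero]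
    | succ k ih =>
      rw [pw_succ]
      have := len_flat φ 2 h (pw φ k b)
      show k + 1 < ((pw φ k b).flatMap φ).length
      omega
  refine ⟨fun i => (pw φ i b).getD i b, by simp [pw_zero], fun k => ?_⟩
  apply List.ext_getElem?
  intro i
  by_cases hi : i < (pw φ k b).length
  · rw [fac_get _ _ _ _ hi, Nat.zero_add, List.getD_eq_getElem?_getD]
    obtain ⟨s, e1⟩ := p2 k i
    obtain ⟨t, e2⟩ := p2 i k
    rw [Nat.add_comm, ← e1] at e2
    have b3 := congrArg (fun w : List A => w[i]?) e2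
    rw [List.getElem?_append_left (p3 i), List.getElem?_append_left hi] at b3
    rw [b3, List.getElem?_eq_getElem hi]; rfl
  · rw [List.getElem?_eq_none (by omega), List.getElem?_eq_none (by simp only [fac_length]; omega)]

lemma Sys.xx_seed {φ : A → List A} {u : ℕ → A} {lam : ℕ} (h : Sys φ u lam) (l r : ℕ → A) (t : ℕ)
    (hl : ∀ k, pw (mir φ) k (u t) = fac l 0 (pw (mir φ) k (u t)).length)
    (hr : ∀ k, pw φ k (u (t + 1)) = fac r 0 (pw φ k (u (t + 1))).length) : XX u l r := by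
  intro m
  have a1 := cut_succ (pw φ m) u t
  have a2 := h.lt_len m (u t)
  have a3 := h.lt_len m (u (t + 1))
  refine ⟨cut (pw φ m) u (t + 1), by omega, fun x hx => ?_, fun x hx => ?_⟩
  · simpa using (fac_eq_iff _ _ _ _ _).1 (((h.fix.pw m).one (t + 1)).symm.trans (hr m)) x (by omega)
  · have b1 := hl m
    rw [pw_mir, List.length_reverse] at b1
    have b2 := (h.fix.pw m).one t
    generalize (pw φ m (u t)).length = L at *
    have c4 := fac_get l 0 L x (by omega)
    rw [← b1, b2, List.getElem?_reverse (by simp; omega), fac_length, fac_get _ _ _ _ (by omega),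
      Nat.zero_add] at c4
    rw [← Option.some.inj c4]; congr 1; omega

end Pool.Agent.H17.HKS
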