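import Pool.Agent.H17.Sub4

set_option autoImplicit false

namespace Pool.Agent.H17.HKS

variable {A : Type}

lemma fact_thru {Y : Type} (g : ℕ → Y) (D : ℕ → ℤ) (h : ∀ t t', g t = g t' → D t = D t') :
    ∃ f : Y → ℤ, ∀ t, D t = f (g t) := by
  classical
  refine ⟨fun y => if c : ∃ t, g t = y then D c.choose else 0, fun t => ?_⟩
  have c : ∃ t', g t' = g t := ⟨t, rfl⟩
  simp only [dif_pos c]
  exact h _ _ c.choose_spec.symm

def HS (η : List A → ℤ) (u : ℕ → A) (n i : ℕ) : ℤ := ∑ j ∈ Finset.range i, η (fac u j (n + 1))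

lemma HS_add (η : List A → ℤ) (u : ℕ → A) (n i m : ℕ) :
    HS η u n (i + m) - HS η u n i = ∑ x ∈ Finset.range m, η (fac u (i + x) (n + 1)) := by
  simp [HS, Finset.sum_range_add]

lemma HS_shift (η : List A → ℤ) (u : ℕ → A) (n i i' m : ℕ)
    (h : ∀ x, x < m + n → u (i + x) = u (i' + x)) :
    HS η u n (i + m) - HS η u n i = HS η u n (i' + m) - HS η u n i' := by
  rw [HS_add, HS_add]
  refine Finset.sum_congr rfl (fun x hx => ?_)
  have := Finset.mem_range.1 hx
  rw [(fac_eq_iff u u (i + x) (i' + x) (n + 1)).2 (fun y hy => by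
    rw [Nat.add_assoc, Nat.add_assoc, h _ (by omega)])]

lemma HS_rev (η : List A → ℤ) (u : ℕ → A) (n i i' m : ℕ)
    (hη : ∀ j, η (fac u j (n + 1)).reverse = - η (fac u j (n + 1)))
    (h : ∀ x, x < m + n → u (i' + x) = u (i + (m + n - 1 - x))) :
    HS η u n (i' + m) - HS η u n i' = - (HS η u n (i + m) - HS η u n i) := by
  rw [HS_add, HS_add, ← Finset.sum_range_reflect, ← Finset.sum_neg_distrib]
  refine Finset.sum_congr rfl (fun x hx => ?_)
  have := Finset.mem_range.1 hx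
  rw [← hη, fac_rev u (i + x) (n + 1) (i' + (m - 1 - x)) (fun y hy => by
    rw [Nat.add_assoc i', h _ (by omega)]; congr 1; omega)]

def SQ (f : A → ℚ) (u : ℕ → A) (i : ℕ) : ℚ := ((fac u 0 i).map f).sum

lemma SQ_add (f : A → ℚ) (u : ℕ → A) (i m : ℕ) :
    SQ f u (i + m) = SQ f u i + ((fac u i m).map f).sum := by
  simp [SQ, fac_add]

lemma sum_flat (f : A → ℚ) (F : A → List A) (w : List A) :
    ((w.flatMap F).map f).sum = (w.map (fun b => ((F b).map f).sum)).sum := by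
  induction w with
  | nil => rfl
  | cons a w ih => simp only [List.flatMap_cons, List.map_append, List.sum_append, ih, List.map_cons,
      List.sum_cons]

def TT (φ : A → List A) : (A → ℚ) →ₗ[ℚ] (A → ℚ) where
  toFun f a := ((φ a).map f).sum
  map_add' f g := by funext a; simp only [Pi.add_apply, ← List.sum_map_add]; rfl
  map_smul' c f := by
    funext a
    simp only [Pi.smul_apply, smul_eq_mul, RingHom.id_apply]
    rw [← List.sum_map_mul_left]
    rfl

lemma TT_pow (φ : A → List A) (k : ℕ) (f : A → ℚ) :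
    (TT φ ^ k) f = fun a => ((pw φ k a).map f).sum := by
  induction k with
  | zero => funext a; simp [pw_zero]
  | succ k ih =>
    funext a
    rw [pow_succ', Module.End.mul_apply, ih, pw_succ', sum_flat]; rfl

lemma sum_bd (f : A → ℚ) (B : ℚ) (h : ∀ a, |f a| ≤ B) (w : List A) :
    |(w.map f).sum| ≤ B * w.length := by
  induction w with
  | nil => simp
  | cons a w ih =>
    simp only [List.map_cons, List.sum_cons, List.length_cons, Nat.cast_succ]
    have := abs_add_le (f a) (w.map f).sum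
    have := h a
    linarith

namespace Sys

variable {φ : A → List A} {u : ℕ → A} {lam : ℕ}

lemma SQ_cut (h : Sys φ u lam) (k t : ℕ) (f : A → ℚ) :
    SQ f u (cut (pw φ k) u t) = SQ ((TT φ ^ k) f) u t := by
  rw [SQ, ← (h.fix.pw k).fac0, sum_flat, TT_pow]; rfl

lemma head_eq (h : Sys φ u lam) (t : ℕ) : (φ (u t)).head? = some (u (cut φ u t)) := by
  have := h.two (u t)
  rw [List.head?_eq_getElem?, h.fix.one t, fac_get _ _ _ _ (by omega)]; rfl

lemma last_eq (h : Sys φ u lam) (t : ℕ) : (φ (u t)).getLast? = some (u (cut φ u (t + 1) - 1)) := by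
  have := h.two (u t)
  rw [List.getLast?_eq_getElem?, h.fix.one t, fac_length, fac_get _ _ _ _ (by omega), cut_succ]
  congr 2; omega

lemma junction (h : Sys φ u lam) (n s s' : ℕ) (e1 : u s = u s') (e2 : u (s + 1) = u (s' + 1)) :
    ∀ x, x < n + n → u (cut (pw φ n) u (s + 1) - n + x) = u (cut (pw φ n) u (s' + 1) - n + x) := by
  intro x hx
  have a1 := cut_succ (pw φ n) u s
  have a2 := cut_succ (pw φ n) u s'
  have a3 := h.lt_len n (u s)
  have a4 := h.lt_len n (u (s + 1))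
  have b1 := (h.fix.pw n).one s'
  have b2 := (h.fix.pw n).one (s' + 1)
  rw [← e1] at b1 a2
  rw [← e2] at b2
  have c1 := (fac_eq_iff _ _ _ _ _).1 (((h.fix.pw n).one s).symm.trans b1)
  have c2 := (fac_eq_iff _ _ _ _ _).1 (((h.fix.pw n).one (s + 1)).symm.trans b2)
  by_cases c : x < n
  · convert c1 ((pw φ n (u s)).length - n + x) (by omega) using 2 <;> omega
  · convert c2 (x - n) (by omega) using 2 <;> omega

lemma cob (h : Sys φ u lam) (η : List A → ℤ) (n : ℕ)
    (hA : ∀ t, (∀ t', (φ (u t')).getLast? = (φ (u t)).getLast? →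
        (φ (u (t' + 1))).head? = (φ (u (t + 1))).head?) ∨
      ∀ t', (φ (u (t' + 1))).head? = (φ (u (t + 1))).head? → (φ (u t')).getLast? = (φ (u t)).getLast?) :
    ∃ g β : A → ℤ, ∀ t, HS η u n (cut (pw φ (1 + n)) u (t + 1)) - HS η u n (cut (pw φ (1 + n)) u t) =
      g (u t) + β (u (t + 1)) := by
  classical
  obtain ⟨g0, hg0⟩ := fact_thru u (fun t => HS η u n (cut (pw φ (1 + n)) u (t + 1) - n) -
      HS η u n (cut (pw φ (1 + n)) u t)) (by
    intro t t' e
    have a1 := cut_succ (pw φ (1 + n)) u t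
    have a2 := cut_succ (pw φ (1 + n)) u t'
    have a3 := h.lt_len (1 + n) (u t)
    have b1 := (h.fix.pw (1 + n)).one t'
    rw [← e] at b1 a2
    have c1 := (fac_eq_iff _ _ _ _ _).1 (((h.fix.pw (1 + n)).one t).symm.trans b1)
    have := HS_shift η u n _ _ ((pw φ (1 + n) (u t)).length - n) (fun x hx => c1 x (by omega))
    convert this using 3 <;> omega)
  obtain ⟨J, hJ⟩ : ∃ J : ℕ → ℤ, ∀ t, J t = HS η u n (cut (pw φ (1 + n)) u (t + 1)) -
      HS η u n (cut (pw φ (1 + n)) u (t + 1) - n) := ⟨_, fun _ => rfl⟩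
  have hJ2 : ∀ t t', (φ (u t)).getLast? = (φ (u t')).getLast? →
      (φ (u (t + 1))).head? = (φ (u (t' + 1))).head? → J t = J t' := by
    intro t t' e1 e2
    rw [h.last_eq, h.last_eq] at e1
    rw [h.head_eq, h.head_eq] at e2
    have a1 := cut_succ φ u t
    have a2 := cut_succ φ u t'
    have a3 := h.two (u t)
    have a4 := h.two (u t')
    have b1 := h.c_add 1 n (t + 1)
    have b2 := h.c_add 1 n (t' + 1)
    rw [pw_one] at b1 b2
    have c1 := h.junction n (cut φ u (t + 1) - 1) (cut φ u (t' + 1) - 1) (Option.some.inj e1)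
      (by convert Option.some.inj e2 using 2 <;> omega)
    rw [show cut φ u (t + 1) - 1 + 1 = cut φ u (t + 1) by omega,
      show cut φ u (t' + 1) - 1 + 1 = cut φ u (t' + 1) by omega, ← b1, ← b2] at c1
    have d1 := cut_succ (pw φ (1 + n)) u t
    have d2 := cut_succ (pw φ (1 + n)) u t'
    have d3 := h.lt_len (1 + n) (u t)
    have d4 := h.lt_len (1 + n) (u t')
    have := HS_shift η u n _ _ n c1
    rw [hJ, hJ]
    convert this using 3 <;> omega
  obtain ⟨U, hU⟩ : ∃ U : ℕ → Prop, ∀ t, U t ↔ ∀ t', (φ (u t')).getLast? = (φ (u t)).getLast? →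
      (φ (u (t' + 1))).head? = (φ (u (t + 1))).head? := ⟨_, fun _ => Iff.rfl⟩
  have hU2 : ∀ t t', (φ (u t)).getLast? = (φ (u t')).getLast? → U t → U t' := by
    intro t t' e c
    rw [hU] at c ⊢
    intro t'' e'
    rw [c t'' (e'.trans e.symm), c t' e.symm]
  obtain ⟨α, hα⟩ := fact_thru u (fun t => if U t then J t else 0) (by
    intro t t' e
    have e' : (φ (u t)).getLast? = (φ (u t')).getLast? := by rw [e]
    by_cases c : U t
    · simp only [if_pos c, if_pos (hU2 t t' e' c)]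
      exact hJ2 t t' e' ((hU t).1 c t' e'.symm).symm
    · simp only [if_neg c, if_neg (fun c' => c (hU2 t' t e'.symm c'))])
  obtain ⟨β, hβ⟩ := fact_thru (fun t => u (t + 1)) (fun t => if U t then 0 else J t) (by
    intro t t' e
    have e' : (φ (u (t + 1))).head? = (φ (u (t' + 1))).head? := by simp only [e]
    by_cases c : U t
    · by_cases c' : U t'
      · simp only [if_pos c, if_pos c']
      · exact absurd (hU2 t t' (((hA t').resolve_left (fun x => c' ((hU t').2 x))) t e') c) c'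
    · have e'' := ((hA t).resolve_left (fun x => c ((hU t).2 x))) t' e'.symm
      simp only [if_neg c, if_neg (fun c' => c (hU2 t' t e'' c'))]
      exact hJ2 t t' e''.symm e')
  refine ⟨fun a => g0 a + α a, β, fun t => ?_⟩
  have a1 := hg0 t
  have a2 := hα t
  have a3 := hβ t
  have a4 := hJ t
  simp only at a1 a2 a3 ⊢
  split_ifs at a2 a3 <;> omega

lemma approx [Fintype A] (h : Sys φ u lam) (η : List A → ℤ) (hη : ∀ w, |η w| ≤ 1) (n K : ℕ)
    (g β : A → ℤ) (hg : ∀ t, HS η u n (cut (pw φ K) u (t + 1)) - HS η u n (cut (pw φ K) u t) =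
      g (u t) + β (u (t + 1))) :
    ∃ (f : A → ℚ) (C : ℚ), ∀ i, |(HS η u n i : ℚ) - SQ f u i| ≤ C := by
  have a1 : ∀ t, (HS η u n (cut (pw φ K) u t) : ℚ) =
      SQ (fun a => ((g a + β a : ℤ) : ℚ)) u t + β (u t) - β (u 0) := by
    intro t
    induction t with
    | zero => simp [HS, SQ, cut_zero, fac_zero]
    | succ t ih =>
      rw [SQ_add, fac_one]
      have := congrArg (fun z : ℤ => (z : ℚ)) (hg t)
      simp only [List.map_cons, List.map_nil, List.sum_cons, List.sum_nil] at this ⊢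
      push_cast at this ih ⊢
      linarith
  obtain ⟨J, hJ⟩ := Filter.eventually_atTop.1 (TT φ).eventually_iInf_range_pow_eq
  obtain ⟨f, hf⟩ : (TT φ ^ J) (fun a => ((g a + β a : ℤ) : ℚ)) ∈ LinearMap.range (TT φ ^ (J + K)) := by
    rw [← hJ (J + K) (by omega), hJ J le_rfl]; exact ⟨_, rfl⟩
  obtain ⟨B, hB⟩ : ∃ B : ℚ, ∀ a, |f a| ≤ B := (Set.finite_range (fun a => |f a|)).bddAbove.imp
    (fun B hB a => hB ⟨a, rfl⟩)
  obtain ⟨B', hB'⟩ : ∃ B : ℚ, ∀ a, |(β a : ℚ)| ≤ B :=
    (Set.finite_range (fun a => |(β a : ℚ)|)).bddAbove.imp (fun B hB a => hB ⟨a, rfl⟩)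
  have B0 : 0 ≤ B := (abs_nonneg _).trans (hB (u 0))
  obtain ⟨M, hM⟩ : ∃ M : ℕ, M = lam * (pw φ (J + K) (u 0)).length := ⟨_, rfl⟩
  refine ⟨f, 2 * B' + M + B * M, fun i => ?_⟩
  obtain ⟨t, b1, b2⟩ := h.loc (J + K) i
  obtain ⟨x, rfl⟩ := Nat.exists_eq_add_of_le b1
  have b3 := cut_succ (pw φ (J + K)) u t
  have b4 := h.cmp (J + K) (u 0) (u t)
  have b5 : (x : ℚ) ≤ M := by exact_mod_cast (by omega : x ≤ M)
  have c1 := a1 (cut (pw φ J) u t)
  rw [← h.c_add, h.SQ_cut, ← hf, ← h.SQ_cut] at c1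
  have c2 := SQ_add f u (cut (pw φ (J + K)) u t) x
  have c3 := sum_bd f B hB (fac u (cut (pw φ (J + K)) u t) x)
  rw [fac_length] at c3
  have c4 : |HS η u n (cut (pw φ (J + K)) u t + x) - HS η u n (cut (pw φ (J + K)) u t)| ≤ x := by
    rw [HS_add]
    refine (Finset.abs_sum_le_sum_abs _ _).trans ((Finset.sum_le_sum (fun y _ => hη _)).trans ?_)
    simp
  have c5 : |(HS η u n (cut (pw φ (J + K)) u t + x) : ℚ) - HS η u n (cut (pw φ (J + K)) u t)| ≤ x := by
    exact_mod_cast c4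
  have d1 := abs_le.1 (hB' (u 0))
  have d2 := abs_le.1 (hB' (u (cut (pw φ J) u t)))
  have d3 := abs_le.1 c3
  have d4 := abs_le.1 c5
  have d5 : B * x ≤ B * M := mul_le_mul_of_nonneg_left b5 B0
  rw [abs_le]
  constructor <;> linarith

end Sys

lemma bdd_of_approx [Fintype A] {u : ℕ → A} (hr : RevCl u) (η : List A → ℤ) (n : ℕ)
    (hη : ∀ j, η (fac u j (n + 1)).reverse = - η (fac u j (n + 1))) (f : A → ℚ) (C : ℚ)
    (hC : ∀ i, |(HS η u n i : ℚ) - SQ f u i| ≤ C) : ∃ D : ℤ, ∀ m, |HS η u n m| ≤ D := by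
  obtain ⟨B, hB⟩ : ∃ B : ℚ, ∀ a, |f a| ≤ B := (Set.finite_range (fun a => |f a|)).bddAbove.imp
    (fun B hB a => hB ⟨a, rfl⟩)
  refine ⟨⌈3 * C + 2 * (B * n)⌉, fun m => ?_⟩
  obtain ⟨i', e⟩ := hr 0 (m + n)
  have a1 := HS_rev η u n 0 i' m hη e
  have a2 : (fac u i' (m + n)).reverse = fac u 0 (m + n) :=
    fac_rev _ _ _ _ e
  have a3 : ((fac u i' (m + n)).map f).sum = ((fac u 0 (m + n)).map f).sum := by
    rw [← a2, List.map_reverse, List.sum_reverse]
  rw [fac_add, fac_add] at a3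
  simp only [List.map_append, List.sum_append] at a3
  have b1 := abs_le.1 (sum_bd f B hB (fac u (i' + m) n))
  have b2 := abs_le.1 (sum_bd f B hB (fac u (0 + m) n))
  rw [fac_length] at b1 b2
  have b3 := abs_le.1 (hC m)
  have b4 := abs_le.1 (hC i')
  have b5 := abs_le.1 (hC (i' + m))
  have b6 := SQ_add f u i' m
  have b7 : SQ f u m = ((fac u 0 m).map f).sum := rfl
  have b8 : HS η u n 0 = 0 := rfl
  rw [b8, Nat.zero_add] at a1
  have a4 := congrArg (fun z : ℤ => (z : ℚ)) a1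
  push_cast at a4
  have b9 := Int.le_ceil (3 * C + 2 * (B * n))
  have b10 : 0 ≤ C := (abs_nonneg _).trans (hC 0)
  have b11 : 0 ≤ B * n := by linarith
  have : |(HS η u n m : ℚ)| ≤ (⌈3 * C + 2 * (B * n)⌉ : ℤ) := by
    rw [abs_le]; constructor <;> linarith
  exact_mod_cast this

theorem Sys.caseA [Fintype A] {φ : A → List A} {u : ℕ → A} {lam : ℕ} (h : Sys φ u lam) (hr : RevCl u)
    (n : ℕ) (hn : ∀ i m, n ≤ m → (fac u i m).reverse ≠ fac u i m)
    (hA : ∀ t, (∀ t', (φ (u t')).getLast? = (φ (u t)).getLast? →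
        (φ (u (t' + 1))).head? = (φ (u (t + 1))).head?) ∨
      ∀ t', (φ (u (t' + 1))).head? = (φ (u (t + 1))).head? → (φ (u t')).getLast? = (φ (u t)).getLast?) :
    False := by
  obtain ⟨enc, henc⟩ := exists_injective_nat (List A)
  obtain ⟨σ, hσ⟩ : ∃ σ : List A → ℤ, ∀ w, σ w = if enc w < enc w.reverse then 1 else -1 :=
    ⟨_, fun _ => rfl⟩
  have s1 : ∀ w, σ w = 1 ∨ σ w = -1 := fun w => by rw [hσ]; split_ifs <;> simp
  have s2 : ∀ w, w.reverse ≠ w → σ w.reverse = - σ w := by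
    intro w hw
    have : enc w.reverse ≠ enc w := fun c => hw (henc c)
    rw [hσ, hσ, List.reverse_reverse]
    split_ifs <;> omega
  obtain ⟨η, hη⟩ : ∃ η : List A → ℤ, ∀ w, η w = if σ w.dropLast = σ w.tail then 0 else σ w :=
    ⟨_, fun _ => rfl⟩
  have t1 : ∀ j, (fac u j (n + 1)).dropLast = fac u j n := fun j => by rw [fac_succ]; simp
  have t2 : ∀ j, (fac u j (n + 1)).tail = fac u (j + 1) n := fun j => by rw [fac_cons]; rfl
  have e1 : ∀ w, |η w| ≤ 1 := fun w => by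
    rw [hη]; split_ifs
    · simp
    · rcases s1 w with c | c <;> simp [c]
  have e2 : ∀ j, η (fac u j (n + 1)).reverse = - η (fac u j (n + 1)) := by
    intro j
    rw [hη, hη, List.dropLast_reverse, List.tail_reverse, t1, t2, s2 _ (hn _ _ le_rfl),
      s2 _ (hn _ _ le_rfl), s2 _ (hn _ _ (by omega))]
    split_ifs <;> omega
  have e3 : ∀ i, (2 * HS η u n i + σ (fac u i n)) % 4 = σ (fac u 0 n) % 4 := by
    intro i
    induction i with
    | zero => simp [HS]
    | succ i ih =>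
      have a1 : HS η u n (i + 1) = HS η u n i + η (fac u i (n + 1)) := Finset.sum_range_succ _ _
      rw [hη, t1, t2] at a1
      have := s1 (fac u i n)
      have := s1 (fac u (i + 1) n)
      have := s1 (fac u i (n + 1))
      split_ifs at a1 <;> omega
  obtain ⟨g, β, hg⟩ := h.cob η n hA
  obtain ⟨f, C, hC⟩ := h.approx η e1 n _ g β hg
  obtain ⟨D, hD⟩ := bdd_of_approx hr η n e2 f C hC
  obtain ⟨lo, ⟨i, hi⟩, l2⟩ := Int.exists_least_of_bdd (P := fun z => ∃ i, HS η u n i = z)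
    ⟨-D, by rintro z ⟨i, rfl⟩; exact (abs_le.1 (hD i)).1⟩ ⟨_, 0, rfl⟩
  obtain ⟨hi', ⟨i', hi''⟩, l3⟩ := Int.exists_greatest_of_bdd (P := fun z => ∃ i, HS η u n i = z)
    ⟨D, by rintro z ⟨i, rfl⟩; exact (abs_le.1 (hD i)).2⟩ ⟨_, 0, rfl⟩
  have key : ∀ a m, ∃ j, HS η u n (j + m) - HS η u n j = - (HS η u n (a + m) - HS η u n a) ∧
      (HS η u n (j + m) ≠ HS η u n a) := by
    intro a m
    obtain ⟨j, e⟩ := hr a (m + n)
    refine ⟨j, HS_rev η u n a j m e2 e, fun c => ?_⟩
    have b1 : (fac u a n).reverse = fac u (j + m) n := fac_rev _ _ _ _ (fun y hy => by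
      rw [Nat.add_assoc, e _ (by omega)]; congr 1; omega)
    have b2 := s2 _ (hn a n le_rfl)
    rw [b1] at b2
    have := e3 a
    have := e3 (j + m)
    have := s1 (fac u a n)
    omega
  rcases le_total i i' with c | c
  · obtain ⟨m, rfl⟩ := Nat.exists_eq_add_of_le c
    obtain ⟨j, b1, b2⟩ := key i m
    have := l2 _ ⟨j + m, rfl⟩
    have := l3 _ ⟨j, rfl⟩
    omega
  · obtain ⟨m, rfl⟩ := Nat.exists_eq_add_of_le c
    obtain ⟨j, b1, b2⟩ := key i' m
    have := l3 _ ⟨j + m, rfl⟩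
    have := l2 _ ⟨j, rfl⟩
    omega

end Pool.Agent.H17.HKS
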