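import Pool.Agent.H17.Sub5

set_option autoImplicit false

namespace Pool.Agent.H17.HKS

variable {A : Type}

lemma head_pw (φ : A → List A) (F : A → A) (h : ∀ a, (φ a).head? = some (F a)) (m : ℕ) (a : A) :
    (pw φ m a).head? = some (F^[m] a) := by
  induction m with
  | zero => rfl
  | succ m ih =>
    rw [pw_succ, Function.iterate_succ_apply']
    obtain ⟨t, e⟩ := List.head?_eq_some_iff.1 ih
    obtain ⟨t', e'⟩ := List.head?_eq_some_iff.1 (h (F^[m] a))
    simp only [e, List.flatMap_cons, e']; rfl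

lemma idem {X : Type} [Finite X] (f : X → X) : ∃ m, 1 ≤ m ∧ ∀ x, f^[m] (f^[m] x) = f^[m] x := by
  obtain ⟨i, j, hij, e⟩ := Set.Finite.exists_lt_map_eq_of_forall_mem (f := fun n => f^[n])
    (fun _ => Set.mem_univ _) Set.finite_univ
  obtain ⟨d, rfl⟩ : ∃ d, j = i + (d + 1) := ⟨j - i - 1, by omega⟩
  have key : ∀ t, f^[i + t * (d + 1)] = f^[i] := by
    intro t
    induction t with
    | zero => simp
    | succ t ih =>
      rw [show i + (t + 1) * (d + 1) = (d + 1) + (i + t * (d + 1)) by ring, Function.iterate_add, ih,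
        ← Function.iterate_add, Nat.add_comm]
      exact e.symm
  refine ⟨(i + 1) * (d + 1), Nat.mul_pos (by omega) (by omega), fun x => ?_⟩
  obtain ⟨y, hy⟩ : ∃ y, (i + 1) * (d + 1) = y + i := ⟨i * d + d + 1, by ring⟩
  rw [← Function.iterate_add_apply]
  conv_lhs => rw [show (i + 1) * (d + 1) + (i + 1) * (d + 1) = y + (i + (i + 1) * (d + 1)) by omega,
    Function.iterate_add, key, ← Function.iterate_add, ← hy]

lemma Sys.power [Fintype A] {φ : A → List A} {u : ℕ → A} {lam : ℕ} (h : Sys φ u lam) :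
    ∃ ψ lam', Sys ψ u lam' ∧ (∀ x b, (ψ x).head? = some b → (ψ b).head? = some b) ∧
      ∀ x b, (ψ x).getLast? = some b → (ψ b).getLast? = some b := by
  have e1 : ∀ a, ∃ b, (φ a).head? = some b := fun a => by
    have := h.two a
    rcases e : φ a with _ | ⟨b, t⟩
    · rw [e] at this; simp at this
    · exact ⟨b, rfl⟩
  have e2 : ∀ a, ∃ b, (mir φ a).head? = some b := fun a => by
    have := h.mtwo a
    rcases e : mir φ a with _ | ⟨b, t⟩
    · rw [e] at this; simp at this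
    · exact ⟨b, rfl⟩
  choose F hF using e1
  choose G hG using e2
  obtain ⟨m, hm, e⟩ := idem (Prod.map F G)
  simp only [Prod.map_iterate] at e
  obtain ⟨m, rfl⟩ : ∃ m', m = m' + 1 := ⟨m - 1, by omega⟩
  refine ⟨pw φ (m + 1), lam ^ (m + 1), ⟨h.fix.pw _, fun a b => ?_, fun a => ?_, fun a => ?_⟩, ?_, ?_⟩
  · rw [pw_succ]
    have := h.lt_len m a
    obtain ⟨c, hc⟩ := List.exists_mem_of_length_pos (l := pw φ m a) (by omega)
    exact List.mem_flatMap.2 ⟨c, hc, h.all c b⟩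
  · have := h.lt_len (m + 1) a
    have := h.pow_le (m + 1) a
    have : 2 ^ (m + 1) = 2 * 2 ^ m := by ring
    have : 0 < 2 ^ m := by positivity
    omega
  · simpa [pw_zero] using h.up 0 (m + 1) a
  · intro x b hb
    rw [head_pw φ F hF] at hb ⊢
    rw [← Option.some.inj hb]
    exact congrArg some (congrArg Prod.fst (e (x, x)))
  · intro x b hb
    rw [← List.head?_reverse, ← pw_mir, head_pw _ G hG] at hb ⊢
    rw [← Option.some.inj hb]
    exact congrArg some (congrArg Prod.snd (e (x, x)))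

lemma per_pal {u : ℕ → A} (hr : RevCl u) (d : ℕ) (hd : 1 ≤ d) (h : ∀ i, u (i + d) = u i) (N : ℕ) :
    ∃ i n, N ≤ n ∧ (fac u i n).reverse = fac u i n := by
  have p1 : ∀ t i, u (i + d * t) = u i := by
    intro t
    induction t with
    | zero => simp
    | succ t ih => intro i; rw [Nat.mul_succ, ← Nat.add_assoc, h, ih]
  have p2 : ∀ i j, i % d = j % d → u i = u j := by
    intro i j e
    rw [← Nat.mod_add_div i d, ← Nat.mod_add_div j d, p1, p1, e]
  obtain ⟨i', e⟩ := hr 0 d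
  have hN : N ≤ d * N := Nat.le_mul_of_pos_left _ hd
  refine ⟨0, i' + d + d * N, by omega, fac_rev _ _ _ _ (fun j hj => ?_)⟩
  have hm := Nat.mod_lt j (show 0 < d by omega)
  have e1 := e (d - 1 - j % d) (by omega)
  rw [show d - 1 - (d - 1 - j % d) = j % d by omega] at e1
  rw [Nat.zero_add, Nat.zero_add, p2 j (0 + j % d) (by simp), ← e1, ← p1 (j / d) (i' + d + d * N - 1 - j),
    ← p1 N (i' + (d - 1 - j % d))]
  congr 1
  have := Nat.mod_add_div j d
  omega

theorem Sys.main [Fintype A] {φ : A → List A} {u : ℕ → A} {lam : ℕ} (h0 : Sys φ u lam) (hr : RevCl u)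
    (N : ℕ) : ∃ i n, N ≤ n ∧ (fac u i n).reverse = fac u i n := by
  by_cases hap : ∃ d, 1 ≤ d ∧ ∀ i, u (i + d) = u i
  · obtain ⟨d, hd, h⟩ := hap
    exact per_pal hr d hd h N
  obtain ⟨ψ, lam', h, hF, hG⟩ := h0.power
  by_contra hc
  push Not at hc
  apply h.caseA hr N hc
  by_contra hA
  push Not at hA
  obtain ⟨t1, ⟨t2, a1, a2⟩, t3, a3, a4⟩ := hA
  have cs : ∀ t, cut ψ u (t + 1) - 1 + 1 = cut ψ u (t + 1) := fun t => by
    have := cut_succ ψ u t
    have := h.two (u t)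
    omega
  have sl : ∀ t, ∃ l : ℕ → A, l 0 = u (cut ψ u (t + 1) - 1) ∧ ∀ k, pw (mir ψ) k (u (cut ψ u (t + 1) - 1)) =
      fac l 0 (pw (mir ψ) k (u (cut ψ u (t + 1) - 1))).length := fun t =>
    seed (mir ψ) h.mtwo _ (by rw [mir, List.head?_reverse]; exact hG _ _ (h.last_eq t))
  have sr : ∀ t, ∃ r : ℕ → A, r 0 = u (cut ψ u (t + 1) - 1 + 1) ∧
      ∀ k, pw ψ k (u (cut ψ u (t + 1) - 1 + 1)) =
      fac r 0 (pw ψ k (u (cut ψ u (t + 1) - 1 + 1))).length := fun t =>
    seed ψ h.two _ (by rw [cs]; exact hF _ _ (h.head_eq (t + 1)))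
  obtain ⟨l, l0, hl⟩ := sl t1
  obtain ⟨l', l0', hl'⟩ := sl t3
  obtain ⟨r, r0, hr1⟩ := sr t1
  obtain ⟨r', r0', hr'⟩ := sr t2
  rw [h.last_eq, h.last_eq] at a1 a4
  rw [h.head_eq, h.head_eq, ← cs, ← cs t1] at a2 a3
  have x1 := h.xx_seed l r _ hl hr1
  have x2 := h.xx_seed l r' _ (by rw [Option.some.inj a1]; exact hl) hr'
  have x3 := h.xx_seed l' r _ hl' (by rw [Option.some.inj a3]; exact hr1)
  obtain ⟨i, n, b1, b2⟩ := h.DD_pal hr hap (l := l) (r := r)
    ⟨x1, ⟨r', x2, fun c : r 0 = r' 0 => a2 (by rw [← r0, ← r0', c])⟩,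
      l', x3, fun c : l 0 = l' 0 => a4 (by rw [← l0, ← l0', c])⟩ N
  exact hc i n b1 b2

theorem Sys.conv [Fintype A] {φ : A → List A} {u : ℕ → A} {lam : ℕ} (h : Sys φ u lam)
    (hp : ∀ N, ∃ i n, N ≤ n ∧ (fac u i n).reverse = fac u i n) (i n : ℕ) :
    ∃ i', fac u i' n = (fac u i n).reverse := by
  obtain ⟨N, hN⟩ := h.urec
  obtain ⟨j, m, a1, a2⟩ := hp (N * (n + 1))
  have b1 : fac u i n <:+: fac u j m :=
    ((fac_infix u i (n + 1 + 1) 0 n (by omega)).trans (hN (n + 1) (by omega) i j)).trans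
      (fac_infix u j m 0 _ (by omega))
  have b2 := List.reverse_infix.2 b1
  rw [a2] at b2
  obtain ⟨x, -, e⟩ := infix_fac _ _ _ _ b2
  exact ⟨j + x, by rw [e]; simp⟩

theorem rev_iff_pal [Fintype A] (φ : A → List A) (u : ℕ → A) (hp : Prim φ) (hf : Pre φ u u) :
    (∀ i n, ∃ i', fac u i' n = (fac u i n).reverse) ↔
      {w : List A | (∃ i, w = fac u i w.length) ∧ w.reverse = w}.Infinite := by
  have inf : {w : List A | (∃ i, w = fac u i w.length) ∧ w.reverse = w}.Infinite ↔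
      ∀ N, ∃ i n, N ≤ n ∧ (fac u i n).reverse = fac u i n := by
    constructor
    · intro h N
      obtain ⟨w, ⟨⟨i, e⟩, e'⟩, hw⟩ := h.exists_notMem_finite (List.finite_length_lt A N)
      exact ⟨i, w.length, by simpa using hw, by rw [← e, e']⟩
    · intro h
      apply Set.Infinite.of_image List.length
      apply Set.infinite_of_forall_exists_gt
      intro N
      obtain ⟨l, n, h1, h2⟩ := h (N + 1)
      exact ⟨n, ⟨fac u l n, ⟨⟨l, by simp⟩, h2⟩, by simp⟩, by omega⟩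
  rw [inf]
  by_cases hB : ∃ a b : A, a ≠ b
  · obtain ⟨a, b, hab⟩ := hB
    obtain ⟨k, -, hk⟩ := hp
    have h : Sys (pw φ k) u (Finset.univ.sup (fun b => (pw φ k b).length)) :=
      ⟨hf.pw k, hk, fun c => two_le_len _ a b hab (hk c a) (hk c b),
        fun b => Finset.le_sup (f := fun b => (pw φ k b).length) (Finset.mem_univ b)⟩
    refine ⟨fun hr => h.main (fun i n => ?_), h.conv⟩
    obtain ⟨i', e⟩ := hr i n
    refine ⟨i', fun x hx => ?_⟩
    have := fac_get u i' n x hx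
    rw [e, List.getElem?_reverse (by simpa using hx), fac_length, fac_get _ _ _ _ (by omega)] at this
    exact (Option.some.inj this).symm
  · push Not at hB
    exact ⟨fun _ N => ⟨0, N, le_rfl, fac_rev _ _ _ _ (fun _ _ => hB _ _)⟩,
      fun _ i n => ⟨i, (fac_rev _ _ _ _ (fun _ _ => hB _ _)).symm⟩⟩

end Pool.Agent.H17.HKS
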