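import Pool.Agent.H17.Sub4
import Pool.Agent.H17.HKS3

set_option autoImplicit false

namespace Pool.Agent.H17.HKS

def ts : Fin 2 → List (Fin 2) := ![[0, 0, 1], [1, 0]]

def GG (K : ℕ) (w : List (Fin 2)) : List (Fin 2) := w.flatMap (pw ts K)

lemma GG_perm (K : ℕ) {v w : List (Fin 2)} (h : v.Perm w) : (GG K v).length = (GG K w).length :=
  (h.flatMap_right _).length_eq

lemma GG_app (K : ℕ) (v w : List (Fin 2)) : GG K (v ++ w) = GG K v ++ GG K w := List.flatMap_append

def tn (j : ℕ) : ℕ := (GG (3 * j) [0, 1, 1, 0, 0]).length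

lemma lt_of_get {w : List (Fin 2)} {i : ℕ} {a : Fin 2} (h : w[i]? = some a) : i < w.length := by
  by_contra c
  rw [List.getElem?_eq_none (by omega)] at h
  exact absurd h (by simp)

lemma tstep (K o : ℕ) (x x' z y r c : List (Fin 2)) (e : Fin 2)
    (hU : GG 3 [0, 1] = x ++ [0, 1] ++ z ++ c ++ y) (hV : GG 3 [1, 0] = x' ++ [1, 0] ++ r)
    (hx : x.Perm x') (hz : ([0, 1] ++ z).Perm [0, 1, 1, 0, 0]) (h1 : (GG K [1, 0])[o]? = some 1)
    (hc : (GG K c)[o]? = some e) :
    (∀ t a, (GG K [0, 1])[t]? = some a → (GG (3 + K) [0, 1])[(GG K x).length + t]? = some a) ∧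
      (GG (3 + K) [1, 0])[(GG K x).length + o]? = some 1 ∧
      (GG (3 + K) [0, 1])[(GG K x).length + o + (GG K [0, 1, 1, 0, 0]).length]? = some e := by
  have a1 : GG (3 + K) [0, 1] = GG K (x ++ [0, 1] ++ z ++ c ++ y) := by rw [← hU]; exact flat_pw _ _ _ _
  have a2 : GG (3 + K) [1, 0] = GG K (x' ++ [1, 0] ++ r) := by rw [← hV]; exact flat_pw _ _ _ _
  refine ⟨fun t a h => ?_, ?_, ?_⟩
  · rw [a1, List.append_assoc, List.append_assoc (x ++ [0, 1]), GG_app, GG_app,
      mid_get _ _ _ _ (lt_of_get h), h]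
  · rw [a2, GG_app, GG_app, GG_perm K hx, mid_get _ _ _ _ (lt_of_get h1), h1]
  · rw [a1, ← GG_perm K hz, Nat.add_right_comm, ← List.length_append, ← GG_app,
      ← List.append_assoc, GG_app _ _ y, GG_app _ _ c, mid_get _ _ _ _ (lt_of_get hc), hc]

lemma tinv (ε : ℕ → Fin 2) (N : ℕ) : ∃ o, (GG (3 * N) [0, 1])[o]? = some 0 ∧
    (GG (3 * N) [1, 0])[o]? = some 1 ∧ ∀ j, j < N → (GG (3 * N) [0, 1])[o + tn j]? = some (ε j) := by
  induction N with
  | zero => exact ⟨0, by decide, by decide, fun j hj => by omega⟩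
  | succ N ih =>
    obtain ⟨o, h0, h1, h2⟩ := ih
    rw [show 3 * (N + 1) = 3 + 3 * N by ring]
    have fin : ∀ x : List (Fin 2), ((∀ t a, (GG (3 * N) [0, 1])[t]? = some a →
          (GG (3 + 3 * N) [0, 1])[(GG (3 * N) x).length + t]? = some a) ∧
        (GG (3 + 3 * N) [1, 0])[(GG (3 * N) x).length + o]? = some 1 ∧
        (GG (3 + 3 * N) [0, 1])[(GG (3 * N) x).length + o + (GG (3 * N) [0, 1, 1, 0, 0]).length]? =
          some (ε N)) → ∃ o, (GG (3 + 3 * N) [0, 1])[o]? = some 0 ∧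
        (GG (3 + 3 * N) [1, 0])[o]? = some 1 ∧
          ∀ j, j < N + 1 → (GG (3 + 3 * N) [0, 1])[o + tn j]? = some (ε j) := by
      rintro x ⟨b1, b2, b3⟩
      refine ⟨_, b1 _ _ h0, b2, fun j hj => ?_⟩
      rcases Nat.lt_succ_iff_lt_or_eq.1 hj with c | rfl
      · rw [Nat.add_assoc]; exact b1 _ _ (h2 j c)
      · exact b3
    have : ε N = 0 ∨ ε N = 1 := by omega
    rcases this with c | c
    · exact fin _ (tstep (3 * N) o ((GG 3 [0, 1]).take 4) ((GG 3 [1, 0]).take 4)
        (((GG 3 [0, 1]).drop 6).take 3) ((GG 3 [0, 1]).drop 11) ((GG 3 [1, 0]).drop 6) [0, 1] _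
        (by decide) (by decide) (by decide) (by decide) h1 (by rw [c]; exact h0))
    · exact fin _ (tstep (3 * N) o ((GG 3 [0, 1]).take 27) ((GG 3 [1, 0]).take 27)
        (((GG 3 [0, 1]).drop 29).take 3) [] ((GG 3 [1, 0]).drop 29) [1, 0] _
        (by decide) (by decide) (by decide) (by decide) h1 (by rw [c]; exact h1))

lemma tpoint : ∃ x : ℤ → Fin 2, (∀ (m : ℤ) (k : ℕ), ∃ N,
      List.ofFn (fun i : Fin k => x (m + ((i : ℕ) : ℤ))) <:+: pw ts N 0) ∧
    ∀ K, ∃ z : ℕ, ∀ t a, (GG K [0, 1])[t]? = some a → x ((z + t : ℕ) : ℤ) = a := by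
  obtain ⟨r, -, hr⟩ := seed ts (by decide) 0 (by decide)
  obtain ⟨l, -, hl⟩ := seed (mir (pw ts 2)) (by decide) 0 (by decide)
  refine ⟨fun t => if 0 ≤ t then r t.toNat else l (-1 - t).toNat, fun m k => ?_, fun K => ?_⟩
  · obtain ⟨J, hJ⟩ : ∃ J, J = m.natAbs + k := ⟨_, rfl⟩
    have a1 := hl J
    have a2 := hr (J * 2)
    rw [pw_mir, pw_pw, List.length_reverse] at a1
    have a3 : J < (pw ts (J * 2) 0).length := by
      have : ∀ k, k < (pw ts k 0).length := by
        intro k
        induction k with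
        | zero => simp [pw_zero]
        | succ k ih =>
          rw [pw_succ]
          have := len_flat ts 2 (by decide) (pw ts k 0)
          show k + 1 < ((pw ts k 0).flatMap ts).length
          omega
      have := this (J * 2)
      omega
    have a4 : pw ts (J * 2) 0 ++ pw ts (J * 2) 0 <:+: pw ts (J * 2 + 1) 0 := by
      rw [pw_succ']
      exact ⟨[], pw ts (J * 2) 1, by simp [ts]⟩
    refine ⟨_, List.IsInfix.trans ?_ a4⟩
    generalize (pw ts (J * 2) 0).length = L at *
    have a5 : pw ts (J * 2) 0 ++ pw ts (J * 2) 0 =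
        fac (fun j : ℕ => if (0 : ℤ) ≤ j - L then r ((j : ℤ) - L).toNat else l (-1 - ((j : ℤ) - L)).toNat)
          0 (L + L) := by
      rw [fac_add]
      congr 1
      · rw [← List.reverse_reverse (pw ts (J * 2) 0), a1]
        apply List.ext_getElem?
        intro j
        by_cases hj : j < L
        · rw [List.getElem?_reverse (by simpa using hj), fac_length, fac_get _ _ _ _ (by omega),
            fac_get _ _ _ _ hj, if_neg (by omega)]
          congr 2; omega
        · rw [List.getElem?_eq_none (by simp; omega), List.getElem?_eq_none (by simp; omega)]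
      · rw [a2, fac_eq_iff]
        intro x hx
        rw [if_pos (by omega)]
        congr 1; omega
    rw [a5]
    convert fac_infix _ 0 (L + L) (m + L).toNat k (by omega) using 1
    apply List.ext_getElem?
    intro j
    by_cases hj : j < k
    · rw [fac_get _ _ _ _ hj, List.getElem?_ofFn, dif_pos hj]
      have : ((0 + (m + L).toNat + j : ℕ) : ℤ) - L = m + j := by omega
      simp only [this]
    · rw [List.getElem?_eq_none (by simp; omega), List.getElem?_eq_none (by simp; omega)]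
  · have a1 : GG K [0, 1] <:+: pw ts (K + 1) 0 := by
      rw [pw_succ']
      exact ⟨pw ts K 0, [], by simp [ts, GG]⟩
    rw [hr] at a1
    obtain ⟨z, -, e⟩ := infix_fac _ _ _ _ a1
    refine ⟨z, fun t a h => ?_⟩
    have a2 := lt_of_get h
    rw [e, fac_get _ _ _ _ a2] at h
    simp only [Nat.cast_nonneg, if_true, Int.toNat_natCast]
    simpa using h

end Pool.Agent.H17.HKS
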