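import Mathlib

set_option autoImplicit false

namespace Pool.Agent.H17.UFB

open Classical

def y (k : ℕ) (i : ℕ) : Bool :=
  if i % 3 = 0 then decide (3 ^ k ∣ i) else if i % 3 = 1 then y (k + 1) (i / 3) else !y (k + 1) (i / 3)
termination_by i
decreasing_by all_goals omega

lemma y0 (k j : ℕ) : y k (3 * j) = decide (3 ^ k ∣ 3 * j) := by
  rw [y]; simp

lemma y1 (k j : ℕ) : y k (3 * j + 1) = y (k + 1) j := by
  rw [y]
  have h1 : (3 * j + 1) % 3 = 1 := by omega
  have h2 : (3 * j + 1) / 3 = j := by omega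
  simp [h1, h2]

lemma y2 (k j : ℕ) : y k (3 * j + 2) = !y (k + 1) j := by
  rw [y]
  have h1 : (3 * j + 2) % 3 = 2 := by omega
  have h2 : (3 * j + 2) / 3 = j := by omega
  simp [h1, h2]

noncomputable def ind (P : Prop) : ℝ := if P then 1 else 0

def Disc (C : ℝ) (f : ℕ → ℝ) : Prop :=
  ∃ δ : ℝ, |δ| ≤ C ∧ ∀ N : ℕ, |∑ i ∈ Finset.range N, f i - δ * N| ≤ C

lemma Disc.congr {C : ℝ} {f g : ℕ → ℝ} (h : Disc C f) (e : ∀ i, g i = f i) : Disc C g := by
  have : g = f := funext e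
  rw [this]; exact h

lemma Disc.mono {C D : ℝ} {f : ℕ → ℝ} (h : Disc C f) (e : C ≤ D) : Disc D f := by
  obtain ⟨δ, h1, h2⟩ := h
  exact ⟨δ, h1.trans e, fun N => (h2 N).trans e⟩

lemma Disc.add {C D : ℝ} {f g : ℕ → ℝ} (h : Disc C f) (h' : Disc D g) :
    Disc (C + D) (fun i => f i + g i) := by
  obtain ⟨δ, h1, h2⟩ := h
  obtain ⟨ε, g1, g2⟩ := h'
  refine ⟨δ + ε, (abs_add_le _ _).trans (add_le_add h1 g1), fun N => ?_⟩
  rw [Finset.sum_add_distrib]
  have a := abs_le.1 (h2 N)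
  have b := abs_le.1 (g2 N)
  rw [abs_le]; constructor <;> nlinarith [a.1, a.2, b.1, b.2]

lemma Disc.sub {C D : ℝ} {f g : ℕ → ℝ} (h : Disc C f) (h' : Disc D g) :
    Disc (C + D) (fun i => f i - g i) := by
  obtain ⟨δ, h1, h2⟩ := h
  obtain ⟨ε, g1, g2⟩ := h'
  refine ⟨δ - ε, (abs_sub _ _).trans (add_le_add h1 g1), fun N => ?_⟩
  rw [Finset.sum_sub_distrib]
  have a := abs_le.1 (h2 N)
  have b := abs_le.1 (g2 N)
  rw [abs_le]; constructor <;> nlinarith [a.1, a.2, b.1, b.2]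

lemma disc_one : Disc 1 (fun _ => 1) := ⟨1, by simp, fun N => by simp⟩

lemma disc_zero : Disc 0 (fun _ => 0) := ⟨0, by simp, fun N => by simp⟩

lemma Disc.sum {C : ℝ} (F : ℕ → ℕ → ℝ) (h : ∀ a, Disc C (F a)) (m : ℕ) :
    Disc (m * C) (fun i => ∑ a ∈ Finset.range m, F a i) := by
  induction m with
  | zero => simpa using disc_zero
  | succ m ih =>
    have := ih.add (h m)
    refine (this.congr (fun i => ?_)).mono (le_of_eq ?_)
    · rw [Finset.sum_range_succ]
    · push_cast; ring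

lemma dil_sum (M r : ℕ) (hr : r < M) (f : ℕ → ℝ) (N : ℕ) :
    ∑ i ∈ Finset.range N, (if i % M = r then f (i / M) else 0)
      = ∑ j ∈ Finset.range (N / M + if r < N % M then 1 else 0), f j := by
  induction N with
  | zero => simp
  | succ N ih =>
    rw [Finset.sum_range_succ, ih]
    have hM : 0 < M := by omega
    have hlt := Nat.mod_lt N hM
    have e := Nat.div_add_mod N M
    by_cases hc : N % M + 1 < M
    · have a1 : (N + 1) / M = N / M := by
        have : N + 1 = M * (N / M) + (N % M + 1) := by omega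
        rw [this, Nat.mul_add_div hM, Nat.div_eq_of_lt hc]; simp
      have a2 : (N + 1) % M = N % M + 1 := by
        have : N + 1 = M * (N / M) + (N % M + 1) := by omega
        rw [this, Nat.mul_add_mod, Nat.mod_eq_of_lt hc]
      rw [a1, a2]
      by_cases h1 : N % M = r
      · have b1 : ¬ r < N % M := by omega
        have b2 : r < N % M + 1 := by omega
        simp [h1, Finset.sum_range_succ]
      · by_cases h2 : r < N % M
        · have b2 : r < N % M + 1 := by omega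
          simp [h1, h2, b2]
        · have b2 : ¬ r < N % M + 1 := by omega
          simp [h1, h2, b2]
    · have hh : N + 1 = M * (N / M + 1) := by rw [Nat.mul_add]; omega
      have a1 : (N + 1) / M = N / M + 1 := by
        rw [hh, Nat.mul_div_cancel_left _ hM]
      have a2 : (N + 1) % M = 0 := by rw [hh, Nat.mul_mod_right]
      rw [a1, a2]
      by_cases h1 : N % M = r
      · simp [h1, Finset.sum_range_succ]
      · have h2 : r < N % M := by omega
        simp [h1, h2]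

lemma Disc.dil {C : ℝ} {f : ℕ → ℝ} (h : Disc C f) (M r : ℕ) (hr : r < M) :
    Disc (2 * C) (fun i => if i % M = r then f (i / M) else 0) := by
  obtain ⟨δ, h1, h2⟩ := h
  have hM : 0 < M := by omega
  have hMR : (1 : ℝ) ≤ M := by exact_mod_cast hM
  have hC : 0 ≤ C := (abs_nonneg _).trans h1
  refine ⟨δ / M, ?_, fun N => ?_⟩
  · rw [abs_div, abs_of_pos (show (0 : ℝ) < M by linarith), div_le_iff₀ (by linarith)]
    nlinarith
  · rw [dil_sum M r hr]
    set a := N / M + (if r < N % M then 1 else 0) with ha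
    have e := Nat.div_add_mod N M
    have hlt := Nat.mod_lt N hM
    have b1 : M * a ≤ N + M := by
      rw [ha]; split_ifs <;> rw [Nat.mul_add] <;> omega
    have b2 : N ≤ M * a + M := by
      rw [ha]; split_ifs <;> rw [Nat.mul_add] <;> omega
    have c1 : (M : ℝ) * a ≤ N + M := by exact_mod_cast b1
    have c2 : (N : ℝ) ≤ M * a + M := by exact_mod_cast b2
    have d : |(a : ℝ) - N / M| ≤ 1 := by
      rw [abs_le]
      constructor
      · have : (N : ℝ) / M ≤ a + 1 := by rw [div_le_iff₀ (by linarith)]; nlinarith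
        linarith
      · have : (a : ℝ) - 1 ≤ N / M := by rw [le_div_iff₀ (by linarith)]; nlinarith
        linarith
    have e2 : ∑ j ∈ Finset.range a, f j - δ / M * N
        = (∑ j ∈ Finset.range a, f j - δ * a) + δ * ((a : ℝ) - N / M) := by ring
    rw [e2]
    have := abs_add_le (∑ j ∈ Finset.range a, f j - δ * a) (δ * ((a : ℝ) - N / M))
    rw [abs_mul] at this
    have g := h2 a
    have : |δ| * |(a : ℝ) - N / M| ≤ C := by
      calc _ ≤ C * 1 := mul_le_mul h1 d (abs_nonneg _) hC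
        _ = C := by ring
    linarith

lemma disc_ap (θ : ℕ) : Disc 2 (fun i => ind (3 ^ θ ∣ i)) := by
  have := disc_one.dil (3 ^ θ) 0 (by positivity)
  refine (this.congr (fun i => ?_)).mono (by norm_num)
  simp [ind, Nat.dvd_iff_mod_eq_zero]

lemma dvd_max (a b J : ℕ) : 3 ^ max a b ∣ J ↔ 3 ^ a ∣ J ∧ 3 ^ b ∣ J := by
  constructor
  · intro h
    exact ⟨(pow_dvd_pow 3 (le_max_left a b)).trans h, (pow_dvd_pow 3 (le_max_right a b)).trans h⟩
  · intro h
    rcases max_choice a b with e | e <;> rw [e]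
    · exact h.1
    · exact h.2

lemma dvd_min (a b J : ℕ) : 3 ^ min a b ∣ J ↔ 3 ^ a ∣ J ∨ 3 ^ b ∣ J := by
  constructor
  · intro h
    rcases min_choice a b with e | e <;> rw [e] at h
    · exact Or.inl h
    · exact Or.inr h
  · rintro (h | h)
    · exact (pow_dvd_pow 3 (min_le_left a b)).trans h
    · exact (pow_dvd_pow 3 (min_le_right a b)).trans h

lemma pair_sum (k q : ℕ) :
    ∑ i ∈ Finset.range (3 * q), ind (i % 3 ≠ 0 ∧ y k i = true) = q := by
  induction q with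
  | zero => simp
  | succ q ih =>
    have : 3 * (q + 1) = 3 * q + 1 + 1 + 1 := by ring
    rw [this, Finset.sum_range_succ, Finset.sum_range_succ, Finset.sum_range_succ, ih]
    have a1 : (3 * q + 1) % 3 ≠ 0 := by omega
    have a2 : (3 * q + 1 + 1) % 3 ≠ 0 := by omega
    have a3 : y k (3 * q + 1 + 1) = !y (k + 1) q := y2 k q
    rw [y1, a3]
    cases y (k + 1) q <;> simp [ind, a1, a2]

lemma ind_nonneg (P : Prop) : 0 ≤ ind P := by unfold ind; split_ifs <;> norm_num
lemma ind_le (P : Prop) : ind P ≤ 1 := by unfold ind; split_ifs <;> norm_num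

lemma disc_pair (k : ℕ) : Disc 2 (fun i => ind (i % 3 ≠ 0 ∧ y k i = true)) := by
  refine ⟨1 / 3, by rw [abs_le]; constructor <;> norm_num, fun N => ?_⟩
  obtain ⟨q, hq⟩ : ∃ q, N = 3 * q ∨ N = 3 * q + 1 ∨ N = 3 * q + 1 + 1 := ⟨N / 3, by omega⟩
  have p := pair_sum k q
  have b1 := ind_nonneg ((3 * q) % 3 ≠ 0 ∧ y k (3 * q) = true)
  have b2 := ind_le ((3 * q) % 3 ≠ 0 ∧ y k (3 * q) = true)
  have b3 := ind_nonneg ((3 * q + 1) % 3 ≠ 0 ∧ y k (3 * q + 1) = true)
  have b4 := ind_le ((3 * q + 1) % 3 ≠ 0 ∧ y k (3 * q + 1) = true)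
  rcases hq with h | h | h <;> subst h
  · rw [p, abs_le]; push_cast; constructor <;> linarith
  · rw [Finset.sum_range_succ, p, abs_le]; push_cast; constructor <;> linarith
  · rw [Finset.sum_range_succ, Finset.sum_range_succ, p, abs_le]; push_cast; constructor <;> linarith

lemma y_dvd (k i : ℕ) (h : i % 3 = 0) : y k i = decide (3 ^ k ∣ i) := by
  obtain ⟨j, rfl⟩ : ∃ j, i = 3 * j := ⟨i / 3, by omega⟩
  exact y0 k j

lemma disc_true (k : ℕ) : Disc 4 (fun i => ind (y k i = true)) := by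
  have := (disc_ap (max 1 k)).add (disc_pair k)
  refine (this.congr (fun i => ?_)).mono (by norm_num)
  simp only [dvd_max, pow_one]
  by_cases h : i % 3 = 0
  · have h3 : 3 ∣ i := Nat.dvd_of_mod_eq_zero h
    rw [y_dvd k i h]
    simp [ind, h, h3]
  · have h3 : ¬ 3 ∣ i := fun e => h (Nat.mod_eq_zero_of_dvd e)
    simp [ind, h, h3]

lemma disc_letter (k : ℕ) (c : Bool) : Disc 5 (fun i => ind (y k i = c)) := by
  cases c
  · have := disc_one.sub (disc_true k)
    refine (this.congr (fun i => ?_)).mono (by norm_num)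
    cases y k i <;> simp [ind]
  · exact (disc_true k).mono (by norm_num)

lemma disc_F0 (k θ : ℕ) (c : Bool) : Disc 10 (fun J => ind (y k J = c ∧ 3 ^ θ ∣ J + 0)) := by
  rcases θ with _ | θ
  · refine ((disc_letter k c).congr (fun i => ?_)).mono (by norm_num)
    simp
  · have key : ∀ J, 3 ^ (θ + 1) ∣ J → y k J = decide (3 ^ k ∣ J) := by
      intro J hJ
      apply y_dvd
      exact Nat.mod_eq_zero_of_dvd ((dvd_pow_self 3 (by omega)).trans hJ)
    cases c
    · have := (disc_ap (θ + 1)).sub (disc_ap (max (θ + 1) k))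
      refine (this.congr (fun i => ?_)).mono (by norm_num)
      simp only [dvd_max, add_zero]
      by_cases h : 3 ^ (θ + 1) ∣ i
      · rw [key i h]
        by_cases h2 : 3 ^ k ∣ i <;> simp [ind, h, h2]
      · simp [ind, h]
    · refine ((disc_ap (max (θ + 1) k)).congr (fun i => ?_)).mono (by norm_num)
      simp only [dvd_max, add_zero]
      by_cases h : 3 ^ (θ + 1) ∣ i
      · rw [key i h]
        by_cases h2 : 3 ^ k ∣ i <;> simp [ind, h, h2]
      · simp [ind, h]

lemma twos (θ : ℕ) : ∀ k, ∃ p : Bool, ∀ M, y k (3 ^ θ * M + (3 ^ θ - 1)) = xor p (y (k + θ) M) := by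
  induction θ with
  | zero => intro k; exact ⟨false, fun M => by simp⟩
  | succ θ ih =>
    intro k
    obtain ⟨p, hp⟩ := ih (k + 1)
    refine ⟨!p, fun M => ?_⟩
    have h0 : 0 < 3 ^ θ := by positivity
    have : 3 ^ (θ + 1) * M + (3 ^ (θ + 1) - 1) = 3 * (3 ^ θ * M + (3 ^ θ - 1)) + 2 := by
      rw [pow_succ, mul_comm (3 ^ θ) 3, mul_assoc]; omega
    rw [this, y2, hp, show k + 1 + θ = k + (θ + 1) by ring]
    cases p <;> simp

lemma disc_F1 (k θ : ℕ) (c : Bool) : Disc 10 (fun J => ind (y k J = c ∧ 3 ^ θ ∣ J + 1)) := by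
  obtain ⟨p, hp⟩ := twos θ k
  have h0 : 0 < 3 ^ θ := by positivity
  have := (disc_letter (k + θ) (xor p c)).dil (3 ^ θ) (3 ^ θ - 1) (by omega)
  refine (this.congr (fun J => ?_)).mono (by norm_num)
  have e := Nat.div_add_mod J (3 ^ θ)
  have hl := Nat.mod_lt J h0
  by_cases h : J % 3 ^ θ = 3 ^ θ - 1
  · have h1 : 3 ^ θ ∣ J + 1 := ⟨J / 3 ^ θ + 1, by rw [Nat.mul_add]; omega⟩
    have h2 := hp (J / 3 ^ θ)
    rw [← h, e] at h2
    rw [if_pos h, h2]
    cases p <;> cases c <;> cases y (k + θ) (J / 3 ^ θ) <;> simp [ind, h1]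
  · have h1 : ¬ 3 ^ θ ∣ J + 1 := by
      intro hd
      have : 3 ^ θ ∣ J % 3 ^ θ + 1 := by
        have e2 : J + 1 = 3 ^ θ * (J / 3 ^ θ) + (J % 3 ^ θ + 1) := by omega
        rw [e2] at hd
        exact (Nat.dvd_add_right (Dvd.intro _ rfl)).1 hd
      have := Nat.le_of_dvd (by omega) this
      omega
    rw [if_neg h]; simp [ind, h1]

def Itv (P : ℕ → Prop) : Prop :=
  ∃ (a b : ℕ) (f : Bool), ∀ J, P J ↔ 3 ^ a ∣ J ∧ ¬ (f = true ∧ 3 ^ b ∣ J)

lemma Itv.and {P Q : ℕ → Prop} (h : Itv P) (g : Itv Q) : Itv (fun J => P J ∧ Q J) := by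
  obtain ⟨a, b, f, h⟩ := h
  obtain ⟨a', b', f', g⟩ := g
  cases f <;> cases f'
  · exact ⟨max a a', 0, false, fun J => by simp [h, g, dvd_max]⟩
  · exact ⟨max a a', b', true, fun J => by simp [h, g, dvd_max]; tauto⟩
  · exact ⟨max a a', b, true, fun J => by simp [h, g, dvd_max]; tauto⟩
  · exact ⟨max a a', min b b', true, fun J => by simp [h, g, dvd_max, dvd_min]; tauto⟩

lemma itv_all (P : ℕ → ℕ → Prop) (n : ℕ) (h : ∀ t, t < n → Itv (P t)) :
    Itv (fun J => ∀ t, t < n → P t J) := by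
  induction n with
  | zero => exact ⟨0, 0, false, fun J => by simp⟩
  | succ n ih =>
    obtain ⟨a, b, f, e⟩ := (ih (fun t ht => h t (by omega))).and (h n (by omega))
    refine ⟨a, b, f, fun J => ?_⟩
    rw [← e J]
    constructor
    · intro g; exact ⟨fun t ht => g t (by omega), g n (by omega)⟩
    · intro g t ht
      rcases Nat.lt_succ_iff_lt_or_eq.1 ht with h1 | h1
      · exact g.1 t h1
      · rw [h1]; exact g.2

lemma itv_atom (v b z : Bool) (θ : ℕ) : Itv (fun J => xor v (b && decide (3 ^ θ ∣ J)) = z) := by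
  cases b
  · by_cases h : v = z
    · exact ⟨0, 0, false, fun J => by simp [h]⟩
    · exact ⟨0, 0, true, fun J => by simp [h]⟩
  · by_cases h : v = z
    · exact ⟨0, θ, true, fun J => by subst h; cases v <;> simp⟩
    · exact ⟨θ, 0, false, fun J => by cases v <;> cases z <;> simp_all⟩

lemma disc_itv (k δ : ℕ) (hδ : δ = 0 ∨ δ = 1) (c : Bool) (P : ℕ → Prop) (h : Itv P) :
    Disc 20 (fun J => ind (y k J = c ∧ P (J + δ))) := by
  have F : ∀ θ, Disc 10 (fun J => ind (y k J = c ∧ 3 ^ θ ∣ J + δ)) := by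
    intro θ
    rcases hδ with e | e <;> subst e
    · exact disc_F0 k θ c
    · exact disc_F1 k θ c
  obtain ⟨a, b, f, e⟩ := h
  cases f
  · refine ((F a).congr (fun J => ?_)).mono (by norm_num)
    simp [e]
  · refine (((F a).sub (F (max a b))).congr (fun J => ?_)).mono (by norm_num)
    simp only [e, dvd_max]
    by_cases h1 : y k J = c <;> by_cases h2 : 3 ^ a ∣ J + δ <;> by_cases h3 : 3 ^ b ∣ J + δ <;>
      simp [ind, h1, h2, h3]

lemma block (S : ℕ) : ∀ k ρ, ρ < 3 ^ S → ∃ (u v b : Bool) (θ : ℕ), (b = true → 3 * ρ + 2 < 3 ^ S) ∧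
    (3 * ρ + 2 < 3 ^ S → u = false) ∧
    ∀ J, y k (3 ^ S * J + ρ) = xor (xor (u && y (k + S) J) v) (b && decide (3 ^ θ ∣ J)) := by
  induction S with
  | zero =>
    intro k ρ h
    have : ρ = 0 := by simpa using h
    subst this
    exact ⟨true, false, false, 0, by simp, by simp, fun J => by simp⟩
  | succ S ih =>
    intro k ρ h
    have hp : 3 ^ (S + 1) = 3 * 3 ^ S := by ring
    have h0 : 0 < 3 ^ S := by positivity
    have h3 : 3 ^ S = 1 ∨ 3 ^ S % 3 = 0 := by
      rcases S with _ | S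
      · left; rfl
      · right; rw [pow_succ]; omega
    obtain ⟨ρ', hρ⟩ : ∃ q, ρ = 3 * q ∨ ρ = 3 * q + 1 ∨ ρ = 3 * q + 2 := ⟨ρ / 3, by omega⟩
    rcases hρ with e | e | e
    · have ey : ∀ J, y k (3 ^ (S + 1) * J + ρ) = decide (3 ^ k ∣ 3 ^ (S + 1) * J + ρ) := by
        intro J; apply y_dvd; rw [hp, mul_assoc]; omega
      by_cases hk : k ≤ S + 1
      · refine ⟨false, decide (3 ^ k ∣ ρ), false, 0, by simp, by simp, fun J => ?_⟩
        rw [ey]
        have : 3 ^ k ∣ 3 ^ (S + 1) * J := (pow_dvd_pow 3 hk).mul_right J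
        simp [Nat.dvd_add_right this]
      · obtain ⟨d, rfl⟩ : ∃ d, k = S + 1 + d := ⟨k - (S + 1), by omega⟩
        refine ⟨false, false, decide (ρ = 0), d, ?_, by simp, fun J => ?_⟩
        · intro hh
          have : ρ = 0 := by simpa using hh
          omega
        · rw [ey]
          by_cases hz : ρ = 0
          · subst hz
            have : 3 ^ (S + 1 + d) ∣ 3 ^ (S + 1) * J ↔ 3 ^ d ∣ J := by
              rw [pow_add]; exact Nat.mul_dvd_mul_iff_left (by positivity)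
            simp [this]
          · have : ¬ 3 ^ (S + 1 + d) ∣ 3 ^ (S + 1) * J + ρ := by
              intro hd
              have h5 : 3 ^ (S + 1) ∣ 3 ^ (S + 1) * J + ρ := (pow_dvd_pow 3 (by omega)).trans hd
              have h6 := (Nat.dvd_add_right (Dvd.intro _ rfl)).1 h5
              have := Nat.le_of_dvd (by omega) h6
              omega
            simp [this, hz]
    · obtain ⟨u, v, b, θ, a1, a2, a3⟩ := ih (k + 1) ρ' (by omega)
      refine ⟨u, v, b, θ, fun hb => by have := a1 hb; omega, fun hb => a2 (by omega), fun J => ?_⟩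
      have : 3 ^ (S + 1) * J + ρ = 3 * (3 ^ S * J + ρ') + 1 := by rw [hp, e]; ring
      rw [this, y1, a3, show k + 1 + S = k + (S + 1) by ring]
    · obtain ⟨u, v, b, θ, a1, a2, a3⟩ := ih (k + 1) ρ' (by omega)
      refine ⟨u, !v, b, θ, fun hb => by have := a1 hb; omega, fun hb => a2 (by omega), fun J => ?_⟩
      have : 3 ^ (S + 1) * J + ρ = 3 * (3 ^ S * J + ρ') + 2 := by rw [hp, e]; ring
      rw [this, y2, a3, show k + 1 + S = k + (S + 1) by ring]
      cases u <;> cases v <;> cases b <;> simp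

lemma disc_res (w : ℕ → Bool) (n S r : ℕ) (hn : 3 * n ≤ 3 ^ S) (hr : r < 3 ^ S) :
    Disc 40 (fun J => ind (∀ t, t < n → y 0 (3 ^ S * J + r + t) = w t)) := by
  have key : ∃ δ, (δ = 0 ∨ δ = 1) ∧ ∀ t, t < n → ∃ (u v b : Bool) (θ : ℕ), ∀ J,
      y 0 (3 ^ S * J + r + t) = xor (xor (u && y S J) v) (b && decide (3 ^ θ ∣ J + δ)) := by
    by_cases hc : r + n ≤ 3 ^ S
    · refine ⟨0, Or.inl rfl, fun t ht => ?_⟩
      obtain ⟨u, v, b, θ, -, -, a3⟩ := block S 0 (r + t) (by omega)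
      exact ⟨u, v, b, θ, fun J => by rw [add_assoc, a3]; simp⟩
    · refine ⟨1, Or.inr rfl, fun t ht => ?_⟩
      by_cases h1 : r + t < 3 ^ S
      · obtain ⟨u, v, b, θ, a1, -, a3⟩ := block S 0 (r + t) h1
        have hb : b = false := by
          cases b
          · rfl
          · have := a1 rfl; omega
        subst hb
        exact ⟨u, v, false, θ, fun J => by rw [add_assoc, a3]; simp⟩
      · obtain ⟨u, v, b, θ, -, a2, a3⟩ := block S 0 (r + t - 3 ^ S) (by omega)
        have hu : u = false := a2 (by omega)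
        subst hu
        refine ⟨false, v, b, θ, fun J => ?_⟩
        have : 3 ^ S * J + r + t = 3 ^ S * (J + 1) + (r + t - 3 ^ S) := by rw [Nat.mul_add]; omega
        rw [this, a3]; simp
  obtain ⟨δ, hδ, key⟩ := key
  choose! u v b θ key using key
  have I : ∀ c : Bool, Itv (fun J => ∀ t, t < n →
      xor (xor (u t && c) (v t)) (b t && decide (3 ^ θ t ∣ J)) = w t) := fun c =>
    itv_all (fun t J => xor (xor (u t && c) (v t)) (b t && decide (3 ^ θ t ∣ J)) = w t) n
      (fun t _ => itv_atom _ _ _ _)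
  have := (disc_itv S δ hδ true _ (I true)).add (disc_itv S δ hδ false _ (I false))
  refine (this.congr (fun J => ?_)).mono (by norm_num)
  have e : (∀ t, t < n → y 0 (3 ^ S * J + r + t) = w t) ↔ (∀ t, t < n →
      xor (xor (u t && y S J) (v t)) (b t && decide (3 ^ θ t ∣ J + δ)) = w t) :=
    forall_congr' (fun t => forall_congr' (fun ht => by rw [key t ht J]))
  rw [e]
  cases y S J <;> simp [ind]

lemma rec1 (k i i' n : ℕ) (hn : 15 ≤ n) (h : ∀ t, t < n → y k (i + t) = y k (i' + t)) :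
    i' % 3 ≠ (i + 1) % 3 := by
  intro hc
  obtain ⟨t0, j, j', ht, e1, e2⟩ : ∃ t0 j j', t0 < 3 ∧ i + t0 = 3 * j ∧ i' + t0 = 3 * j' + 1 :=
    ⟨(3 - i % 3) % 3, (i + (3 - i % 3) % 3) / 3, (i' + (3 - i % 3) % 3) / 3, by omega, by omega, by omega⟩
  have A : ∀ s, s < 4 → y (k + 1) (j + s) = !decide (3 ^ k ∣ 3 * (j + s)) := by
    intro s hs
    have a := h (t0 + 3 * s) (by omega)
    have b := h (t0 + 3 * s + 1) (by omega)
    rw [show i + (t0 + 3 * s) = 3 * (j + s) by omega,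
      show i' + (t0 + 3 * s) = 3 * (j' + s) + 1 by omega, y0, y1] at a
    rw [show i + (t0 + 3 * s + 1) = 3 * (j + s) + 1 by omega,
      show i' + (t0 + 3 * s + 1) = 3 * (j' + s) + 2 by omega, y1, y2] at b
    rw [b, a]
  obtain ⟨s, m, hs, e⟩ : ∃ s m, s < 3 ∧ j + s = 3 * m + 1 :=
    ⟨(4 - j % 3) % 3, (j + (4 - j % 3) % 3) / 3, by omega, by omega⟩
  have a := A s (by omega)
  have b := A (s + 1) (by omega)
  rw [e, y1] at a
  rw [show j + (s + 1) = 3 * m + 2 by omega, y2, a] at b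
  rcases k with _ | _ | k
  · simp at b
  · simp at b
  · have d : 9 ∣ 3 ^ (k + 1 + 1) := ⟨3 ^ k, by ring⟩
    have n1 : ¬ 3 ^ (k + 1 + 1) ∣ 3 * (3 * m + 1) := fun g => by have := d.trans g; omega
    have n2 : ¬ 3 ^ (k + 1 + 1) ∣ 3 * (3 * m + 2) := fun g => by have := d.trans g; omega
    simp [n1, n2] at b

lemma recog (t : ℕ) : ∀ k i i' n, 16 * 3 ^ t ≤ n + 1 → (∀ s, s < n → y k (i + s) = y k (i' + s)) →
    i % 3 ^ t = i' % 3 ^ t := by
  induction t with
  | zero => intro k i i' n _ _; simp [Nat.mod_one]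
  | succ t ih =>
    intro k i i' n hn h
    have h0 : 0 < 3 ^ t := by positivity
    have hp : 3 ^ (t + 1) = 3 * 3 ^ t := by ring
    have a := rec1 k i i' n (by omega) h
    have b := rec1 k i' i n (by omega) (fun s hs => (h s hs).symm)
    have e : i % 3 = i' % 3 := by omega
    have g := ih (k + 1) (i / 3 + 1) (i' / 3 + 1) (16 * 3 ^ t - 1) (by omega) (fun s hs => by
      have := h (3 * s + 4 - i % 3) (by omega)
      rw [show i + (3 * s + 4 - i % 3) = 3 * (i / 3 + 1 + s) + 1 by omega,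
        show i' + (3 * s + 4 - i % 3) = 3 * (i' / 3 + 1 + s) + 1 by omega, y1, y1] at this
      exact this)
    have g2 : i / 3 % 3 ^ t = i' / 3 % 3 ^ t := Nat.ModEq.add_right_cancel' 1 g
    rw [hp, Nat.mod_mul, Nat.mod_mul, e, g2]

lemma scale (n : ℕ) : ∃ t, (t = 0 ∨ 16 * 3 ^ t ≤ n + 1) ∧ n + 1 < 48 * 3 ^ t := by
  induction n with
  | zero => exact ⟨0, Or.inl rfl, by norm_num⟩
  | succ n ih =>
    obtain ⟨t, a, b⟩ := ih
    by_cases h : n + 1 + 1 < 48 * 3 ^ t
    · exact ⟨t, by omega, h⟩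
    · exact ⟨t + 1, Or.inr (by rw [pow_succ]; omega), by rw [pow_succ]; omega⟩

lemma disc_occ (i0 n : ℕ) :
    Disc (243 * 80) (fun i => ind (∀ s, s < n → y 0 (i + s) = y 0 (i0 + s))) := by
  obtain ⟨t, a, b⟩ := scale n
  have h0 : 0 < 3 ^ t := by positivity
  have hS : 3 ^ (t + 5) = 3 ^ t * 243 := by ring
  have hl := Nat.mod_lt i0 h0
  have D := Disc.sum (C := 80) (fun a i => if i % 3 ^ (t + 5) = i0 % 3 ^ t + 3 ^ t * (a % 243) then
    ind (∀ s, s < n → y 0 (3 ^ (t + 5) * (i / 3 ^ (t + 5)) + (i0 % 3 ^ t + 3 ^ t * (a % 243)) + s)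
      = y 0 (i0 + s)) else 0) (fun a => by
      have hr : i0 % 3 ^ t + 3 ^ t * (a % 243) < 3 ^ (t + 5) := by
        have : a % 243 ≤ 242 := by omega
        have := Nat.mul_le_mul_left (3 ^ t) this
        omega
      exact ((disc_res (fun s => y 0 (i0 + s)) n (t + 5) _ (by omega) hr).dil _ _ hr).mono
        (by norm_num)) 243
  refine (D.congr (fun i => ?_)).mono (by norm_num)
  have e := Nat.div_add_mod i (3 ^ (t + 5))
  have em : i % 3 ^ (t + 5) = i % 3 ^ t + 3 ^ t * (i / 3 ^ t % 243) := by rw [hS, Nat.mod_mul]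
  by_cases hO : ∀ s, s < n → y 0 (i + s) = y 0 (i0 + s)
  · have hc : i % 3 ^ t = i0 % 3 ^ t := by
      rcases a with a | a
      · subst a; simp [Nat.mod_one]
      · exact recog t 0 i i0 n a hO
    rw [Finset.sum_eq_single (i / 3 ^ t % 243)]
    · rw [Nat.mod_mod, ← hc, ← em, if_pos rfl, e]
    · intro a ha hne
      rw [if_neg]
      rw [em, hc, Nat.mod_eq_of_lt (Finset.mem_range.1 ha)]
      intro g
      exact hne (Nat.eq_of_mul_eq_mul_left h0 (Nat.add_left_cancel g)).symm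
    · intro g
      exact absurd (Finset.mem_range.2 (Nat.mod_lt _ (by norm_num))) g
  · rw [Finset.sum_eq_zero]
    · simp only [ind, if_neg hO]
    · intro a _
      split_ifs with g
      · rw [← g, e]; simp only [ind, if_neg hO]
      · rfl

def o : ℕ → ℕ
  | 0 => 0
  | m + 1 => 3 * o m + 1

lemma o_lt (m : ℕ) : o m < 3 ^ m := by
  induction m with
  | zero => simp [o]
  | succ m ih => rw [o, pow_succ]; omega

lemma ones (m : ℕ) : ∀ k J, y k (3 ^ m * J + o m) = y (k + m) J := by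
  induction m with
  | zero => intro k J; simp [o]
  | succ m ih =>
    intro k J
    have : 3 ^ (m + 1) * J + o (m + 1) = 3 * (3 ^ m * J + o m) + 1 := by rw [o]; ring
    rw [this, y1, ih, show k + 1 + m = k + (m + 1) by ring]

lemma probe (g j j' : ℕ) (hj : j' ≤ g) :
    y 0 (3 ^ (2 * g + 2) * 3 ^ (2 * j) + o (g + 1 + j')) = decide (j' ≤ j) := by
  obtain ⟨d, rfl⟩ : ∃ d, g = j' + d := ⟨g - j', by omega⟩
  have : 3 ^ (2 * (j' + d) + 2) * 3 ^ (2 * j) = 3 ^ (j' + d + 1 + j') * (3 * 3 ^ (d + 2 * j)) := by ring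
  rw [this, ones, y0, ← pow_succ', zero_add]
  have : 3 ^ (j' + d + 1 + j') ∣ 3 ^ (d + 2 * j + 1) ↔ j' ≤ j := by
    rw [Nat.pow_dvd_pow_iff_le_right (by norm_num)]; omega
  simp [this]

lemma distinct (g r j r' j' : ℕ) (hr : r < 3 ^ (2 * g)) (hr' : r' < 3 ^ (2 * g)) (hj : j ≤ g)
    (hj' : j' ≤ g) (h : ∀ s, s < 18 * 3 ^ (2 * g) →
      y 0 (3 ^ (2 * g + 2) * (3 ^ (2 * j) - 1) + r + s) = y 0 (3 ^ (2 * g + 2) * (3 ^ (2 * j') - 1) + r' + s)) :
    r = r' ∧ j = j' := by
  have hp : 3 ^ (2 * g + 2) = 3 ^ (2 * g) * 9 := by ring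
  have a := recog (2 * g) 0 _ _ _ (by omega) h
  rw [hp, mul_assoc, mul_assoc, Nat.mul_add_mod, Nat.mul_add_mod, Nat.mod_eq_of_lt hr,
    Nat.mod_eq_of_lt hr'] at a
  subst a
  refine ⟨rfl, ?_⟩
  have key : ∀ m, m ≤ g → decide (m ≤ j) = decide (m ≤ j') := by
    intro m hm
    have l1 := o_lt (g + 1 + m)
    have l2 : 3 ^ (g + 1 + m) ≤ 3 ^ (2 * g + 2) := Nat.pow_le_pow_right (by norm_num) (by omega)
    have b := h (3 ^ (2 * g + 2) - r + o (g + 1 + m)) (by omega)
    have sh : ∀ q, 3 ^ (2 * g + 2) * (3 ^ (2 * q) - 1) + r + (3 ^ (2 * g + 2) - r + o (g + 1 + m))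
        = 3 ^ (2 * g + 2) * 3 ^ (2 * q) + o (g + 1 + m) := by
      intro q
      have hq : 0 < 3 ^ (2 * q) := by positivity
      obtain ⟨z, hz⟩ : ∃ z, 3 ^ (2 * q) = z + 1 := ⟨3 ^ (2 * q) - 1, by omega⟩
      rw [hz, Nat.add_sub_cancel, Nat.mul_add]; omega
    rw [sh, sh, probe g j m hm, probe g j' m hm] at b
    exact b
  have k1 := key j hj
  have k2 := key j' hj'
  simp at k1 k2
  omega

end Pool.Agent.H17.UFB
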