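import Mathlib

namespace Pool.Agent.H17.WP
open Module Matrix

/-- `x` and `y` weakly have the same phase. -/
def WeakSame {n : ℕ} (x y : EuclideanSpace ℝ (Fin n)) : Prop :=
  ∃ θ : SignType, (θ = 1 ∨ θ = -1) ∧
    ∀ j, x j ≠ 0 → y j ≠ 0 → SignType.sign (x j) = θ * SignType.sign (y j)

/-- The subspaces `W i` do weak phase retrieval. -/
def WeakPR {n m : ℕ} (W : Fin m → Submodule ℝ (EuclideanSpace ℝ (Fin n))) : Prop :=
  ∀ x y, (∀ i, ‖(W i).starProjection x‖ = ‖(W i).starProjection y‖) → WeakSame x y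

lemma ws_nonneg {n : ℕ} {x y : EuclideanSpace ℝ (Fin n)} (h : WeakSame x y) (j k : Fin n) :
    0 ≤ (x j * y j) * (x k * y k) := by
  obtain ⟨θ, hθ, h⟩ := h
  by_cases h1 : x j = 0; · simp [h1]
  by_cases h2 : y j = 0; · simp [h2]
  by_cases h3 : x k = 0; · simp [h3]
  by_cases h4 : y k = 0; · simp [h4]
  have a := h j h1 h2
  have b := h k h3 h4
  rw [← sign_nonneg_iff, sign_mul, sign_mul, sign_mul, a, b]
  generalize SignType.sign (y j) = p
  generalize SignType.sign (y k) = q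
  rcases hθ with rfl | rfl <;> cases p <;> cases q <;> decide

lemma med {a b c d : ℝ} (h : ∀ t : ℝ, 0 ≤ (t ^ 2 * a ^ 2 - b ^ 2) * (t ^ 2 * c ^ 2 - d ^ 2)) :
    a ^ 2 * d ^ 2 = c ^ 2 * b ^ 2 := by
  by_contra hne
  have hac : 0 < a ^ 2 + c ^ 2 := by
    rcases (add_nonneg (sq_nonneg a) (sq_nonneg c)).lt_or_eq with h0 | h0
    · exact h0
    · have ha : a ^ 2 = 0 := by nlinarith [sq_nonneg a, sq_nonneg c]
      have hc : c ^ 2 = 0 := by nlinarith [sq_nonneg a, sq_nonneg c]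
      exact absurd (by rw [ha, hc]; ring) hne
  have := h (Real.sqrt ((b ^ 2 + d ^ 2) / (a ^ 2 + c ^ 2)))
  rw [Real.sq_sqrt (by positivity)] at this
  have e : ((b ^ 2 + d ^ 2) / (a ^ 2 + c ^ 2) * a ^ 2 - b ^ 2) *
      ((b ^ 2 + d ^ 2) / (a ^ 2 + c ^ 2) * c ^ 2 - d ^ 2) =
      - ((a ^ 2 * d ^ 2 - c ^ 2 * b ^ 2) / (a ^ 2 + c ^ 2)) ^ 2 := by
    field_simp; ring
  rw [e] at this
  have : (a ^ 2 * d ^ 2 - c ^ 2 * b ^ 2) / (a ^ 2 + c ^ 2) = 0 := by
    exact pow_eq_zero_iff (two_ne_zero) |>.1 (le_antisymm (by linarith) (sq_nonneg _))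
  rw [div_eq_zero_iff] at this
  rcases this with h1 | h1
  · exact hne (by linarith)
  · exact hac.ne' h1

lemma ex_ker {a b : ℕ} (h : a < b) (M : Matrix (Fin a) (Fin b) ℝ) :
    ∃ u : Fin b → ℝ, u ≠ 0 ∧ M *ᵥ u = 0 := by
  have : LinearMap.ker M.mulVecLin ≠ ⊥ :=
    LinearMap.ker_ne_bot_of_finrank_lt (by simpa using h)
  obtain ⟨u, hu, h0⟩ := (Submodule.ne_bot_iff _).1 this
  exact ⟨u, h0, hu⟩

/-- The property extracted from weak phase retrieval by lines. -/
def Prp (φ : Fin 12 → Fin 7 → ℝ) : Prop :=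
  ∀ u v : Fin 7 → ℝ, (∀ i, φ i ⬝ᵥ u = 0 ∨ φ i ⬝ᵥ v = 0) →
    ∀ j k, u j ^ 2 * v k ^ 2 = u k ^ 2 * v j ^ 2

lemma prp_of (W : Fin 12 → Submodule ℝ (EuclideanSpace ℝ (Fin 7)))
    (h1 : ∀ i, finrank ℝ (W i) = 1) (h : WeakPR W) : ∃ φ, Prp φ := by
  choose f _ hf using fun i => finrank_eq_one_iff'.1 (h1 i)
  refine ⟨fun i j => (f i : EuclideanSpace ℝ (Fin 7)) j, fun u v huv j k => med fun t => ?_⟩
  have z : ∀ i (w : Fin 7 → ℝ), (fun j => (f i : EuclideanSpace ℝ (Fin 7)) j) ⬝ᵥ w = 0 →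
      (W i).starProjection (WithLp.toLp 2 w) = 0 := by
    intro i w hw
    rw [Submodule.starProjection_apply_eq_zero_iff, Submodule.mem_orthogonal]
    intro y hy
    obtain ⟨c, hc⟩ := hf i ⟨y, hy⟩
    have : y = c • (f i : EuclideanSpace ℝ (Fin 7)) := (congrArg Subtype.val hc).symm
    rw [this, inner_smul_left]
    have : inner ℝ (f i : EuclideanSpace ℝ (Fin 7)) (WithLp.toLp 2 w) = 0 := by
      rw [← hw]; simp [PiLp.inner_apply, dotProduct, mul_comm]
    rw [this, mul_zero]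
  have := ws_nonneg (h (t • WithLp.toLp 2 u + WithLp.toLp 2 v)
    (t • WithLp.toLp 2 u - WithLp.toLp 2 v) (fun i => by
      rcases huv i with h0 | h0
      · simp [z i _ h0]
      · simp [z i _ h0])) j k
  simp only [PiLp.add_apply, PiLp.sub_apply, PiLp.smul_apply, smul_eq_mul] at this
  nlinarith [this]

lemma spark {φ : Fin 12 → Fin 7 → ℝ} (h : Prp φ) (S : Finset (Fin 12)) (hS : S.card = 5)
    (v : Fin 7 → ℝ) (hv : ∀ i, i ∉ S → φ i ⬝ᵥ v = 0) : v = 0 := by
  by_contra h0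
  obtain ⟨k, hk⟩ := Function.ne_iff.1 h0
  let e := S.orderEmbOfFin hS
  obtain ⟨u, hu, hM⟩ := ex_ker (a := 6) (b := 7) (by norm_num)
    (Matrix.of (Fin.cons (Pi.single k 1) (fun i : Fin 5 => φ (e i)) : Fin 6 → Fin 7 → ℝ))
  have hk0 : u k = 0 := by simpa [Matrix.mulVec] using congrFun hM 0
  have := h u v (fun i => by
    by_cases hi : i ∈ S
    · left
      obtain ⟨a, rfl⟩ : i ∈ Set.range e := by rw [Finset.range_orderEmbOfFin]; exact hi
      simpa [Matrix.mulVec] using congrFun hM a.succ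
    · exact Or.inr (hv i hi))
  apply hu; funext j
  have := this j k
  rw [hk0] at this
  have hk' : v k ≠ 0 := hk
  simpa [hk'] using this

lemma dual {φ : Fin 12 → Fin 7 → ℝ} (h : Prp φ) (g : Fin 7 → Fin 12) (S : Finset (Fin 12))
    (hS : S.card = 5) (hg : ∀ i, i ∉ S → ∃ r, g r = i) :
    ∃ V A : Matrix (Fin 7) (Fin 7) ℝ, V * A = 1 ∧
      ∀ r l, φ (g r) ⬝ᵥ (fun j => V j l) = if r = l then 1 else 0 := by
  let A : Matrix (Fin 7) (Fin 7) ℝ := Matrix.of fun r => φ (g r)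
  have hA : IsUnit A := by
    rw [← Matrix.mulVec_injective_iff_isUnit]
    intro x y hxy
    have : x - y = 0 := spark h S hS _ (fun i hi => by
      obtain ⟨r, rfl⟩ := hg i hi
      have := congrFun hxy r
      simp only [Matrix.mulVec, A, Matrix.of_apply] at this
      rw [dotProduct_sub]; exact sub_eq_zero.2 this)
    exact sub_eq_zero.1 this
  have hd := (Matrix.isUnit_iff_isUnit_det A).1 hA
  refine ⟨A⁻¹, A, Matrix.nonsing_inv_mul A hd, fun r l => ?_⟩
  have := congrFun (congrFun (Matrix.mul_nonsing_inv A hd) r) l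
  rw [Matrix.one_apply] at this
  exact this

theorem not_prp (φ : Fin 12 → Fin 7 → ℝ) : ¬ Prp φ := by
  intro h
  obtain ⟨V0, -, -, hV0⟩ := dual h (fun r => ⟨r.val, by omega⟩) {7, 8, 9, 10, 11} (by decide)
    (by decide)
  let N : Matrix (Fin 7) (Fin 3) ℝ := fun j s => V0 j ⟨s.val + 4, by omega⟩
  have hN : ∀ (z : Fin 3 → ℝ) (r : Fin 7), φ ⟨r.val, by omega⟩ ⬝ᵥ (N *ᵥ z) =
      ∑ s : Fin 3, (if r = ⟨s.val + 4, by omega⟩ then 1 else 0) * z s := by
    intro z r
    rw [dotProduct_mulVec]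
    refine Finset.sum_congr rfl fun s _ => ?_
    rw [← hV0 r]; rfl
  let p : Fin 6 → Fin 3 × Fin 3 := ![(0, 0), (0, 1), (0, 2), (1, 1), (1, 2), (2, 2)]
  obtain ⟨w, hw0, hw⟩ := ex_ker (a := 6) (b := 7) (by norm_num)
    (Matrix.of fun r j => N j (p r).1 * N j (p r).2)
  have hQ : ∀ z : Fin 3 → ℝ, ∑ j, w j * (N *ᵥ z) j ^ 2 = 0 := by
    intro z
    have e : ∀ r, ∑ j, N j (p r).1 * N j (p r).2 * w j = 0 := fun r => congrFun hw r
    have e0 : ∑ j, N j 0 * N j 0 * w j = 0 := e 0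
    have e1 : ∑ j, N j 0 * N j 1 * w j = 0 := e 1
    have e2 : ∑ j, N j 0 * N j 2 * w j = 0 := e 2
    have e3 : ∑ j, N j 1 * N j 1 * w j = 0 := e 3
    have e4 : ∑ j, N j 1 * N j 2 * w j = 0 := e 4
    have e5 : ∑ j, N j 2 * N j 2 * w j = 0 := e 5
    simp only [Matrix.mulVec, dotProduct, Fin.sum_univ_three]
    simp only [Fin.sum_univ_seven] at e0 e1 e2 e3 e4 e5 ⊢
    linear_combination z 0 ^ 2 * e0 + 2 * z 0 * z 1 * e1 + 2 * z 0 * z 2 * e2 + z 1 ^ 2 * e3 +
      2 * z 1 * z 2 * e4 + z 2 ^ 2 * e5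
  have hC : ∀ (l m : Fin 12) (v : Fin 7 → ℝ),
      (∀ i : Fin 12, 4 ≤ i.val → i ≠ l → i ≠ m → φ i ⬝ᵥ v = 0) → ∑ j, w j * v j ^ 2 = 0 := by
    intro l m v hv
    obtain ⟨z, hz0, hz⟩ := ex_ker (a := 2) (b := 3) (by norm_num)
      (Matrix.of ![φ l ᵥ* N, φ m ᵥ* N])
    have hl : φ l ⬝ᵥ (N *ᵥ z) = 0 := by rw [dotProduct_mulVec]; exact congrFun hz 0
    have hm : φ m ⬝ᵥ (N *ᵥ z) = 0 := by rw [dotProduct_mulVec]; exact congrFun hz 1
    have hu : N *ᵥ z ≠ 0 := by
      intro h0; apply hz0; funext s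
      have := hN z ⟨s.val + 4, by omega⟩
      rw [h0, dotProduct_zero] at this
      rw [Finset.sum_eq_single s, if_pos rfl, one_mul] at this
      · exact this.symm
      · intro b _ hb
        rw [if_neg, zero_mul]
        intro hh; apply hb; have := congrArg Fin.val hh; simp only at this; ext; omega
      · intro hh; exact absurd (Finset.mem_univ _) hh
    obtain ⟨k, hk⟩ := Function.ne_iff.1 hu
    have hk' : (N *ᵥ z) k ≠ 0 := hk
    have hp := h (N *ᵥ z) v (fun i => by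
      by_cases h4 : 4 ≤ i.val
      · by_cases a : i = l
        · left; rw [a]; exact hl
        by_cases b : i = m
        · left; rw [b]; exact hm
        exact Or.inr (hv i h4 a b)
      · left
        have := hN z ⟨i.val, by omega⟩
        rw [this]
        apply Finset.sum_eq_zero; intro s _
        rw [if_neg, zero_mul]
        intro hh; have := congrArg Fin.val hh; simp only at this; omega)
    have : (N *ᵥ z) k ^ 2 * ∑ j, w j * v j ^ 2 = v k ^ 2 * ∑ j, w j * (N *ᵥ z) j ^ 2 := by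
      rw [Finset.mul_sum, Finset.mul_sum]
      refine Finset.sum_congr rfl fun j _ => ?_
      linear_combination (-w j) * hp j k
    rw [hQ, mul_zero] at this
    exact (mul_eq_zero.1 this).resolve_left (pow_ne_zero 2 hk')
  obtain ⟨V, A, hVA, hV⟩ := dual h (fun r => ⟨r.val + 4, by omega⟩) {0, 1, 2, 3, 11} (by decide)
    (by decide)
  have off : ∀ (l : Fin 7) (i : Fin 12), 4 ≤ i.val → i ≠ ⟨l.val + 4, by omega⟩ → i ≠ 11 →
      φ i ⬝ᵥ (fun j => V j l) = 0 := by
    intro l i h4 a b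
    have hb : i.val ≠ 11 := fun hh => b (Fin.ext hh)
    have ha : i.val ≠ l.val + 4 := fun hh => a (Fin.ext hh)
    have := hV ⟨i.val - 4, by omega⟩ l
    rw [if_neg (fun hh => by have := congrArg Fin.val hh; simp only at this; omega)] at this
    rw [← this]; congr 2; ext; simp only; omega
  have hc : ∀ l : Fin 7, φ 11 ⬝ᵥ (fun j => V j l) ≠ 0 := by
    intro l h0
    have hcard : ∀ l : Fin 7,
        ({0, 1, 2, 3, ⟨l.val + 4, by omega⟩} : Finset (Fin 12)).card = 5 := by decide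
    have := spark h {0, 1, 2, 3, ⟨l.val + 4, by omega⟩} (hcard l)
      (fun j => V j l) (fun i hi => by
        by_cases b : i = 11
        · rw [b]; exact h0
        simp only [Finset.mem_insert, Finset.mem_singleton, not_or] at hi
        refine off l i ?_ hi.2.2.2.2 b
        obtain ⟨a0, a1, a2, a3, -⟩ := hi
        simp only [Fin.ext_iff] at a0 a1 a2 a3
        have : i.val ≠ 0 := a0
        have : i.val ≠ 1 := a1
        have : i.val ≠ 2 := a2
        have : i.val ≠ 3 := a3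
        omega)
    have h1 := hV l l
    rw [this, dotProduct_zero, if_pos rfl] at h1
    exact zero_ne_one h1
  have hd : ∀ l : Fin 7, ∑ j, w j * V j l ^ 2 = 0 := fun l => hC _ 11 _ (off l)
  have hB : ∀ l m : Fin 7, ∑ j, V j l * w j * V j m = 0 := by
    intro l m
    set a := φ 11 ⬝ᵥ (fun j => V j l) with ha
    set b := φ 11 ⬝ᵥ (fun j => V j m) with hb
    by_cases e : l = m
    · rw [← hd l, ← e]; exact Finset.sum_congr rfl fun j _ => by ring
    have := hC ⟨l.val + 4, by omega⟩ ⟨m.val + 4, by omega⟩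
      (b • (fun j => V j l) - a • (fun j => V j m)) (fun i h4 h1 h2 => by
        rw [dotProduct_sub, dotProduct_smul, dotProduct_smul]
        by_cases c : i = 11
        · rw [c, ← ha, ← hb]; simp [mul_comm]
        · rw [off l i h4 h1 c, off m i h4 h2 c]; simp)
    have e2 : a * b * ∑ j, V j l * w j * V j m = 0 := by
      have d1 := hd l
      have d2 := hd m
      simp only [Pi.sub_apply, Pi.smul_apply, smul_eq_mul, Fin.sum_univ_seven] at this d1 d2 ⊢
      linear_combination (-1 / 2) * this + (b ^ 2 / 2) * d1 + (a ^ 2 / 2) * d2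
    exact (mul_eq_zero.1 e2).resolve_left (mul_ne_zero (hc l) (hc m))
  have hz : Vᵀ * Matrix.diagonal w * V = 0 := by
    ext l m
    rw [Matrix.mul_apply]
    simp only [Matrix.mul_diagonal, Matrix.transpose_apply]
    exact hB l m
  have : Matrix.diagonal w = 0 := by
    calc Matrix.diagonal w = (V * A)ᵀ * Matrix.diagonal w * (V * A) := by rw [hVA]; simp
      _ = Aᵀ * (Vᵀ * Matrix.diagonal w * V) * A := by
        rw [Matrix.transpose_mul]; simp only [Matrix.mul_assoc]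
      _ = 0 := by rw [hz]; simp
  apply hw0; funext j
  simpa using congrFun (congrFun this j) j

end Pool.Agent.H17.WP
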