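import Mathlib

set_option autoImplicit false

namespace Pool.Agent.H17.WeakSun

open Finset Complex

lemma normSq_mix (l0 l1 : ℝ) (h : l0 + l1 = 1) (z w : ℂ) :
    normSq (l0 * z + l1 * w) = l0 * normSq z + l1 * normSq w - l0 * l1 * normSq (z - w) := by
  have : l1 = 1 - l0 := by linarith
  subst this
  simp [normSq_apply]
  ring

lemma para (u v : ℂ) : normSq (u - v) ≤ 2 * (normSq u + normSq v) := by
  simp only [normSq_apply, sub_re, sub_im]
  nlinarith [sq_nonneg (u.re + v.re), sq_nonneg (u.im + v.im)]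

lemma pointwise (l0 l1 : ℝ) (h0 : 0 ≤ l0) (h1 : 0 ≤ l1) (h : l0 + l1 = 1) (ζ : ℂ)
    (hζ : normSq ζ = 1) (s : ℕ) (z w : ℂ) :
    normSq (l0 * z + l1 * w) ^ s + normSq (l0 * z + l1 * (ζ * w)) ^ s ≤
      (1 + (1 - l0 * l1 * (normSq (1 - ζ) / 4)) ^ s) *
        (l0 * normSq z ^ s + l1 * normSq w ^ s) := by
  set δ := normSq (1 - ζ) / 4 with hδ
  set Q := l0 * normSq z + l1 * normSq w with hQ
  have e0 := normSq_mix l0 l1 h z w
  have e1 := normSq_mix l0 l1 h z (ζ * w)
  rw [normSq_mul, hζ, one_mul] at e1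
  have p1 := para (z - ζ * w) (z - w)
  have p2 := para (z - ζ * w) (ζ * (z - w))
  rw [show z - ζ * w - (z - w) = (1 - ζ) * w by ring, normSq_mul] at p1
  rw [show z - ζ * w - ζ * (z - w) = (1 - ζ) * z by ring, normSq_mul, normSq_mul, hζ,
    one_mul] at p2
  have a0 := normSq_nonneg (z - w)
  have a1 := normSq_nonneg (z - ζ * w)
  have hl : 0 ≤ l0 * l1 := mul_nonneg h0 h1
  have key : 2 * (δ * Q) ≤ normSq (z - ζ * w) + normSq (z - w) := by
    have q1 := mul_le_mul_of_nonneg_left p1 h1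
    have q2 := mul_le_mul_of_nonneg_left p2 h0
    have : (l0 + l1) * (normSq (z - ζ * w) + normSq (z - w)) =
      normSq (z - ζ * w) + normSq (z - w) := by rw [h, one_mul]
    simp only [hδ, hQ]
    nlinarith
  have jensen : Q ^ s ≤ l0 * normSq z ^ s + l1 * normSq w ^ s := by
    have := (convexOn_pow (𝕜 := ℝ) s).2 (x := normSq z) (y := normSq w) (normSq_nonneg z)
      (normSq_nonneg w) h0 h1 h
    simpa using this
  have n0 := normSq_nonneg (l0 * z + l1 * w)
  have n1 := normSq_nonneg (l0 * z + l1 * (ζ * w))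
  have b0 : normSq (l0 * z + l1 * w) ^ s ≤ Q ^ s :=
    pow_le_pow_left₀ n0 (by rw [e0]; nlinarith [mul_nonneg hl a0]) s
  have b1 : normSq (l0 * z + l1 * (ζ * w)) ^ s ≤ Q ^ s :=
    pow_le_pow_left₀ n1 (by rw [e1]; nlinarith [mul_nonneg hl a1]) s
  have hδ1 : δ ≤ 1 := by
    have := para 1 ζ
    rw [hζ, normSq_one] at this
    simp only [hδ]; linarith
  have hδ0 : 0 ≤ δ := by simp only [hδ]; have := normSq_nonneg (1 - ζ); positivity
  have hr : 0 ≤ 1 - l0 * l1 * δ := by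
    have : l0 * l1 ≤ 1 := by nlinarith
    nlinarith
  have hrs : 0 ≤ (1 - l0 * l1 * δ) ^ s := pow_nonneg hr s
  have fin : Q ^ s + ((1 - l0 * l1 * δ) * Q) ^ s ≤
      (1 + (1 - l0 * l1 * δ) ^ s) * (l0 * normSq z ^ s + l1 * normSq w ^ s) := by
    rw [mul_pow]
    nlinarith [mul_le_mul_of_nonneg_left jensen hrs]
  rcases le_total (normSq (z - w)) (normSq (z - ζ * w)) with c | c
  · have : normSq (l0 * z + l1 * (ζ * w)) ^ s ≤ ((1 - l0 * l1 * δ) * Q) ^ s := by
      refine pow_le_pow_left₀ n1 ?_ s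
      rw [e1]
      nlinarith [mul_le_mul_of_nonneg_left (show δ * Q ≤ normSq (z - ζ * w) by linarith) hl]
    linarith
  · have : normSq (l0 * z + l1 * w) ^ s ≤ ((1 - l0 * l1 * δ) * Q) ^ s := by
      refine pow_le_pow_left₀ n0 ?_ s
      rw [e0]
      nlinarith [mul_le_mul_of_nonneg_left (show δ * Q ≤ normSq (z - w) by linarith) hl]
    linarith

lemma factor_le (r0 r1 δ : ℝ) (h0 : 0 ≤ r0) (h1 : 0 ≤ r1) (h : r0 ^ 2 + r1 ^ 2 = 1) (s : ℕ)
    (hδ1 : δ ≤ 1) (hs : 100 ≤ s * δ) :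
    (1 + (1 - r0 ^ 2 * r1 ^ 2 * δ) ^ s) * (r0 + r1) ≤ 11 / 5 := by
  have hδ0 : 0 ≤ δ := by
    by_contra hc
    have : (s : ℝ) * δ ≤ 0 := mul_nonpos_of_nonneg_of_nonpos (by positivity) (by linarith)
    linarith
  set u := r0 * r1 with hu
  have u0 : 0 ≤ u := mul_nonneg h0 h1
  have u1 : u ≤ 1 / 2 := by nlinarith [sq_nonneg (r0 - r1)]
  have e : r0 ^ 2 * r1 ^ 2 = u ^ 2 := by rw [hu]; ring
  rw [e]
  have x0 : 0 ≤ u ^ 2 * δ := by positivity
  have x1 : u ^ 2 * δ ≤ 1 / 4 := by nlinarith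
  have sq : (r0 + r1) ^ 2 = 1 + 2 * u := by rw [hu]; linarith
  have p0 : 0 ≤ (1 - u ^ 2 * δ) ^ s := pow_nonneg (by linarith) s
  by_cases hc : u ≤ 1 / 10
  · have a1 : (1 - u ^ 2 * δ) ^ s ≤ 1 := pow_le_one₀ (by linarith) (by linarith)
    have a2 : r0 + r1 ≤ 11 / 10 := by nlinarith
    nlinarith
  · have a2 : r0 + r1 ≤ 22 / 15 := by nlinarith
    have a1 : (1 - u ^ 2 * δ) ^ s ≤ 1 / 2 := by
      have b1 : 1 + (s : ℝ) * (u ^ 2 * δ) ≤ (1 + u ^ 2 * δ) ^ s :=
        one_add_mul_le_pow (by linarith) s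
      have b2 : (1 - u ^ 2 * δ) ^ s * (1 + u ^ 2 * δ) ^ s ≤ 1 := by
        rw [← mul_pow]
        exact pow_le_one₀ (by nlinarith) (by nlinarith)
      have b3 : 1 ≤ (s : ℝ) * (u ^ 2 * δ) := by
        have : 1 / 100 ≤ u ^ 2 := by nlinarith
        nlinarith
      nlinarith
    nlinarith

variable {α : Type} [DecidableEq α]

/-- exponential sum of intersection sizes -/
noncomputable def S (ζ : ℂ) (B : Finset (Finset α)) (x : Finset α) : ℂ :=
  ∑ y ∈ B, ζ ^ (x ∩ y).card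

lemma sum_split (a : α) (B : Finset (Finset α)) (f : Finset α → ℂ) :
    ∑ y ∈ B, f y = ∑ y ∈ B.nonMemberSubfamily a, f y +
      ∑ y ∈ B.memberSubfamily a, f (insert a y) := by
  rw [← sum_filter_add_sum_filter_not B (fun y => a ∉ y)]
  congr 1
  symm
  refine sum_bij (fun y _ => insert a y) ?_ ?_ ?_ (fun _ _ => rfl)
  · intro y hy
    rw [mem_memberSubfamily] at hy
    simp [hy.1]
  · intro y hy z hz h
    rw [mem_memberSubfamily] at hy hz
    rw [← erase_insert hy.2, h, erase_insert hz.2]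
  · intro y hy
    simp only [mem_filter, not_not] at hy
    refine ⟨y.erase a, ?_, insert_erase hy.2⟩
    rw [mem_memberSubfamily, insert_erase hy.2]
    exact ⟨hy.1, notMem_erase a y⟩

theorem moment (ζ : ℂ) (hζ : normSq ζ = 1) (s : ℕ) (hs : 100 ≤ s * (normSq (1 - ζ) / 4))
    (U : Finset α) : ∀ B : Finset (Finset α), B ⊆ U.powerset →
      (∑ x ∈ U.powerset, normSq (S ζ B x) ^ s) * √B.card ≤
        (11 / 5) ^ U.card * (B.card : ℝ) ^ (2 * s) := by
  have hs0 : s ≠ 0 := by rintro rfl; norm_num at hs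
  induction U using Finset.induction_on with
  | empty =>
    intro B hB
    rw [powerset_empty, subset_singleton_iff] at hB
    rcases hB with rfl | rfl <;> simp [S]
  | insert a U ha ih =>
    intro B hB
    set B0 := B.nonMemberSubfamily a with hB0
    set B1 := B.memberSubfamily a with hB1
    have s0 : B0 ⊆ U.powerset := by
      intro y hy
      rw [mem_nonMemberSubfamily] at hy
      have := mem_powerset.mp (hB hy.1)
      exact mem_powerset.mpr ((subset_insert_iff_of_notMem hy.2).mp this)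
    have s1 : B1 ⊆ U.powerset := by
      intro y hy
      rw [mem_memberSubfamily] at hy
      have := (subset_insert a y).trans (mem_powerset.mp (hB hy.1))
      exact mem_powerset.mpr ((subset_insert_iff_of_notMem hy.2).mp this)
    have i0 := ih B0 s0
    have i1 := ih B1 s1
    have hc : (B.card : ℝ) = B0.card + B1.card := by
      have := card_memberSubfamily_add_card_nonMemberSubfamily a B
      rw [← this]; push_cast; ring
    have e0 : ∀ x ∈ U.powerset, S ζ B x = S ζ B0 x + S ζ B1 x := by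
      intro x hx
      have hax : a ∉ x := fun h => ha (mem_powerset.mp hx h)
      unfold S
      rw [sum_split a B]
      simp only [inter_insert_of_notMem hax]
      rfl
    have e1 : ∀ x ∈ U.powerset, S ζ B (insert a x) = S ζ B0 x + ζ * S ζ B1 x := by
      intro x hx
      have hax : a ∉ x := fun h => ha (mem_powerset.mp hx h)
      unfold S
      rw [sum_split a B, mul_sum]
      congr 1
      · refine sum_congr rfl fun y hy => ?_
        rw [insert_inter_of_notMem (mem_nonMemberSubfamily.mp hy).2]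
      · refine sum_congr rfl fun y hy => ?_
        rw [insert_inter_of_mem (mem_insert_self a y), inter_insert_of_notMem hax,
          card_insert_of_notMem (fun h => hax (mem_inter.mp h).1), pow_succ']
    rw [sum_powerset_insert ha, card_insert_of_notMem ha, sum_congr rfl (fun x hx => by rw [e0 x hx]),
      sum_congr rfl (f := fun x => normSq (S ζ B (insert a x)) ^ s) (fun x hx => by rw [e1 x hx])]
    have K0 : (0 : ℝ) ≤ (11 / 5) ^ U.card := by positivity
    by_cases z1 : B1 = ∅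
    · have : (B.card : ℝ) = B0.card := by rw [hc, z1, card_empty, Nat.cast_zero, add_zero]
      rw [this]
      simp only [z1, S, sum_empty, add_zero, mul_zero] at i0 ⊢
      have : (0 : ℝ) ≤ (11 / 5) ^ U.card * (B0.card : ℝ) ^ (2 * s) :=
        mul_nonneg K0 (pow_nonneg (Nat.cast_nonneg _) _)
      rw [pow_succ]
      linarith
    by_cases z0 : B0 = ∅
    · have : (B.card : ℝ) = B1.card := by rw [hc, z0, card_empty, Nat.cast_zero, zero_add]
      rw [this]
      simp only [z0, S, sum_empty, zero_add, normSq_mul, hζ, one_mul] at i1 ⊢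
      have : (0 : ℝ) ≤ (11 / 5) ^ U.card * (B1.card : ℝ) ^ (2 * s) :=
        mul_nonneg K0 (pow_nonneg (Nat.cast_nonneg _) _)
      rw [pow_succ]
      linarith
    have b0 : (0 : ℝ) < B0.card := by exact_mod_cast card_pos.mpr (nonempty_iff_ne_empty.mpr z0)
    have b1 : (0 : ℝ) < B1.card := by exact_mod_cast card_pos.mpr (nonempty_iff_ne_empty.mpr z1)
    generalize (B0.card : ℝ) = c0 at *
    generalize (B1.card : ℝ) = c1 at *
    generalize (B.card : ℝ) = c at *
    have b : 0 < c := by linarith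
    set r0 := √(c0 / c) with hr0
    set r1 := √(c1 / c) with hr1
    have q0 : r0 ^ 2 = c0 / c := Real.sq_sqrt (by positivity)
    have q1 : r1 ^ 2 = c1 / c := Real.sq_sqrt (by positivity)
    have q2 : r0 ^ 2 + r1 ^ 2 = 1 := by rw [q0, q1, hc]; field_simp
    have hδ1 : normSq (1 - ζ) / 4 ≤ 1 := by
      have := para 1 ζ
      rw [hζ, normSq_one] at this
      linarith
    have fac := factor_le r0 r1 _ (Real.sqrt_nonneg _) (Real.sqrt_nonneg _) q2 s hδ1 hs
    set F := 1 + (1 - r0 ^ 2 * r1 ^ 2 * (normSq (1 - ζ) / 4)) ^ s with hF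
    have F0 : 0 ≤ F := by
      have : r0 ^ 2 * r1 ^ 2 ≤ 1 := by nlinarith [sq_nonneg r0, sq_nonneg r1]
      have h2 : 0 ≤ normSq (1 - ζ) / 4 := by have := normSq_nonneg (1 - ζ); positivity
      have h3 : 0 ≤ 1 - r0 ^ 2 * r1 ^ 2 * (normSq (1 - ζ) / 4) := by nlinarith
      positivity
    have pt : ∀ x ∈ U.powerset, normSq (S ζ B0 x + S ζ B1 x) ^ s +
        normSq (S ζ B0 x + ζ * S ζ B1 x) ^ s ≤
        c ^ (2 * s) * F * (r0 ^ 2 / c0 ^ (2 * s) * normSq (S ζ B0 x) ^ s +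
          r1 ^ 2 / c1 ^ (2 * s) * normSq (S ζ B1 x) ^ s) := by
      intro x _
      have := pointwise (r0 ^ 2) (r1 ^ 2) (sq_nonneg _) (sq_nonneg _) q2 ζ hζ s
        (S ζ B0 x / c0) (S ζ B1 x / c1)
      have cc : (c : ℂ) ≠ 0 := by exact_mod_cast b.ne'
      have cc0 : (c0 : ℂ) ≠ 0 := by exact_mod_cast b0.ne'
      have cc1 : (c1 : ℂ) ≠ 0 := by exact_mod_cast b1.ne'
      have t0 : ((r0 ^ 2 : ℝ) : ℂ) * (S ζ B0 x / c0) + ((r1 ^ 2 : ℝ) : ℂ) * (S ζ B1 x / c1) =
          (S ζ B0 x + S ζ B1 x) / c := by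
        rw [q0, q1]; push_cast; field_simp
      have t1 : ((r0 ^ 2 : ℝ) : ℂ) * (S ζ B0 x / c0) + ((r1 ^ 2 : ℝ) : ℂ) * (ζ * (S ζ B1 x / c1)) =
          (S ζ B0 x + ζ * S ζ B1 x) / c := by
        rw [q0, q1]; push_cast; field_simp
      rw [t0, t1, ← hF] at this
      simp only [normSq_div, normSq_ofReal, div_pow, ← sq, ← pow_mul] at this
      rw [← add_div, div_le_iff₀ (by positivity)] at this
      refine this.trans (le_of_eq ?_)
      ring
    have tot := sum_le_sum pt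
    rw [← mul_sum, sum_add_distrib, sum_add_distrib, ← mul_sum, ← mul_sum] at tot
    generalize ∑ x ∈ U.powerset, normSq (S ζ B0 x) ^ s = P0 at *
    generalize ∑ x ∈ U.powerset, normSq (S ζ B1 x) ^ s = P1 at *
    have w0 : r0 * √c = √c0 := by
      rw [hr0, ← Real.sqrt_mul (by positivity)]; congr 1; field_simp
    have w1 : r1 * √c = √c1 := by
      rw [hr1, ← Real.sqrt_mul (by positivity)]; congr 1; field_simp
    have v0 : r0 ^ 2 / c0 ^ (2 * s) * P0 * √c ≤ r0 * (11 / 5) ^ U.card := by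
      have : r0 ^ 2 / c0 ^ (2 * s) * P0 * √c = r0 * (P0 * √c0 / c0 ^ (2 * s)) := by
        rw [← w0]; ring
      rw [this]
      refine mul_le_mul_of_nonneg_left ?_ (Real.sqrt_nonneg _)
      rw [div_le_iff₀ (by positivity)]; exact i0
    have v1 : r1 ^ 2 / c1 ^ (2 * s) * P1 * √c ≤ r1 * (11 / 5) ^ U.card := by
      have : r1 ^ 2 / c1 ^ (2 * s) * P1 * √c = r1 * (P1 * √c1 / c1 ^ (2 * s)) := by
        rw [← w1]; ring
      rw [this]
      refine mul_le_mul_of_nonneg_left ?_ (Real.sqrt_nonneg _)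
      rw [div_le_iff₀ (by positivity)]; exact i1
    refine (mul_le_mul_of_nonneg_right tot (Real.sqrt_nonneg _)).trans ?_
    have cs : 0 ≤ c ^ (2 * s) := by positivity
    calc c ^ (2 * s) * F * (r0 ^ 2 / c0 ^ (2 * s) * P0 + r1 ^ 2 / c1 ^ (2 * s) * P1) * √c
        = c ^ (2 * s) * F * (r0 ^ 2 / c0 ^ (2 * s) * P0 * √c +
            r1 ^ 2 / c1 ^ (2 * s) * P1 * √c) := by ring
      _ ≤ c ^ (2 * s) * F * (r0 * (11 / 5) ^ U.card + r1 * (11 / 5) ^ U.card) :=
          mul_le_mul_of_nonneg_left (add_le_add v0 v1) (mul_nonneg cs F0)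
      _ = (F * (r0 + r1)) * ((11 / 5) ^ U.card * c ^ (2 * s)) := by ring
      _ ≤ 11 / 5 * ((11 / 5) ^ U.card * c ^ (2 * s)) :=
          mul_le_mul_of_nonneg_right fac (by positivity)
      _ = _ := by ring

lemma root_far (ζ : ℂ) (hζ : ‖ζ‖ = 1) (d : ℕ) (hd : 0 < d) (h1 : ζ ^ d = 1) (h2 : ζ ≠ 1) :
    1 ≤ (d : ℝ) ^ 2 * normSq (1 - ζ) := by
  have a1 : ∀ i : ℕ, ‖1 - ζ ^ i‖ ≤ i * ‖1 - ζ‖ := by
    intro i
    induction i with
    | zero => simp
    | succ i ih =>
      have : 1 - ζ ^ (i + 1) = (1 - ζ) + ζ * (1 - ζ ^ i) := by ring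
      rw [this]
      refine (norm_add_le _ _).trans ?_
      rw [norm_mul, hζ]
      push_cast
      linarith
  have a2 : ∑ i ∈ range d, ζ ^ i = 0 := by
    have := geom_sum_mul ζ d
    rw [h1, sub_self] at this
    exact (mul_eq_zero.mp this).resolve_right (sub_ne_zero.mpr h2)
  have a3 : ∑ i ∈ range d, (1 - ζ ^ i) = d := by
    rw [sum_sub_distrib, a2]; simp
  have a4 : (d : ℝ) ≤ d * (d * ‖1 - ζ‖) := by
    have h3 := norm_sum_le (range d) (fun i => 1 - ζ ^ i)
    rw [a3, Complex.norm_natCast] at h3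
    refine h3.trans ?_
    refine (sum_le_sum (g := fun _ => d * ‖1 - ζ‖) fun i hi => ?_).trans (by simp)
    refine (a1 i).trans (mul_le_mul_of_nonneg_right ?_ (norm_nonneg _))
    exact_mod_cast (mem_range.mp hi).le
  have hd' : (0 : ℝ) < d := by exact_mod_cast hd
  have a5 : 1 ≤ d * ‖1 - ζ‖ := by
    by_contra hc
    nlinarith
  rw [normSq_eq_norm_sq]
  nlinarith

lemma exp_small (ζ : ℂ) (hζ : ‖ζ‖ = 1) (d : ℕ) (hd : 0 < d) (h1 : ζ ^ d = 1) (h2 : ζ ≠ 1)
    (U : Finset α) (A : Finset (Finset α)) (hA : A ⊆ U.powerset) (hA0 : 0 < A.card)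
    (big : (11 / 5 : ℝ) ^ U.card * (4 * d) ^ (800 * d ^ 2 + 1) ≤ A.card * √A.card) :
    ‖∑ x ∈ A, S ζ A x‖ ≤ (A.card : ℝ) ^ 2 / (2 * d) := by
  have hd' : (0 : ℝ) < d := by exact_mod_cast hd
  have ha : (0 : ℝ) < A.card := by exact_mod_cast hA0
  have far := root_far ζ hζ d hd h1 h2
  have mom := moment ζ (by rw [normSq_eq_norm_sq, hζ]; norm_num) (400 * d ^ 2)
    (by push_cast; linarith) U A hA
  set t : ℝ := A.card / (4 * d) with ht
  have t0 : 0 < t := by positivity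
  set Bad := A.filter (fun x => t < ‖S ζ A x‖) with hBad
  have b1 : (Bad.card : ℝ) * t ^ (800 * d ^ 2) ≤
      ∑ x ∈ U.powerset, normSq (S ζ A x) ^ (400 * d ^ 2) := by
    refine le_trans ?_ (sum_le_sum_of_subset_of_nonneg ((filter_subset _ A).trans hA)
      (s := Bad) fun x _ _ => pow_nonneg (normSq_nonneg _) _)
    rw [← nsmul_eq_mul, ← sum_const]
    refine sum_le_sum fun x hx => ?_
    rw [normSq_eq_norm_sq, ← pow_mul, show 2 * (400 * d ^ 2) = 800 * d ^ 2 by ring]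
    exact pow_le_pow_left₀ t0.le (mem_filter.mp hx).2.le _
  have b2 : (Bad.card : ℝ) ≤ t := by
    rw [show 2 * (400 * d ^ 2) = 800 * d ^ 2 by ring] at mom
    have c1 := (mul_le_mul_of_nonneg_right b1 (Real.sqrt_nonneg (A.card : ℝ))).trans mom
    have sq0 : 0 < √(A.card : ℝ) := Real.sqrt_pos.mpr ha
    rw [pow_succ] at big
    rw [ht, div_pow] at c1
    rw [ht, le_div_iff₀ (by positivity)]
    generalize 800 * d ^ 2 = N at *
    have p1 : (0 : ℝ) < (4 * d) ^ N := by positivity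
    have p2 : (0 : ℝ) < (A.card : ℝ) ^ N := by positivity
    have c2 : (Bad.card : ℝ) * √(A.card : ℝ) ≤ (11 / 5) ^ U.card * (4 * d) ^ N := by
      have : (Bad.card : ℝ) * √(A.card : ℝ) =
        (Bad.card * ((A.card : ℝ) ^ N / (4 * d) ^ N) * √(A.card : ℝ)) *
          ((4 * d) ^ N / (A.card : ℝ) ^ N) := by field_simp
      rw [this]
      refine (mul_le_mul_of_nonneg_right c1 (by positivity)).trans (le_of_eq ?_)
      field_simp
    have c3 := mul_le_mul_of_nonneg_right c2 (by positivity : (0 : ℝ) ≤ 4 * d)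
    refine le_of_mul_le_mul_right ?_ sq0
    nlinarith
  have triv : ∀ x, ‖S ζ A x‖ ≤ A.card := by
    intro x
    refine (norm_sum_le _ _).trans ?_
    simp [hζ]
  refine (norm_sum_le _ _).trans ?_
  have : ∀ x ∈ A, ‖S ζ A x‖ ≤ t + if t < ‖S ζ A x‖ then (A.card : ℝ) else 0 := by
    intro x _
    split_ifs with h
    · linarith [triv x]
    · linarith
  refine (sum_le_sum this).trans ?_
  rw [sum_add_distrib, ← sum_filter, ← hBad]
  simp only [sum_const, nsmul_eq_mul]
  have e : (A.card : ℝ) ^ 2 / (2 * d) = A.card * t + t * A.card := by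
    rw [ht]; field_simp; ring
  rw [e]
  nlinarith

lemma count_dvd (d : ℕ) (hd : 0 < d)
    (U : Finset α) (A : Finset (Finset α)) (hA : A ⊆ U.powerset) (hA0 : 0 < A.card)
    (big : (11 / 5 : ℝ) ^ U.card * (4 * d) ^ (800 * d ^ 2 + 1) ≤ A.card * √A.card) :
    (A.card : ℝ) ^ 2 / (2 * d) ≤ ∑ x ∈ A, ((A.filter (fun y => d ∣ (x ∩ y).card)).card : ℝ) := by
  have : NeZero d := ⟨hd.ne'⟩
  have hd' : (0 : ℝ) < d := by exact_mod_cast hd
  set N : ℝ := ∑ x ∈ A, ((A.filter (fun y => d ∣ (x ∩ y).card)).card : ℝ) with hN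
  have e1 : ((d * N : ℝ) : ℂ) = ∑ j : ZMod d, ∑ x ∈ A, S (ZMod.stdAddChar j) A x := by
    rw [sum_comm, hN]
    push_cast
    rw [mul_sum]
    refine sum_congr rfl fun x _ => ?_
    unfold S
    rw [sum_comm, card_filter]
    push_cast
    rw [mul_sum]
    refine sum_congr rfl fun y _ => ?_
    have := AddChar.sum_mulShift ((x ∩ y).card : ZMod d) (ZMod.isPrimitive_stdAddChar d)
    simp only [← AddChar.map_nsmul_eq_pow, nsmul_eq_mul, mul_comm ((x ∩ y).card : ZMod d)]
    rw [this]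
    simp only [ZMod.natCast_eq_zero_iff]
    split_ifs <;> simp [ZMod.card]
  rw [← add_sum_erase _ _ (mem_univ (0 : ZMod d))] at e1
  have e2 : ∑ x ∈ A, S (ZMod.stdAddChar (0 : ZMod d)) A x = (((A.card : ℝ) ^ 2 : ℝ) : ℂ) := by
    simp [S, sq]
  have e3 : ‖∑ j ∈ univ.erase (0 : ZMod d), ∑ x ∈ A, S (ZMod.stdAddChar j) A x‖ ≤
      d * ((A.card : ℝ) ^ 2 / (2 * d)) := by
    refine (norm_sum_le _ _).trans ?_
    refine (sum_le_sum (g := fun _ => (A.card : ℝ) ^ 2 / (2 * d)) fun j hj => ?_).trans ?_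
    · refine exp_small _ (AddChar.norm_apply _ _) d hd ?_ ?_ U A hA hA0 big
      · rw [← AddChar.map_nsmul_eq_pow]; simp
      · intro h
        apply (mem_erase.mp hj).1
        apply ZMod.injective_stdAddChar
        rw [h, AddChar.map_zero_eq_one]
    · rw [sum_const, nsmul_eq_mul]
      refine mul_le_mul_of_nonneg_right ?_ (by positivity)
      have := card_erase_le (s := (univ : Finset (ZMod d))) (a := 0)
      rw [card_univ, ZMod.card] at this
      exact_mod_cast this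
  rw [e2, ← sub_eq_iff_eq_add'] at e1
  rw [← e1, ← Complex.ofReal_sub, Complex.norm_real, Real.norm_eq_abs] at e3
  have e4 := (abs_le.mp e3).1
  have e5 : (d : ℝ) * ((A.card : ℝ) ^ 2 / (2 * d)) = (A.card : ℝ) ^ 2 / 2 := by field_simp
  rw [e5] at e4
  rw [div_le_iff₀ (by positivity)]
  linarith

lemma step (d : ℕ) (hd : 0 < d) (U : Finset α) (hdn : d ≤ U.card)
    (A : Finset (Finset α)) (hA : A ⊆ U.powerset) (hA0 : 4 * d ≤ A.card)
    (big : (11 / 5 : ℝ) ^ U.card * (4 * d) ^ (800 * d ^ 2 + 1) ≤ A.card * √A.card) :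
    ∃ x ∈ A, ∃ t ≤ U.card / d, A.card ≤
      8 * U.card * ((A.erase x).filter (fun y => (x ∩ y).card = d * t)).card := by
  have hd' : (0 : ℝ) < d := by exact_mod_cast hd
  have h1 := count_dvd d hd U A hA (by omega) big
  obtain ⟨x, hx, h2⟩ : ∃ x ∈ A, (A.card : ℝ) / (2 * d) ≤
      ((A.filter (fun y => d ∣ (x ∩ y).card)).card : ℝ) := by
    refine exists_le_of_sum_le (card_pos.mp (by omega)) (le_trans (le_of_eq ?_) h1)
    rw [sum_const, nsmul_eq_mul]
    ring
  rw [div_le_iff₀ (by positivity)] at h2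
  have h3 : A.card ≤ (A.filter (fun y => d ∣ (x ∩ y).card)).card * (2 * d) := by exact_mod_cast h2
  set G := (A.erase x).filter (fun y => d ∣ (x ∩ y).card) with hG
  have h4 : (A.filter (fun y => d ∣ (x ∩ y).card)).card ≤ G.card + 1 := by
    rw [hG, filter_erase]
    exact le_trans (by omega) (Nat.add_le_add_right pred_card_le_card_erase 1)
  have h5 : A.card ≤ 4 * d * G.card := by nlinarith
  refine ⟨x, hx, ?_⟩
  by_contra hc
  push Not at hc
  have h6 : G.card = ∑ t ∈ range (U.card / d + 1),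
      ((A.erase x).filter (fun y => (x ∩ y).card = d * t)).card := by
    rw [card_eq_sum_card_fiberwise (f := fun y => (x ∩ y).card / d) (t := range (U.card / d + 1))]
    · refine sum_congr rfl fun t _ => ?_
      congr 1
      ext y
      simp only [hG, mem_filter, and_assoc]
      refine and_congr_right fun _ => ⟨?_, ?_⟩
      · rintro ⟨⟨c, hc⟩, h⟩
        rw [hc, Nat.mul_div_cancel_left _ hd] at h
        rw [hc, h]
      · intro h
        exact ⟨⟨t, h⟩, by rw [h, Nat.mul_div_cancel_left _ hd]⟩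
    · intro y _
      simp only [coe_range, Set.mem_Iio]
      have : (x ∩ y).card ≤ U.card :=
        card_le_card (inter_subset_left.trans (mem_powerset.mp (hA hx)))
      exact Nat.lt_succ_of_le (Nat.div_le_div_right this)
  have h7 : 8 * U.card * G.card < (U.card / d + 1) * A.card := by
    rw [h6, mul_sum]
    refine (sum_lt_sum_of_nonempty (g := fun _ => A.card) (by simp) fun t ht => ?_).trans_eq ?_
    · exact hc t (Nat.lt_succ_iff.mp (mem_range.mp ht))
    · simp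
  have h8 : U.card / d * d ≤ U.card := Nat.div_mul_le_self _ _
  have h9 := Nat.mul_le_mul_left (U.card / d + 1) h5
  have h10 : (U.card / d + 1) * (4 * d) ≤ 8 * U.card := by nlinarith
  have h11 := Nat.mul_le_mul_right G.card h10
  nlinarith

lemma chain (d : ℕ) (hd : 0 < d) (U : Finset α) (hdn : d ≤ U.card) (M : ℕ) (hM : 4 * d ≤ M)
    (big : (11 / 5 : ℝ) ^ U.card * (4 * d) ^ (800 * d ^ 2 + 1) ≤ M * √M) (m : ℕ) :
    ∀ A : Finset (Finset α), A ⊆ U.powerset → M * (8 * U.card) ^ m ≤ A.card →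
      ∃ T ⊆ A, T.card = m ∧ ∃ c : Finset α → ℕ, (∀ x ∈ T, c x ≤ U.card / d) ∧
        ∀ x ∈ T, ∀ y ∈ T, x ≠ y → (x ∩ y).card = d * c x ∨ (x ∩ y).card = d * c y := by
  induction m with
  | zero => intro A _ _; exact ⟨∅, empty_subset _, rfl, fun _ => 0, by simp, by simp⟩
  | succ m ih =>
    intro A hA hc
    have hn : 0 < 8 * U.card := by omega
    have hMA : M ≤ A.card := le_trans (Nat.le_mul_of_pos_right _ (by positivity)) hc
    have hMA' : (M : ℝ) ≤ A.card := by exact_mod_cast hMA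
    obtain ⟨x, hx, t, ht, h⟩ := step d hd U hdn A hA (by omega) (big.trans
      (mul_le_mul hMA' (Real.sqrt_le_sqrt hMA') (Real.sqrt_nonneg _) (by positivity)))
    set A' := (A.erase x).filter (fun y => (x ∩ y).card = d * t) with hA'
    have sub : A' ⊆ A := (filter_subset _ _).trans (erase_subset _ _)
    obtain ⟨T, T1, T2, c, c1, c2⟩ := ih A' (sub.trans hA) (by
      refine Nat.le_of_mul_le_mul_left (le_trans (le_of_eq ?_) (hc.trans h)) hn
      ring)
    have hxT : x ∉ T := fun h => by simpa [hA'] using T1 h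
    have hT : ∀ y ∈ T, (x ∩ y).card = d * t := fun y hy => (mem_filter.mp (T1 hy)).2
    have hne : ∀ y ∈ T, y ≠ x := fun y hy h => hxT (h ▸ hy)
    refine ⟨insert x T, insert_subset hx (T1.trans sub), by rw [card_insert_of_notMem hxT, T2],
      fun y => if y = x then t else c y, ?_, ?_⟩
    · intro y hy
      rcases mem_insert.mp hy with rfl | hy
      · simpa using ht
      · simpa [hne y hy] using c1 y hy
    · intro y hy z hz hyz
      rcases mem_insert.mp hy with rfl | hy'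
      · rcases mem_insert.mp hz with rfl | hz'
        · exact absurd rfl hyz
        · left; simpa using hT z hz'
      · rcases mem_insert.mp hz with rfl | hz'
        · right; rw [inter_comm]; simpa using hT y hy'
        · simpa [hne y hy', hne z hz'] using c2 y hy' z hz' hyz

theorem sunflower (k d : ℕ) (hd : 0 < d) (U : Finset α) (hdn : d ≤ U.card) (M : ℕ)
    (hM : 4 * d ≤ M) (big : (11 / 5 : ℝ) ^ U.card * (4 * d) ^ (800 * d ^ 2 + 1) ≤ M * √M)
    (A : Finset (Finset α)) (hA : A ⊆ U.powerset)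
    (hc : M * (8 * U.card) ^ ((U.card / d + 1) * k) ≤ A.card) :
    ∃ T ⊆ A, T.card = k ∧ ∃ m : ℕ, ∀ x ∈ T, ∀ y ∈ T, x ≠ y → (x ∩ y).card = m := by
  obtain ⟨T, T1, T2, c, c1, c2⟩ := chain d hd U hdn M hM big _ A hA hc
  obtain ⟨t, -, ht⟩ := exists_le_card_fiber_of_mul_le_card_of_maps_to (s := T)
    (t := range (U.card / d + 1)) (f := c) (n := k)
    (fun x hx => mem_range.mpr (Nat.lt_succ_of_le (c1 x hx))) (by simp) (by simp [T2])
  obtain ⟨T', h1, h2⟩ := exists_subset_card_eq ht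
  refine ⟨T', h1.trans ((filter_subset _ _).trans T1), h2, d * t, fun x hx y hy hxy => ?_⟩
  have hx' := mem_filter.mp (h1 hx)
  have hy' := mem_filter.mp (h1 hy)
  rcases c2 x hx'.1 y hy'.1 hxy with h | h
  · rw [h, hx'.2]
  · rw [h, hy'.2]

lemma cube_le (C : ℕ) : ∃ l0 : ℕ, ∀ l, l0 ≤ l → C * (l + 4) ^ 3 ≤ 2 ^ l := by
  have h := tendsto_pow_const_div_const_pow_of_one_lt 3 (r := 2) (by norm_num)
  have h2 := h.eventually (gt_mem_nhds (show (0 : ℝ) < 1 / (16 * C + 1) by positivity))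
  obtain ⟨l0, h3⟩ := Filter.eventually_atTop.mp h2
  refine ⟨l0, fun l hl => ?_⟩
  have := h3 (l + 4) (by omega)
  rw [div_lt_div_iff₀ (by positivity) (by positivity)] at this
  have h4 : (l + 4) ^ 3 * (16 * C + 1) < 1 * 2 ^ (l + 4) := by exact_mod_cast this
  rw [pow_add] at h4
  nlinarith [Nat.zero_le ((l + 4) ^ 3)]

theorem main (k : ℕ) (hk : 3 ≤ k) : ∃ N : ℕ, ∀ (β : Type) [DecidableEq β] (U : Finset β),
    N ≤ U.card → ∀ A : Finset (Finset β), A ⊆ U.powerset → (1.99 : ℝ) ^ U.card ≤ A.card →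
      ∃ T ⊆ A, T.card = k ∧ ∃ m : ℕ, ∀ x ∈ T, ∀ y ∈ T, x ≠ y → (x ∩ y).card = m := by
  obtain ⟨l0, hl0⟩ := cube_le (4005 * (64 * k) ^ 3)
  refine ⟨2 ^ l0, fun β _ U hU A hA hc => ?_⟩
  set n := U.card with hn
  have n0 : n ≠ 0 := by have : 0 < 2 ^ l0 := by positivity
                        omega
  set l := Nat.log 2 n with hl
  have l1 : l0 ≤ l := (Nat.le_log_iff_pow_le (by norm_num) n0).mpr hU
  have l2 : 2 ^ l ≤ n := Nat.pow_log_le_self 2 n0
  have l3 : n < 2 ^ (l + 1) := Nat.lt_pow_succ_log_self (by norm_num) n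
  set d := 64 * k * (l + 4) with hd
  have d1 : 4005 * d ^ 3 ≤ n := by
    have := hl0 l l1
    rw [hd, mul_pow (64 * k)]
    linarith
  have d2 : 8 ≤ d := by nlinarith
  have d3 : d ≤ d ^ 3 := Nat.le_self_pow (by norm_num) d
  set M := ⌈(1.9 : ℝ) ^ n⌉₊ with hM
  have M1 : (1.9 : ℝ) ^ n ≤ M := Nat.le_ceil _
  have M0 : (1 : ℝ) ≤ 1.9 ^ n := one_le_pow₀ (by norm_num)
  have M2 : (M : ℝ) ≤ 2 * 1.9 ^ n := by
    have : (M : ℝ) < 1.9 ^ n + 1 := Nat.ceil_lt_add_one (by positivity)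
    calc (M : ℝ) ≤ 1.9 ^ n + 1 := this.le
      _ ≤ 1.9 ^ n + 1.9 ^ n := by gcongr
      _ = _ := by ring
  refine sunflower k d (by omega) U (by omega) M ?_ ?_ A hA ?_
  · have b : 1 + (n : ℝ) * 0.9 ≤ (1 + 0.9) ^ n := one_add_mul_le_pow (by norm_num) n
    have b2 : (8 * d : ℝ) ≤ n := by exact_mod_cast (by omega : 8 * d ≤ n)
    have b3 : (4 * d : ℝ) ≤ M := by
      norm_num at b M1
      have : (0 : ℝ) ≤ d := by positivity
      linarith
    exact_mod_cast b3
  · have a1 : 4 * d ≤ 2 ^ d := by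
      obtain ⟨e, he⟩ : ∃ e, d = e + 3 := ⟨d - 3, by omega⟩
      have : e < 2 ^ e := Nat.lt_two_pow_self
      rw [he, pow_add]
      omega
    have a2 : ((4 * d : ℕ) : ℝ) ^ (800 * d ^ 2 + 1) ≤ 1.18 ^ n := by
      calc ((4 * d : ℕ) : ℝ) ^ (800 * d ^ 2 + 1) ≤ ((2 ^ d : ℕ) : ℝ) ^ (800 * d ^ 2 + 1) :=
            pow_le_pow_left₀ (by positivity) (by exact_mod_cast a1) _
        _ = 2 ^ (d * (800 * d ^ 2 + 1)) := by push_cast; rw [← pow_mul]
        _ ≤ (1.18 ^ 5) ^ (d * (800 * d ^ 2 + 1)) :=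
            pow_le_pow_left₀ (by norm_num) (by norm_num) _
        _ = 1.18 ^ (5 * (d * (800 * d ^ 2 + 1))) := by rw [← pow_mul]
        _ ≤ 1.18 ^ n := pow_le_pow_right₀ (by norm_num) (by nlinarith)
    have a3 : (1.37 : ℝ) ^ n ≤ √M := by
      apply Real.le_sqrt_of_sq_le
      rw [← pow_mul, mul_comm, pow_mul]
      exact (pow_le_pow_left₀ (by norm_num) (by norm_num) n).trans M1
    push_cast at a2
    calc (11 / 5 : ℝ) ^ n * (4 * d) ^ (800 * d ^ 2 + 1) ≤ (11 / 5) ^ n * 1.18 ^ n :=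
          mul_le_mul_of_nonneg_left a2 (by positivity)
      _ = (11 / 5 * 1.18) ^ n := by rw [mul_pow]
      _ ≤ (1.9 * 1.37) ^ n := pow_le_pow_left₀ (by norm_num) (by norm_num) n
      _ = 1.9 ^ n * 1.37 ^ n := by rw [mul_pow]
      _ ≤ M * √M := mul_le_mul M1 a3 (by positivity) (by positivity)
  · set m := (n / d + 1) * k with hm
    have a1 : 8 * n ≤ 2 ^ (l + 4) := by
      rw [show l + 4 = (l + 1) + 3 by ring, pow_add]; omega
    have a2 : 16 * ((l + 4) * m + 1) ≤ n := by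
      have h8 : n / d * d ≤ n := Nat.div_mul_le_self _ _
      have : 64 * ((l + 4) * m) = n / d * d + d := by rw [hm, hd]; ring
      omega
    have a3 : ((M * (8 * n) ^ m : ℕ) : ℝ) ≤ A.card := by
      push_cast
      calc (M : ℝ) * (8 * n) ^ m ≤ (2 * 1.9 ^ n) * (2 ^ (l + 4)) ^ m :=
            mul_le_mul M2 (pow_le_pow_left₀ (by positivity) (by exact_mod_cast a1) _)
              (by positivity) (by positivity)
        _ = 1.9 ^ n * 2 ^ ((l + 4) * m + 1) := by rw [← pow_mul]; ring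
        _ ≤ 1.9 ^ n * ((1.99 / 1.9) ^ 16) ^ ((l + 4) * m + 1) :=
            mul_le_mul_of_nonneg_left (pow_le_pow_left₀ (by norm_num) (by norm_num) _)
              (by positivity)
        _ ≤ 1.9 ^ n * (1.99 / 1.9) ^ n := by
            rw [← pow_mul]
            exact mul_le_mul_of_nonneg_left (pow_le_pow_right₀ (by norm_num) a2) (by positivity)
        _ = 1.99 ^ n := by rw [← mul_pow]; norm_num
        _ ≤ _ := hc
    exact_mod_cast a3

end Pool.Agent.H17.WeakSun
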