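import Mathlib
import Pool.Agent.H17.Reimer

set_option autoImplicit false

namespace Pool.Agent.H17.Wojcik

open Finset Pool.Agent.H17.Reimer

lemma lemV (n : ℕ) (μ : ℚ) (h : ∀ j : ℕ, μ * (2 ^ j + 1) ≤ j * 2 ^ j + 2 * n) (m : ℕ) :
    μ * (m + 1) ≤ 2 * n + Cb m := by
  by_cases hm : m = 0
  · have := h 0
    have n0 : (0 : ℚ) ≤ n := by positivity
    simp [hm, Cb] at this ⊢
    linarith
  rw [Cb, if_neg hm]
  have l2 : 2 ^ Nat.log 2 m ≤ m := Nat.pow_log_le_self 2 hm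
  have l3 : m < 2 ^ (Nat.log 2 m + 1) := Nat.lt_pow_succ_log_self (by norm_num) m
  generalize Nat.log 2 m = j at *
  have l2' : (2 : ℚ) ^ j ≤ m := by exact_mod_cast l2
  have l3' : (m : ℚ) ≤ 2 ^ (j + 1) := by exact_mod_cast l3.le
  have a := h j
  have b := h (j + 1)
  unfold pc
  push_cast at *
  rw [pow_succ (2 : ℚ) j] at *
  rcases le_total μ (j + 2) with c | c
  · nlinarith
  · nlinarith

lemma Cb_ge (m : ℕ) : (Nat.log 2 m : ℤ) * m ≤ Cb m := by
  by_cases hm : m = 0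
  · simp [hm, Cb]
  rw [Cb, if_neg hm]
  have l2 : 2 ^ Nat.log 2 m ≤ m := Nat.pow_log_le_self 2 hm
  generalize Nat.log 2 m = j at *
  have l2' : (2 : ℤ) ^ j ≤ m := by exact_mod_cast l2
  unfold pc
  rw [pow_succ]
  linarith

/-- Kraft bound for the remaining sets -/
def sl (n M la lb j : ℕ) : ℤ :=
  ((j + 2) * ((M : ℤ) - 3) * 2 ^ n - 2 ^ (j + 1) * (2 ^ n - 1 - 2 ^ (n - la) - 2 ^ (n - lb)) +
    2 ^ n - 1) / 2 ^ n

set_option synthInstance.maxSize 2000 in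
lemma fin_check : ∀ n : ℕ, n ≤ 18 → ∀ M : ℕ, M < 64 → 3 ≤ M →
    (∃ k : ℕ, k < 5 ∧ ((k : ℤ) * 2 ^ k + 2 * n) * M ≤ (2 ^ k + 1) * Cb M) ∨
    (∃ k : ℕ, k < 5 ∧ ((k : ℤ) * 2 ^ k + 2 * n) * M ≤ (2 ^ k + 1) *
      (2 * (2 * n + 2 + (Cb M - 3 * (Nat.log 2 M + 2))) - Eb M)) ∨ (n = 3 ∧ M = 4) ∨
    (n = 5 ∧ M = 8) ∨ ∀ la : ℕ, la ≤ n → ∀ lb : ℕ, lb ≤ n → n + 2 ≤ la + lb →
      ∃ k : ℕ, k < 5 ∧ ∃ j : ℕ, j < 6 ∧ ((k : ℤ) * 2 ^ k + 2 * n) * M ≤
        (2 ^ k + 1) * (2 * (n + la + lb + sl n M la lb j) - Eb M) := by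
  decide +kernel

variable {α : Type} [DecidableEq α]

lemma sum_three (F : Finset (Finset α)) (U A B : Finset α) (hU : U ∈ F) (hA : A ∈ F) (hB : B ∈ F)
    (h1 : A ≠ U) (h2 : B ≠ U) (h3 : A ≠ B) (f : Finset α → ℤ) :
    ∑ X ∈ F, f X = f U + f A + f B + ∑ X ∈ ((F.erase U).erase A).erase B, f X := by
  rw [← add_sum_erase F f hU, ← add_sum_erase (F.erase U) f (mem_erase.mpr ⟨h1, hA⟩),
    ← add_sum_erase ((F.erase U).erase A) f
      (mem_erase.mpr ⟨h3.symm, mem_erase.mpr ⟨h2, hB⟩⟩)]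
  ring

lemma special (F : Finset (Finset α)) (hF : ∀ A ∈ F, ∀ B ∈ F, A ∪ B ∈ F) (U A B : Finset α)
    (h5 : U.card = 5) (hR : (((F.erase U).erase A).erase B).card = 5) :
    5 ≤ ∑ X ∈ ((F.erase U).erase A).erase B, (X.card : ℤ) := by
  by_contra hc
  set R := ((F.erase U).erase A).erase B with hRd
  have c4 : 4 ≤ (R.erase ∅).card := by
    have := pred_card_le_card_erase (s := R) (a := ∅)
    omega
  have s4 : ∑ X ∈ R.erase ∅, X.card ≤ 4 := by
    have : ∑ X ∈ R.erase ∅, X.card ≤ ∑ X ∈ R, X.card := sum_le_sum_of_subset (erase_subset _ _)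
    have h2 : ((∑ X ∈ R, X.card : ℕ) : ℤ) < 5 := by push_cast; exact not_le.mp hc
    omega
  have one : ∀ X ∈ R.erase ∅, X.card = 1 := by
    intro X hX
    have p : ∀ Y ∈ R.erase ∅, 1 ≤ Y.card := fun Y hY =>
      card_pos.mpr (nonempty_iff_ne_empty.mpr (mem_erase.mp hY).1)
    rw [← add_sum_erase _ _ hX] at s4
    have : ((R.erase ∅).erase X).card • 1 ≤ ∑ Y ∈ (R.erase ∅).erase X, Y.card :=
      card_nsmul_le_sum _ _ 1 (fun Y hY => p Y (mem_of_mem_erase hY))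
    rw [card_erase_of_mem hX, smul_eq_mul] at this
    have := p X hX
    omega
  obtain ⟨X, Y, Z, hX, hY, hZ, xy, xz, yz⟩ := two_lt_card_iff.mp (by omega : 2 < (R.erase ∅).card)
  obtain ⟨a, rfl⟩ := card_eq_one.mp (one X hX)
  obtain ⟨b, rfl⟩ := card_eq_one.mp (one Y hY)
  obtain ⟨c, rfl⟩ := card_eq_one.mp (one Z hZ)
  have inF : ∀ X ∈ R.erase ∅, X ∈ F := fun X hX =>
    mem_of_mem_erase (mem_of_mem_erase (mem_of_mem_erase (mem_of_mem_erase hX)))
  have key : ∀ x y : α, x ≠ y → {x} ∈ R.erase ∅ → {y} ∈ R.erase ∅ →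
      ({x, y} : Finset α) = A ∨ ({x, y} : Finset α) = B := by
    intro x y hxy hx hy
    have m := hF _ (inF _ hx) _ (inF _ hy)
    rw [← insert_eq] at m
    have c2 : ({x, y} : Finset α).card = 2 := card_pair hxy
    by_contra hh
    rw [not_or] at hh
    have : ({x, y} : Finset α) ∈ R.erase ∅ := by
      refine mem_erase.mpr ⟨by simp, mem_erase.mpr ⟨hh.2, mem_erase.mpr ⟨hh.1,
        mem_erase.mpr ⟨fun h => ?_, m⟩⟩⟩⟩
      rw [h] at c2; omega
    have := one _ this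
    omega
  have ab : a ≠ b := fun h => xy (by rw [h])
  have ac : a ≠ c := fun h => xz (by rw [h])
  have bc : b ≠ c := fun h => yz (by rw [h])
  have d1 : ({a, b} : Finset α) ≠ {a, c} := fun h => by
    have : b ∈ ({a, c} : Finset α) := h ▸ (by simp)
    simp [ab.symm, bc] at this
  have d2 : ({a, b} : Finset α) ≠ {b, c} := fun h => by
    have : a ∈ ({b, c} : Finset α) := h ▸ (by simp)
    simp [ab, ac] at this
  have d3 : ({a, c} : Finset α) ≠ {b, c} := fun h => by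
    have : a ∈ ({b, c} : Finset α) := h ▸ (by simp)
    simp [ab, ac] at this
  rcases key a b ab hX hY with e1 | e1 <;> rcases key a c ac hX hZ with e2 | e2 <;>
    rcases key b c bc hY hZ with e3 | e3
  all_goals first
    | exact d1 (e1.trans e2.symm)
    | exact d2 (e1.trans e3.symm)
    | exact d3 (e2.trans e3.symm)

lemma caseB (F : Finset (Finset α)) (hF : ∀ A ∈ F, ∀ B ∈ F, A ∪ B ∈ F) (U A B : Finset α)
    (hFU : F ⊆ U.powerset) (hU : U ∈ F) (hA : A ∈ F) (hB : B ∈ F) (h1 : A ≠ U) (h2 : B ≠ U)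
    (hAB : A ∪ B = U) (μ : ℚ) (h : ∀ j : ℕ, μ * (2 ^ j + 1) ≤ j * 2 ^ j + 2 * U.card) :
    μ * F.card ≤ 2 * ∑ X ∈ F, (X.card : ℚ) := by
  have h3 : A ≠ B := fun e => h1 (by rw [← hAB, ← e, union_self])
  obtain ⟨l, l1, l2, l3, l4⟩ := reimer_data F hF U hFU
  obtain ⟨l2, l2'⟩ := l2 hU
  have la := l2' A hA h1
  have lb := l2' B hB h2
  have cab : U.card ≤ A.card + B.card := hAB ▸ card_union_le A B
  have la' := l1 A hA
  have lb' := l1 B hB
  have r := reimer F hF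
  set R := ((F.erase U).erase A).erase B with hR
  have cR : (F.card : ℤ) = R.card + 3 := by
    have := sum_three F U A B hU hA hB h1 h2 h3 (fun _ => 1)
    simp only [sum_const, nsmul_eq_mul, mul_one] at this
    rw [this]; ring
  have sT := sum_three F U A B hU hA hB h1 h2 h3 (fun X => X.card)
  have sL := sum_three F U A B hU hA hB h1 h2 h3 (fun X => l X)
  have sK := sum_three F U A B hU hA hB h1 h2 h3 (fun X => 2 ^ (U.card - l X))
  have l3' : ∑ X ∈ F, (2 : ℤ) ^ (U.card - l X) ≤ 2 ^ U.card := by exact_mod_cast l3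
  have kr := fun j => kraft_sum U.card j R l (fun X hX =>
    l1 X (mem_of_mem_erase (mem_of_mem_erase (mem_of_mem_erase hX))))
  have spec : U.card = 5 → R.card = 5 → 5 ≤ ∑ X ∈ R, (X.card : ℤ) := special F hF U A B
  have R0 : (0 : ℤ) ≤ ∑ X ∈ R, (X.card : ℤ) := sum_nonneg fun _ _ => by positivity
  have hT : ∑ X ∈ F, (X.card : ℚ) = ((∑ X ∈ F, (X.card : ℤ) : ℤ) : ℚ) := by push_cast; rfl
  rw [hT]
  rw [l2, Nat.sub_self, pow_zero] at sK
  rw [l2] at sL
  generalize ∑ X ∈ F, (X.card : ℤ) = T at *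
  generalize ∑ X ∈ R, (X.card : ℤ) = TR at *
  generalize ∑ X ∈ F, (l X : ℤ) = L at *
  generalize ∑ X ∈ R, (l X : ℤ) = S at *
  generalize ∑ X ∈ F, (2 : ℤ) ^ (U.card - l X) = K at *
  generalize ∑ X ∈ R, (2 : ℤ) ^ (U.card - l X) = KR at *
  generalize U.card = n at *
  generalize F.card = M at *
  generalize R.card = r' at *
  generalize l A = a at *
  generalize l B = b at *
  have P : (0 : ℤ) < 2 ^ n := by positivity
  have hS : ∀ j : ℕ, sl n M a b j ≤ S := by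
    intro j
    have := kr j
    have q : (0 : ℤ) < 2 ^ (j + 1) := by positivity
    unfold sl
    rw [← Int.lt_add_one_iff, Int.ediv_lt_iff_lt_mul P, cR]
    have : 2 ^ (j + 1) * KR ≤ 2 ^ (j + 1) * (2 ^ n - 1 - 2 ^ (n - a) - 2 ^ (n - b)) :=
      mul_le_mul_of_nonneg_left (by linarith) q.le
    linarith
  have M0 : (0 : ℚ) ≤ M := by positivity
  have use : ∀ (k : ℕ) (X : ℤ), ((k : ℤ) * 2 ^ k + 2 * n) * M ≤ (2 ^ k + 1) * X → X ≤ 2 * T →
      μ * M ≤ 2 * (T : ℚ) := by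
    intro k X e1 e2
    have e1' : ((k : ℚ) * 2 ^ k + 2 * n) * M ≤ (2 ^ k + 1) * X := by exact_mod_cast e1
    have e2' : (X : ℚ) ≤ 2 * T := by exact_mod_cast e2
    have p : (0 : ℚ) < 2 ^ k + 1 := by positivity
    have := mul_le_mul_of_nonneg_right (h k) M0
    refine le_of_mul_le_mul_left ?_ p
    nlinarith
  have hM0 : M ≠ 0 := by omega
  have s2 : Cb M - 3 * (Nat.log 2 M + 2) ≤ S := by
    rw [Cb, if_neg hM0, pc]
    have := kr (Nat.log 2 M)
    have q : (0 : ℤ) < 2 ^ (Nat.log 2 M + 1) := by positivity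
    have p1 : (0 : ℤ) < 2 ^ (n - a) := by positivity
    have p2 : (0 : ℤ) < 2 ^ (n - b) := by positivity
    have : 2 ^ (Nat.log 2 M + 1) * KR ≤ 2 ^ (Nat.log 2 M + 1) * 2 ^ n :=
      mul_le_mul_of_nonneg_left (by linarith) q.le
    refine le_of_mul_le_mul_right ?_ P
    rw [cR]
    linarith
  have ab : (n : ℤ) + 2 ≤ a + b := by exact_mod_cast (by omega : n + 2 ≤ a + b)
  have cb := Cb_ge M
  by_cases hj : μ ≤ Nat.log 2 M
  · have c1 : ((Nat.log 2 M : ℚ)) * M ≤ 2 * T := by exact_mod_cast cb.trans r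
    nlinarith
  rw [not_le] at hj
  have h4 := h 4
  by_cases hn : n ≤ 18
  · have hn' : (n : ℚ) ≤ 18 := by exact_mod_cast hn
    have hM : M < 64 := by
      by_contra hc
      have : 6 ≤ Nat.log 2 M := Nat.le_log_of_pow_le (by norm_num) (by omega)
      have : (6 : ℚ) ≤ Nat.log 2 M := by exact_mod_cast this
      norm_num at h4
      linarith
    rcases fin_check n hn M hM (by omega) with ⟨k, -, e⟩ | ⟨k, -, e⟩ | ⟨rfl, rfl⟩ | ⟨rfl, rfl⟩ | e
    · exact use k _ e r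
    · exact use k _ e (by linarith)
    · exact use 1 12 (by norm_num) (by omega)
    · have := spec rfl (by omega)
      exact use 2 30 (by norm_num) (by omega)
    · obtain ⟨k, -, j, -, e⟩ := e a la' b lb' (by omega)
      refine use k _ e ?_
      have := hS j
      linarith
  · have hn' : (19 : ℚ) ≤ n := by exact_mod_cast (by omega : 19 ≤ n)
    have v := lemV n μ h M
    have eb := Eb_le M
    have s3 : Cb M + 4 * n - 6 * Nat.log 2 M - 8 ≤ 2 * T := by linarith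
    have s3' : (Cb M : ℚ) + 4 * n - 6 * Nat.log 2 M - 8 ≤ 2 * T := by exact_mod_cast s3
    norm_num at h4
    linarith

theorem main (F : Finset (Finset α)) (hne : F.Nonempty) (hF : ∀ A ∈ F, ∀ B ∈ F, A ∪ B ∈ F)
    (μ : ℚ) (h : ∀ j : ℕ, μ * (2 ^ j + 1) ≤ j * 2 ^ j + 2 * (F.biUnion id).card) :
    μ * F.card ≤ 2 * ∑ X ∈ F, (X.card : ℚ) := by
  set U := F.biUnion id with hU
  have hFU : F ⊆ U.powerset := fun A hA => mem_powerset.mpr (subset_biUnion_of_mem id hA)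
  have hUF : U ∈ F := by
    have : SupClosed (F : Set (Finset α)) := fun A hA B hB => hF A hA B hB
    have := this.finsetSup'_mem hne (f := id) (fun A hA => hA)
    rwa [sup'_eq_sup, sup_eq_biUnion] at this
  by_cases hc : ∃ A ∈ F, ∃ B ∈ F, A ≠ U ∧ B ≠ U ∧ A ∪ B = U
  · obtain ⟨A, hA, B, hB, h1, h2, h3⟩ := hc
    exact caseB F hF U A B hFU hUF hA hB h1 h2 h3 μ h
  · have r := reimer (F.erase U) (by
      intro A hA B hB
      rw [mem_erase] at hA hB ⊢
      exact ⟨fun e => hc ⟨A, hA.2, B, hB.2, hA.1, hB.1, e⟩, hF A hA.2 B hB.2⟩)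
    have v := lemV U.card μ h (F.erase U).card
    have r' : (Cb (F.erase U).card : ℚ) ≤ 2 * ∑ X ∈ F.erase U, (X.card : ℚ) := by
      exact_mod_cast r
    rw [← add_sum_erase F _ hUF, ← card_erase_add_one hUF]
    push_cast
    linarith

end Pool.Agent.H17.Wojcik
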