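import Mathlib

set_option autoImplicit false

namespace Pool.Agent.H17.Xor

/-- the two-neighbour XOR cellular automaton -/
def F (x : ℤ → Bool) : ℤ → Bool := fun i => xor (x i) (x (i + 1))

def sh (a : ℤ) (x : ℤ → Bool) : ℤ → Bool := fun i => x (i + a)

def dil (u : ℤ → Bool) : ℤ → Bool := fun i => decide (i % 2 = 0) && u (i / 2)

def y : ℕ → ℤ → Bool
  | 0 => fun i => decide (i % 3 ≠ 2)
  | k + 1 => dil (y k)

def z (k t : ℕ) : ℤ → Bool := F^[t] (y k)

lemma F_sh (a : ℤ) (x : ℤ → Bool) : F (sh a x) = sh a (F x) := by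
  funext i; simp only [F, sh]; rw [add_right_comm]

lemma Fn_sh (n : ℕ) (a : ℤ) (x : ℤ → Bool) : F^[n] (sh a x) = sh a (F^[n] x) :=
  (Function.Commute.iterate_left (f := F) (g := sh a) (fun x => F_sh a x) n) x

lemma sh_sh (a b : ℤ) (x : ℤ → Bool) : sh a (sh b x) = sh (a + b) x := by
  funext i; simp [sh, add_assoc]

lemma FF_dil (u : ℤ → Bool) : F (F (dil u)) = dil (F u) := by
  funext i
  simp only [F, dil]
  have e : (i + 1 + 1) / 2 = i / 2 + 1 := by omega
  have e2 : (i + 1 + 1) % 2 = i % 2 := by omega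
  rw [e, e2]
  rcases Int.emod_two_eq_zero_or_one i with h | h <;> simp [h]

lemma F2_dil (t : ℕ) (u : ℤ → Bool) : F^[2 * t] (dil u) = dil (F^[t] u) := by
  induction t with
  | zero => rfl
  | succ t ih =>
    rw [show 2 * (t + 1) = 2 * t + 1 + 1 by ring, Function.iterate_succ_apply',
      Function.iterate_succ_apply', ih, FF_dil, Function.iterate_succ_apply']

lemma z_even (k t : ℕ) (i : ℤ) : z (k + 1) t (2 * i) = z k (t / 2) i := by
  rcases Nat.even_or_odd' t with ⟨s, rfl | rfl⟩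
  · simp [z, y, F2_dil, dil]
  · have : (2 * s + 1) / 2 = s := by omega
    have e : (2 * i + 1) % 2 = 1 := by omega
    simp [z, y, Function.iterate_succ_apply', F2_dil, dil, this, F, e]

lemma z_odd0 (k s : ℕ) (i : ℤ) (h : i % 2 = 1) : z (k + 1) (2 * s) i = false := by
  simp [z, y, F2_dil, dil, h]

lemma z_odd1 (k s : ℕ) (i : ℤ) (h : i % 2 = 1) :
    z (k + 1) (2 * s + 1) i = z (k + 1) (2 * s + 1) (i + 1) := by
  have e : (i + 1) % 2 = 0 := by omega
  have e' : (i + 1 + 1) % 2 = 1 := by omega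
  simp [z, y, Function.iterate_succ_apply', F2_dil, dil, F, h, e, e']

lemma z_succ (k t : ℕ) (i : ℤ) : z k (t + 1) i = xor (z k t i) (z k t (i + 1)) := by
  simp [z, Function.iterate_succ_apply', F]

lemma z0 (t : ℕ) (i : ℤ) : z 0 t i = decide ((i + 2 * t) % 3 ≠ 2) := by
  induction t generalizing i with
  | zero => simp [z, y]
  | succ t ih =>
    rw [z_succ, ih, ih]
    push_cast
    have : (i + 2 * t) % 3 = 0 ∨ (i + 2 * t) % 3 = 1 ∨ (i + 2 * t) % 3 = 2 := by omega
    rcases this with h | h | h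
    · have a : (i + 1 + 2 * t) % 3 = 1 := by omega
      have b : (i + 2 * (t + 1)) % 3 = 2 := by omega
      simp [h, a, b]
    · have a : (i + 1 + 2 * t) % 3 = 2 := by omega
      have b : (i + 2 * (t + 1)) % 3 = 0 := by omega
      simp [h, a, b]
    · have a : (i + 1 + 2 * t) % 3 = 0 := by omega
      have b : (i + 2 * (t + 1)) % 3 = 1 := by omega
      simp [h, a, b]

lemma dil_sh (a : ℤ) (u : ℤ → Bool) : dil (sh a u) = sh (2 * a) (dil u) := by
  funext i
  simp only [dil, sh]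
  rw [show (i + 2 * a) % 2 = i % 2 by omega, show (i + 2 * a) / 2 = i / 2 + a by omega]

lemma y_per (k : ℕ) : sh (3 * 2 ^ k) (y k) = y k := by
  induction k with
  | zero => funext i; simp [sh, y]
  | succ k ih => rw [y, show (3 * 2 ^ (k + 1) : ℤ) = 2 * (3 * 2 ^ k) by ring, ← dil_sh, ih]

lemma z_per (k t : ℕ) : sh (3 * 2 ^ k) (z k t) = z k t := by
  rw [z, ← Fn_sh, y_per]

lemma z_pow (k : ℕ) : z k (2 ^ k) = sh (2 * 2 ^ k) (y k) := by
  induction k with
  | zero => funext i; rw [z0]; simp [sh, y]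
  | succ k ih =>
    rw [z, y, pow_succ', F2_dil, ← z, ih, dil_sh]; congr 1; ring

lemma z_add (k t : ℕ) : z k (t + 2 ^ k) = sh (2 * 2 ^ k) (z k t) := by
  rw [z, Function.iterate_add_apply, ← z, z_pow, Fn_sh, z]

lemma nz (k : ℕ) : ∀ (t : ℕ) (p : ℤ), ∃ i : ℤ, 0 ≤ i ∧ i < 2 * 2 ^ k ∧ z k t (p + i) = true := by
  induction k with
  | zero =>
    intro t p
    by_cases h : (p + 2 * t) % 3 = 2
    · exact ⟨1, by norm_num, by norm_num, by rw [z0]; simp; omega⟩
    · exact ⟨0, by norm_num, by norm_num, by rw [z0]; simpa using h⟩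
  | succ k ih =>
    intro t p
    obtain ⟨i, h0, h1, h2⟩ := ih (t / 2) ((p + 1) / 2)
    refine ⟨2 * ((p + 1) / 2 + i) - p, by omega, by rw [pow_succ]; omega, ?_⟩
    rw [add_sub_cancel, z_even, h2]

lemma H5 (j n t : ℕ) (p q : ℤ) (h : ∀ i : ℤ, 0 ≤ i → i < 5 → z (j + 1) n (p + i) = z 0 t (q + i)) :
    False := by
  have h0 := h 0 (by norm_num) (by norm_num)
  have h1 := h 1 (by norm_num) (by norm_num)
  have h2 := h 2 (by norm_num) (by norm_num)
  have h3 := h 3 (by norm_num) (by norm_num)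
  have h4 := h 4 (by norm_num) (by norm_num)
  simp only [z0] at h0 h1 h2 h3 h4
  rcases Nat.even_or_odd' n with ⟨s, rfl | rfl⟩
  · rcases Int.emod_two_eq_zero_or_one p with e | e
    · rw [z_odd0 _ _ _ (by omega)] at h1 h3
      simp at h1 h3; omega
    · rw [z_odd0 _ _ _ (by omega)] at h0 h2
      simp at h0 h2; omega
  · rcases Int.emod_two_eq_zero_or_one p with e | e
    · rw [z_odd1 _ _ _ (by omega), add_assoc] at h1 h3
      norm_num at h1 h3
      rw [h2] at h1; rw [h4] at h3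
      simp at h1 h3; omega
    · rw [z_odd1 _ _ _ (by omega), add_assoc] at h0 h2
      norm_num at h0 h2
      rw [h1] at h0; rw [h3] at h2
      simp at h0 h2; omega

lemma uniq (k : ℕ) : ∀ (j t n : ℕ) (p q : ℤ),
    (∀ i : ℤ, 0 ≤ i → i < 6 * 2 ^ k - 1 → z j n (p + i) = z k t (q + i)) →
      j = k ∧ n ≡ t [MOD 2 ^ k] := by
  induction k with
  | zero =>
    intro j t n p q h
    rcases j with _ | j
    · exact ⟨rfl, by simp [Nat.modEq_one]⟩
    · exact (H5 j n t p q (fun i a b => h i a (by simpa using b))).elim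
  | succ k ih =>
    intro j t n p q h
    have pos : (0 : ℤ) < 2 ^ k := by positivity
    rw [pow_succ] at h
    rcases j with _ | j
    · exact (H5 k t n q p (fun i a b => (h i a (by omega)).symm)).elim
    have h' : ∀ e : ℕ, e ≤ 1 → ∀ i : ℤ, 0 ≤ i → i < 6 * (2 ^ k * 2) - 2 →
        z (j + 1) (n + e) (p + i) = z (k + 1) (t + e) (q + i) := by
      intro e he i a b
      interval_cases e
      · exact h i a (by omega)
      · rw [z_succ, z_succ, add_assoc, add_assoc, h i a (by omega), h (i + 1) (by omega) (by omega)]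
    obtain ⟨s, hs⟩ : ∃ s, t + t % 2 = 2 * s := ⟨(t + t % 2) / 2, by omega⟩
    obtain ⟨i, i0, i1, i2⟩ := nz (k + 1) (2 * s) (q + 1)
    rw [pow_succ] at i1
    have g := h' (t % 2) (by omega)
    rw [hs] at g
    have qe : (q + 1 + i) % 2 = 0 := by
      by_contra hc
      rw [z_odd0 _ _ _ (by omega)] at i2; simp at i2
    have g0 := g i (by omega) (by omega)
    have g1 := g (i + 1) (by omega) (by omega)
    have g2 := g (i + 2) (by omega) (by omega)
    rw [z_odd0 _ _ _ (by omega)] at g0 g2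
    rw [show q + (i + 1) = q + 1 + i by ring, i2] at g1
    have key : (n + t % 2) % 2 = 0 ∧ (p + i + 1) % 2 = 0 := by
      rcases Nat.even_or_odd' (n + t % 2) with ⟨r, hr | hr⟩
      · refine ⟨by omega, ?_⟩
        by_contra hc
        rw [hr, z_odd0 _ _ _ (by omega)] at g1; simp at g1
      · rw [hr] at g0 g1 g2
        rcases Int.emod_two_eq_zero_or_one (p + i) with e | e
        · rw [z_odd1 _ _ _ (by omega), show p + (i + 1) + 1 = p + (i + 2) by ring, g2] at g1
          simp at g1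
        · rw [z_odd1 _ _ _ e, add_assoc, g1] at g0; simp at g0
    obtain ⟨a, b⟩ := ih j (t / 2) (n / 2) ((p + 1) / 2) ((q + 1) / 2) (fun m m0 m1 => by
      rw [← z_even, ← z_even]
      have := h (q % 2 + 2 * m) (by omega) (by omega)
      rw [show 2 * ((p + 1) / 2 + m) = p + (q % 2 + 2 * m) by omega,
        show 2 * ((q + 1) / 2 + m) = q + (q % 2 + 2 * m) by omega]
      exact this)
    refine ⟨by rw [a], ?_⟩
    have c := (b.mul_left' 2).add_right (t % 2)
    rw [pow_succ']
    have e1 : 2 * (n / 2) + t % 2 = n := by omega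
    have e2 : 2 * (t / 2) + t % 2 = t := by omega
    rwa [e1, e2] at c

def yN (k i : ℕ) : Bool := decide (i % 2 ^ k = 0 ∧ i / 2 ^ k % 3 ≠ 2)

lemma y_nat (k : ℕ) : ∀ i : ℕ, y k i = yN k i := by
  induction k with
  | zero => intro i; simp [y, yN, Nat.mod_one]; omega
  | succ k ih =>
    intro i
    have : ((i : ℤ) / 2) = ((i / 2 : ℕ) : ℤ) := by omega
    simp only [y, dil, this, ih, yN, pow_succ', Nat.mod_mul, Nat.div_div_eq_div_mul]
    rw [← Bool.decide_and, decide_eq_decide]
    omega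

end Pool.Agent.H17.Xor
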