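import Pool.Agent.H17.Xor1

set_option autoImplicit false

namespace Pool.Agent.H17.Xor

open MeasureTheory Filter Topology
open scoped ENNReal

/-- the cylinder set of a word, at positions 0, 1, ... -/
def cyl (w : List Bool) : Set (ℤ → Bool) := {x | ∀ i : Fin w.length, x ((i : ℕ) : ℤ) = w.get i}

/-- invariance under the shift -/
def ShiftInv (μ : Measure (ℤ → Bool)) : Prop := μ.map (fun x i => x (i + 1)) = μ

/-- computable measure: an algorithm outputs, on input (w, k), a rational number, coded as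
(a - b) / (c + 1), within 2^(-k) of the measure of the cylinder of w -/
def CompMeasure (μ : Measure (ℤ → Bool)) : Prop :=
  ∃ f : List Bool × ℕ → ℕ × ℕ × ℕ, Computable f ∧ ∀ w k,
    |μ.real (cyl w) - (((f (w, k)).1 : ℝ) - (f (w, k)).2.1) / ((f (w, k)).2.2 + 1)| ≤ (1 / 2) ^ k

lemma mem_cyl (w : List Bool) (x : ℤ → Bool) :
    x ∈ cyl w ↔ (List.range w.length).map (fun l : ℕ => x l) = w := by
  constructor
  · intro h
    apply List.ext_getElem (by simp)
    intro i h1 h2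
    simpa using h ⟨i, h2⟩
  · intro h i
    have := List.getElem_of_eq h (i := i) (by simp)
    simpa using this

lemma cyl_meas (w : List Bool) : MeasurableSet (cyl w) := by
  unfold cyl
  simp only [Set.ofPred_forall]
  exact MeasurableSet.iInter fun i => measurable_pi_apply _ (measurableSet_singleton _)

lemma F_meas : Measurable F :=
  measurable_pi_lambda _ fun i => by
    have a : Measurable (fun x : ℤ → Bool => (x i, x (i + 1))) :=
      (measurable_pi_apply i).prodMk (measurable_pi_apply (i + 1))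
    exact (measurable_of_countable (fun p : Bool × Bool => xor p.1 p.2)).comp a

lemma sh_meas (a : ℤ) : Measurable (sh a) := measurable_pi_lambda _ fun _ => measurable_pi_apply _

noncomputable def O (k : ℕ) (x : ℤ → Bool) : Measure (ℤ → Bool) :=
  ∑ i ∈ Finset.range (3 * 2 ^ k), Measure.dirac (sh i x)

noncomputable def M (g : ℕ → ℕ) (a : ℕ → ℤ → Bool) : Measure (ℤ → Bool) :=
  Measure.sum fun j => ENNReal.ofReal ((1 / 2) ^ (j + 1) / (3 * 2 ^ g j)) • O (g j) (a j)

lemma O_map (k : ℕ) (x : ℤ → Bool) (T : (ℤ → Bool) → (ℤ → Bool)) (hT : Measurable T)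
    (h : ∀ a x, T (sh a x) = sh a (T x)) : (O k x).map T = O k (T x) := by
  rw [O, Measure.map_finset_sum hT.aemeasurable]
  simp only [Measure.map_dirac' hT, h, O]

lemma M_map (g : ℕ → ℕ) (a : ℕ → ℤ → Bool) (T : (ℤ → Bool) → (ℤ → Bool)) (hT : Measurable T)
    (h : ∀ a x, T (sh a x) = sh a (T x)) : (M g a).map T = M g (fun j => T (a j)) := by
  rw [M, Measure.map_sum hT.aemeasurable]
  simp only [Measure.map_smul, O_map _ _ T hT h, M]

lemma O_sh1 (k : ℕ) (x : ℤ → Bool) (h : sh (3 * 2 ^ k) x = x) : O k (sh 1 x) = O k x := by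
  obtain ⟨P, hP⟩ : ∃ P, 3 * 2 ^ k = P + 1 := ⟨3 * 2 ^ k - 1, by have := Nat.one_le_two_pow (n := k); omega⟩
  have e : ((P : ℤ) + 1) = 3 * 2 ^ k := by exact_mod_cast hP.symm
  have e0 : sh 0 x = x := by funext i; simp [sh]
  simp only [O, hP, sh_sh]
  rw [Finset.sum_range_succ, Finset.sum_range_succ', e, h]
  simp [e0]

lemma O_shn (k : ℕ) (x : ℤ → Bool) (h : sh (3 * 2 ^ k) x = x) (n : ℕ) : O k (sh n x) = O k x := by
  induction n with
  | zero => congr 1; funext i; simp [sh]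
  | succ n ih =>
    rw [← ih, ← O_sh1 k (sh n x) (by rw [sh_sh, add_comm, ← sh_sh, h]), sh_sh]
    push_cast; rw [add_comm]

lemma O_z (k t n : ℕ) (h : n ≡ t [MOD 2 ^ k]) : O k (z k n) = O k (z k t) := by
  have A : ∀ m r, O k (z k (r + m * 2 ^ k)) = O k (z k r) := by
    intro m r
    induction m with
    | zero => simp
    | succ m ih =>
      rw [add_mul, one_mul, ← add_assoc, z_add, ← ih, ← O_shn k _ (z_per _ _) (2 * 2 ^ k)]
      push_cast; rfl
  rw [← Nat.mod_add_div' n (2 ^ k), ← Nat.mod_add_div' t (2 ^ k), A, A, h]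

lemma M_inv (g t : ℕ → ℕ) : ShiftInv (M g (fun j => z (g j) (t j))) := by
  have := M_map g (fun j => z (g j) (t j)) (sh 1) (sh_meas 1)
    (fun a x => by rw [sh_sh, sh_sh, add_comm])
  refine this.trans ?_
  simp only [M, O_sh1 _ _ (z_per _ _)]

noncomputable def fr (k : ℕ) (x : ℤ → Bool) (S : Set (ℤ → Bool)) : ℝ :=
  (O k x).real S / (3 * 2 ^ k)

open Classical in
lemma O_real (k : ℕ) (x : ℤ → Bool) (S : Set (ℤ → Bool)) (hS : MeasurableSet S) :
    O k x S = (((Finset.range (3 * 2 ^ k)).filter (fun i : ℕ => sh i x ∈ S)).card : ℕ) := by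
  rw [O, Measure.finsetSum_apply, Finset.card_filter]
  push_cast
  refine Finset.sum_congr rfl fun i _ => ?_
  rw [Measure.dirac_apply' _ hS, Set.indicator_apply]; simp

lemma fr_bd (k : ℕ) (x : ℤ → Bool) (S : Set (ℤ → Bool)) (hS : MeasurableSet S) :
    0 ≤ fr k x S ∧ fr k x S ≤ 1 := by
  classical
  refine ⟨div_nonneg measureReal_nonneg (by positivity), ?_⟩
  rw [fr, div_le_one (by positivity), Measure.real, O_real _ _ _ hS, ENNReal.toReal_natCast]
  have := Finset.card_filter_le (Finset.range (3 * 2 ^ k)) (fun i : ℕ => sh i x ∈ S)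
  rw [Finset.card_range] at this
  exact_mod_cast this

lemma M_real (g : ℕ → ℕ) (a : ℕ → ℤ → Bool) (S : Set (ℤ → Bool)) (hS : MeasurableSet S) :
    (M g a).real S = ∑' j, (1 / 2 : ℝ) ^ (j + 1) * fr (g j) (a j) S := by
  rw [Measure.real, M, Measure.sum_apply _ hS, ENNReal.tsum_toReal_eq]
  · congr 1; funext j
    rw [Measure.smul_apply, smul_eq_mul, ENNReal.toReal_mul, ENNReal.toReal_ofReal (by positivity),
      fr, Measure.real]
    ring
  · intro j
    rw [Measure.smul_apply, smul_eq_mul, O_real _ _ _ hS]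
    exact ENNReal.mul_ne_top ENNReal.ofReal_ne_top (ENNReal.natCast_ne_top _)

lemma geo : HasSum (fun j : ℕ => (1 / 2 : ℝ) ^ (j + 1)) 1 := by
  have := hasSum_geometric_two.mul_right (1 / 2 : ℝ)
  simpa [pow_succ] using this

lemma summ (u : ℕ → ℝ) (h : ∀ j, 0 ≤ u j ∧ u j ≤ 1) :
    Summable fun j => (1 / 2 : ℝ) ^ (j + 1) * u j :=
  Summable.of_nonneg_of_le (fun j => mul_nonneg (by positivity) (h j).1)
    (fun j => mul_le_of_le_one_right (by positivity) (h j).2) geo.summable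

lemma tail (u : ℕ → ℝ) (h : ∀ j, 0 ≤ u j ∧ u j ≤ 1) (m : ℕ) :
    0 ≤ ∑' j, (1 / 2 : ℝ) ^ (j + 1) * u j - ∑ j ∈ Finset.range m, (1 / 2 : ℝ) ^ (j + 1) * u j ∧
    ∑' j, (1 / 2 : ℝ) ^ (j + 1) * u j - ∑ j ∈ Finset.range m, (1 / 2 : ℝ) ^ (j + 1) * u j ≤
      (1 / 2) ^ m := by
  rw [← (summ u h).sum_add_tsum_nat_add m, add_sub_cancel_left]
  refine ⟨tsum_nonneg fun j => mul_nonneg (by positivity) (h _).1, ?_⟩
  have := geo.mul_right ((1 / 2 : ℝ) ^ m)
  rw [one_mul] at this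
  rw [← this.tsum_eq]
  refine ((summable_nat_add_iff m).2 (summ u h)).tsum_le_tsum (fun j => ?_) this.summable
  rw [← pow_add, add_right_comm]
  exact mul_le_of_le_one_right (by positivity) (h _).2

instance (g : ℕ → ℕ) (a : ℕ → ℤ → Bool) : IsProbabilityMeasure (M g a) := by
  rw [isProbabilityMeasure_iff_real, M_real _ _ _ MeasurableSet.univ]
  have : ∀ j, fr (g j) (a j) Set.univ = 1 := fun j => by
    rw [fr, Measure.real, O_real _ _ _ MeasurableSet.univ]
    simp
  simp only [this, mul_one, geo.tsum_eq]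

lemma M_iter (g : ℕ → ℕ) (n : ℕ) :
    (M g (fun j => z (g j) 0)).map F^[n] = M g (fun j => z (g j) n) :=
  M_map _ _ _ (F_meas.iterate n) (Fn_sh n)

/-- test words -/
def U (k t : ℕ) : List Bool := (List.range (6 * 2 ^ k - 1)).map fun l : ℕ => z k t l

lemma fr_U (j n k t : ℕ) (h : fr j (z j n) (cyl (U k t)) ≠ 0) : j = k ∧ n ≡ t [MOD 2 ^ k] := by
  classical
  rw [fr, Measure.real, O_real _ _ _ (cyl_meas _)] at h
  have : ((Finset.range (3 * 2 ^ j)).filter (fun i : ℕ => sh i (z j n) ∈ cyl (U k t))).card ≠ 0 := by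
    intro h0; simp [h0] at h
  obtain ⟨i, hi⟩ := Finset.card_ne_zero.1 this
  have hi := (Finset.mem_filter.1 hi).2
  refine uniq k j t n i 0 (fun l l0 l1 => ?_)
  lift l to ℕ using l0
  have l2 : l < 6 * 2 ^ k - 1 := by
    have : ((l + 1 : ℕ) : ℤ) < ((6 * 2 ^ k : ℕ) : ℤ) := by push_cast; omega
    omega
  have := hi ⟨l, by simpa [U] using l2⟩
  simpa [U, sh, add_comm] using this

lemma fr_pos (k t : ℕ) : 0 < fr k (z k t) (cyl (U k t)) := by
  classical
  rw [fr, Measure.real, O_real _ _ _ (cyl_meas _), ENNReal.toReal_natCast]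
  refine div_pos (Nat.cast_pos.2 (Finset.card_pos.2 ⟨0, ?_⟩)) (by positivity)
  simp [mem_cyl, U, sh]

lemma M_pos (g t : ℕ → ℕ) (j : ℕ) (S : Set (ℤ → Bool)) (hS : MeasurableSet S) :
    (1 / 2 : ℝ) ^ (j + 1) * fr (g j) (z (g j) (t j)) S ≤ (M g (fun j => z (g j) (t j))).real S := by
  rw [M_real _ _ _ hS]
  exact (summ _ (fun j => fr_bd (g j) (z (g j) (t j)) _ hS)).le_tsum j
    (fun i _ => mul_nonneg (by positivity) (fr_bd _ _ _ hS).1)

def cnt (k : ℕ) (w : List Bool) : ℕ :=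
  ((List.range (3 * 2 ^ k)).filter
    (fun i => (List.range w.length).map (fun l => yN k (l + i)) = w)).length

lemma fr_cnt (k : ℕ) (w : List Bool) : fr k (z k 0) (cyl w) = cnt k w / (3 * 2 ^ k) := by
  rw [fr, Measure.real, O_real _ _ _ (cyl_meas _), ENNReal.toReal_natCast]
  congr 2
  have : ∀ i : ℕ, sh i (z k 0) ∈ cyl w ↔ (List.range w.length).map (fun l => yN k (l + i)) = w := by
    intro i
    simp only [mem_cyl, sh, z, Function.iterate_zero, id, ← y_nat]
    push_cast; rfl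
  simp only [this]
  rfl

lemma p_pow : Primrec₂ ((· ^ ·) : ℕ → ℕ → ℕ) := Primrec₂.unpaired'.1 Nat.Primrec.pow

lemma p_yN : Primrec₂ yN := by
  have a : Primrec fun p : ℕ × ℕ => 2 ^ p.1 := p_pow.comp (.const 2) .fst
  exact (PrimrecPred.and (Primrec.eq.comp (Primrec.nat_mod.comp .snd a) (.const 0))
    (PrimrecPred.not (Primrec.eq.comp
      (Primrec.nat_mod.comp (Primrec.nat_div.comp .snd a) (.const 3)) (.const 2)))).decide

lemma p_cnt : Primrec₂ cnt := by
  have R : PrimrecRel fun (i : ℕ) (p : ℕ × List Bool) =>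
      (List.range p.2.length).map (fun l => yN p.1 (l + i)) = p.2 :=
    Primrec.eq.comp (Primrec.list_map
      (Primrec.list_range.comp (Primrec.list_length.comp (Primrec.snd.comp .snd)))
      (p_yN.comp (Primrec.fst.comp (Primrec.snd.comp .fst))
        (Primrec.nat_add.comp .snd (Primrec.fst.comp .fst))).to₂) (Primrec.snd.comp .snd)
  exact Primrec.list_length.comp (R.listFilter.comp (Primrec.list_range.comp
    (Primrec.nat_mul.comp (.const 3) (p_pow.comp (.const 2) .fst))) .id)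

lemma M_comp (g : ℕ → ℕ) (hg : Primrec g) : CompMeasure (M g (fun j => z (g j) 0)) := by
  let T : List Bool × ℕ → ℕ → ℕ := fun p j =>
    4 ^ (p.2 + 1) * cnt (g j) p.1 / (2 ^ (j + 1) * (3 * 2 ^ g j))
  have hT : Primrec₂ T :=
    Primrec.nat_div.comp (Primrec.nat_mul.comp
      (p_pow.comp (.const 4) (Primrec.succ.comp (Primrec.snd.comp .fst)))
      (p_cnt.comp (hg.comp .snd) (Primrec.fst.comp .fst)))
      (Primrec.nat_mul.comp (p_pow.comp (.const 2) (Primrec.succ.comp .snd))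
        (Primrec.nat_mul.comp (.const 3) (p_pow.comp (.const 2) (hg.comp .snd))))
  have hS : Primrec fun p : List Bool × ℕ =>
      (List.range (p.2 + 1)).foldr (fun j s => T p j + s) 0 :=
    Primrec.list_foldr (h := fun p q => T p q.1 + q.2)
      (Primrec.list_range.comp (Primrec.succ.comp .snd)) (.const 0)
      (Primrec.nat_add.comp (hT.comp .fst (Primrec.fst.comp .snd)) (Primrec.snd.comp .snd)).to₂
  refine ⟨fun p => ((List.range (p.2 + 1)).foldr (fun j s => T p j + s) 0, 0, 4 ^ (p.2 + 1) - 1),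
    (hS.pair ((Primrec.const 0).pair (Primrec.pred.comp
      (p_pow.comp (.const 4) (Primrec.succ.comp .snd))))).to_comp, fun w r => ?_⟩
  have e1 : (List.range (r + 1)).foldr (fun j s => T (w, r) j + s) 0 =
      ∑ j ∈ Finset.range (r + 1), T (w, r) j := by
    rw [Finset.sum_range, ← List.sum_ofFn, List.ofFn_eq_map, List.sum_eq_foldr,
      ← List.map_coe_finRange_eq_range, List.foldr_map, List.foldr_map]
  have e2 : (((4 ^ (r + 1) - 1 : ℕ) : ℝ) + 1) = 4 ^ (r + 1) := by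
    rw [Nat.cast_pred (by positivity)]; simp
  simp only [e1, e2, Nat.cast_zero, sub_zero]
  rw [M_real _ _ _ (cyl_meas w)]
  obtain ⟨t1, t2⟩ := tail _ (fun j => fr_bd (g j) (z (g j) 0) _ (cyl_meas w)) (r + 1)
  have p4 : (0 : ℝ) < 4 ^ (r + 1) := by positivity
  have b : ∀ j ∈ Finset.range (r + 1),
      |(1 / 2 : ℝ) ^ (j + 1) * fr (g j) (z (g j) 0) (cyl w) - (T (w, r) j : ℝ) / 4 ^ (r + 1)| ≤
        1 / 4 ^ (r + 1) := by
    intro j _
    have d : (0 : ℝ) < 2 ^ (j + 1) * (3 * 2 ^ g j) := by positivity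
    have c := Nat.floor_div_eq_div (K := ℝ) (4 ^ (r + 1) * cnt (g j) w) (2 ^ (j + 1) * (3 * 2 ^ g j))
    have c2 := Nat.abs_sub_floor_le (a := ((4 ^ (r + 1) * cnt (g j) w : ℕ) : ℝ) /
      (2 ^ (j + 1) * (3 * 2 ^ g j) : ℕ)) (by positivity)
    rw [c] at c2
    rw [fr_cnt, show (1 / 2 : ℝ) ^ (j + 1) * (cnt (g j) w / (3 * 2 ^ g j)) =
      (((4 ^ (r + 1) * cnt (g j) w : ℕ) : ℝ) / (2 ^ (j + 1) * (3 * 2 ^ g j) : ℕ)) / 4 ^ (r + 1) by
        push_cast; rw [one_div, inv_pow]; field_simp, ← sub_div, abs_div, abs_of_pos p4]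
    exact div_le_div_of_nonneg_right c2 p4.le
  have b2 := (Finset.abs_sum_le_sum_abs _ _).trans (Finset.sum_le_sum b)
  rw [Finset.sum_sub_distrib, ← Finset.sum_div, Finset.sum_const, Finset.card_range,
    nsmul_eq_mul] at b2
  have b3 : ((r + 1 : ℕ) : ℝ) * (1 / 4 ^ (r + 1)) ≤ (1 / 2) ^ (r + 1) := by
    have : ((r + 1 : ℕ) : ℝ) ≤ 2 ^ (r + 1) := by exact_mod_cast (Nat.lt_two_pow_self).le
    rw [show (1 / 2 : ℝ) ^ (r + 1) = 2 ^ (r + 1) * (1 / 4 ^ (r + 1)) by
      rw [show (4 : ℝ) = 2 * 2 by norm_num, mul_pow]; field_simp; simp [← mul_pow]]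
    gcongr
  push_cast at b2 b3 ⊢
  rw [abs_le] at b2 ⊢
  rw [pow_succ (1 / 2 : ℝ)] at t2 b3
  have : (0 : ℝ) < (1 / 2) ^ r := by positivity
  constructor <;> linarith [b2.1, b2.2]

end Pool.Agent.H17.Xor
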