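import Mathlib

namespace Pool.Agent.H17.Zp
open Finset

variable {p : ℕ}

noncomputable def blk (ψ : ZMod p → ℝ) (c : ZMod p) : ℝ := ψ (c - 1) + ψ c + ψ (c + 1)

noncomputable def wt (ψ : ZMod p → ℝ) (a : ZMod p) (m : ℕ) : ℝ :=
  max 0 (min 1 (2 - 4 * blk ψ (a + 3 * m))) * ∏ j ∈ range m, min 1 (4 * blk ψ (a + 3 * j))

noncomputable def nw (K : ℕ) (ψ : ZMod p → ℝ) (a i : ZMod p) : ℝ :=
  ∑ m ∈ range K, if i = a + 3 * m then wt ψ a m else 0

theorem cinj {K : ℕ} (hK : 3 * K ≤ p) (a : ZMod p) {m m' : ℕ} (hm : m < K) (hm' : m' < K)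
    {e e' : ℤ} (he : |e| ≤ 1) (he' : |e'| ≤ 1)
    (h : a + 3 * m + e = a + 3 * m' + e') : m = m' ∧ e = e' := by
  have h1 : ((3 * m + e : ℤ) : ZMod p) = ((3 * m' + e' : ℤ) : ZMod p) := by
    push_cast; linear_combination h
  rw [ZMod.intCast_eq_intCast_iff_dvd_sub] at h1
  rw [abs_le] at he he'
  have := Int.eq_zero_of_abs_lt_dvd h1 (by rw [abs_lt]; constructor <;> omega)
  omega

theorem nw_ne {K : ℕ} {ψ : ZMod p → ℝ} {a i : ZMod p} (h : nw K ψ a i ≠ 0) :
    ∃ m < K, i = a + 3 * m ∧ wt ψ a m ≠ 0 := by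
  obtain ⟨m, hm, h⟩ := exists_ne_zero_of_sum_ne_zero h
  split_ifs at h with e
  · exact ⟨m, mem_range.1 hm, e, h⟩
  · exact absurd rfl h

theorem nw_at {K : ℕ} (hK : 3 * K ≤ p) (ψ : ZMod p → ℝ) (a : ZMod p) {m : ℕ} (hm : m < K) :
    nw K ψ a (a + 3 * m) = wt ψ a m := by
  unfold nw
  rw [sum_eq_single m]
  · simp
  · intro j hj hne
    rw [if_neg]
    intro e
    exact hne (cinj hK a hm (mem_range.1 hj) (e := 0) (e' := 0) (by simp) (by simp)
      (by simpa using e)).1.symm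
  · intro h; exact absurd (mem_range.2 hm) h

theorem wt_ne {ψ : ZMod p → ℝ} {a : ZMod p} {m : ℕ} (h : wt ψ a m ≠ 0) :
    blk ψ (a + 3 * m) < 1 / 2 ∧ ∀ j < m, blk ψ (a + 3 * j) ≠ 0 := by
  obtain ⟨h1, h2⟩ := mul_ne_zero_iff.1 h
  refine ⟨?_, fun j hj e => ?_⟩
  · by_contra hn
    apply h1
    exact max_eq_left (min_le_of_right_le (by linarith))
  · exact prod_ne_zero_iff.1 h2 j (mem_range.2 hj) (by rw [e]; norm_num)

theorem blk_nonneg {ψ : ZMod p → ℝ} (h : ∀ i, 0 ≤ ψ i) (c : ZMod p) : 0 ≤ blk ψ c := by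
  have := h (c - 1); have := h c; have := h (c + 1); unfold blk; linarith

theorem wt_nonneg {ψ : ZMod p → ℝ} (h : ∀ i, 0 ≤ ψ i) (a : ZMod p) (m : ℕ) : 0 ≤ wt ψ a m :=
  mul_nonneg (le_max_left _ _) (prod_nonneg fun j _ =>
    le_min zero_le_one (by have := blk_nonneg h (a + 3 * j); linarith))

theorem nw_nonneg {ψ : ZMod p → ℝ} (h : ∀ i, 0 ≤ ψ i) (K : ℕ) (a i : ZMod p) :
    0 ≤ nw K ψ a i :=
  sum_nonneg fun m _ => by split_ifs; exacts [wt_nonneg h a m, le_rfl]

theorem cnt {K : ℕ} (hK : 3 * K ≤ p) (a : ZMod p) (M : Finset ℕ) (S : Finset (ZMod p))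
    (hM : ∀ m ∈ M, m < K ∧ ∃ e : ℤ, |e| ≤ 1 ∧ a + 3 * m + e ∈ S) : #M ≤ #S := by
  classical
  choose! h1 e h2 h3 using hM
  refine card_le_card_of_injOn (fun m => a + 3 * m + e m) (fun m hm => h3 m hm) ?_
  intro m hm m' hm' h
  exact (cinj hK a (h1 m hm) (h1 m' hm') (h2 m hm) (h2 m' hm') h).1

theorem blk_ne {ψ : ZMod p → ℝ} {c : ZMod p} (h0 : ∀ i, 0 ≤ ψ i) (h : blk ψ c ≠ 0) :
    ∃ e : ℤ, |e| ≤ 1 ∧ ψ (c + e) ≠ 0 ∧ ψ (c + e) ≤ blk ψ c := by
  have a1 := h0 (c - 1); have a2 := h0 c; have a3 := h0 (c + 1)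
  by_contra hn
  push Not at hn
  have b1 := hn (-1) (by simp)
  have b2 := hn 0 (by simp)
  have b3 := hn 1 (by simp)
  simp only [Int.cast_neg, Int.cast_one, Int.cast_zero, add_zero, ← sub_eq_add_neg] at b1 b2 b3
  unfold blk at *
  apply h
  by_cases c1 : ψ (c - 1) = 0 <;> by_cases c2 : ψ c = 0 <;> by_cases c3 : ψ (c + 1) = 0 <;>
    first | linarith | linarith [b1 c1] | linarith [b2 c2] | linarith [b3 c3]

variable [NeZero p]

noncomputable def step (K : ℕ) (ψ u : ZMod p → ℝ) (i : ZMod p) : ℝ :=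
  max 0 ((1 + min 1 (∑ a, u a)) * ψ i - min 1 (∑ a, u a)) +
    ∑ a, max 0 (min 1 (u a - 1)) * nw K ψ a i

open Classical in
def Inv (s : ℕ) (ψ : ZMod p → ℝ) : Prop :=
  (∀ i, 0 ≤ ψ i) ∧ (∀ i, ψ i = 0 ∨ ψ (i + 1) = 0) ∧ #{i | ψ i ≠ 0} ≤ s

theorem step_cases (K : ℕ) (ψ u : ZMod p → ℝ) (hu : ∀ a, 0 ≤ u a)
    (hu1 : ∀ a b, u a ≠ 0 → u b ≠ 0 → a = b) :
    (∃ σ : ℝ, 0 ≤ σ ∧ (∀ a, u a < 2) ∧ ∀ i, step K ψ u i = max 0 ((1 + σ) * ψ i - σ)) ∨
    ∃ a α, 0 ≤ α ∧ (∀ b, 2 ≤ u b → α = 1) ∧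
      ∀ i, step K ψ u i = max 0 (2 * ψ i - 1) + α * nw K ψ a i := by
  by_cases h : ∃ a, 1 < u a
  · obtain ⟨a, ha⟩ := h
    have hz : ∀ b, b ≠ a → u b = 0 := fun b hb => by
      by_contra hn; exact hb (hu1 b a hn (by linarith))
    refine Or.inr ⟨a, max 0 (min 1 (u a - 1)), le_max_left _ _, fun b hb => ?_, fun i => ?_⟩
    · have : b = a := hu1 b a (by linarith) (by linarith)
      subst this
      rw [min_eq_left (by linarith)]; norm_num
    · unfold step
      have e1 : ∑ b, u b = u a := sum_eq_single a (fun b _ hb => hz b hb) (by simp)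
      rw [e1, min_eq_left ha.le, sum_eq_single a (fun b _ hb => by rw [hz b hb]; norm_num)
        (by simp)]
      norm_num
  · push Not at h
    refine Or.inl ⟨min 1 (∑ a, u a), le_min zero_le_one (sum_nonneg fun a _ => hu a),
      fun a => by linarith [h a], fun i => ?_⟩
    unfold step
    rw [sum_eq_zero (f := fun a => max 0 (min 1 (u a - 1)) * nw K ψ a i), add_zero]
    intro a _
    rw [max_eq_left (min_le_of_right_le (by linarith [h a])), zero_mul]

theorem step_inv {K s : ℕ} (hK : 3 * K ≤ p) (hs : s < K) {ψ u : ZMod p → ℝ} (h : Inv s ψ)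
    (hu : ∀ a, 0 ≤ u a) (hu1 : ∀ a b, u a ≠ 0 → u b ≠ 0 → a = b) :
    Inv (s + 1) (step K ψ u) ∧ (((∃ i, ψ i = 1) ∨ ∃ a, 2 ≤ u a) → ∃ i, step K ψ u i = 1) := by
  classical
  obtain ⟨h0, h1, h2⟩ := h
  rcases step_cases K ψ u hu hu1 with ⟨σ, hσ, hlt, e⟩ | ⟨a, α, hα, hα1, e⟩
  · have hz : ∀ i, ψ i = 0 → step K ψ u i = 0 := fun i hi => by
      rw [e, hi]; exact max_eq_left (by linarith)
    refine ⟨⟨fun i => by rw [e]; exact le_max_left _ _, fun i => (h1 i).imp (hz _) (hz _), ?_⟩, ?_⟩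
    · refine le_trans (card_le_card fun i hi => ?_) (h2.trans (Nat.le_succ _))
      simp only [mem_filter, mem_univ, true_and] at hi ⊢
      exact fun h => hi (hz i h)
    · rintro (⟨i, hi⟩ | ⟨a, ha⟩)
      · exact ⟨i, by rw [e, hi]; norm_num⟩
      · linarith [hlt a]
  · have hc : ∀ i, step K ψ u i ≠ 0 → 1 / 2 < ψ i ∨ ∃ m < K, i = a + 3 * m ∧ wt ψ a m ≠ 0 := by
      intro i hi
      by_contra hn
      rw [not_or] at hn
      apply hi
      have : nw K ψ a i = 0 := by by_contra h'; exact hn.2 (nw_ne h')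
      rw [e, this, max_eq_left (by linarith [not_lt.1 hn.1])]; simp
    refine ⟨⟨fun i => ?_, fun i => ?_, ?_⟩, ?_⟩
    · rw [e]; exact add_nonneg (le_max_left _ _) (mul_nonneg hα (nw_nonneg h0 _ _ _))
    · by_contra hn
      rw [not_or] at hn
      rcases hc _ hn.1 with a1 | ⟨m, hm, a1, a2⟩ <;> rcases hc _ hn.2 with b1 | ⟨m', hm', b1, b2⟩
      · rcases h1 i with c | c <;> linarith
      · have := (wt_ne b2).1
        rw [← b1] at this
        unfold blk at this
        rw [add_sub_cancel_right] at this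
        linarith [h0 (i + 1), h0 (i + 1 + 1)]
      · have := (wt_ne a2).1
        rw [← a1] at this
        unfold blk at this
        linarith [h0 (i - 1), h0 i]
      · have := (cinj hK a hm hm' (e := 1) (e' := 0) (by simp) (by simp)
          (by rw [← a1, ← b1]; simp)).2
        omega
    · have c1 : ({i | step K ψ u i ≠ 0} : Finset (ZMod p)) ⊆ ({i | 1 / 2 < ψ i} : Finset (ZMod p)) ∪
          ({m ∈ range K | wt ψ a m ≠ 0}.image fun m : ℕ => a + 3 * (m : ZMod p)) := by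
        intro i hi
        simp only [mem_filter, mem_univ, true_and, mem_union, mem_image, mem_range] at hi ⊢
        rcases hc i hi with c | ⟨m, hm, c, d⟩
        · exact Or.inl c
        · exact Or.inr ⟨m, ⟨hm, d⟩, c.symm⟩
      have c2 : #{m ∈ range K | wt ψ a m ≠ 0 ∧ blk ψ (a + 3 * m) ≠ 0} ≤
          #{i | ψ i ≠ 0 ∧ ¬ 1 / 2 < ψ i} := by
        refine cnt hK a _ _ fun m hm => ?_
        simp only [mem_filter, mem_range] at hm
        obtain ⟨e, e1, e2, e3⟩ := blk_ne h0 hm.2.2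
        refine ⟨hm.1, e, e1, ?_⟩
        simp only [mem_filter, mem_univ, true_and]
        exact ⟨e2, by linarith [(wt_ne hm.2.1).1]⟩
      have c3 : #{m ∈ range K | wt ψ a m ≠ 0 ∧ ¬ blk ψ (a + 3 * m) ≠ 0} ≤ 1 := by
        refine card_le_one.2 fun m hm m' hm' => ?_
        simp only [mem_filter, mem_range, not_not] at hm hm'
        rcases lt_trichotomy m m' with c | c | c
        · exact absurd hm.2.2 ((wt_ne hm'.2.1).2 m c)
        · exact c
        · exact absurd hm'.2.2 ((wt_ne hm.2.1).2 m' c)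
      have c4 := card_filter_add_card_filter_not (s := {m ∈ range K | wt ψ a m ≠ 0})
        (fun m => blk ψ (a + 3 * m) ≠ 0)
      have c5 := card_filter_add_card_filter_not (s := ({i | ψ i ≠ 0} : Finset (ZMod p)))
        (fun i => 1 / 2 < ψ i)
      rw [filter_filter, filter_filter] at c4 c5
      have c6 : #{i | 1 / 2 < ψ i} ≤ #{i | ψ i ≠ 0 ∧ 1 / 2 < ψ i} := by
        refine card_le_card fun i hi => ?_
        simp only [mem_filter, mem_univ, true_and] at hi ⊢
        exact ⟨by linarith, hi⟩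
      have c7 := (card_le_card c1).trans ((card_union_le _ _).trans
        (Nat.add_le_add_left card_image_le _))
      omega
    · rintro (⟨i, hi⟩ | ⟨b, hb⟩)
      · refine ⟨i, ?_⟩
        have : nw K ψ a i = 0 := by
          by_contra h'
          obtain ⟨m, -, a1, a2⟩ := nw_ne h'
          have := (wt_ne a2).1
          rw [← a1] at this
          unfold blk at this
          linarith [h0 (i - 1), h0 (i + 1)]
        rw [e, this, hi]; norm_num
      · have ex : ∃ m, m < K ∧ blk ψ (a + 3 * m) < 1 / 4 := by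
          by_contra hn
          push Not at hn
          have := cnt hK a (range K) {i | ψ i ≠ 0} fun m hm => by
            have hm := mem_range.1 hm
            obtain ⟨e, e1, e2, -⟩ := blk_ne h0 (c := a + 3 * (m : ZMod p))
              (by linarith [hn m hm])
            exact ⟨hm, e, e1, by simpa using e2⟩
          rw [card_range] at this
          omega
        have m1 := Nat.find_spec ex
        have m2 := fun j => Nat.find_min ex (m := j)
        set m := Nat.find ex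
        refine ⟨a + 3 * m, ?_⟩
        have w1 : wt ψ a m = 1 := by
          unfold wt
          rw [min_eq_left (by linarith [m1.2]), prod_eq_one]
          · norm_num
          · intro j hj
            have hj := mem_range.1 hj
            have := m2 j hj
            rw [not_and, not_lt] at this
            exact min_eq_left (by linarith [this (by omega)])
        have := m1.2
        unfold blk at this
        rw [e, nw_at hK ψ a m1.1, w1, hα1 b hb, max_eq_left (by
          linarith [h0 (a + 3 * m - 1), h0 (a + 3 * m + 1)])]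
        norm_num

noncomputable def mk (K : ℕ) (u : ℕ → ZMod p → ℝ) : ℕ → ZMod p → ℝ
  | 0 => fun _ => 0
  | n + 1 => step K (mk K u n) (u n)

theorem mk_inv {K : ℕ} (hK : 3 * K ≤ p) {u : ℕ → ZMod p → ℝ} (hu : ∀ n a, 0 ≤ u n a)
    (hu1 : ∀ n a b, u n a ≠ 0 → u n b ≠ 0 → a = b) (n : ℕ) (hn : n ≤ K) :
    Inv n (mk K u n) ∧ ((∃ j < n, ∃ a, 2 ≤ u j a) → ∃ i, mk K u n i = 1) := by
  induction n with
  | zero => exact ⟨⟨fun _ => le_rfl, fun _ => Or.inl rfl, by simp [mk]⟩, by simp⟩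
  | succ n ih =>
    obtain ⟨a, b⟩ := ih (by omega)
    obtain ⟨c, d⟩ := step_inv hK (by omega : n < K) a (hu n) (hu1 n)
    refine ⟨c, fun ⟨j, hj, e⟩ => d ?_⟩
    rcases Nat.lt_succ_iff_lt_or_eq.1 hj with h | rfl
    · exact Or.inl (b ⟨j, h, e⟩)
    · exact Or.inr e

theorem step_sh (K : ℕ) (ψ u : ZMod p → ℝ) (c i : ZMod p) :
    step K (fun i => ψ (i - c)) (fun i => u (i - c)) i = step K ψ u (i - c) := by
  unfold step
  have e0 : ∑ a, u (a - c) = ∑ a, u a := Equiv.sum_comp (Equiv.subRight c) u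
  simp only [e0]
  congr 1
  refine Fintype.sum_equiv (Equiv.subRight c) _ _ fun a => ?_
  have hb : ∀ m : ZMod p, blk (fun i => ψ (i - c)) (a + 3 * m) = blk ψ (a - c + 3 * m) := by
    intro m; unfold blk; ring_nf
  simp only [Equiv.subRight_apply, nw, wt, hb]
  congr 1
  refine sum_congr rfl fun m _ => if_congr ?_ rfl rfl
  constructor <;> intro h <;> linear_combination h

theorem mk_sh (K : ℕ) (u : ℕ → ZMod p → ℝ) (c : ZMod p) (n : ℕ) :
    mk K (fun n i => u n (i - c)) n = fun i => mk K u n (i - c) := by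
  induction n with
  | zero => rfl
  | succ n ih => funext i; simp only [mk, ih, step_sh]

theorem mk_cont {Y : Type} [TopologicalSpace Y] (K : ℕ) (u : Y → ℕ → ZMod p → ℝ)
    (hu : ∀ n a, Continuous fun y => u y n a) (n : ℕ) (i : ZMod p) :
    Continuous fun y => mk K (u y) n i := by
  induction n generalizing i with
  | zero => exact continuous_const
  | succ n ih =>
    have hw : ∀ a m, Continuous fun y => wt (mk K (u y) n) a m := fun a m => by
      unfold wt blk; fun_prop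
    have hn : ∀ a, Continuous fun y => nw K (mk K (u y) n) a i := fun a => by
      unfold nw
      refine continuous_finsetSum _ fun m _ => ?_
      split_ifs
      exacts [hw a m, continuous_const]
    simp only [mk, step]
    fun_prop

noncomputable def lin (ψ : ZMod p → ℝ) (i : ZMod p) : ℝ :=
  ∑ k ∈ range p, ∏ l ∈ range (k + 1), (1 - ψ (i + l))

theorem lin_rec {ψ : ZMod p → ℝ} (h : ∃ j, ψ j = 1) {i : ZMod p} (hi : ψ i = 0) :
    lin ψ i = lin ψ (i + 1) + 1 := by
  obtain ⟨j, hj⟩ := h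
  have e1 : lin ψ i = ∑ k ∈ range p, ∏ l ∈ range k, (1 - ψ (i + 1 + l)) := by
    refine sum_congr rfl fun k _ => ?_
    rw [prod_range_succ']
    simp only [Nat.cast_zero, add_zero, hi, sub_zero, mul_one]
    refine prod_congr rfl fun l _ => ?_
    congr 2; push_cast; ring
  have e2 : ∏ l ∈ range p, (1 - ψ (i + 1 + l)) = 0 :=
    prod_eq_zero (i := (j - (i + 1)).val) (mem_range.2 (ZMod.val_lt _)) (by simp [hj])
  have e3 := sum_range_succ (fun k => ∏ l ∈ range k, (1 - ψ (i + 1 + l))) p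
  rw [sum_range_succ', e2] at e3
  rw [e1]; unfold lin
  simpa using e3.symm

end Pool.Agent.H17.Zp
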