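import Mathlib

namespace Pool.Agent.H17.Zp

/-- `E_n ℤ_p`, the join of `n + 1` copies of `ℤ_p`, in barycentric coordinates: the vertices are the
pairs `(a, i)`, and a simplex has at most one vertex on each level `i`. -/
def E (p n : ℕ) [NeZero p] : Set (ZMod p × Fin (n + 1) → ℝ) :=
  {x | (∀ v, 0 ≤ x v) ∧ ∑ v, x v = 1 ∧ ∀ u v, x u ≠ 0 → x v ≠ 0 → u.2 = v.2 → u = v}

/-- The set `P_p(X)` of `p`-periodic points. -/
def Per {X : Type} (T : X → X) (p : ℕ) : Set X := {x | T^[p] x = x}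

/-- There is a continuous equivariant map `P_p(X) → E_n ℤ_p`. -/
def IndMap {X : Type} [TopologicalSpace X] (T : X → X) (p n : ℕ) [NeZero p] : Prop :=
  ∃ f : Per T p → E p n, Continuous f ∧
    ∀ x y : Per T p, y.1 = T x.1 → ∀ a i, (f y).1 (a + 1, i) = (f x).1 (a, i)

/-- There is a continuous equivariant map `E_n ℤ_p → P_p(X)`. -/
def CoindMap {X : Type} [TopologicalSpace X] (T : X → X) (p n : ℕ) [NeZero p] : Prop :=
  ∃ g : E p n → Per T p, Continuous g ∧
    ∀ x y : E p n, (∀ a i, y.1 (a + 1, i) = x.1 (a, i)) → (g y).1 = T (g x).1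

/-- `A` is `n`-connected: nonempty, with `π_i(A, x)` trivial for all `i ≤ n` and all base points. -/
def NConn (A : Type) [TopologicalSpace A] (n : ℕ) : Prop :=
  Nonempty A ∧ ∀ i ≤ n, ∀ x : A, Subsingleton (HomotopyGroup.Pi i A x)

end Pool.Agent.H17.Zp
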