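import Mathlib
import Pool.Agent.H17.Zp1
import Pool.Agent.H17.ZpDefs
import Pool.Agent.H4.GIdxB

namespace Pool.Agent.H17.Zp
open Finset

variable {p k : ℕ} [NeZero p]

def sh (c : ZMod p) (x : ZMod p × Fin (k + 1) → ℝ) : ZMod p × Fin (k + 1) → ℝ :=
  fun v => x (v.1 - c, v.2)

omit [NeZero p] in
theorem sh_sh (c d : ZMod p) (x : ZMod p × Fin (k + 1) → ℝ) : sh c (sh d x) = sh (c + d) x := by
  funext v; simp [sh, sub_sub]

theorem re_mem (e : ZMod p ≃ ZMod p) {x : ZMod p × Fin (k + 1) → ℝ} (h : x ∈ E p k) :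
    (fun v => x (e v.1, v.2)) ∈ E p k := by
  refine ⟨fun v => h.1 _, ?_, fun u v hu hv e' => ?_⟩
  · rw [← h.2.1]
    exact Fintype.sum_equiv (e.prodCongr (Equiv.refl _)) _ _ (fun v => rfl)
  · have := h.2.2 _ _ hu hv e'
    simp only [Prod.mk.injEq, EmbeddingLike.apply_eq_iff_eq] at this
    exact Prod.ext this.1 e'

theorem sh_mem (c : ZMod p) {x : ZMod p × Fin (k + 1) → ℝ} (h : x ∈ E p k) : sh c x ∈ E p k :=
  re_mem (Equiv.subRight c) h

open Multiplicative in
theorem E_iff (x : ZMod p × Fin (k + 1) → ℝ) : x ∈ E p k ↔ (fun v => x (toAdd v.1, v.2)) ∈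
    H4.GIdx.geo (H4.GIdx.EF (Multiplicative (ZMod p)) k) := by
  rw [H4.GIdx.mem_E]
  refine and_congr ⟨fun h v => h _, fun h v => h (ofAdd v.1, v.2)⟩ (and_congr ?_ ⟨?_, ?_⟩)
  · rw [Fintype.sum_equiv ((toAdd (α := ZMod p)).prodCongr (Equiv.refl (Fin (k + 1))))
      (fun v => x (toAdd v.1, v.2)) x (fun v => rfl)]
  · intro h u v hu hv e
    have := h _ _ hu hv e
    simp only [Prod.mk.injEq, EmbeddingLike.apply_eq_iff_eq] at this
    exact Prod.ext this.1 e
  · intro h u v hu hv e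
    have := h (ofAdd u.1, u.2) (ofAdd v.1, v.2) hu hv e
    simp only [Prod.mk.injEq, EmbeddingLike.apply_eq_iff_eq] at this
    exact Prod.ext this.1 e

open Multiplicative in
instance : CompactSpace (E p k) := by
  refine isCompact_iff_compactSpace.1 ?_
  have : E p k = (fun (y : Multiplicative (ZMod p) × Fin (k + 1) → ℝ)
      (v : ZMod p × Fin (k + 1)) => y (ofAdd v.1, v.2)) ''
        H4.GIdx.geo (H4.GIdx.EF (Multiplicative (ZMod p)) k) := by
    ext x
    refine ⟨fun h => ⟨_, (E_iff x).1 h, rfl⟩, ?_⟩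
    rintro ⟨y, hy, rfl⟩
    exact (E_iff _).2 hy
  rw [this]
  exact (H4.GIdx.geo_compact _).image (by fun_prop)

open Multiplicative in
theorem dold (hp : 1 < p) {m k : ℕ} (f : E p m → E p k) (hf : Continuous f)
    (he : ∀ x y : E p m, (∀ a i, y.1 (a + 1, i) = x.1 (a, i)) →
      ∀ a i, (f y).1 (a + 1, i) = (f x).1 (a, i)) : m ≤ k := by
  by_contra hk
  have : Fact (1 < p) := ⟨hp⟩
  have key : ∀ (j : ℕ) (x y : E p m), (∀ a i, y.1 (a + j, i) = x.1 (a, i)) → ∀ a i,
      (f y).1 (a + j, i) = (f x).1 (a, i) := by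
    intro j
    induction j with
    | zero =>
      intro x y h a i
      have : y = x := by ext v; simpa using h v.1 v.2
      simp [this]
    | succ j ih =>
      intro x y h a i
      rw [← ih x ⟨sh j x.1, sh_mem _ x.2⟩ (fun a i => by simp [sh]) a i,
        ← he ⟨sh j x.1, sh_mem _ x.2⟩ y (fun a i => by
          simp only [sh]; rw [← h]; push_cast; ring_nf)]
      push_cast; ring_nf
  let back : H4.GIdx.geo (H4.GIdx.EF (Multiplicative (ZMod p)) m) → E p m := fun y =>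
    ⟨fun v => y.1 (ofAdd v.1, v.2), (E_iff _).2 y.2⟩
  have hb : Continuous back := Continuous.subtype_mk (continuous_pi fun v =>
    (continuous_apply (ofAdd v.1, v.2)).comp continuous_subtype_val) _
  refine H4.GIdx.dold (G := Multiplicative (ZMod p)) (not_le.1 hk)
    (fun x => ⟨fun v => (f (back x)).1 (toAdd v.1, v.2), (E_iff _).1 (f _).2⟩)
    (Continuous.subtype_mk (continuous_pi fun v : Multiplicative (ZMod p) × Fin (k + 1) =>
      (continuous_apply (toAdd v.1, v.2)).comp (continuous_subtype_val.comp (hf.comp hb))) _) ?_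
  intro a x y hxy h i
  have := key (toAdd a).val (back x) (back y) (fun b j => by
    have := hxy (ofAdd b) j
    simp only [back, ZMod.natCast_val, ZMod.cast_id', id_eq, ofAdd_add, ofAdd_toAdd]
    rw [mul_comm]; exact this) (toAdd h) i
  simp only [ZMod.natCast_val, ZMod.cast_id', id_eq] at this
  simp only [toAdd_mul]
  rw [add_comm (toAdd a)]; exact this

noncomputable def lv (x : ZMod p × Fin (k + 1) → ℝ) (n : ℕ) (a : ZMod p) : ℝ :=
  if h : n < k + 1 then x (a, ⟨n, h⟩) else 0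

noncomputable def F (x : ZMod p × Fin (k + 1) → ℝ) : ℝ :=
  lin (mk (k + 1) (fun n a => 2 * (k + 1) * lv x n a) (k + 1)) 0

omit [NeZero p] in
theorem lv_cont (n : ℕ) (a : ZMod p) : Continuous fun x : ZMod p × Fin (k + 1) → ℝ => lv x n a := by
  unfold lv; split_ifs <;> fun_prop

theorem F_cont : Continuous (F : (ZMod p × Fin (k + 1) → ℝ) → ℝ) := by
  have := fun i => mk_cont (k + 1) (fun (x : ZMod p × Fin (k + 1) → ℝ) n a =>
    2 * (k + 1) * lv x n a) (fun n a => continuous_const.mul (lv_cont n a)) (k + 1) i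
  unfold F lin
  fun_prop

theorem F_sh (c : ZMod p) (x : ZMod p × Fin (k + 1) → ℝ) : F (sh c x) =
    lin (mk (k + 1) (fun n a => 2 * (k + 1) * lv x n a) (k + 1)) (-c) := by
  have := mk_sh (k + 1) (fun n a => 2 * (k + 1) * lv x n a) c (k + 1)
  have e : ∀ n a, lv (sh c x) n a = lv x n (a - c) := fun n a => rfl
  unfold F lin
  simp only [e, this]
  refine sum_congr rfl fun _ _ => prod_congr rfl fun l _ => ?_
  congr 2; ring

theorem F_step (hK : 3 * (k + 1) ≤ p) {x : ZMod p × Fin (k + 1) → ℝ} (hx : x ∈ E p k) :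
    F (sh 1 x) = F x + 1 ∨ F (sh 2 x) = F (sh 1 x) + 1 := by
  have hk : (0 : ℝ) < 2 * (k + 1) := by positivity
  obtain ⟨⟨-, h1, -⟩, h2⟩ := mk_inv hK (u := fun n a => 2 * (k + 1) * lv x n a)
    (fun n a => mul_nonneg hk.le (by unfold lv; split_ifs; exacts [hx.1 _, le_rfl]))
    (fun n a b ha hb => by
      have ha := right_ne_zero_of_mul ha
      have hb := right_ne_zero_of_mul hb
      unfold lv at ha hb
      split_ifs at ha hb with h
      · exact congrArg Prod.fst (hx.2.2 _ _ ha hb rfl)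
      · exact absurd rfl ha) (k + 1) le_rfl
  have h3 := h2 (by
    by_contra hn
    push Not at hn
    have a1 : ∀ j : Fin (k + 1), ∑ a, x (a, j) < 1 / (k + 1) := by
      intro j
      have b : ∀ a, x (a, j) < 1 / (k + 1) := fun a => by
        have := hn j j.2 a
        simp only [lv, j.2, dite_true, Fin.eta] at this
        rw [lt_div_iff₀ (by positivity)]; linarith
      by_cases h : ∃ a, x (a, j) ≠ 0
      · obtain ⟨a, ha⟩ := h
        rw [sum_eq_single a (fun b _ hb => by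
          by_contra h'; exact hb (congrArg Prod.fst (hx.2.2 _ _ h' ha rfl))) (by simp)]
        exact b a
      · push Not at h
        simp only [h, sum_const_zero]; positivity
    have a2 := sum_lt_sum_of_nonempty univ_nonempty fun j (_ : j ∈ univ) => a1 j
    rw [← Fintype.sum_prod_type_right, hx.2.1] at a2
    simp only [sum_const, card_univ, Fintype.card_fin, nsmul_eq_mul] at a2
    push_cast at a2
    rw [mul_one_div_cancel (by positivity)] at a2
    exact lt_irrefl _ a2)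
  have e0 : F x = F (sh 0 x) := by congr 1; funext v; simp [sh]
  rw [e0, F_sh, F_sh, F_sh]
  rcases h1 (-2) with c | c
  · right; rw [lin_rec h3 c]; congr 2; ring
  · left
    rw [show (-2 + 1 : ZMod p) = -1 by ring] at c
    rw [lin_rec h3 c]; congr 2; ring

instance two_pos_fact : Fact ((0 : ℝ) < 2) := ⟨two_pos⟩

abbrev Om := ℤ → ℕ → AddCircle (2 : ℝ) × unitInterval

def S : Om ≃ₜ Om where
  toFun z i := z (i + 1)
  invFun z i := z (i - 1)
  left_inv z := by funext i; simp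
  right_inv z := by funext i; simp

theorem S_iter (q : ℕ) (z : Om) (i : ℤ) : S^[q] z i = z (i + q) := by
  induction q generalizing z i with
  | zero => simp
  | succ q ih => rw [Function.iterate_succ_apply, ih]; show z (i + q + 1) = _; congr 1; push_cast; ring

noncomputable def emb (x : E p k) : Om := fun i n =>
  ((F fun v : ZMod p × Fin (k + 1) => sh i x.1 (n * v.1, v.2) : ℝ),
    Set.projIcc 0 1 zero_le_one (lv (sh i x.1) n 0))

theorem emb_cont : Continuous (emb : E p k → Om) := by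
  refine continuous_pi fun i => continuous_pi fun n => Continuous.prodMk ?_ ?_
  · refine (AddCircle.continuous_mk' 2).comp (F_cont.comp ?_)
    exact continuous_pi fun v => (continuous_apply _).comp continuous_subtype_val
  · refine continuous_projIcc.comp ((lv_cont n 0).comp ?_)
    exact continuous_pi fun v => (continuous_apply _).comp continuous_subtype_val

theorem emb_sh (c : ℤ) (x : E p k) (i : ℤ) :
    emb ⟨sh c x.1, sh_mem _ x.2⟩ i = emb x (i + c) := by
  funext n; simp only [emb, sh_sh, Int.cast_add]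

theorem emb_inj : Function.Injective (emb : E p k → Om) := by
  intro x y h
  ext ⟨a, j⟩
  have := congrArg Prod.snd (congrFun (congrFun h (-(a.val : ℤ))) j)
  have hm : ∀ x : E p k, x.1 (a, j) ∈ Set.Icc (0 : ℝ) 1 := fun x =>
    ⟨x.2.1 _, x.2.2.1 ▸ single_le_sum (fun v _ => x.2.1 v) (mem_univ _)⟩
  simp only [emb, lv, j.2, dite_true, sh, Int.cast_neg, Int.cast_natCast, ZMod.natCast_zmod_val,
    sub_neg_eq_add, zero_add, Fin.eta] at this
  rw [Set.projIcc_of_mem _ (hm x), Set.projIcc_of_mem _ (hm y)] at this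
  exact congrArg Subtype.val this

def Cq (q : ℕ) : Set Om :=
  {z | (z q q).1 = (z 0 q).1 + ((1 : ℝ) : AddCircle (2 : ℝ)) ∨
    (z (2 * q) q).1 = (z q q).1 + ((1 : ℝ) : AddCircle (2 : ℝ))}

theorem Cq_closed (q : ℕ) : IsClosed (Cq q) :=
  (isClosed_eq (by fun_prop) (by fun_prop)).union (isClosed_eq (by fun_prop) (by fun_prop))

theorem Cq_per {q : ℕ} {z : Om} (h : z ∈ Cq q) : S^[q] z ≠ z := by
  intro e
  have e1 : z q = z 0 := by rw [← congrFun e 0, S_iter, zero_add]
  have e2 : z (2 * q) = z q := by rw [← congrFun e q, S_iter, two_mul]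
  have h1 : ((1 : ℝ) : AddCircle (2 : ℝ)) = 0 := by
    rcases h with h | h
    · rw [e1] at h; exact left_eq_add.1 h
    · rw [e2] at h; exact left_eq_add.1 h
  exact one_ne_zero ((AddCircle.coe_eq_zero_iff_of_mem_Ico (p := (2 : ℝ)) (by norm_num)).1 h1)

theorem emb_Cq (hp : p.Prime) (hK : 3 * (k + 1) ≤ p) (x : E p k) {q : ℕ} (h0 : 0 < q)
    (h1 : q < p) : emb x ∈ Cq q := by
  have := Fact.mk hp
  have hq : (q : ZMod p) ≠ 0 := by
    rw [Ne, ZMod.natCast_eq_zero_iff]; exact Nat.not_dvd_of_pos_of_lt h0 h1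
  have := F_step hK (re_mem (Equiv.mulLeft₀ (q : ZMod p) hq) x.2)
  have e : ∀ c : ℤ, (fun v : ZMod p × Fin (k + 1) => sh ((c * q : ℤ) : ZMod p) x.1 (q * v.1, v.2)) =
      sh c fun v => x.1 (Equiv.mulLeft₀ (q : ZMod p) hq v.1, v.2) := by
    intro c; funext v; simp only [sh, Equiv.mulLeft₀_apply]; push_cast; ring_nf
  have e0 := e 0
  have e1 := e 1
  have e2 := e 2
  rw [zero_mul] at e0
  rw [one_mul] at e1
  have e3 : ∀ y : ZMod p × Fin (k + 1) → ℝ, sh ((0 : ℤ) : ZMod p) y = y := by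
    intro y; funext v; simp [sh]
  rw [e3 fun v => x.1 (Equiv.mulLeft₀ (q : ZMod p) hq v.1, v.2)] at e0
  simp only [Cq, Set.mem_ofPred_eq, emb, e0, e1, e2, Int.cast_one, Int.cast_ofNat]
  rcases this with h | h
  · left; rw [h]; rfl
  · right; rw [h]; rfl

open Classical in
noncomputable def Y (p : ℕ) : Set Om :=
  if h : p.Prime ∧ 3 ≤ p then
    haveI : NeZero p := ⟨h.1.ne_zero⟩
    Set.range (emb : E p (p / 3 - 1) → Om)
  else ∅

theorem Y_eq (hp : p.Prime) (h3 : 3 ≤ p) : Y p = Set.range (emb : E p (p / 3 - 1) → Om) := by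
  rw [Y, dif_pos ⟨hp, h3⟩]

theorem S_emb (x : E p k) : S (emb x) = emb ⟨sh (1 : ℤ) x.1, sh_mem _ x.2⟩ := by
  funext i; rw [emb_sh]; rfl

theorem Y_prop (r : ℕ) : IsClosed (Y r) ∧ (∀ z, z ∈ Y r ↔ S z ∈ Y r) ∧
    (∀ z ∈ Y r, r.Prime ∧ S^[r] z = z) ∧ ∀ z ∈ Y r, ∀ q, 0 < q → q < r → z ∈ Cq q := by
  by_cases h : r.Prime ∧ 3 ≤ r
  · have : NeZero r := ⟨h.1.ne_zero⟩
    rw [Y_eq h.1 h.2]
    refine ⟨(isCompact_range emb_cont).isClosed, fun z => ⟨?_, ?_⟩, ?_, ?_⟩
    · rintro ⟨x, rfl⟩; exact ⟨_, (S_emb x).symm⟩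
    · rintro ⟨x, hx⟩
      refine ⟨⟨sh (-1 : ℤ) x.1, sh_mem _ x.2⟩, ?_⟩
      funext i; rw [emb_sh, hx]; show z (i + -1 + 1) = _; simp
    · rintro _ ⟨x, rfl⟩
      refine ⟨h.1, ?_⟩
      funext i
      rw [S_iter, ← emb_sh]
      congr 1; ext v; simp [sh]
    · rintro _ ⟨x, rfl⟩ q h0 h1
      exact emb_Cq h.1 (by omega) x h0 h1
  · simp [Y, h]

def XX : Set Om := closure (⋃ r, Y r)

theorem XX_sub (q : ℕ) (h0 : 0 < q) : XX ⊆ (⋃ r ∈ Set.Iic q, Y r) ∪ Cq q := by
  refine closure_minimal ?_ (IsClosed.union ((Set.finite_Iic q).isClosed_biUnion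
    fun r _ => (Y_prop r).1) (Cq_closed q))
  intro z hz
  obtain ⟨r, hr⟩ := Set.mem_iUnion.1 hz
  by_cases h : r ≤ q
  · exact Or.inl (Set.mem_biUnion h hr)
  · exact Or.inr ((Y_prop r).2.2.2 z hr q h0 (by omega))

theorem XX_fix {z : Om} (hz : z ∈ XX) : S z ≠ z := by
  rcases XX_sub 1 one_pos hz with h | h
  · obtain ⟨r, h1, h2⟩ := Set.mem_iUnion₂.1 h
    have := ((Y_prop r).2.2.1 z h2).1.two_le
    have : r ≤ 1 := h1
    omega
  · exact Cq_per h

theorem XX_per {z : Om} (hz : z ∈ XX) {q : ℕ} (hq : q.Prime) (h : S^[q] z = z) : z ∈ Y q := by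
  rcases XX_sub q hq.pos hz with h' | h'
  · obtain ⟨r, -, h2⟩ := Set.mem_iUnion₂.1 h'
    obtain ⟨a, b⟩ := (Y_prop r).2.2.1 z h2
    by_cases e : r = q
    · exact e ▸ h2
    · have := Function.IsPeriodicPt.gcd (f := S) b h
      rw [(Nat.coprime_primes a hq).2 e] at this
      exact absurd this (XX_fix hz)
  · exact absurd h (Cq_per h')

theorem XX_inv (z : Om) : z ∈ XX ↔ S z ∈ XX := by
  have : S ⁻¹' (⋃ r, Y r) = ⋃ r, Y r := by
    ext z; simp only [Set.mem_preimage, Set.mem_iUnion, ← (Y_prop _).2.1]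
  conv_lhs => rw [XX, ← this, ← S.preimage_closure]
  rfl

def TT : XX ≃ₜ XX := S.subtype XX_inv

instance : CompactSpace XX := isCompact_iff_compactSpace.1 isClosed_closure.isCompact

theorem TT_iter (q : ℕ) (z : XX) : (TT^[q] z).1 = S^[q] z.1 := by
  induction q generalizing z with
  | zero => rfl
  | succ q ih => rw [Function.iterate_succ_apply, ih]; rfl

theorem TT_fix (z : XX) : TT z ≠ z := fun h => XX_fix z.2 (congrArg Subtype.val h)

theorem exists_homeo (hp : p.Prime) (h3 : 3 ≤ p) : ∃ e : E p (p / 3 - 1) ≃ₜ Per TT p,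
    ∀ x y, (∀ a i, y.1 (a + 1, i) = x.1 (a, i)) ↔ (e y).1 = TT (e x).1 := by
  have hY : ∀ x : E p (p / 3 - 1), emb x ∈ Y p := fun x => by rw [Y_eq hp h3]; exact ⟨x, rfl⟩
  let g : E p (p / 3 - 1) → Per TT p := fun x =>
    ⟨⟨emb x, subset_closure (Set.mem_iUnion.2 ⟨p, hY x⟩)⟩,
      Subtype.ext ((TT_iter _ _).trans ((Y_prop p).2.2.1 _ (hY x)).2)⟩
  have hg : Function.Bijective g := by
    refine ⟨fun x y h => emb_inj (congrArg (fun z => z.1.1) h), fun z => ?_⟩
    have := XX_per z.1.2 hp ((TT_iter _ _).symm.trans (congrArg Subtype.val z.2))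
    rw [Y_eq hp h3] at this
    obtain ⟨x, hx⟩ := this
    exact ⟨x, Subtype.ext (Subtype.ext hx)⟩
  have hc : Continuous (Equiv.ofBijective g hg) :=
    (emb_cont.subtype_mk _).subtype_mk _
  refine ⟨hc.homeoOfEquivCompactToT2, fun x y => ?_⟩
  show _ ↔ (g y).1 = TT (g x).1
  rw [Subtype.ext_iff]
  show _ ↔ emb y = S (emb x)
  rw [S_emb, emb_inj.eq_iff]
  constructor
  · intro h; ext v; simp only [sh, Int.cast_one]; rw [← h]; simp
  · rintro rfl a i; simp [sh]

theorem ind_eq (hp : p.Prime) (h3 : 3 ≤ p) : IsLeast {n | IndMap TT p n} (p / 3 - 1) := by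
  obtain ⟨e, he⟩ := exists_homeo hp h3
  refine ⟨⟨e.symm, e.symm.continuous, fun x y h => (he _ _).2 (by simpa using h)⟩, ?_⟩
  rintro n ⟨f, hf, h⟩
  exact dold hp.one_lt (f ∘ e) (hf.comp e.continuous) fun x y hxy => h _ _ ((he x y).1 hxy)

theorem coind_eq (hp : p.Prime) (h3 : 3 ≤ p) : IsGreatest {n | CoindMap TT p n} (p / 3 - 1) := by
  obtain ⟨e, he⟩ := exists_homeo hp h3
  refine ⟨⟨e, e.continuous, fun x y h => (he _ _).1 h⟩, ?_⟩
  rintro n ⟨f, hf, h⟩
  exact dold hp.one_lt (e.symm ∘ f) (e.symm.continuous.comp hf) fun x y hxy =>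
    (he _ _).2 (by simpa using h x y hxy)

end Pool.Agent.H17.Zp
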