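import Mathlib
import Pool.Agent.H17.ZpDefs

namespace Pool.Agent.H17.Zp
open Finset

variable {p k : ℕ} [NeZero p]

noncomputable def sg (g : Fin (k + 1) → ZMod p) (x : ZMod p × Fin (k + 1) → ℝ) (j : Fin (k + 1)) :
    ℝ := 2 * x (g j, j) - ∑ a, x (a, j)

noncomputable def fl (g : Fin (k + 1) → ZMod p) (x : ZMod p × Fin (k + 1) → ℝ)
    (τ : Fin (k + 1) → ℝ) (v : ZMod p × Fin (k + 1)) : ℝ :=
  if v.1 = g v.2 then max 0 (sg g x v.2 + τ v.2) else max 0 (x v - τ v.2)

variable {g : Fin (k + 1) → ZMod p} {x : ZMod p × Fin (k + 1) → ℝ} {τ : Fin (k + 1) → ℝ}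

theorem lev_sum (hx : x ∈ E p k) {a : ZMod p} {j : Fin (k + 1)} (h : x (a, j) ≠ 0) :
    ∑ a, x (a, j) = x (a, j) :=
  sum_eq_single a (fun b _ hb => by
    by_contra h'; exact hb (congrArg Prod.fst (hx.2.2 _ _ h' h rfl))) (by simp)

theorem sgE (hx : x ∈ E p k) {a : ZMod p} {j : Fin (k + 1)} (ha : a ≠ g j) (h : x (a, j) ≠ 0) :
    sg g x j = -x (a, j) := by
  have : x (g j, j) = 0 := by
    by_contra h'; exact ha (congrArg Prod.fst (hx.2.2 _ _ h h' rfl))
  rw [sg, lev_sum hx h, this]; ring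

theorem sg_cases (hx : x ∈ E p k) (j : Fin (k + 1)) :
    (∃ a, a ≠ g j ∧ 0 < x (a, j) ∧ x (g j, j) = 0 ∧ sg g x j = -x (a, j)) ∨
    ((∀ a, a ≠ g j → x (a, j) = 0) ∧ sg g x j = x (g j, j)) := by
  by_cases h : ∃ a, a ≠ g j ∧ x (a, j) ≠ 0
  · obtain ⟨a, h1, h2⟩ := h
    refine Or.inl ⟨a, h1, (hx.1 _).lt_of_ne' h2, ?_, sgE hx h1 h2⟩
    by_contra h'; exact h1 (congrArg Prod.fst (hx.2.2 _ _ h2 h' rfl))
  · push Not at h
    refine Or.inr ⟨h, ?_⟩
    rw [sg, sum_eq_single (g j) (fun b _ hb => h b hb) (by simp)]; ring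

theorem fl_zero (hx : x ∈ E p k) : fl g x 0 = x := by
  funext ⟨a, j⟩
  simp only [fl, Pi.zero_apply, add_zero, sub_zero]
  split_ifs with h
  · subst h
    rcases sg_cases (g := g) hx j with ⟨a, -, h1, h2, h3⟩ | ⟨-, h⟩
    · rw [h2, h3]; exact max_eq_left (by linarith)
    · rw [h]; exact max_eq_right (hx.1 _)
  · exact max_eq_right (hx.1 _)

theorem fl_nonneg (v : ZMod p × Fin (k + 1)) : 0 ≤ fl g x τ v := by
  unfold fl; split_ifs <;> exact le_max_left _ _

theorem fl_pos (hx : x ∈ E p k) (hτ : ∀ j, 0 ≤ τ j) {j : Fin (k + 1)} (h : 0 ≤ sg g x j + τ j)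
    {a : ZMod p} (ha : a ≠ g j) : fl g x τ (a, j) = 0 := by
  simp only [fl, ha, if_false]
  by_cases h' : x (a, j) = 0
  · rw [h']; exact max_eq_left (by linarith [hτ j])
  · rw [sgE hx ha h'] at h; exact max_eq_left (by linarith)

theorem fl_uniq (hx : x ∈ E p k) (hτ : ∀ j, 0 ≤ τ j) {j : Fin (k + 1)} {a b : ZMod p}
    (ha : fl g x τ (a, j) ≠ 0) (hb : fl g x τ (b, j) ≠ 0) : a = b := by
  by_cases h : 0 ≤ sg g x j + τ j
  · have : ∀ a, fl g x τ (a, j) ≠ 0 → a = g j := fun a ha => by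
      by_contra h'; exact ha (fl_pos hx hτ h h')
    rw [this a ha, this b hb]
  · have : ∀ a, fl g x τ (a, j) ≠ 0 → x (a, j) ≠ 0 := fun a ha h' => by
      apply ha
      simp only [fl]
      split_ifs
      · exact max_eq_left (by linarith)
      · rw [h']; exact max_eq_left (by linarith [hτ j])
    exact congrArg Prod.fst (hx.2.2 _ _ (this a ha) (this b hb) rfl)

theorem fl_eq_zero (hx : x ∈ E p k) (hτ : ∀ j, 0 ≤ τ j) (h : ∀ v, fl g x τ v = 0)
    (j : Fin (k + 1)) : sg g x j + τ j = 0 := by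
  have h1 := h (g j, j)
  simp only [fl, if_true, max_eq_left_iff] at h1
  refine le_antisymm h1 ?_
  rcases sg_cases (g := g) hx j with ⟨a, h0, -, -, h3⟩ | ⟨-, h2⟩
  · have := h (a, j)
    simp only [fl, h0, if_false, max_eq_left_iff] at this
    linarith
  · linarith [hx.1 (g j, j), hτ j]

theorem le_one (hx : x ∈ E p k) (v : ZMod p × Fin (k + 1)) : x v ≤ 1 :=
  hx.2.1 ▸ single_le_sum (fun v _ => hx.1 v) (mem_univ _)

theorem sg_ne (hx : x ∈ E p k) : sg g x ≠ 0 := by
  intro h
  have := hx.2.1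
  rw [sum_eq_zero] at this
  · exact zero_ne_one this
  · rintro ⟨a, j⟩ -
    have hj : sg g x j = 0 := congrFun h j
    rcases sg_cases (g := g) hx j with ⟨a, -, h1, -, h3⟩ | ⟨h1, h2⟩
    · linarith
    · by_cases e : a = g j
      · rw [e, ← h2, hj]
      · exact h1 a e

theorem E_conn {i : ℕ} (hi : i < k) (b : E p k) (f : GenLoop (Fin i) (E p k) b) :
    GenLoop.Homotopic f GenLoop.const := by
  classical
  obtain ⟨g, hg⟩ : ∃ g : Fin (k + 1) → ZMod p, ∀ a j, b.1 (a, j) ≠ 0 → a = g j := by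
    have : ∀ j, ∃ c : ZMod p, ∀ a, b.1 (a, j) ≠ 0 → a = c := fun j => by
      by_cases h : ∃ c, b.1 (c, j) ≠ 0
      · obtain ⟨c, hc⟩ := h
        exact ⟨c, fun a ha => congrArg Prod.fst (b.2.2.2 _ _ ha hc rfl)⟩
      · exact ⟨0, fun a ha => absurd ⟨a, ha⟩ h⟩
    choose g hg using this
    exact ⟨g, fun a j => hg j a⟩
  have hfc : ∀ v, Continuous fun y => (f y).1 v := fun v =>
    (continuous_apply v).comp (continuous_subtype_val.comp f.1.continuous)
  let σ : (Fin i → unitInterval) → Fin (k + 1) → ℝ := fun y => sg g (f y).1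
  have hσ : Continuous σ := continuous_pi fun j => by
    simp only [σ, sg]; fun_prop
  obtain ⟨c, hc0, hc⟩ := isCompact_univ.exists_forall_le' (f := fun y => ‖σ y‖) (a := 0)
    hσ.norm.continuousOn fun y _ => norm_pos_iff.2 (sg_ne (f y).2)
  have hu : UniformContinuous fun w : Fin i → ℝ =>
      σ fun j => Set.projIcc 0 1 zero_le_one (w j) :=
    (CompactSpace.uniformContinuous_of_continuous hσ).comp (uniformContinuous_pi.2 fun j =>
      (LipschitzWith.projIcc zero_le_one).uniformContinuous.comp (Pi.uniformContinuous_proj _ j))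
  obtain ⟨G, hG, hG'⟩ := hu.exists_contDiff_dist_le (ε := c / 3) (by positivity)
  have hG1 : ContDiff ℝ 1 G := hG.of_le (by exact_mod_cast le_top)
  have hΨ : ContDiff ℝ 1 fun q : ℝ × (Fin i → ℝ) => q.1 • (G q.2 + fun _ => c / 3) := by fun_prop
  obtain ⟨v, hv1, hv2⟩ := (hΨ.dense_compl_range_of_finrank_lt_finrank (by simp; omega)).exists_mem_open
    (U := {v | ∀ j, 0 < v j}) (by
      simp only [Set.ofPred_forall]
      exact isOpen_iInter_of_finite fun j => isOpen_lt continuous_const (continuous_apply j))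
    ⟨fun _ => 1, fun _ => one_pos⟩
  obtain ⟨M, hM0, hM⟩ : ∃ M : ℝ, 0 ≤ M ∧ ∀ j, 1 ≤ M * v j := by
    refine ⟨∑ j, 1 / v j, sum_nonneg fun j _ => (one_div_pos.2 (hv2 j)).le, fun j => ?_⟩
    rw [← div_le_iff₀ (hv2 j)]
    exact single_le_sum (f := fun j => 1 / v j) (fun j _ => (one_div_pos.2 (hv2 j)).le) (mem_univ j)
  let d : (Fin i → unitInterval) → Fin (k + 1) → ℝ := fun y j =>
    G (fun l => y l) j + c / 3 - σ y j
  have hd : ∀ y j, 0 ≤ d y j ∧ d y j ≤ 2 * (c / 3) := fun y j => by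
    have := (dist_le_pi_dist _ _ j).trans_lt (hG' fun l => y l)
    simp only [Set.projIcc_val, Real.dist_eq, abs_lt] at this
    simp only [d]
    constructor <;> linarith [this.1, this.2]
  have hdc : ∀ j, Continuous fun y => d y j := fun j => by
    have := hG.continuous
    simp only [d]; fun_prop
  let lam : (Fin i → unitInterval) → ℝ := fun y => ∏ l, ((y l : ℝ) * (1 - y l))
  have hl : Continuous lam := by simp only [lam]; fun_prop
  have hl0 : ∀ y, 0 ≤ lam y := fun y =>
    prod_nonneg fun l _ => mul_nonneg (y l).2.1 (sub_nonneg.2 (y l).2.2)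
  have hlb : ∀ y, lam y = 0 ↔ y ∈ Cube.boundary (Fin i) := fun y => by
    simp only [lam, prod_eq_zero_iff, mem_univ, true_and, mul_eq_zero, Cube.boundary,
      Set.mem_ofPred_eq, sub_eq_zero, Subtype.ext_iff, eq_comm (a := (1 : ℝ))]
    rfl
  obtain ⟨δ, hδ0, hδ⟩ := (IsClosed.isCompact (s := {y | ∃ j, b.1 (g j, j) ≠ 0 ∧ σ y j ≤ 0}) (by
      simp only [Set.ofPred_exists]
      exact isClosed_iUnion_of_finite fun j => isClosed_const.inter
        (isClosed_le ((continuous_apply j).comp hσ) continuous_const))).exists_forall_le'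
    (f := lam) (a := 0) hl.continuousOn (by
      rintro y ⟨j, h1, h2⟩
      refine (hl0 y).lt_of_ne' fun h => ?_
      have := f.2 y ((hlb y).1 h)
      have e : σ y j = sg g b.1 j := by
        simp only [σ]; congr 2
      rcases sg_cases (g := g) b.2 j with ⟨a, -, -, h3, -⟩ | ⟨-, h3⟩
      · exact h1 h3
      · exact h1 (le_antisymm (by linarith) (b.2.1 _)))
  let τ : unitInterval × (Fin i → unitInterval) → Fin (k + 1) → ℝ := fun q j =>
    min 1 (lam q.2 / δ) * (min 1 (3 * (q.1 : ℝ)) * d q.2 j +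
      max 0 (min 1 (3 * (q.1 : ℝ) - 1)) * M * v j)
  have hτ : ∀ q j, 0 ≤ τ q j := fun q j =>
    mul_nonneg (le_min zero_le_one (div_nonneg (hl0 _) hδ0.le)) (add_nonneg
      (mul_nonneg (le_min zero_le_one (by linarith [q.1.2.1])) (hd _ _).1)
      (mul_nonneg (mul_nonneg (le_max_left _ _) hM0) (hv2 j).le))
  have near : ∀ y, (∀ j, b.1 (g j, j) ≠ 0 → 0 < σ y j) ∨ min 1 (lam y / δ) = 1 := fun y => by
    by_contra hn
    push Not at hn
    exact hn.2 (min_eq_left ((one_le_div hδ0).2 (hδ y hn.1)))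
  have small : ∀ y, ¬ ∀ j, |σ y j| ≤ 2 * (c / 3) := fun y h => by
    have := (pi_norm_le_iff_of_nonneg (x := σ y) (by positivity)).2 h
    linarith [hc y trivial]
  have factA : ∀ q, 0 < ∑ w, fl g (f q.2).1 (τ q) w := fun q => by
    refine (sum_nonneg fun w _ => fl_nonneg w).lt_of_ne' fun h => ?_
    have h0 : ∀ j, σ q.2 j + τ q j = 0 := fl_eq_zero (f q.2).2 (hτ q) fun w =>
      (sum_eq_zero_iff_of_nonneg fun w _ => fl_nonneg w).1 h w (mem_univ _)
    rcases near q.2 with h1 | h1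
    · obtain ⟨w, -, hw⟩ := exists_ne_zero_of_sum_ne_zero (b.2.2.1.trans_ne one_ne_zero)
      have := h1 w.2 (by rw [← hg w.1 w.2 hw]; exact hw)
      linarith [h0 w.2, hτ q w.2]
    · simp only [τ, h1, one_mul] at h0
      by_cases hb : max 0 (min 1 (3 * (q.1 : ℝ) - 1)) * M = 0
      · refine small q.2 fun j => ?_
        have := h0 j
        rw [hb, zero_mul, add_zero] at this
        have a1 : 0 ≤ min 1 (3 * (q.1 : ℝ)) := le_min zero_le_one (by linarith [q.1.2.1])
        have a2 : min 1 (3 * (q.1 : ℝ)) ≤ 1 := min_le_left _ _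
        rw [abs_le]; constructor <;> nlinarith [hd q.2 j]
      · have a1 : min 1 (3 * (q.1 : ℝ)) = 1 := by
          refine min_eq_left ?_
          by_contra hn
          exact hb (by rw [max_eq_left (min_le_of_right_le (by linarith)), zero_mul])
        refine hv1 ⟨(-(max 0 (min 1 (3 * (q.1 : ℝ) - 1)) * M)⁻¹, fun l => q.2 l), ?_⟩
        funext j
        have := h0 j
        simp only [a1, d] at this
        simp only [Pi.smul_apply, Pi.add_apply, smul_eq_mul]
        rw [neg_mul, neg_eq_iff_eq_neg, inv_mul_eq_iff_eq_mul₀ hb]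
        linarith
  have factB : ∀ q : unitInterval × (Fin i → unitInterval), 2 < 3 * (q.1 : ℝ) → ∀ j,
      b.1 (g j, j) ≠ 0 → 0 ≤ σ q.2 j + τ q j := fun q hq j hj => by
    rcases near q.2 with h1 | h1
    · linarith [h1 j hj, hτ q j]
    · simp only [τ, h1, one_mul]
      rw [min_eq_left (by linarith), min_eq_left (by linarith), max_eq_right zero_le_one]
      have : -1 ≤ σ q.2 j := by
        rcases sg_cases (g := g) (f q.2).2 j with ⟨a, -, -, -, h3⟩ | ⟨-, h3⟩
        · linarith [le_one (f q.2).2 (a, j)]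
        · linarith [(f q.2).2.1 (g j, j)]
      linarith [hd q.2 j, hM j]
  let θ : unitInterval → ℝ := fun t => max 0 (3 * (t : ℝ) - 2)
  have hθ : ∀ t, 0 ≤ θ t ∧ θ t ≤ 1 := fun t =>
    ⟨le_max_left _ _, max_le zero_le_one (by linarith [t.2.2])⟩
  let U : unitInterval × (Fin i → unitInterval) → ZMod p × Fin (k + 1) → ℝ := fun q w =>
    (1 - θ q.1) * fl g (f q.2).1 (τ q) w + θ q.1 * b.1 w
  have hUc : ∀ w, Continuous fun q => U q w := fun w => by
    have : Continuous fun q : unitInterval × (Fin i → unitInterval) =>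
        fl g (f q.2).1 (τ q) w := by
      unfold fl sg
      simp only [τ]
      split_ifs <;> fun_prop
    simp only [U, θ]; fun_prop
  have hUs : ∀ q, 0 < ∑ w, U q w := fun q => by
    simp only [U, sum_add_distrib, ← mul_sum, b.2.2.1]
    have := factA q
    rcases (hθ q.1).1.eq_or_lt with h | h
    · rw [← h]; linarith
    · nlinarith [hθ q.1]
  have hU : ∀ q, (fun w => U q w / ∑ w, U q w) ∈ E p k := fun q => by
    refine ⟨fun w => div_nonneg (add_nonneg (mul_nonneg (sub_nonneg.2 (hθ _).2) (fl_nonneg _))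
      (mul_nonneg (hθ _).1 (b.2.1 _))) (hUs q).le, by rw [← sum_div, div_self (hUs q).ne'], ?_⟩
    rintro ⟨a, j⟩ ⟨a', j'⟩ h1 h2 (rfl : j = j')
    have h1 : U q (a, j) ≠ 0 := fun h => h1 (by simp [h])
    have h2 : U q (a', j) ≠ 0 := fun h => h2 (by simp [h])
    refine Prod.ext ?_ rfl
    by_cases h : θ q.1 ≠ 0 ∧ b.1 (g j, j) ≠ 0
    · have hq : 2 < 3 * (q.1 : ℝ) := by
        by_contra hn; exact h.1 (max_eq_left (by linarith))
      have : ∀ a, U q (a, j) ≠ 0 → a = g j := fun a ha => by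
        by_contra hn
        have e : b.1 (a, j) = 0 := by by_contra h'; exact hn (hg a j h')
        exact ha (by simp only [U, e, fl_pos (f q.2).2 (hτ q) (factB q hq j h.2) hn]; simp)
      exact (this a h1).trans (this a' h2).symm
    · have : ∀ a, U q (a, j) ≠ 0 → fl g (f q.2).1 (τ q) (a, j) ≠ 0 := fun a ha h' => by
        apply ha
        simp only [U, h', mul_zero, zero_add, mul_eq_zero]
        by_contra hn
        push Not at hn
        exact h ⟨hn.1, hg a j hn.2 ▸ hn.2⟩
      exact fl_uniq (f q.2).2 (hτ q) (this a h1) (this a' h2)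
  refine ⟨⟨⟨⟨fun q => ⟨_, hU q⟩, Continuous.subtype_mk (continuous_pi fun w =>
    (hUc w).div (continuous_finsetSum _ fun w _ => hUc w) fun q => (hUs q).ne') _⟩,
    fun y => ?_, fun y => ?_⟩, fun t y hy => ?_⟩⟩
  · have : U (0, y) = (f y).1 := by
      have e : τ (0, y) = 0 := by funext j; simp [τ]
      funext w; simp [U, e, fl_zero (f y).2, θ]
    ext w
    simp only [this, (f y).2.2.1, div_one]; rfl
  · have : U (1, y) = b.1 := by
      funext w; norm_num [U, θ]
    ext w
    simp only [this, b.2.2.1, div_one]; rfl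
  · have e0 : f y = b := f.2 y hy
    have : U (t, y) = b.1 := by
      have e : τ (t, y) = 0 := by funext j; simp [τ, (hlb y).2 hy]
      funext w; simp only [U, e, e0, fl_zero b.2]; ring
    ext w
    show U (t, y) w / ∑ w, U (t, y) w = (f y).1 w
    simp only [this, b.2.2.1, div_one, e0]

theorem nconn_of {A : Type} [TopologicalSpace A] (e : E p k ≃ₜ A) {n : ℕ} (hn : n < k) :
    NConn A n := by
  classical
  refine ⟨⟨e ⟨Pi.single (0, 0) 1, fun v => ?_, by simp, fun u v hu hv _ => ?_⟩⟩, fun i hi x => ?_⟩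
  · rw [Pi.single_apply]; split_ifs <;> norm_num
  · rw [Pi.single_apply] at hu hv
    have a : u = (0, 0) := by simpa using hu
    have b : v = (0, 0) := by simpa using hv
    rw [a, b]
  · have : ∀ f : GenLoop (Fin i) A x, GenLoop.Homotopic f GenLoop.const := fun f => by
      have := (E_conn (lt_of_le_of_lt hi hn) (e.symm x)
        ⟨(e.symm : C(A, E p k)).comp f.1, fun y hy => by
          show e.symm (f.1 y) = _
          rw [f.2 y hy]⟩).comp_continuousMap (e : C(E p k, A))
      unfold GenLoop.Homotopic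
      convert this using 1
      · ext y; simp
      · ext y; simp [GenLoop.const]
    refine ⟨fun a b => ?_⟩
    induction a using Quotient.inductionOn
    induction b using Quotient.inductionOn
    exact Quotient.sound ((this _).trans (this _).symm)

end Pool.Agent.H17.Zp
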